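import Mathlib
import Pool.Agent.Y90.Clo

/-!
# Balanced products of forms
-/

set_option linter.unusedSectionVars false

namespace Pool.Agent.N995

open Pool.Agent.Y90

noncomputable section

variable {K : Type*} [Field K] {V : Type*} [AddCommGroup V] [Module K V]
  (N : ∀ (κ : Type) [Finite κ], Submodule K (MultilinearMap K (fun _ : κ => V) K))
  (hN : Clo N)
  {Ty : Type*} (sl : Ty → Type) [∀ t, Finite (sl t)]
  (ψ : ∀ t, MultilinearMap K (fun _ : sl t => V) K)

/-- The products of the forms of the family belong to the system. -/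
def Pr {A : Type} [Fintype A] (ty : A → Ty) : Prop :=
  ∀ (κ : Type) [Finite κ] (e : (Σ a, sl (ty a)) ≃ κ) (Ψ : MultilinearMap K (fun _ : κ => V) K),
    (∀ v, Ψ v = ∏ a, ψ (ty a) (fun k => v (e ⟨a, k⟩))) → Ψ ∈ N κ

/-- The existence of the products. -/
theorem exists_prod {A : Type} [Fintype A] (ty : A → Ty) :
    ∃ Ψ : MultilinearMap K (fun _ : (Σ a, sl (ty a)) => V) K,
      ∀ v, Ψ v = ∏ a, ψ (ty a) (fun k => v ⟨a, k⟩) := by
  let NT : ∀ (κ : Type) [Finite κ], Submodule K (MultilinearMap K (fun _ : κ => V) K) :=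
    fun κ _ => ⊤
  have hNT : Clo NT := ⟨fun _ _ _ _ => trivial, fun _ _ _ _ _ _ _ _ _ _ _ _ _ => trivial⟩
  obtain ⟨Ψ, -, hΨ⟩ := hNT.exists_fam (fun a => sl (ty a)) (fun a => ψ (ty a)) (fun _ => trivial)
    (Equiv.refl _)
  exact ⟨Ψ, fun v => hΨ v⟩

section peel

variable {A T : Type} (j : T → A) (hj : Function.Injective j)

/-- The complement of the image. -/
abbrev Cpl (j : T → A) : Type := {a // a ∉ Set.range j}

/-- The image and its complement. -/
def eA (hj : Function.Injective j) : T ⊕ Cpl j ≃ A :=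
  Equiv.ofBijective (Sum.elim j Subtype.val) (by
    constructor
    · rintro (t | a) (t' | a') h
      · rw [hj h]
      · exact absurd ⟨t, h⟩ a'.2
      · exact absurd ⟨t', h.symm⟩ a.2
      · rw [Subtype.ext h]
    · intro a
      by_cases h : a ∈ Set.range j
      · obtain ⟨t, ht⟩ := h
        exact ⟨Sum.inl t, ht⟩
      · exact ⟨Sum.inr ⟨a, h⟩, rfl⟩)

theorem sum_cpl [Fintype A] [Fintype T] [Fintype (Cpl j)] (hj : Function.Injective j) {R : Type*}
    [AddCommMonoid R] (f : A → R) : ∑ t, f (j t) + ∑ a : Cpl j, f a.1 = ∑ a, f a := by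
  rw [← Equiv.sum_comp (eA j hj) f, Fintype.sum_sum_type]
  rfl

include hN hj in
theorem Pr.peel [Fintype A] [Fintype T] [Fintype (Cpl j)] (ty : A → Ty)
    (h1 : Pr N sl ψ (fun t => ty (j t))) (h2 : Pr N sl ψ (fun a : Cpl j => ty a.1)) :
    Pr N sl ψ ty := by
  intro κ _ e Ψ hΨ
  obtain ⟨Φ₁, hΦ₁⟩ := exists_prod sl ψ (fun t => ty (j t))
  obtain ⟨Φ₂, hΦ₂⟩ := exists_prod sl ψ (fun a : Cpl j => ty a.1)
  let e' : (Σ t, sl (ty (j t))) ⊕ (Σ a : Cpl j, sl (ty a.1)) ≃ κ :=
    (Equiv.sumSigmaDistrib (fun x : T ⊕ Cpl j => sl (ty (eA j hj x)))).symm.trans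
      ((Equiv.sigmaCongrLeft (β := fun a => sl (ty a)) (eA j hj)).trans e)
  refine hN.mul _ _ κ e' Φ₁ Φ₂ Ψ (h1 _ (Equiv.refl _) Φ₁ hΦ₁) (h2 _ (Equiv.refl _) Φ₂ hΦ₂)
    fun v => ?_
  rw [hΨ, hΦ₁, hΦ₂, ← Equiv.prod_comp (eA j hj), Fintype.prod_sum_type]
  rfl

end peel

section main

/-- The sign of a truth value. -/
def sg (b : Bool) : ℤ := if b then 1 else -1

variable (kind : Ty → Option (Fin 3 × Bool)) {S : Type*} (ε : Fin 3 → S → ℤ)

/-- The multiplicity of a kind. -/
def mk3 : Fin 3 → ℤ := ![2, 2, 1]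

/-- The weight. -/
def wt (o : Option (Fin 3 × Bool)) (s : S) : ℤ :=
  match o with
  | none => 0
  | some p => sg p.2 * mk3 p.1 * ε p.1 s

variable (H0 : ∀ t, kind t = none → ψ t ∈ N (sl t))
  (H1 : ∀ t t' c, kind t = some (c, true) → kind t' = some (c, false) →
    Pr N sl ψ (fun i : Fin 2 => (![t, t'] : Fin 2 → Ty) i))
  (H2 : ∀ t0 t1 t2 t3 b0 b1 b2, kind t0 = some (0, b0) → kind t1 = some (1, b1) →
    kind t2 = some (2, b2) → kind t3 = some (2, b2) →
    (∀ s, sg b0 * ε 0 s + sg b1 * ε 1 s + sg b2 * ε 2 s = 0) →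
    Pr N sl ψ (fun i : Fin 4 => (![t0, t1, t2, t3] : Fin 4 → Ty) i))
  (hs0 : ∃ s, (ε 0 s = 1 ∨ ε 0 s = -1) ∧ ε 1 s = 0 ∧ (ε 2 s = 1 ∨ ε 2 s = -1))
  (hs1 : ∃ s, ε 0 s = 0 ∧ (ε 1 s = 1 ∨ ε 1 s = -1) ∧ (ε 2 s = 1 ∨ ε 2 s = -1))

theorem sg_pm (b : Bool) : sg b = 1 ∨ sg b = -1 := by
  cases b
  · exact Or.inr rfl
  · exact Or.inl rfl

include hN H0 H1 H2 hs0 hs1 in
/-- **Balanced products belong to the system.** -/
theorem comb (n : ℕ) : ∀ (A : Type) [Fintype A] (ty : A → Ty), Fintype.card A = n →
    (∀ s, ∑ a, wt ε (kind (ty a)) s = 0) → Pr N sl ψ ty := by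
  classical
  induction n using Nat.strong_induction_on with
  | _ n ih =>
    intro A _ ty hcard hbal
    -- removing a block
    have hpeel : ∀ (T : Type) [Fintype T] (j : T → A), Nonempty T → Function.Injective j →
        Pr N sl ψ (fun t => ty (j t)) → (∀ s, ∑ t, wt ε (kind (ty (j t))) s = 0) →
        Pr N sl ψ ty := by
      intro T _ j hT hj h1 h2
      refine Pr.peel N hN sl ψ j hj ty h1 (ih (Fintype.card (Cpl j)) ?_ _ _ rfl fun s => ?_)
      · rw [← hcard]
        obtain ⟨t⟩ := hT
        exact Fintype.card_subtype_lt (x := j t) (fun h => h ⟨t, rfl⟩)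
      · have h3 := sum_cpl j hj (fun a => wt ε (kind (ty a)) s)
        rw [h2 s, zero_add] at h3
        rw [h3, hbal]
    by_cases hA : ∃ a, kind (ty a) = none
    · obtain ⟨a, ha⟩ := hA
      refine hpeel Unit (fun _ => a) ⟨()⟩ (fun _ _ _ => rfl) ?_ fun s => ?_
      · intro κ _ e Ψ hΨ
        exact hN.fam_prod (fun _ : Unit => sl (ty a)) (fun _ => ψ (ty a)) (fun _ => H0 _ ha) e Ψ hΨ
      · rw [Fintype.sum_unique, ha]
        rfl
    by_cases hB : ∃ a a' c, kind (ty a) = some (c, true) ∧ kind (ty a') = some (c, false)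
    · obtain ⟨a, a', c, ha, ha'⟩ := hB
      have hne : a ≠ a' := by
        rintro rfl
        rw [ha] at ha'
        simp at ha'
      refine hpeel (Fin 2) ![a, a'] ⟨0⟩ ?_ ?_ fun s => ?_
      · intro x y h
        fin_cases x <;> fin_cases y
        · rfl
        · exact absurd h hne
        · exact absurd h.symm hne
        · rfl
      · have h1 := H1 _ _ c ha ha'
        have h2 : (fun i : Fin 2 => (![ty a, ty a'] : Fin 2 → Ty) i) =
            fun t => ty ((![a, a'] : Fin 2 → A) t) := by
          funext i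
          fin_cases i <;> rfl
        rwa [h2] at h1
      · rw [Fin.sum_univ_two]
        change wt ε (kind (ty a)) s + wt ε (kind (ty a')) s = 0
        rw [ha, ha']
        simp only [wt, sg]
        norm_num
    -- the signs
    push Not at hA hB
    have hsgn : ∀ c, ∃ b, ∀ a b', kind (ty a) = some (c, b') → b' = b := by
      intro c
      by_cases h : ∃ a, kind (ty a) = some (c, true)
      · obtain ⟨a, ha⟩ := h
        refine ⟨true, fun a' b' h' => ?_⟩
        cases b'
        · exact absurd h' (hB a a' c ha)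
        · rfl
      · push Not at h
        refine ⟨false, fun a' b' h' => ?_⟩
        cases b'
        · rfl
        · exact absurd h' (h a')
    choose b hb using hsgn
    let cn : Fin 3 → ℕ := fun c => (Finset.univ.filter fun a => kind (ty a) = some (c, b c)).card
    have hk : ∀ a, ∃ c, kind (ty a) = some (c, b c) := by
      intro a
      obtain ⟨p, hp⟩ := Option.ne_none_iff_exists'.1 (hA a)
      refine ⟨p.1, ?_⟩
      rw [hp, ← hb p.1 a p.2 hp]
    have hw : ∀ s, ∑ c : Fin 3, (cn c : ℤ) * (sg (b c) * mk3 c * ε c s) = 0 := by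
      intro s
      rw [← hbal s]
      have h1 : ∀ a, wt ε (kind (ty a)) s =
          ∑ c : Fin 3, if kind (ty a) = some (c, b c) then sg (b c) * mk3 c * ε c s else 0 := by
        intro a
        obtain ⟨c, hc⟩ := hk a
        rw [Finset.sum_eq_single c]
        · rw [if_pos hc, hc]
          rfl
        · intro c' _ hc'
          rw [if_neg]
          rw [hc]
          intro h
          rw [Option.some.injEq, Prod.mk.injEq] at h
          exact hc' h.1.symm
        · intro h
          exact absurd (Finset.mem_univ _) h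
      rw [Finset.sum_congr rfl fun a _ => h1 a, Finset.sum_comm]
      refine Finset.sum_congr rfl fun c _ => ?_
      rw [← Finset.sum_filter, Finset.sum_const, nsmul_eq_mul]
    simp only [Fin.sum_univ_three] at hw
    have hm0 : mk3 0 = 2 := rfl
    have hm1 : mk3 1 = 2 := rfl
    have hm2 : mk3 2 = 1 := rfl
    have e0 : (cn 2 : ℤ) = 2 * cn 0 := by
      obtain ⟨s, h1, h2, h3⟩ := hs0
      have h4 := hw s
      rw [hm0, hm1, hm2, h2] at h4
      rcases sg_pm (b 0) with h5 | h5 <;> rcases sg_pm (b 2) with h6 | h6 <;>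
        rcases h1 with h1 | h1 <;> rcases h3 with h3 | h3 <;>
        rw [h5, h6, h1, h3] at h4 <;> omega
    have e1 : (cn 2 : ℤ) = 2 * cn 1 := by
      obtain ⟨s, h1, h2, h3⟩ := hs1
      have h4 := hw s
      rw [hm0, hm1, hm2, h1] at h4
      rcases sg_pm (b 1) with h5 | h5 <;> rcases sg_pm (b 2) with h6 | h6 <;>
        rcases h2 with h2 | h2 <;> rcases h3 with h3 | h3 <;>
        rw [h5, h6, h2, h3] at h4 <;> omega
    rcases Nat.eq_zero_or_pos (cn 0) with h0 | h0
    · have hE : IsEmpty A := by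
        refine ⟨fun a => ?_⟩
        obtain ⟨c, hc⟩ := hk a
        have h1 : 0 < cn c := Finset.card_pos.2 ⟨a, Finset.mem_filter.2 ⟨Finset.mem_univ _, hc⟩⟩
        fin_cases c
        · have h2 : 0 < cn 0 := h1
          omega
        · have h2 : 0 < cn 1 := h1
          omega
        · have h2 : 0 < cn 2 := h1
          omega
      intro κ _ e Ψ _
      have : IsEmpty κ := ⟨fun k => hE.false (e.symm k).1⟩
      exact hN.unit κ Ψ
    · have hc1 : 0 < cn 1 := by omega
      have hc2 : 1 < cn 2 := by omega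
      obtain ⟨a0, h3⟩ := Finset.card_pos.1 h0
      obtain ⟨a1, h4⟩ := Finset.card_pos.1 hc1
      obtain ⟨a2, h5, a3, h6, h56⟩ := Finset.one_lt_card.1 hc2
      rw [Finset.mem_filter] at h3 h4 h5 h6
      have hrel : ∀ s, sg (b 0) * ε 0 s + sg (b 1) * ε 1 s + sg (b 2) * ε 2 s = 0 := by
        intro s
        have h7 := hw s
        have h8 : (cn 1 : ℤ) = cn 0 := by omega
        rw [hm0, hm1, hm2, e0, h8] at h7
        have h9 : (2 * (cn 0 : ℤ)) * (sg (b 0) * ε 0 s + sg (b 1) * ε 1 s + sg (b 2) * ε 2 s) =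
            0 := by
          linear_combination h7
        rcases mul_eq_zero.1 h9 with h10 | h10
        · omega
        · exact h10
      have n01 : a0 ≠ a1 := by
        rintro rfl
        have h7 := h3.2.symm.trans h4.2
        simp at h7
      have n02 : a0 ≠ a2 := by
        rintro rfl
        have h7 := h3.2.symm.trans h5.2
        simp at h7
      have n03 : a0 ≠ a3 := by
        rintro rfl
        have h7 := h3.2.symm.trans h6.2
        simp at h7
      have n12 : a1 ≠ a2 := by
        rintro rfl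
        have h7 := h4.2.symm.trans h5.2
        simp at h7
      have n13 : a1 ≠ a3 := by
        rintro rfl
        have h7 := h4.2.symm.trans h6.2
        simp at h7
      refine hpeel (Fin 4) ![a0, a1, a2, a3] ⟨0⟩ ?_ ?_ fun s => ?_
      · intro x y h
        fin_cases x <;> fin_cases y <;>
          first
          | rfl
          | exact absurd h n01
          | exact absurd h n02
          | exact absurd h n03
          | exact absurd h n12
          | exact absurd h n13
          | exact absurd h h56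
          | exact absurd h.symm n01
          | exact absurd h.symm n02
          | exact absurd h.symm n03
          | exact absurd h.symm n12
          | exact absurd h.symm n13
          | exact absurd h.symm h56
      · have h7 := H2 _ _ _ _ _ _ _ h3.2 h4.2 h5.2 h6.2 hrel
        have h8 : (fun i : Fin 4 => (![ty a0, ty a1, ty a2, ty a3] : Fin 4 → Ty) i) =
            fun t => ty ((![a0, a1, a2, a3] : Fin 4 → A) t) := by
          funext i
          fin_cases i <;> rfl
        rwa [h8] at h7
      · rw [Fin.sum_univ_four]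
        change wt ε (kind (ty a0)) s + wt ε (kind (ty a1)) s + wt ε (kind (ty a2)) s +
          wt ε (kind (ty a3)) s = 0
        rw [h3.2, h4.2, h5.2, h6.2]
        have h7 := hrel s
        change sg (b 0) * 2 * ε 0 s + sg (b 1) * 2 * ε 1 s + sg (b 2) * 1 * ε 2 s +
          sg (b 2) * 1 * ε 2 s = 0
        linear_combination 2 * h7

end main

end

end Pool.Agent.N995
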