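import Pool.Agent.Y127.FftS

/-!
# The first fundamental theorem for the special orthogonal Lie algebra, with explicit generators

Multilinear forms with values in a vector space which are invariant under the Lie algebra of a
nondegenerate symmetric form are combinations of products of the form on pairs of variables, and of
such products with one determinant.
-/

set_option linter.unusedSectionVars false

open Finset Function

namespace Pool.Agent.N995

open Pool.Agent.TH125.Nod Pool.Agent.Y127

universe u v

variable {K : Type u} [Field K] {J : Type} [Fintype J] [DecidableEq J]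
  {M : Type v} [AddCommGroup M] [Module K M]

variable (K) in
/-- the determinant of an index function -/
def dJ (y : J → J) : K := (Matrix.of fun a b : J => if y a = b then (1 : K) else 0).det

/-- a product of forms on pairs of variables and of one form -/
def gS (Q : Matrix J J K) {S P T : Type} [Fintype P] (D : (T → J) → K) (e : (P × Fin 2) ⊕ T ≃ S)
    (w : M) : (S → J) → M :=
  fun x => ((∏ l, Q (x (e (Sum.inl (l, 0)))) (x (e (Sum.inl (l, 1))))) *
    D fun t => x (e (Sum.inr t))) • w

/-- the span of the products -/
def GS (M : Type v) [AddCommGroup M] [Module K M] (Q : Matrix J J K) (S : Type) {T : Type}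
    (D : (T → J) → K) : Submodule K ((S → J) → M) :=
  Submodule.span K {f | ∃ (P : Type) (_ : Fintype P) (e : (P × Fin 2) ⊕ T ≃ S) (w : M),
    f = gS Q D e w}

section
variable {S : Type} [Fintype S] [DecidableEq S] {T : Type} (D : (T → J) → K)

theorem gS_mem (Q : Matrix J J K) {P : Type} [Fintype P] (e : (P × Fin 2) ⊕ T ≃ S) (w : M) :
    gS Q D e w ∈ GS M Q S D := Submodule.subset_span ⟨P, inferInstance, e, w, rfl⟩

theorem GS_perm {Q : Matrix J J K} (σ : Equiv.Perm S) {f : (S → J) → M} (hf : f ∈ GS M Q S D) :
    (fun x : S → J => f (fun j => x (σ j))) ∈ GS M Q S D := by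
  unfold GS at hf
  induction hf using Submodule.span_induction with
  | mem f hf =>
    obtain ⟨P, _, e, w, rfl⟩ := hf
    exact gS_mem D Q (e.trans σ) w
  | zero => exact Submodule.zero_mem _
  | add f f' _ _ hf hf' => exact Submodule.add_mem _ hf hf'
  | smul c f _ hf => exact Submodule.smul_mem _ c hf

theorem GS_mul {Q : Matrix J J K} {a b : S} (hab : a ≠ b)
    {f : ({x // x ≠ a ∧ x ≠ b} → J) → M} (hf : f ∈ GS M Q {x // x ≠ a ∧ x ≠ b} D) :
    (fun x : S → J => Q (x a) (x b) • f (fun y => x y.1)) ∈ GS M Q S D := by
  unfold GS at hf
  induction hf using Submodule.span_induction with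
  | mem f hf =>
    obtain ⟨P, _, e, w, rfl⟩ := hf
    let F : (Option P × Fin 2) ⊕ T → S := fun p =>
      match p with
      | Sum.inl (none, t) => if t = 0 then a else b
      | Sum.inl (some l, t) => (e (Sum.inl (l, t))).1
      | Sum.inr t => (e (Sum.inr t)).1
    have hbij : Bijective F := by
      constructor
      · rintro (⟨l, t⟩ | t) (⟨l', t'⟩ | t') h
        · rcases l with _ | l <;> rcases l' with _ | l'
          · fin_cases t <;> fin_cases t'
            · rfl
            · exact absurd h hab
            · exact absurd h (Ne.symm hab)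
            · rfl
          · exfalso
            have h1 := (e (Sum.inl (l', t'))).2
            have h2 : (if t = 0 then a else b) = (e (Sum.inl (l', t'))).1 := h
            split_ifs at h2
            · exact h1.1 h2.symm
            · exact h1.2 h2.symm
          · exfalso
            have h1 := (e (Sum.inl (l, t))).2
            have h2 : (e (Sum.inl (l, t))).1 = (if t' = 0 then a else b) := h
            split_ifs at h2
            · exact h1.1 h2
            · exact h1.2 h2
          · have h1 := e.injective (Subtype.ext h)
            rw [Sum.inl.injEq, Prod.mk.injEq] at h1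
            rw [h1.1, h1.2]
        · rcases l with _ | l
          · exfalso
            have h1 := (e (Sum.inr t')).2
            have h2 : (if t = 0 then a else b) = (e (Sum.inr t')).1 := h
            split_ifs at h2
            · exact h1.1 h2.symm
            · exact h1.2 h2.symm
          · exact absurd (e.injective (Subtype.ext h)) (by simp)
        · rcases l' with _ | l'
          · exfalso
            have h1 := (e (Sum.inr t)).2
            have h2 : (e (Sum.inr t)).1 = (if t' = 0 then a else b) := h
            split_ifs at h2
            · exact h1.1 h2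
            · exact h1.2 h2
          · exact absurd (e.injective (Subtype.ext h)) (by simp)
        · have h1 := e.injective (Subtype.ext h)
          rw [Sum.inr_injective h1]
      · intro x
        by_cases h1 : x = a
        · exact ⟨Sum.inl (none, 0), by rw [h1]; rfl⟩
        by_cases h2 : x = b
        · exact ⟨Sum.inl (none, 1), by rw [h2]; rfl⟩
        obtain ⟨p, hp⟩ := e.surjective ⟨x, h1, h2⟩
        rcases p with ⟨l, t⟩ | t
        · exact ⟨Sum.inl (some l, t), congrArg Subtype.val hp⟩
        · exact ⟨Sum.inr t, congrArg Subtype.val hp⟩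
    refine Submodule.subset_span ⟨Option P, inferInstance, Equiv.ofBijective F hbij, w, ?_⟩
    funext x
    unfold gS
    rw [Fintype.prod_option, smul_smul, mul_assoc]
    rfl
  | zero =>
    have h1 : (fun x : S → J => Q (x a) (x b) •
        (0 : ({x // x ≠ a ∧ x ≠ b} → J) → M) (fun y => x y.1)) = 0 := by
      funext x
      rw [Pi.zero_apply, smul_zero, Pi.zero_apply]
    rw [h1]
    exact Submodule.zero_mem _
  | add f f' _ _ hf hf' =>
    have h1 := Submodule.add_mem _ hf hf'
    have h2 : (fun x : S → J => Q (x a) (x b) • (f + f') (fun y => x y.1)) =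
        (fun x : S → J => Q (x a) (x b) • f (fun y => x y.1)) +
        fun x : S → J => Q (x a) (x b) • f' (fun y => x y.1) := by
      funext x
      rw [Pi.add_apply, Pi.add_apply, smul_add]
    rw [h2]
    exact h1
  | smul c f _ hf =>
    have h1 := Submodule.smul_mem _ c hf
    have h2 : (fun x : S → J => Q (x a) (x b) • (c • f) (fun y => x y.1)) =
        c • fun x : S → J => Q (x a) (x b) • f (fun y => x y.1) := by
      funext x
      rw [Pi.smul_apply, Pi.smul_apply, smul_comm]
    rw [h2]
    exact h1

end

/-- alternating forms of top degree -/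
theorem top_GS {Q : Matrix J J K} {S : Type} [Fintype S] [DecidableEq S]
    (hc : Fintype.card S = Fintype.card J) {f : (S → J) → M} (h1 : ∀ x, ¬Bijective x → f x = 0)
    (h2 : ∀ x a b, a ≠ b → f (x ∘ Equiv.swap a b) = -f x) : f ∈ GS M Q S (dJ K) := by
  classical
  let e : J ≃ S := Fintype.equivOfCardEq hc.symm
  let e' : (Empty × Fin 2) ⊕ J ≃ S := (Equiv.emptySum _ _).trans e
  refine Submodule.subset_span ⟨Empty, inferInstance, e', f e.symm, ?_⟩
  funext x
  have h0 : gS Q (dJ K) e' (f e.symm) x = (dtf e x : K) • f e.symm := by
    unfold gS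
    rw [Finset.univ_eq_empty, Finset.prod_empty, one_mul]
    rfl
  rw [h0]
  by_cases hx : Bijective x
  · -- `x` is a permutation of `e.symm`
    let σ : Equiv.Perm S := (Equiv.ofBijective x hx).trans e
    have hσ : x = e.symm ∘ σ := by
      funext s
      simp [σ]
    have h3 : ∀ σ : Equiv.Perm S, f (e.symm ∘ σ) = (dtf e (e.symm ∘ σ) : K) • f e.symm := by
      intro σ
      induction σ using Equiv.Perm.swap_induction_on' with
      | one =>
        have h4 : (dtf e (e.symm ∘ (1 : Equiv.Perm S)) : K) = 1 := by
          rw [dtf]
          have h5 : (Matrix.of fun a b : J => if (e.symm ∘ (1 : Equiv.Perm S)) (e a) = b then (1 : K)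
              else 0) = 1 := by
            ext a b
            simp [Matrix.one_apply]
          rw [h5, Matrix.det_one]
        rw [h4, one_smul]
        rfl
      | mul_swap f' a b hab ih =>
        have h4 : (e.symm ∘ (f' * Equiv.swap a b : Equiv.Perm S)) =
            (e.symm ∘ f') ∘ Equiv.swap a b := rfl
        rw [h4, h2 _ a b hab, dtf_swap e _ hab, ih, neg_smul]
    rw [hσ]
    exact h3 σ
  · rw [h1 x hx, dtf_zero e hx, zero_smul]

variable {Q R : Matrix J J K} (hQs : ∀ a b, Q a b = Q b a) (hQR : Q * R = 1)

include hQs hQR in
/-- **The first fundamental theorem** for the special orthogonal Lie algebra. -/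
theorem fso [CharZero K] (N : ℕ) : ∀ (S : Type) [Fintype S] [DecidableEq S]
    (f : (S → J) → M), Fintype.card S = N → Inv (fun _ : J => ()) Q (fun _ => 1) f →
    f ∈ GS M Q S (fun _ : Empty → J => (1 : K)) ⊔ GS M Q S (dJ K) := by
  classical
  induction N using Nat.strong_induction_on with
  | _ N ih =>
    intro S _ _ f hN hinv
    rcases isEmpty_or_nonempty S with hS | hS
    · let e' : (Empty × Fin 2) ⊕ Empty ≃ S := Equiv.equivOfIsEmpty _ _
      refine Submodule.mem_sup_left (Submodule.subset_span
        ⟨Empty, inferInstance, e', f (fun j => (hS.false j).elim), ?_⟩)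
      funext x
      unfold gS
      rw [Finset.univ_eq_empty, Finset.prod_empty, one_mul, one_smul]
      congr 1
      funext j
      exact (hS.false j).elim
    · have hA : opA f ∈ GS M Q S (fun _ : Empty → J => (1 : K)) ⊔ GS M Q S (dJ K) := by
        rw [opA_con hQR hinv]
        refine Submodule.sum_mem _ fun a _ => Submodule.sum_mem _ fun b hb => ?_
        have hab : a ≠ b := Ne.symm (Finset.mem_erase.1 hb).1
        have h1 : con1 R a b f ∈ GS M Q {x // x ≠ a ∧ x ≠ b} (fun _ : Empty → J => (1 : K)) ⊔
            GS M Q {x // x ≠ a ∧ x ≠ b} (dJ K) := by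
          refine ih (Fintype.card {x // x ≠ a ∧ x ≠ b}) ?_ _ _ rfl ?_
          · rw [← hN]
            exact Fintype.card_subtype_lt (x := a) (fun h => h.1 rfl)
          · have h2 := inv_con (κ := fun _ : J => ()) (Q := Q) (R := R) (s := fun _ => 1)
              (fun _ => Or.inl rfl) (fun a b h => absurd rfl h)
              (fun a b => by rw [Int.cast_one, one_mul]; exact hQs a b) hQR
              (f := f) (by simpa using hinv) (i := ()) hab
            simpa using h2
        obtain ⟨f0, hf0, f1, hf1, hff⟩ := Submodule.mem_sup.1 h1
        rw [← hff]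
        refine Submodule.mem_sup.2 ⟨_, GS_mul _ hab hf0, _, GS_mul _ hab hf1, ?_⟩
        funext x
        rw [Pi.add_apply, Pi.add_apply, smul_add]
      obtain ⟨f₀, h1, h2, h3⟩ := exists_dec (K := K)
        (GS M Q S (fun _ : Empty → J => (1 : K)) ⊔ GS M Q S (dJ K))
        (fun g hg a b => by
          obtain ⟨f0, hf0, f1, hf1, rfl⟩ := Submodule.mem_sup.1 hg
          exact Submodule.mem_sup.2 ⟨_, GS_perm _ (Equiv.swap a b) hf0, _,
            GS_perm _ (Equiv.swap a b) hf1, rfl⟩) hA
      have hf0 : f₀ ∈ GS M Q S (fun _ : Empty → J => (1 : K)) ⊔ GS M Q S (dJ K) := by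
        by_cases hc : Fintype.card S = Fintype.card J
        · obtain ⟨h4, h5⟩ := h3 hc
          exact Submodule.mem_sup_right (top_GS hc h4 h5)
        · rw [h2 Fintype.card_pos hc]
          exact Submodule.zero_mem _
      have h4 := Submodule.add_mem _ h1 hf0
      rwa [sub_add_cancel] at h4

end Pool.Agent.N995
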