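import Mathlib
import Pool.Agent.N995.Fso
import Pool.Agent.N995.Comb
import Pool.Agent.H204R3.SP.Lie

/-!
# The engine: forms killed by a product of Lie algebras
-/

set_option linter.unusedSectionVars false

namespace Pool.Agent.N995

open Matrix Pool.Agent.Y90 Pool.Agent.TH125.Nod
open Pool.Agent.H204R3.SP (bil2)

noncomputable section

/-- The index type of the model. -/
abbrev BB (O P Λ : Type) : Type := O ⊕ ((P × Fin 2) ⊕ Λ)

/-- The form is killed by the matrix. -/
def KillM {B κ : Type} [Fintype B] [Fintype κ] [DecidableEq κ] (A : Matrix B B ℂ)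
    (F : MultilinearMap ℂ (fun _ : κ => B → ℂ) ℂ) : Prop :=
  ∀ v, ∑ k, F (Function.update v k (A *ᵥ v k)) = 0

/-- The alternating form in dimension two. -/
def eps (a b : Fin 2) : ℂ := if a = b then 0 else if a = 0 then 1 else -1

theorem eps_anti (a b : Fin 2) : eps a b = -eps b a := by
  fin_cases a <;> fin_cases b <;> simp [eps]

theorem eps_plu (a b c d : Fin 2) : eps a b * eps c d = eps a c * eps b d - eps a d * eps b c := by
  fin_cases a <;> fin_cases b <;> fin_cases c <;> fin_cases d <;> simp [eps]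

variable {O P Λ : Type} [Fintype O] [DecidableEq O] [Fintype P] [DecidableEq P] [Fintype Λ]
  [DecidableEq Λ]

/-- The basis vectors. -/
abbrev eb (x : BB O P Λ) : BB O P Λ → ℂ := Pi.single x 1

/-- The elementary operators on the first part. -/
def opO (QO : Matrix O O ℂ) (u v : O) : Matrix (BB O P Λ) (BB O P Λ) ℂ :=
  fromBlocks (Matrix.of fun x y => QO v y * (if x = u then 1 else 0) -
    QO u y * (if x = v then 1 else 0)) 0 0 0

/-- The elementary operators on the second part. -/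
def opP (cl : P → Fin 3) (c : Fin 3) (a b : Fin 2) : Matrix (BB O P Λ) (BB O P Λ) ℂ :=
  fromBlocks 0 0 0 (fromBlocks (Matrix.of fun x y => if x.1 = y.1 ∧ cl y.1 = c then
    eps b y.2 * (if x.2 = a then 1 else 0) + eps a y.2 * (if x.2 = b then 1 else 0) else 0) 0 0 0)

/-- The diagonal operators. -/
def opW (wP : P → ℂ) (wL : Λ → ℂ) : Matrix (BB O P Λ) (BB O P Λ) ℂ :=
  diagonal (Sum.elim 0 (Sum.elim (fun x => wP x.1) wL))

theorem opO_inl (QO : Matrix O O ℂ) (u v y : O) : opO QO u v *ᵥ eb (Sum.inl y : BB O P Λ) =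
    QO v y • eb (Sum.inl u) - QO u y • eb (Sum.inl v) := by
  rw [mulVec_single_one]
  funext x
  rcases x with x | x
  · simp only [opO, col_apply, fromBlocks_apply₁₁, of_apply, Pi.sub_apply, Pi.smul_apply,
      smul_eq_mul, eb, Pi.single_apply, Sum.inl.injEq]
  · simp only [opO, col_apply, fromBlocks_apply₂₁, Matrix.zero_apply, Pi.sub_apply, Pi.smul_apply,
      smul_eq_mul, eb, Pi.single_apply, reduceCtorEq, if_false, mul_zero, sub_zero]

theorem opO_inr (QO : Matrix O O ℂ) (u v : O) (y : (P × Fin 2) ⊕ Λ) :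
    opO QO u v *ᵥ eb (Sum.inr y : BB O P Λ) = 0 := by
  rw [mulVec_single_one]
  funext x
  rcases x with x | x <;> rfl

theorem opP_inl (cl : P → Fin 3) (c : Fin 3) (a b : Fin 2) (y : O) :
    opP cl c a b *ᵥ eb (Sum.inl y : BB O P Λ) = 0 := by
  rw [mulVec_single_one]
  funext x
  rcases x with x | x <;> rfl

theorem opP_l (cl : P → Fin 3) (c : Fin 3) (a b : Fin 2) (y : Λ) :
    opP cl c a b *ᵥ eb (Sum.inr (Sum.inr y) : BB O P Λ) = 0 := by
  rw [mulVec_single_one]
  funext x
  rcases x with x | x | x <;> rfl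

theorem opP_p (cl : P → Fin 3) (c : Fin 3) (a b : Fin 2) (q : P) (y : Fin 2) :
    opP cl c a b *ᵥ eb (Sum.inr (Sum.inl (q, y)) : BB O P Λ) = if cl q = c then
      eps b y • eb (Sum.inr (Sum.inl (q, a))) + eps a y • eb (Sum.inr (Sum.inl (q, b))) else 0 := by
  rw [mulVec_single_one]
  funext x
  rcases x with x | x | x
  · split_ifs <;> simp [opP, col_apply, eb]
  · simp only [opP, col_apply, fromBlocks_apply₂₂, fromBlocks_apply₁₁, of_apply]
    by_cases hc : cl q = c
    · rw [if_pos hc]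
      by_cases hx : x.1 = q
      · rw [if_pos ⟨hx, hc⟩]
        simp only [Pi.add_apply, Pi.smul_apply, smul_eq_mul, eb, Pi.single_apply, Sum.inr.injEq,
          Sum.inl.injEq, Prod.ext_iff, hx, true_and]
      · rw [if_neg (fun h => hx h.1)]
        simp only [Pi.add_apply, Pi.smul_apply, smul_eq_mul, eb, Pi.single_apply, Sum.inr.injEq,
          Sum.inl.injEq, Prod.ext_iff, hx, false_and, if_false, mul_zero, add_zero]
    · rw [if_neg hc, if_neg (fun h => hc h.2)]
      rfl
  · split_ifs <;> simp [opP, col_apply, eb]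

theorem opW_eb (wP : P → ℂ) (wL : Λ → ℂ) (y : BB O P Λ) :
    opW wP wL *ᵥ eb y = (Sum.elim 0 (Sum.elim (fun x => wP x.1) wL) y : ℂ) • eb y := by
  rw [mulVec_single_one]
  funext x
  unfold opW
  rw [col_apply, diagonal_apply, Pi.smul_apply, smul_eq_mul, eb, Pi.single_apply]
  by_cases h : x = y
  · subst h
    simp
  · simp [h]

/-- The types of the factors of the products. -/
inductive Ty (P Λ : Type) : Type
  | q : Ty P Λ
  | d : Ty P Λ
  | p (a b : P) : Ty P Λ
  | l (i : Λ) : Ty P Λ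

/-- The variables of the factors. -/
def sl (O : Type) : Ty P Λ → Type
  | Ty.q => Fin 2
  | Ty.d => O
  | Ty.p _ _ => Fin 2
  | Ty.l _ => Unit

instance (t : Ty P Λ) : Finite (sl O t) := by
  cases t
  · exact inferInstanceAs (Finite (Fin 2))
  · exact inferInstanceAs (Finite O)
  · exact inferInstanceAs (Finite (Fin 2))
  · exact inferInstanceAs (Finite Unit)

/-- The matrix of the pairing of the first part. -/
def mQ (QO : Matrix O O ℂ) : Matrix (BB O P Λ) (BB O P Λ) ℂ := fromBlocks QO 0 0 0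

/-- The matrix of the pairing of two labels. -/
def mP (cl : P → Fin 3) (a b : P) : Matrix (BB O P Λ) (BB O P Λ) ℂ :=
  fromBlocks 0 0 0 (fromBlocks (Matrix.of fun x y => if x.1 = a ∧ y.1 = b ∧ cl a = cl b then
    eps x.2 y.2 else 0) 0 0 0)

/-- The factors of the products. -/
def fm (QO : Matrix O O ℂ) (cl : P → Fin 3) :
    ∀ t : Ty P Λ, MultilinearMap ℂ (fun _ : sl O t => BB O P Λ → ℂ) ℂ
  | Ty.q => bil2 (Matrix.toBilin' (mQ QO))
  | Ty.d => (Matrix.detRowAlternating (n := O) (R := ℂ)).toMultilinearMap.compLinearMap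
      fun _ => LinearMap.funLeft ℂ ℂ Sum.inl
  | Ty.p a b => bil2 (Matrix.toBilin' (mP cl a b))
  | Ty.l i => (MultilinearMap.mkPiAlgebra ℂ Unit ℂ).compLinearMap
      fun _ => LinearMap.proj (Sum.inr (Sum.inr i))

section core

variable {κ0 κ1 κ2 : Type} [Fintype κ0] [DecidableEq κ0] [Fintype κ1] [DecidableEq κ1]
  [Fintype κ2] [DecidableEq κ2] (p : κ1 → P) (l : κ2 → Λ)

/-- The indices of a pattern. -/
def pat (J0 : κ0 → O) (a : κ1 → Fin 2) : κ0 ⊕ (κ1 ⊕ κ2) → BB O P Λ :=
  Sum.elim (fun k => Sum.inl (J0 k)) (Sum.elim (fun k => Sum.inr (Sum.inl (p k, a k)))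
    (fun k => Sum.inr (Sum.inr (l k))))

theorem upd0 (J0 : κ0 → O) (a : κ1 → Fin 2) (j : κ0) (u : O) :
    Function.update (fun k => eb (pat p l J0 a k)) (Sum.inl j) (eb (Sum.inl u)) =
      fun k => eb (pat p l (Function.update J0 j u) a k) := by
  funext k
  rcases k with k | k
  · by_cases h : k = j
    · subst h
      rw [Function.update_self]
      change _ = eb (Sum.inl (Function.update J0 k u k))
      rw [Function.update_self]
    · rw [Function.update_of_ne (fun h' => h (Sum.inl_injective h'))]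
      change _ = eb (Sum.inl (Function.update J0 j u k))
      rw [Function.update_of_ne h]
      rfl
  · rw [Function.update_of_ne (by simp)]
    rfl

theorem upd1 (J0 : κ0 → O) (a : κ1 → Fin 2) (j : κ1) (u : Fin 2) :
    Function.update (fun k => eb (pat p l J0 a k)) (Sum.inr (Sum.inl j))
      (eb (Sum.inr (Sum.inl (p j, u)))) =
      fun k => eb (pat p l J0 (Function.update a j u) k) := by
  funext k
  rcases k with k | k | k
  · rw [Function.update_of_ne (by simp)]
    rfl
  · by_cases h : k = j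
    · subst h
      rw [Function.update_self]
      change _ = eb (Sum.inr (Sum.inl (p k, Function.update a k u k)))
      rw [Function.update_self]
    · rw [Function.update_of_ne (fun h' => h (Sum.inl_injective (Sum.inr_injective h')))]
      change _ = eb (Sum.inr (Sum.inl (p k, Function.update a j u k)))
      rw [Function.update_of_ne h]
      rfl
  · rw [Function.update_of_ne (by simp)]
    rfl

/-- The alternating form of the classes. -/
def Qe : Matrix (Fin 3 × Fin 2) (Fin 3 × Fin 2) ℂ :=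
  Matrix.of fun x y => if x.1 = y.1 then eps x.2 y.2 else 0

theorem Qe_inv : Qe * (-Qe) = 1 := by
  ext ⟨c, a⟩ ⟨c', b⟩
  rw [Matrix.mul_apply, Fintype.sum_prod_type]
  simp only [Fin.sum_univ_two, Qe, Matrix.neg_apply, of_apply]
  rw [Finset.sum_eq_single c]
  · by_cases h : c = c'
    · subst h
      fin_cases a <;> fin_cases b <;> simp [eps]
    · rw [if_neg h, if_neg h, one_apply_ne (fun h' => h (congrArg Prod.fst h'))]
      simp
  · intro x _ hx
    rw [if_neg (Ne.symm hx), if_neg (Ne.symm hx), zero_mul, zero_mul, add_zero]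
  · intro h
    exact absurd (Finset.mem_univ _) h

variable (κ1) in
/-- The values of the partial forms. -/
def MM (cl : P → Fin 3) (p : κ1 → P) : Submodule ℂ ((κ1 → Fin 3 × Fin 2) → ℂ) where
  carrier := {w | Inv Prod.fst Qe (fun _ => -1) w ∧ Sup Prod.fst (fun k => cl (p k)) w}
  add_mem' := fun {w w'} hw hw' => by
    refine ⟨fun u v huv J => ?_, fun J hJ => ?_⟩
    · have h1 := hw.1 u v huv J
      have h2 := hw'.1 u v huv J
      rw [← add_zero (0 : ℂ)]
      nth_rw 2 [← h1]
      rw [← h2, ← Finset.sum_add_distrib]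
      refine Finset.sum_congr rfl fun j _ => ?_
      simp only [Pi.add_apply, smul_eq_mul]
      ring
    · rw [Pi.add_apply, hw.2 J hJ, hw'.2 J hJ, add_zero]
  zero_mem' := by
    refine ⟨fun u v _ J => ?_, fun J _ => rfl⟩
    simp
  smul_mem' := fun r w hw => by
    refine ⟨fun u v huv J => ?_, fun J hJ => ?_⟩
    · have h1 := hw.1 u v huv J
      rw [← mul_zero r, ← h1, Finset.mul_sum]
      refine Finset.sum_congr rfl fun j _ => ?_
      simp only [Pi.smul_apply, smul_eq_mul]
      ring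
    · rw [Pi.smul_apply, hw.2 J hJ, smul_zero]

variable (F : MultilinearMap ℂ (fun _ : κ0 ⊕ (κ1 ⊕ κ2) => BB O P Λ → ℂ) ℂ)
  (QO : Matrix O O ℂ) (cl : P → Fin 3)
  (hO : ∀ u v, KillM (opO QO u v) F) (hP : ∀ c a b, KillM (opP cl c a b) F)

/-- The coordinates of the form. -/
def cfF (J0 : κ0 → O) (J1 : κ1 → Fin 3 × Fin 2) : ℂ :=
  open Classical in
  if ∀ k, (J1 k).1 = cl (p k) then F (fun k => eb (pat p l J0 (fun k => (J1 k).2) k)) else 0

include hP in
theorem cfF_mem (J0 : κ0 → O) : cfF p l F cl J0 ∈ MM κ1 cl p := by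
  refine ⟨fun u v huv J => ?_, fun J hJ => ?_⟩
  swap
  · unfold cfF
    rw [if_neg hJ]
  by_cases hJ : ∀ k, (J k).1 = cl (p k)
  · have h1 := hP v.1 u.2 v.2 (fun k => eb (pat p l J0 (fun k => (J k).2) k))
    rw [Fintype.sum_sum_type, Fintype.sum_sum_type] at h1
    have h2 : ∀ k : κ0, F (Function.update (fun k => eb (pat p l J0 (fun k => (J k).2) k))
        (Sum.inl k) (opP cl v.1 u.2 v.2 *ᵥ eb (pat p l J0 (fun k => (J k).2) (Sum.inl k)))) = 0 := by
      intro k
      have h3 : (opP cl v.1 u.2 v.2 *ᵥ eb (pat p l J0 (fun k => (J k).2) (Sum.inl k)) :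
        BB O P Λ → ℂ) = 0 := opP_inl cl _ _ _ _
      rw [h3, F.map_update_zero]
    have h4 : ∀ k : κ2, F (Function.update (fun k => eb (pat p l J0 (fun k => (J k).2) k))
        (Sum.inr (Sum.inr k)) (opP cl v.1 u.2 v.2 *ᵥ
          eb (pat p l J0 (fun k => (J k).2) (Sum.inr (Sum.inr k))))) = 0 := by
      intro k
      have h3 : (opP cl v.1 u.2 v.2 *ᵥ eb (pat p l J0 (fun k => (J k).2) (Sum.inr (Sum.inr k))) :
        BB O P Λ → ℂ) = 0 := opP_l cl _ _ _ _
      rw [h3, F.map_update_zero]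
    rw [Finset.sum_congr rfl fun k _ => h2 k, Finset.sum_congr rfl fun k _ => h4 k,
      Finset.sum_const_zero, Finset.sum_const_zero, zero_add, add_zero] at h1
    rw [← h1]
    refine Finset.sum_congr rfl fun j _ => ?_
    have h5 : (opP cl v.1 u.2 v.2 *ᵥ eb (pat p l J0 (fun k => (J k).2) (Sum.inr (Sum.inl j))) :
        BB O P Λ → ℂ) = if cl (p j) = v.1 then
      eps v.2 (J j).2 • eb (Sum.inr (Sum.inl (p j, u.2))) +
        eps u.2 (J j).2 • eb (Sum.inr (Sum.inl (p j, v.2))) else 0 := opP_p cl _ _ _ _ _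
    have h6 : ∀ w : Fin 3 × Fin 2, w.1 = cl (p j) → cfF p l F cl J0 (Function.update J j w) =
        F (fun k => eb (pat p l J0 (Function.update (fun k => (J k).2) j w.2) k)) := by
      intro w hw
      unfold cfF
      rw [if_pos]
      · congr 1
        funext k
        congr 1
        congr 1
        funext k
        by_cases hk : k = j
        · subst hk
          rw [Function.update_self, Function.update_self]
        · rw [Function.update_of_ne hk, Function.update_of_ne hk]
      · intro k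
        by_cases hk : k = j
        · subst hk
          rw [Function.update_self, hw]
        · rw [Function.update_of_ne hk, hJ]
    by_cases hc : cl (p j) = v.1
    · rw [h5, if_pos hc, F.map_update_add, F.map_update_smul, F.map_update_smul, upd1, upd1,
        h6 u (huv.trans hc.symm), h6 v hc.symm]
      simp only [Qe, of_apply, huv, hJ j, hc, if_true, smul_eq_mul]
      ring
    · rw [h5, if_neg hc, F.map_update_zero]
      have h7 : ¬v.1 = (J j).1 := by
        rw [hJ j]
        exact fun h => hc h.symm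
      simp only [Qe, of_apply, huv, if_neg h7]
      simp
  · refine Finset.sum_eq_zero fun j _ => ?_
    by_cases hc : v.1 = (J j).1
    · have h6 : ∀ w : Fin 3 × Fin 2, w.1 = v.1 → cfF p l F cl J0 (Function.update J j w) = 0 := by
        intro w hw
        unfold cfF
        rw [if_neg]
        intro h
        apply hJ
        intro k
        by_cases hk : k = j
        · subst hk
          have h7 := h k
          rw [Function.update_self] at h7
          rw [← h7, hw, hc]
        · have h7 := h k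
          rwa [Function.update_of_ne hk] at h7
      rw [h6 u huv, h6 v rfl]
      simp
    · simp only [Qe, of_apply, huv, if_neg hc]
      simp

/-- The coordinates of the form as a function with values in the submodule. -/
def cfM (J0 : κ0 → O) : MM κ1 cl p := ⟨cfF p l F cl J0, cfF_mem p l F cl hP J0⟩

include hO in
theorem cfM_inv : Inv (fun _ : O => ()) QO (fun _ => 1) (cfM p l F cl hP) := by
  intro u v _ J0
  apply Subtype.ext
  funext J1
  rw [AddSubmonoidClass.coe_finsetSum, Finset.sum_apply, ZeroMemClass.coe_zero, Pi.zero_apply]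
  have h0 : ∀ j, ((QO v (J0 j) • cfM p l F cl hP (Function.update J0 j u) -
      (1 * QO u (J0 j)) • cfM p l F cl hP (Function.update J0 j v) : MM κ1 cl p) :
        (κ1 → Fin 3 × Fin 2) → ℂ) J1 = QO v (J0 j) * cfF p l F cl (Function.update J0 j u) J1 -
          QO u (J0 j) * cfF p l F cl (Function.update J0 j v) J1 := by
    intro j
    rw [one_mul]
    rfl
  rw [Finset.sum_congr rfl fun j _ => h0 j]
  by_cases hJ : ∀ k, (J1 k).1 = cl (p k)
  · have h1 := hO u v (fun k => eb (pat p l J0 (fun k => (J1 k).2) k))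
    rw [Fintype.sum_sum_type] at h1
    have h2 : ∀ k : κ1 ⊕ κ2, F (Function.update (fun k => eb (pat p l J0 (fun k => (J1 k).2) k))
        (Sum.inr k) (opO QO u v *ᵥ eb (pat p l J0 (fun k => (J1 k).2) (Sum.inr k)))) = 0 := by
      intro k
      have h3 : (opO QO u v *ᵥ eb (pat p l J0 (fun k => (J1 k).2) (Sum.inr k)) :
          BB O P Λ → ℂ) = 0 := by
        rcases k with k | k
        · exact opO_inr QO u v _
        · exact opO_inr QO u v _
      rw [h3, F.map_update_zero]
    rw [Finset.sum_congr rfl fun k _ => h2 k, Finset.sum_const_zero, add_zero] at h1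
    rw [← h1]
    refine Finset.sum_congr rfl fun j _ => ?_
    have h5 : (opO QO u v *ᵥ eb (pat p l J0 (fun k => (J1 k).2) (Sum.inl j)) :
        BB O P Λ → ℂ) = QO v (J0 j) • eb (Sum.inl u) - QO u (J0 j) • eb (Sum.inl v) :=
      opO_inl QO u v (J0 j)
    rw [h5, F.map_update_sub, F.map_update_smul, F.map_update_smul, upd0, upd0]
    unfold cfF
    rw [if_pos hJ, if_pos hJ]
    rfl
  · refine Finset.sum_eq_zero fun j _ => ?_
    unfold cfF
    rw [if_neg hJ, if_neg hJ, mul_zero, mul_zero, sub_zero]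

/-- The form vanishes outside of the pattern. -/
def SupF : Prop := ∀ J : κ0 ⊕ (κ1 ⊕ κ2) → BB O P Λ, F (fun k => eb (J k)) ≠ 0 →
  ∃ (J0 : κ0 → O) (a : κ1 → Fin 2), J = pat p l J0 a

theorem cfF_ext {F G : MultilinearMap ℂ (fun _ : κ0 ⊕ (κ1 ⊕ κ2) => BB O P Λ → ℂ) ℂ}
    (hF : SupF p l F) (hG : SupF p l G) (h : ∀ J0 J1, cfF p l F cl J0 J1 = cfF p l G cl J0 J1) :
    F = G := by
  refine Module.Basis.ext_multilinear (fun _ => Pi.basisFun ℂ (BB O P Λ)) fun J => ?_
  simp only [Pi.basisFun_apply]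
  by_cases h1 : ∃ (J0 : κ0 → O) (a : κ1 → Fin 2), J = pat p l J0 a
  · obtain ⟨J0, a, rfl⟩ := h1
    have h2 := h J0 (fun k => (cl (p k), a k))
    unfold cfF at h2
    rwa [if_pos (fun _ => rfl), if_pos (fun _ => rfl)] at h2
  · have h2 : F (fun k => eb (J k)) = 0 := by
      by_contra h3
      exact h1 (hF J h3)
    have h3 : G (fun k => eb (J k)) = 0 := by
      by_contra h3
      exact h1 (hG J h3)
    exact h2.trans h3.symm

end core

section mono

variable {κ0 κ1 κ2 : Type} [Fintype κ0] [DecidableEq κ0] [Fintype κ1] [DecidableEq κ1]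
  [Fintype κ2] [DecidableEq κ2] (p : κ1 → P) (l : κ2 → Λ)
  (QO : Matrix O O ℂ) (cl : P → Fin 3)
  {P0 T A0 : Type} [Fintype P0] [Fintype A0] (e0 : (P0 × Fin 2) ⊕ T ≃ κ0) (eo : A0 × O ≃ T)
  {m : ℕ} (e1 : Fin m × Fin 2 ≃ κ1)

/-- The types of the factors of a monomial. -/
def tyM (P0 A0 : Type) (e1 : Fin m × Fin 2 ≃ κ1) : P0 ⊕ (A0 ⊕ (Fin m ⊕ κ2)) → Ty P Λ :=
  Sum.elim (fun _ => Ty.q) (Sum.elim (fun _ => Ty.d)
    (Sum.elim (fun i => Ty.p (p (e1 (i, 0))) (p (e1 (i, 1)))) (fun k => Ty.l (l k))))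

/-- The variables of a monomial. -/
def eM : (Σ a, sl O (tyM p l P0 A0 e1 a)) ≃ κ0 ⊕ (κ1 ⊕ κ2) :=
  ((Equiv.sumSigmaDistrib (fun a => sl O (tyM p l P0 A0 e1 a))).trans
    (Equiv.sumCongr (Equiv.sigmaEquivProd P0 (Fin 2))
      ((Equiv.sumSigmaDistrib (fun a => sl O (tyM p l P0 A0 e1 (Sum.inr a)))).trans
        (Equiv.sumCongr ((Equiv.sigmaEquivProd A0 O).trans eo)
          ((Equiv.sumSigmaDistrib (fun a => sl O (tyM p l P0 A0 e1 (Sum.inr (Sum.inr a))))).trans
            (Equiv.sumCongr ((Equiv.sigmaEquivProd (Fin m) (Fin 2)).trans e1)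
              ((Equiv.sigmaEquivProd κ2 Unit).trans (Equiv.prodPUnit κ2)))))))).trans
    ((Equiv.sumAssoc _ _ _).symm.trans (Equiv.sumCongr e0 (Equiv.refl _)))

theorem tl_eb (M : Matrix (BB O P Λ) (BB O P Λ) ℂ) (x y : BB O P Λ) :
    (Matrix.toBilin' M) (eb x) (eb y) = M x y :=
  Matrix.toBilin'_single M x y

theorem mQ_eb (x y : BB O P Λ) (h : (Matrix.toBilin' (mQ QO)) (eb x) (eb y) ≠ 0) :
    (∃ x', x = Sum.inl x') ∧ ∃ y', y = Sum.inl y' := by
  rw [tl_eb] at h
  rcases x with x | x <;> rcases y with y | y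
  · exact ⟨⟨x, rfl⟩, ⟨y, rfl⟩⟩
  · exact absurd rfl h
  · exact absurd rfl h
  · exact absurd rfl h

theorem mP_eb (a b : P) (x y : BB O P Λ)
    (h : (Matrix.toBilin' (mP cl a b)) (eb x) (eb y) ≠ 0) :
    (∃ x', x = Sum.inr (Sum.inl (a, x'))) ∧ ∃ y', y = Sum.inr (Sum.inl (b, y')) := by
  rw [tl_eb] at h
  rcases x with x | x | x <;> rcases y with y | y | y
  · exact absurd rfl h
  · exact absurd rfl h
  · exact absurd rfl h
  · exact absurd rfl h
  · have h1 : (if x.1 = a ∧ y.1 = b ∧ cl a = cl b then eps x.2 y.2 else 0) ≠ 0 := h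
    by_cases h2 : x.1 = a ∧ y.1 = b ∧ cl a = cl b
    · obtain ⟨h3, h4, -⟩ := h2
      exact ⟨⟨x.2, by rw [← h3]⟩, ⟨y.2, by rw [← h4]⟩⟩
    · rw [if_neg h2] at h1
      exact absurd rfl h1
  · exact absurd rfl h
  · exact absurd rfl h
  · exact absurd rfl h
  · exact absurd rfl h

/-- The representation of a monomial by a form. -/
theorem mono_rep (N : ∀ (κ : Type) [Finite κ],
      Submodule ℂ (MultilinearMap ℂ (fun _ : κ => BB O P Λ → ℂ) ℂ))
    (hmono : (∀ i, cl (p (e1 (i, 0))) = cl (p (e1 (i, 1)))) →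
      Pr N (sl O) (fm QO cl) (tyM p l P0 A0 e1)) :
    ∃ G ∈ N (κ0 ⊕ (κ1 ⊕ κ2)), SupF p l G ∧ ∀ J0 J1, cfF p l G cl J0 J1 =
      ((∏ i, QO (J0 (e0 (Sum.inl (i, 0)))) (J0 (e0 (Sum.inl (i, 1))))) *
        ∏ a, dJ ℂ fun o => J0 (e0 (Sum.inr (eo (a, o))))) *
        gen Prod.fst Qe (fun k => cl (p k)) e1 (1 : ℂ) J1 := by
  classical
  by_cases hok : ∀ i, cl (p (e1 (i, 0))) = cl (p (e1 (i, 1)))
  swap
  · push Not at hok
    obtain ⟨i, hi⟩ := hok
    refine ⟨0, Submodule.zero_mem _, fun J hJ => absurd rfl hJ, fun J0 J1 => ?_⟩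
    have h1 : gen Prod.fst Qe (fun k => cl (p k)) e1 (1 : ℂ) J1 = 0 := by
      unfold gen
      by_cases h2 : ∀ k, (J1 k).1 = cl (p k)
      · rw [if_pos h2, Finset.prod_eq_zero (Finset.mem_univ i), zero_smul]
        unfold Qe
        rw [of_apply, if_neg]
        rw [h2, h2]
        exact hi
      · rw [if_neg h2]
    rw [h1, mul_zero]
    unfold cfF
    split_ifs <;> rfl
  obtain ⟨Ψ, hΨ⟩ := exists_prod (sl O) (fm QO cl) (tyM (κ2 := κ2) p l P0 A0 e1)
  let E := eM (κ0 := κ0) p l e0 eo e1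
  let G := Ψ.domDomCongr E
  have hG : ∀ v, G v = ∏ a, fm QO cl (tyM p l P0 A0 e1 a) (fun k => v (E ⟨a, k⟩)) := by
    intro v
    change Ψ (fun k => v (E k)) = _
    rw [hΨ]
  have hG' : ∀ v, G v = (∏ i : P0, (Matrix.toBilin' (mQ QO)) (v (Sum.inl (e0 (Sum.inl (i, 0)))))
      (v (Sum.inl (e0 (Sum.inl (i, 1)))))) *
      ((∏ a : A0, (Matrix.of fun s o => v (Sum.inl (e0 (Sum.inr (eo (a, s))))) (Sum.inl o)).det) *
        ((∏ i : Fin m, (Matrix.toBilin' (mP cl (p (e1 (i, 0))) (p (e1 (i, 1)))))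
          (v (Sum.inr (Sum.inl (e1 (i, 0))))) (v (Sum.inr (Sum.inl (e1 (i, 1)))))) *
          ∏ k : κ2, v (Sum.inr (Sum.inr k)) (Sum.inr (Sum.inr (l k))))) := by
    intro v
    rw [hG, Fintype.prod_sum_type, Fintype.prod_sum_type, Fintype.prod_sum_type]
    congr 1
    congr 1
    congr 1
    refine Finset.prod_congr rfl fun k _ => ?_
    change (MultilinearMap.mkPiAlgebra ℂ Unit ℂ) (fun _ => v (Sum.inr (Sum.inr k))
      (Sum.inr (Sum.inr (l k)))) = _
    rw [MultilinearMap.mkPiAlgebra_apply, Fintype.prod_unique]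
  refine ⟨G, hmono hok _ E G hG, fun J hJ => ?_, fun J0 J1 => ?_⟩
  · rw [hG'] at hJ
    have h1 := Finset.prod_ne_zero_iff.1 (left_ne_zero_of_mul hJ)
    have h2 := Finset.prod_ne_zero_iff.1 (left_ne_zero_of_mul (right_ne_zero_of_mul hJ))
    have h3 := Finset.prod_ne_zero_iff.1
      (left_ne_zero_of_mul (right_ne_zero_of_mul (right_ne_zero_of_mul hJ)))
    have h4 := Finset.prod_ne_zero_iff.1
      (right_ne_zero_of_mul (right_ne_zero_of_mul (right_ne_zero_of_mul hJ)))
    have g0 : ∀ k : κ0, ∃ x, J (Sum.inl k) = Sum.inl x := by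
      intro k
      obtain ⟨y, rfl⟩ := e0.surjective k
      rcases y with ⟨i, t⟩ | y
      · have h5 := mQ_eb QO _ _ (h1 i (Finset.mem_univ _))
        fin_cases t
        · exact h5.1
        · exact h5.2
      · obtain ⟨⟨a, s⟩, rfl⟩ := eo.surjective y
        by_contra hcon
        push Not at hcon
        refine h2 a (Finset.mem_univ _) (Matrix.det_eq_zero_of_row_eq_zero s fun o => ?_)
        rw [of_apply, eb, Pi.single_apply, if_neg]
        exact fun h => hcon o h.symm
    have g1 : ∀ k : κ1, ∃ x, J (Sum.inr (Sum.inl k)) = Sum.inr (Sum.inl (p k, x)) := by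
      intro k
      obtain ⟨⟨i, t⟩, rfl⟩ := e1.surjective k
      have h5 := mP_eb cl _ _ _ _ (h3 i (Finset.mem_univ _))
      fin_cases t
      · exact h5.1
      · exact h5.2
    have g2 : ∀ k : κ2, J (Sum.inr (Sum.inr k)) = Sum.inr (Sum.inr (l k)) := by
      intro k
      by_contra hcon
      refine h4 k (Finset.mem_univ _) ?_
      rw [eb, Pi.single_apply, if_neg]
      exact fun h => hcon h.symm
    choose J0 hJ0 using g0
    choose a ha using g1
    refine ⟨J0, a, ?_⟩
    funext k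
    rcases k with k | k | k
    · exact hJ0 k
    · exact ha k
    · exact g2 k
  · unfold cfF gen
    by_cases hJ : ∀ k, (J1 k).1 = cl (p k)
    · rw [if_pos hJ, if_pos hJ, hG', smul_eq_mul, mul_one]
      have e2 : ∀ i : P0, (Matrix.toBilin' (mQ QO))
          (eb (pat p l J0 (fun k => (J1 k).2) (Sum.inl (e0 (Sum.inl (i, 0))))) : BB O P Λ → ℂ)
          (eb (pat p l J0 (fun k => (J1 k).2) (Sum.inl (e0 (Sum.inl (i, 1)))))) =
          QO (J0 (e0 (Sum.inl (i, 0)))) (J0 (e0 (Sum.inl (i, 1)))) := by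
        intro i
        rw [tl_eb]
        rfl
      have e3 : ∀ a : A0, (Matrix.of fun s o => (eb (pat p l J0 (fun k => (J1 k).2)
          (Sum.inl (e0 (Sum.inr (eo (a, s)))))) : BB O P Λ → ℂ) (Sum.inl o)).det =
          dJ ℂ fun o => J0 (e0 (Sum.inr (eo (a, o)))) := by
        intro a
        unfold dJ
        congr 1
        ext s o
        rw [of_apply, of_apply, eb, Pi.single_apply]
        have h5 : (Sum.inl o = (pat p l J0 (fun k => (J1 k).2)
          (Sum.inl (e0 (Sum.inr (eo (a, s))))) : BB O P Λ)) ↔ J0 (e0 (Sum.inr (eo (a, s)))) = o := by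
          change (Sum.inl o = (Sum.inl (J0 (e0 (Sum.inr (eo (a, s))))) : BB O P Λ)) ↔ _
          rw [Sum.inl.injEq]
          exact eq_comm
        simp only [h5]
      have e4 : ∀ i : Fin m, (Matrix.toBilin' (mP cl (p (e1 (i, 0))) (p (e1 (i, 1)))))
          (eb (pat p l J0 (fun k => (J1 k).2) (Sum.inr (Sum.inl (e1 (i, 0))))) : BB O P Λ → ℂ)
          (eb (pat p l J0 (fun k => (J1 k).2) (Sum.inr (Sum.inl (e1 (i, 1)))))) =
          Qe (J1 (e1 (i, 0))) (J1 (e1 (i, 1))) := by
        intro i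
        rw [tl_eb]
        unfold Qe
        rw [of_apply, if_pos (by rw [hJ, hJ]; exact hok i)]
        change (if p (e1 (i, 0)) = p (e1 (i, 0)) ∧ p (e1 (i, 1)) = p (e1 (i, 1)) ∧
          cl (p (e1 (i, 0))) = cl (p (e1 (i, 1))) then eps (J1 (e1 (i, 0))).2 (J1 (e1 (i, 1))).2
          else 0) = _
        rw [if_pos ⟨rfl, rfl, hok i⟩]
      have e5 : ∀ k : κ2, (eb (pat p l J0 (fun k => (J1 k).2) (Sum.inr (Sum.inr k))) :
          BB O P Λ → ℂ) (Sum.inr (Sum.inr (l k))) = 1 := by
        intro k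
        exact Pi.single_eq_same _ _
      rw [Finset.prod_congr rfl fun i _ => e2 i, Finset.prod_congr rfl fun a _ => e3 a,
        Finset.prod_congr rfl fun i _ => e4 i, Finset.prod_congr rfl fun k _ => e5 k,
        Finset.prod_const_one, mul_one, mul_assoc]
    · rw [if_neg hJ, if_neg hJ, mul_zero]

end mono

end

end Pool.Agent.N995
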