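import Mathlib
import Pool.Agent.N995.Eng

/-!
# The engine: assembly
-/

set_option linter.unusedSectionVars false

namespace Pool.Agent.N995

open Matrix Pool.Agent.Y90 Pool.Agent.TH125.Nod

noncomputable section

variable {O P Λ : Type} [Fintype O] [DecidableEq O] [Fintype P] [DecidableEq P] [Fintype Λ]
  [DecidableEq Λ]

section core

variable {κ0 κ1 κ2 : Type} [Fintype κ0] [DecidableEq κ0] [Fintype κ1] [DecidableEq κ1]
  [Fintype κ2] [DecidableEq κ2] (p : κ1 → P) (l : κ2 → Λ)
  (QO RO : Matrix O O ℂ) (cl : P → Fin 3)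
  (N : ∀ (κ : Type) [Finite κ],
      Submodule ℂ (MultilinearMap ℂ (fun _ : κ => BB O P Λ → ℂ) ℂ))

theorem cfF_add (F G : MultilinearMap ℂ (fun _ : κ0 ⊕ (κ1 ⊕ κ2) => BB O P Λ → ℂ) ℂ)
    (J0 : κ0 → O) (J1 : κ1 → Fin 3 × Fin 2) :
    cfF p l (F + G) cl J0 J1 = cfF p l F cl J0 J1 + cfF p l G cl J0 J1 := by
  unfold cfF
  split_ifs
  · rfl
  · rw [add_zero]

theorem cfF_smul (r : ℂ) (F : MultilinearMap ℂ (fun _ : κ0 ⊕ (κ1 ⊕ κ2) => BB O P Λ → ℂ) ℂ)
    (J0 : κ0 → O) (J1 : κ1 → Fin 3 × Fin 2) :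
    cfF p l (r • F) cl J0 J1 = r * cfF p l F cl J0 J1 := by
  unfold cfF
  split_ifs
  · rfl
  · rw [mul_zero]

/-- The functions which are represented by forms of the system. -/
def RepS : Submodule ℂ ((κ0 → O) → (κ1 → Fin 3 × Fin 2) → ℂ) where
  carrier := {g | ∃ G ∈ N (κ0 ⊕ (κ1 ⊕ κ2)), SupF p l G ∧ ∀ J0 J1, cfF p l G cl J0 J1 = g J0 J1}
  add_mem' := by
    rintro g g' ⟨G, hG, hs, h⟩ ⟨G', hG', hs', h'⟩
    refine ⟨G + G', Submodule.add_mem _ hG hG', fun J hJ => ?_, fun J0 J1 => ?_⟩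
    · by_cases h1 : G (fun k => eb (J k)) = 0
      · refine hs' J fun h2 => hJ ?_
        change G (fun k => eb (J k)) + G' (fun k => eb (J k)) = 0
        rw [h1, h2, add_zero]
      · exact hs J h1
    · rw [cfF_add, h, h']
      rfl
  zero_mem' := by
    refine ⟨0, Submodule.zero_mem _, fun J hJ => absurd rfl hJ, fun J0 J1 => ?_⟩
    unfold cfF
    split_ifs <;> rfl
  smul_mem' := by
    rintro r g ⟨G, hG, hs, h⟩
    refine ⟨r • G, Submodule.smul_mem _ _ hG, fun J hJ => ?_, fun J0 J1 => ?_⟩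
    · refine hs J fun h2 => hJ ?_
      change r • G (fun k => eb (J k)) = 0
      rw [h2, smul_zero]
    · rw [cfF_smul, h]
      rfl

variable (hmono : ∀ (P0 A0 : Type) [Fintype P0] [Fintype A0] (m : ℕ) (e1 : Fin m × Fin 2 ≃ κ1),
    (∀ i, cl (p (e1 (i, 0))) = cl (p (e1 (i, 1)))) →
      Pr N (sl O) (fm QO cl) (tyM (κ2 := κ2) p l P0 A0 e1))

include hmono in
theorem rep_gen {P0 T A0 : Type} [Fintype P0] [Fintype A0] (e0 : (P0 × Fin 2) ⊕ T ≃ κ0)
    (eo : A0 × O ≃ T) {w : (κ1 → Fin 3 × Fin 2) → ℂ} (hw : w ∈ MM κ1 cl p) :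
    (fun (J0 : κ0 → O) => (((∏ i, QO (J0 (e0 (Sum.inl (i, 0)))) (J0 (e0 (Sum.inl (i, 1))))) *
        ∏ a, dJ ℂ fun o => J0 (e0 (Sum.inr (eo (a, o))))) : ℂ) • w) ∈ RepS p l cl N := by
  have h1 : w ∈ Gen Prod.fst Qe (fun k => cl (p k)) := by
    refine fft (s := fun _ => -1) (fun _ => Or.inr rfl) (R := -Qe) (fun a b h => ?_) (fun a b => ?_)
      Qe_inv _ _ _ _ rfl hw.2 ?_ (fun i h => ?_)
    · unfold Qe
      rw [of_apply, if_neg h]
    · unfold Qe
      rw [of_apply, of_apply]
      by_cases h : a.1 = b.1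
      · rw [if_pos h, if_pos h.symm, eps_anti]
        push_cast
        ring
      · rw [if_neg h, if_neg (fun h' => h h'.symm), mul_zero]
    · have h2 := hw.1
      simpa using h2
    · exact absurd h (by norm_num)
  unfold Gen at h1
  clear hw
  induction h1 using Submodule.span_induction with
  | mem w h =>
    obtain ⟨m, e1, r, rfl⟩ := h
    obtain ⟨G, hG, hs, h⟩ := mono_rep p l QO cl e0 eo e1 N (hmono P0 A0 m e1)
    have h2 := Submodule.smul_mem (RepS p l cl N) r
      (show (fun (J0 : κ0 → O) => (((∏ i, QO (J0 (e0 (Sum.inl (i, 0)))) (J0 (e0 (Sum.inl (i, 1))))) *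
        ∏ a, dJ ℂ fun o => J0 (e0 (Sum.inr (eo (a, o))))) : ℂ) •
          gen Prod.fst Qe (fun k => cl (p k)) e1 (1 : ℂ)) ∈ RepS p l cl N from ⟨G, hG, hs, h⟩)
    have h3 : (fun (J0 : κ0 → O) => (((∏ i, QO (J0 (e0 (Sum.inl (i, 0))))
        (J0 (e0 (Sum.inl (i, 1))))) *
        ∏ a, dJ ℂ fun o => J0 (e0 (Sum.inr (eo (a, o))))) : ℂ) •
          gen Prod.fst Qe (fun k => cl (p k)) e1 r) = r • fun (J0 : κ0 → O) =>
        (((∏ i, QO (J0 (e0 (Sum.inl (i, 0)))) (J0 (e0 (Sum.inl (i, 1))))) *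
        ∏ a, dJ ℂ fun o => J0 (e0 (Sum.inr (eo (a, o))))) : ℂ) •
          gen Prod.fst Qe (fun k => cl (p k)) e1 (1 : ℂ) := by
      funext J0 J1
      simp only [Pi.smul_apply, gen, smul_eq_mul]
      split_ifs
      · ring
      · simp
    rw [h3]
    exact h2
  | zero =>
    have h2 : (fun (J0 : κ0 → O) => (((∏ i, QO (J0 (e0 (Sum.inl (i, 0))))
        (J0 (e0 (Sum.inl (i, 1))))) *
        ∏ a, dJ ℂ fun o => J0 (e0 (Sum.inr (eo (a, o))))) : ℂ) •
          (0 : (κ1 → Fin 3 × Fin 2) → ℂ)) = 0 := by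
      funext J0
      rw [smul_zero]
      rfl
    rw [h2]
    exact Submodule.zero_mem _
  | add w w' _ _ h h' =>
    have h2 := Submodule.add_mem _ h h'
    have h3 : (fun (J0 : κ0 → O) => (((∏ i, QO (J0 (e0 (Sum.inl (i, 0))))
        (J0 (e0 (Sum.inl (i, 1))))) *
        ∏ a, dJ ℂ fun o => J0 (e0 (Sum.inr (eo (a, o))))) : ℂ) • (w + w')) =
        (fun (J0 : κ0 → O) => (((∏ i, QO (J0 (e0 (Sum.inl (i, 0))))
        (J0 (e0 (Sum.inl (i, 1))))) *
        ∏ a, dJ ℂ fun o => J0 (e0 (Sum.inr (eo (a, o))))) : ℂ) • w) +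
        fun (J0 : κ0 → O) => (((∏ i, QO (J0 (e0 (Sum.inl (i, 0))))
        (J0 (e0 (Sum.inl (i, 1))))) *
        ∏ a, dJ ℂ fun o => J0 (e0 (Sum.inr (eo (a, o))))) : ℂ) • w' := by
      funext J0
      rw [smul_add]
      rfl
    rw [h3]
    exact h2
  | smul r w _ h =>
    have h2 := Submodule.smul_mem _ r h
    have h3 : (fun (J0 : κ0 → O) => (((∏ i, QO (J0 (e0 (Sum.inl (i, 0))))
        (J0 (e0 (Sum.inl (i, 1))))) *
        ∏ a, dJ ℂ fun o => J0 (e0 (Sum.inr (eo (a, o))))) : ℂ) • (r • w)) =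
        r • fun (J0 : κ0 → O) => (((∏ i, QO (J0 (e0 (Sum.inl (i, 0))))
        (J0 (e0 (Sum.inl (i, 1))))) *
        ∏ a, dJ ℂ fun o => J0 (e0 (Sum.inr (eo (a, o))))) : ℂ) • w := by
      funext J0
      rw [smul_comm]
      rfl
    rw [h3]
    exact h2

include hmono in
theorem rep_GS {T A0 : Type} [Fintype A0] (eo : A0 × O ≃ T) (D : (T → O) → ℂ)
    (hD : ∀ y, D y = ∏ a, dJ ℂ fun o => y (eo (a, o))) {f : (κ0 → O) → MM κ1 cl p}
    (hf : f ∈ GS (MM κ1 cl p) QO κ0 D) : (fun J0 => (f J0 : (κ1 → Fin 3 × Fin 2) → ℂ)) ∈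
      RepS p l cl N := by
  unfold GS at hf
  induction hf using Submodule.span_induction with
  | mem f hf =>
    obtain ⟨P0, _, e0, w, rfl⟩ := hf
    have h1 := rep_gen p l QO cl N hmono e0 eo w.2
    have h2 : (fun J0 => ((gS QO D e0 w J0 : MM κ1 cl p) : (κ1 → Fin 3 × Fin 2) → ℂ)) =
        fun (J0 : κ0 → O) => (((∏ i, QO (J0 (e0 (Sum.inl (i, 0)))) (J0 (e0 (Sum.inl (i, 1))))) *
        ∏ a, dJ ℂ fun o => J0 (e0 (Sum.inr (eo (a, o))))) : ℂ) •
          (w : (κ1 → Fin 3 × Fin 2) → ℂ) := by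
      funext J0
      unfold gS
      rw [hD]
      rfl
    rw [h2]
    exact h1
  | zero => exact Submodule.zero_mem _
  | add f f' _ _ h h' => exact Submodule.add_mem _ h h'
  | smul r f _ h => exact Submodule.smul_mem _ r h

include hmono in
/-- Forms on a pattern. -/
theorem core_mem (hQs : ∀ a b, QO a b = QO b a) (hQR : QO * RO = 1)
    (F : MultilinearMap ℂ (fun _ : κ0 ⊕ (κ1 ⊕ κ2) => BB O P Λ → ℂ) ℂ)
    (hO : ∀ u v, KillM (opO QO u v) F) (hP : ∀ c a b, KillM (opP cl c a b) F)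
    (hs : SupF p l F) : F ∈ N (κ0 ⊕ (κ1 ⊕ κ2)) := by
  have h1 := fso hQs hQR (Fintype.card κ0) κ0 (cfM p l F cl hP) rfl (cfM_inv p l F QO cl hO hP)
  obtain ⟨f0, hf0, f1, hf1, hff⟩ := Submodule.mem_sup.1 h1
  have g0 := rep_GS p l QO cl N hmono (A0 := Empty) (Equiv.equivOfIsEmpty (Empty × O) Empty)
    (fun _ => 1) (fun y => by rw [Finset.univ_eq_empty, Finset.prod_empty]) hf0
  have g1 := rep_GS p l QO cl N hmono (A0 := Unit) (Equiv.punitProd O) (dJ ℂ)
    (fun y => by
      rw [Fintype.prod_unique]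
      rfl) hf1
  obtain ⟨G, hG, hGs, h⟩ := Submodule.add_mem _ g0 g1
  have h2 : F = G := by
    refine cfF_ext p l cl hs hGs fun J0 J1 => ?_
    rw [h]
    change ((cfM p l F cl hP J0 : MM κ1 cl p) : (κ1 → Fin 3 × Fin 2) → ℂ) J1 = _
    rw [← hff]
    rfl
  rw [h2]
  exact hG

end core

section general

/-- The label of an index. -/
def labB : BB O P Λ → Unit ⊕ (P ⊕ Λ) :=
  Sum.elim (fun _ => Sum.inl ()) (Sum.elim (fun x => Sum.inr (Sum.inl x.1))
    (fun i => Sum.inr (Sum.inr i)))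

/-- The projection to a label. -/
def prL (t : Unit ⊕ (P ⊕ Λ)) : (BB O P Λ → ℂ) →ₗ[ℂ] (BB O P Λ → ℂ) where
  toFun v x := if labB x = t then v x else 0
  map_add' v w := by
    funext x
    simp only [Pi.add_apply]
    split_ifs <;> simp
  map_smul' r v := by
    funext x
    simp only [Pi.smul_apply, RingHom.id_apply, smul_eq_mul]
    split_ifs <;> simp

theorem prL_apply (t : Unit ⊕ (P ⊕ Λ)) (v : BB O P Λ → ℂ) (x : BB O P Λ) :
    prL t v x = if labB x = t then v x else 0 := rfl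

theorem sum_prL (v : BB O P Λ → ℂ) : ∑ t, prL t v = v := by
  funext x
  rw [Finset.sum_apply]
  simp only [prL_apply]
  rw [Finset.sum_ite_eq, if_pos (Finset.mem_univ _)]

/-- Block diagonal matrices. -/
def BlockM (A : Matrix (BB O P Λ) (BB O P Λ) ℂ) : Prop :=
  ∀ x y, labB x ≠ labB y → A x y = 0

theorem BlockM.comm {A : Matrix (BB O P Λ) (BB O P Λ) ℂ} (h : BlockM A) (t : Unit ⊕ (P ⊕ Λ))
    (v : BB O P Λ → ℂ) : prL t (A *ᵥ v) = A *ᵥ prL t v := by
  funext x
  rw [prL_apply, mulVec, mulVec, dotProduct, dotProduct]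
  by_cases hx : labB x = t
  · rw [if_pos hx]
    refine Finset.sum_congr rfl fun y _ => ?_
    rw [prL_apply]
    by_cases hy : labB y = t
    · rw [if_pos hy]
    · rw [if_neg hy, h x y (by rw [hx]; exact fun h' => hy h'.symm), zero_mul, zero_mul]
  · rw [if_neg hx]
    refine (Finset.sum_eq_zero fun y _ => ?_).symm
    rw [prL_apply]
    by_cases hy : labB y = t
    · rw [if_pos hy, h x y (by rw [hy]; exact hx), zero_mul]
    · rw [if_neg hy, mul_zero]

theorem block_opO (QO : Matrix O O ℂ) (u v : O) : BlockM (opO QO u v : Matrix (BB O P Λ) _ ℂ) := by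
  intro x y h
  rcases x with x | x <;> rcases y with y | y
  · exact absurd rfl h
  · rfl
  · rfl
  · rfl

theorem block_opP (cl : P → Fin 3) (c : Fin 3) (a b : Fin 2) :
    BlockM (opP cl c a b : Matrix (BB O P Λ) _ ℂ) := by
  intro x y h
  rcases x with x | x | x <;> rcases y with y | y | y
  · rfl
  · rfl
  · rfl
  · rfl
  · change (if x.1 = y.1 ∧ cl y.1 = c then _ else (0 : ℂ)) = 0
    rw [if_neg]
    rintro ⟨h1, -⟩
    apply h
    change Sum.inr (Sum.inl x.1) = Sum.inr (Sum.inl y.1)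
    rw [h1]
  · rfl
  · rfl
  · rfl
  · rfl

theorem block_opW (wP : P → ℂ) (wL : Λ → ℂ) : BlockM (opW wP wL : Matrix (BB O P Λ) _ ℂ) := by
  intro x y h
  unfold opW
  exact diagonal_apply_ne _ (fun h' => h (by rw [h']))

theorem kill_comp {κ : Type} [Fintype κ] [DecidableEq κ]
    {F : MultilinearMap ℂ (fun _ : κ => BB O P Λ → ℂ) ℂ} {A : Matrix (BB O P Λ) (BB O P Λ) ℂ}
    (hA : BlockM A) (hF : KillM A F) (t : κ → Unit ⊕ (P ⊕ Λ)) :
    KillM A (F.compLinearMap fun k => prL (t k)) := by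
  intro v
  rw [← hF (fun k => prL (t k) (v k))]
  refine Finset.sum_congr rfl fun k _ => ?_
  rw [MultilinearMap.compLinearMap_apply]
  congr 1
  funext k'
  by_cases h : k' = k
  · subst h
    rw [Function.update_self, Function.update_self, hA.comm]
  · rw [Function.update_of_ne h, Function.update_of_ne h]

theorem kill_congr {κ κ' : Type} [Fintype κ] [DecidableEq κ] [Fintype κ'] [DecidableEq κ']
    {B : Type} [Fintype B] (e : κ ≃ κ')
    {F : MultilinearMap ℂ (fun _ : κ => B → ℂ) ℂ} {A : Matrix B B ℂ}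
    (hF : KillM A F) : KillM A (F.domDomCongr e) := by
  intro v
  rw [← hF (fun k => v (e k)), ← Equiv.sum_comp e]
  refine Finset.sum_congr rfl fun k _ => ?_
  rw [MultilinearMap.domDomCongr_apply]
  congr 1
  funext k'
  by_cases h : k' = k
  · subst h
    rw [Function.update_self, Function.update_self]
  · rw [Function.update_of_ne h, Function.update_of_ne (fun h' => h (e.injective h'))]

/-- The weights of the types. -/
def tw (wP : P → ℂ) (wL : Λ → ℂ) : Ty P Λ → ℂ
  | Ty.q => 0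
  | Ty.d => 0
  | Ty.p a b => wP a + wP b
  | Ty.l i => wL i

/-- **The engine.** -/
theorem eng (QO RO : Matrix O O ℂ) (cl : P → Fin 3)
    (N : ∀ (κ : Type) [Finite κ], Submodule ℂ (MultilinearMap ℂ (fun _ : κ => BB O P Λ → ℂ) ℂ))
    (hN : Clo N) (hQs : ∀ a b, QO a b = QO b a) (hQR : QO * RO = 1)
    {S : Type*} (wP : S → P → ℂ) (wL : S → Λ → ℂ)
    (hmono : ∀ (A : Type) [Fintype A] (ty : A → Ty P Λ), (∀ a x y, ty a = Ty.p x y → cl x = cl y) →
      (∀ s, ∑ a, tw (wP s) (wL s) (ty a) = 0) → Pr N (sl O) (fm QO cl) ty)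
    {κ : Type} [Fintype κ] [DecidableEq κ]
    (F : MultilinearMap ℂ (fun _ : κ => BB O P Λ → ℂ) ℂ)
    (hO : ∀ u v, KillM (opO QO u v) F) (hP : ∀ c a b, KillM (opP cl c a b) F)
    (hW : ∀ s, KillM (opW (wP s) (wL s)) F) : F ∈ N κ := by
  classical
  have h1 : F = ∑ t : κ → Unit ⊕ (P ⊕ Λ), F.compLinearMap (fun k => prL (t k)) := by
    refine MultilinearMap.ext fun v => ?_
    rw [_root_.sum_apply]
    have h2 : v = fun k => ∑ t, prL t (v k) := by
      funext k
      exact (sum_prL (v k)).symm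
    conv_lhs => rw [h2]
    rw [MultilinearMap.map_sum]
    rfl
  rw [h1]
  refine Submodule.sum_mem _ fun t _ => ?_
  let κ0 : Type := {k // t k = Sum.inl ()}
  let κ1 : Type := {k // ∃ q, t k = Sum.inr (Sum.inl q)}
  let κ2 : Type := {k // ∃ i, t k = Sum.inr (Sum.inr i)}
  choose p hp using fun k : κ1 => k.2
  choose l hl using fun k : κ2 => k.2
  let es : κ0 ⊕ (κ1 ⊕ κ2) ≃ κ := Equiv.ofBijective
    (Sum.elim (fun k => k.1) (Sum.elim (fun k => k.1) (fun k => k.1))) (by
      constructor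
      · rintro (k | k | k) (k' | k' | k') h
        · rw [Subtype.ext h]
        · exfalso
          have h3 := hp k'
          have h4 : k.1 = k'.1 := h
          rw [← h4, k.2] at h3
          simp at h3
        · exfalso
          have h3 := hl k'
          have h4 : k.1 = k'.1 := h
          rw [← h4, k.2] at h3
          simp at h3
        · exfalso
          have h3 := hp k
          have h4 : k.1 = k'.1 := h
          rw [h4, k'.2] at h3
          simp at h3
        · rw [Subtype.ext h]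
        · exfalso
          have h3 := hp k
          have h4 : k.1 = k'.1 := h
          rw [h4, hl k'] at h3
          simp at h3
        · exfalso
          have h3 := hl k
          have h4 : k.1 = k'.1 := h
          rw [h4, k'.2] at h3
          simp at h3
        · exfalso
          have h3 := hl k
          have h4 : k.1 = k'.1 := h
          rw [h4, hp k'] at h3
          simp at h3
        · rw [Subtype.ext h]
      · intro k
        rcases h3 : t k with x | q | i
        · exact ⟨Sum.inl ⟨k, h3⟩, rfl⟩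
        · exact ⟨Sum.inr (Sum.inl ⟨k, q, h3⟩), rfl⟩
        · exact ⟨Sum.inr (Sum.inr ⟨k, i, h3⟩), rfl⟩)
  let F' := (F.compLinearMap (fun k => prL (t k))).domDomCongr es.symm
  have hF' : F' ∈ N (κ0 ⊕ (κ1 ⊕ κ2)) := by
    have hsup : SupF p l F' := by
      intro J hJ
      have h3 : F (fun k => prL (t k) (eb (J (es.symm k)))) ≠ 0 := hJ
      have h4 : ∀ k, labB (J (es.symm k)) = t k := by
        intro k
        by_contra hcon
        apply h3
        refine F.map_coord_zero k ?_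
        funext x
        rw [prL_apply, Pi.zero_apply]
        by_cases hx : labB x = t k
        · rw [if_pos hx, eb, Pi.single_apply, if_neg]
          rintro rfl
          exact hcon hx
        · rw [if_neg hx]
      have h5 : ∀ k, labB (J k) = t (es k) := fun k => by
        have h6 := h4 (es k)
        rwa [Equiv.symm_apply_apply] at h6
      have g0 : ∀ k : κ0, ∃ x, J (Sum.inl k) = Sum.inl x := by
        intro k
        have h6 : labB (J (Sum.inl k)) = Sum.inl () := (h5 (Sum.inl k)).trans k.2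
        rcases h7 : J (Sum.inl k) with x | x | x
        · exact ⟨x, rfl⟩
        · rw [h7] at h6
          exact absurd h6 (by simp [labB])
        · rw [h7] at h6
          exact absurd h6 (by simp [labB])
      have g1 : ∀ k : κ1, ∃ x, J (Sum.inr (Sum.inl k)) = Sum.inr (Sum.inl (p k, x)) := by
        intro k
        have h6 : labB (J (Sum.inr (Sum.inl k))) = Sum.inr (Sum.inl (p k)) :=
          (h5 (Sum.inr (Sum.inl k))).trans (hp k)
        rcases h7 : J (Sum.inr (Sum.inl k)) with x | x | x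
        · rw [h7] at h6
          exact absurd h6 (by simp [labB])
        · rw [h7] at h6
          have h8 : x.1 = p k := by
            have h9 : (Sum.inr (Sum.inl x.1) : Unit ⊕ (P ⊕ Λ)) = Sum.inr (Sum.inl (p k)) := h6
            simpa using h9
          exact ⟨x.2, by rw [← h8]⟩
        · rw [h7] at h6
          exact absurd h6 (by simp [labB])
      have g2 : ∀ k : κ2, J (Sum.inr (Sum.inr k)) = Sum.inr (Sum.inr (l k)) := by
        intro k
        have h6 : labB (J (Sum.inr (Sum.inr k))) = Sum.inr (Sum.inr (l k)) :=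
          (h5 (Sum.inr (Sum.inr k))).trans (hl k)
        rcases h7 : J (Sum.inr (Sum.inr k)) with x | x | x
        · rw [h7] at h6
          exact absurd h6 (by simp [labB])
        · rw [h7] at h6
          exact absurd h6 (by simp [labB])
        · rw [h7] at h6
          have h9 : (Sum.inr (Sum.inr x) : Unit ⊕ (P ⊕ Λ)) = Sum.inr (Sum.inr (l k)) := h6
          have h8 : x = l k := by simpa using h9
          rw [h8]
      choose J0 hJ0 using g0
      choose a ha using g1
      refine ⟨J0, a, ?_⟩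
      funext k
      rcases k with k | k | k
      · exact hJ0 k
      · exact ha k
      · exact g2 k
    by_cases h0 : F' = 0
    · rw [h0]
      exact Submodule.zero_mem _
    obtain ⟨J0, a, hJ⟩ : ∃ (J0 : κ0 → O) (a : κ1 → Fin 2), F' (fun k => eb (pat p l J0 a k)) ≠ 0 := by
      by_contra hcon
      push Not at hcon
      apply h0
      refine Module.Basis.ext_multilinear (fun _ => Pi.basisFun ℂ (BB O P Λ)) fun J => ?_
      simp only [Pi.basisFun_apply]
      by_contra h3
      obtain ⟨J0, a, rfl⟩ := hsup J h3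
      exact h3 (hcon J0 a)
    have hbal : ∀ s, ∑ k : κ1, wP s (p k) + ∑ k : κ2, wL s (l k) = 0 := by
      intro s
      have h3 := kill_congr es.symm (kill_comp (block_opW _ _) (hW s) t)
        (fun k => eb (pat p l J0 a k))
      have h4 : ∀ k : κ0 ⊕ (κ1 ⊕ κ2), F' (Function.update (fun k => eb (pat p l J0 a k)) k
          (opW (wP s) (wL s) *ᵥ eb (pat p l J0 a k))) =
          (Sum.elim 0 (Sum.elim (fun x => wP s x.1) (wL s)) (pat p l J0 a k) : ℂ) *
            F' (fun k => eb (pat p l J0 a k)) := by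
        intro k
        rw [opW_eb, F'.map_update_smul, Function.update_eq_self, smul_eq_mul]
      have h5 : (∑ k : κ0 ⊕ (κ1 ⊕ κ2), (Sum.elim 0 (Sum.elim (fun x => wP s x.1) (wL s))
          (pat p l J0 a k) : ℂ)) * F' (fun k => eb (pat p l J0 a k)) = 0 := by
        rw [Finset.sum_mul, ← h3]
        exact Finset.sum_congr rfl fun k _ => (h4 k).symm
      have h6 := (mul_eq_zero.1 h5).resolve_right hJ
      rw [Fintype.sum_sum_type, Fintype.sum_sum_type] at h6
      have h7 : ∑ k : κ0, (Sum.elim 0 (Sum.elim (fun x => wP s x.1) (wL s))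
          (pat p l J0 a (Sum.inl k)) : ℂ) = 0 := Finset.sum_eq_zero fun k _ => rfl
      rw [h7, zero_add] at h6
      exact h6
    refine core_mem p l QO RO cl N ?_ hQs hQR F'
      (fun u v => kill_congr es.symm (kill_comp (block_opO QO u v) (hO u v) t))
      (fun c a b => kill_congr es.symm (kill_comp (block_opP cl c a b) (hP c a b) t)) hsup
    intro P0 A0 _ _ m e1 hok
    refine hmono _ _ ?_ fun s => ?_
    · rintro (a | a | a | a) x y h
      · exact absurd h (by simp [tyM])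
      · exact absurd h (by simp [tyM])
      · have h3 : (Ty.p (p (e1 (a, 0))) (p (e1 (a, 1))) : Ty P Λ) = Ty.p x y := h
        injection h3 with h4 h5
        rw [← h4, ← h5]
        exact hok a
      · exact absurd h (by simp [tyM])
    · rw [Fintype.sum_sum_type, Fintype.sum_sum_type, Fintype.sum_sum_type]
      have h3 : ∑ a : P0, tw (wP s) (wL s) (tyM (κ2 := κ2) p l P0 A0 e1 (Sum.inl a)) = 0 :=
        Finset.sum_eq_zero fun _ _ => rfl
      have h4 : ∑ a : A0, tw (wP s) (wL s) (tyM (κ2 := κ2) p l P0 A0 e1 (Sum.inr (Sum.inl a))) =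
          0 := Finset.sum_eq_zero fun _ _ => rfl
      rw [h3, h4, zero_add, zero_add, ← hbal s]
      congr 1
      rw [← Equiv.sum_comp e1, Fintype.sum_prod_type]
      refine Finset.sum_congr rfl fun i _ => ?_
      rw [Fin.sum_univ_two]
      rfl
  exact hN.reindex es hF' _ fun v => by
    change F (fun k => prL (t k) (v k)) =
      F (fun k => prL (t k) (v (es (es.symm k))))
    simp only [Equiv.apply_symm_apply]

end general

end

end Pool.Agent.N995
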