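import Mathlib
import Pool.Agent.N995.Eng2
import Pool.Agent.R915.L2

/-!
# Models of the homology
-/

set_option linter.unusedSectionVars false

namespace Pool.Agent.N995

open Matrix Module Pool.Agent.W437.HC Pool.Agent.W437.HD Pool.Agent.TH504.CB Pool.Agent.Y90
open Pool.Agent.R915
open Pool.Agent.W548.Odd hiding cv
open Pool.Agent.H204R3.CM (IsHodge)
open Pool.Agent.H204R3.SP (Kills bil2 IsTate)
open Pool.Agent.W437.HP (cK cK_mul cK_one)

noncomputable section

variable {G : ℕ} {Z : Matrix (Fin G) (Fin G) ℂ}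

/-- Hodge classes are killed by the Lie algebra. -/
theorem hodge_kill (h : PM Z) {κ : Type} [Fintype κ] [DecidableEq κ]
    {f : (Fin G ⊕ Fin G → ℚ) [⋀^κ]→ₗ[ℚ] ℚ} (hf : IsHodge (perOne Z) f)
    {X : Matrix (Fin G ⊕ Fin G) (Fin G ⊕ Fin G) ℂ} (hX : X ∈ LZ Z) :
    KillM X (evalM (cst ℂ (CF f.toMultilinearMap))) := by
  have h1 : act (DZ Z) (cst ℂ (CF f.toMultilinearMap)) = 0 := h.cht.isH hf
  let C : Submodule ℂ (Matrix (Fin G ⊕ Fin G) (Fin G ⊕ Fin G) ℂ) :=
    { carrier := {X | act X (cst ℂ (CF f.toMultilinearMap)) = 0}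
      add_mem' := fun {X Y} hX hY => by
        change act (X + Y) _ = 0
        rw [act_add_left, show act X (cst ℂ (CF f.toMultilinearMap)) = 0 from hX,
          show act Y (cst ℂ (CF f.toMultilinearMap)) = 0 from hY, add_zero]
      zero_mem' := act_zero_left _
      smul_mem' := fun c X hX => by
        change act (c • X) _ = 0
        rw [act_smul_left, show act X (cst ℂ (CF f.toMultilinearMap)) = 0 from hX, smul_zero] }
  have hC : LZ Z ≤ C := by
    refine LZ_le (fun σ => ?_) (fun A hA B hB => act_bracket hA hB)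
    change act (DS Z σ) (cst ℂ (CF f.toMultilinearMap)) = 0
    funext I
    have h2 := congrArg σ (congrFun h1 I)
    rw [Pi.zero_apply, map_zero] at h2
    rw [Pi.zero_apply, ← h2]
    simp only [act, map_sum, map_mul, cst, map_ratCast]
    rfl
  have h3 : CF (evalM (cst ℂ (CF f.toMultilinearMap))) = cst ℂ (CF f.toMultilinearMap) := by
    funext I
    unfold CF
    rw [evalM_apply, evalF_single]
  have h4 : Kills (ph (Fin G ⊕ Fin G) X) (evalM (cst ℂ (CF f.toMultilinearMap))) := by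
    refine kills_of_act ?_
    rw [h3]
    exact hC hX
  intro v
  exact h4 v

variable {B : Type} [Fintype B] [DecidableEq B]

/-- Equivariant maps to the model. -/
def EqQ (Z : Matrix (Fin G) (Fin G) ℂ) (D0 : (ℂ ≃+* ℂ) → Matrix B B ℂ)
    (q : Matrix B (Fin G ⊕ Fin G) ℂ) : Prop := ∀ σ, q * DS Z σ = D0 σ * q

/-- Equivariant maps from the model. -/
def EqI (Z : Matrix (Fin G) (Fin G) ℂ) (D0 : (ℂ ≃+* ℂ) → Matrix B B ℂ)
    (ι : Matrix (Fin G ⊕ Fin G) B ℂ) : Prop := ∀ σ, DS Z σ * ι = ι * D0 σ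

/-- The forms on the model which give forms of the system. -/
def NB (𝒜 : Sys) (h : PM Z) (D0 : (ℂ ≃+* ℂ) → Matrix B B ℂ) (κ : Type) [Finite κ] :
    Submodule ℂ (MultilinearMap ℂ (fun _ : κ => B → ℂ) ℂ) where
  carrier := {F | ∀ q : κ → Matrix B (Fin G ⊕ Fin G) ℂ, (∀ k, EqQ Z D0 (q k)) →
    F.compLinearMap (fun k => mulVecLin (q k)) ∈ NA 𝒜 h.cht ⟨_, h.polar⟩ κ}
  add_mem' := fun {F F'} hF hF' q hq => by
    have h1 := Submodule.add_mem _ (hF q hq) (hF' q hq)
    exact h1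
  zero_mem' := fun q hq => by
    have h1 : (0 : MultilinearMap ℂ (fun _ : κ => B → ℂ) ℂ).compLinearMap
      (fun k => mulVecLin (q k)) = 0 := rfl
    rw [h1]
    exact Submodule.zero_mem _
  smul_mem' := fun c F hF q hq => by
    have h1 := Submodule.smul_mem _ c (hF q hq)
    exact h1

variable (𝒜 : Sys) (h : PM Z) (D0 : (ℂ ≃+* ℂ) → Matrix B B ℂ)

theorem clo_NB : Clo (NB 𝒜 h D0) := by
  have hN : Clo (fun (κ : Type) [Finite κ] => NA 𝒜 h.cht ⟨_, h.polar⟩ κ) := clo_NA _ _ _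
  constructor
  · intro κ _ _ F q _
    exact hN.unit κ _
  · intro κ κ' κ'' _ _ _ e F F' ψ hF hF' hψ q hq
    refine hN.mul κ κ' κ'' e _ _ _ (hF (fun k => q (e (Sum.inl k))) (fun k => hq _))
      (hF' (fun k => q (e (Sum.inr k))) (fun k => hq _)) fun v => ?_
    rw [MultilinearMap.compLinearMap_apply, hψ]
    rfl

/-- The reduction to the model. -/
theorem model_red
    (hcov : (1 : Matrix (Fin G ⊕ Fin G) (Fin G ⊕ Fin G) ℂ) ∈ Submodule.span ℂ
      {M | ∃ ι q, EqI Z D0 ι ∧ EqQ Z D0 q ∧ M = ι * q})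
    {κ : Type} [Fintype κ] [DecidableEq κ]
    (F : MultilinearMap ℂ (fun _ : κ => Fin G ⊕ Fin G → ℂ) ℂ)
    (hF : ∀ ι : κ → Matrix (Fin G ⊕ Fin G) B ℂ, (∀ k, EqI Z D0 (ι k)) →
      F.compLinearMap (fun k => mulVecLin (ι k)) ∈ NB 𝒜 h D0 κ) :
    F ∈ NA 𝒜 h.cht ⟨_, h.polar⟩ κ := by
  obtain ⟨n, f, T, hfT⟩ := Submodule.mem_span_set'.1 hcov
  choose ι q hι hq hT using fun l => (T l).2
  have hexp : F = ∑ L : κ → Fin n, (∏ k, f (L k)) •
      F.compLinearMap (fun k => mulVecLin (ι (L k) * q (L k))) := by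
    refine MultilinearMap.ext fun v => ?_
    rw [_root_.sum_apply]
    have h1 : v = fun k => ∑ l, f l • (mulVecLin (ι l * q l)) (v k) := by
      funext k
      have h2 := congrArg (fun M => M *ᵥ v k) hfT
      simp only [one_mulVec] at h2
      refine h2.symm.trans ?_
      rw [Matrix.sum_mulVec]
      refine Finset.sum_congr rfl fun l _ => ?_
      rw [smul_mulVec, hT l]
      rfl
    conv_lhs => rw [h1]
    rw [MultilinearMap.map_sum]
    refine Finset.sum_congr rfl fun L _ => ?_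
    rw [MultilinearMap.map_smul_univ]
    rfl
  rw [hexp]
  refine Submodule.sum_mem _ fun L _ => Submodule.smul_mem _ _ ?_
  have h1 := hF (fun k => ι (L k)) (fun k => hι _) (fun k => q (L k)) (fun k => hq _)
  have h2 : (F.compLinearMap (fun k => mulVecLin (ι (L k)))).compLinearMap
      (fun k => mulVecLin (q (L k))) =
      F.compLinearMap (fun k => mulVecLin (ι (L k) * q (L k))) := by
    refine MultilinearMap.ext fun v => ?_
    rw [MultilinearMap.compLinearMap_apply, MultilinearMap.compLinearMap_apply,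
      MultilinearMap.compLinearMap_apply]
    congr 1
    funext k
    rw [mulVecLin_apply, mulVecLin_apply, mulVecLin_apply, mulVec_mulVec]
  rwa [h2] at h1

/-- The operators on the model which come from the Lie algebra. -/
def KL (Z : Matrix (Fin G) (Fin G) ℂ) (D0 : (ℂ ≃+* ℂ) → Matrix B B ℂ) :
    Submodule ℂ (Matrix B B ℂ) where
  carrier := {A | ∃ X ∈ LZ Z, ∀ ι, EqI Z D0 ι → X * ι = ι * A}
  add_mem' := by
    rintro A A' ⟨X, hX, h⟩ ⟨X', hX', h'⟩
    exact ⟨X + X', Submodule.add_mem _ hX hX', fun ι hι => by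
      rw [Matrix.add_mul, Matrix.mul_add, h ι hι, h' ι hι]⟩
  zero_mem' := ⟨0, Submodule.zero_mem _, fun ι _ => by rw [Matrix.zero_mul, Matrix.mul_zero]⟩
  smul_mem' := by
    rintro c A ⟨X, hX, h⟩
    exact ⟨c • X, Submodule.smul_mem _ _ hX, fun ι hι => by
      rw [Matrix.smul_mul, Matrix.mul_smul, h ι hι]⟩

theorem KL_D (σ : ℂ ≃+* ℂ) : D0 σ ∈ KL Z D0 := ⟨DS Z σ, DS_mem σ, fun _ hι => hι σ⟩

theorem KL_br {A C : Matrix B B ℂ} (hA : A ∈ KL Z D0) (hC : C ∈ KL Z D0) :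
    A * C - C * A ∈ KL Z D0 := by
  obtain ⟨X, hX, h1⟩ := hA
  obtain ⟨Y, hY, h2⟩ := hC
  refine ⟨X * Y - Y * X, LZ_br hX hY, fun ι hι => ?_⟩
  rw [Matrix.sub_mul, Matrix.mul_sub, Matrix.mul_assoc, h2 ι hι, ← Matrix.mul_assoc, h1 ι hι,
    Matrix.mul_assoc Y, h1 ι hι, ← Matrix.mul_assoc Y, h2 ι hι, Matrix.mul_assoc, Matrix.mul_assoc]

/-- Killed forms give killed forms on the model. -/
theorem kill_model {κ : Type} [Fintype κ] [DecidableEq κ]
    {F : MultilinearMap ℂ (fun _ : κ => Fin G ⊕ Fin G → ℂ) ℂ} (hF : ∀ X ∈ LZ Z, KillM X F)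
    {A : Matrix B B ℂ} (hA : A ∈ KL Z D0) {ι : κ → Matrix (Fin G ⊕ Fin G) B ℂ}
    (hι : ∀ k, EqI Z D0 (ι k)) : KillM A (F.compLinearMap fun k => mulVecLin (ι k)) := by
  obtain ⟨X, hX, h1⟩ := hA
  intro v
  rw [← hF X hX (fun k => ι k *ᵥ v k)]
  refine Finset.sum_congr rfl fun k _ => ?_
  rw [MultilinearMap.compLinearMap_apply]
  congr 1
  funext k'
  by_cases h2 : k' = k
  · subst h2
    rw [Function.update_self, Function.update_self, mulVecLin_apply, mulVec_mulVec, mulVec_mulVec,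
      h1 _ (hι k')]
  · rw [Function.update_of_ne h2, Function.update_of_ne h2]
    rfl

/-- Invariant bilinear forms. -/
theorem pair_NB (β : Matrix B B ℂ) (hβ : ∀ σ, (D0 σ)ᵀ * β + β * D0 σ = 0) :
    bil2 (Matrix.toBilin' β) ∈ NB 𝒜 h D0 (Fin 2) := by
  intro q hq
  let C : Submodule ℂ (Matrix (Fin G ⊕ Fin G) (Fin G ⊕ Fin G) ℂ) :=
    { carrier := {X | ∃ A : Matrix B B ℂ, Aᵀ * β + β * A = 0 ∧
        ∀ r, EqQ Z D0 r → r * X = A * r}
      add_mem' := by
        rintro X X' ⟨A, h1, h2⟩ ⟨A', h1', h2'⟩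
        refine ⟨A + A', ?_, fun r hr => ?_⟩
        · rw [transpose_add, Matrix.add_mul, Matrix.mul_add, add_add_add_comm, h1, h1', add_zero]
        · rw [Matrix.mul_add, Matrix.add_mul, h2 r hr, h2' r hr]
      zero_mem' := ⟨0, by simp, fun r _ => by rw [Matrix.zero_mul, Matrix.mul_zero]⟩
      smul_mem' := by
        rintro c X ⟨A, h1, h2⟩
        refine ⟨c • A, ?_, fun r hr => ?_⟩
        · rw [transpose_smul, Matrix.smul_mul, Matrix.mul_smul, ← smul_add, h1, smul_zero]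
        · rw [Matrix.mul_smul, Matrix.smul_mul, h2 r hr] }
  have hC : LZ Z ≤ C := by
    refine LZ_le (fun σ => ⟨D0 σ, hβ σ, fun r hr => hr σ⟩) ?_
    rintro X ⟨A, h1, h2⟩ X' ⟨A', h1', h2'⟩
    refine ⟨A * A' - A' * A, ?_, fun r hr => ?_⟩
    · have e1 : Aᵀ * β = -(β * A) := eq_neg_of_add_eq_zero_left h1
      have e2 : A'ᵀ * β = -(β * A') := eq_neg_of_add_eq_zero_left h1'
      rw [transpose_sub, transpose_mul, transpose_mul, Matrix.sub_mul, Matrix.mul_sub,
        Matrix.mul_assoc, e1, Matrix.mul_assoc, e2, Matrix.mul_neg, Matrix.mul_neg,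
        ← Matrix.mul_assoc, ← Matrix.mul_assoc, e1, e2, Matrix.neg_mul, Matrix.neg_mul,
        Matrix.mul_assoc, Matrix.mul_assoc]
      abel
    · rw [Matrix.mul_sub, Matrix.sub_mul, ← Matrix.mul_assoc, h2 r hr, Matrix.mul_assoc,
        h2' r hr, ← Matrix.mul_assoc r, h2' r hr, Matrix.mul_assoc A', h2 r hr, Matrix.mul_assoc,
        Matrix.mul_assoc]
  have h1 := pair_memA 𝒜 h ((Matrix.toBilin' β).compl₁₂ (mulVecLin (q 0)) (mulVecLin (q 1)))
    (fun g u v => by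
      rw [MonoidHom.one_apply, one_mul]
      refine (rz_bil h stab_top stab_top _).2 ?_ g u trivial v trivial
      intro X hX u _ v _
      obtain ⟨A, e1, e2⟩ := hC hX
      have key : ∀ a b : B → ℂ, (A *ᵥ a) ⬝ᵥ (β *ᵥ b) + a ⬝ᵥ (β *ᵥ (A *ᵥ b)) = 0 := by
        intro a b
        rw [← vecMul_transpose, ← dotProduct_mulVec, mulVec_mulVec, mulVec_mulVec,
          ← dotProduct_add, ← add_mulVec, e1, zero_mulVec, dotProduct_zero]
      have h3 := key (q 0 *ᵥ u) (q 1 *ᵥ v)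
      simp only [LinearMap.compl₁₂_apply, mulVecLin_apply, Matrix.toBilin'_apply']
      have e3 : ∀ k w, q k *ᵥ (X *ᵥ w) = A *ᵥ (q k *ᵥ w) := by
        intro k w
        rw [mulVec_mulVec, e2 _ (hq k), ← mulVec_mulVec]
      rw [e3, e3]
      exact h3)
  have h2 : (bil2 (Matrix.toBilin' β)).compLinearMap (fun k => mulVecLin (q k)) =
      bil2 ((Matrix.toBilin' β).compl₁₂ (mulVecLin (q 0)) (mulVecLin (q 1))) := rfl
  rw [h2]
  exact h1

end

end Pool.Agent.N995
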