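import Mathlib

/-!
# Lie algebras in a product of three algebras of two by two matrices
-/

set_option linter.unusedSectionVars false

namespace Pool.Agent.N995

open Matrix

noncomputable section

/-- Two by two matrices. -/
abbrev M2 : Type := Matrix (Fin 2) (Fin 2) ℂ

/-- The diagonal matrix. -/
def hh : M2 := !![1, 0; 0, -1]

theorem hh_mul (T : M2) (i j : Fin 2) : (hh * T) i j = (![1, -1] : Fin 2 → ℂ) i * T i j := by
  rw [Matrix.mul_apply, Fin.sum_univ_two]
  fin_cases i <;> simp [hh]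

theorem mul_hh (T : M2) (i j : Fin 2) : (T * hh) i j = T i j * (![1, -1] : Fin 2 → ℂ) j := by
  rw [Matrix.mul_apply, Fin.sum_univ_two]
  fin_cases j <;> simp [hh]

theorem tr2 (T : M2) (h : T.trace = 0) : T 1 1 = -T 0 0 := by
  rw [trace_fin_two] at h
  linear_combination h

/-- An ideal of a Lie algebra of traceless matrices without stable lines is everything. -/
theorem ideal_all (k : Submodule ℂ M2) (S : Type*) (τ : S → M2) (htr : ∀ s, (τ s).trace = 0)
    (hk : ∀ s, ∀ T ∈ k, τ s * T - T * τ s ∈ k) (s₀ : S) (h₀ : τ s₀ = hh)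
    (s₁ : S) (h₁ : τ s₁ 1 0 ≠ 0) (s₂ : S) (h₂ : τ s₂ 0 1 ≠ 0) (T : M2) (hT : T ∈ k) (hT0 : T ≠ 0)
    (hTt : T.trace = 0) (T' : M2) (hT' : T'.trace = 0) : T' ∈ k := by
  have br : ∀ T ∈ k, hh * T - T * hh ∈ k := fun T hT => by
    have := hk s₀ T hT
    rwa [h₀] at this
  have hb : ∀ T ∈ k, (!![0, T 0 1; 0, 0] : M2) ∈ k := by
    intro T hT
    have h3 := k.add_mem (k.smul_mem 2 (br T hT)) (br _ (br T hT))
    have h4 : (2 : ℂ) • (hh * T - T * hh) + (hh * (hh * T - T * hh) - (hh * T - T * hh) * hh) =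
        (8 : ℂ) • (!![0, T 0 1; 0, 0] : M2) := by
      ext i j
      simp only [Matrix.add_apply, Matrix.sub_apply, Matrix.smul_apply, hh_mul, mul_hh, smul_eq_mul]
      fin_cases i <;> fin_cases j <;> simp <;> ring
    rw [h4] at h3
    have h5 := k.smul_mem (8 : ℂ)⁻¹ h3
    rwa [smul_smul, inv_mul_cancel₀ (by norm_num), one_smul] at h5
  have hc : ∀ T ∈ k, (!![0, 0; T 1 0, 0] : M2) ∈ k := by
    intro T hT
    have h3 := k.sub_mem (br _ (br T hT)) (k.smul_mem 2 (br T hT))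
    have h4 : (hh * (hh * T - T * hh) - (hh * T - T * hh) * hh) - (2 : ℂ) • (hh * T - T * hh) =
        (8 : ℂ) • (!![0, 0; T 1 0, 0] : M2) := by
      ext i j
      simp only [Matrix.add_apply, Matrix.sub_apply, Matrix.smul_apply, hh_mul, mul_hh, smul_eq_mul]
      fin_cases i <;> fin_cases j <;> simp <;> ring
    rw [h4] at h3
    have h5 := k.smul_mem (8 : ℂ)⁻¹ h3
    rwa [smul_smul, inv_mul_cancel₀ (by norm_num), one_smul] at h5
  have ha : ∀ T ∈ k, T.trace = 0 → T 0 0 • hh ∈ k := by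
    intro T hT h0
    have h3 := k.sub_mem (k.sub_mem hT (hb T hT)) (hc T hT)
    have h4 : T - !![0, T 0 1; 0, 0] - !![0, 0; T 1 0, 0] = T 0 0 • hh := by
      have h5 := tr2 T h0
      ext i j
      fin_cases i <;> fin_cases j <;> simp [hh, h5]
    rwa [h4] at h3
  have he' : ∀ c : ℂ, c ≠ 0 → (!![0, c; 0, 0] : M2) ∈ k → (!![0, 1; 0, 0] : M2) ∈ k := by
    intro c hc0 h3
    have h4 := k.smul_mem c⁻¹ h3
    have h5 : c⁻¹ • (!![0, c; 0, 0] : M2) = !![0, 1; 0, 0] := by
      ext i j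
      fin_cases i <;> fin_cases j <;> simp [inv_mul_cancel₀ hc0]
    rwa [h5] at h4
  have hf' : ∀ c : ℂ, c ≠ 0 → (!![0, 0; c, 0] : M2) ∈ k → (!![0, 0; 1, 0] : M2) ∈ k := by
    intro c hc0 h3
    have h4 := k.smul_mem c⁻¹ h3
    have h5 : c⁻¹ • (!![0, 0; c, 0] : M2) = !![0, 0; 1, 0] := by
      ext i j
      fin_cases i <;> fin_cases j <;> simp [inv_mul_cancel₀ hc0]
    rwa [h5] at h4
  have hh' : ∀ c : ℂ, c ≠ 0 → c • hh ∈ k → hh ∈ k := by
    intro c hc0 h3
    have h4 := k.smul_mem c⁻¹ h3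
    rwa [smul_smul, inv_mul_cancel₀ hc0, one_smul] at h4
  have key : hh ∈ k := by
    by_cases hA : T 0 0 = 0
    · by_cases hB : T 0 1 = 0
      · have hC : T 1 0 ≠ 0 := by
          intro hC
          apply hT0
          ext i j
          fin_cases i <;> fin_cases j
          · exact hA
          · exact hB
          · exact hC
          · change T 1 1 = 0
            rw [tr2 T hTt, hA, neg_zero]
        have h3 := hf' _ hC (hc T hT)
        have h4 := hk s₂ _ h3
        have h5 : (τ s₂ * !![0, 0; 1, 0] - !![0, 0; 1, 0] * τ s₂).trace = 0 := by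
          rw [trace_sub, trace_mul_comm, sub_self]
        have h6 := ha _ h4 h5
        refine hh' _ ?_ h6
        have h7 : (τ s₂ * !![0, 0; 1, 0] - !![0, 0; 1, 0] * τ s₂ : M2) 0 0 = τ s₂ 0 1 := by
          rw [Matrix.sub_apply, Matrix.mul_apply, Matrix.mul_apply, Fin.sum_univ_two,
            Fin.sum_univ_two]
          simp
        rwa [h7]
      · have h3 := he' _ hB (hb T hT)
        have h4 := hk s₁ _ h3
        have h5 : (τ s₁ * !![0, 1; 0, 0] - !![0, 1; 0, 0] * τ s₁).trace = 0 := by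
          rw [trace_sub, trace_mul_comm, sub_self]
        have h6 := ha _ h4 h5
        refine hh' _ ?_ h6
        have h7 : (τ s₁ * !![0, 1; 0, 0] - !![0, 1; 0, 0] * τ s₁ : M2) 0 0 = -τ s₁ 1 0 := by
          rw [Matrix.sub_apply, Matrix.mul_apply, Matrix.mul_apply, Fin.sum_univ_two,
            Fin.sum_univ_two]
          simp
        rw [h7]
        exact neg_ne_zero.2 h₁
    · exact hh' _ hA (ha T hT hTt)
  have ke : (!![0, 1; 0, 0] : M2) ∈ k := by
    have h3 := hb _ (hk s₂ _ key)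
    refine he' _ ?_ h3
    rw [Matrix.sub_apply, hh_mul, mul_hh]
    simp only [Matrix.cons_val_zero, Matrix.cons_val_one]
    intro h4
    apply h₂
    linear_combination (-1 / 2 : ℂ) * h4
  have kf : (!![0, 0; 1, 0] : M2) ∈ k := by
    have h3 := hc _ (hk s₁ _ key)
    refine hf' _ ?_ h3
    rw [Matrix.sub_apply, hh_mul, mul_hh]
    simp only [Matrix.cons_val_zero, Matrix.cons_val_one]
    intro h4
    apply h₁
    linear_combination (1 / 2 : ℂ) * h4
  have h5 : T' = T' 0 0 • hh + T' 0 1 • !![0, 1; 0, 0] + T' 1 0 • !![0, 0; 1, 0] := by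
    have h6 := tr2 T' hT'
    ext i j
    fin_cases i <;> fin_cases j <;> simp [hh, h6]
  rw [h5]
  exact k.add_mem (k.add_mem (k.smul_mem _ key) (k.smul_mem _ ke)) (k.smul_mem _ kf)

section three

variable {I : Type*} (g : Submodule ℂ ((Fin 3 → M2) × (I → ℂ)))
  (hbr : ∀ x ∈ g, ∀ y ∈ g, ((fun c => x.1 c * y.1 c - y.1 c * x.1 c), (0 : I → ℂ)) ∈ g)
  {S : Type*} (d : S → (Fin 3 → M2) × (I → ℂ)) (hd : ∀ s, d s ∈ g)
  (htr : ∀ s c, ((d s).1 c).trace = 0)

/-- The component is nontrivial, and there are no stable lines. -/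
def Full (d : S → (Fin 3 → M2) × (I → ℂ)) (c : Fin 3) : Prop :=
  (∃ s, (d s).1 c = hh) ∧ (∃ s, (d s).1 c 1 0 ≠ 0) ∧ ∃ s, (d s).1 c 0 1 ≠ 0

/-- The elements of one component. -/
def comp3 (c : Fin 3) : Submodule ℂ M2 where
  carrier := {T | (Pi.single c T, (0 : I → ℂ)) ∈ g}
  add_mem' := fun {T T'} hT hT' => by
    have h1 := g.add_mem hT hT'
    rw [Prod.mk_add_mk, ← Pi.single_add, add_zero] at h1
    exact h1
  zero_mem' := by
    change (Pi.single c 0, (0 : I → ℂ)) ∈ g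
    rw [Pi.single_zero]
    exact g.zero_mem
  smul_mem' := fun r T hT => by
    have h1 := g.smul_mem r hT
    rw [Prod.smul_mk, ← Pi.single_smul, smul_zero] at h1
    exact h1

theorem mem_comp3 {c : Fin 3} {T : M2} :
    T ∈ comp3 g c ↔ (Pi.single c T, (0 : I → ℂ)) ∈ g := Iff.rfl

include hbr hd htr in
theorem comp3_all {c : Fin 3} (hc : Full d c) (T : M2) (hT : T ∈ comp3 g c) (hT0 : T ≠ 0)
    (hTt : T.trace = 0) (T' : M2) (hT' : T'.trace = 0) : T' ∈ comp3 g c := by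
  obtain ⟨⟨s₀, h₀⟩, ⟨s₁, h₁⟩, ⟨s₂, h₂⟩⟩ := hc
  refine ideal_all (comp3 g c) S (fun s => (d s).1 c) (fun s => htr s c) (fun s T hT => ?_) s₀ h₀
    s₁ h₁ s₂ h₂ T hT hT0 hTt T' hT'
  rw [mem_comp3] at hT ⊢
  have h3 := hbr _ (hd s) _ hT
  have h4 : (fun c' => (d s).1 c' * (Pi.single c T : Fin 3 → M2) c' -
      (Pi.single c T : Fin 3 → M2) c' * (d s).1 c') =
      Pi.single c ((d s).1 c * T - T * (d s).1 c) := by
    funext c'
    by_cases h5 : c' = c
    · subst h5
      rw [Pi.single_eq_same, Pi.single_eq_same]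
    · rw [Pi.single_eq_of_ne h5, Pi.single_eq_of_ne h5, Matrix.mul_zero, Matrix.zero_mul, sub_zero]
  rw [h4] at h3
  exact h3

theorem comm_hh {T : M2} (hT : hh * T - T * hh = 0) : T 0 1 = 0 ∧ T 1 0 = 0 := by
  have h1 := congrFun (congrFun hT 0) 1
  have h2 := congrFun (congrFun hT 1) 0
  rw [Matrix.sub_apply, hh_mul, mul_hh, Matrix.zero_apply] at h1 h2
  simp only [Matrix.cons_val_zero, Matrix.cons_val_one] at h1 h2
  constructor
  · linear_combination (1 / 2 : ℂ) * h1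
  · linear_combination (-1 / 2 : ℂ) * h2

theorem comm_diag {D T : M2} (h01 : D 0 1 = 0) (h10 : D 1 0 = 0) (ht : D.trace = 0) (h0 : D ≠ 0)
    (hT : D * T - T * D = 0) : T 0 1 = 0 ∧ T 1 0 = 0 := by
  have h11 := tr2 D ht
  have h00 : D 0 0 ≠ 0 := by
    intro h
    apply h0
    ext i j
    fin_cases i <;> fin_cases j
    · exact h
    · exact h01
    · exact h10
    · change D 1 1 = 0
      rw [h11, h, neg_zero]
  have h3 : D = D 0 0 • hh := by
    ext i j
    fin_cases i <;> fin_cases j <;> simp [hh, h01, h10, h11]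
  rw [h3, Matrix.smul_mul, Matrix.mul_smul, ← smul_sub] at hT
  exact comm_hh ((smul_eq_zero.1 hT).resolve_left h00)

variable (h01 : ∀ s, (d s).1 0 = 0 ∨ (d s).1 1 = 0) (f0 : Full d 0) (f1 : Full d 1)
  (f2 : (∀ s, (d s).1 2 = 0) ∨ (Full d 2 ∧ ∀ s, (d s).1 2 ≠ 0))

include hbr hd h01 in
/-- Brackets of elements of the two kinds. -/
theorem cross (s t : S) (hs : (d s).1 1 = 0) (ht : (d t).1 0 = 0) :
    (d s).1 2 * (d t).1 2 - (d t).1 2 * (d s).1 2 ∈ comp3 g 2 := by
  have h3 := hbr _ (hd s) _ (hd t)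
  rw [mem_comp3]
  have h4 : (fun c' => (d s).1 c' * (d t).1 c' - (d t).1 c' * (d s).1 c') =
      Pi.single 2 ((d s).1 2 * (d t).1 2 - (d t).1 2 * (d s).1 2) := by
    funext c'
    fin_cases c'
    · simp [ht]
    · simp [hs]
    · simp
  rwa [h4] at h3

include hbr hd htr h01 f0 f1 f2 in
theorem two_all (hn : Full d 2) (T : M2) (hT : T.trace = 0) : T ∈ comp3 g 2 := by
  have hne : ∀ s, (d s).1 2 ≠ 0 := by
    rcases f2 with h | h
    · obtain ⟨⟨s, hs⟩, -⟩ := hn
      exfalso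
      rw [h s] at hs
      have h3 := congrFun (congrFun hs 0) 0
      simp [hh] at h3
    · exact h.2
  by_cases hx : ∃ s t, (d s).1 1 = 0 ∧ (d t).1 0 = 0 ∧
      (d s).1 2 * (d t).1 2 - (d t).1 2 * (d s).1 2 ≠ 0
  · obtain ⟨s, t, hs, ht, h3⟩ := hx
    exact comp3_all g hbr d hd htr hn _ (cross g hbr d hd h01 s t hs ht) h3
      (by rw [trace_sub, trace_mul_comm, sub_self]) T hT
  · exfalso
    push Not at hx
    obtain ⟨⟨s₀, h₀⟩, ⟨s₁, h₁⟩, -⟩ := hn
    obtain ⟨⟨a, ha⟩, -⟩ := f0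
    obtain ⟨⟨b, hb⟩, -⟩ := f1
    have ha1 : (d a).1 1 = 0 := by
      rcases h01 a with h | h
      · exfalso
        rw [h] at ha
        have h3 := congrFun (congrFun ha 0) 0
        simp [hh] at h3
      · exact h
    have hb0 : (d b).1 0 = 0 := by
      rcases h01 b with h | h
      · exact h
      · exfalso
        rw [h] at hb
        have h3 := congrFun (congrFun hb 0) 0
        simp [hh] at h3
    have flip : ∀ X Y : M2, X * Y - Y * X = 0 → Y * X - X * Y = 0 := by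
      intro X Y h
      rw [← neg_sub, h, neg_zero]
    -- all matrices are diagonal
    have hall : ∀ s, (d s).1 2 0 1 = 0 ∧ (d s).1 2 1 0 = 0 := by
      rcases h01 s₀ with hs | hs
      · have h4 : ∀ s, (d s).1 1 = 0 → (d s).1 2 0 1 = 0 ∧ (d s).1 2 1 0 = 0 := by
          intro s h5
          refine comm_hh ?_
          rw [← h₀]
          exact flip _ _ (hx s s₀ h5 hs)
        have h5 := h4 a ha1
        have h6 : ∀ s, (d s).1 0 = 0 → (d s).1 2 0 1 = 0 ∧ (d s).1 2 1 0 = 0 := by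
          intro s h7
          exact comm_diag h5.1 h5.2 (htr a 2) (hne a) (hx a s ha1 h7)
        intro s
        rcases h01 s with h | h
        · exact h6 s h
        · exact h4 s h
      · have h4 : ∀ s, (d s).1 0 = 0 → (d s).1 2 0 1 = 0 ∧ (d s).1 2 1 0 = 0 := by
          intro s h5
          refine comm_hh ?_
          rw [← h₀]
          exact hx s₀ s hs h5
        have h5 := h4 b hb0
        have h6 : ∀ s, (d s).1 1 = 0 → (d s).1 2 0 1 = 0 ∧ (d s).1 2 1 0 = 0 := by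
          intro s h7
          exact comm_diag h5.1 h5.2 (htr b 2) (hne b) (flip _ _ (hx s b h7 hb0))
        intro s
        rcases h01 s with h | h
        · exact h4 s h
        · exact h6 s h
    exact h₁ (hall s₁).2

include hbr hd htr h01 f0 f1 f2 in
/-- The last component of the brackets belongs to the Lie algebra. -/
theorem two_mem (s t : S) : (d s).1 2 * (d t).1 2 - (d t).1 2 * (d s).1 2 ∈ comp3 g 2 := by
  rcases f2 with h | h
  · rw [h s, Matrix.mul_zero, Matrix.zero_mul, sub_zero]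
    exact Submodule.zero_mem _
  · exact two_all g hbr d hd htr h01 f0 f1 (Or.inr h) h.1 _
      (by rw [trace_sub, trace_mul_comm, sub_self])

include hbr hd htr h01 f0 f1 f2 in
theorem zero_all (T : M2) (hT : T.trace = 0) : T ∈ comp3 g 0 := by
  obtain ⟨⟨s₀, h₀⟩, ⟨s₁, h₁⟩, h2⟩ := id f0
  have hs0 : (d s₀).1 1 = 0 := by
    rcases h01 s₀ with h | h
    · exfalso
      rw [h] at h₀
      have h3 := congrFun (congrFun h₀ 0) 0
      simp [hh] at h3
    · exact h
  have hs1 : (d s₁).1 1 = 0 := by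
    rcases h01 s₁ with h | h
    · exfalso
      rw [h] at h₁
      exact h₁ rfl
    · exact h
  have h3 : (d s₀).1 0 * (d s₁).1 0 - (d s₁).1 0 * (d s₀).1 0 ∈ comp3 g 0 := by
    have h4 := g.sub_mem (hbr _ (hd s₀) _ (hd s₁))
      ((mem_comp3 g).1 (two_mem g hbr d hd htr h01 f0 f1 f2 s₀ s₁))
    rw [mem_comp3]
    have h5 : ((fun c' => (d s₀).1 c' * (d s₁).1 c' - (d s₁).1 c' * (d s₀).1 c'),
        (0 : I → ℂ)) - (Pi.single 2 ((d s₀).1 2 * (d s₁).1 2 - (d s₁).1 2 * (d s₀).1 2), 0) =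
        ((Pi.single 0 ((d s₀).1 0 * (d s₁).1 0 - (d s₁).1 0 * (d s₀).1 0) : Fin 3 → M2), 0) := by
      rw [Prod.mk_sub_mk, sub_zero]
      congr 1
      funext c'
      fin_cases c'
      · simp
      · simp [hs0, hs1]
      · simp
    rwa [h5] at h4
  refine comp3_all g hbr d hd htr f0 _ h3 ?_ (by rw [trace_sub, trace_mul_comm, sub_self]) T hT
  intro h4
  rw [h₀] at h4
  exact h₁ (comm_hh h4).2

include hbr hd htr h01 f0 f1 f2 in
theorem one_all (T : M2) (hT : T.trace = 0) : T ∈ comp3 g 1 := by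
  obtain ⟨⟨s₀, h₀⟩, ⟨s₁, h₁⟩, h2⟩ := id f1
  have hs0 : (d s₀).1 0 = 0 := by
    rcases h01 s₀ with h | h
    · exact h
    · exfalso
      rw [h] at h₀
      have h3 := congrFun (congrFun h₀ 0) 0
      simp [hh] at h3
  have hs1 : (d s₁).1 0 = 0 := by
    rcases h01 s₁ with h | h
    · exact h
    · exfalso
      rw [h] at h₁
      exact h₁ rfl
  have h3 : (d s₀).1 1 * (d s₁).1 1 - (d s₁).1 1 * (d s₀).1 1 ∈ comp3 g 1 := by
    have h4 := g.sub_mem (hbr _ (hd s₀) _ (hd s₁))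
      ((mem_comp3 g).1 (two_mem g hbr d hd htr h01 f0 f1 f2 s₀ s₁))
    rw [mem_comp3]
    have h5 : ((fun c' => (d s₀).1 c' * (d s₁).1 c' - (d s₁).1 c' * (d s₀).1 c'),
        (0 : I → ℂ)) - (Pi.single 2 ((d s₀).1 2 * (d s₁).1 2 - (d s₁).1 2 * (d s₀).1 2), 0) =
        ((Pi.single 1 ((d s₀).1 1 * (d s₁).1 1 - (d s₁).1 1 * (d s₀).1 1) : Fin 3 → M2), 0) := by
      rw [Prod.mk_sub_mk, sub_zero]
      congr 1
      funext c'
      fin_cases c'
      · simp [hs0, hs1]
      · simp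
      · simp
    rwa [h5] at h4
  refine comp3_all g hbr d hd htr f1 _ h3 ?_ (by rw [trace_sub, trace_mul_comm, sub_self]) T hT
  intro h4
  rw [h₀] at h4
  exact h₁ (comm_hh h4).2

include hbr hd htr h01 f0 f1 f2 in
/-- The Lie algebra contains all families of traceless matrices. -/
theorem all_mem (T : Fin 3 → M2) (hT : ∀ c, (T c).trace = 0) (hT2 : Full d 2 ∨ T 2 = 0) :
    (T, (0 : I → ℂ)) ∈ g := by
  have h1 := zero_all g hbr d hd htr h01 f0 f1 f2 (T 0) (hT 0)
  have h2 := one_all g hbr d hd htr h01 f0 f1 f2 (T 1) (hT 1)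
  have h3 : T 2 ∈ comp3 g 2 := by
    rcases hT2 with h | h
    · exact two_all g hbr d hd htr h01 f0 f1 f2 h (T 2) (hT 2)
    · rw [h]
      exact Submodule.zero_mem _
  rw [mem_comp3] at h1 h2 h3
  have h4 := g.add_mem (g.add_mem h1 h2) h3
  have h5 : ((Pi.single 0 (T 0), (0 : I → ℂ)) + (Pi.single 1 (T 1), 0) +
      (Pi.single 2 (T 2), 0) : (Fin 3 → M2) × (I → ℂ)) = (T, 0) := by
    rw [Prod.mk_add_mk, Prod.mk_add_mk, add_zero, add_zero]
    congr 1
    funext c
    fin_cases c <;> simp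
  rwa [h5] at h4

end three

end

end Pool.Agent.N995
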