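import Mathlib
import Pool.Agent.N995.Mod
import Pool.Agent.N995.Sl2

/-!
# Models attached to families of two by two matrices
-/

set_option linter.unusedSectionVars false

namespace Pool.Agent.N995

open Matrix Module Pool.Agent.W437.HC Pool.Agent.W437.HD Pool.Agent.TH504.CB Pool.Agent.Y90
open Pool.Agent.R915
open Pool.Agent.W548.Odd hiding cv
open Pool.Agent.H204R3.CM (IsHodge)
open Pool.Agent.H204R3.SP (Kills bil2 IsTate)
open Pool.Agent.W437.HP (cK cK_mul cK_one)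

noncomputable section

variable {O P Λ : Type} [Fintype O] [DecidableEq O] [Fintype P] [DecidableEq P] [Fintype Λ]
  [DecidableEq Λ]

/-- The second block of the operators. -/
def thP (cl : P → Fin 3) (T : Fin 3 → M2) (w : P → ℂ) : Matrix (P × Fin 2) (P × Fin 2) ℂ :=
  Matrix.of fun x y => if x.1 = y.1 then T (cl y.1) x.2 y.2 + (if x.2 = y.2 then w y.1 else 0)
    else 0

/-- The operators on the model. -/
def Th (kO : (Fin 3 → M2) →ₗ[ℂ] Matrix O O ℂ) (cl : P → Fin 3) :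
    ((Fin 3 → M2) × (P ⊕ Λ → ℂ)) →ₗ[ℂ] Matrix (BB O P Λ) (BB O P Λ) ℂ where
  toFun x := fromBlocks (kO x.1) 0 0 (fromBlocks (thP cl x.1 fun p => x.2 (Sum.inl p)) 0 0
    (diagonal fun i => x.2 (Sum.inr i)))
  map_add' x y := by
    have h1 : (thP cl (x + y).1 fun p => (x + y).2 (Sum.inl p)) =
        (thP cl x.1 fun p => x.2 (Sum.inl p)) + thP cl y.1 fun p => y.2 (Sum.inl p) := by
      ext a b
      simp only [thP, of_apply, Matrix.add_apply, Prod.fst_add, Prod.snd_add, Pi.add_apply]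
      split_ifs <;> ring
    have h2 : (diagonal fun i => (x + y).2 (Sum.inr i)) =
        (diagonal fun i => x.2 (Sum.inr i)) + diagonal fun i : Λ => y.2 (Sum.inr i) := by
      rw [diagonal_add]
      rfl
    rw [h1, h2, fromBlocks_add, fromBlocks_add, Prod.fst_add, map_add]
    simp only [add_zero]
  map_smul' r x := by
    have h1 : (thP cl (r • x).1 fun p => (r • x).2 (Sum.inl p)) =
        r • (thP cl x.1 fun p => x.2 (Sum.inl p)) := by
      ext a b
      simp only [thP, of_apply, Matrix.smul_apply, Prod.smul_fst, Prod.smul_snd, Pi.smul_apply,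
        smul_eq_mul]
      split_ifs <;> ring
    have h2 : (diagonal fun i => (r • x).2 (Sum.inr i)) =
        r • (diagonal fun i : Λ => x.2 (Sum.inr i)) := by
      rw [← diagonal_smul]
      rfl
    rw [h1, h2, RingHom.id_apply, fromBlocks_smul, fromBlocks_smul, Prod.smul_fst, map_smul]
    simp only [smul_zero]

theorem Th_apply (kO : (Fin 3 → M2) →ₗ[ℂ] Matrix O O ℂ) (cl : P → Fin 3)
    (x : (Fin 3 → M2) × (P ⊕ Λ → ℂ)) :
    Th kO cl x = fromBlocks (kO x.1) 0 0 (fromBlocks (thP cl x.1 fun p => x.2 (Sum.inl p)) 0 0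
      (diagonal fun i => x.2 (Sum.inr i))) := rfl

theorem thP_mul (cl : P → Fin 3) (T T' : Fin 3 → M2) (w w' : P → ℂ) :
    thP cl T w * thP cl T' w' =
      Matrix.of fun x y => if x.1 = y.1 then (T (cl y.1) * T' (cl y.1)) x.2 y.2 +
        w y.1 * T' (cl y.1) x.2 y.2 + w' y.1 * T (cl y.1) x.2 y.2 +
        (if x.2 = y.2 then w y.1 * w' y.1 else 0) else 0 := by
  ext ⟨p, a⟩ ⟨q, b⟩
  rw [Matrix.mul_apply, Fintype.sum_prod_type]
  simp only [thP, of_apply]
  rw [Finset.sum_eq_single p]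
  · by_cases h : p = q
    · subst h
      simp only [if_true, Matrix.mul_apply, Fin.sum_univ_two]
      fin_cases a <;> fin_cases b <;> simp <;> ring
    · simp only [if_neg h, mul_zero, Finset.sum_const_zero]
  · intro r _ hr
    refine Finset.sum_eq_zero fun c _ => ?_
    rw [if_neg (Ne.symm hr), zero_mul]
  · intro h
    exact absurd (Finset.mem_univ _) h

/-- The brackets of the operators. -/
theorem Th_br (kO : (Fin 3 → M2) →ₗ[ℂ] Matrix O O ℂ) (cl : P → Fin 3)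
    (hkO : ∀ T T' : Fin 3 → M2, kO (fun c => T c * T' c - T' c * T c) = kO T * kO T' - kO T' * kO T)
    (x y : (Fin 3 → M2) × (P ⊕ Λ → ℂ)) :
    Th kO cl ((fun c => x.1 c * y.1 c - y.1 c * x.1 c), (0 : P ⊕ Λ → ℂ)) =
      Th kO cl x * Th kO cl y - Th kO cl y * Th kO cl x := by
  have e1 : (thP cl (fun c => x.1 c * y.1 c - y.1 c * x.1 c) fun _ => 0) =
      (thP cl x.1 fun p => x.2 (Sum.inl p)) * (thP cl y.1 fun p => y.2 (Sum.inl p)) -
      (thP cl y.1 fun p => y.2 (Sum.inl p)) * (thP cl x.1 fun p => x.2 (Sum.inl p)) := by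
    rw [thP_mul, thP_mul]
    ext a b
    rw [Matrix.sub_apply]
    simp only [thP, of_apply, Matrix.sub_apply]
    split_ifs <;> ring
  have e2 : (diagonal fun i : Λ => x.2 (Sum.inr i)) * (diagonal fun i => y.2 (Sum.inr i)) -
      (diagonal fun i => y.2 (Sum.inr i)) * (diagonal fun i => x.2 (Sum.inr i)) = 0 := by
    rw [diagonal_mul_diagonal, diagonal_mul_diagonal, sub_eq_zero]
    congr 1
    funext i
    ring
  rw [Th_apply, Th_apply, Th_apply, fromBlocks_multiply, fromBlocks_multiply, fromBlocks_multiply,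
    fromBlocks_multiply]
  simp only [Matrix.zero_mul, Matrix.mul_zero, add_zero, zero_add]
  have e3 : ∀ {m n : Type} (A A' : Matrix m m ℂ) (C C' : Matrix n n ℂ),
      fromBlocks A 0 0 C - fromBlocks A' 0 0 C' = fromBlocks (A - A') 0 0 (C - C') := by
    intro m n A A' C C'
    ext i j
    rcases i with i | i <;> rcases j with j | j <;> simp
  rw [e3, e3, e2, ← hkO, ← e1]
  congr 1
  congr 1
  ext i j
  by_cases h : i = j
  · subst h
    simp
  · simp [h]

/-- Symmetric operators on the plane. -/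
def symO (a b : Fin 2) : M2 :=
  Matrix.of fun x y => eps b y * (if x = a then 1 else 0) + eps a y * (if x = b then 1 else 0)

theorem symO_tr (a b : Fin 2) : (symO a b).trace = 0 := by
  rw [trace_fin_two]
  fin_cases a <;> fin_cases b <;> simp [symO, eps]

theorem opP_eq (kO : (Fin 3 → M2) →ₗ[ℂ] Matrix O O ℂ) (cl : P → Fin 3) (c : Fin 3) (a b : Fin 2)
    (hk : kO (Pi.single c (symO a b)) = 0) :
    (opP cl c a b : Matrix (BB O P Λ) (BB O P Λ) ℂ) = Th kO cl (Pi.single c (symO a b), 0) := by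
  rw [Th_apply, hk]
  unfold opP
  congr 1
  congr 1
  · ext ⟨p, x⟩ ⟨q, y⟩
    simp only [thP, of_apply]
    by_cases h1 : p = q
    · subst h1
      by_cases h2 : cl p = c
      · subst h2
        rw [if_pos ⟨rfl, rfl⟩, if_pos rfl, Pi.single_eq_same]
        simp [symO]
      · rw [if_neg (fun h => h2 h.2), if_pos rfl, Pi.single_eq_of_ne h2]
        simp
    · rw [if_neg (fun h => h1 h.1), if_neg h1]
  · exact (diagonal_zero (n := Λ) (α := ℂ)).symm

theorem opP_zero (cl : P → Fin 3) (c : Fin 3) (a b : Fin 2) (hc : ∀ p, cl p ≠ c) :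
    (opP cl c a b : Matrix (BB O P Λ) (BB O P Λ) ℂ) = 0 := by
  have h1 : (Matrix.of fun (x y : P × Fin 2) => if x.1 = y.1 ∧ cl y.1 = c then
      eps b y.2 * (if x.2 = a then 1 else 0) + eps a y.2 * (if x.2 = b then 1 else 0) else 0) =
        (0 : Matrix (P × Fin 2) (P × Fin 2) ℂ) := by
    ext x y
    rw [of_apply, if_neg (fun h => hc _ h.2), Matrix.zero_apply]
  unfold opP
  rw [h1, fromBlocks_zero, fromBlocks_zero]

section main

variable {G : ℕ} {Z : Matrix (Fin G) (Fin G) ℂ} (𝒜 : Sys) (h : PM Z)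
  (kO : (Fin 3 → M2) →ₗ[ℂ] Matrix O O ℂ) (cl : P → Fin 3)
  (hkO : ∀ T T' : Fin 3 → M2, kO (fun c => T c * T' c - T' c * T c) = kO T * kO T' - kO T' * kO T)
  (d : (ℂ ≃+* ℂ) → (Fin 3 → M2) × (P ⊕ Λ → ℂ))
  (htr : ∀ s c, ((d s).1 c).trace = 0)
  (h01 : ∀ s, (d s).1 0 = 0 ∨ (d s).1 1 = 0) (f0 : Full d 0) (f1 : Full d 1)
  (f2 : (∀ s, (d s).1 2 = 0) ∨ (Full d 2 ∧ ∀ s, (d s).1 2 ≠ 0))
  (h2 : Full d 2 ∨ ∀ p, cl p ≠ 2)
  (hc : ∀ c, (∀ T, kO (Pi.single c T) = 0) ∨ ∀ p, cl p ≠ c)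
  (QO RO : Matrix O O ℂ) (hQs : ∀ a b, QO a b = QO b a) (hQR : QO * RO = 1)
  (hOp : ∀ u v : O, ∃ T : Fin 3 → M2, (∀ c, (T c).trace = 0) ∧ (∀ p, T (cl p) = 0) ∧ T 2 = 0 ∧
    kO T = Matrix.of fun x y => QO v y * (if x = u then 1 else 0) - QO u y * (if x = v then 1 else 0))

include hkO htr h01 f0 f1 f2 in
theorem Th_KL (T : Fin 3 → M2) (hT : ∀ c, (T c).trace = 0) (hT2 : Full d 2 ∨ T 2 = 0) :
    Th kO cl (T, (0 : P ⊕ Λ → ℂ)) ∈ KL Z (fun σ => Th kO cl (d σ)) := by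
  let g : Submodule ℂ ((Fin 3 → M2) × (P ⊕ Λ → ℂ)) :=
    (KL Z (fun σ => Th kO cl (d σ))).comap (Th kO cl)
  have hbr : ∀ x ∈ g, ∀ y ∈ g, ((fun c => x.1 c * y.1 c - y.1 c * x.1 c), (0 : P ⊕ Λ → ℂ)) ∈ g := by
    intro x hx y hy
    change Th kO cl _ ∈ KL Z _
    rw [Th_br kO cl hkO]
    exact KL_br _ hx hy
  exact all_mem g hbr d (fun s => KL_D (Z := Z) (fun σ => Th kO cl (d σ)) s) htr h01 f0 f1 f2 T hT
    hT2

include hkO htr h01 f0 f1 f2 hOp in
theorem opO_KL (u v : O) : (opO QO u v : Matrix (BB O P Λ) (BB O P Λ) ℂ) ∈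
    KL Z (fun σ => Th kO cl (d σ)) := by
  obtain ⟨T, hT, hTp, hT2, hTO⟩ := hOp u v
  have h3 := Th_KL (Z := Z) kO cl hkO d htr h01 f0 f1 f2 T hT (Or.inr hT2)
  have h4 : Th kO cl (T, (0 : P ⊕ Λ → ℂ)) = opO QO u v := by
    rw [Th_apply, hTO]
    unfold opO
    congr 1
    have h5 : (thP cl T fun _ => 0) = 0 := by
      ext x y
      simp only [thP, of_apply, hTp]
      simp
    have h6 : (diagonal fun _ : Λ => (0 : ℂ)) = 0 := diagonal_zero
    change fromBlocks (thP cl T fun _ => 0) 0 0 (diagonal fun _ : Λ => (0 : ℂ)) = 0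
    rw [h5, h6, fromBlocks_zero]
  rwa [h4] at h3

include hkO htr h01 f0 f1 f2 h2 hc in
theorem opP_KL (c : Fin 3) (a b : Fin 2) : (opP cl c a b : Matrix (BB O P Λ) (BB O P Λ) ℂ) ∈
    KL Z (fun σ => Th kO cl (d σ)) := by
  by_cases hp : ∀ p, cl p ≠ c
  · rw [opP_zero cl c a b hp]
    exact Submodule.zero_mem _
  · have h3 := (hc c).resolve_right hp
    rw [opP_eq kO cl c a b (h3 _)]
    refine Th_KL (Z := Z) kO cl hkO d htr h01 f0 f1 f2 _ (fun c' => ?_) ?_
    · by_cases h4 : c' = c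
      · subst h4
        rw [Pi.single_eq_same, symO_tr]
      · rw [Pi.single_eq_of_ne h4, trace_zero]
    · rcases h2 with h4 | h4
      · exact Or.inl h4
      · right
        rw [Pi.single_eq_of_ne]
        rintro rfl
        exact hp h4

include hkO htr h01 f0 f1 f2 in
theorem opW_KL (σ : ℂ ≃+* ℂ) :
    (opW (fun p => (d σ).2 (Sum.inl p)) (fun i => (d σ).2 (Sum.inr i)) :
      Matrix (BB O P Λ) (BB O P Λ) ℂ) ∈ KL Z (fun σ => Th kO cl (d σ)) := by
  have h3 : (Th kO cl (d σ)) ∈ KL Z (fun σ => Th kO cl (d σ)) :=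
    KL_D (Z := Z) (fun σ => Th kO cl (d σ)) σ
  have h4 := Th_KL (Z := Z) kO cl hkO d htr h01 f0 f1 f2 (d σ).1 (htr σ) (by
    rcases f2 with h | h
    · exact Or.inr (h σ)
    · exact Or.inl h.1)
  have h5 := Submodule.sub_mem _ h3 h4
  rw [← map_sub] at h5
  have h6 : d σ - ((d σ).1, 0) = (0, (d σ).2) := by
    rw [Prod.ext_iff]
    exact ⟨sub_self _, sub_zero _⟩
  rw [h6, Th_apply] at h5
  have h7 : (thP cl (0 : Fin 3 → M2) fun p => (d σ).2 (Sum.inl p)) =
      diagonal fun x => (d σ).2 (Sum.inl x.1) := by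
    ext ⟨p, a⟩ ⟨q, b⟩
    simp only [thP, of_apply]
    by_cases h1 : p = q
    · subst h1
      by_cases h2 : a = b
      · subst h2
        simp
      · rw [diagonal_apply_ne _ (fun h => h2 (congrArg Prod.snd h))]
        simp [h2]
    · rw [if_neg h1, diagonal_apply_ne _ (fun h => h1 (congrArg Prod.fst h))]
  have h8 : (opW (fun p => (d σ).2 (Sum.inl p)) (fun i => (d σ).2 (Sum.inr i)) :
      Matrix (BB O P Λ) (BB O P Λ) ℂ) = fromBlocks (kO 0) 0 0
        (fromBlocks (thP cl (0 : Fin 3 → M2) fun p => (d σ).2 (Sum.inl p)) 0 0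
          (diagonal fun i => (d σ).2 (Sum.inr i))) := by
    rw [h7, map_zero, fromBlocks_diagonal]
    have h9 : (0 : Matrix O O ℂ) = diagonal fun _ => 0 := diagonal_zero.symm
    rw [h9, fromBlocks_diagonal]
    rfl
  rw [h8]
  exact h5

include hkO htr h01 f0 f1 f2 h2 hc hQs hQR hOp in
/-- Killed forms on the model belong to the system. -/
theorem model_eng
    (hmono : ∀ (A : Type) [Fintype A] (ty : A → Ty P Λ), (∀ a x y, ty a = Ty.p x y → cl x = cl y) →
      (∀ s, ∑ a, tw (fun p => (d s).2 (Sum.inl p)) (fun i => (d s).2 (Sum.inr i)) (ty a) = 0) →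
      Pr (NB 𝒜 h (fun σ => Th kO cl (d σ))) (sl O) (fm QO cl) ty)
    {κ : Type} [Fintype κ] [DecidableEq κ]
    (F : MultilinearMap ℂ (fun _ : κ => BB O P Λ → ℂ) ℂ)
    (hF : ∀ A ∈ KL Z (fun σ => Th kO cl (d σ)), KillM A F) :
    F ∈ NB 𝒜 h (fun σ => Th kO cl (d σ)) κ :=
  eng QO RO cl (NB 𝒜 h (fun σ => Th kO cl (d σ))) (clo_NB 𝒜 h _) hQs hQR _ _ hmono F
    (fun u v => hF _ (opO_KL kO cl hkO d htr h01 f0 f1 f2 QO hOp u v))
    (fun c a b => hF _ (opP_KL kO cl hkO d htr h01 f0 f1 f2 h2 hc c a b))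
    (fun σ => hF _ (opW_KL kO cl hkO d htr h01 f0 f1 f2 σ))

end main

end

end Pool.Agent.N995
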