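import Mathlib
import Pool.Agent.N995.Mod2

/-!
# The pairs of variables
-/

set_option linter.unusedSectionVars false

namespace Pool.Agent.N995

open Matrix Module Pool.Agent.W437.HC Pool.Agent.W437.HD Pool.Agent.TH504.CB Pool.Agent.Y90
open Pool.Agent.R915
open Pool.Agent.W548.Odd hiding cv
open Pool.Agent.H204R3.CM (IsHodge)
open Pool.Agent.H204R3.SP (Kills bil2 IsTate)
open Pool.Agent.W437.HP (cK cK_mul cK_one)

noncomputable section

variable {O P Λ : Type} [Fintype O] [DecidableEq O] [Fintype P] [DecidableEq P] [Fintype Λ]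
  [DecidableEq Λ]

/-- The index of a coordinate of a label. -/
abbrev ip (x : P) (a : Fin 2) : BB O P Λ := Sum.inr (Sum.inl (x, a))

/-- The index of a line. -/
abbrev il (i : Λ) : BB O P Λ := Sum.inr (Sum.inr i)

theorem mP_entry (cl : P → Fin 3) (x y : P) (h : cl x = cl y) (i j : BB O P Λ) :
    mP cl x y i j = (if i = ip x 0 ∧ j = ip y 1 then 1 else 0) -
      (if i = ip x 1 ∧ j = ip y 0 then 1 else 0) := by
  rcases i with i | ⟨p, a⟩ | i <;> rcases j with j | ⟨q, b⟩ | j <;>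
    simp only [mP, ip, fromBlocks_apply₁₁, fromBlocks_apply₁₂, fromBlocks_apply₂₁,
      fromBlocks_apply₂₂, Matrix.zero_apply, reduceCtorEq, false_and, and_false, if_false, sub_zero,
      Sum.inr.injEq, of_apply]
  by_cases h1 : p = x
  · by_cases h2 : q = y
    · subst h1 h2
      fin_cases a <;> fin_cases b <;> simp [eps, h]
    · simp [h2]
  · simp [h1]

theorem bilin_unit {B : Type} [Fintype B] [DecidableEq B] (i j : B) (v w : B → ℂ) :
    ∑ a, ∑ b, v a * (if a = i ∧ b = j then 1 else 0) * w b = v i * w j := by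
  rw [Finset.sum_eq_single i]
  · rw [Finset.sum_eq_single j]
    · simp
    · intro b _ hb
      rw [if_neg (fun h => hb h.2), mul_zero, zero_mul]
    · intro h
      exact absurd (Finset.mem_univ _) h
  · intro a _ ha
    refine Finset.sum_eq_zero fun b _ => ?_
    rw [if_neg (fun h => ha h.1), mul_zero, zero_mul]
  · intro h
    exact absurd (Finset.mem_univ _) h

theorem mP_bilin (cl : P → Fin 3) (x y : P) (h : cl x = cl y) (v w : BB O P Λ → ℂ) :
    (Matrix.toBilin' (mP cl x y)) v w = v (ip x 0) * w (ip y 1) - v (ip x 1) * w (ip y 0) := by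
  rw [Matrix.toBilin'_apply]
  simp only [mP_entry cl x y h, mul_sub, sub_mul, Finset.sum_sub_distrib]
  rw [bilin_unit, bilin_unit]

theorem mP_zero (cl : P → Fin 3) (x y : P) (h : cl x ≠ cl y) :
    (mP cl x y : Matrix (BB O P Λ) (BB O P Λ) ℂ) = 0 := by
  have h1 : (Matrix.of fun (a b : P × Fin 2) => if a.1 = x ∧ b.1 = y ∧ cl x = cl y then
      eps a.2 b.2 else 0) = (0 : Matrix (P × Fin 2) (P × Fin 2) ℂ) := by
    ext a b
    rw [of_apply, if_neg (fun h' => h h'.2.2), Matrix.zero_apply]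
  unfold mP
  rw [h1, fromBlocks_zero, fromBlocks_zero]

section main

variable {G : ℕ} {Z : Matrix (Fin G) (Fin G) ℂ} (𝒜 : Sys) (h : PM Z)
  (kO : (Fin 3 → M2) →ₗ[ℂ] Matrix O O ℂ) (cl : P → Fin 3)
  (d : (ℂ ≃+* ℂ) → (Fin 3 → M2) × (P ⊕ Λ → ℂ))
  (htr : ∀ s c, ((d s).1 c).trace = 0) (QO : Matrix O O ℂ)

/-- The invariance of a bilinear form. -/
theorem inv_bilin {B : Type} [Fintype B] [DecidableEq B] (β A : Matrix B B ℂ)
    (hA : ∀ x y, ∑ z, A z x * β z y + ∑ z, β x z * A z y = 0) : Aᵀ * β + β * A = 0 := by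
  ext x y
  rw [Matrix.add_apply, Matrix.mul_apply, Matrix.mul_apply, Matrix.zero_apply]
  exact hA x y

theorem sum_ite_and {B : Type} [Fintype B] [DecidableEq B] (i : B) (p : Prop) [Decidable p]
    (f : B → ℂ) : ∑ z, f z * (if z = i ∧ p then 1 else 0) = if p then f i else 0 := by
  by_cases hp : p
  · simp [hp]
  · simp [hp]

theorem sum_ite_and' {B : Type} [Fintype B] [DecidableEq B] (i : B) (p : Prop) [Decidable p]
    (f : B → ℂ) : ∑ z, (if p ∧ z = i then 1 else 0) * f z = if p then f i else 0 := by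
  by_cases hp : p
  · simp [hp]
  · simp [hp]

include htr in
theorem pairP_NB (x y : P) (hcl : cl x = cl y)
    (hw : ∀ σ, (d σ).2 (Sum.inl x) + (d σ).2 (Sum.inl y) = 0) :
    fm QO cl (Ty.p x y) ∈ NB 𝒜 h (fun σ => Th kO cl (d σ)) (Fin 2) := by
  refine pair_NB 𝒜 h _ (mP cl x y) fun σ => ?_
  refine inv_bilin _ _ fun i j => ?_
  have ht := tr2 _ (htr σ (cl x))
  have ht' := tr2 _ (htr σ (cl y))
  have hw' := hw σ
  simp only [mP_entry cl x y hcl, mul_sub, sub_mul, Finset.sum_sub_distrib]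
  rw [sum_ite_and (ip x 0) (j = ip y 1), sum_ite_and (ip x 1) (j = ip y 0),
    sum_ite_and' (ip y 1) (i = ip x 0), sum_ite_and' (ip y 0) (i = ip x 1)]
  have e1 : ∀ a : Fin 2, Th kO cl (d σ) (ip x a) i = match i with
      | Sum.inr (Sum.inl (q, b)) => if x = q then (d σ).1 (cl q) a b +
        (if a = b then (d σ).2 (Sum.inl q) else 0) else 0
      | _ => 0 := by
    intro a
    rcases i with i | ⟨q, b⟩ | i <;> rfl
  have e2 : ∀ a : Fin 2, Th kO cl (d σ) (ip y a) j = match j with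
      | Sum.inr (Sum.inl (q, b)) => if y = q then (d σ).1 (cl q) a b +
        (if a = b then (d σ).2 (Sum.inl q) else 0) else 0
      | _ => 0 := by
    intro a
    rcases j with j | ⟨q, b⟩ | j <;> rfl
  rw [e1, e1, e2, e2]
  rcases i with i | ⟨p, a⟩ | i <;> rcases j with j | ⟨q, b⟩ | j <;>
    simp only [ip, reduceCtorEq, if_false, Sum.inr.injEq, Sum.inl.injEq, Prod.mk.injEq, sub_self,
      add_zero, ite_self]
  by_cases h1 : x = p
  · by_cases h2 : y = q
    · subst h1 h2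
      rw [hcl] at ht
      fin_cases a <;> fin_cases b <;> simp [hcl] <;>
        first
        | linear_combination hw'
        | linear_combination -hw'
        | linear_combination ht + hw'
        | linear_combination ht' + hw'
        | linear_combination -ht' - hw'
    · have h2' : ¬ q = y := fun h => h2 h.symm
      simp [h2, h2']
  · have h1' : ¬ p = x := fun h => h1 h.symm
    simp [h1, h1']

theorem pairP_zero (x y : P) (hcl : cl x ≠ cl y) :
    fm QO cl (Ty.p x y) ∈ NB 𝒜 h (fun σ => Th kO cl (d σ)) (Fin 2) := by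
  have h1 : (fm QO cl (Ty.p x y) : MultilinearMap ℂ (fun _ : sl O (Ty.p x y : Ty P Λ) =>
      BB O P Λ → ℂ) ℂ) = 0 := by
    refine MultilinearMap.ext fun v => ?_
    change (Matrix.toBilin' (mP cl x y)) (v (0 : Fin 2)) (v (1 : Fin 2)) = 0
    rw [mP_zero cl x y hcl, map_zero, LinearMap.zero_apply, LinearMap.zero_apply]
  rw [h1]
  exact Submodule.zero_mem _

/-- The pairing of two lines. -/
theorem lines_NB (i j : Λ) (hw : ∀ σ, (d σ).2 (Sum.inr i) + (d σ).2 (Sum.inr j) = 0) :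
    bil2 (Matrix.toBilin' (Matrix.of fun (a b : BB O P Λ) =>
      if a = il i ∧ b = il j then (1 : ℂ) else 0)) ∈ NB 𝒜 h (fun σ => Th kO cl (d σ)) (Fin 2) := by
  refine pair_NB 𝒜 h _ _ fun σ => ?_
  refine inv_bilin _ _ fun x y => ?_
  simp only [of_apply]
  rw [sum_ite_and (il i) (y = il j), sum_ite_and' (il j) (x = il i)]
  have e1 : Th kO cl (d σ) (il i) x = if x = il i then (d σ).2 (Sum.inr i) else 0 := by
    rcases x with x | x | x
    · rfl
    · rfl
    · change diagonal (fun i => (d σ).2 (Sum.inr i)) i x = _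
      by_cases h1 : i = x
      · subst h1
        rw [diagonal_apply_eq, if_pos rfl]
      · rw [diagonal_apply_ne _ h1, if_neg]
        intro h2
        exact h1 (Sum.inr_injective (Sum.inr_injective h2)).symm
  have e2 : Th kO cl (d σ) (il j) y = if y = il j then (d σ).2 (Sum.inr j) else 0 := by
    rcases y with y | y | y
    · rfl
    · rfl
    · change diagonal (fun i => (d σ).2 (Sum.inr i)) j y = _
      by_cases h1 : j = y
      · subst h1
        rw [diagonal_apply_eq, if_pos rfl]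
      · rw [diagonal_apply_ne _ h1, if_neg]
        intro h2
        exact h1 (Sum.inr_injective (Sum.inr_injective h2)).symm
  rw [e1, e2]
  by_cases h1 : x = il i
  · by_cases h2 : y = il j
    · rw [if_pos h2, if_pos h1, if_pos h1, if_pos h2]
      exact hw σ
    · rw [if_neg h2, if_neg h2, if_pos h1, add_zero]
  · rw [if_neg h1, if_neg h1, ite_self, zero_add]

/-- The pairing of the first part. -/
theorem pairQ_NB (hinv : ∀ T : Fin 3 → M2, (∀ c, (T c).trace = 0) → (kO T)ᵀ * QO + QO * kO T = 0)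
    (htr : ∀ s c, ((d s).1 c).trace = 0) :
    fm QO cl (Ty.q : Ty P Λ) ∈ NB 𝒜 h (fun σ => Th kO cl (d σ)) (Fin 2) := by
  refine pair_NB 𝒜 h _ (mQ QO) fun σ => ?_
  rw [Th_apply]
  unfold mQ
  rw [fromBlocks_transpose, fromBlocks_multiply, fromBlocks_multiply, fromBlocks_add]
  simp only [Matrix.mul_zero, Matrix.zero_mul, transpose_zero, add_zero]
  rw [hinv _ (htr σ), fromBlocks_zero]

end main

section pr

variable {V : Type} [AddCommGroup V] [Module ℂ V]
  (N : ∀ (κ : Type) [Finite κ], Submodule ℂ (MultilinearMap ℂ (fun _ : κ => V) ℂ))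
  (hN : Clo N)
  {T : Type} (sl : T → Type) [∀ t, Finite (sl t)]
  (ψ : ∀ t, MultilinearMap ℂ (fun _ : sl t => V) ℂ)

/-- The variables of two factors. -/
def e01 (t0 t1 : T) : sl t0 ⊕ sl t1 ≃ Σ a : Fin 2, sl ((![t0, t1] : Fin 2 → T) a) :=
  Equiv.ofBijective (Sum.elim (fun k => ⟨0, k⟩) (fun k => ⟨1, k⟩)) (by
    constructor
    · rintro (k | k) (k' | k') h
      · have h1 := (Sigma.mk.inj_iff.1 h).2
        rw [eq_of_heq h1]
      · exact absurd (Sigma.mk.inj_iff.1 h).1 (by decide)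
      · exact absurd (Sigma.mk.inj_iff.1 h).1 (by decide)
      · have h1 := (Sigma.mk.inj_iff.1 h).2
        rw [eq_of_heq h1]
    · rintro ⟨a, k⟩
      fin_cases a
      · exact ⟨Sum.inl k, rfl⟩
      · exact ⟨Sum.inr k, rfl⟩)

include hN in
theorem Pr_two (t0 t1 : T) (h : prd (ψ t0) (ψ t1) ∈ N (sl t0 ⊕ sl t1)) :
    Pr N sl ψ (fun i : Fin 2 => (![t0, t1] : Fin 2 → T) i) := by
  intro κ _ e Ψ hΨ
  refine hN.reindex ((e01 sl t0 t1).trans e) h Ψ fun v => ?_
  rw [hΨ, Fin.prod_univ_two]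
  rfl

/-- The variables of four factors. -/
def e0123 (t0 t1 t2 t3 : T) : (sl t0 ⊕ sl t1) ⊕ (sl t2 ⊕ sl t3) ≃
    Σ a : Fin 4, sl ((![t0, t1, t2, t3] : Fin 4 → T) a) :=
  Equiv.ofBijective (Sum.elim (Sum.elim (fun k => ⟨0, k⟩) (fun k => ⟨1, k⟩))
    (Sum.elim (fun k => ⟨2, k⟩) (fun k => ⟨3, k⟩))) (by
    constructor
    · rintro ((k | k) | (k | k)) ((k' | k') | (k' | k')) h
      · rw [eq_of_heq (Sigma.mk.inj_iff.1 h).2]
      · exact absurd (Sigma.mk.inj_iff.1 h).1 (by decide)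
      · exact absurd (Sigma.mk.inj_iff.1 h).1 (by decide)
      · exact absurd (Sigma.mk.inj_iff.1 h).1 (by decide)
      · exact absurd (Sigma.mk.inj_iff.1 h).1 (by decide)
      · rw [eq_of_heq (Sigma.mk.inj_iff.1 h).2]
      · exact absurd (Sigma.mk.inj_iff.1 h).1 (by decide)
      · exact absurd (Sigma.mk.inj_iff.1 h).1 (by decide)
      · exact absurd (Sigma.mk.inj_iff.1 h).1 (by decide)
      · exact absurd (Sigma.mk.inj_iff.1 h).1 (by decide)
      · rw [eq_of_heq (Sigma.mk.inj_iff.1 h).2]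
      · exact absurd (Sigma.mk.inj_iff.1 h).1 (by decide)
      · exact absurd (Sigma.mk.inj_iff.1 h).1 (by decide)
      · exact absurd (Sigma.mk.inj_iff.1 h).1 (by decide)
      · exact absurd (Sigma.mk.inj_iff.1 h).1 (by decide)
      · rw [eq_of_heq (Sigma.mk.inj_iff.1 h).2]
    · rintro ⟨a, k⟩
      fin_cases a
      · exact ⟨Sum.inl (Sum.inl k), rfl⟩
      · exact ⟨Sum.inl (Sum.inr k), rfl⟩
      · exact ⟨Sum.inr (Sum.inl k), rfl⟩
      · exact ⟨Sum.inr (Sum.inr k), rfl⟩)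

include hN in
theorem Pr_four (t0 t1 t2 t3 : T)
    (h : prd (prd (ψ t0) (ψ t1)) (prd (ψ t2) (ψ t3)) ∈ N ((sl t0 ⊕ sl t1) ⊕ (sl t2 ⊕ sl t3))) :
    Pr N sl ψ (fun i : Fin 4 => (![t0, t1, t2, t3] : Fin 4 → T) i) := by
  intro κ _ e Ψ hΨ
  refine hN.reindex ((e0123 sl t0 t1 t2 t3).trans e) h Ψ fun v => ?_
  rw [hΨ, Fin.prod_univ_four]
  have h1 : ∀ (a b c d : ℂ), a * b * c * d = a * b * (c * d) := fun a b c d => by ring
  rw [h1]
  rfl

end pr

section blocks

variable (N : ∀ (κ : Type) [Finite κ], Submodule ℂ (MultilinearMap ℂ (fun _ : κ => BB O P Λ → ℂ) ℂ))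
  (hN : Clo N) (QO : Matrix O O ℂ) (cl : P → Fin 3)

include hN in
/-- Products of two lines. -/
theorem block_lines (i j : Λ) (h : bil2 (Matrix.toBilin' (Matrix.of fun (a b : BB O P Λ) =>
      if a = il i ∧ b = il j then (1 : ℂ) else 0)) ∈ N (Fin 2)) :
    Pr N (sl O) (fm QO cl) (fun a : Fin 2 => (![Ty.l i, Ty.l j] : Fin 2 → Ty P Λ) a) := by
  refine Pr_two N hN (sl O) (fm QO cl) _ _ ?_
  let e : Fin 2 ≃ Unit ⊕ Unit := finTwoEquiv.trans Equiv.boolEquivPUnitSumPUnit
  have e0 : e 0 = Sum.inl () := rfl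
  have e1 : e 1 = Sum.inr () := rfl
  refine hN.reindex (κ := Fin 2) (κ' := Unit ⊕ Unit) e h (prd (fm QO cl (Ty.l i))
    (fm QO cl (Ty.l j))) fun v => ?_
  change (MultilinearMap.mkPiAlgebra ℂ Unit ℂ) (fun _ => v (Sum.inl ()) (il i)) *
    (MultilinearMap.mkPiAlgebra ℂ Unit ℂ) (fun _ => v (Sum.inr ()) (il j)) =
    (Matrix.toBilin' (Matrix.of fun (a b : BB O P Λ) =>
      if a = il i ∧ b = il j then (1 : ℂ) else 0)) (v (e 0)) (v (e 1))
  rw [MultilinearMap.mkPiAlgebra_apply, MultilinearMap.mkPiAlgebra_apply, Fintype.prod_unique,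
    Fintype.prod_unique, Matrix.toBilin'_apply, e0, e1]
  simp only [of_apply]
  rw [bilin_unit]

/-- The first permutation of four variables. -/
def p1 : Fin 2 ⊕ Fin 2 ≃ Fin 2 ⊕ Fin 2 :=
  Equiv.ofBijective (Sum.elim ![Sum.inl 0, Sum.inr 0] ![Sum.inl 1, Sum.inr 1]) (by decide)

/-- The second permutation of four variables. -/
def p2 : Fin 2 ⊕ Fin 2 ≃ Fin 2 ⊕ Fin 2 :=
  Equiv.ofBijective (Sum.elim ![Sum.inl 0, Sum.inr 1] ![Sum.inl 1, Sum.inr 0]) (by decide)

include hN in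
/-- Products of determinants of dual labels. -/
theorem block_plu (x y : P) (hcl : cl x = cl y)
    (h : bil2 (Matrix.toBilin' (mP cl x y : Matrix (BB O P Λ) _ ℂ)) ∈ N (Fin 2)) :
    Pr N (sl O) (fm QO cl) (fun a : Fin 2 => (![Ty.p x x, Ty.p y y] : Fin 2 → Ty P Λ) a) := by
  refine Pr_two N hN (sl O) (fm QO cl) _ _ ?_
  let A : MultilinearMap ℂ (fun _ : Fin 2 => BB O P Λ → ℂ) ℂ := bil2 (Matrix.toBilin' (mP cl x y))
  have h1 : (prd A A).domDomCongr p1 ∈ N (Fin 2 ⊕ Fin 2) :=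
    hN.reindex p1 (hN.prd_mem h h) _ fun v => rfl
  have h2 : (prd A A).domDomCongr p2 ∈ N (Fin 2 ⊕ Fin 2) :=
    hN.reindex p2 (hN.prd_mem h h) _ fun v => rfl
  have h3 : (prd (fm QO cl (Ty.p x x)) (fm QO cl (Ty.p y y)) :
      MultilinearMap ℂ (fun _ : Fin 2 ⊕ Fin 2 => BB O P Λ → ℂ) ℂ) =
      (prd A A).domDomCongr p1 - (prd A A).domDomCongr p2 := by
    refine MultilinearMap.ext fun v => ?_
    change (Matrix.toBilin' (mP cl x x)) (v (Sum.inl 0)) (v (Sum.inl 1)) *
      (Matrix.toBilin' (mP cl y y)) (v (Sum.inr 0)) (v (Sum.inr 1)) =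
      (Matrix.toBilin' (mP cl x y)) (v (Sum.inl 0)) (v (Sum.inr 0)) *
      (Matrix.toBilin' (mP cl x y)) (v (Sum.inl 1)) (v (Sum.inr 1)) -
      (Matrix.toBilin' (mP cl x y)) (v (Sum.inl 0)) (v (Sum.inr 1)) *
      (Matrix.toBilin' (mP cl x y)) (v (Sum.inl 1)) (v (Sum.inr 0))
    rw [mP_bilin cl x x rfl, mP_bilin cl y y rfl, mP_bilin cl x y hcl, mP_bilin cl x y hcl,
      mP_bilin cl x y hcl, mP_bilin cl x y hcl]
    ring
  have h4 := Submodule.sub_mem _ h1 h2
  rw [← h3] at h4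
  exact h4

end blocks

end

end Pool.Agent.N995
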