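import Mathlib
import Pool.Agent.N995.Mono

/-!
# The balanced monomials belong to the system
-/

set_option linter.unusedSectionVars false

namespace Pool.Agent.N995

open Matrix Module Pool.Agent.W437.HC Pool.Agent.W437.HD Pool.Agent.TH504.CB Pool.Agent.Y90
open Pool.Agent.R915
open Pool.Agent.W548.Odd hiding cv
open Pool.Agent.H204R3.CM (IsHodge)
open Pool.Agent.H204R3.SP (Kills bil2 IsTate)
open Pool.Agent.W437.HP (cK cK_mul cK_one)

noncomputable section

variable {O PY PE Λ : Type} [Fintype O] [DecidableEq O] [Fintype PY] [DecidableEq PY] [Fintype PE]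
  [DecidableEq PE] [Fintype Λ] [DecidableEq Λ]

/-- The classes of the labels. -/
def clc (cs : PY → Fin 2 × Bool) : PY ⊕ PE → Fin 3 :=
  Sum.elim (fun x => (cs x).1.castSucc) (fun _ => 2)

/-- The kinds of the factors. -/
def kd (cs : PY → Fin 2 × Bool) (sL : Λ → Bool) : Ty (PY ⊕ PE) Λ → Option (Fin 3 × Bool)
  | Ty.p (Sum.inl x) (Sum.inl y) => if cs x = cs y then some ((cs x).1.castSucc, (cs x).2) else none
  | Ty.l i => some (2, sL i)
  | _ => none

variable {G : ℕ} {Z : Matrix (Fin G) (Fin G) ℂ} (𝒜 : Sys) (h : PM Z)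
  (kO : (Fin 3 → M2) →ₗ[ℂ] Matrix O O ℂ) (cs : PY → Fin 2 × Bool) (hcs : Function.Injective cs)
  (sL : Λ → Bool) (hsL : Function.Injective sL)
  (d : (ℂ ≃+* ℂ) → (Fin 3 → M2) × ((PY ⊕ PE) ⊕ Λ → ℂ))
  (htr : ∀ s c, ((d s).1 c).trace = 0) (QO : Matrix O O ℂ)
  (hinv : ∀ T : Fin 3 → M2, (∀ c, (T c).trace = 0) → (kO T)ᵀ * QO + QO * kO T = 0)
  {S : Type} (f : S → (ℂ ≃+* ℂ)) (hf : Function.Surjective f) (ε : Fin 3 → S → ℤ)
  (hl1 : ∀ s x, (d (f s)).2 (Sum.inl (Sum.inl x)) = ((sg (cs x).2 * ε (cs x).1.castSucc s : ℤ) : ℂ))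
  (hl2 : ∀ s x, (d (f s)).2 (Sum.inl (Sum.inr x)) = 0)
  (hl3 : ∀ s i, (d (f s)).2 (Sum.inr i) = ((sg (sL i) * ε 2 s : ℤ) : ℂ))
  (hs0 : ∃ s, (ε 0 s = 1 ∨ ε 0 s = -1) ∧ ε 1 s = 0 ∧ (ε 2 s = 1 ∨ ε 2 s = -1))
  (hs1 : ∃ s, ε 0 s = 0 ∧ (ε 1 s = 1 ∨ ε 1 s = -1) ∧ (ε 2 s = 1 ∨ ε 2 s = -1))
  (hdet : fm QO (clc cs) (Ty.d : Ty (PY ⊕ PE) Λ) ∈ NB 𝒜 h (fun σ => Th kO (clc cs) (d σ)) O)
  (hgam : ∀ (x0 x1 : PY) (i : Λ) (b0 b1 : Bool), cs x0 = (0, b0) → cs x1 = (1, b1) →
    (∀ s, sg b0 * ε 0 s + sg b1 * ε 1 s + sg (sL i) * ε 2 s = 0) →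
    ∀ j, sL j = sL i → prd (prd (fm QO (clc cs) (Ty.p (Sum.inl x0) (Sum.inl x0) : Ty (PY ⊕ PE) Λ))
      (fm QO (clc cs) (Ty.p (Sum.inl x1) (Sum.inl x1))))
      (prd (fm QO (clc cs) (Ty.l i)) (fm QO (clc cs) (Ty.l j))) ∈
        NB 𝒜 h (fun σ => Th kO (clc cs) (d σ)) ((Fin 2 ⊕ Fin 2) ⊕ (Unit ⊕ Unit)))

theorem sg_not {a b : Bool} (h : a ≠ b) : sg a + sg b = 0 := by
  cases a <;> cases b <;> simp_all [sg]

theorem mk3_cast (c : Fin 2) : mk3 c.castSucc = 2 := by
  fin_cases c <;> rfl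

include hl1 hl2 hl3 in
theorem tw_eq (s : S) (t : Ty (PY ⊕ PE) Λ) (ht : ∀ x y, t = Ty.p x y → clc cs x = clc cs y) :
    tw (fun p => (d (f s)).2 (Sum.inl p)) (fun i => (d (f s)).2 (Sum.inr i)) t =
      ((wt ε (kd cs sL t) s : ℤ) : ℂ) := by
  rcases t with _ | _ | ⟨x, y⟩ | i
  · simp [tw, kd, wt]
  · simp [tw, kd, wt]
  · have h1 := ht x y rfl
    rcases x with x | x <;> rcases y with y | y
    · have h2 : (cs x).1.castSucc = (cs y).1.castSucc := h1
      have h3 : (cs x).1 = (cs y).1 := Fin.castSucc_injective _ h2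
      change (d (f s)).2 (Sum.inl (Sum.inl x)) + (d (f s)).2 (Sum.inl (Sum.inl y)) =
        ((wt ε (if cs x = cs y then some ((cs x).1.castSucc, (cs x).2) else none) s : ℤ) : ℂ)
      rw [hl1, hl1]
      by_cases h4 : cs x = cs y
      · rw [if_pos h4, ← h4]
        simp only [wt, mk3_cast]
        push_cast
        ring
      · rw [if_neg h4]
        have h5 : (cs x).2 ≠ (cs y).2 := fun h => h4 (Prod.ext h3 h)
        have h6 := sg_not h5
        rw [← h3, ← Int.cast_add, ← add_mul, h6, zero_mul]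
        rfl
    · exfalso
      have h2 : (cs x).1.castSucc = (2 : Fin 3) := h1
      exact absurd (congrArg Fin.val h2) (by have := (cs x).1.2; simp; omega)
    · exfalso
      have h2 : (2 : Fin 3) = (cs y).1.castSucc := h1
      exact absurd (congrArg Fin.val h2) (by have := (cs y).1.2; simp; omega)
    · change (d (f s)).2 (Sum.inl (Sum.inr x)) + (d (f s)).2 (Sum.inl (Sum.inr y)) = _
      rw [hl2, hl2, add_zero]
      simp [kd, wt]
  · change (d (f s)).2 (Sum.inr i) = _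
    rw [hl3]
    simp only [kd, wt]
    have h1 : mk3 2 = 1 := rfl
    rw [h1, mul_one]

include hcs hsL htr hinv hf hl1 hl2 hl3 hs0 hs1 hdet hgam in
/-- **The balanced monomials belong to the system.** -/
theorem gen_mono (A : Type) [Fintype A] (ty : A → Ty (PY ⊕ PE) Λ)
    (hok : ∀ a x y, ty a = Ty.p x y → clc cs x = clc cs y)
    (hbal : ∀ s, ∑ a, tw (fun p => (d s).2 (Sum.inl p)) (fun i => (d s).2 (Sum.inr i)) (ty a) = 0) :
    Pr (NB 𝒜 h (fun σ => Th kO (clc cs) (d σ))) (sl O) (fm QO (clc cs)) ty := by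
  have hN := clo_NB 𝒜 h (fun σ => Th kO (clc (PE := PE) cs) (d σ))
  refine comb (NB 𝒜 h (fun σ => Th kO (clc cs) (d σ))) hN (sl O) (fm QO (clc cs)) (kd cs sL) ε ?_ ?_
    ?_ hs0 hs1 (Fintype.card A) A ty rfl ?_
  · intro t ht
    rcases t with _ | _ | ⟨x, y⟩ | i
    · exact pairQ_NB 𝒜 h kO (clc cs) d QO hinv htr
    · exact hdet
    · by_cases hcl : clc cs x = clc cs y
      · refine pairP_NB 𝒜 h kO (clc cs) d htr QO x y hcl fun σ => ?_
        obtain ⟨s, rfl⟩ := hf σ
        have h1 := tw_eq cs sL d f ε hl1 hl2 hl3 s (Ty.p x y) (fun x' y' h' => by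
          injection h' with h1 h2
          rw [← h1, ← h2]
          exact hcl)
        rw [ht] at h1
        have h2 : (d (f s)).2 (Sum.inl x) + (d (f s)).2 (Sum.inl y) = ((wt ε none s : ℤ) : ℂ) := h1
        rw [h2]
        simp [wt]
      · exact pairP_zero 𝒜 h kO (clc cs) d QO x y hcl
    · exact absurd ht (by simp [kd])
  · intro t t' c ht ht'
    have key : ∀ (t : Ty (PY ⊕ PE) Λ) (c : Fin 3) (b : Bool), kd cs sL t = some (c, b) →
        (∃ x, t = Ty.p (Sum.inl x) (Sum.inl x) ∧ c = (cs x).1.castSucc ∧ b = (cs x).2) ∨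
        ∃ i, t = Ty.l i ∧ c = 2 ∧ b = sL i := by
      intro t c b ht
      rcases t with _ | _ | ⟨x | x, y | y⟩ | i
      · simp [kd] at ht
      · simp [kd] at ht
      · have h1 : (if cs x = cs y then some ((cs x).1.castSucc, (cs x).2) else none) =
          some (c, b) := ht
        by_cases h2 : cs x = cs y
        · rw [if_pos h2, Option.some.injEq, Prod.mk.injEq] at h1
          have h3 := hcs h2
          subst h3
          exact Or.inl ⟨x, rfl, h1.1.symm, h1.2.symm⟩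
        · rw [if_neg h2] at h1
          simp at h1
      · simp [kd] at ht
      · simp [kd] at ht
      · simp [kd] at ht
      · have h1 : some ((2 : Fin 3), sL i) = some (c, b) := ht
        rw [Option.some.injEq, Prod.mk.injEq] at h1
        exact Or.inr ⟨i, rfl, h1.1.symm, h1.2.symm⟩
    rcases key t c true ht with ⟨x, rfl, hx1, hx2⟩ | ⟨i, rfl, hi1, hi2⟩ <;>
      rcases key t' c false ht' with ⟨y, rfl, hy1, hy2⟩ | ⟨j, rfl, hj1, hj2⟩
    · have hcl : clc (PE := PE) cs (Sum.inl x) = clc (PE := PE) cs (Sum.inl y) :=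
        hx1.symm.trans hy1
      refine block_plu _ hN QO (clc cs) (Sum.inl x) (Sum.inl y) hcl ?_
      refine pairP_NB 𝒜 h kO (clc cs) d htr QO (Sum.inl x) (Sum.inl y) hcl fun σ => ?_
      obtain ⟨s, rfl⟩ := hf σ
      rw [hl1, hl1, ← hx2, ← hy2, ← hx1, ← hy1]
      simp [sg]
    · exfalso
      rw [hj1] at hx1
      exact absurd (congrArg Fin.val hx1) (by have := (cs x).1.2; simp; omega)
    · exfalso
      rw [hi1] at hy1
      exact absurd (congrArg Fin.val hy1) (by have := (cs y).1.2; simp; omega)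
    · refine block_lines _ hN QO (clc cs) i j (lines_NB 𝒜 h kO (clc cs) d i j fun σ => ?_)
      obtain ⟨s, rfl⟩ := hf σ
      rw [hl3, hl3, ← hi2, ← hj2]
      simp [sg]
  · intro t0 t1 t2 t3 b0 b1 b2 h0 h1 h2 h3 hrel
    refine Pr_four _ hN (sl O) (fm QO (clc cs)) t0 t1 t2 t3 ?_
    have keyP : ∀ (t : Ty (PY ⊕ PE) Λ) (c : Fin 2) (b : Bool), kd cs sL t = some (c.castSucc, b) →
        ∃ x, t = Ty.p (Sum.inl x) (Sum.inl x) ∧ cs x = (c, b) := by
      intro t c b ht
      rcases t with _ | _ | ⟨x | x, y | y⟩ | i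
      · simp [kd] at ht
      · simp [kd] at ht
      · have h1 : (if cs x = cs y then some ((cs x).1.castSucc, (cs x).2) else none) =
          some (c.castSucc, b) := ht
        by_cases h2 : cs x = cs y
        · rw [if_pos h2, Option.some.injEq, Prod.mk.injEq] at h1
          have h3 := hcs h2
          subst h3
          exact ⟨x, rfl, Prod.ext (Fin.castSucc_injective _ h1.1) h1.2⟩
        · rw [if_neg h2] at h1
          simp at h1
      · simp [kd] at ht
      · simp [kd] at ht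
      · simp [kd] at ht
      · exfalso
        have h1 : some ((2 : Fin 3), sL i) = some (c.castSucc, b) := ht
        rw [Option.some.injEq, Prod.mk.injEq] at h1
        exact absurd (congrArg Fin.val h1.1) (by have := c.2; simp; omega)
    have keyL : ∀ (t : Ty (PY ⊕ PE) Λ) (b : Bool), kd cs sL t = some (2, b) →
        ∃ i, t = Ty.l i ∧ b = sL i := by
      intro t b ht
      rcases t with _ | _ | ⟨x | x, y | y⟩ | i
      · simp [kd] at ht
      · simp [kd] at ht
      · exfalso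
        have h1 : (if cs x = cs y then some ((cs x).1.castSucc, (cs x).2) else none) =
          some ((2 : Fin 3), b) := ht
        by_cases h2 : cs x = cs y
        · rw [if_pos h2, Option.some.injEq, Prod.mk.injEq] at h1
          exact absurd (congrArg Fin.val h1.1) (by have := (cs x).1.2; simp; omega)
        · rw [if_neg h2] at h1
          simp at h1
      · simp [kd] at ht
      · simp [kd] at ht
      · simp [kd] at ht
      · have h1 : some ((2 : Fin 3), sL i) = some ((2 : Fin 3), b) := ht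
        rw [Option.some.injEq, Prod.mk.injEq] at h1
        exact ⟨i, rfl, h1.2.symm⟩
    obtain ⟨x0, rfl, hx0⟩ := keyP t0 0 b0 h0
    obtain ⟨x1, rfl, hx1⟩ := keyP t1 1 b1 h1
    obtain ⟨i, rfl, hi⟩ := keyL t2 b2 h2
    obtain ⟨j, rfl, hj⟩ := keyL t3 b2 h3
    exact hgam x0 x1 i b0 b1 hx0 hx1 (fun s => by rw [← hi]; exact hrel s) j (by rw [← hi, ← hj])
  · intro s
    have h1 := hbal (f s)
    rw [Finset.sum_congr rfl fun a _ => tw_eq cs sL d f ε hl1 hl2 hl3 s (ty a) (hok a),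
      ← Int.cast_sum] at h1
    exact_mod_cast h1

end

end Pool.Agent.N995
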