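import Mathlib
import Pool.Agent.N995.Mono2

/-!
# The orthogonal block, and the result on models
-/

set_option linter.unusedSectionVars false

namespace Pool.Agent.N995

open Matrix Module Pool.Agent.W437.HC Pool.Agent.W437.HD Pool.Agent.TH504.CB Pool.Agent.Y90
open Pool.Agent.R915
open Pool.Agent.W548.Odd hiding cv
open Pool.Agent.H204R3.CM (IsHodge)
open Pool.Agent.H204R3.SP (Kills bil2 IsTate)
open Pool.Agent.W437.HP (cK cK_mul cK_one)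
open scoped Kronecker

noncomputable section

/-- The alternating matrix. -/
def epM : M2 := Matrix.of fun a b => eps a b

/-- The action on the tensor product of two planes. -/
def kOB : (Fin 3 → M2) →ₗ[ℂ] Matrix (Fin 2 × Fin 2) (Fin 2 × Fin 2) ℂ where
  toFun T := T 0 ⊗ₖ 1 + 1 ⊗ₖ T 1
  map_add' T T' := by
    rw [Pi.add_apply, Pi.add_apply, add_kronecker, kronecker_add]
    abel
  map_smul' r T := by
    rw [Pi.smul_apply, Pi.smul_apply, smul_kronecker, kronecker_smul, RingHom.id_apply, smul_add]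

theorem kOB_apply (T : Fin 3 → M2) : kOB T = T 0 ⊗ₖ 1 + 1 ⊗ₖ T 1 := rfl

/-- The symmetric form on the tensor product. -/
def QB : Matrix (Fin 2 × Fin 2) (Fin 2 × Fin 2) ℂ := epM ⊗ₖ epM

theorem QB_apply (x y : Fin 2 × Fin 2) : QB x y = eps x.1 y.1 * eps x.2 y.2 := rfl

theorem QB_symm (a b : Fin 2 × Fin 2) : QB a b = QB b a := by
  rw [QB_apply, QB_apply, eps_anti a.1, eps_anti a.2]
  ring

theorem epM_sq : epM * epM = -1 := by
  ext i j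
  rw [Matrix.mul_apply, Fin.sum_univ_two]
  fin_cases i <;> fin_cases j <;> simp [epM, eps]

theorem QB_inv : QB * QB = 1 := by
  unfold QB
  rw [← mul_kronecker_mul, epM_sq, ← neg_one_smul ℂ (1 : M2), smul_kronecker, kronecker_smul,
    smul_smul, one_kronecker_one]
  norm_num

theorem kOB_br (T T' : Fin 3 → M2) :
    kOB (fun c => T c * T' c - T' c * T c) = kOB T * kOB T' - kOB T' * kOB T := by
  rw [kOB_apply, kOB_apply, kOB_apply]
  simp only [Matrix.mul_add, Matrix.add_mul, ← mul_kronecker_mul, Matrix.mul_one, Matrix.one_mul]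
  have e1 : (T 0 * T' 0 - T' 0 * T 0) ⊗ₖ (1 : M2) = (T 0 * T' 0) ⊗ₖ (1 : M2) -
      (T' 0 * T 0) ⊗ₖ (1 : M2) := by
    ext i j
    simp only [kroneckerMap_apply, Matrix.sub_apply, sub_mul]
  have e2 : (1 : M2) ⊗ₖ (T 1 * T' 1 - T' 1 * T 1) = (1 : M2) ⊗ₖ (T 1 * T' 1) -
      (1 : M2) ⊗ₖ (T' 1 * T 1) := by
    ext i j
    simp only [kroneckerMap_apply, Matrix.sub_apply, mul_sub]
  rw [e1, e2]
  abel

theorem ep_inv (T : M2) (h : T.trace = 0) : Tᵀ * epM + epM * T = 0 := by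
  have h1 := tr2 T h
  ext i j
  rw [Matrix.add_apply, Matrix.mul_apply, Matrix.mul_apply, Fin.sum_univ_two, Fin.sum_univ_two]
  fin_cases i <;> fin_cases j <;> simp [epM, eps, h1]

theorem kOB_inv (T : Fin 3 → M2) (h : ∀ c, (T c).trace = 0) : (kOB T)ᵀ * QB + QB * kOB T = 0 := by
  have h0 := ep_inv (T 0) (h 0)
  have h1 := ep_inv (T 1) (h 1)
  have e3 : ∀ A C : M2, (A ⊗ₖ C)ᵀ = Aᵀ ⊗ₖ Cᵀ := fun A C => by
    ext i j
    rfl
  rw [kOB_apply, transpose_add, e3, e3, transpose_one]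
  unfold QB
  simp only [Matrix.mul_add, Matrix.add_mul, ← mul_kronecker_mul, Matrix.mul_one, Matrix.one_mul]
  have e1 : ((T 0)ᵀ * epM) ⊗ₖ epM + (epM * T 0) ⊗ₖ epM = 0 := by
    rw [← add_kronecker, h0, zero_kronecker]
  have e2 : epM ⊗ₖ ((T 1)ᵀ * epM) + epM ⊗ₖ (epM * T 1) = 0 := by
    rw [← kronecker_add, h1, kronecker_zero]
  rw [add_add_add_comm, e1, e2, add_zero]

theorem kOB_op (u v : Fin 2 × Fin 2) : ∃ T : Fin 3 → M2, (∀ c, (T c).trace = 0) ∧ T 2 = 0 ∧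
    kOB T = Matrix.of fun x y => QB v y * (if x = u then 1 else 0) -
      QB u y * (if x = v then 1 else 0) := by
  obtain ⟨a, b⟩ := u
  obtain ⟨c, d⟩ := v
  refine ⟨![(-(1 / 2 : ℂ) * eps b d) • symO a c, (-(1 / 2 : ℂ) * eps a c) • symO b d, 0], ?_, rfl,
    ?_⟩
  · intro c'
    fin_cases c'
    · change ((-(1 / 2 : ℂ) * eps b d) • symO a c).trace = 0
      rw [trace_smul, symO_tr, smul_zero]
    · change ((-(1 / 2 : ℂ) * eps a c) • symO b d).trace = 0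
      rw [trace_smul, symO_tr, smul_zero]
    · exact trace_zero _ _
  · rw [kOB_apply]
    ext ⟨x1, x2⟩ ⟨y1, y2⟩
    rw [Matrix.add_apply]
    simp only [Matrix.cons_val_zero, Matrix.cons_val_one, kroneckerMap_apply, Matrix.smul_apply,
      smul_eq_mul, symO, of_apply, QB_apply, Matrix.one_apply, Prod.mk.injEq]
    fin_cases a <;> fin_cases b <;> fin_cases c <;> fin_cases d <;> fin_cases x1 <;>
      fin_cases x2 <;> fin_cases y1 <;> fin_cases y2 <;> simp [eps] <;> norm_num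

section main

variable {O PY PE Λ : Type} [Fintype O] [DecidableEq O] [Fintype PY] [DecidableEq PY] [Fintype PE]
  [DecidableEq PE] [Fintype Λ] [DecidableEq Λ]
  {G : ℕ} {Z : Matrix (Fin G) (Fin G) ℂ} (𝒜 : Sys) (h : PM Z)

/-- The result on models. -/
theorem model_final (kO : (Fin 3 → M2) →ₗ[ℂ] Matrix O O ℂ) (cs : PY → Fin 2 × Bool)
    (hcs : Function.Injective cs) (sL : Λ → Bool) (hsL : Function.Injective sL)
    (hkO : ∀ T T' : Fin 3 → M2, kO (fun c => T c * T' c - T' c * T c) =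
      kO T * kO T' - kO T' * kO T)
    (d : (ℂ ≃+* ℂ) → (Fin 3 → M2) × ((PY ⊕ PE) ⊕ Λ → ℂ))
    (htr : ∀ s c, ((d s).1 c).trace = 0)
    (h01 : ∀ s, (d s).1 0 = 0 ∨ (d s).1 1 = 0) (f0 : Full d 0) (f1 : Full d 1)
    (f2 : (∀ s, (d s).1 2 = 0) ∨ (Full d 2 ∧ ∀ s, (d s).1 2 ≠ 0))
    (h2 : Full d 2 ∨ ∀ p, clc (PE := PE) cs p ≠ 2)
    (hc : ∀ c, (∀ T, kO (Pi.single c T) = 0) ∨ ∀ p, clc (PE := PE) cs p ≠ c)
    (QO RO : Matrix O O ℂ) (hQs : ∀ a b, QO a b = QO b a) (hQR : QO * RO = 1)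
    (hOp : ∀ u v : O, ∃ T : Fin 3 → M2, (∀ c, (T c).trace = 0) ∧
      (∀ p, T (clc (PE := PE) cs p) = 0) ∧ T 2 = 0 ∧
      kO T = Matrix.of fun x y => QO v y * (if x = u then 1 else 0) -
        QO u y * (if x = v then 1 else 0))
    (hinv : ∀ T : Fin 3 → M2, (∀ c, (T c).trace = 0) → (kO T)ᵀ * QO + QO * kO T = 0)
    {S : Type} (f : S → (ℂ ≃+* ℂ)) (hf : Function.Surjective f) (ε : Fin 3 → S → ℤ)
    (hl1 : ∀ s x, (d (f s)).2 (Sum.inl (Sum.inl x)) =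
      ((sg (cs x).2 * ε (cs x).1.castSucc s : ℤ) : ℂ))
    (hl2 : ∀ s x, (d (f s)).2 (Sum.inl (Sum.inr x)) = 0)
    (hl3 : ∀ s i, (d (f s)).2 (Sum.inr i) = ((sg (sL i) * ε 2 s : ℤ) : ℂ))
    (hs0 : ∃ s, (ε 0 s = 1 ∨ ε 0 s = -1) ∧ ε 1 s = 0 ∧ (ε 2 s = 1 ∨ ε 2 s = -1))
    (hs1 : ∃ s, ε 0 s = 0 ∧ (ε 1 s = 1 ∨ ε 1 s = -1) ∧ (ε 2 s = 1 ∨ ε 2 s = -1))
    (hdet : fm QO (clc cs) (Ty.d : Ty (PY ⊕ PE) Λ) ∈ NB 𝒜 h (fun σ => Th kO (clc cs) (d σ)) O)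
    (hgam : ∀ (x0 x1 : PY) (i : Λ) (b0 b1 : Bool), cs x0 = (0, b0) → cs x1 = (1, b1) →
      (∀ s, sg b0 * ε 0 s + sg b1 * ε 1 s + sg (sL i) * ε 2 s = 0) →
      ∀ j, sL j = sL i → prd (prd (fm QO (clc cs) (Ty.p (Sum.inl x0) (Sum.inl x0) : Ty (PY ⊕ PE) Λ))
        (fm QO (clc cs) (Ty.p (Sum.inl x1) (Sum.inl x1))))
        (prd (fm QO (clc cs) (Ty.l i)) (fm QO (clc cs) (Ty.l j))) ∈
          NB 𝒜 h (fun σ => Th kO (clc cs) (d σ)) ((Fin 2 ⊕ Fin 2) ⊕ (Unit ⊕ Unit)))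
    (hcov : (1 : Matrix (Fin G ⊕ Fin G) (Fin G ⊕ Fin G) ℂ) ∈ Submodule.span ℂ
      {M | ∃ ι q, EqI Z (fun σ => Th kO (clc (PE := PE) cs) (d σ)) ι ∧
        EqQ Z (fun σ => Th kO (clc (PE := PE) cs) (d σ)) q ∧ M = ι * q})
    {κ : Type} [Fintype κ] [DecidableEq κ]
    (F : MultilinearMap ℂ (fun _ : κ => Fin G ⊕ Fin G → ℂ) ℂ)
    (hF : ∀ X ∈ LZ Z, KillM X F) : F ∈ NA 𝒜 h.cht ⟨_, h.polar⟩ κ :=
  model_red 𝒜 h _ hcov F fun ι hι =>
    model_eng 𝒜 h kO (clc cs) hkO d htr h01 f0 f1 f2 h2 hc QO RO hQs hQR hOp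
      (fun A _ ty hok hbal => gen_mono 𝒜 h kO cs hcs sL hsL d htr QO hinv f hf ε hl1 hl2 hl3 hs0 hs1
        hdet hgam A ty hok hbal)
      (F.compLinearMap fun k => mulVecLin (ι k)) (fun A hA => kill_model _ hF hA hι)

end main

end

end Pool.Agent.N995
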