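import Mathlib
import Pool.Agent.N995.Fin

/-!
# Two by two matrices
-/

set_option linter.unusedSectionVars false

namespace Pool.Agent.N995

open Matrix Module
open scoped Kronecker

noncomputable section

theorem m2_ext {A B : M2} (h00 : A 0 0 = B 0 0) (h01 : A 0 1 = B 0 1) (h10 : A 1 0 = B 1 0)
    (h11 : A 1 1 = B 1 1) : A = B := by
  ext i j
  fin_cases i <;> fin_cases j <;> assumption

theorem mul2 (A B : M2) (i j : Fin 2) : (A * B) i j = A i 0 * B 0 j + A i 1 * B 1 j := by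
  rw [Matrix.mul_apply, Fin.sum_univ_two]

theorem diag_aux (τ : M2) (p0 p1 q0 q1 D : ℂ) (hD : p0 * q1 - q0 * p1 = D) (h0 : D ≠ 0)
    (hp0 : τ 0 0 * p0 + τ 0 1 * p1 = p0) (hp1 : τ 1 0 * p0 + τ 1 1 * p1 = p1)
    (hq0 : τ 0 0 * q0 + τ 0 1 * q1 = -q0) (hq1 : τ 1 0 * q0 + τ 1 1 * q1 = -q1) :
    ∃ g g' : M2, g * g' = 1 ∧ g' * g = 1 ∧ g.det = 1 ∧ g' * τ * g = hh := by
  obtain ⟨E, hE⟩ : ∃ E, E * D = 1 := ⟨D⁻¹, inv_mul_cancel₀ h0⟩
  have h1 : E * p0 * q1 - q0 * (E * p1) = 1 := by rw [← hE, ← hD]; ring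
  have hgg' : (!![E * p0, q0; E * p1, q1] : M2) * !![q1, -q0; -(E * p1), E * p0] = 1 := by
    apply m2_ext <;> simp <;> first | ring1 | linear_combination h1
  have hg'g : (!![q1, -q0; -(E * p1), E * p0] : M2) * !![E * p0, q0; E * p1, q1] = 1 := by
    apply m2_ext <;> simp <;> first | ring1 | linear_combination h1
  have hτg : τ * (!![E * p0, q0; E * p1, q1] : M2) = !![E * p0, q0; E * p1, q1] * hh := by
    unfold hh
    apply m2_ext
    · simp only [mul2]
      simp
      linear_combination E * hp0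
    · simp only [mul2]
      simp
      linear_combination hq0
    · simp only [mul2]
      simp
      linear_combination E * hp1
    · simp only [mul2]
      simp
      linear_combination hq1
  refine ⟨_, _, hgg', hg'g, ?_, ?_⟩
  · rw [Matrix.det_fin_two]
    simp
    linear_combination h1
  · rw [Matrix.mul_assoc, hτg, ← Matrix.mul_assoc, hg'g, Matrix.one_mul]

/-- Diagonalization of traceless involutions. -/
theorem exists_diag (τ : M2) (htr : τ.trace = 0) (hsq : τ * τ = 1) :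
    ∃ g g' : M2, g * g' = 1 ∧ g' * g = 1 ∧ g.det = 1 ∧ g' * τ * g = hh := by
  have h11 := tr2 τ htr
  have hs : τ 0 0 * τ 0 0 + τ 0 1 * τ 1 0 = 1 := by
    have h1 := congrFun (congrFun hsq 0) 0
    rw [mul2] at h1
    simpa using h1
  by_cases h1 : 1 + τ 0 0 = 0
  · have ha1 : τ 0 0 = -1 := by linear_combination h1
    refine diag_aux τ (τ 0 1) (1 - τ 0 0) (1 - τ 0 0) (-τ 1 0) _ rfl ?_ ?_ ?_ ?_ ?_
    · have h2 : τ 0 1 * -τ 1 0 - (1 - τ 0 0) * (1 - τ 0 0) = -4 := by
        rw [ha1] at hs ⊢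
        linear_combination -hs
      rw [h2]
      norm_num
    · ring
    · rw [h11]
      linear_combination hs
    · linear_combination -hs
    · rw [h11]
      ring
  · refine diag_aux τ (1 + τ 0 0) (τ 1 0) (-τ 0 1) (1 + τ 0 0) _ rfl ?_ ?_ ?_ ?_ ?_
    · have h2 : (1 + τ 0 0) * (1 + τ 0 0) - -τ 0 1 * τ 1 0 = 2 * (1 + τ 0 0) := by
        linear_combination hs
      rw [h2]
      exact mul_ne_zero two_ne_zero h1
    · linear_combination hs
    · rw [h11]
      ring
    · ring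
    · rw [h11]
      linear_combination -hs

/-- Involutions. -/
theorem sq_cases (τ : M2) (ε : ℂ) (htr : τ.trace = 0)
    (h : (τ + ε • (1 : M2)) * (τ + ε • (1 : M2)) = 1) :
    (ε = 0 ∧ τ * τ = 1) ∨ (τ = 0 ∧ (ε = 1 ∨ ε = -1)) := by
  have h11 := tr2 τ htr
  have e00 := congrFun (congrFun h 0) 0
  have e01 := congrFun (congrFun h 0) 1
  have e10 := congrFun (congrFun h 1) 0
  have e11 := congrFun (congrFun h 1) 1
  simp only [mul2, Matrix.add_apply, Matrix.smul_apply, smul_eq_mul, h11] at e00 e01 e10 e11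
  simp at e00 e01 e10 e11
  by_cases hε : ε = 0
  · left
    subst hε
    refine ⟨rfl, ?_⟩
    simpa using h
  · right
    have h00 : τ 0 0 = 0 := by
      have h1 : ε * τ 0 0 = 0 := by linear_combination (1 / 4 : ℂ) * e00 - (1 / 4 : ℂ) * e11
      exact (mul_eq_zero.1 h1).resolve_left hε
    have h01 : τ 0 1 = 0 := by
      have h1 : ε * τ 0 1 = 0 := by linear_combination (1 / 2 : ℂ) * e01
      exact (mul_eq_zero.1 h1).resolve_left hε
    have h10 : τ 1 0 = 0 := by
      have h1 : ε * τ 1 0 = 0 := by linear_combination (1 / 2 : ℂ) * e10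
      exact (mul_eq_zero.1 h1).resolve_left hε
    refine ⟨m2_ext h00 h01 h10 (by rw [h11, h00, neg_zero]; rfl), ?_⟩
    rw [h00, h01] at e00
    have h2 : (ε - 1) * (ε + 1) = 0 := by linear_combination e00
    rcases mul_eq_zero.1 h2 with h3 | h3
    · left
      linear_combination h3
    · right
      linear_combination h3

/-- The other index. -/
theorem QB_mul (A : Matrix (Fin 2 × Fin 2) (Fin 2 × Fin 2) ℂ) (a b : Fin 2) (y : Fin 2 × Fin 2) :
    (QB * A) (a, b) y = eps a (1 - a) * eps b (1 - b) * A (1 - a, 1 - b) y := by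
  rw [Matrix.mul_apply, Fintype.sum_prod_type, Fin.sum_univ_two, Fin.sum_univ_two,
    Fin.sum_univ_two]
  simp only [QB_apply]
  fin_cases a <;> fin_cases b <;> simp [eps]

/-- The orthogonal Lie algebra of the tensor product. -/
theorem so_kOB (A : Matrix (Fin 2 × Fin 2) (Fin 2 × Fin 2) ℂ) (h : Aᵀ * QB + QB * A = 0) :
    ∃ T : Fin 3 → M2, (∀ c, (T c).trace = 0) ∧ T 2 = 0 ∧ A = kOB T := by
  have h1 : ∀ a b c d : Fin 2, eps a (1 - a) * eps b (1 - b) * A (1 - a, 1 - b) (c, d) +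
      eps c (1 - c) * eps d (1 - d) * A (1 - c, 1 - d) (a, b) = 0 := by
    intro a b c d
    have h2 : Aᵀ * QB = (QB * A)ᵀ := by
      rw [transpose_mul]
      congr 1
      ext x y
      exact (QB_symm x y)
    have h3 := congrFun (congrFun h (a, b)) (c, d)
    rw [h2, Matrix.add_apply, transpose_apply, QB_mul, QB_mul, Matrix.zero_apply] at h3
    rw [add_comm]
    exact h3
  have f1 : A (1, 1) (1, 1) = -A (0, 0) (0, 0) := by
    have h2 := h1 0 0 1 1
    simp [eps] at h2
    linear_combination h2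
  have f2 : A (1, 0) (1, 0) = -A (0, 1) (0, 1) := by
    have h2 := h1 0 1 1 0
    simp [eps] at h2
    linear_combination -h2
  have f3 : A (1, 0) (1, 1) = A (0, 0) (0, 1) := by
    have h2 := h1 0 1 1 1
    simp [eps] at h2
    linear_combination -h2
  have f4 : A (0, 1) (1, 1) = A (0, 0) (1, 0) := by
    have h2 := h1 1 0 1 1
    simp [eps] at h2
    linear_combination -h2
  have f5 : A (0, 0) (1, 1) = 0 := by
    have h2 := h1 1 1 1 1
    simp [eps] at h2
    exact h2
  have f6 : A (1, 1) (0, 0) = 0 := by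
    have h2 := h1 0 0 0 0
    simp [eps] at h2
    exact h2
  have f7 : A (0, 1) (1, 0) = 0 := by
    have h2 := h1 1 0 1 0
    simp [eps] at h2
    exact h2
  have f8 : A (1, 0) (0, 1) = 0 := by
    have h2 := h1 0 1 0 1
    simp [eps] at h2
    exact h2
  have f9 : A (1, 1) (1, 0) = A (0, 1) (0, 0) := by
    have h2 := h1 0 0 1 0
    simp [eps] at h2
    linear_combination h2
  have f10 : A (1, 1) (0, 1) = A (1, 0) (0, 0) := by
    have h2 := h1 0 0 0 1
    simp [eps] at h2
    linear_combination h2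
  refine ⟨![(1 / 2 : ℂ) • Matrix.of (fun a c => A (a, 0) (c, 0) + A (a, 1) (c, 1)),
    (1 / 2 : ℂ) • Matrix.of (fun b d => A (0, b) (0, d) + A (1, b) (1, d)), 0], ?_, rfl, ?_⟩
  · intro c
    fin_cases c
    · simp [Matrix.trace, Fin.sum_univ_two, f1, f2]
      ring
    · simp [Matrix.trace, Fin.sum_univ_two, f1, f2]
      ring
    · exact trace_zero _ _
  · rw [kOB_apply]
    ext ⟨a, b⟩ ⟨c, d⟩
    rw [Matrix.add_apply]
    simp only [Matrix.cons_val_zero, Matrix.cons_val_one, kroneckerMap_apply, Matrix.smul_apply,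
      smul_eq_mul, of_apply, Matrix.one_apply]
    fin_cases a <;> fin_cases b <;> fin_cases c <;> fin_cases d <;>
      simp [f1, f2, f3, f4, f5, f6, f7, f8, f9, f10] <;> ring

theorem sq2 (T : M2) (h : T.trace = 0) :
    T * T = (T 0 0 * T 0 0 + T 0 1 * T 1 0) • (1 : M2) := by
  have h1 := tr2 T h
  apply m2_ext <;> simp [mul2, h1] <;> ring

/-- Involutions of the tensor product. -/
theorem kOB_sq (T : Fin 3 → M2) (htr : ∀ c, (T c).trace = 0) (h : kOB T * kOB T = 1) :
    (T 0 = 0 ∧ T 1 * T 1 = 1) ∨ (T 1 = 0 ∧ T 0 * T 0 = 1) := by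
  have h0 := tr2 _ (htr 0)
  have h1 := tr2 _ (htr 1)
  have s0 := sq2 _ (htr 0)
  have s1 := sq2 _ (htr 1)
  obtain ⟨t0, ht0⟩ : ∃ t0, t0 = T 0 0 0 * T 0 0 0 + T 0 0 1 * T 0 1 0 := ⟨_, rfl⟩
  obtain ⟨t1, ht1⟩ : ∃ t1, t1 = T 1 0 0 * T 1 0 0 + T 1 0 1 * T 1 1 0 := ⟨_, rfl⟩
  rw [← ht0] at s0
  rw [← ht1] at s1
  rw [kOB_apply] at h
  simp only [Matrix.mul_add, Matrix.add_mul, ← mul_kronecker_mul, Matrix.mul_one,
    Matrix.one_mul] at h
  have e : ∀ a b c d : Fin 2, (t0 + t1 - 1) * ((1 : M2) a c * (1 : M2) b d) +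
      2 * (T 0 a c * T 1 b d) = 0 := by
    intro a b c d
    have h2 := congrFun (congrFun h (a, b)) (c, d)
    rw [← one_kronecker_one] at h2
    simp only [Matrix.add_apply, kroneckerMap_apply, s0, s1, Matrix.smul_apply, smul_eq_mul] at h2
    linear_combination h2
  have hz : ∀ a b c d : Fin 2, T 0 a c * T 1 b d = 0 := by
    have e1 := e 0 0 0 0
    have e2 := e 0 1 0 1
    rw [h1] at e2
    simp only [Matrix.one_apply_eq] at e1 e2
    have e3 : t0 + t1 - 1 = 0 := by linear_combination (1 / 2 : ℂ) * e1 + (1 / 2 : ℂ) * e2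
    intro a b c d
    have e4 := e a b c d
    rw [e3] at e4
    linear_combination (1 / 2 : ℂ) * e4
  have ht : t0 + t1 = 1 := by
    have e1 := e 0 0 0 0
    rw [hz] at e1
    simp only [Matrix.one_apply_eq] at e1
    linear_combination e1
  by_cases hT : T 0 = 0
  · left
    refine ⟨hT, ?_⟩
    have h2 : t0 = 0 := by rw [ht0, hT]; simp
    rw [s1, show t1 = 1 by linear_combination ht - h2, one_smul]
  · right
    obtain ⟨a, c, hac⟩ : ∃ a c, T 0 a c ≠ 0 := by
      by_contra hcon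
      push Not at hcon
      exact hT (Matrix.ext fun i j => hcon i j)
    have hT1 : T 1 = 0 := Matrix.ext fun b d => (mul_eq_zero.1 (hz a b c d)).resolve_left hac
    refine ⟨hT1, ?_⟩
    have h2 : t1 = 0 := by rw [ht1, hT1]; simp
    rw [s0, show t0 = 1 by linear_combination ht - h2, one_smul]

end

end Pool.Agent.N995
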