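import Mathlib
import Pool.Agent.N995.Alg2
import Pool.Agent.R915.E5

/-!
# Pieces of dimension two
-/

set_option linter.unusedSectionVars false

namespace Pool.Agent.N995

open Matrix Module Pool.Agent.W437.HC Pool.Agent.W437.HD Pool.Agent.TH504.CB Pool.Agent.Y90
open Pool.Agent.R915
open Pool.Agent.W548.Odd hiding cv
open Pool.Agent.W437.HP (cK cK_mul cK_one cK_sum)
open scoped ComplexOrder

noncomputable section

variable {g : ℕ} {Z : Matrix (Fin g) (Fin g) ℂ}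

/-- The pairing with the conjugate. -/
theorem om_pos (h : PM Z) {w : Fin g ⊕ Fin g → ℂ} (hw : w ≠ 0) : om g (cnj w) (DZ Z *ᵥ w) ≠ 0 := by
  intro h0
  have h1 := h.herm_pos hw
  rw [h0, mul_zero] at h1
  exact lt_irrefl _ h1

theorem cnj_mem {W : Submodule ℂ (Fin g ⊕ Fin g → ℂ)} {w : Fin g ⊕ Fin g → ℂ} (hw : w ∈ W) :
    cnj w ∈ cjS cc W := by
  change cnj (cnj w) ∈ W
  rwa [cnj_cnj]

/-- The pairing of a stable subspace with its conjugate is not zero. -/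
theorem pair_cc (h : PM Z) {W : Submodule ℂ (Fin g ⊕ Fin g → ℂ)} (hW : Stab (LZ Z) W)
    (h0 : W ≠ ⊥) : ∃ u ∈ W, ∃ v ∈ cjS cc W, om g u v ≠ 0 := by
  obtain ⟨w, hw, hw0⟩ := Submodule.exists_mem_ne_zero_of_ne_bot h0
  refine ⟨DZ Z *ᵥ w, hW _ DZ_mem w hw, cnj w, cnj_mem hw, fun h1 => om_pos h hw0 ?_⟩
  rw [om_anti, h1, neg_zero]

section coord

variable {W : Submodule ℂ (Fin g ⊕ Fin g → ℂ)} (hW : Stab (LZ Z) W) {ι : Type} [Fintype ι]
  [DecidableEq ι] (b : Basis ι ℂ W)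

/-- The matrix of the basis. -/
def xm : Matrix (Fin g ⊕ Fin g) ι ℂ := Matrix.of fun i a => (b a : Fin g ⊕ Fin g → ℂ) i

theorem xm_mulVec (c : ι → ℂ) : xm b *ᵥ c = ((∑ a, c a • b a : W) : Fin g ⊕ Fin g → ℂ) := by
  rw [Submodule.coe_sum]
  funext i
  rw [Finset.sum_apply]
  change ∑ a, xm b i a * c a = _
  refine Finset.sum_congr rfl fun a _ => ?_
  rw [mul_comm]
  rfl

theorem xm_mem (c : ι → ℂ) : xm b *ᵥ c ∈ W := by
  rw [xm_mulVec]
  exact Submodule.coe_mem _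

theorem xm_inj {c : ι → ℂ} (hc : xm b *ᵥ c = 0) : c = 0 := by
  rw [xm_mulVec] at hc
  have h1 : ∑ a, c a • b a = 0 := Subtype.ext hc
  funext a
  exact (Fintype.linearIndependent_iff.1 b.linearIndependent) c h1 a

theorem xm_surj {w : Fin g ⊕ Fin g → ℂ} (hw : w ∈ W) : ∃ c, w = xm b *ᵥ c := by
  refine ⟨fun a => b.repr ⟨w, hw⟩ a, ?_⟩
  rw [xm_mulVec, b.sum_repr]

/-- The action in coordinates. -/
def ac (σ : ℂ ≃+* ℂ) : Matrix ι ι ℂ :=
  LinearMap.toMatrix b b ((mulVecLin (DS Z σ)).restrict fun u hu => hW _ (DS_mem σ) u hu)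

theorem ac_mul (σ : ℂ ≃+* ℂ) : DS Z σ * xm b = xm b * ac hW b σ := by
  ext i j
  have h1 := b.sum_repr (((mulVecLin (DS Z σ)).restrict fun u hu => hW _ (DS_mem σ) u hu) (b j))
  have h2 := congrArg (fun w : W => (w : Fin g ⊕ Fin g → ℂ) i) h1
  beta_reduce at h2
  rw [Submodule.coe_sum, Finset.sum_apply] at h2
  change ∑ k, DS Z σ i k * xm b k j = ∑ a, xm b i a * ac hW b σ a j
  have h3 : (((mulVecLin (DS Z σ)).restrict fun u hu => hW _ (DS_mem σ) u hu) (b j) :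
      Fin g ⊕ Fin g → ℂ) i = ∑ k, DS Z σ i k * xm b k j := rfl
  rw [h3] at h2
  rw [← h2]
  refine Finset.sum_congr rfl fun a _ => ?_
  unfold ac
  rw [LinearMap.toMatrix_apply, mul_comm]
  rfl

theorem ac_sq (h : PM Z) (σ : ℂ ≃+* ℂ) : ac hW b σ * ac hW b σ = 1 := by
  unfold ac
  rw [← LinearMap.toMatrix_comp]
  rw [← LinearMap.toMatrix_id b]
  congr 1
  ext u
  change (DS Z σ *ᵥ (DS Z σ *ᵥ (u : Fin g ⊕ Fin g → ℂ))) _ = _
  rw [mulVec_mulVec, DS_sq h.det, one_mulVec]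
  rfl

end coord

theorem om_mat {ι ι' : Type} (x : Matrix (Fin g ⊕ Fin g) ι ℂ) (y : Matrix (Fin g ⊕ Fin g) ι' ℂ)
    (a : ι) (b : ι') : (xᵀ * Om g ℂ * y) a b = om g (fun i => x i a) (fun i => y i b) := by
  rw [om_apply, Matrix.mul_assoc]
  rfl

theorem Om_anti : (Om g ℂ)ᵀ = -Om g ℂ := Om_transpose ℂ

/-- The invariance of the form. -/
theorem Om_inv (h : PM Z) (σ : ℂ ≃+* ℂ) : (DS Z σ)ᵀ * Om g ℂ + Om g ℂ * DS Z σ = 0 :=
  h.sp (DS_mem σ)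

/-- A pair of dual pieces of dimension two. -/
structure Pc (Z : Matrix (Fin g) (Fin g) ℂ) (x y : Matrix (Fin g ⊕ Fin g) (Fin 2) ℂ)
    (τ : (ℂ ≃+* ℂ) → M2) (ε : (ℂ ≃+* ℂ) → ℤ) : Prop where
  tr : ∀ σ, (τ σ).trace = 0
  ax : ∀ σ, DS Z σ * x = x * (τ σ + (ε σ : ℂ) • (1 : M2))
  ay : ∀ σ, DS Z σ * y = y * (τ σ - (ε σ : ℂ) • (1 : M2))
  oxy : xᵀ * Om g ℂ * y = epM
  oxx : xᵀ * Om g ℂ * x = 0
  oyy : yᵀ * Om g ℂ * y = 0
  alt : ∀ σ, (ε σ = 0 ∧ τ σ * τ σ = 1) ∨ (τ σ = 0 ∧ (ε σ = 1 ∨ ε σ = -1))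

theorem nd_cc (h : PM Z) {W : Submodule ℂ (Fin g ⊕ Fin g → ℂ)} (hW : IrS (LZ Z) W)
    {v : Fin g ⊕ Fin g → ℂ} (hv : v ∈ cjS cc W) (h0 : ∀ u ∈ W, om g u v = 0) : v = 0 := by
  have hW' : IrS (LZ Z) (cjS cc W) := hW.cj gal_LZ cc
  obtain ⟨u, hu, v', hv', huv⟩ := pair_cc h hW.2.1 hW.1
  refine nd_left (b := om g) hW' hW.2.1 ⟨v', hv', u, hu, ?_⟩ (fun X hX u _ v _ => h.om_sp hX u v) v
    hv fun u hu => ?_
  · rw [om_anti, neg_ne_zero]
    exact huv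
  · rw [om_anti, h0 u hu, neg_zero]

/-- The pieces of dimension two. -/
theorem exists_pc (h : PM Z) {W : Submodule ℂ (Fin g ⊕ Fin g → ℂ)} (hW : IrS (LZ Z) W)
    (hd : finrank ℂ W = 2) (hn : ¬SDu Z W) : ∃ (b : Basis (Fin 2) ℂ W)
      (b' : Basis (Fin 2) ℂ (cjS cc W : Submodule ℂ (Fin g ⊕ Fin g → ℂ))) (τ : (ℂ ≃+* ℂ) → M2)
      (ε : (ℂ ≃+* ℂ) → ℤ), Pc Z (xm b) (xm b') τ ε := by
  have hW' : IrS (LZ Z) (cjS cc W) := hW.cj gal_LZ cc
  have hd' : finrank ℂ (cjS cc W : Submodule ℂ (Fin g ⊕ Fin g → ℂ)) = 2 := by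
    rw [finrank_cjS, hd]
  have hiso : ∀ u ∈ W, ∀ v ∈ W, om g u v = 0 := by
    intro u hu v hv
    by_contra hne
    exact hn ⟨om g, ⟨u, hu, v, hv, hne⟩, fun X hX u _ v _ => h.om_sp hX u v⟩
  have hiso' : ∀ u ∈ cjS cc W, ∀ v ∈ cjS cc W, om g u v = 0 := by
    intro u hu v hv
    have h1 := hiso _ hu _ hv
    have h2 := om_conj cc.symm u v
    rw [h1] at h2
    exact (map_eq_zero_iff _ cc.symm.injective).1 h2
  obtain ⟨b⟩ : Nonempty (Basis (Fin 2) ℂ W) := ⟨Module.finBasisOfFinrankEq ℂ W hd⟩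
  -- the dual basis
  let L : (cjS cc W : Submodule ℂ (Fin g ⊕ Fin g → ℂ)) →ₗ[ℂ] (Fin 2 → ℂ) :=
    LinearMap.pi fun a => (om g (b a : Fin g ⊕ Fin g → ℂ)).comp (Submodule.subtype _)
  have hLa : ∀ v a, L v a = om g (b a : Fin g ⊕ Fin g → ℂ) (v : Fin g ⊕ Fin g → ℂ) := fun _ _ => rfl
  have hLi : Function.Injective L := by
    rw [injective_iff_map_eq_zero]
    intro v hv
    apply Subtype.ext
    refine nd_cc h hW v.2 fun u hu => ?_
    obtain ⟨c, rfl⟩ := xm_surj b hu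
    rw [xm_mulVec, Submodule.coe_sum, map_sum, LinearMap.sum_apply]
    refine Finset.sum_eq_zero fun a _ => ?_
    have h1 := congrFun hv a
    rw [hLa] at h1
    rw [Submodule.coe_smul, map_smul, LinearMap.smul_apply, h1]
    simp
  have hLs : Function.Surjective L :=
    (LinearMap.injective_iff_surjective_of_finrank_eq_finrank (by rw [hd']; simp)).1 hLi
  let eL := LinearEquiv.ofBijective L ⟨hLi, hLs⟩
  let eM : (Fin 2 → ℂ) ≃ₗ[ℂ] (Fin 2 → ℂ) := LinearEquiv.ofLinearMap (mulVecLin epM) (mulVecLin (-epM))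
    (by
      rw [← mulVecLin_mul, Matrix.mul_neg, epM_sq, neg_neg, mulVecLin_one])
    (by
      rw [← mulVecLin_mul, Matrix.neg_mul, epM_sq, neg_neg, mulVecLin_one])
  let bE : Basis (Fin 2) ℂ (Fin 2 → ℂ) := (Pi.basisFun ℂ (Fin 2)).map eM
  have hbE : ∀ a c, bE a c = epM c a := by
    intro a c
    have h1 : bE a = epM *ᵥ (Pi.single a 1) := by
      change eM ((Pi.basisFun ℂ (Fin 2)) a) = _
      rw [Pi.basisFun_apply]
      rfl
    rw [h1]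
    simp
  let b' : Basis (Fin 2) ℂ (cjS cc W : Submodule ℂ (Fin g ⊕ Fin g → ℂ)) := bE.map eL.symm
  have hb' : ∀ a c, om g (b a : Fin g ⊕ Fin g → ℂ) (b' c : Fin g ⊕ Fin g → ℂ) = epM a c := by
    intro a c
    rw [← hLa]
    have h1 : L (b' c) = bE c := by
      change eL (eL.symm (bE c)) = bE c
      rw [LinearEquiv.apply_symm_apply]
    rw [h1, hbE]
  have oxy : (xm b)ᵀ * Om g ℂ * xm b' = epM := by
    ext a c
    rw [om_mat]
    exact hb' a c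
  have oxx : (xm b)ᵀ * Om g ℂ * xm b = 0 := by
    ext a c
    rw [om_mat]
    exact hiso _ (b a).2 _ (b c).2
  have oyy : (xm b')ᵀ * Om g ℂ * xm b' = 0 := by
    ext a c
    rw [om_mat]
    exact hiso' _ (b' a).2 _ (b' c).2
  -- the scalars
  have key : ∀ σ, ∃ (τ : M2) (ε : ℤ), τ.trace = 0 ∧ ac hW.2.1 b σ = τ + (ε : ℂ) • (1 : M2) ∧
      ((ε = 0 ∧ τ * τ = 1) ∨ (τ = 0 ∧ (ε = 1 ∨ ε = -1))) := by
    intro σ
    obtain ⟨A, hA⟩ : ∃ A, A = ac hW.2.1 b σ := ⟨_, rfl⟩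
    have hA2 : A * A = 1 := by rw [hA, ac_sq _ _ h]
    obtain ⟨e, he⟩ : ∃ e : ℂ, e = A.trace / 2 := ⟨_, rfl⟩
    have htr : (A - e • (1 : M2)).trace = 0 := by
      rw [trace_sub, trace_smul, trace_one, he]
      simp
    have hAe : A = (A - e • (1 : M2)) + e • (1 : M2) := by rw [sub_add_cancel]
    have h1 : ((A - e • (1 : M2)) + e • (1 : M2)) * ((A - e • (1 : M2)) + e • (1 : M2)) = 1 := by
      rw [← hAe, hA2]
    rw [← hA]
    rcases sq_cases _ e htr h1 with ⟨h2, h3⟩ | ⟨h2, h3 | h3⟩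
    · exact ⟨_, 0, htr, by rw [h2]; simp, Or.inl ⟨rfl, h3⟩⟩
    · refine ⟨_, 1, htr, ?_, Or.inr ⟨h2, Or.inl rfl⟩⟩
      rw [Int.cast_one, ← h3]
      exact hAe
    · refine ⟨_, -1, htr, ?_, Or.inr ⟨h2, Or.inr rfl⟩⟩
      rw [Int.cast_neg, Int.cast_one, ← h3]
      exact hAe
  choose τ ε h1 h2 h3 using key
  have ax : ∀ σ, DS Z σ * xm b = xm b * (τ σ + (ε σ : ℂ) • (1 : M2)) := by
    intro σ
    rw [ac_mul hW.2.1, h2]
  refine ⟨b, b', τ, ε, h1, ax, fun σ => ?_, oxy, oxx, oyy, h3⟩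
  -- the dual action
  have e1 : (xm b)ᵀ * Om g ℂ * (DS Z σ * xm b' - xm b' * (τ σ - (ε σ : ℂ) • (1 : M2))) = 0 := by
    have e2 : (xm b)ᵀ * Om g ℂ * (DS Z σ * xm b') = -((DS Z σ * xm b)ᵀ * Om g ℂ * xm b') := by
      have e3 := Om_inv h σ
      have e4 : Om g ℂ * DS Z σ = -((DS Z σ)ᵀ * Om g ℂ) := by
        rw [eq_neg_iff_add_eq_zero, add_comm]
        exact e3
      rw [transpose_mul]
      calc (xm b)ᵀ * Om g ℂ * (DS Z σ * xm b') = (xm b)ᵀ * (Om g ℂ * DS Z σ) * xm b' := by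
            simp only [Matrix.mul_assoc]
      _ = _ := by
            rw [e4]
            simp only [Matrix.mul_neg, Matrix.neg_mul, Matrix.mul_assoc]
    have e5 := ep_inv (τ σ) (h1 σ)
    rw [Matrix.mul_sub, e2, ax, transpose_mul, transpose_add, transpose_smul, transpose_one,
      Matrix.mul_assoc ((τ σ)ᵀ + (ε σ : ℂ) • (1 : M2)), Matrix.mul_assoc ((τ σ)ᵀ + (ε σ : ℂ) • (1 : M2)),
      oxy, ← Matrix.mul_assoc, oxy, Matrix.add_mul, Matrix.mul_sub, Matrix.smul_mul,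
      Matrix.mul_smul, Matrix.one_mul, Matrix.mul_one]
    have e6 : -((τ σ)ᵀ * epM + (ε σ : ℂ) • epM) - (epM * τ σ - (ε σ : ℂ) • epM) =
        -((τ σ)ᵀ * epM + epM * τ σ) := by abel
    rw [e6, e5, neg_zero]
  rw [← sub_eq_zero]
  obtain ⟨D, hD⟩ : ∃ D, D = DS Z σ * xm b' - xm b' * (τ σ - (ε σ : ℂ) • (1 : M2)) := ⟨_, rfl⟩
  rw [← hD] at e1 ⊢
  have hDm : ∀ c, (fun i => D i c) ∈ cjS cc W := by
    intro c
    have h4 : (fun i => D i c) = DS Z σ *ᵥ (fun i => xm b' i c) -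
        xm b' *ᵥ (fun i => (τ σ - (ε σ : ℂ) • (1 : M2)) i c) := by
      rw [hD]
      rfl
    rw [h4]
    exact Submodule.sub_mem _ (hW'.2.1 _ (DS_mem σ) _ (b' c).2) (xm_mem b' _)
  ext i c
  have h5 : (fun i => D i c) = 0 := by
    refine nd_cc h hW (hDm c) fun u hu => ?_
    obtain ⟨r, rfl⟩ := xm_surj b hu
    rw [xm_mulVec, Submodule.coe_sum, map_sum, LinearMap.sum_apply]
    refine Finset.sum_eq_zero fun a _ => ?_
    have h6 := congrFun (congrFun e1 a) c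
    rw [om_mat] at h6
    rw [Submodule.coe_smul, map_smul, LinearMap.smul_apply]
    have h7 : om g (b a : Fin g ⊕ Fin g → ℂ) (fun i => D i c) = 0 := h6
    rw [h7, smul_zero]
  exact congrFun h5 i

/-- Change of the bases. -/
theorem Pc.chg {x y : Matrix (Fin g ⊕ Fin g) (Fin 2) ℂ} {τ : (ℂ ≃+* ℂ) → M2} {ε : (ℂ ≃+* ℂ) → ℤ}
    (k : Pc Z x y τ ε) {G G' : M2} (h1 : G * G' = 1) (h2 : G' * G = 1) (hdet : G.det = 1) :
    Pc Z (x * G) (y * G) (fun σ => G' * τ σ * G) ε where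
  tr σ := by
    rw [Matrix.trace_mul_comm, ← Matrix.mul_assoc, h1, Matrix.one_mul, k.tr]
  ax σ := by
    have e1 : G * (G' * τ σ * G + (ε σ : ℂ) • (1 : M2)) = (τ σ + (ε σ : ℂ) • (1 : M2)) * G := by
      rw [Matrix.mul_add, Matrix.add_mul, ← Matrix.mul_assoc, ← Matrix.mul_assoc, h1,
        Matrix.one_mul, Matrix.smul_mul, Matrix.mul_smul, Matrix.mul_one, Matrix.one_mul]
    rw [← Matrix.mul_assoc, k.ax, Matrix.mul_assoc, Matrix.mul_assoc, e1]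
  ay σ := by
    have e1 : G * (G' * τ σ * G - (ε σ : ℂ) • (1 : M2)) = (τ σ - (ε σ : ℂ) • (1 : M2)) * G := by
      rw [Matrix.mul_sub, Matrix.sub_mul, ← Matrix.mul_assoc, ← Matrix.mul_assoc, h1,
        Matrix.one_mul, Matrix.smul_mul, Matrix.mul_smul, Matrix.mul_one, Matrix.one_mul]
    rw [← Matrix.mul_assoc, k.ay, Matrix.mul_assoc, Matrix.mul_assoc, e1]
  oxy := by
    have e1 : (x * G)ᵀ * Om g ℂ * (y * G) = Gᵀ * (xᵀ * Om g ℂ * y) * G := by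
      rw [transpose_mul]
      simp only [Matrix.mul_assoc]
    rw [e1, k.oxy]
    rw [Matrix.det_fin_two] at hdet
    apply m2_ext <;> simp only [mul2, Matrix.transpose_apply] <;> simp [epM, eps] <;>
      first | ring1 | linear_combination hdet | linear_combination -hdet
  oxx := by
    have e1 : (x * G)ᵀ * Om g ℂ * (x * G) = Gᵀ * (xᵀ * Om g ℂ * x) * G := by
      rw [transpose_mul]
      simp only [Matrix.mul_assoc]
    rw [e1, k.oxx, Matrix.mul_zero, Matrix.zero_mul]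
  oyy := by
    have e1 : (y * G)ᵀ * Om g ℂ * (y * G) = Gᵀ * (yᵀ * Om g ℂ * y) * G := by
      rw [transpose_mul]
      simp only [Matrix.mul_assoc]
    rw [e1, k.oyy, Matrix.mul_zero, Matrix.zero_mul]
  alt σ := by
    rcases k.alt σ with ⟨e1, e2⟩ | ⟨e1, e2⟩
    · refine Or.inl ⟨e1, ?_⟩
      calc G' * τ σ * G * (G' * τ σ * G) = G' * τ σ * (G * G') * τ σ * G := by
            simp only [Matrix.mul_assoc]
      _ = G' * (τ σ * τ σ) * G := by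
            rw [h1]
            simp only [Matrix.mul_assoc, Matrix.mul_one]
      _ = 1 := by rw [e2, Matrix.mul_one, h2]
    · refine Or.inr ⟨?_, e2⟩
      change G' * τ σ * G = 0
      rw [e1, Matrix.mul_zero, Matrix.zero_mul]

end

end Pool.Agent.N995
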