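import Mathlib
import Pool.Agent.N995.Piece
import Pool.Agent.R915.G5

/-!
# Elliptic curves
-/

set_option linter.unusedSectionVars false

namespace Pool.Agent.N995

open Matrix Module Pool.Agent.W437.HC Pool.Agent.W437.HD Pool.Agent.TH504.CB Pool.Agent.Y90
open Pool.Agent.R915
open Pool.Agent.W548.Odd hiding cv
open Pool.Agent.W437.HP (cK cK_mul cK_one cK_sum)
open scoped ComplexOrder

noncomputable section

theorem DS_refl {g : ℕ} {Z : Matrix (Fin g) (Fin g) ℂ} : DS Z (RingEquiv.refl ℂ) = DZ Z := by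
  ext i j
  rfl

variable {Z : Matrix (Fin 1) (Fin 1) ℂ}

/-- The data of an elliptic curve. -/
structure EB (Z : Matrix (Fin 1) (Fin 1) ℂ) (x : Matrix (Fin 1 ⊕ Fin 1) (Fin 2) ℂ)
    (x' : Matrix (Fin 2) (Fin 1 ⊕ Fin 1) ℂ) (τ : (ℂ ≃+* ℂ) → M2) : Prop where
  xx : x * x' = 1
  xx' : x' * x = 1
  tr : ∀ σ, (τ σ).trace = 0
  ax : ∀ σ, DS Z σ * x = x * τ σ
  one : τ (RingEquiv.refl ℂ) = hh
  sq : ∀ σ, τ σ * τ σ = 1
  c0 : ∀ v, v ∈ eig Z 1 ↔ ∃ c : ℂ, v = c • fun i => x i 0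

theorem exists_EB (h : PM Z) : ∃ x x' τ, EB Z x x' τ := by
  obtain ⟨h1, h2⟩ := finrank_eig h
  obtain ⟨u, hu0, hu⟩ := finrank_eq_one_iff'.1 h1
  obtain ⟨v, hv0, hv⟩ := finrank_eq_one_iff'.1 h2
  have hom : om 1 (u : Fin 1 ⊕ Fin 1 → ℂ) (v : Fin 1 ⊕ Fin 1 → ℂ) ≠ 0 := by
    intro h0
    apply hu0
    apply Subtype.ext
    refine om_nd' (g := 1) (U := eig Z 1) (W := eig Z (-1)) (eig_sup h) (fun w hw => ?_)
      (fun w hw => ?_)
    · exact eig_iso h one_ne_zero u.2 hw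
    · obtain ⟨c, hc⟩ := hv ⟨w, hw⟩
      have h3 : w = c • (v : Fin 1 ⊕ Fin 1 → ℂ) := by
        have h4 := congrArg Subtype.val hc
        exact h4.symm
      rw [h3, map_smul, h0, smul_zero]
  obtain ⟨r, hr⟩ : ∃ r : ℂ, r * om 1 (u : Fin 1 ⊕ Fin 1 → ℂ) (v : Fin 1 ⊕ Fin 1 → ℂ) = 1 :=
    ⟨_, inv_mul_cancel₀ hom⟩
  have hr0 : r ≠ 0 := left_ne_zero_of_mul_eq_one hr
  let x : Matrix (Fin 1 ⊕ Fin 1) (Fin 2) ℂ := Matrix.of fun i a =>
    (![(u : Fin 1 ⊕ Fin 1 → ℂ) i, r * (v : Fin 1 ⊕ Fin 1 → ℂ) i] : Fin 2 → ℂ) a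
  have hx0 : (fun i => x i 0) = (u : Fin 1 ⊕ Fin 1 → ℂ) := rfl
  have hx1 : (fun i => x i 1) = r • (v : Fin 1 ⊕ Fin 1 → ℂ) := rfl
  have hgr : xᵀ * Om 1 ℂ * x = epM := by
    apply m2_ext
    · rw [om_mat, om_self]
      rfl
    · rw [om_mat, hx0, hx1, map_smul, smul_eq_mul, hr]
      rfl
    · rw [om_mat, hx0, hx1, om_anti, map_smul, smul_eq_mul, hr]
      rfl
    · rw [om_mat, om_self]
      rfl
  have hx'x : (-epM * xᵀ * Om 1 ℂ) * x = 1 := by
    rw [Matrix.mul_assoc (-epM), Matrix.mul_assoc, hgr, Matrix.neg_mul, epM_sq, neg_neg]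
  have hxx' : x * (-epM * xᵀ * Om 1 ℂ) = 1 :=
    (Matrix.mul_eq_one_comm_of_card_eq _ _ _ (by simp)).1 hx'x
  obtain ⟨x', hx'⟩ : ∃ x', x' = -epM * xᵀ * Om 1 ℂ := ⟨_, rfl⟩
  rw [← hx'] at hx'x hxx'
  have hone : x' * DS Z (RingEquiv.refl ℂ) * x = hh := by
    have h3 : DS Z (RingEquiv.refl ℂ) * x = x * hh := by
      rw [DS_refl]
      have h4 : DZ Z *ᵥ (fun i => x i 0) = fun i => x i 0 := by
        rw [hx0]
        have h5 := mem_eig.1 u.2
        rwa [one_smul] at h5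
      have h6 : DZ Z *ᵥ (fun i => x i 1) = -fun i => x i 1 := by
        rw [hx1, mulVec_smul, mem_eig.1 v.2, neg_one_smul, smul_neg]
      ext i a
      rw [Matrix.mul_apply (M := x), Fin.sum_univ_two]
      fin_cases a
      · have h7 := congrFun h4 i
        simp only [hh]
        simp
        exact h7
      · have h7 := congrFun h6 i
        simp only [hh]
        simp
        exact h7
    rw [Matrix.mul_assoc, h3, ← Matrix.mul_assoc, hx'x, Matrix.one_mul]
  have htr0 : (DZ Z).trace = 0 := by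
    have h3 : (x' * DS Z (RingEquiv.refl ℂ) * x).trace = (DZ Z).trace := by
      rw [Matrix.trace_mul_comm, ← Matrix.mul_assoc, hxx', Matrix.one_mul, DS_refl]
    rw [← h3, hone]
    simp [Matrix.trace, hh]
  refine ⟨x, x', fun σ => x' * DS Z σ * x, hxx', hx'x, fun σ => ?_, fun σ => ?_, hone, fun σ => ?_,
    fun w => ⟨fun hw => ?_, ?_⟩⟩
  · rw [Matrix.trace_mul_comm, ← Matrix.mul_assoc, hxx', Matrix.one_mul]
    have h3 : (DS Z σ).trace = σ (DZ Z).trace := by
      simp [Matrix.trace, DS]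
    rw [h3, htr0, map_zero]
  · rw [← Matrix.mul_assoc, ← Matrix.mul_assoc, hxx', Matrix.one_mul]
  · calc x' * DS Z σ * x * (x' * DS Z σ * x) = x' * (DS Z σ * (x * x') * DS Z σ) * x := by
          simp only [Matrix.mul_assoc]
    _ = 1 := by rw [hxx', Matrix.mul_one, DS_sq h.det, Matrix.mul_one, hx'x]
  · obtain ⟨c, hc⟩ := hu ⟨w, hw⟩
    exact ⟨c, (congrArg Subtype.val hc).symm⟩
  · rintro ⟨c, rfl⟩
    exact Submodule.smul_mem _ _ u.2

/-- The complex structures act diagonally if they have a common eigenvector. -/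
theorem EB.dich (h : PM Z) {x : Matrix (Fin 1 ⊕ Fin 1) (Fin 2) ℂ}
    {x' : Matrix (Fin 2) (Fin 1 ⊕ Fin 1) ℂ} {τ : (ℂ ≃+* ℂ) → M2} (k : EB Z x x' τ) :
    ((∃ σ, τ σ 1 0 ≠ 0) ∧ ∃ σ, τ σ 0 1 ≠ 0) ∨ ∀ σ, τ σ 0 1 = 0 ∧ τ σ 1 0 = 0 := by
  have hcomm : (∀ X ∈ LZ Z, ∀ Y ∈ LZ Z, X * Y = Y * X) → ∀ σ, τ σ 0 1 = 0 ∧ τ σ 1 0 = 0 := by
    intro hc σ
    refine comm_hh (T := τ σ) ?_
    have h1 : ∀ σ, τ σ = x' * DS Z σ * x := by
      intro σ
      rw [Matrix.mul_assoc, k.ax, ← Matrix.mul_assoc, k.xx', Matrix.one_mul]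
    rw [← k.one, h1 σ, h1 (RingEquiv.refl ℂ)]
    have h2 : ∀ A C : Matrix (Fin 1 ⊕ Fin 1) (Fin 1 ⊕ Fin 1) ℂ,
        x' * A * x * (x' * C * x) = x' * (A * C) * x := by
      intro A C
      calc x' * A * x * (x' * C * x) = x' * (A * (x * x') * C) * x := by
            simp only [Matrix.mul_assoc]
      _ = _ := by rw [k.xx, Matrix.mul_one]
    rw [h2, h2, hc _ (DS_mem _) _ (DS_mem _), sub_self]
  have hvec : ∀ σ c, DS Z σ *ᵥ (x *ᵥ c) = x *ᵥ (τ σ *ᵥ c) := by
    intro σ c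
    rw [mulVec_mulVec, k.ax, ← mulVec_mulVec]
  -- stability of a line
  have hstab : ∀ a b : Fin 2, a ≠ b → (∀ σ, τ σ b a = 0) →
      Stab (LZ Z) (Submodule.span ℂ {x *ᵥ (Pi.single a 1 : Fin 2 → ℂ)}) := by
    intro a b hab h0
    let L : Submodule ℂ (Matrix (Fin 1 ⊕ Fin 1) (Fin 1 ⊕ Fin 1) ℂ) :=
      { carrier := {X | ∀ u ∈ Submodule.span ℂ {x *ᵥ (Pi.single a 1 : Fin 2 → ℂ)},
          X *ᵥ u ∈ Submodule.span ℂ {x *ᵥ (Pi.single a 1 : Fin 2 → ℂ)}}
        add_mem' := fun {X Y} hX hY u hu => by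
          rw [add_mulVec]
          exact Submodule.add_mem _ (hX u hu) (hY u hu)
        zero_mem' := fun u hu => by
          rw [zero_mulVec]
          exact Submodule.zero_mem _
        smul_mem' := fun c X hX u hu => by
          rw [smul_mulVec]
          exact Submodule.smul_mem _ _ (hX u hu) }
    have hL : LZ Z ≤ L := by
      refine LZ_le (fun σ u hu => ?_) (fun A hA C hC u hu => ?_)
      · obtain ⟨c, rfl⟩ := Submodule.mem_span_singleton.1 hu
        rw [mulVec_smul, hvec]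
        have h1 : τ σ *ᵥ (Pi.single a 1 : Fin 2 → ℂ) = τ σ a a • (Pi.single a 1 : Fin 2 → ℂ) := by
          funext i
          rw [mulVec_single_one]
          by_cases hi : i = a
          · subst hi
            simp
          · have hib : i = b := by
              have h2 : ∀ a b i : Fin 2, a ≠ b → i ≠ a → i = b := by decide
              exact h2 a b i hab hi
            subst hib
            change τ σ i a = _
            rw [h0]
            simp [hi]
        rw [h1, mulVec_smul]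
        exact Submodule.smul_mem _ _ (Submodule.smul_mem _ _
          (Submodule.mem_span_singleton_self _))
      · rw [sub_mulVec, ← mulVec_mulVec, ← mulVec_mulVec]
        exact Submodule.sub_mem _ (hA _ (hC _ hu)) (hC _ (hA _ hu))
    exact fun X hX => hL hX
  have hc0 : ∀ a : Fin 2, x *ᵥ (Pi.single a 1 : Fin 2 → ℂ) = fun i => x i a := fun a => by
    rw [mulVec_single_one]
    rfl
  by_cases h10 : ∀ σ, τ σ 1 0 = 0
  · right
    refine hcomm (comm_of_stab h (c := 1) (Or.inl rfl) ?_)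
    have h1 := hstab 0 1 (by decide) h10
    have h2 : Submodule.span ℂ {x *ᵥ (Pi.single 0 1 : Fin 2 → ℂ)} = eig Z 1 := by
      ext v
      rw [Submodule.mem_span_singleton, k.c0, hc0]
      exact exists_congr fun c => eq_comm
    rwa [h2] at h1
  by_cases h01 : ∀ σ, τ σ 0 1 = 0
  · right
    have h1 := hstab 1 0 (by decide) h01
    refine hcomm (comm_of_stab h (c := -1) (Or.inr rfl) ?_)
    have h2 : Submodule.span ℂ {x *ᵥ (Pi.single 1 1 : Fin 2 → ℂ)} = eig Z (-1) := by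
      have h3 : Submodule.span ℂ {x *ᵥ (Pi.single 1 1 : Fin 2 → ℂ)} ≤ eig Z (-1) := by
        rw [Submodule.span_singleton_le_iff_mem, mem_eig, ← DS_refl, hvec, k.one]
        have h4 : hh *ᵥ (Pi.single 1 1 : Fin 2 → ℂ) = (-1 : ℂ) • (Pi.single 1 1 : Fin 2 → ℂ) := by
          funext i
          fin_cases i <;> simp [hh]
        rw [h4, mulVec_smul]
      refine Submodule.eq_of_le_of_finrank_le h3 ?_
      rw [(finrank_eig h).2]
      have h4 : x *ᵥ (Pi.single 1 1 : Fin 2 → ℂ) ≠ 0 := by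
        intro h5
        have h6 := congrArg (fun v => x' *ᵥ v) h5
        beta_reduce at h6
        rw [mulVec_mulVec, k.xx', one_mulVec, mulVec_zero] at h6
        have h7 := congrFun h6 1
        simp at h7
      rw [finrank_span_singleton h4]
    rwa [h2] at h1
  · left
    push Not at h10 h01
    exact ⟨h10, h01⟩

/-- Elliptic curves with complex multiplication. -/
theorem EB.cm (h : PM Z) (hs : IsSimpleAV Z) {x : Matrix (Fin 1 ⊕ Fin 1) (Fin 2) ℂ}
    {x' : Matrix (Fin 2) (Fin 1 ⊕ Fin 1) ℂ} {τ : (ℂ ≃+* ℂ) → M2} (k : EB Z x x' τ)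
    (hd : ∀ σ, τ σ 0 1 = 0 ∧ τ σ 1 0 = 0) : ∃ d : ℚ, 0 < d ∧ ∀ σ, τ σ = (rho d σ : ℂ) • hh := by
  have hvec : ∀ σ c, DS Z σ *ᵥ (x *ᵥ c) = x *ᵥ (τ σ *ᵥ c) := by
    intro σ c
    rw [mulVec_mulVec, k.ax, ← mulVec_mulVec]
  have hs1 : Stab (LZ Z) (eig Z 1) := by
    let L : Submodule ℂ (Matrix (Fin 1 ⊕ Fin 1) (Fin 1 ⊕ Fin 1) ℂ) :=
      { carrier := {X | ∀ u ∈ eig Z 1, X *ᵥ u ∈ eig Z 1}
        add_mem' := fun {X Y} hX hY u hu => by
          rw [add_mulVec]
          exact Submodule.add_mem _ (hX u hu) (hY u hu)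
        zero_mem' := fun u hu => by
          rw [zero_mulVec]
          exact Submodule.zero_mem _
        smul_mem' := fun c X hX u hu => by
          rw [smul_mulVec]
          exact Submodule.smul_mem _ _ (hX u hu) }
    have hL : LZ Z ≤ L := by
      refine LZ_le (fun σ u hu => ?_) (fun A hA C hC u hu => ?_)
      · obtain ⟨c, rfl⟩ := (k.c0 u).1 hu
        rw [mulVec_smul]
        refine Submodule.smul_mem _ _ ?_
        have hc0 : (fun i => x i 0) = x *ᵥ (Pi.single 0 1 : Fin 2 → ℂ) := by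
          rw [mulVec_single_one]
          rfl
        rw [hc0, hvec]
        have h1 : τ σ *ᵥ (Pi.single 0 1 : Fin 2 → ℂ) = τ σ 0 0 • (Pi.single 0 1 : Fin 2 → ℂ) := by
          funext i
          rw [mulVec_single_one]
          fin_cases i
          · simp
          · simp [(hd σ).2]
        rw [h1, mulVec_smul, ← hc0]
        exact Submodule.smul_mem _ _ ((k.c0 _).2 ⟨1, by rw [one_smul]⟩)
      · rw [sub_mulVec, ← mulVec_mulVec, ← mulVec_mulVec]
        exact Submodule.sub_mem _ (hA _ (hC _ hu)) (hC _ (hA _ hu))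
    exact fun X hX => hL hX
  have hU : IrS (LZ Z) (eig Z 1) := by
    refine ⟨fun h0 => ?_, hs1, fun W hW _ => ?_⟩
    · have h1 := (finrank_eig h).1
      rw [h0, finrank_bot] at h1
      exact zero_ne_one h1
    · by_cases hW0 : W = ⊥
      · exact Or.inl hW0
      · right
        refine Submodule.eq_of_le_of_finrank_le hW ?_
        rw [(finrank_eig h).1]
        exact Nat.one_le_iff_ne_zero.2 fun h1 => hW0 (Submodule.finrank_eq_zero.1 h1)
  obtain ⟨φ, α, d, kt⟩ := exists_KT h hs (Or.inl rfl) hU (finrank_eig h).1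
  have hα : α = Complex.I * rt d ∨ α = -(Complex.I * rt d) := by
    have h1 := kt.al
    have h2 := Irt_sq kt.pos
    have h3 : (α - Complex.I * rt d) * (α + Complex.I * rt d) = 0 := by linear_combination h1 - h2
    rcases mul_eq_zero.1 h3 with h4 | h4
    · exact Or.inl (by linear_combination h4)
    · exact Or.inr (by linear_combination h4)
  have hσα : ∀ σ : ℂ ≃+* ℂ, σ α = (rho d σ : ℂ) * α := by
    intro σ
    rcases hα with h1 | h1
    · rw [h1, rho_spec kt.pos]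
    · rw [h1, map_neg, rho_spec kt.pos]
      ring
  have hα0 : α ≠ 0 := by
    intro h1
    have h2 := kt.al
    rw [h1, mul_zero, eq_comm, neg_eq_zero] at h2
    exact kt.pos.ne' (by exact_mod_cast h2)
  refine ⟨d, kt.pos, fun σ => ?_⟩
  have hc0 : (fun i => x i 0) = x *ᵥ (Pi.single 0 1 : Fin 2 → ℂ) := by
    rw [mulVec_single_one]
    rfl
  have hx0 : (fun i => x i 0) ∈ eig Z 1 := (k.c0 _).2 ⟨1, by rw [one_smul]⟩
  have hx00 : (fun i => x i 0) ≠ 0 := by
    intro h5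
    rw [hc0] at h5
    have h6 := congrArg (fun v => x' *ᵥ v) h5
    beta_reduce at h6
    rw [mulVec_mulVec, k.xx', one_mulVec, mulVec_zero] at h6
    have h7 := congrFun h6 0
    simp at h7
  have e1 : DS Z σ *ᵥ (fun i => x i 0) = τ σ 0 0 • fun i => x i 0 := by
    rw [hc0, hvec]
    have h1 : τ σ *ᵥ (Pi.single 0 1 : Fin 2 → ℂ) = τ σ 0 0 • (Pi.single 0 1 : Fin 2 → ℂ) := by
      funext i
      rw [mulVec_single_one]
      fin_cases i
      · simp
      · simp [(hd σ).2]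
    rw [h1, mulVec_smul]
  -- the conjugate vector
  obtain ⟨w, hw⟩ : ∃ w : Fin 1 ⊕ Fin 1 → ℂ, w = fun i => σ.symm (x i 0) := ⟨_, rfl⟩
  have hDw : DS Z σ *ᵥ (fun i => x i 0) = fun i => σ ((DZ Z *ᵥ w) i) := by
    rw [map_mulVec_aut σ, hw]
    simp [DS]
  have hφw : qm φ *ᵥ w = (rho d σ.symm : ℂ) • (α • w) := by
    have h1 := (kt.mem _).1 hx0
    have h2 := congrArg (fun v : Fin 1 ⊕ Fin 1 → ℂ => fun i => σ.symm (v i)) h1
    beta_reduce at h2
    rw [map_mulVec_aut σ.symm] at h2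
    have h3 : (qm φ).map σ.symm = qm φ := cK_aut σ.symm φ
    rw [h3, ← hw] at h2
    rw [h2, hw]
    funext i
    simp only [Pi.smul_apply, smul_eq_mul, map_mul]
    rw [hσα]
    ring
  have hrs := rho_symm kt.pos σ
  -- the eigenvalue
  have hDw' : DZ Z *ᵥ w = (rho d σ : ℂ) • w := by
    rcases rho_pm d σ with h1 | h1
    · rw [hrs, h1, Int.cast_one, one_smul] at hφw
      have h2 := (kt.mem w).2 hφw
      rw [h1, Int.cast_one]
      exact h2
    · rw [hrs, h1, Int.cast_neg, Int.cast_one, neg_one_smul, ← neg_smul] at hφw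
      rw [h1, Int.cast_neg, Int.cast_one]
      -- decompose
      obtain ⟨a, ha, b, hb, hab⟩ := mem_LZ_decomp h w
      have h3 : qm φ *ᵥ a = α • a := (kt.mem a).1 ha
      have h4 : DZ Z *ᵥ (qm φ *ᵥ b) = (-1 : ℂ) • (qm φ *ᵥ b) := by
        have h5 := kt.comm _ DZ_mem
        rw [mulVec_mulVec, h5, ← mulVec_mulVec, mem_eig.1 hb, mulVec_smul]
      have h6 : qm φ *ᵥ b + α • b = -((2 * α) • a) := by
        rw [hab, mulVec_add, h3] at hφw
        have h7 : qm φ *ᵥ b = -α • (a + b) - α • a := by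
          rw [← hφw]
          abel
        rw [h7]
        module
      have h8 : qm φ *ᵥ b + α • b ∈ eig Z (-1) :=
        Submodule.add_mem _ h4 (Submodule.smul_mem _ _ hb)
      have h9 : qm φ *ᵥ b + α • b ∈ eig Z 1 := by
        rw [h6]
        exact Submodule.neg_mem _ (Submodule.smul_mem _ _ ha)
      have h10 : qm φ *ᵥ b + α • b ∈ (eig Z 1 ⊓ eig Z (-1) : Submodule ℂ _) := ⟨h9, h8⟩
      rw [eig_inf (Z := Z) 1 (-1) (by norm_num), Submodule.mem_bot, h6, neg_eq_zero,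
        smul_eq_zero] at h10
      have h11 : a = 0 := h10.resolve_left (mul_ne_zero two_ne_zero hα0)
      rw [h11, zero_add] at hab
      rw [hab]
      exact mem_eig.1 hb
  have e2 : τ σ 0 0 = (rho d σ : ℂ) := by
    rw [hDw, hDw'] at e1
    have h1 : (fun i => σ (((rho d σ : ℂ) • w) i)) = (rho d σ : ℂ) • fun i => x i 0 := by
      funext i
      simp [hw]
    rw [h1, ← sub_eq_zero, ← sub_smul, smul_eq_zero, sub_eq_zero] at e1
    exact (e1.resolve_right hx00).symm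
  have e3 := tr2 _ (k.tr σ)
  apply m2_ext
  · rw [e2]
    simp [hh]
  · rw [(hd σ).1]
    simp [hh]
  · rw [(hd σ).2]
    simp [hh]
  · rw [e3, e2]
    simp [hh]

end

end Pool.Agent.N995
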