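import Mathlib
import Pool.Agent.N995.Ell

/-!
# Irreducible submodules of simple abelian varieties
-/

set_option linter.unusedSectionVars false

namespace Pool.Agent.N995

open Matrix Module Pool.Agent.W437.HC Pool.Agent.W437.HD Pool.Agent.TH504.CB Pool.Agent.Y90
open Pool.Agent.R915
open Pool.Agent.W548.Odd hiding cv
open Pool.Agent.W437.HP (cK cK_mul cK_one cK_sum)
open scoped ComplexOrder

noncomputable section

variable {g : ℕ} {Z : Matrix (Fin g) (Fin g) ℂ}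

/-- Stability. -/
theorem stab_of_DS {W : Submodule ℂ (Fin g ⊕ Fin g → ℂ)}
    (hW : ∀ σ, ∀ u ∈ W, DS Z σ *ᵥ u ∈ W) : Stab (LZ Z) W := by
  let L : Submodule ℂ (Matrix (Fin g ⊕ Fin g) (Fin g ⊕ Fin g) ℂ) :=
    { carrier := {X | ∀ u ∈ W, X *ᵥ u ∈ W}
      add_mem' := fun {X Y} hX hY u hu => by
        rw [add_mulVec]
        exact Submodule.add_mem _ (hX u hu) (hY u hu)
      zero_mem' := fun u hu => by
        rw [zero_mulVec]
        exact Submodule.zero_mem _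
      smul_mem' := fun c X hX u hu => by
        rw [smul_mulVec]
        exact Submodule.smul_mem _ _ (hX u hu) }
  have hL : LZ Z ≤ L := by
    refine LZ_le (fun σ u hu => hW σ u hu) (fun A hA C hC u hu => ?_)
    rw [sub_mulVec, ← mulVec_mulVec, ← mulVec_mulVec]
    exact Submodule.sub_mem _ (hA _ (hC _ hu)) (hC _ (hA _ hu))
  exact fun X hX => hL hX

/-- Invariance of bilinear forms. -/
theorem inv_LZ (b : (Fin g ⊕ Fin g → ℂ) →ₗ[ℂ] (Fin g ⊕ Fin g → ℂ) →ₗ[ℂ] ℂ)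
    (hb : ∀ σ u v, b (DS Z σ *ᵥ u) v + b u (DS Z σ *ᵥ v) = 0) :
    ∀ X ∈ LZ Z, ∀ u v, b (X *ᵥ u) v + b u (X *ᵥ v) = 0 := by
  let L : Submodule ℂ (Matrix (Fin g ⊕ Fin g) (Fin g ⊕ Fin g) ℂ) :=
    { carrier := {X | ∀ u v, b (X *ᵥ u) v + b u (X *ᵥ v) = 0}
      add_mem' := fun {X Y} hX hY u v => by
        rw [add_mulVec, add_mulVec, map_add, map_add, LinearMap.add_apply]
        linear_combination hX u v + hY u v
      zero_mem' := fun u v => by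
        rw [zero_mulVec, zero_mulVec, map_zero, map_zero, LinearMap.zero_apply, add_zero]
      smul_mem' := fun c X hX u v => by
        rw [smul_mulVec, smul_mulVec, map_smul, map_smul, LinearMap.smul_apply, smul_eq_mul,
          smul_eq_mul]
        linear_combination c * hX u v }
  have hL : LZ Z ≤ L := by
    refine LZ_le (fun σ u v => hb σ u v) (fun A hA C hC u v => ?_)
    rw [sub_mulVec, sub_mulVec, ← mulVec_mulVec, ← mulVec_mulVec, ← mulVec_mulVec, ← mulVec_mulVec,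
      map_sub, map_sub, LinearMap.sub_apply]
    linear_combination hA (C *ᵥ u) v + hA u (C *ᵥ v) - hC u (A *ᵥ v) - hC (A *ᵥ u) v
  exact fun X hX => hL hX

/-- The conjugate of a bilinear form. -/
def bcj (σ : ℂ ≃+* ℂ) (b : (Fin g ⊕ Fin g → ℂ) →ₗ[ℂ] (Fin g ⊕ Fin g → ℂ) →ₗ[ℂ] ℂ) :
    (Fin g ⊕ Fin g → ℂ) →ₗ[ℂ] (Fin g ⊕ Fin g → ℂ) →ₗ[ℂ] ℂ :=
  LinearMap.mk₂ ℂ (fun u v => σ (b (fun i => σ.symm (u i)) (fun i => σ.symm (v i))))
    (fun u u' v => by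
      have h1 : (fun i => σ.symm ((u + u') i)) = (fun i => σ.symm (u i)) + fun i => σ.symm (u' i) := by
        funext i
        exact map_add σ.symm _ _
      rw [h1, map_add, LinearMap.add_apply, map_add])
    (fun c u v => by
      have h1 : (fun i => σ.symm ((c • u) i)) = σ.symm c • fun i => σ.symm (u i) := by
        funext i
        exact map_mul σ.symm _ _
      rw [h1, map_smul, LinearMap.smul_apply, smul_eq_mul, map_mul, RingEquiv.apply_symm_apply,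
        smul_eq_mul])
    (fun u v v' => by
      have h1 : (fun i => σ.symm ((v + v') i)) = (fun i => σ.symm (v i)) + fun i => σ.symm (v' i) := by
        funext i
        exact map_add σ.symm _ _
      rw [h1, map_add, map_add])
    (fun c u v => by
      have h1 : (fun i => σ.symm ((c • v) i)) = σ.symm c • fun i => σ.symm (v i) := by
        funext i
        exact map_mul σ.symm _ _
      rw [h1, map_smul, smul_eq_mul, map_mul, RingEquiv.apply_symm_apply, smul_eq_mul])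

theorem bcj_apply (σ : ℂ ≃+* ℂ) (b : (Fin g ⊕ Fin g → ℂ) →ₗ[ℂ] (Fin g ⊕ Fin g → ℂ) →ₗ[ℂ] ℂ)
    (u v : Fin g ⊕ Fin g → ℂ) :
    bcj σ b u v = σ (b (fun i => σ.symm (u i)) (fun i => σ.symm (v i))) := rfl

theorem SDu.cj {U : Submodule ℂ (Fin g ⊕ Fin g → ℂ)} (h : SDu Z U) (σ : ℂ ≃+* ℂ) :
    SDu Z (cjS σ U) := by
  obtain ⟨b, ⟨u, hu, v, hv, huv⟩, hb⟩ := h
  refine ⟨bcj σ b, ⟨_, cj_mem_cjS hu, _, cj_mem_cjS hv, ?_⟩, fun X hX u hu v hv => ?_⟩
  · rw [bcj_apply]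
    simpa using huv
  · rw [bcj_apply, bcj_apply, ← map_add, map_mulVec_aut σ.symm, map_mulVec_aut σ.symm,
      hb _ (gal_LZ σ.symm X hX) _ hu _ hv, map_zero]

/-- Isomorphic submodules. -/
def Iso (Z : Matrix (Fin g) (Fin g) ℂ) (U U' : Submodule ℂ (Fin g ⊕ Fin g → ℂ)) : Prop :=
  ∃ T : (Fin g ⊕ Fin g → ℂ) →ₗ[ℂ] (Fin g ⊕ Fin g → ℂ),
    (∀ X ∈ LZ Z, ∀ u ∈ U, T (X *ᵥ u) = X *ᵥ T u) ∧ (∀ u ∈ U, T u = 0 → u = 0) ∧ U.map T = U'

theorem Iso.sdu {U U' : Submodule ℂ (Fin g ⊕ Fin g → ℂ)} (h : Iso Z U U') (h' : SDu Z U') :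
    SDu Z U := by
  obtain ⟨T, hT, hi, rfl⟩ := h
  obtain ⟨b, ⟨_, ⟨u, hu, rfl⟩, _, ⟨v, hv, rfl⟩, huv⟩, hb⟩ := h'
  refine ⟨b.compl₁₂ T T, ⟨u, hu, v, hv, huv⟩, fun X hX u hu v hv => ?_⟩
  rw [LinearMap.compl₁₂_apply, LinearMap.compl₁₂_apply, hT X hX u hu, hT X hX v hv]
  exact hb X hX _ ⟨u, hu, rfl⟩ _ ⟨v, hv, rfl⟩

/-- If stable subspaces span the space then each irreducible submodule is isomorphic to one of them,
if they are irreducible. -/
theorem exists_iso (h : PM Z) {I : Type*} (V : I → Submodule ℂ (Fin g ⊕ Fin g → ℂ))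
    (hV : ∀ i, IrS (LZ Z) (V i)) (htop : ⨆ i, V i = ⊤) {U : Submodule ℂ (Fin g ⊕ Fin g → ℂ)}
    (hU : IrS (LZ Z) U) : ∃ i, Iso Z (V i) U := by
  obtain ⟨π, h1, h2, h3⟩ := h.cred U hU.2.1
  obtain ⟨i, u, hu, hu'⟩ : ∃ i, ∃ u ∈ V i, π u ≠ 0 := by
    by_contra hcon
    push Not at hcon
    have h4 : ⨆ i, V i ≤ LinearMap.ker π := iSup_le fun i u hu => hcon i u hu
    rw [htop, top_le_iff] at h4
    apply hU.1
    rw [eq_bot_iff]
    intro x hx
    have h5 : x ∈ LinearMap.ker π := by rw [h4]; trivial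
    rw [Submodule.mem_bot, ← h3 x hx]
    exact h5
  have hT : ∀ X ∈ LZ Z, ∀ u ∈ V i, π (X *ᵥ u) = X *ᵥ π u := fun X hX u _ => h1 X hX u
  exact ⟨i, π, hT, (hV i).inj hT ⟨u, hu, hu'⟩, (hV i).map_eq hU hT ⟨u, hu, hu'⟩ (fun u _ => h2 u)⟩

/-- Self-duality of all irreducible submodules. -/
theorem sdu_any (h : PM Z) (hs : IsSimpleAV Z) {U U' : Submodule ℂ (Fin g ⊕ Fin g → ℂ)}
    (hU : IrS (LZ Z) U) (hU' : IrS (LZ Z) U') (hd : SDu Z U) : SDu Z U' := by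
  obtain ⟨σ, hσ⟩ := exists_iso h (fun σ : ℂ ≃+* ℂ => cjS σ U') (fun σ => hU'.cj gal_LZ σ)
    (conj_span h hs hU'.2.1 hU'.1) hU
  have h1 := SDu.cj (hσ.sdu hd) σ.symm
  rwa [cjS_symm] at h1

theorem Iso.pd {U U' : Submodule ℂ (Fin g ⊕ Fin g → ℂ)} (h : Iso Z U U') (hU : Stab (LZ Z) U) :
    Y90.pd Z U' = Y90.pd Z U := by
  obtain ⟨T, hT, hi, hmap⟩ := h
  exact pd_iso hT hi hU hmap

/-- Scalars on conjugates. -/
theorem scal_cj {W : Submodule ℂ (Fin g ⊕ Fin g → ℂ)} {σ : ℂ ≃+* ℂ} {c : ℂ}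
    (h : ∀ w ∈ W, DS Z σ *ᵥ w = c • w) : ∀ v ∈ cjS σ.symm W, DZ Z *ᵥ v = σ.symm c • v := by
  intro v hv
  have h1 : (fun i => σ (v i)) ∈ W := by
    have h2 := hv
    rw [mem_cjS] at h2
    exact h2
  have h2 := h _ h1
  have h3 := congrArg (fun w : Fin g ⊕ Fin g → ℂ => fun i => σ.symm (w i)) h2
  beta_reduce at h3
  rw [map_mulVec_aut σ.symm, DS_map] at h3
  have h4 : DS Z (σ.trans σ.symm) = DZ Z := by
    rw [RingEquiv.self_trans_symm]
    exact DS_refl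
  rw [h4] at h3
  have h5 : (fun i => σ.symm (σ (v i))) = v := by
    funext i
    simp
  rw [h5] at h3
  rw [h3]
  funext i
  simp

theorem scal_cj' {W : Submodule ℂ (Fin g ⊕ Fin g → ℂ)} {σ : ℂ ≃+* ℂ} {c : ℂ}
    (h : ∀ v ∈ cjS σ.symm W, DZ Z *ᵥ v = c • v) : ∀ w ∈ W, DS Z σ *ᵥ w = σ c • w := by
  intro w hw
  have h1 : (fun i => σ.symm (w i)) ∈ cjS σ.symm W := cj_mem_cjS hw
  have h2 := h _ h1
  have h3 := congrArg (fun w : Fin g ⊕ Fin g → ℂ => fun i => σ (w i)) h2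
  beta_reduce at h3
  rw [map_mulVec_aut σ] at h3
  have h5 : (fun i => σ (σ.symm (w i))) = w := by
    funext i
    simp
  rw [h5] at h3
  change DS Z σ *ᵥ w = _ at h3
  rw [h3]
  funext i
  simp

/-- The multiplicities if the complex structure is a scalar. -/
theorem pd_scal {V : Submodule ℂ (Fin g ⊕ Fin g → ℂ)} (hV : ∀ v ∈ V, DZ Z *ᵥ v = (1 : ℂ) • v) :
    pd Z V = finrank ℂ V := by
  unfold pd
  have h1 : V ⊓ eig Z 1 = V := inf_eq_left.2 fun v hv => hV v hv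
  rw [h1]

theorem pd_scal' {V : Submodule ℂ (Fin g ⊕ Fin g → ℂ)} (hV : ∀ v ∈ V, DZ Z *ᵥ v = (-1 : ℂ) • v) :
    pd Z V = 0 := by
  unfold pd
  have h1 : V ⊓ eig Z 1 = ⊥ := by
    rw [eq_bot_iff, ← eig_inf (Z := Z) 1 (-1) (by norm_num)]
    rintro v ⟨hv, hv'⟩
    exact ⟨hv', hV v hv⟩
  rw [h1, finrank_bot]

end

end Pool.Agent.N995
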