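import Mathlib
import Pool.Agent.N995.Gen

/-!
# Fourfolds with two-dimensional submodules which are not self-dual
-/

set_option linter.unusedSectionVars false

namespace Pool.Agent.N995

open Matrix Module Pool.Agent.W437.HC Pool.Agent.W437.HD Pool.Agent.TH504.CB Pool.Agent.Y90
open Pool.Agent.R915
open Pool.Agent.W548.Odd hiding cv
open Pool.Agent.W437.HP (cK cK_mul cK_one cK_sum)
open scoped ComplexOrder

noncomputable section

variable {g : ℕ} {Z : Matrix (Fin g) (Fin g) ℂ}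

/-- The submodule is the range of the matrix. -/
def Rg (x : Matrix (Fin g ⊕ Fin g) (Fin 2) ℂ) (W : Submodule ℂ (Fin g ⊕ Fin g → ℂ)) : Prop :=
  ∀ v, v ∈ W ↔ ∃ c, v = x *ᵥ c

theorem rg_xm {W : Submodule ℂ (Fin g ⊕ Fin g → ℂ)} (b : Basis (Fin 2) ℂ W) : Rg (xm b) W :=
  fun _ => ⟨fun hv => xm_surj b hv, fun ⟨c, hc⟩ => by rw [hc]; exact xm_mem b c⟩

theorem Rg.chg {x : Matrix (Fin g ⊕ Fin g) (Fin 2) ℂ} {W : Submodule ℂ (Fin g ⊕ Fin g → ℂ)}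
    (hr : Rg x W) {G G' : M2} (h1 : G * G' = 1) : Rg (x * G) W := by
  intro v
  rw [hr v]
  constructor
  · rintro ⟨c, rfl⟩
    exact ⟨G' *ᵥ c, by rw [mulVec_mulVec, Matrix.mul_assoc, h1, Matrix.mul_one]⟩
  · rintro ⟨c, rfl⟩
    exact ⟨G *ᵥ c, by rw [mulVec_mulVec]⟩

section pc

variable {x y : Matrix (Fin g ⊕ Fin g) (Fin 2) ℂ} {τ : (ℂ ≃+* ℂ) → M2} {ε : (ℂ ≃+* ℂ) → ℤ}
  (k : Pc Z x y τ ε)
include k

theorem Pc.oyx : yᵀ * Om g ℂ * x = epM := by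
  have h1 : (xᵀ * Om g ℂ * y)ᵀ = -(yᵀ * Om g ℂ * x) := by
    rw [transpose_mul, transpose_mul, Om_anti, transpose_transpose]
    simp only [Matrix.neg_mul, Matrix.mul_neg, Matrix.mul_assoc]
  rw [k.oxy] at h1
  have h2 : (epM : M2)ᵀ = -epM := by
    apply m2_ext <;> simp [epM, eps]
  rw [h2, neg_inj] at h1
  exact h1.symm

theorem Pc.swap : Pc Z y x τ (fun σ => -ε σ) where
  tr := k.tr
  ax σ := by
    rw [k.ay, Int.cast_neg, neg_smul, sub_eq_add_neg]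
  ay σ := by
    rw [k.ax, Int.cast_neg, neg_smul, sub_neg_eq_add]
  oxy := k.oyx
  oxx := k.oyy
  oyy := k.oxx
  alt σ := by
    rcases k.alt σ with ⟨e1, e2⟩ | ⟨e1, e2 | e2⟩
    · exact Or.inl ⟨by rw [e1, neg_zero], e2⟩
    · exact Or.inr ⟨e1, Or.inr (by rw [e2])⟩
    · exact Or.inr ⟨e1, Or.inl (by rw [e2, neg_neg])⟩

theorem Pc.xinj {c : Fin 2 → ℂ} (hc : x *ᵥ c = 0) : c = 0 := by
  have h1 : (-epM * (yᵀ * Om g ℂ * x)) *ᵥ c = 0 := by
    rw [← mulVec_mulVec, ← mulVec_mulVec, hc, mulVec_zero, mulVec_zero]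
  rwa [k.oyx, Matrix.neg_mul, epM_sq, neg_neg, one_mulVec] at h1

theorem Pc.xinjM {A : M2} (hA : x * A = 0) : A = 0 := by
  have h1 : (-epM * (yᵀ * Om g ℂ * x)) * A = 0 := by
    rw [Matrix.mul_assoc, Matrix.mul_assoc, hA, Matrix.mul_zero, Matrix.mul_zero]
  rwa [k.oyx, Matrix.neg_mul, epM_sq, neg_neg, Matrix.one_mul] at h1

theorem Pc.vec (σ : ℂ ≃+* ℂ) (c : Fin 2 → ℂ) :
    DS Z σ *ᵥ (x *ᵥ c) = x *ᵥ (τ σ *ᵥ c) + (ε σ : ℂ) • (x *ᵥ c) := by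
  rw [mulVec_mulVec, k.ax, ← mulVec_mulVec, add_mulVec, smul_mulVec, one_mulVec, mulVec_add,
    mulVec_smul]

/-- There are no stable lines. -/
theorem Pc.no_line {W : Submodule ℂ (Fin g ⊕ Fin g → ℂ)} (hW : IrS (LZ Z) W)
    (hd : finrank ℂ W = 2) (hr : Rg x W) {c : Fin 2 → ℂ} (hc : c ≠ 0)
    (hst : ∀ σ, ∃ z : ℂ, τ σ *ᵥ c = z • c) : False := by
  have h1 : Stab (LZ Z) (Submodule.span ℂ {x *ᵥ c}) := by
    refine stab_of_DS fun σ u hu => ?_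
    obtain ⟨r, rfl⟩ := Submodule.mem_span_singleton.1 hu
    obtain ⟨z, hz⟩ := hst σ
    rw [mulVec_smul, k.vec, hz, mulVec_smul, ← add_smul]
    exact Submodule.smul_mem _ _ (Submodule.smul_mem _ _ (Submodule.mem_span_singleton_self _))
  have h2 : Submodule.span ℂ {x *ᵥ c} ≤ W := by
    rw [Submodule.span_singleton_le_iff_mem]
    exact (hr _).2 ⟨c, rfl⟩
  have h3 : x *ᵥ c ≠ 0 := fun h0 => hc (k.xinj h0)
  rcases hW.2.2 _ h2 h1 with h4 | h4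
  · rw [Submodule.span_singleton_eq_bot] at h4
    exact h3 h4
  · rw [← h4, finrank_span_singleton h3] at hd
    omega

/-- The multiplicities of the conjugates. -/
theorem Pc.pd0 (h : PM Z) {W : Submodule ℂ (Fin g ⊕ Fin g → ℂ)} (hW : IrS (LZ Z) W)
    (hd : finrank ℂ W = 2) (hr : Rg x W) {σ : ℂ ≃+* ℂ} (h0 : ε σ = 0) :
    pd Z (cjS σ.symm W) = 1 := by
  have hV := hW.cj gal_LZ σ.symm
  have hns : ∀ c : ℂ, ∃ u ∈ cjS σ.symm W, DZ Z *ᵥ u ≠ c • u := by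
    by_contra hcon
    push Not at hcon
    obtain ⟨c, hc⟩ := hcon
    have h1 := scal_cj' hc
    have h2 : x * (τ σ - σ c • (1 : M2)) = 0 := by
      ext i a
      have h3 := h1 (x *ᵥ Pi.single a 1) ((hr _).2 ⟨_, rfl⟩)
      rw [mulVec_mulVec, k.ax, h0, Int.cast_zero, zero_smul, add_zero] at h3
      have h4 := congrFun h3 i
      rw [mulVec_single_one, mulVec_single_one] at h4
      rw [Matrix.mul_sub, Matrix.mul_smul, Matrix.mul_one, Matrix.sub_apply, Matrix.smul_apply,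
        Matrix.zero_apply, sub_eq_zero]
      exact h4
    have h3 := k.xinjM h2
    rw [sub_eq_zero] at h3
    have h4 := k.tr σ
    rw [h3, trace_smul, trace_one] at h4
    have h5 : σ c = 0 := by simpa using h4
    rw [h5, zero_smul] at h3
    rcases k.alt σ with ⟨-, e2⟩ | ⟨-, e2⟩
    · rw [h3, Matrix.mul_zero] at e2
      have h6 := congrFun (congrFun e2 0) 0
      simp at h6
    · omega
  have h1 := pd_pos h hV.2.1 hns
  have h2 := qd_pos h hV.2.1 hns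
  have h3 := pd_add_qd h hV.2.1
  rw [finrank_cjS, hd] at h3
  omega

theorem Pc.pd1 {W : Submodule ℂ (Fin g ⊕ Fin g → ℂ)}
    (hd : finrank ℂ W = 2) (hr : Rg x W) {σ : ℂ ≃+* ℂ} (h0 : ε σ = 1) :
    pd Z (cjS σ.symm W) = 2 := by
  have hτ : τ σ = 0 := by
    rcases k.alt σ with ⟨e1, -⟩ | ⟨e1, -⟩
    · omega
    · exact e1
  have h1 : ∀ w ∈ W, DS Z σ *ᵥ w = (1 : ℂ) • w := by
    intro w hw
    obtain ⟨c, rfl⟩ := (hr w).1 hw
    rw [k.vec, hτ, zero_mulVec, mulVec_zero, zero_add, h0, Int.cast_one]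
  have h2 := scal_cj h1
  rw [map_one] at h2
  rw [pd_scal h2, finrank_cjS, hd]

theorem Pc.pdm1 {W : Submodule ℂ (Fin g ⊕ Fin g → ℂ)} (hr : Rg x W) {σ : ℂ ≃+* ℂ}
    (h0 : ε σ = -1) : pd Z (cjS σ.symm W) = 0 := by
  have hτ : τ σ = 0 := by
    rcases k.alt σ with ⟨e1, -⟩ | ⟨e1, -⟩
    · omega
    · exact e1
  have h1 : ∀ w ∈ W, DS Z σ *ᵥ w = (-1 : ℂ) • w := by
    intro w hw
    obtain ⟨c, rfl⟩ := (hr w).1 hw
    rw [k.vec, hτ, zero_mulVec, mulVec_zero, zero_add, h0, Int.cast_neg, Int.cast_one]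
  have h2 := scal_cj h1
  rw [map_neg, map_one] at h2
  exact pd_scal' h2

theorem Pc.cases (σ : ℂ ≃+* ℂ) : ε σ = 0 ∨ ε σ = 1 ∨ ε σ = -1 := by
  rcases k.alt σ with ⟨e1, -⟩ | ⟨-, e1 | e1⟩
  · exact Or.inl e1
  · exact Or.inr (Or.inl e1)
  · exact Or.inr (Or.inr e1)

end pc

/-- The alternating form if there are no scalars. -/
theorem Pc.sdu {W : Submodule ℂ (Fin g ⊕ Fin g → ℂ)} {x y : Matrix (Fin g ⊕ Fin g) (Fin 2) ℂ}
    {τ : (ℂ ≃+* ℂ) → M2} {ε : (ℂ ≃+* ℂ) → ℤ} (k : Pc Z x y τ ε) (h : PM Z) (hr : Rg x W)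
    (h0 : ∀ σ, ε σ = 0) : SDu Z W := by
  let l : Fin 2 → ((Fin g ⊕ Fin g → ℂ) →ₗ[ℂ] ℂ) := fun b => (om g).flip (fun i => y i b)
  have hl : ∀ b u, l b u = om g u (fun i => y i b) := fun _ _ => rfl
  let b : (Fin g ⊕ Fin g → ℂ) →ₗ[ℂ] (Fin g ⊕ Fin g → ℂ) →ₗ[ℂ] ℂ :=
    LinearMap.mk₂ ℂ (fun u v => l 0 u * l 1 v - l 1 u * l 0 v)
      (fun u u' v => by rw [map_add, map_add]; ring)
      (fun c u v => by rw [map_smul, map_smul, smul_eq_mul, smul_eq_mul, smul_eq_mul]; ring)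
      (fun u v v' => by rw [map_add, map_add]; ring)
      (fun c u v => by rw [map_smul, map_smul, smul_eq_mul, smul_eq_mul, smul_eq_mul]; ring)
  have hb : ∀ u v, b u v = l 0 u * l 1 v - l 1 u * l 0 v := fun _ _ => rfl
  have hlD : ∀ σ b u, l b (DS Z σ *ᵥ u) = -(τ σ 0 b * l 0 u + τ σ 1 b * l 1 u) := by
    intro σ b u
    have h1 := h.om_sp (DS_mem σ) u (fun i => y i b)
    have h2 : DS Z σ *ᵥ (fun i => y i b) = τ σ 0 b • (fun i => y i 0) + τ σ 1 b • fun i => y i 1 := by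
      have h3 := k.ay σ
      rw [h0, Int.cast_zero, zero_smul, sub_zero] at h3
      funext i
      have h4 := congrFun (congrFun h3 i) b
      rw [Matrix.mul_apply (M := y), Fin.sum_univ_two] at h4
      change (DS Z σ * y) i b = _
      rw [h4, Pi.add_apply, Pi.smul_apply, Pi.smul_apply, smul_eq_mul, smul_eq_mul]
      ring
    rw [h2, map_add, map_smul, map_smul, smul_eq_mul, smul_eq_mul] at h1
    rw [hl, hl, hl]
    linear_combination h1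
  have hinv := inv_LZ (Z := Z) b (fun σ u v => by
    rw [hb, hb, hlD, hlD, hlD, hlD, tr2 _ (k.tr σ)]
    ring)
  refine ⟨b, ⟨x *ᵥ Pi.single 0 1, (hr _).2 ⟨_, rfl⟩, x *ᵥ Pi.single 1 1, (hr _).2 ⟨_, rfl⟩, ?_⟩,
    fun X hX u _ v _ => hinv X hX u v⟩
  have e : ∀ a b : Fin 2, l b (x *ᵥ Pi.single a 1) = epM a b := by
    intro a b
    rw [hl, ← k.oxy, om_mat, mulVec_single_one]
    rfl
  rw [hb, e, e, e, e]
  simp [epM, eps]

/-- The pairing of submodules with different multiplicities. -/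
theorem orth_pd (h : PM Z) {W V : Submodule ℂ (Fin g ⊕ Fin g → ℂ)} (hW : IrS (LZ Z) W)
    (hV : IrS (LZ Z) V) (hne : tr Z V ≠ -tr Z W) : ∀ w ∈ W, ∀ v ∈ V, om g w v = 0 := by
  intro w hw v hv
  by_contra hcon
  exact hne (tr_dual h hW hV ⟨w, hw, v, hv, hcon⟩ (fun X hX u _ v _ => h.om_sp hX u v))

section two

variable {U : Submodule ℂ (Fin g ⊕ Fin g → ℂ)} (h : PM Z) (hs : IsSimpleAV Z) (hU : IrS (LZ Z) U)
  (hd : finrank ℂ U = 2) (hn : ¬SDu Z U)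
include h hs hU hd hn

theorem exists_W0 : ∃ W, IrS (LZ Z) W ∧ finrank ℂ W = 2 ∧ ¬SDu Z W ∧ pd Z W = 2 := by
  by_contra hcon
  push Not at hcon
  have h1 : ∀ W, IrS (LZ Z) W → pd Z W ≠ 2 := fun W hW =>
    hcon W hW (by rw [finrank_irS h hs hW hU, hd]) fun h2 => hn (sdu_any h hs hW hU h2)
  have h2 : ∀ W, IrS (LZ Z) W → pd Z W ≠ 0 := by
    intro W hW h3
    have h4 := pd_add_qd h hW.2.1
    rw [finrank_irS h hs hW hU, hd] at h4
    refine h1 _ (hW.cj gal_LZ cc) ?_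
    rw [pd_cc]
    omega
  obtain ⟨b, b', τ, ε, k⟩ := exists_pc h hU hd hn
  refine hn (k.sdu h (rg_xm b) fun σ => ?_)
  rcases k.cases σ with h3 | h3 | h3
  · exact h3
  · exact absurd (k.pd1 hd (rg_xm b) h3) (h1 _ (hU.cj gal_LZ _))
  · exact absurd (k.pdm1 (rg_xm b) h3) (h2 _ (hU.cj gal_LZ _))

theorem exists_W1 : ∃ W, IrS (LZ Z) W ∧ finrank ℂ W = 2 ∧ ¬SDu Z W ∧ pd Z W = 1 := by
  by_contra hcon
  push Not at hcon
  have h1 : ∀ W, IrS (LZ Z) W → pd Z W ≠ 1 := fun W hW =>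
    hcon W hW (by rw [finrank_irS h hs hW hU, hd]) fun h2 => hn (sdu_any h hs hW hU h2)
  obtain ⟨b, b', τ, ε, k⟩ := exists_pc h hU hd hn
  refine k.no_line (c := Pi.single 0 1) hU hd (rg_xm b) ?_ fun σ => ?_
  · intro h2
    have h3 := congrFun h2 0
    simp at h3
  · rcases k.alt σ with ⟨h2, -⟩ | ⟨h2, -⟩
    · exact absurd (k.pd0 h hU hd (rg_xm b) h2) (h1 _ (hU.cj gal_LZ _))
    · exact ⟨0, by rw [h2, zero_mulVec, zero_smul]⟩

end two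

end

end Pool.Agent.N995
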