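import Mathlib
import Pool.Agent.N995.Gam1

/-!
# The structure of the fourfolds with two-dimensional submodules which are not self-dual
-/

set_option linter.unusedSectionVars false

namespace Pool.Agent.N995

open Matrix Module Pool.Agent.W437.HC Pool.Agent.W437.HD Pool.Agent.TH504.CB Pool.Agent.Y90
open Pool.Agent.R915
open Pool.Agent.W548.Odd hiding cv
open Pool.Agent.W437.HP (cK cK_mul cK_one cK_sum)
open scoped ComplexOrder

noncomputable section

/-- The pieces of the homology, with their actions. -/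
structure Gm0 (Z : Matrix (Fin 4) (Fin 4) ℂ) (X : Fin 2 × Bool → Matrix (Fin 4 ⊕ Fin 4) (Fin 2) ℂ)
    (τ : Fin 2 → (ℂ ≃+* ℂ) → M2) (ε : Fin 2 → (ℂ ≃+* ℂ) → ℤ) : Prop where
  pc : ∀ c, Pc Z (X (c, true)) (X (c, false)) (τ c) (ε c)
  orth : ∀ c c' s s', c ≠ c' → (X (c, s))ᵀ * Om 4 ℂ * X (c', s') = 0

/-- The matrix of all pieces. -/
def pmx (X : Fin 2 × Bool → Matrix (Fin 4 ⊕ Fin 4) (Fin 2) ℂ) :
    Matrix (Fin 4 ⊕ Fin 4) ((Fin 2 × Bool) × Fin 2) ℂ := Matrix.of fun i p => X p.1 i p.2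

/-- The Gram matrix. -/
def gmx : Matrix ((Fin 2 × Bool) × Fin 2) ((Fin 2 × Bool) × Fin 2) ℂ :=
  Matrix.of fun p q => if p.1.1 = q.1.1 ∧ p.1.2 ≠ q.1.2 then epM p.2 q.2 else 0

/-- The action. -/
def amx (A : Fin 2 × Bool → M2) : Matrix ((Fin 2 × Bool) × Fin 2) ((Fin 2 × Bool) × Fin 2) ℂ :=
  Matrix.of fun p q => if p.1 = q.1 then A q.1 p.2 q.2 else 0

theorem gmx_sq : gmx * gmx = -1 := by
  ext ⟨⟨c, s⟩, a⟩ ⟨⟨c', s'⟩, b⟩
  rw [Matrix.mul_apply, Fintype.sum_prod_type, Fintype.sum_prod_type, Fin.sum_univ_two]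
  simp only [Fintype.sum_bool, Fin.sum_univ_two, gmx, of_apply, Matrix.neg_apply,
    Matrix.one_apply, Prod.mk.injEq]
  fin_cases c <;> fin_cases c' <;> cases s <;> cases s' <;> fin_cases a <;> fin_cases b <;>
    simp [epM, eps]

theorem pmx_amx (X : Fin 2 × Bool → Matrix (Fin 4 ⊕ Fin 4) (Fin 2) ℂ) (A : Fin 2 × Bool → M2)
    {D : Matrix (Fin 4 ⊕ Fin 4) (Fin 4 ⊕ Fin 4) ℂ} (h : ∀ p, D * X p = X p * A p) :
    D * pmx X = pmx X * amx A := by
  ext i ⟨p, a⟩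
  have h1 := congrFun (congrFun (h p) i) a
  have h2 : (D * pmx X) i (p, a) = (D * X p) i a := rfl
  rw [h2, h1, Matrix.mul_apply, Matrix.mul_apply, Fintype.sum_prod_type,
    Finset.sum_eq_single p]
  · simp [pmx, amx]
  · intro q _ hq
    refine Finset.sum_eq_zero fun b _ => ?_
    simp [amx, hq]
  · intro hp
    exact absurd (Finset.mem_univ p) hp

variable {Z : Matrix (Fin 4) (Fin 4) ℂ} {X : Fin 2 × Bool → Matrix (Fin 4 ⊕ Fin 4) (Fin 2) ℂ}
  {τ : Fin 2 → (ℂ ≃+* ℂ) → M2} {ε : Fin 2 → (ℂ ≃+* ℂ) → ℤ}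

theorem Gm0.gram (k : Gm0 Z X τ ε) : (pmx X)ᵀ * Om 4 ℂ * pmx X = gmx := by
  ext ⟨⟨c, s⟩, a⟩ ⟨⟨c', s'⟩, b⟩
  rw [om_mat]
  change om 4 (fun i => X (c, s) i a) (fun i => X (c', s') i b) = _
  rw [← om_mat]
  simp only [gmx, of_apply]
  by_cases hc : c = c'
  · subst hc
    cases s <;> cases s'
    · rw [(k.pc c).oyy]
      simp
    · rw [(k.pc c).oyx]
      simp
    · rw [(k.pc c).oxy]
      simp
    · rw [(k.pc c).oxx]
      simp
  · rw [k.orth c c' s s' hc]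
    simp [hc]

/-- The inverse matrix. -/
def pinv (X : Fin 2 × Bool → Matrix (Fin 4 ⊕ Fin 4) (Fin 2) ℂ) :
    Matrix ((Fin 2 × Bool) × Fin 2) (Fin 4 ⊕ Fin 4) ℂ := -gmx * (pmx X)ᵀ * Om 4 ℂ

theorem Gm0.inv' (k : Gm0 Z X τ ε) : pinv X * pmx X = 1 := by
  unfold pinv
  rw [Matrix.mul_assoc (-gmx), Matrix.mul_assoc, k.gram, Matrix.neg_mul, gmx_sq, neg_neg]

theorem Gm0.inv (k : Gm0 Z X τ ε) : pmx X * pinv X = 1 :=
  (Matrix.mul_eq_one_comm_of_card_eq _ _ _ (by simp)).1 k.inv'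

/-- The operators on the pieces. -/
def aop (τ : Fin 2 → (ℂ ≃+* ℂ) → M2) (ε : Fin 2 → (ℂ ≃+* ℂ) → ℤ) (σ : ℂ ≃+* ℂ) (p : Fin 2 × Bool) :
    M2 := τ p.1 σ + ((sg p.2 * ε p.1 σ : ℤ) : ℂ) • (1 : M2)

theorem Gm0.ax (k : Gm0 Z X τ ε) (σ : ℂ ≃+* ℂ) (p : Fin 2 × Bool) :
    DS Z σ * X p = X p * aop τ ε σ p := by
  obtain ⟨c, s⟩ := p
  cases s
  · rw [(k.pc c).ay]
    simp [aop, sg, sub_eq_add_neg]
  · rw [(k.pc c).ax]
    simp [aop, sg]

theorem Gm0.act (k : Gm0 Z X τ ε) (σ : ℂ ≃+* ℂ) :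
    DS Z σ * pmx X = pmx X * amx (aop τ ε σ) := pmx_amx X _ (k.ax σ)

/-- The structure of the homology. -/
structure Gm (Z : Matrix (Fin 4) (Fin 4) ℂ) (X : Fin 2 × Bool → Matrix (Fin 4 ⊕ Fin 4) (Fin 2) ℂ)
    (τ : Fin 2 → (ℂ ≃+* ℂ) → M2) (ε : Fin 2 → (ℂ ≃+* ℂ) → ℤ) : Prop extends Gm0 Z X τ ε where
  one : ∀ σ, (ε 0 σ = 0 ∧ ε 1 σ ≠ 0) ∨ (ε 0 σ ≠ 0 ∧ ε 1 σ = 0)
  e0 : ε 0 (RingEquiv.refl ℂ) = 1
  full : ∀ c, (∃ σ, τ c σ = hh) ∧ (∃ σ, τ c σ 1 0 ≠ 0) ∧ ∃ σ, τ c σ 0 1 ≠ 0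

/-- The conjugates of the complex structure are not scalars on all pieces. -/
theorem Gm0.not_both (k : Gm0 Z X τ ε) {W : Submodule ℂ (Fin 4 ⊕ Fin 4 → ℂ)}
    (hW : IrS (LZ Z) W) (hd : finrank ℂ W = 2) (σ : ℂ ≃+* ℂ) : ε 0 σ = 0 ∨ ε 1 σ = 0 := by
  by_contra hcon
  push Not at hcon
  have hτ : ∀ c, τ c σ = 0 := by
    intro c
    rcases (k.pc c).alt σ with ⟨h1, -⟩ | ⟨h1, -⟩
    · exfalso
      fin_cases c
      · exact hcon.1 h1
      · exact hcon.2 h1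
    · exact h1
  have hcomm : ∀ ρ, DS Z ρ * DS Z σ = DS Z σ * DS Z ρ := by
    intro ρ
    have h1 : ∀ p, (DS Z ρ * DS Z σ) * X p = (DS Z σ * DS Z ρ) * X p := by
      intro p
      have h2 : DS Z σ * X p = ((sg p.2 * ε p.1 σ : ℤ) : ℂ) • X p := by
        rw [k.ax, aop, hτ, zero_add, Matrix.mul_smul, Matrix.mul_one]
      rw [Matrix.mul_assoc, Matrix.mul_assoc, h2, Matrix.mul_smul, k.ax ρ, ← Matrix.mul_assoc, h2,
        Matrix.smul_mul]
    have h2 : DS Z ρ * DS Z σ * pmx X = DS Z σ * DS Z ρ * pmx X := by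
      ext i ⟨p, a⟩
      exact congrFun (congrFun (h1 p) i) a
    have h3 := congrArg (fun M => M * pinv X) h2
    beta_reduce at h3
    rwa [Matrix.mul_assoc, Matrix.mul_assoc (DS Z σ * DS Z ρ), k.inv, Matrix.mul_one,
      Matrix.mul_one] at h3
  have hall : ∀ Y ∈ LZ Z, Y * DS Z σ = DS Z σ * Y := by
    let L : Submodule ℂ (Matrix (Fin 4 ⊕ Fin 4) (Fin 4 ⊕ Fin 4) ℂ) :=
      { carrier := {Y | Y * DS Z σ = DS Z σ * Y}
        add_mem' := fun {X Y} hX hY => by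
          change (X + Y) * DS Z σ = DS Z σ * (X + Y)
          rw [Matrix.add_mul, Matrix.mul_add, hX, hY]
        zero_mem' := by
          change 0 * DS Z σ = DS Z σ * 0
          rw [Matrix.zero_mul, Matrix.mul_zero]
        smul_mem' := fun c X hX => by
          change (c • X) * DS Z σ = DS Z σ * (c • X)
          rw [Matrix.smul_mul, Matrix.mul_smul, hX] }
    have hL : LZ Z ≤ L := by
      refine LZ_le (fun ρ => hcomm ρ) (fun A hA C hC => ?_)
      change (A * C - C * A) * DS Z σ = DS Z σ * (A * C - C * A)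
      have hA' : A * DS Z σ = DS Z σ * A := hA
      have hC' : C * DS Z σ = DS Z σ * C := hC
      rw [Matrix.sub_mul, Matrix.mul_sub, Matrix.mul_assoc, hC', ← Matrix.mul_assoc, hA',
        Matrix.mul_assoc C, hA', ← Matrix.mul_assoc C, hC', Matrix.mul_assoc, Matrix.mul_assoc]
    exact fun Y hY => hL hY
  have hD : ∀ Y ∈ LZ Z, Y * DZ Z = DZ Z * Y := by
    intro Y hY
    have h1 := hall _ (gal_LZ σ Y hY)
    have h2 := congrArg (fun M => M.map σ.symm) h1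
    beta_reduce at h2
    rw [Matrix.map_mul, Matrix.map_mul, DS_map, RingEquiv.self_trans_symm, DS_refl] at h2
    have h3 : (Y.map σ).map σ.symm = Y := by
      ext i j
      simp
    rwa [h3] at h2
  have h1 := finrank_one_of_comm (comm_of_D hD) hW
  omega

theorem mem_top4 (k : Gm0 Z X τ ε) {K : Submodule ℂ (Fin 4 ⊕ Fin 4 → ℂ)}
    (hK : ∀ p c, X p *ᵥ c ∈ K) : K = ⊤ := by
  rw [eq_top_iff]
  intro v _
  have h1 : v = pmx X *ᵥ (pinv X *ᵥ v) := by rw [mulVec_mulVec, k.inv, one_mulVec]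
  rw [h1]
  have h2 : ∀ c, pmx X *ᵥ c = ∑ p, X p *ᵥ fun a => c (p, a) := by
    intro c
    funext i
    rw [Finset.sum_apply]
    change ∑ q, pmx X i q * c q = ∑ p, ∑ a, X p i a * c (p, a)
    rw [Fintype.sum_prod_type]
    rfl
  rw [h2]
  exact Submodule.sum_mem _ fun p _ => hK p _

/-- **The structure of the fourfolds.** -/
theorem exists_gm (h : PM Z) (hs : IsSimpleAV Z) {U : Submodule ℂ (Fin 4 ⊕ Fin 4 → ℂ)}
    (hU : IrS (LZ Z) U) (hd : finrank ℂ U = 2) (hn : ¬SDu Z U) : ∃ X τ ε, Gm Z X τ ε := by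
  obtain ⟨W0, i0, d0, n0, p0⟩ := exists_W0 h hs hU hd hn
  obtain ⟨W1, i1, d1, n1, p1⟩ := exists_W1 h hs hU hd hn
  -- nice bases
  have key : ∀ W : Submodule ℂ (Fin 4 ⊕ Fin 4 → ℂ), IrS (LZ Z) W → finrank ℂ W = 2 → ¬SDu Z W →
      ∃ (x y : Matrix (Fin 4 ⊕ Fin 4) (Fin 2) ℂ) (τ : (ℂ ≃+* ℂ) → M2) (ε : (ℂ ≃+* ℂ) → ℤ),
        Pc Z x y τ ε ∧ Rg x W ∧ Rg y (cjS cc W) ∧ (∃ σ, τ σ = hh) ∧ (∃ σ, τ σ 1 0 ≠ 0) ∧
          ∃ σ, τ σ 0 1 ≠ 0 := by
    intro W hW hd hn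
    obtain ⟨b, b', τ, ε, k⟩ := exists_pc h hW hd hn
    have hr := rg_xm b
    have hr' := rg_xm b'
    obtain ⟨s, hs0⟩ : ∃ s, τ s ≠ 0 := by
      by_contra hcon
      push Not at hcon
      refine k.no_line (c := Pi.single 0 1) hW hd hr ?_ fun σ => ⟨0, by
        rw [hcon, zero_mulVec, zero_smul]⟩
      intro h2
      have h3 := congrFun h2 0
      simp at h3
    have hsq : τ s * τ s = 1 := by
      rcases k.alt s with ⟨-, h1⟩ | ⟨h1, -⟩
      · exact h1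
      · exact absurd h1 hs0
    obtain ⟨G, G', h1, h2, h3, h4⟩ := exists_diag (τ s) (k.tr s) hsq
    have k' := k.chg h1 h2 h3
    have hr1 := hr.chg h1
    refine ⟨_, _, _, _, k', hr1, hr'.chg h1, ⟨s, h4⟩, ?_, ?_⟩
    · by_contra hcon
      push Not at hcon
      refine k'.no_line (c := Pi.single 0 1) hW hd hr1 ?_ fun σ => ⟨(G' * τ σ * G) 0 0, ?_⟩
      · intro h2
        have h3 := congrFun h2 0
        simp at h3
      · funext i
        rw [mulVec_single_one]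
        fin_cases i
        · simp
        · have h5 := hcon σ
          simpa using h5
    · by_contra hcon
      push Not at hcon
      refine k'.no_line (c := Pi.single 1 1) hW hd hr1 ?_ fun σ => ⟨(G' * τ σ * G) 1 1, ?_⟩
      · intro h2
        have h3 := congrFun h2 1
        simp at h3
      · funext i
        rw [mulVec_single_one]
        fin_cases i
        · have h5 := hcon σ
          simpa using h5
        · simp
  obtain ⟨x0, y0, τ0, ε0, k0, r0, r0', f0⟩ := key W0 i0 d0 n0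
  obtain ⟨x1, y1, τ1, ε1, k1, r1, r1', f1⟩ := key W1 i1 d1 n1
  -- the traces
  have i0' := i0.cj gal_LZ cc
  have i1' := i1.cj gal_LZ cc
  have t0 : tr Z W0 = 2 := by
    have h1 := pd_add_qd h i0.2.1
    unfold tr
    omega
  have t1 : tr Z W1 = 0 := by
    have h1 := pd_add_qd h i1.2.1
    unfold tr
    omega
  have t0' : tr Z (cjS cc W0) = -2 := by
    have h1 := pd_add_qd h i0.2.1
    unfold tr
    rw [pd_cc, qd_cc]
    omega
  have t1' : tr Z (cjS cc W1) = 0 := by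
    have h1 := pd_add_qd h i1.2.1
    unfold tr
    rw [pd_cc, qd_cc]
    omega
  have om0 : ∀ (W V : Submodule ℂ (Fin 4 ⊕ Fin 4 → ℂ)) (x y : Matrix (Fin 4 ⊕ Fin 4) (Fin 2) ℂ),
      Rg x W → Rg y V → (∀ w ∈ W, ∀ v ∈ V, om 4 w v = 0) → xᵀ * Om 4 ℂ * y = 0 := by
    intro W V x y hx hy hom
    ext a b
    rw [om_mat]
    refine hom _ ((hx _).2 ⟨Pi.single a 1, ?_⟩) _ ((hy _).2 ⟨Pi.single b 1, ?_⟩)
    · rw [mulVec_single_one]
      rfl
    · rw [mulVec_single_one]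
      rfl
  let X : Fin 2 × Bool → Matrix (Fin 4 ⊕ Fin 4) (Fin 2) ℂ := fun p =>
    if p.1 = 0 then (if p.2 then x0 else y0) else (if p.2 then x1 else y1)
  let V : Fin 2 × Bool → Submodule ℂ (Fin 4 ⊕ Fin 4 → ℂ) := fun p =>
    if p.1 = 0 then (if p.2 then W0 else cjS cc W0) else (if p.2 then W1 else cjS cc W1)
  have hXV : ∀ p, Rg (X p) (V p) := by
    rintro ⟨c, s⟩
    fin_cases c <;> cases s <;> simp [X, V] <;> assumption
  have hVi : ∀ p, IrS (LZ Z) (V p) := by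
    rintro ⟨c, s⟩
    fin_cases c <;> cases s <;> simp [V] <;> assumption
  have hV0 : ∀ s, tr Z (V (0, s)) = 2 ∨ tr Z (V (0, s)) = -2 := by
    intro s
    cases s
    · right
      simpa [V] using t0'
    · left
      simpa [V] using t0
  have hV1 : ∀ s, tr Z (V (1, s)) = 0 := by
    intro s
    cases s
    · simpa [V] using t1'
    · simpa [V] using t1
  let τ : Fin 2 → (ℂ ≃+* ℂ) → M2 := ![τ0, τ1]
  let ε : Fin 2 → (ℂ ≃+* ℂ) → ℤ := ![ε0, ε1]
  have k : Gm0 Z X τ ε := by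
    refine ⟨fun c => ?_, fun c c' s s' hc => ?_⟩
    · fin_cases c
      · exact k0
      · exact k1
    · refine om0 _ _ _ _ (hXV _) (hXV _) (orth_pd h (hVi _) (hVi _) ?_)
      fin_cases c <;> fin_cases c'
      · exact absurd rfl hc
      · have h1 := hV0 s
        have h2 := hV1 s'
        simp only [Fin.zero_eta, Fin.mk_one] at h1 h2 ⊢
        omega
      · have h1 := hV0 s'
        have h2 := hV1 s
        simp only [Fin.zero_eta, Fin.mk_one] at h1 h2 ⊢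
        omega
      · exact absurd rfl hc
  refine ⟨X, τ, ε, { k with one := fun σ => ?_, e0 := ?_, full := fun c => ?_ }⟩
  · have h1 := k.not_both i0 d0 σ
    have h2 : ¬(ε 0 σ = 0 ∧ ε 1 σ = 0) := by
      rintro ⟨e0, e1⟩
      have q0 : ∀ p, pd Z (cjS σ.symm (V p)) = 1 := by
        rintro ⟨c, s⟩
        fin_cases c <;> cases s
        · have h3 := k0.swap.pd0 h i0' (by rw [finrank_cjS, d0]) r0' (σ := σ) (by
            change ε0 σ = 0 at e0
            rw [e0, neg_zero])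
          simpa [V] using h3
        · have h3 := k0.pd0 h i0 d0 r0 (σ := σ) e0
          simpa [V] using h3
        · have h3 := k1.swap.pd0 h i1' (by rw [finrank_cjS, d1]) r1' (σ := σ) (by
            change ε1 σ = 0 at e1
            rw [e1, neg_zero])
          simpa [V] using h3
        · have h3 := k1.pd0 h i1 d1 r1 (σ := σ) e1
          simpa [V] using h3
      obtain ⟨p, hp⟩ := exists_iso h (fun p => cjS σ.symm (V p))
        (fun p => (hVi p).cj gal_LZ _) (by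
          have h3 : cjS σ (⨆ p, cjS σ.symm (V p)) = ⊤ := by
            refine mem_top4 k fun p c => ?_
            have h4 : V p ≤ cjS σ (⨆ p, cjS σ.symm (V p)) := by
              have h5 := cjS_mono (σ := σ) (le_iSup (fun p => cjS σ.symm (V p)) p)
              rwa [cjS_symm'] at h5
            exact h4 (((hXV p) _).2 ⟨c, rfl⟩)
          rw [← cjS_symm σ (⨆ p, cjS σ.symm (V p)), h3, eq_top_iff]
          intro v _
          exact trivial) i0
      have h3 := hp.pd ((hVi p).cj gal_LZ _).2.1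
      rw [q0 p, p0] at h3
      omega
    by_cases h3 : ε 0 σ = 0
    · exact Or.inl ⟨h3, fun h4 => h2 ⟨h3, h4⟩⟩
    · exact Or.inr ⟨h3, h1.resolve_left h3⟩
  · have h1 : cjS (RingEquiv.refl ℂ).symm W0 = W0 := by
      ext v
      rfl
    rcases k0.cases (RingEquiv.refl ℂ) with h2 | h2 | h2
    · have h3 := k0.pd0 h i0 d0 r0 h2
      rw [h1, p0] at h3
      omega
    · exact h2
    · have h3 := k0.pdm1 r0 h2
      rw [h1, p0] at h3
      omega
  · fin_cases c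
    · exact f0
    · exact f1

end

end Pool.Agent.N995
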