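import Mathlib
import Pool.Agent.N995.Gam2

/-!
# The imaginary quadratic subfields
-/

set_option linter.unusedSectionVars false

namespace Pool.Agent.N995

open Matrix Module Pool.Agent.W437.HC Pool.Agent.W437.HD Pool.Agent.TH504.CB Pool.Agent.Y90
open Pool.Agent.R915
open Pool.Agent.W548.Odd hiding cv
open Pool.Agent.W437.HP (cK cK_mul cK_one cK_sum)
open scoped ComplexOrder

noncomputable section

abbrev C8 : Type := (Fin 2 × Bool) × Fin 2

/-- The blocks of a matrix. -/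
def blk (N : Matrix C8 C8 ℂ) (p q : Fin 2 × Bool) : M2 := Matrix.of fun a b => N (p, a) (q, b)

theorem amx_mul (A : Fin 2 × Bool → M2) (N : Matrix C8 C8 ℂ) (p q : Fin 2 × Bool) :
    blk (amx A * N) p q = A p * blk N p q := by
  ext a b
  change (amx A * N) (p, a) (q, b) = _
  rw [Matrix.mul_apply, Matrix.mul_apply, Fintype.sum_prod_type, Finset.sum_eq_single p]
  · simp [amx, blk]
  · intro r _ hr
    refine Finset.sum_eq_zero fun c _ => ?_
    simp [amx, hr.symm]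
  · intro hp
    exact absurd (Finset.mem_univ p) hp

theorem mul_amx (A : Fin 2 × Bool → M2) (N : Matrix C8 C8 ℂ) (p q : Fin 2 × Bool) :
    blk (N * amx A) p q = blk N p q * A q := by
  ext a b
  change (N * amx A) (p, a) (q, b) = _
  rw [Matrix.mul_apply, Matrix.mul_apply, Fintype.sum_prod_type, Finset.sum_eq_single q]
  · simp [amx, blk]
  · intro r _ hr
    refine Finset.sum_eq_zero fun c _ => ?_
    simp [amx, hr]
  · intro hp
    exact absurd (Finset.mem_univ q) hp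

theorem blk_ext {N N' : Matrix C8 C8 ℂ} (h : ∀ p q, blk N p q = blk N' p q) : N = N' := by
  ext ⟨p, a⟩ ⟨q, b⟩
  exact congrFun (congrFun (h p q) a) b

theorem blk_amx (A : Fin 2 × Bool → M2) (p q : Fin 2 × Bool) :
    blk (amx A) p q = if p = q then A q else 0 := by
  ext a b
  by_cases h : p = q
  · subst h
    simp [blk, amx]
  · simp [blk, amx, h]

theorem amx_amx (A A' : Fin 2 × Bool → M2) : amx A * amx A' = amx fun p => A p * A' p := by
  refine blk_ext fun p q => ?_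
  rw [amx_mul, blk_amx, blk_amx]
  by_cases h : p = q
  · subst h
    simp
  · simp [h]

theorem amx_one : amx (fun _ => 1) = 1 := by
  refine blk_ext fun p q => ?_
  rw [blk_amx]
  ext a b
  by_cases h : p = q
  · subst h
    simp [blk, Matrix.one_apply]
  · simp [blk, h]

theorem trace_amx (A : Fin 2 × Bool → M2) : (amx A).trace = ∑ p, (A p).trace := by
  unfold Matrix.trace
  rw [Fintype.sum_prod_type]
  refine Finset.sum_congr rfl fun p _ => Finset.sum_congr rfl fun a _ => ?_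
  simp [amx]

variable {Z : Matrix (Fin 4) (Fin 4) ℂ} {X : Fin 2 × Bool → Matrix (Fin 4 ⊕ Fin 4) (Fin 2) ℂ}
  {τ : Fin 2 → (ℂ ≃+* ℂ) → M2} {ε : Fin 2 → (ℂ ≃+* ℂ) → ℤ}

theorem Gm0.tau (k : Gm0 Z X τ ε) {c : Fin 2} {σ : ℂ ≃+* ℂ} (h : ε c σ ≠ 0) :
    τ c σ = 0 ∧ (ε c σ = 1 ∨ ε c σ = -1) := by
  rcases (k.pc c).alt σ with ⟨h1, -⟩ | h1
  · exact absurd h1 h
  · exact h1

theorem Gm0.eps0 (k : Gm0 Z X τ ε) {c : Fin 2} {σ : ℂ ≃+* ℂ} (h : τ c σ ≠ 0) : ε c σ = 0 := by
  rcases (k.pc c).alt σ with ⟨h1, -⟩ | ⟨h1, -⟩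
  · exact h1
  · exact absurd h1 h

theorem Gm.other (k : Gm Z X τ ε) {c c' : Fin 2} (hc : c ≠ c') {σ : ℂ ≃+* ℂ} (h : ε c σ = 0) :
    ε c' σ ≠ 0 := by
  rcases k.one σ with ⟨h1, h2⟩ | ⟨h1, h2⟩
  · fin_cases c <;> fin_cases c'
    · exact absurd rfl hc
    · exact h2
    · exact absurd h h2
    · exact absurd rfl hc
  · fin_cases c <;> fin_cases c'
    · exact absurd rfl hc
    · exact absurd h h1
    · exact h1
    · exact absurd rfl hc

theorem Gm.exists_ne (k : Gm Z X τ ε) (c : Fin 2) : ∃ σ, ε c σ ≠ 0 := by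
  obtain ⟨c', hc⟩ : ∃ c' : Fin 2, c' ≠ c := by
    fin_cases c
    · exact ⟨1, by decide⟩
    · exact ⟨0, by decide⟩
  obtain ⟨⟨σ, hσ⟩, -⟩ := k.full c'
  refine ⟨σ, k.other hc (k.eps0 fun h0 => ?_)⟩
  rw [hσ] at h0
  have h1 := congrFun (congrFun h0 0) 0
  simp [hh] at h1

/-- The matrices which commute with all operators. -/
theorem Gm.comm_amx (k : Gm Z X τ ε) (N : Matrix C8 C8 ℂ)
    (hN : ∀ σ, amx (aop τ ε σ) * N = N * amx (aop τ ε σ)) :
    ∃ n : Fin 2 × Bool → ℂ, N = amx fun p => n p • (1 : M2) := by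
  have key : ∀ σ p q, aop τ ε σ p * blk N p q = blk N p q * aop τ ε σ q := by
    intro σ p q
    rw [← amx_mul, hN, mul_amx]
  have hhne : (hh : M2) ≠ 0 := by
    intro h0
    have h1 := congrFun (congrFun h0 0) 0
    simp [hh] at h1
  -- different classes
  have h1 : ∀ p q : Fin 2 × Bool, p.1 ≠ q.1 → blk N p q = 0 := by
    intro p q hpq
    obtain ⟨M, hM⟩ : ∃ M, M = blk N p q := ⟨_, rfl⟩
    rw [← hM]
    obtain ⟨⟨ρ, hρ⟩, ⟨ρ1, hρ1⟩, ρ2, hρ2⟩ := k.full q.1
    have a0 := key ρ p q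
    have a1 := key ρ1 p q
    have a2 := key ρ2 p q
    rw [← hM] at a0 a1 a2
    have e0 : ε q.1 ρ = 0 := k.eps0 (by rw [hρ]; exact hhne)
    have e1 : ε q.1 ρ1 = 0 := k.eps0 (fun h0 => hρ1 (by rw [h0]; rfl))
    have e2 : ε q.1 ρ2 = 0 := k.eps0 (fun h0 => hρ2 (by rw [h0]; rfl))
    obtain ⟨t0, s0⟩ := k.tau (k.other hpq.symm e0)
    obtain ⟨t1, -⟩ := k.tau (k.other hpq.symm e1)
    obtain ⟨t2, -⟩ := k.tau (k.other hpq.symm e2)
    simp only [aop, t0, t1, t2, e0, e1, e2, hρ, zero_add, mul_zero, Int.cast_zero, zero_smul,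
      add_zero, Matrix.smul_mul, Matrix.one_mul] at a0 a1 a2
    obtain ⟨z, hz⟩ : ∃ z : ℤ, z = sg p.2 * ε p.1 ρ := ⟨_, rfl⟩
    have hz1 : z = 1 ∨ z = -1 := by
      rcases s0 with s0 | s0 <;> rcases p with ⟨c, _ | _⟩ <;> simp [hz, s0, sg]
    rw [← hz] at a0
    have b0 : ∀ i, (z : ℂ) * M i 0 = M i 0 := by
      intro i
      have h2 := congrFun (congrFun a0 i) 0
      rw [mul2, Matrix.smul_apply, smul_eq_mul] at h2
      simpa [hh] using h2
    have b1 : ∀ i, (z : ℂ) * M i 1 = -M i 1 := by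
      intro i
      have h2 := congrFun (congrFun a0 i) 1
      rw [mul2, Matrix.smul_apply, smul_eq_mul] at h2
      simpa [hh] using h2
    rcases hz1 with hz1 | hz1
    · have c1 : ∀ i, M i 1 = 0 := by
        intro i
        have h2 := b1 i
        rw [hz1, Int.cast_one, one_mul] at h2
        linear_combination (1 / 2 : ℂ) * h2
      have c0 : ∀ i, M i 0 = 0 := by
        intro i
        have h2 := congrFun (congrFun a2 i) 1
        rw [mul2, Matrix.smul_apply, c1, smul_zero, zero_mul, add_zero] at h2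
        exact (mul_eq_zero.1 h2.symm).resolve_right hρ2
      exact m2_ext (c0 0) (c1 0) (c0 1) (c1 1)
    · have c0 : ∀ i, M i 0 = 0 := by
        intro i
        have h2 := b0 i
        rw [hz1, Int.cast_neg, Int.cast_one] at h2
        linear_combination (-1 / 2 : ℂ) * h2
      have c1 : ∀ i, M i 1 = 0 := by
        intro i
        have h2 := congrFun (congrFun a1 i) 0
        rw [mul2, Matrix.smul_apply, c0, smul_zero, zero_mul, zero_add] at h2
        exact (mul_eq_zero.1 h2.symm).resolve_right hρ1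
      exact m2_ext (c0 0) (c1 0) (c0 1) (c1 1)
  -- opposite signs
  have h2 : ∀ p q : Fin 2 × Bool, p.1 = q.1 → p.2 ≠ q.2 → blk N p q = 0 := by
    rintro ⟨c, s⟩ ⟨c', s'⟩ hc hs
    obtain rfl : c = c' := hc
    obtain ⟨σ, hσ⟩ := k.exists_ne c
    obtain ⟨t, e⟩ := k.tau hσ
    have a0 := key σ (c, s) (c, s')
    simp only [aop, t, zero_add, Matrix.smul_mul, Matrix.mul_smul, Matrix.one_mul,
      Matrix.mul_one] at a0
    rw [← sub_eq_zero, ← sub_smul, smul_eq_zero] at a0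
    refine a0.resolve_left ?_
    rw [← Int.cast_sub]
    refine Int.cast_ne_zero.2 ?_
    rcases e with e | e <;> cases s <;> cases s' <;> simp [e, sg] at hs ⊢
  -- the diagonal blocks
  have h3 : ∀ p, blk N p p = blk N p p 0 0 • (1 : M2) := by
    intro p
    obtain ⟨M, hM⟩ : ∃ M, M = blk N p p := ⟨_, rfl⟩
    rw [← hM]
    obtain ⟨⟨ρ, hρ⟩, ⟨ρ1, hρ1⟩, -⟩ := k.full p.1
    have a0 := key ρ p p
    have a1 := key ρ1 p p
    rw [← hM] at a0 a1
    simp only [aop, Matrix.add_mul, Matrix.mul_add, Matrix.smul_mul, Matrix.mul_smul,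
      Matrix.one_mul, Matrix.mul_one, add_left_inj] at a0 a1
    rw [hρ] at a0
    obtain ⟨c1, c2⟩ := comm_hh (T := M) (by rw [a0, sub_self])
    have c3 := congrFun (congrFun a1 1) 0
    rw [mul2, mul2, c2, mul_zero, add_zero, zero_mul, zero_add] at c3
    have c4 : M 0 0 = M 1 1 := by
      have h4 : τ p.1 ρ1 1 0 * (M 0 0 - M 1 1) = 0 := by linear_combination c3
      exact sub_eq_zero.1 ((mul_eq_zero.1 h4).resolve_left hρ1)
    apply m2_ext <;> simp [c1, c2, c4]
  refine ⟨fun p => blk N p p 0 0, blk_ext fun p q => ?_⟩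
  rw [blk_amx]
  by_cases hpq : p = q
  · subst hpq
    rw [if_pos rfl, ← h3]
  · rw [if_neg hpq]
    by_cases hc : p.1 = q.1
    · exact h2 p q hc fun hs => hpq (Prod.ext hc hs)
    · exact h1 p q hc

/-- Multiplicativity. -/
theorem rho_trans {d : ℚ} (hd : 0 < d) (σ ρ : ℂ ≃+* ℂ) :
    rho d (σ.trans ρ) = rho d σ * rho d ρ := by
  have h1 := rho_spec hd (σ.trans ρ)
  rw [RingEquiv.trans_apply, rho_spec hd σ, map_mul, rho_spec hd ρ, map_intCast] at h1
  have h2 : Complex.I * (rt d : ℂ) ≠ 0 := mul_ne_zero Complex.I_ne_zero (rt_neC hd)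
  have h3 : (((rho d σ * rho d ρ : ℤ) : ℂ) - (rho d (σ.trans ρ) : ℂ)) * (Complex.I * rt d) = 0 := by
    push_cast
    linear_combination h1
  have h4 := (mul_eq_zero.1 h3).resolve_right h2
  have h5 : ((rho d σ * rho d ρ : ℤ) : ℂ) = (rho d (σ.trans ρ) : ℂ) := sub_eq_zero.1 h4
  exact (Int.cast_inj.1 h5).symm

/-- The signs. -/
def tsg (b : Fin 2 → Bool) (p : Fin 2 × Bool) : ℤ := sg p.2 * sg (b p.1)

/-- The operator. -/
def Tm (X : Fin 2 × Bool → Matrix (Fin 4 ⊕ Fin 4) (Fin 2) ℂ) (b : Fin 2 → Bool) :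
    Matrix (Fin 4 ⊕ Fin 4) (Fin 4 ⊕ Fin 4) ℂ :=
  pmx X * amx (fun p => (tsg b p : ℂ) • (1 : M2)) * pinv X

theorem tsg_t (b : Fin 2 → Bool) (c : Fin 2) : tsg b (c, true) = sg (b c) := by
  simp [tsg, sg]

theorem tsg_f (b : Fin 2 → Bool) (c : Fin 2) : tsg b (c, false) = -sg (b c) := by
  change sg false * sg (b c) = -sg (b c)
  rw [show sg false = -1 from rfl]
  ring

theorem tr_map (M : Matrix (Fin 4 ⊕ Fin 4) (Fin 4 ⊕ Fin 4) ℂ) (σ : ℂ ≃+* ℂ) :
    (M.map σ).trace = σ M.trace := by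
  unfold Matrix.trace
  rw [map_sum]
  rfl

theorem sg_sq (s : Bool) : sg s * sg s = 1 := by cases s <;> simp [sg]

theorem tsg_sq (b : Fin 2 → Bool) (p : Fin 2 × Bool) : tsg b p * tsg b p = 1 := by
  unfold tsg
  calc sg p.2 * sg (b p.1) * (sg p.2 * sg (b p.1)) = (sg p.2 * sg p.2) * (sg (b p.1) * sg (b p.1)) := by
        ring
  _ = 1 := by rw [sg_sq, sg_sq, one_mul]

theorem Gm0.Tm_sq (k : Gm0 Z X τ ε) (b : Fin 2 → Bool) : Tm X b * Tm X b = 1 := by
  unfold Tm
  calc pmx X * amx (fun p => (tsg b p : ℂ) • (1 : M2)) * pinv X *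
        (pmx X * amx (fun p => (tsg b p : ℂ) • (1 : M2)) * pinv X) =
        pmx X * (amx (fun p => (tsg b p : ℂ) • (1 : M2)) * (pinv X * pmx X) *
          amx (fun p => (tsg b p : ℂ) • (1 : M2))) * pinv X := by simp only [Matrix.mul_assoc]
  _ = 1 := by
    rw [k.inv', Matrix.mul_one, amx_amx]
    have h1 : (fun p => (tsg b p : ℂ) • (1 : M2) * (tsg b p : ℂ) • (1 : M2)) = fun _ => 1 := by
      funext p
      rw [Matrix.smul_mul, Matrix.one_mul, smul_smul, ← Int.cast_mul, tsg_sq, Int.cast_one,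
        one_smul]
    rw [h1, amx_one, Matrix.mul_one, k.inv]

/-- The operators in the basis. -/
theorem Gm0.conj (k : Gm0 Z X τ ε) (σ : ℂ ≃+* ℂ) :
    DS Z σ = pmx X * amx (aop τ ε σ) * pinv X := by
  rw [← k.act, Matrix.mul_assoc, k.inv, Matrix.mul_one]

theorem Gm0.mulP (k : Gm0 Z X τ ε) (M N : Matrix C8 C8 ℂ) :
    (pmx X * M * pinv X) * (pmx X * N * pinv X) = pmx X * (M * N) * pinv X := by
  calc (pmx X * M * pinv X) * (pmx X * N * pinv X) =
        pmx X * (M * (pinv X * pmx X) * N) * pinv X := by simp only [Matrix.mul_assoc]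
  _ = _ := by rw [k.inv', Matrix.mul_one]

theorem Gm0.trP (k : Gm0 Z X τ ε) (M : Matrix C8 C8 ℂ) :
    (pmx X * M * pinv X).trace = M.trace := by
  rw [Matrix.mul_assoc, Matrix.trace_mul_comm, Matrix.mul_assoc, k.inv', Matrix.mul_one]

theorem Gm0.Tm_comm (k : Gm0 Z X τ ε) (b : Fin 2 → Bool) (σ : ℂ ≃+* ℂ) :
    DS Z σ * Tm X b = Tm X b * DS Z σ := by
  rw [k.conj]
  unfold Tm
  rw [k.mulP, k.mulP, amx_amx, amx_amx]
  congr 3
  funext p
  rw [Matrix.mul_smul, Matrix.smul_mul, Matrix.one_mul, Matrix.mul_one]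

theorem trace_aop (htr : ∀ c σ, (τ c σ).trace = 0) (σ : ℂ ≃+* ℂ) (p : Fin 2 × Bool) (z : ℂ) :
    (aop τ ε σ p * (z • (1 : M2))).trace = 2 * ((sg p.2 * ε p.1 σ : ℤ) : ℂ) * z := by
  rw [Matrix.mul_smul, Matrix.mul_one, trace_smul, aop, trace_add, htr, trace_smul, trace_one]
  simp
  ring

theorem Gm0.trD (k : Gm0 Z X τ ε) (n : Fin 2 × Bool → ℂ) (σ : ℂ ≃+* ℂ) :
    (DS Z σ * (pmx X * amx (fun p => n p • (1 : M2)) * pinv X)).trace =
      2 * ((ε 0 σ : ℂ) * (n (0, true) - n (0, false)) + (ε 1 σ : ℂ) * (n (1, true) - n (1, false))) := by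
  rw [k.conj, k.mulP, k.trP, amx_amx, trace_amx]
  simp only [trace_aop (fun c σ => (k.pc c).tr σ)]
  rw [Fintype.sum_prod_type, Fin.sum_univ_two, Fintype.sum_bool, Fintype.sum_bool]
  simp [sg]
  ring

theorem sq_sub {a b r : ℂ} (ha : a * a = 1) (hb : b * b = 1) (hr : r * r = 1)
    (h : a - b = 2 * r) : a = r ∧ b = -r := by
  have hr0 : r ≠ 0 := left_ne_zero_of_mul_eq_one hr
  have h1 : a = b + 2 * r := by linear_combination h
  rw [h1] at ha
  have h2 : (4 * r) * (b + r) = 0 := by linear_combination ha - hb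
  have h3 : b + r = 0 := (mul_eq_zero.1 h2).resolve_left (mul_ne_zero (by norm_num) hr0)
  constructor
  · linear_combination h1 + h3
  · linear_combination h3

/-- **The conjugates of the operator.** -/
theorem Gm.Tm_map (k : Gm Z X τ ε) (b : Fin 2 → Bool) {d : ℚ} (hd : 0 < d) {s : ℤ}
    (hrel : ∀ σ, sg (b 0) * ε 0 σ + sg (b 1) * ε 1 σ + s * rho d σ = 0) (σ : ℂ ≃+* ℂ) :
    (Tm X b).map σ = (rho d σ : ℂ) • Tm X b := by
  obtain ⟨N, hN⟩ : ∃ N, N = pinv X * (Tm X b).map σ * pmx X := ⟨_, rfl⟩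
  have hTN : (Tm X b).map σ = pmx X * N * pinv X := by
    rw [hN]
    calc (Tm X b).map σ = (pmx X * pinv X) * (Tm X b).map σ * (pmx X * pinv X) := by
          rw [k.inv, Matrix.one_mul, Matrix.mul_one]
    _ = _ := by simp only [Matrix.mul_assoc]
  -- commutation
  have hc : ∀ ρ, DS Z ρ * (Tm X b).map σ = (Tm X b).map σ * DS Z ρ := by
    intro ρ
    have h1 := k.Tm_comm b (ρ.trans σ.symm)
    have h2 := congrArg (fun M => M.map σ) h1
    beta_reduce at h2
    rw [Matrix.map_mul, Matrix.map_mul, DS_map] at h2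
    have h3 : (ρ.trans σ.symm).trans σ = ρ := by
      ext z
      simp
    rwa [h3] at h2
  have hNc : ∀ ρ, amx (aop τ ε ρ) * N = N * amx (aop τ ε ρ) := by
    intro ρ
    have h1 := hc ρ
    rw [hTN, k.conj, k.mulP, k.mulP] at h1
    have h2 := congrArg (fun M => pinv X * M * pmx X) h1
    beta_reduce at h2
    have h3 : ∀ M : Matrix C8 C8 ℂ, pinv X * (pmx X * M * pinv X) * pmx X = M := by
      intro M
      calc pinv X * (pmx X * M * pinv X) * pmx X = (pinv X * pmx X) * M * (pinv X * pmx X) := by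
            simp only [Matrix.mul_assoc]
      _ = M := by rw [k.inv', Matrix.one_mul, Matrix.mul_one]
    rwa [h3, h3] at h2
  obtain ⟨n, hn⟩ := k.comm_amx N hNc
  -- the squares
  have hsq : (Tm X b).map σ * (Tm X b).map σ = 1 := by
    rw [← Matrix.map_mul, k.Tm_sq, Matrix.map_one _ (map_zero σ) (map_one σ)]
  have hn2 : ∀ p, n p * n p = 1 := by
    intro p
    rw [hTN, k.mulP, hn, amx_amx] at hsq
    have h2 := congrArg (fun M => pinv X * M * pmx X) hsq
    beta_reduce at h2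
    have h3 : ∀ M : Matrix C8 C8 ℂ, pinv X * (pmx X * M * pinv X) * pmx X = M := by
      intro M
      calc pinv X * (pmx X * M * pinv X) * pmx X = (pinv X * pmx X) * M * (pinv X * pmx X) := by
            simp only [Matrix.mul_assoc]
      _ = M := by rw [k.inv', Matrix.one_mul, Matrix.mul_one]
    rw [h3, Matrix.mul_one, k.inv'] at h2
    have h4 := congrFun (congrFun h2 (p, 0)) (p, 0)
    simpa [amx] using h4
  -- the traces
  have htr : ∀ ρ, (ε 0 ρ : ℂ) * (n (0, true) - n (0, false)) +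
      (ε 1 ρ : ℂ) * (n (1, true) - n (1, false)) =
        2 * (rho d σ : ℂ) * ((sg (b 0) * ε 0 ρ + sg (b 1) * ε 1 ρ : ℤ) : ℂ) := by
    intro ρ
    have h1 := k.trD n ρ
    rw [← hn, ← hTN] at h1
    have h2 := k.trD (fun p => (tsg b p : ℂ)) (ρ.trans σ.symm)
    have h3 : (DS Z ρ * (Tm X b).map σ).trace =
        σ ((DS Z (ρ.trans σ.symm) * Tm X b).trace) := by
      have h4 : DS Z ρ * (Tm X b).map σ = (DS Z (ρ.trans σ.symm) * Tm X b).map σ := by
        rw [Matrix.map_mul, DS_map]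
        congr 2
        ext z
        simp
      rw [h4, tr_map]
    have h5 : (DS Z (ρ.trans σ.symm) * Tm X b).trace =
        ((4 * (sg (b 0) * ε 0 (ρ.trans σ.symm) + sg (b 1) * ε 1 (ρ.trans σ.symm)) : ℤ) : ℂ) := by
      unfold Tm
      rw [h2, tsg_t, tsg_t, tsg_f, tsg_f]
      push_cast
      ring
    rw [h3, h5, map_intCast] at h1
    have h6 := hrel (ρ.trans σ.symm)
    have h7 := hrel ρ
    rw [rho_trans hd, rho_symm hd] at h6
    have h8 : sg (b 0) * ε 0 (ρ.trans σ.symm) + sg (b 1) * ε 1 (ρ.trans σ.symm) =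
        rho d σ * (sg (b 0) * ε 0 ρ + sg (b 1) * ε 1 ρ) := by
      linear_combination h6 - rho d σ * h7
    rw [h8] at h1
    push_cast at h1 ⊢
    linear_combination (-1 / 2 : ℂ) * h1
  -- conclusion
  have hsgC : ∀ c : Fin 2, ((sg (b c) : ℤ) : ℂ) * (sg (b c) : ℤ) = 1 := by
    intro c
    rw [← Int.cast_mul, sg_sq, Int.cast_one]
  have hrC : ((rho d σ : ℤ) : ℂ) * (rho d σ : ℤ) = 1 := by
    rcases rho_pm d σ with h1 | h1 <;> rw [h1] <;> norm_num
  have hfin : ∀ c : Fin 2, n (c, true) - n (c, false) = 2 * ((rho d σ : ℂ) * (sg (b c) : ℂ)) := by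
    intro c
    obtain ⟨ρ, hρ⟩ := k.exists_ne c
    obtain ⟨-, e⟩ := k.tau hρ
    have h1 := htr ρ
    fin_cases c
    · have h2 : ε 1 ρ = 0 := by
        rcases k.one ρ with ⟨h3, -⟩ | ⟨-, h3⟩
        · exact absurd h3 hρ
        · exact h3
      simp only [Fin.zero_eta] at e ⊢
      rw [h2] at h1
      rcases e with e | e
      · rw [e] at h1
        push_cast at h1
        linear_combination h1
      · rw [e] at h1
        push_cast at h1
        linear_combination -h1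
    · have h2 : ε 0 ρ = 0 := by
        rcases k.one ρ with ⟨h3, -⟩ | ⟨-, h3⟩
        · exact h3
        · exact absurd h3 hρ
      simp only [Fin.mk_one] at e ⊢
      rw [h2] at h1
      rcases e with e | e
      · rw [e] at h1
        push_cast at h1
        linear_combination h1
      · rw [e] at h1
        push_cast at h1
        linear_combination -h1
  have hfin2 : ∀ c : Fin 2, n (c, true) = (rho d σ : ℂ) * (sg (b c) : ℂ) ∧
      n (c, false) = -((rho d σ : ℂ) * (sg (b c) : ℂ)) := fun c =>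
    sq_sub (hn2 _) (hn2 _) (by
      calc (rho d σ : ℂ) * (sg (b c) : ℂ) * ((rho d σ : ℂ) * (sg (b c) : ℂ)) =
            ((rho d σ : ℂ) * (rho d σ : ℂ)) * ((sg (b c) : ℂ) * (sg (b c) : ℂ)) := by ring
      _ = 1 := by rw [hrC, hsgC, one_mul]) (hfin c)
  rw [hTN, hn]
  unfold Tm
  rw [← Matrix.smul_mul, ← Matrix.mul_smul]
  congr 2
  refine blk_ext fun p q => ?_
  have h9 : blk ((rho d σ : ℂ) • amx fun p => (tsg b p : ℂ) • (1 : M2)) p q =
      (rho d σ : ℂ) • blk (amx fun p => (tsg b p : ℂ) • (1 : M2)) p q := by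
    ext i j
    rfl
  rw [h9, blk_amx, blk_amx]
  by_cases hpq : p = q
  · subst hpq
    rw [if_pos rfl, if_pos rfl, smul_smul]
    congr 1
    obtain ⟨c, s⟩ := p
    cases s
    · rw [(hfin2 c).2, tsg_f]
      push_cast
      ring
    · rw [(hfin2 c).1, tsg_t]
  · rw [if_neg hpq, if_neg hpq, smul_zero]

end

end Pool.Agent.N995
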