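import Mathlib
import Pool.Agent.N995.Gam3
import Pool.Agent.N995.Mod

/-!
# The Weil classes of the sixfolds
-/

set_option linter.unusedSectionVars false

namespace Pool.Agent.N995

open Matrix Module Pool.Agent.W437.HC Pool.Agent.W437.HD Pool.Agent.TH504.CB Pool.Agent.Y90
open Pool.Agent.R915
open Pool.Agent.W548.Odd hiding cv
open Pool.Agent.W437.HP (cK cK_mul cK_one cK_sum)
open scoped ComplexOrder

noncomputable section

/-- The eigenspace of the operator. -/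
def VT (X : Fin 2 × Bool → Matrix (Fin 4 ⊕ Fin 4) (Fin 2) ℂ) (b : Fin 2 → Bool) :
    Submodule ℂ (Fin 4 ⊕ Fin 4 → ℂ) := LinearMap.ker (mulVecLin (Tm X b - 1))

theorem mem_VT {X : Fin 2 × Bool → Matrix (Fin 4 ⊕ Fin 4) (Fin 2) ℂ} {b : Fin 2 → Bool}
    {v : Fin 4 ⊕ Fin 4 → ℂ} : v ∈ VT X b ↔ Tm X b *ᵥ v = v := by
  unfold VT
  rw [LinearMap.mem_ker, mulVecLin_apply, sub_mulVec, one_mulVec, sub_eq_zero]

/-- The label of a variable. -/
def lbp (b : Fin 2 → Bool) : Fin 2 ⊕ Fin 2 → Fin 2 × Bool :=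
  Sum.elim (fun _ => (0, b 0)) fun _ => (1, b 1)

/-- The index of a variable. -/
def lbc (b : Fin 2 → Bool) : Fin 2 ⊕ Fin 2 → C8 :=
  Sum.elim (fun a => ((0, b 0), a)) fun a => ((1, b 1), a)

/-- Extension by zero. -/
def exq (b : Fin 2 → Bool) (c : Fin 2 ⊕ Fin 2 → ℂ) : C8 → ℂ := fun p =>
  if p.1 = (0, b 0) then c (Sum.inl p.2) else if p.1 = (1, b 1) then c (Sum.inr p.2) else 0

theorem exq_lbc (b : Fin 2 → Bool) (c : Fin 2 ⊕ Fin 2 → ℂ) (j : Fin 2 ⊕ Fin 2) :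
    exq b c (lbc b j) = c j := by
  rcases j with a | a
  · simp [exq, lbc]
  · simp [exq, lbc]

theorem amx_diag (n : Fin 2 × Bool → ℂ) (x : C8 → ℂ) :
    amx (fun p => n p • (1 : M2)) *ᵥ x = fun p => n p.1 * x p := by
  funext ⟨p, a⟩
  change ∑ q, amx (fun p => n p • (1 : M2)) (p, a) q * x q = _
  rw [Finset.sum_eq_single (p, a)]
  · simp [amx]
  · rintro ⟨q, c⟩ _ hq
    by_cases hpq : p = q
    · subst hpq
      have h1 : a ≠ c := fun h2 => hq (by rw [h2])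
      simp [amx, Matrix.one_apply_ne h1]
    · simp [amx, hpq]
  · intro hp
    exact absurd (Finset.mem_univ _) hp

theorem tsg_cases (b : Fin 2 → Bool) (p : Fin 2 × Bool) :
    (tsg b p = 1 ∧ p.2 = b p.1) ∨ (tsg b p = -1 ∧ p.2 ≠ b p.1) := by
  obtain ⟨c, s⟩ := p
  unfold tsg
  cases s <;> cases b c <;> simp [sg]

theorem exq_tsg (b : Fin 2 → Bool) (c : Fin 2 ⊕ Fin 2 → ℂ) (p : C8) :
    (tsg b p.1 : ℂ) * exq b c p = exq b c p := by
  rcases tsg_cases b p.1 with ⟨h1, -⟩ | ⟨-, h1⟩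
  · rw [h1, Int.cast_one, one_mul]
  · have h2 : exq b c p = 0 := by
      unfold exq
      rw [if_neg, if_neg]
      · intro h3
        apply h1
        rw [h3]
      · intro h3
        apply h1
        rw [h3]
    rw [h2, mul_zero]

theorem exq_of {b : Fin 2 → Bool} {x : C8 → ℂ} (hx : ∀ p, (tsg b p.1 : ℂ) * x p = x p) :
    exq b (fun j => x (lbc b j)) = x := by
  funext ⟨⟨c, s⟩, a⟩
  rcases tsg_cases b (c, s) with ⟨-, h1⟩ | ⟨h1, h2⟩
  · have h3 : s = b c := h1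
    subst h3
    fin_cases c
    · simp [exq, lbc]
    · simp [exq, lbc]
  · have h3 := hx ((c, s), a)
    change (tsg b (c, s) : ℂ) * _ = _ at h3
    rw [h1] at h3
    have h4 : x ((c, s), a) = 0 := by
      push_cast at h3
      linear_combination (-1 / 2 : ℂ) * h3
    rw [h4]
    unfold exq
    rw [if_neg, if_neg]
    · intro h5
      apply h2
      change (c, s) = (1, b 1) at h5
      rw [h5]
    · intro h5
      apply h2
      change (c, s) = (0, b 0) at h5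
      rw [h5]

variable {Z : Matrix (Fin 4) (Fin 4) ℂ} {X : Fin 2 × Bool → Matrix (Fin 4 ⊕ Fin 4) (Fin 2) ℂ}
  {τ : Fin 2 → (ℂ ≃+* ℂ) → M2} {ε : Fin 2 → (ℂ ≃+* ℂ) → ℤ}

theorem Gm0.Tm_pmx (k : Gm0 Z X τ ε) (b : Fin 2 → Bool) (x : C8 → ℂ) :
    Tm X b *ᵥ (pmx X *ᵥ x) = pmx X *ᵥ fun p => (tsg b p.1 : ℂ) * x p := by
  unfold Tm
  rw [mulVec_mulVec, Matrix.mul_assoc, k.inv', Matrix.mul_one, ← mulVec_mulVec, amx_diag]

theorem Gm0.pv (k : Gm0 Z X τ ε) (v : Fin 4 ⊕ Fin 4 → ℂ) : pmx X *ᵥ (pinv X *ᵥ v) = v := by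
  rw [mulVec_mulVec, k.inv, one_mulVec]

theorem Gm0.vp (k : Gm0 Z X τ ε) (x : C8 → ℂ) : pinv X *ᵥ (pmx X *ᵥ x) = x := by
  rw [mulVec_mulVec, k.inv', one_mulVec]

theorem Gm0.pv_tsg (k : Gm0 Z X τ ε) {b : Fin 2 → Bool} {v : Fin 4 ⊕ Fin 4 → ℂ}
    (hv : v ∈ VT X b) (p : C8) : (tsg b p.1 : ℂ) * (pinv X *ᵥ v) p = (pinv X *ᵥ v) p := by
  have h1 := mem_VT.1 hv
  have h2 := k.Tm_pmx b (pinv X *ᵥ v)
  rw [k.pv, h1] at h2
  have h3 := congrArg (fun w => pinv X *ᵥ w) h2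
  beta_reduce at h3
  rw [k.vp] at h3
  exact (congrFun h3 p).symm

/-- The coordinates on the eigenspace. -/
def Gm0.eqT (k : Gm0 Z X τ ε) (b : Fin 2 → Bool) : VT X b ≃ₗ[ℂ] (Fin 2 ⊕ Fin 2 → ℂ) where
  toFun v := fun j => (pinv X *ᵥ (v : Fin 4 ⊕ Fin 4 → ℂ)) (lbc b j)
  map_add' v w := by
    funext j
    rw [Submodule.coe_add, mulVec_add]
    rfl
  map_smul' c v := by
    funext j
    rw [Submodule.coe_smul, mulVec_smul]
    rfl
  invFun c := ⟨pmx X *ᵥ exq b c, mem_VT.2 (by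
    rw [k.Tm_pmx]
    congr 1
    funext p
    exact exq_tsg b c p)⟩
  left_inv v := by
    apply Subtype.ext
    change pmx X *ᵥ exq b (fun j => (pinv X *ᵥ (v : Fin 4 ⊕ Fin 4 → ℂ)) (lbc b j)) = v
    rw [exq_of (k.pv_tsg v.2), k.pv]
  right_inv c := by
    funext j
    change (pinv X *ᵥ (pmx X *ᵥ exq b c)) (lbc b j) = c j
    rw [k.vp, exq_lbc]

/-- The basis of the eigenspace. -/
def Gm0.baT (k : Gm0 Z X τ ε) (b : Fin 2 → Bool) : Basis (Fin 2 ⊕ Fin 2) ℂ (VT X b) :=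
  Basis.ofEquivFun (k.eqT b)

theorem Gm0.baT_repr (k : Gm0 Z X τ ε) (b : Fin 2 → Bool) (v : VT X b) (j : Fin 2 ⊕ Fin 2) :
    (k.baT b).repr v j = (pinv X *ᵥ (v : Fin 4 ⊕ Fin 4 → ℂ)) (lbc b j) := by
  unfold Gm0.baT
  rw [Basis.ofEquivFun_repr_apply]
  rfl

theorem X_pmx (X : Fin 2 × Bool → Matrix (Fin 4 ⊕ Fin 4) (Fin 2) ℂ) (p : Fin 2 × Bool)
    (u : Fin 2 → ℂ) : X p *ᵥ u = pmx X *ᵥ fun q => if q.1 = p then u q.2 else 0 := by
  funext i
  change ∑ a, X p i a * u a = ∑ q, pmx X i q * (if q.1 = p then u q.2 else 0)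
  rw [Fintype.sum_prod_type, Finset.sum_eq_single p]
  · refine Finset.sum_congr rfl fun a _ => ?_
    simp [pmx]
  · intro q _ hq
    refine Finset.sum_eq_zero fun a _ => ?_
    simp [hq]
  · intro hp
    exact absurd (Finset.mem_univ _) hp

theorem Gm0.X_mem (k : Gm0 Z X τ ε) (b : Fin 2 → Bool) (y : Fin 2 ⊕ Fin 2) (u : Fin 2 → ℂ) :
    X (lbp b y) *ᵥ u ∈ VT X b := by
  rw [mem_VT, X_pmx, k.Tm_pmx]
  congr 1
  funext q
  by_cases hq : q.1 = lbp b y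
  · rw [if_pos hq, hq]
    rcases tsg_cases b (lbp b y) with ⟨h1, -⟩ | ⟨-, h1⟩
    · rw [h1, Int.cast_one, one_mul]
    · exfalso
      apply h1
      rcases y with y | y <;> rfl
  · rw [if_neg hq, mul_zero]

/-- Traces. -/
theorem Gm0.tr0 (k : Gm0 Z X τ ε) : (DZ Z).trace = 0 := by
  have h1 := k.trD (fun _ => 1) (RingEquiv.refl ℂ)
  have h2 : amx (fun _ : Fin 2 × Bool => (1 : ℂ) • (1 : M2)) = 1 := by
    simp only [one_smul]
    exact amx_one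
  rw [h2, Matrix.mul_one, k.inv, Matrix.mul_one, DS_refl] at h1
  rw [h1]
  ring

/-- **The imaginary quadratic field.** -/
theorem Gm.exists_kw (k : Gm Z X τ ε) (h : PM Z) (b : Fin 2 → Bool) {d : ℚ} (hd : 0 < d) {s : ℤ}
    (hs : s = 1 ∨ s = -1)
    (hrel : ∀ σ, sg (b 0) * ε 0 σ + sg (b 1) * ε 1 σ + s * rho d σ = 0) :
    (∃ φ, KW Z (VT X b) φ ((s : ℂ) * (Complex.I * rt d)) d) ∧ tr Z (VT X b) + s * 2 = 0 := by
  have hs2 : (s : ℂ) * (s : ℂ) = 1 := by rcases hs with h1 | h1 <;> rw [h1] <;> norm_num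
  obtain ⟨γ, hγ⟩ : ∃ γ, γ = (s : ℂ) * (Complex.I * rt d) := ⟨_, rfl⟩
  have hγγ : γ * γ = -(d : ℂ) := by
    calc γ * γ = ((s : ℂ) * (s : ℂ)) * ((Complex.I * rt d) * (Complex.I * rt d)) := by
          rw [hγ]
          ring
    _ = -(d : ℂ) := by rw [hs2, Irt_sq hd, one_mul]
  have hγ0 : γ ≠ 0 := by
    intro h0
    rw [h0, mul_zero, eq_comm, neg_eq_zero] at hγγ
    exact hd.ne' (by exact_mod_cast hγγ)
  have hσγ : ∀ σ : ℂ ≃+* ℂ, σ γ = (rho d σ : ℂ) * γ := by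
    intro σ
    rw [hγ, map_mul, rho_spec hd, map_intCast]
    ring
  have hrat : ∀ i j, ∃ q : ℚ, (γ • Tm X b) i j = q := by
    intro i j
    refine exists_rat fun σ => ?_
    have h1 := congrFun (congrFun (k.Tm_map b hd hrel σ) i) j
    rw [Matrix.map_apply, Matrix.smul_apply, smul_eq_mul] at h1
    rw [Matrix.smul_apply, smul_eq_mul, map_mul, hσγ, h1]
    have h2 : (rho d σ : ℂ) * (rho d σ : ℂ) = 1 := by
      rcases rho_pm d σ with h3 | h3 <;> rw [h3] <;> norm_num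
    linear_combination (γ * Tm X b i j) * h2
  choose φ hφ using hrat
  have hqm : qm (Matrix.of φ) = γ • Tm X b := by
    ext i j
    rw [hφ i j]
    rfl
  -- the trace
  have hcommD : DZ Z * Tm X b = Tm X b * DZ Z := by
    have h1 := k.Tm_comm b (RingEquiv.refl ℂ)
    rwa [DS_refl] at h1
  have hstab : Stab (LZ Z) (VT X b) := stab_of_DS fun σ u hu => by
    rw [mem_VT] at hu ⊢
    rw [mulVec_mulVec, ← k.Tm_comm, ← mulVec_mulVec, hu]
  have hrho1 : rho d (RingEquiv.refl ℂ) = 1 := by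
    unfold rho
    exact if_pos (by simp)
  have htr : tr Z (VT X b) + s * 2 = 0 := by
    have h1 := trace_DP h hstab (e := (1 / 2 : ℂ) • (1 + Tm X b)) (fun v => ?_) (fun v hv => ?_) ?_
    · have h2 : (DZ Z * ((1 / 2 : ℂ) • (1 + Tm X b))).trace =
          ((-(s * 2) : ℤ) : ℂ) := by
        rw [Matrix.mul_smul, Matrix.mul_add, Matrix.mul_one, trace_smul, trace_add, k.tr0,
          zero_add]
        have h3 := k.trD (fun p => (tsg b p : ℂ)) (RingEquiv.refl ℂ)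
        rw [DS_refl] at h3
        have h4 : DZ Z * Tm X b = DZ Z * (pmx X * amx (fun p => (tsg b p : ℂ) • (1 : M2)) * pinv X) :=
          rfl
        rw [h4, h3, tsg_t, tsg_t, tsg_f, tsg_f]
        have h5 := hrel (RingEquiv.refl ℂ)
        rw [hrho1] at h5
        have h6 : ((sg (b 0) * ε 0 (RingEquiv.refl ℂ) + sg (b 1) * ε 1 (RingEquiv.refl ℂ) +
            s * 1 : ℤ) : ℂ) = 0 := by
          rw [h5, Int.cast_zero]
        push_cast at h6 ⊢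
        rw [smul_eq_mul]
        linear_combination 2 * h6
      rw [h2] at h1
      have h3 : ((tr Z (VT X b) + s * 2 : ℤ) : ℂ) = 0 := by
        unfold tr
        push_cast at h1 ⊢
        rw [← h1]
        ring
      exact_mod_cast h3
    · rw [mem_VT, smul_mulVec, mulVec_smul, mulVec_mulVec, Matrix.mul_add, Matrix.mul_one, k.Tm_sq,
        add_comm]
    · rw [smul_mulVec, add_mulVec, one_mulVec, mem_VT.1 hv]
      module
    · rw [Matrix.mul_smul, Matrix.smul_mul, Matrix.mul_add, Matrix.add_mul, hcommD, Matrix.mul_one,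
        Matrix.one_mul]
  refine ⟨⟨Matrix.of φ, ?_⟩, htr⟩
  rw [← hγ]
  have hmem : ∀ v, v ∈ VT X b ↔ qm (Matrix.of φ) *ᵥ v = γ • v := by
    intro v
    rw [mem_VT, hqm, smul_mulVec]
    constructor
    · intro h1
      rw [h1]
    · intro h1
      have h2 := congrArg (fun w => γ⁻¹ • w) h1
      beta_reduce at h2
      rwa [smul_smul, smul_smul, inv_mul_cancel₀ hγ0, one_smul, one_smul] at h2
  -- skewness
  have hskew : ∀ u v, om 4 (Tm X b *ᵥ u) v = -om 4 u (Tm X b *ᵥ v) := by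
    intro u v
    have h1 : ∀ x y : C8 → ℂ, om 4 (pmx X *ᵥ x) (pmx X *ᵥ y) = x ⬝ᵥ (gmx *ᵥ y) := by
      intro x y
      rw [om_apply, ← k.gram, ← mulVec_mulVec, ← mulVec_mulVec, dotProduct_mulVec x (pmx X)ᵀ,
        vecMul_transpose]
    rw [← k.pv u, ← k.pv v, k.Tm_pmx, k.Tm_pmx, h1, h1]
    generalize pinv X *ᵥ u = x
    generalize pinv X *ᵥ v = y
    simp only [dotProduct, mulVec, ← Finset.sum_neg_distrib, Finset.mul_sum]
    refine Finset.sum_congr rfl fun p _ => Finset.sum_congr rfl fun q _ => ?_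
    by_cases hpq : p.1.1 = q.1.1 ∧ p.1.2 ≠ q.1.2
    · have h2 : (tsg b p.1 : ℂ) = -(tsg b q.1 : ℂ) := by
        rw [← Int.cast_neg]
        congr 1
        obtain ⟨⟨⟨c, s⟩, a⟩, ⟨⟨c', s'⟩, a'⟩⟩ := (⟨p, q⟩ : C8 × C8)
        obtain ⟨h3, h4⟩ := hpq
        unfold tsg
        rw [h3]
        rcases hp2 : p.1.2 <;> rcases hq2 : q.1.2 <;> cases b q.1.1 <;> simp [hp2, hq2, sg] at h4 ⊢
      rw [h2]
      ring
    · simp [gmx, hpq]
  refine ⟨?_, ?_, hd, ?_, hγγ, hmem, fun u hu v hv => ?_⟩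
  · rw [Module.finrank_eq_card_basis (k.baT b)]
    rfl
  · refine commL_of ?_
    rw [hqm, Matrix.smul_mul, Matrix.mul_smul, hcommD]
  · have h1 : qm (Matrix.of φ * Matrix.of φ) = qm (-(d • (1 : Matrix _ _ ℚ))) := by
      have h2 : qm (Matrix.of φ * Matrix.of φ) = qm (Matrix.of φ) * qm (Matrix.of φ) := by
        exact Matrix.map_mul (f := (Rat.castHom ℂ))
      rw [h2, hqm, Matrix.smul_mul, Matrix.mul_smul, smul_smul, k.Tm_sq, hγγ]
      ext i j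
      by_cases hij : i = j
      · subst hij
        simp
      · simp [hij]
    ext i j
    have h2 := congrFun (congrFun h1 i) j
    have h3 : (((Matrix.of φ * Matrix.of φ) i j : ℚ) : ℂ) =
        (((-(d • (1 : Matrix _ _ ℚ))) i j : ℚ) : ℂ) := h2
    exact_mod_cast h3
  · have h1 := hskew u v
    rw [mem_VT.1 hu, mem_VT.1 hv] at h1
    linear_combination (1 / 2 : ℂ) * h1

/-- The determinant form on the pieces. -/
theorem Gm.alt_eq (k : Gm Z X τ ε) (b : Fin 2 → Bool) {φ : Matrix (Fin 4 ⊕ Fin 4) (Fin 4 ⊕ Fin 4) ℚ}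
    {γ : ℂ} {d : ℚ} (kw : KW Z (VT X b) φ γ d) (u : Fin 2 ⊕ Fin 2 → Fin 2 → ℂ) :
    kw.alt (k.baT b) (fun y => X (lbp b y) *ᵥ u y) =
      (u (Sum.inl 0) 0 * u (Sum.inl 1) 1 - u (Sum.inl 0) 1 * u (Sum.inl 1) 0) *
        (u (Sum.inr 0) 0 * u (Sum.inr 1) 1 - u (Sum.inr 0) 1 * u (Sum.inr 1) 0) := by
  rw [KW.alt_apply]
  have h1 : (fun y => kw.pU (X (lbp b y) *ᵥ u y)) =
      fun y => (⟨X (lbp b y) *ᵥ u y, k.X_mem b y _⟩ : VT X b) := by
    funext y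
    exact kw.pU_of_mem _
  rw [h1, Basis.det_apply]
  have h2 : (k.baT b).toMatrix (fun y => (⟨X (lbp b y) *ᵥ u y, k.X_mem b y _⟩ : VT X b)) =
      fromBlocks (Matrix.of fun i a => u (Sum.inl a) i) 0 0 (Matrix.of fun i a => u (Sum.inr a) i) := by
    ext i j
    rw [Basis.toMatrix_apply, k.baT_repr]
    change (pinv X *ᵥ (X (lbp b j) *ᵥ u j)) (lbc b i) = _
    rw [X_pmx, k.vp]
    rcases i with i | i <;> rcases j with j | j <;> simp [lbp, lbc]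
  rw [h2, det_fromBlocks_zero₁₂, det_fin_two, det_fin_two]
  simp only [of_apply]
  ring

/-- **The forms of the pieces belong to the system.** -/
theorem Gm.form_mem (k : Gm Z X τ ε) (h : PM Z) (b : Fin 2 → Bool) {d : ℚ} (hd : 0 < d) {s : ℤ}
    (hs : s = 1 ∨ s = -1)
    (hrel : ∀ σ, sg (b 0) * ε 0 σ + sg (b 1) * ε 1 σ + s * rho d σ = 0)
    (𝒜 : Sys) {G : ℕ} {Z' : Matrix (Fin G) (Fin G) ℂ} (h' : PM Z')
    (R : Fin 2 ⊕ Fin 2 → Matrix (Fin 2) (Fin G ⊕ Fin G) ℂ)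
    (hR : ∀ y σ, R y * DS Z' σ = aop τ ε σ (lbp b y) * R y)
    (μ : Unit ⊕ Unit → Fin G ⊕ Fin G → ℂ)
    (hμ : ∀ y σ, μ y ᵥ* DS Z' σ = ((s * rho d σ : ℤ) : ℂ) • μ y)
    (ψ : MultilinearMap ℂ (fun _ : (Fin 2 ⊕ Fin 2) ⊕ (Unit ⊕ Unit) => Fin G ⊕ Fin G → ℂ) ℂ)
    (hψ : ∀ v, ψ v =
      (((R (Sum.inl 0) *ᵥ v (Sum.inl (Sum.inl 0))) 0 * (R (Sum.inl 1) *ᵥ v (Sum.inl (Sum.inl 1))) 1 -
        (R (Sum.inl 0) *ᵥ v (Sum.inl (Sum.inl 0))) 1 * (R (Sum.inl 1) *ᵥ v (Sum.inl (Sum.inl 1))) 0) *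
      ((R (Sum.inr 0) *ᵥ v (Sum.inl (Sum.inr 0))) 0 * (R (Sum.inr 1) *ᵥ v (Sum.inl (Sum.inr 1))) 1 -
        (R (Sum.inr 0) *ᵥ v (Sum.inl (Sum.inr 0))) 1 * (R (Sum.inr 1) *ᵥ v (Sum.inl (Sum.inr 1))) 0)) *
      ∏ y, μ y ⬝ᵥ v (Sum.inr y)) :
    ψ ∈ NA 𝒜 h'.cht ⟨_, h'.polar⟩ ((Fin 2 ⊕ Fin 2) ⊕ (Unit ⊕ Unit)) := by
  obtain ⟨⟨φ, kw⟩, ht⟩ := k.exists_kw h b hd hs hrel
  obtain ⟨γ, hγ⟩ : ∃ γ, γ = (s : ℂ) * (Complex.I * rt d) := ⟨_, rfl⟩
  have hs2 : (s : ℂ) * (s : ℂ) = 1 := by rcases hs with h1 | h1 <;> rw [h1] <;> norm_num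
  have hss : s * s = 1 := by rcases hs with h1 | h1 <;> rw [h1] <;> norm_num
  have hγγ : γ * γ = -(d : ℂ) := by
    calc γ * γ = ((s : ℂ) * (s : ℂ)) * ((Complex.I * rt d) * (Complex.I * rt d)) := by
          rw [hγ]
          ring
    _ = -(d : ℂ) := by rw [hs2, Irt_sq hd, one_mul]
  rw [← hγ] at kw
  have kw1 : KW Z (VT X b) φ (((1 : ℚ) : ℂ) * γ) d := by
    rw [Rat.cast_one, one_mul]
    exact kw
  obtain ⟨l, hl, hdisc⟩ := exists_disc h hd (ε := 1) (s := s) (Or.inl rfl) hs hγ kw1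
    (k := 2) (by norm_num) (by norm_num) (by exact_mod_cast ht)
  have h2 : PM (ZE (fun _ : Fin 2 => d) l) := pmE (fun _ => hd) hl
  have kw2 := kwE (M := 2) (l := l) hd hl hγγ (ε := 1) (by norm_num)
  have ht2 : tr Z (VT X b) + tr (ZE (fun _ : Fin 2 => d) l) (UE l γ) = 0 := by
    rw [hγ, trE hd hl hs]
    exact_mod_cast ht
  let eU : Fin 2 ≃ Unit ⊕ Unit :=
    { toFun := fun i => if i = 0 then Sum.inl () else Sum.inr ()
      invFun := Sum.elim (fun _ => 0) fun _ => 1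
      left_inv := fun i => by fin_cases i <;> rfl
      right_inv := fun i => by rcases i with i | i <;> rfl }
  let f2 : Basis (Unit ⊕ Unit) ℂ (UE l γ) := (basE l γ).reindex eU
  -- the action on the eigenspace
  have hDw : ∀ w ∈ UE l γ, ∀ σ, DS (ZE (fun _ : Fin 2 => d) l) σ *ᵥ w =
      ((s * rho d σ : ℤ) : ℂ) • w := by
    intro w hw σ
    obtain ⟨w', hw'⟩ : ∃ w' : Fin 2 ⊕ Fin 2 → ℂ, w' = fun i => σ.symm (w i) := ⟨_, rfl⟩
    have h3 : DS (ZE (fun _ : Fin 2 => d) l) σ *ᵥ w =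
        fun i => σ ((DZ (ZE (fun _ : Fin 2 => d) l) *ᵥ w') i) := by
      rw [map_mulVec_aut σ, hw']
      simp [DS]
    have hr : rho d σ * rho d σ = 1 := by
      rcases rho_pm d σ with h1 | h1 <;> rw [h1] <;> norm_num
    have h4 : w' ∈ UE l (((s * rho d σ : ℤ) : ℂ) * (Complex.I * rt d)) := by
      rw [mem_UE]
      intro i
      have h5 := (mem_UE.1 hw) i
      have h6 := congrArg σ.symm h5
      rw [map_mul, map_mul, hγ, map_mul, rho_spec hd, rho_symm hd, map_intCast] at h6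
      rw [hw']
      change σ.symm (w (Sum.inl i)) = _ * σ.symm (w (Sum.inr i))
      rw [h6]
      have h7 : σ.symm ((l i : ℚ) : ℂ) = (l i : ℂ) := map_ratCast σ.symm (l i)
      rw [h7]
      push_cast
      ring
    have h5 := DZE_UE hd hl h4 (by
      calc s * rho d σ * (s * rho d σ) = (s * s) * (rho d σ * rho d σ) := by ring
      _ = 1 := by rw [hss, hr, one_mul])
    rw [h3, h5]
    funext i
    simp [hw']
  refine gen_det h'.cht ⟨_, h'.polar⟩ h h2 kw1 kw2 ?_ (k.baT b) f2 ?_ ?_ 𝒜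
    (fun y => X (lbp b y) * R y) (fun y => vecMulVec (f2 y : Fin 2 ⊕ Fin 2 → ℂ) (μ y)) ?_ ?_ ψ ?_
  · exact ht2
  · right; right; rfl
  · intro _
    exact hdisc
  · intro y σ
    change X (lbp b y) * R y * DS Z' σ = _
    rw [Matrix.mul_assoc, hR, ← Matrix.mul_assoc, ← k.ax, Matrix.mul_assoc]
  · intro y σ
    change vecMulVec _ (μ y) * DS Z' σ = _
    rw [vecMulVec_mul, hμ, mul_vecMulVec, hDw _ (f2 y).2, vecMulVec_smul, smul_vecMulVec]
  · intro v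
    rw [hψ]
    congr 1
    · have h3 : (fun y => (X (lbp b y) * R y) *ᵥ v (Sum.inl y)) =
          fun y => X (lbp b y) *ᵥ (R y *ᵥ v (Sum.inl y)) := by
        funext y
        rw [mulVec_mulVec]
      rw [h3]
      exact (k.alt_eq b kw1 fun y => R y *ᵥ v (Sum.inl y)).symm
    · have h3 : (fun y => vecMulVec (f2 y : Fin 2 ⊕ Fin 2 → ℂ) (μ y) *ᵥ v (Sum.inr y)) =
          fun y => (μ y ⬝ᵥ v (Sum.inr y)) • (f2 y : Fin 2 ⊕ Fin 2 → ℂ) := by
        funext y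
        rw [vecMulVec_mulVec]
        simp
      rw [h3]
      have h4 := (kw2.alt f2).toMultilinearMap.map_smul_univ (fun y => μ y ⬝ᵥ v (Sum.inr y))
        (fun y => (f2 y : Fin 2 ⊕ Fin 2 → ℂ))
      change kw2.alt f2 _ = _ at h4
      rw [h4]
      have h5 : kw2.alt f2 (fun y => (f2 y : Fin 2 ⊕ Fin 2 → ℂ)) = 1 := by
        rw [KW.alt_apply]
        have h6 : (fun y => kw2.pU (f2 y : Fin 2 ⊕ Fin 2 → ℂ)) = fun y => f2 y := by
          funext y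
          rw [kw2.pU_of_mem (f2 y).2]
        rw [h6]
        exact f2.det_self
      change _ = _ • kw2.alt f2 (fun y => (f2 y : Fin 2 ⊕ Fin 2 → ℂ))
      rw [h5, smul_eq_mul, mul_one]

end

end Pool.Agent.N995
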