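import Mathlib
import Pool.Agent.N995.Mod
import Pool.Agent.R915.G6

/-!
# Coverings by models
-/

set_option linter.unusedSectionVars false

namespace Pool.Agent.N995

open Matrix Module Pool.Agent.W437.HC Pool.Agent.W437.HD Pool.Agent.TH504.CB Pool.Agent.Y90
open Pool.Agent.R915
open Pool.Agent.W548.Odd hiding cv
open Pool.Agent.H204R3.CM (IsHodge)
open Pool.Agent.H204R3.SP (Kills bil2 IsTate)
open Pool.Agent.W437.HP (cK cK_mul cK_one cK_sum)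

noncomputable section

variable {B : Type} [Fintype B] [DecidableEq B]

/-- The model covers the homology. -/
def Cov {G : ℕ} (Z : Matrix (Fin G) (Fin G) ℂ) (D0 : (ℂ ≃+* ℂ) → Matrix B B ℂ) : Prop :=
  (1 : Matrix (Fin G ⊕ Fin G) (Fin G ⊕ Fin G) ℂ) ∈ Submodule.span ℂ
      {M | ∃ ι q, EqI Z D0 ι ∧ EqQ Z D0 q ∧ M = ι * q}

variable {D0 : (ℂ ≃+* ℂ) → Matrix B B ℂ}

/-- Sums of products. -/
theorem Cov.of_sum {G : ℕ} {Z : Matrix (Fin G) (Fin G) ℂ} {I : Type} [Fintype I]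
    (ι : I → Matrix (Fin G ⊕ Fin G) B ℂ) (q : I → Matrix B (Fin G ⊕ Fin G) ℂ)
    (hι : ∀ i, EqI Z D0 (ι i)) (hq : ∀ i, EqQ Z D0 (q i)) (h : ∑ i, ι i * q i = 1) : Cov Z D0 := by
  unfold Cov
  rw [← h]
  exact Submodule.sum_mem _ fun i _ => Submodule.subset_span ⟨ι i, q i, hι i, hq i, rfl⟩

/-- Transport. -/
theorem Cov.map {G a : ℕ} {Z : Matrix (Fin G) (Fin G) ℂ} {Z' : Matrix (Fin a) (Fin a) ℂ}
    {E : Matrix (Fin G ⊕ Fin G) (Fin a ⊕ Fin a) ℂ} {F : Matrix (Fin a ⊕ Fin a) (Fin G ⊕ Fin G) ℂ}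
    (hE : ∀ σ, DS Z σ * E = E * DS Z' σ) (hF : ∀ σ, F * DS Z σ = DS Z' σ * F)
    (h : Cov Z' D0) : E * F ∈ Submodule.span ℂ
      {M | ∃ ι q, EqI Z D0 ι ∧ EqQ Z D0 q ∧ M = ι * q} := by
  let L : Matrix (Fin a ⊕ Fin a) (Fin a ⊕ Fin a) ℂ →ₗ[ℂ]
      Matrix (Fin G ⊕ Fin G) (Fin G ⊕ Fin G) ℂ :=
    { toFun := fun X => E * X * F
      map_add' := fun X Y => by rw [Matrix.mul_add, Matrix.add_mul]
      map_smul' := fun c X => by rw [Matrix.mul_smul, Matrix.smul_mul, RingHom.id_apply] }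
  have h1 : L 1 ∈ (Submodule.span ℂ {M | ∃ ι q, EqI Z' D0 ι ∧ EqQ Z' D0 q ∧ M = ι * q}).map L :=
    ⟨1, h, rfl⟩
  rw [Submodule.map_span] at h1
  have h2 : L 1 = E * F := by
    change E * (1 : Matrix (Fin a ⊕ Fin a) (Fin a ⊕ Fin a) ℂ) * F = E * F
    rw [Matrix.mul_one]
  rw [h2] at h1
  refine Submodule.span_mono ?_ h1
  rintro _ ⟨_, ⟨ι, q, hι, hq, rfl⟩, rfl⟩
  refine ⟨E * ι, q * F, fun σ => ?_, fun σ => ?_, ?_⟩
  · rw [← Matrix.mul_assoc, hE, Matrix.mul_assoc, hι, Matrix.mul_assoc]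
  · rw [Matrix.mul_assoc, hF, ← Matrix.mul_assoc, hq, Matrix.mul_assoc]
  · change E * (ι * q) * F = E * ι * (q * F)
    simp only [Matrix.mul_assoc]

theorem Cov.iso {G a : ℕ} {Z : Matrix (Fin G) (Fin G) ℂ} {Z' : Matrix (Fin a) (Fin a) ℂ}
    {E : Matrix (Fin G ⊕ Fin G) (Fin a ⊕ Fin a) ℂ} {F : Matrix (Fin a ⊕ Fin a) (Fin G ⊕ Fin G) ℂ}
    (hE : ∀ σ, DS Z σ * E = E * DS Z' σ) (hF : ∀ σ, F * DS Z σ = DS Z' σ * F)
    (hEF : E * F = 1) (h : Cov Z' D0) : Cov Z D0 := by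
  have h1 := Cov.map hE hF h
  rwa [hEF] at h1

/-- Coverings of the simple factors. -/
theorem cov_of_fac {G : ℕ} {Z : Matrix (Fin G) (Fin G) ℂ} (h : PM Z)
    (H : ∀ (a : ℕ) (Z' : Matrix (Fin a) (Fin a) ℂ)
      (E : Matrix (Fin G ⊕ Fin G) (Fin a ⊕ Fin a) ℚ) (F : Matrix (Fin a ⊕ Fin a) (Fin G ⊕ Fin G) ℚ),
      Fac Z Z' E F → PM Z' → IsSimpleAV Z' → 0 < a → Cov Z' D0) : Cov Z D0 := by
  obtain ⟨ι, _, _, g, Z', E, F, h1, h2, h3, h4, h5, h6, h7, h8⟩ :=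
    decomposes G G Z le_rfl h.symm h.pos
  have hfac : ∀ i, Fac Z (Z' i) (E i) (F i) := by
    intro i
    refine ⟨h4 i, de_of_JR (h7 i), fd_of_JR ?_⟩
    have h12 : JR Z = ∑ j, JR Z * cK ℝ (E j) * cK ℝ (F j) := by
      have h13 : JR Z = JR Z * cK ℝ (∑ i, E i * F i) := by rw [h6, cK_one, Matrix.mul_one]
      conv_lhs => rw [h13, cK_sum, Matrix.mul_sum]
      refine Finset.sum_congr rfl fun j _ => ?_
      rw [cK_mul, Matrix.mul_assoc]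
    rw [h12, Matrix.mul_sum, Finset.sum_eq_single i]
    · rw [h7 i, ← Matrix.mul_assoc, ← Matrix.mul_assoc, ← cK_mul, h4 i, cK_one, Matrix.one_mul]
    · intro j _ hj
      rw [h7 j, ← Matrix.mul_assoc, ← Matrix.mul_assoc, ← cK_mul, h5 i j hj.symm,
        Pool.Agent.W437.HP.cK_zero, Matrix.zero_mul, Matrix.zero_mul]
    · intro hi'
      exact absurd (Finset.mem_univ i) hi'
  have h9 : (1 : Matrix (Fin G ⊕ Fin G) (Fin G ⊕ Fin G) ℂ) = ∑ i, cK ℂ (E i) * cK ℂ (F i) := by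
    have h10 := congrArg (cK ℂ) h6
    rw [cK_sum, cK_one] at h10
    rw [← h10]
    exact Finset.sum_congr rfl fun i _ => cK_mul ℂ (E i) (F i)
  unfold Cov
  rw [h9]
  refine Submodule.sum_mem _ fun i _ => ?_
  exact Cov.map (hfac i).des (hfac i).fds (H _ _ _ _ (hfac i) ⟨h1 i, h2 i⟩ (h3 i) (h8 i))

/-- Rational homomorphisms of period matrices commute with the conjugates of the complex
structures. -/
theorem conv_DS {G a : ℕ} {Z : Matrix (Fin G) (Fin G) ℂ} {Z' : Matrix (Fin a) (Fin a) ℂ}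
    (h : PM Z) (h' : PM Z') {f : (AVZ h).H →ₗ[ℚ] (AVZ h').H} (hf : IsHom (AVZ h) (AVZ h') f)
    (σ : ℂ ≃+* ℂ) : cK ℂ (LinearMap.toMatrix' f) * DS Z σ = DS Z' σ * cK ℂ (LinearMap.toMatrix' f) := by
  obtain ⟨Ψ, hΨ⟩ := hf
  have h1 := Cht_conv h.cht h'.cht (R := LinearMap.toMatrix' f) Ψ (fun v => by
    have h2 := hΨ v
    rw [LinearMap.toMatrix'_mulVec]
    exact h2)
  have h2 := congrArg (fun M => M.map σ) h1
  simp only [Matrix.map_mul, cK_aut] at h2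
  exact h2

/-- Isogenies transport coverings. -/
theorem Cov.isog {G a : ℕ} {Z : Matrix (Fin G) (Fin G) ℂ} {Z' : Matrix (Fin a) (Fin a) ℂ}
    (h : PM Z) (h' : PM Z') (e : (AVZ h).H ≃ₗ[ℚ] (AVZ h').H)
    (he : IsHom (AVZ h) (AVZ h') e.toLinearMap) (he' : IsHom (AVZ h') (AVZ h) e.symm.toLinearMap)
    (hc : Cov Z' D0) : Cov Z D0 := by
  refine Cov.iso (E := cK ℂ (LinearMap.toMatrix' e.symm.toLinearMap))
    (F := cK ℂ (LinearMap.toMatrix' e.toLinearMap)) (fun σ => (conv_DS h' h he' σ).symm)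
    (fun σ => conv_DS h h' he σ) ?_ hc
  have h1 : LinearMap.toMatrix' (e.symm.toLinearMap.comp e.toLinearMap) =
      (1 : Matrix (Fin G ⊕ Fin G) (Fin G ⊕ Fin G) ℚ) := by
    have h2 : e.symm.toLinearMap.comp e.toLinearMap = LinearMap.id := by
      ext v
      simp
    rw [h2]
    exact LinearMap.toMatrix'_id
  rw [← cK_mul]
  have h3 := LinearMap.toMatrix'_comp e.symm.toLinearMap e.toLinearMap
  rw [h1] at h3
  rw [← h3, cK_one]

/-- The reduction of the main result to models. -/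
theorem cov_all (𝒜 : Sys) (X : AV)
    (hcov : ∀ (a : ℕ) (Z' : Matrix (Fin a) (Fin a) ℂ) (h' : PM Z'), IsFactor (AVZ h') X → Cov Z' D0)
    (hmod : ∀ (G : ℕ) (Z : Matrix (Fin G) (Fin G) ℂ) (h : PM Z), Cov Z D0 →
      ∀ (κ : Type) [Fintype κ] [DecidableEq κ]
        (F : MultilinearMap ℂ (fun _ : κ => Fin G ⊕ Fin G → ℂ) ℂ), (∀ X ∈ LZ Z, KillM X F) →
        F ∈ NA 𝒜 h.cht ⟨_, h.polar⟩ κ) : 𝒜.AllHodge X := by
  classical
  intro κ _ f hf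
  obtain ⟨G, Z, h, A, hC'⟩ := exists_ppav (AV.isAV X)
  have hfacX : ∀ (a : ℕ) (Z' : Matrix (Fin a) (Fin a) ℂ) (h' : PM Z')
      (E : Matrix (Fin G ⊕ Fin G) (Fin a ⊕ Fin a) ℚ) (F : Matrix (Fin a ⊕ Fin a) (Fin G ⊕ Fin G) ℚ),
      Fac Z Z' E F → ∃ i : (AVZ h').H →ₗ[ℚ] X.H, IsHom (AVZ h') X i ∧ Function.Injective i := by
    intro a Z' h' E F hfac
    obtain ⟨Ψ₁, h₁⟩ := h'.cht.hom hC' (R := E) (by rw [DJ_JR, DJ_JR]; exact hfac.de.symm)
    refine ⟨A.symm.toLinearMap.comp (Matrix.mulVecLin E), ⟨Ψ₁, fun v => h₁ v⟩, ?_⟩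
    intro x y hxy
    have h2 : E *ᵥ x = E *ᵥ y := A.symm.injective hxy
    have h3 := congrArg (fun v => F *ᵥ v) h2
    beta_reduce at h3
    rw [mulVec_mulVec, mulVec_mulVec, hfac.fe, one_mulVec, one_mulVec] at h3
    exact h3
  have hc : Cov Z D0 := cov_of_fac h fun a Z' E F hfac h' hsim ha =>
    hcov a Z' h' ⟨simple_of a h' hsim ha, hfacX a Z' h' E F hfac⟩
  obtain ⟨Ψ₁, h₁⟩ := h.cht.hom hC' (R := 1) (by rw [cK_one, Matrix.one_mul, Matrix.mul_one])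
  obtain ⟨Ψ₂, h₂⟩ := hC'.hom h.cht (R := 1) (by rw [cK_one, Matrix.one_mul, Matrix.mul_one])
  have e₁ : ∀ w, Ψ₁ (perOne Z w) = X.per (A.symm w) := fun w => by
    rw [h₁, one_mulVec]
    rfl
  have e₂ : ∀ v, Ψ₂ (X.per v) = perOne Z (A v) := fun v => by
    have h3 := h₂ (A v)
    have h4 : (X.per.comp A.symm.toLinearMap.toAddMonoidHom) (A v) = X.per v := by
      change X.per (A.symm (A v)) = X.per v
      rw [LinearEquiv.symm_apply_apply]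
    rwa [h4, one_mulVec] at h3
  have h5 : IsHodge (perOne Z) (f.compLinearMap A.symm.toLinearMap) :=
    isHodge_comp A.symm.toLinearMap Ψ₁ e₁ hf
  have _ : Fintype κ := Fintype.ofFinite κ
  have h6 : 𝒜.A (AVZ h) κ (f.compLinearMap A.symm.toLinearMap) := by
    refine altQ_altA 𝒜 h _ ?_
    exact hmod G Z h hc κ _ (fun Y hY => hodge_kill h h5 hY) _ _
  have h7 := 𝒜.pull (X := X) (Y := AVZ h) A.toLinearMap ⟨Ψ₂, e₂⟩ _ h6
  have h8 : (f.compLinearMap A.symm.toLinearMap).compLinearMap A.toLinearMap = f := by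
    ext v
    rw [AlternatingMap.compLinearMap_apply, AlternatingMap.compLinearMap_apply]
    congr 1
    funext k
    exact A.symm_apply_apply (v k)
  have h9 : 𝒜.A X κ ((f.compLinearMap A.symm.toLinearMap).compLinearMap A.toLinearMap) := h7
  rwa [h8] at h9

end

end Pool.Agent.N995
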