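import Mathlib
import Pool.Agent.N995.Cov
import Pool.Agent.N995.Fin

/-!
# Coverings by the blocks of the models
-/

set_option linter.unusedSectionVars false

namespace Pool.Agent.N995

open Matrix Module Pool.Agent.W437.HC Pool.Agent.W437.HD Pool.Agent.TH504.CB Pool.Agent.Y90
open Pool.Agent.R915
open Pool.Agent.W548.Odd hiding cv

noncomputable section

/-- Coverings by blocks. -/
theorem Cov.sel {B : Type} [Fintype B] [DecidableEq B] {D0 : (ℂ ≃+* ℂ) → Matrix B B ℂ}
    {G : ℕ} {Z : Matrix (Fin G) (Fin G) ℂ} {I C : Type} [Fintype I] [Fintype C] [DecidableEq C]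
    (S : I → Matrix C B ℂ) (S' : I → Matrix B C ℂ) (hSS : ∀ i, S i * S' i = 1)
    (M : I → (ℂ ≃+* ℂ) → Matrix C C ℂ) (h1 : ∀ i σ, S i * D0 σ = M i σ * S i)
    (h2 : ∀ i σ, D0 σ * S' i = S' i * M i σ)
    (P : I → Matrix (Fin G ⊕ Fin G) C ℂ) (P' : I → Matrix C (Fin G ⊕ Fin G) ℂ)
    (hP : ∀ i σ, DS Z σ * P i = P i * M i σ) (hP' : ∀ i σ, P' i * DS Z σ = M i σ * P' i)
    (hs : ∑ i, P i * P' i = 1) : Cov Z D0 := by
  refine Cov.of_sum (fun i => P i * S i) (fun i => S' i * P' i) (fun i σ => ?_) (fun i σ => ?_) ?_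
  · rw [← Matrix.mul_assoc, hP, Matrix.mul_assoc, Matrix.mul_assoc, h1]
  · rw [Matrix.mul_assoc, hP', ← Matrix.mul_assoc, ← Matrix.mul_assoc, h2]
  · rw [← hs]
    refine Finset.sum_congr rfl fun i _ => ?_
    calc P i * S i * (S' i * P' i) = P i * (S i * S' i) * P' i := by simp only [Matrix.mul_assoc]
    _ = P i * P' i := by rw [hSS, Matrix.mul_one]

variable {O P Λ : Type} [Fintype O] [DecidableEq O] [Fintype P] [DecidableEq P] [Fintype Λ]
  [DecidableEq Λ] (kO : (Fin 3 → M2) →ₗ[ℂ] Matrix O O ℂ) (cl : P → Fin 3)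
  (x : (Fin 3 → M2) × (P ⊕ Λ → ℂ))

theorem Th_oo (a b : O) : Th kO cl x (Sum.inl a) (Sum.inl b) = kO x.1 a b := rfl

theorem Th_pp (p q : P) (a b : Fin 2) : Th kO cl x (ip p a) (ip q b) =
    if p = q then x.1 (cl q) a b + (if a = b then x.2 (Sum.inl q) else 0) else 0 := rfl

theorem Th_ll (i j : Λ) : Th kO cl x (il i) (il j) = if i = j then x.2 (Sum.inr i) else 0 := rfl

variable (O Λ) in
/-- The coordinates of a label. -/
def slP (p : P) : Matrix (Fin 2) (BB O P Λ) ℂ := Matrix.of fun a y => if y = ip p a then 1 else 0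

variable (O Λ) in
/-- The coordinates of a label. -/
def slP' (p : P) : Matrix (BB O P Λ) (Fin 2) ℂ := Matrix.of fun y a => if y = ip p a then 1 else 0

theorem slP_mul {C : Type} (p : P) (A : Matrix (BB O P Λ) C ℂ) (a : Fin 2) (y : C) :
    (slP O Λ p * A : Matrix (Fin 2) C ℂ) a y = A (ip p a) y := by
  rw [Matrix.mul_apply, Finset.sum_eq_single (ip p a)]
  · simp [slP]
  · intro b _ hb
    simp only [slP, of_apply, if_neg hb, zero_mul]
  · intro h
    exact absurd (Finset.mem_univ _) h

theorem mul_slP' {C : Type} (p : P) (A : Matrix C (BB O P Λ) ℂ) (a : Fin 2) (y : C) :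
    (A * slP' O Λ p : Matrix C (Fin 2) ℂ) y a = A y (ip p a) := by
  rw [Matrix.mul_apply, Finset.sum_eq_single (ip p a)]
  · simp [slP']
  · intro b _ hb
    simp only [slP', of_apply, if_neg hb, mul_zero]
  · intro h
    exact absurd (Finset.mem_univ _) h

theorem slP_one (p : P) : slP O Λ p * slP' O Λ p = (1 : M2) := by
  ext a b
  rw [slP_mul]
  simp only [slP', of_apply, Matrix.one_apply, Sum.inr.injEq, Sum.inl.injEq, Prod.mk.injEq,
    true_and]

theorem slP_Th (p : P) :
    slP O Λ p * Th kO cl x = (x.1 (cl p) + x.2 (Sum.inl p) • (1 : M2)) * slP O Λ p := by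
  ext a y
  rw [slP_mul, Matrix.mul_apply, Fin.sum_univ_two]
  simp only [Matrix.add_apply, Matrix.smul_apply, smul_eq_mul, slP, of_apply, Matrix.one_apply]
  rcases y with y | ⟨q, b⟩ | y
  · simp [Th_apply]
  · have h1 : Th kO cl x (ip p a) (Sum.inr (Sum.inl (q, b))) =
      if p = q then x.1 (cl q) a b + (if a = b then x.2 (Sum.inl q) else 0) else 0 :=
      Th_pp kO cl x p q a b
    rw [h1]
    simp only [Sum.inr.injEq, Sum.inl.injEq, Prod.mk.injEq]
    by_cases hpq : p = q
    · subst hpq
      fin_cases a <;> fin_cases b <;> simp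
    · have hqp : ¬q = p := fun h => hpq h.symm
      simp [hpq, hqp]
  · simp [Th_apply]

theorem Th_slP (p : P) :
    Th kO cl x * slP' O Λ p = slP' O Λ p * (x.1 (cl p) + x.2 (Sum.inl p) • (1 : M2)) := by
  ext y a
  rw [mul_slP', Matrix.mul_apply, Fin.sum_univ_two]
  simp only [Matrix.add_apply, Matrix.smul_apply, smul_eq_mul, slP', of_apply, Matrix.one_apply]
  rcases y with y | ⟨q, b⟩ | y
  · simp [Th_apply]
  · have h1 : Th kO cl x (Sum.inr (Sum.inl (q, b))) (ip p a) =
      if q = p then x.1 (cl p) b a + (if b = a then x.2 (Sum.inl p) else 0) else 0 :=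
      Th_pp kO cl x q p b a
    rw [h1]
    simp only [Sum.inr.injEq, Sum.inl.injEq, Prod.mk.injEq]
    by_cases hpq : q = p
    · subst hpq
      fin_cases a <;> fin_cases b <;> simp
    · simp [hpq]
  · simp [Th_apply]

variable (O P) in
/-- The coordinates of a line. -/
def slL (i : Λ) : Matrix Unit (BB O P Λ) ℂ := Matrix.of fun _ y => if y = il i then 1 else 0

variable (O P) in
/-- The coordinates of a line. -/
def slL' (i : Λ) : Matrix (BB O P Λ) Unit ℂ := Matrix.of fun y _ => if y = il i then 1 else 0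

theorem slL_mul {C : Type} (i : Λ) (A : Matrix (BB O P Λ) C ℂ) (a : Unit) (y : C) :
    (slL O P i * A : Matrix Unit C ℂ) a y = A (il i) y := by
  rw [Matrix.mul_apply, Finset.sum_eq_single (il i)]
  · simp [slL]
  · intro b _ hb
    simp only [slL, of_apply, if_neg hb, zero_mul]
  · intro h
    exact absurd (Finset.mem_univ _) h

theorem mul_slL' {C : Type} (i : Λ) (A : Matrix C (BB O P Λ) ℂ) (a : Unit) (y : C) :
    (A * slL' O P i : Matrix C Unit ℂ) y a = A y (il i) := by
  rw [Matrix.mul_apply, Finset.sum_eq_single (il i)]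
  · simp [slL']
  · intro b _ hb
    simp only [slL', of_apply, if_neg hb, mul_zero]
  · intro h
    exact absurd (Finset.mem_univ _) h

theorem slL_one (i : Λ) : slL O P i * slL' O P i = 1 := by
  ext a b
  rw [slL_mul]
  simp [slL']

theorem slL_Th (i : Λ) :
    slL O P i * Th kO cl x = (x.2 (Sum.inr i) • (1 : Matrix Unit Unit ℂ)) * slL O P i := by
  ext a y
  rw [slL_mul, Matrix.smul_mul, Matrix.one_mul, Matrix.smul_apply, smul_eq_mul]
  rcases y with y | y | j
  · simp [Th_apply, slL]
  · simp [Th_apply, slL]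
  · have h1 : Th kO cl x (il i) (Sum.inr (Sum.inr j)) = if i = j then x.2 (Sum.inr i) else 0 := rfl
    rw [h1]
    simp only [slL, of_apply, Sum.inr.injEq]
    by_cases hij : i = j
    · simp [hij]
    · have hji : ¬j = i := fun h => hij h.symm
      simp [hij, hji]

theorem Th_slL (i : Λ) :
    Th kO cl x * slL' O P i = slL' O P i * (x.2 (Sum.inr i) • (1 : Matrix Unit Unit ℂ)) := by
  ext y a
  rw [mul_slL', Matrix.mul_smul, Matrix.mul_one, Matrix.smul_apply, smul_eq_mul]
  rcases y with y | y | j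
  · simp [Th_apply, slL']
  · simp [Th_apply, slL']
  · have h1 : Th kO cl x (Sum.inr (Sum.inr j)) (il i) = if j = i then x.2 (Sum.inr j) else 0 := rfl
    rw [h1]
    simp only [slL', of_apply, Sum.inr.injEq]
    by_cases hij : j = i
    · simp [hij]
    · simp [hij]

variable (O P Λ) in
/-- The coordinates of the first part. -/
def slO : Matrix O (BB O P Λ) ℂ := Matrix.of fun a y => if y = Sum.inl a then 1 else 0

variable (O P Λ) in
/-- The coordinates of the first part. -/
def slO' : Matrix (BB O P Λ) O ℂ := Matrix.of fun y a => if y = Sum.inl a then 1 else 0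

theorem slO_mul {C : Type} (A : Matrix (BB O P Λ) C ℂ) (a : O) (y : C) :
    (slO O P Λ * A : Matrix O C ℂ) a y = A (Sum.inl a) y := by
  rw [Matrix.mul_apply, Finset.sum_eq_single (Sum.inl a)]
  · simp [slO]
  · intro b _ hb
    simp only [slO, of_apply, if_neg hb, zero_mul]
  · intro h
    exact absurd (Finset.mem_univ _) h

theorem mul_slO' {C : Type} (A : Matrix C (BB O P Λ) ℂ) (a : O) (y : C) :
    (A * slO' O P Λ : Matrix C O ℂ) y a = A y (Sum.inl a) := by
  rw [Matrix.mul_apply, Finset.sum_eq_single (Sum.inl a)]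
  · simp [slO']
  · intro b _ hb
    simp only [slO', of_apply, if_neg hb, mul_zero]
  · intro h
    exact absurd (Finset.mem_univ _) h

theorem slO_one : slO O P Λ * slO' O P Λ = 1 := by
  ext a b
  rw [slO_mul]
  simp only [slO', of_apply, Matrix.one_apply, Sum.inl.injEq]

theorem slO_Th : slO O P Λ * Th kO cl x = kO x.1 * slO O P Λ := by
  ext a y
  rw [slO_mul, Matrix.mul_apply]
  rcases y with y | y
  · rw [Finset.sum_eq_single y]
    · simp [Th_apply, slO]
    · intro b _ hb
      simp only [slO, of_apply, Sum.inl.injEq, if_neg (Ne.symm hb), mul_zero]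
    · intro h
      exact absurd (Finset.mem_univ _) h
  · rw [Finset.sum_eq_zero]
    · simp [Th_apply]
    · intro b _
      simp [slO]

theorem Th_slO : Th kO cl x * slO' O P Λ = slO' O P Λ * kO x.1 := by
  ext y a
  rw [mul_slO', Matrix.mul_apply]
  rcases y with y | y
  · rw [Finset.sum_eq_single y]
    · simp [Th_apply, slO']
    · intro b _ hb
      simp only [slO', of_apply, Sum.inl.injEq, if_neg (Ne.symm hb), zero_mul]
    · intro h
      exact absurd (Finset.mem_univ _) h
  · rw [Finset.sum_eq_zero]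
    · simp [Th_apply]
    · intro b _
      simp [slO']

end

end Pool.Agent.N995
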