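import Mathlib
import Pool.Agent.N995.Gam4
import Pool.Agent.N995.Ell
import Pool.Agent.N995.Sel

/-!
# Powers of the fourfolds and of products with elliptic curves
-/

set_option linter.unusedSectionVars false

namespace Pool.Agent.N995

open Matrix Module Pool.Agent.W437.HC Pool.Agent.W437.HD Pool.Agent.TH504.CB Pool.Agent.Y90
open Pool.Agent.R915
open Pool.Agent.W548.Odd hiding cv
open Pool.Agent.W437.HP (cK cK_mul cK_one cK_sum)

noncomputable section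

/-- The operators for the first case. -/
def dG1 (τ : Fin 2 → (ℂ ≃+* ℂ) → M2) (ε : Fin 2 → (ℂ ≃+* ℂ) → ℤ) (τE : (ℂ ≃+* ℂ) → M2)
    (σ : ℂ ≃+* ℂ) : (Fin 3 → M2) × (((Fin 2 × Bool) ⊕ Unit) ⊕ Empty → ℂ) :=
  (![τ 0 σ, τ 1 σ, τE σ],
    Sum.elim (Sum.elim (fun x => ((sg x.2 * ε x.1 σ : ℤ) : ℂ)) fun _ => 0) fun i => i.elim)

/-- The operators for the second case. -/
def dG2 (τ : Fin 2 → (ℂ ≃+* ℂ) → M2) (ε : Fin 2 → (ℂ ≃+* ℂ) → ℤ) (dE : ℚ)
    (σ : ℂ ≃+* ℂ) : (Fin 3 → M2) × (((Fin 2 × Bool) ⊕ Empty) ⊕ Bool → ℂ) :=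
  (![τ 0 σ, τ 1 σ, 0],
    Sum.elim (Sum.elim (fun x => ((sg x.2 * ε x.1 σ : ℤ) : ℂ)) fun i => i.elim)
      fun i => ((sg i * rho dE σ : ℤ) : ℂ))

theorem cons_cast (T0 T1 T2 : M2) (c : Fin 2) :
    (![T0, T1, T2] : Fin 3 → M2) c.castSucc = (![T0, T1] : Fin 2 → M2) c := by
  fin_cases c <;> rfl

variable {Z : Matrix (Fin 4) (Fin 4) ℂ} {X : Fin 2 × Bool → Matrix (Fin 4 ⊕ Fin 4) (Fin 2) ℂ}
  {τ : Fin 2 → (ℂ ≃+* ℂ) → M2} {ε : Fin 2 → (ℂ ≃+* ℂ) → ℤ}

theorem aop_eq (σ : ℂ ≃+* ℂ) (T2 : M2) (p : Fin 2 × Bool) :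
    (![τ 0 σ, τ 1 σ, T2] : Fin 3 → M2) p.1.castSucc + ((sg p.2 * ε p.1 σ : ℤ) : ℂ) • (1 : M2) =
      aop τ ε σ p := by
  rw [cons_cast]
  unfold aop
  congr 1
  obtain ⟨c, s⟩ := p
  fin_cases c <;> rfl

/-- The coordinates of the pieces. -/
def pin (X : Fin 2 × Bool → Matrix (Fin 4 ⊕ Fin 4) (Fin 2) ℂ) (p : Fin 2 × Bool) :
    Matrix (Fin 2) (Fin 4 ⊕ Fin 4) ℂ := Matrix.of fun a v => pinv X (p, a) v

theorem Gm0.pin_sum (k : Gm0 Z X τ ε) : ∑ p, X p * pin X p = 1 := by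
  rw [← k.inv]
  ext i j
  rw [Matrix.sum_apply, Matrix.mul_apply]
  exact (Fintype.sum_prod_type (fun y : C8 => pmx X i y * pinv X y j)).symm

theorem Gm0.pin_mul (k : Gm0 Z X τ ε) (p : Fin 2 × Bool) (σ : ℂ ≃+* ℂ) :
    pin X p * DS Z σ = aop τ ε σ p * pin X p := by
  have h1 : pinv X * DS Z σ = amx (aop τ ε σ) * pinv X := by
    calc pinv X * DS Z σ = pinv X * (DS Z σ * (pmx X * pinv X)) := by rw [k.inv, Matrix.mul_one]
    _ = pinv X * (DS Z σ * pmx X) * pinv X := by simp only [Matrix.mul_assoc]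
    _ = (pinv X * pmx X) * amx (aop τ ε σ) * pinv X := by
        rw [k.act]
        simp only [Matrix.mul_assoc]
    _ = _ := by rw [k.inv', Matrix.one_mul]
  ext a j
  have h2 := congrFun (congrFun h1 (p, a)) j
  have h3 : (pin X p * DS Z σ) a j = (pinv X * DS Z σ) (p, a) j := rfl
  rw [h3, h2, Matrix.mul_apply, Matrix.mul_apply, Fintype.sum_prod_type, Finset.sum_eq_single p]
  · refine Finset.sum_congr rfl fun b _ => ?_
    simp [amx, pin]
  · intro q _ hq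
    refine Finset.sum_eq_zero fun b _ => ?_
    simp [amx, Ne.symm hq]
  · intro h
    exact absurd (Finset.mem_univ _) h

section one

variable (τE : (ℂ ≃+* ℂ) → M2)

/-- The first model covers the fourfold. -/
theorem Gm0.cov1 (k : Gm0 Z X τ ε) :
    Cov Z (fun σ => Th (0 : (Fin 3 → M2) →ₗ[ℂ] Matrix Empty Empty ℂ)
      (clc (PE := Unit) (id : Fin 2 × Bool → Fin 2 × Bool)) (dG1 τ ε τE σ)) :=
  Cov.sel (fun p : Fin 2 × Bool => slP Empty Empty (Sum.inl p))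
    (fun p => slP' Empty Empty (Sum.inl p)) (fun p => slP_one _) (fun p σ => aop τ ε σ p)
    (fun p σ => by
      rw [slP_Th]
      congr 1
      exact aop_eq σ _ p)
    (fun p σ => by
      rw [Th_slP]
      congr 1
      exact aop_eq σ _ p)
    X (pin X) (fun p σ => k.ax σ p) (fun p σ => k.pin_mul p σ) k.pin_sum

/-- The second model covers the fourfold. -/
theorem Gm0.cov2 (k : Gm0 Z X τ ε) (dE : ℚ) :
    Cov Z (fun σ => Th (0 : (Fin 3 → M2) →ₗ[ℂ] Matrix Empty Empty ℂ)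
      (clc (PE := Empty) (id : Fin 2 × Bool → Fin 2 × Bool)) (dG2 τ ε dE σ)) :=
  Cov.sel (fun p : Fin 2 × Bool => slP Empty Bool (Sum.inl p))
    (fun p => slP' Empty Bool (Sum.inl p)) (fun p => slP_one _) (fun p σ => aop τ ε σ p)
    (fun p σ => by
      rw [slP_Th]
      congr 1
      exact aop_eq σ _ p)
    (fun p σ => by
      rw [Th_slP]
      congr 1
      exact aop_eq σ _ p)
    X (pin X) (fun p σ => k.ax σ p) (fun p σ => k.pin_mul p σ) k.pin_sum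

end one

section ell

variable {ZE : Matrix (Fin 1) (Fin 1) ℂ} {x : Matrix (Fin 1 ⊕ Fin 1) (Fin 2) ℂ}
  {x' : Matrix (Fin 2) (Fin 1 ⊕ Fin 1) ℂ} {τE : (ℂ ≃+* ℂ) → M2}

theorem EB.ax' (k : EB ZE x x' τE) (σ : ℂ ≃+* ℂ) : x' * DS ZE σ = τE σ * x' := by
  calc x' * DS ZE σ = x' * (DS ZE σ * (x * x')) := by rw [k.xx, Matrix.mul_one]
  _ = x' * (DS ZE σ * x) * x' := by simp only [Matrix.mul_assoc]
  _ = (x' * x) * τE σ * x' := by
      rw [k.ax]
      simp only [Matrix.mul_assoc]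
  _ = _ := by rw [k.xx', Matrix.one_mul]

/-- The first model covers the elliptic curve. -/
theorem EB.cov1 (k : EB ZE x x' τE) (τ : Fin 2 → (ℂ ≃+* ℂ) → M2) (ε : Fin 2 → (ℂ ≃+* ℂ) → ℤ) :
    Cov ZE (fun σ => Th (0 : (Fin 3 → M2) →ₗ[ℂ] Matrix Empty Empty ℂ)
      (clc (PE := Unit) (id : Fin 2 × Bool → Fin 2 × Bool)) (dG1 τ ε τE σ)) :=
  Cov.sel (fun p : Unit => slP Empty Empty (Sum.inr p))
    (fun p => slP' Empty Empty (Sum.inr p)) (fun p => slP_one _) (fun _ σ => τE σ)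
    (fun p σ => by
      rw [slP_Th]
      congr 1
      change τE σ + (0 : ℂ) • (1 : M2) = τE σ
      rw [zero_smul, add_zero])
    (fun p σ => by
      rw [Th_slP]
      congr 1
      change τE σ + (0 : ℂ) • (1 : M2) = τE σ
      rw [zero_smul, add_zero])
    (fun _ => x) (fun _ => x') (fun _ σ => k.ax σ) (fun _ σ => k.ax' σ) (by
      rw [Finset.univ_unique, Finset.sum_singleton]
      exact k.xx)

/-- The index of a line. -/
def bi (i : Bool) : Fin 2 := if i then 0 else 1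

theorem hh_bi (i : Bool) (b : Fin 2) : hh (bi i) b = if b = bi i then (sg i : ℂ) else 0 := by
  cases i <;> fin_cases b <;> simp [hh, bi, sg]

theorem hh_bi' (i : Bool) (b : Fin 2) : hh b (bi i) = if b = bi i then (sg i : ℂ) else 0 := by
  cases i <;> fin_cases b <;> simp [hh, bi, sg]

/-- The second model covers the elliptic curve. -/
theorem EB.cov2 (k : EB ZE x x' τE) {dE : ℚ} (hE : ∀ σ, τE σ = (rho dE σ : ℂ) • hh)
    (τ : Fin 2 → (ℂ ≃+* ℂ) → M2) (ε : Fin 2 → (ℂ ≃+* ℂ) → ℤ) :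
    Cov ZE (fun σ => Th (0 : (Fin 3 → M2) →ₗ[ℂ] Matrix Empty Empty ℂ)
      (clc (PE := Empty) (id : Fin 2 × Bool → Fin 2 × Bool)) (dG2 τ ε dE σ)) :=
  Cov.sel (fun i : Bool => slL Empty _ i)
    (fun i => slL' Empty _ i) (fun i => slL_one _)
    (fun i σ => ((sg i * rho dE σ : ℤ) : ℂ) • (1 : Matrix Unit Unit ℂ))
    (fun i σ => by
      rw [slL_Th]
      rfl)
    (fun i σ => by
      rw [Th_slL]
      rfl)
    (fun i => Matrix.of fun v _ => x v (bi i)) (fun i => Matrix.of fun _ v => x' (bi i) v)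
    (fun i σ => by
      ext v u
      have h1 := congrFun (congrFun (k.ax σ) v) (bi i)
      rw [Matrix.mul_smul, Matrix.mul_one, Matrix.smul_apply, smul_eq_mul, of_apply]
      have h2 : (DS ZE σ * Matrix.of fun v (_ : Unit) => x v (bi i)) v u = (DS ZE σ * x) v (bi i) :=
        rfl
      rw [h2, h1, hE, Matrix.mul_smul, Matrix.smul_apply, smul_eq_mul, Matrix.mul_apply]
      simp only [hh_bi']
      push_cast
      simp only [mul_ite, mul_zero, Finset.sum_ite_eq', Finset.mem_univ, if_true]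
      ring)
    (fun i σ => by
      ext u v
      have h1 := congrFun (congrFun (k.ax' σ) (bi i)) v
      rw [Matrix.smul_mul, Matrix.one_mul, Matrix.smul_apply, smul_eq_mul, of_apply]
      have h2 : ((Matrix.of fun (_ : Unit) v => x' (bi i) v) * DS ZE σ) u v =
        (x' * DS ZE σ) (bi i) v := rfl
      rw [h2, h1, hE, Matrix.smul_mul, Matrix.smul_apply, smul_eq_mul, Matrix.mul_apply]
      simp only [hh_bi]
      push_cast
      simp only [ite_mul, zero_mul, Finset.sum_ite_eq', Finset.mem_univ, if_true]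
      ring)
    (by
      rw [← k.xx]
      ext a b
      rw [Matrix.sum_apply, Matrix.mul_apply, Fintype.sum_bool, Fin.sum_univ_two, Matrix.mul_apply,
        Matrix.mul_apply]
      simp [bi])

end ell

/-- The rows of the first label. -/
def rwP {G : ℕ} {O P Λ : Type} (q : Matrix (BB O P Λ) (Fin G ⊕ Fin G) ℂ) (p : P) :
    Matrix (Fin 2) (Fin G ⊕ Fin G) ℂ := Matrix.of fun a v => q (ip p a) v

theorem rwP_eq {G : ℕ} {O P Λ : Type} [Fintype O] [DecidableEq O] [Fintype P] [DecidableEq P]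
    [Fintype Λ] [DecidableEq Λ] (q : Matrix (BB O P Λ) (Fin G ⊕ Fin G) ℂ) (p : P) :
    rwP q p = slP O Λ p * q := by
  ext a v
  rw [slP_mul]
  rfl

theorem rwP_mul {G : ℕ} {Z' : Matrix (Fin G) (Fin G) ℂ} {O P Λ : Type} [Fintype O] [DecidableEq O]
    [Fintype P] [DecidableEq P] [Fintype Λ] [DecidableEq Λ]
    {kO : (Fin 3 → M2) →ₗ[ℂ] Matrix O O ℂ} {cl : P → Fin 3}
    {d : (ℂ ≃+* ℂ) → (Fin 3 → M2) × (P ⊕ Λ → ℂ)} {q : Matrix (BB O P Λ) (Fin G ⊕ Fin G) ℂ}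
    (hq : EqQ Z' (fun σ => Th kO cl (d σ)) q) (p : P) (σ : ℂ ≃+* ℂ) :
    rwP q p * DS Z' σ = ((d σ).1 (cl p) + (d σ).2 (Sum.inl p) • (1 : M2)) * rwP q p := by
  rw [rwP_eq, Matrix.mul_assoc, hq σ, ← Matrix.mul_assoc, slP_Th, Matrix.mul_assoc]

theorem row_mul {G : ℕ} {Z' : Matrix (Fin G) (Fin G) ℂ} {O P Λ : Type} [Fintype O] [DecidableEq O]
    [Fintype P] [DecidableEq P] [Fintype Λ] [DecidableEq Λ]
    {kO : (Fin 3 → M2) →ₗ[ℂ] Matrix O O ℂ} {cl : P → Fin 3}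
    {d : (ℂ ≃+* ℂ) → (Fin 3 → M2) × (P ⊕ Λ → ℂ)} {q : Matrix (BB O P Λ) (Fin G ⊕ Fin G) ℂ}
    (hq : EqQ Z' (fun σ => Th kO cl (d σ)) q) (i : Λ) (σ : ℂ ≃+* ℂ) :
    q (il i) ᵥ* DS Z' σ = (d σ).2 (Sum.inr i) • q (il i) := by
  have h1 : slL O P i * q = Matrix.of fun _ v => q (il i) v := by
    ext a v
    rw [slL_mul]
    rfl
  have h2 : (slL O P i * q) * DS Z' σ = (d σ).2 (Sum.inr i) • (slL O P i * q) := by
    rw [Matrix.mul_assoc, hq σ, ← Matrix.mul_assoc, slL_Th, Matrix.mul_assoc, Matrix.smul_mul,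
      Matrix.one_mul]
  rw [h1] at h2
  funext v
  exact congrFun (congrFun h2 ()) v

end

end Pool.Agent.N995
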