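import Mathlib
import Pool.Agent.N995.Gam5

/-!
# Killed forms for the fourfolds and elliptic curves
-/

set_option linter.unusedSectionVars false

namespace Pool.Agent.N995

open Matrix Module Pool.Agent.W437.HC Pool.Agent.W437.HD Pool.Agent.TH504.CB Pool.Agent.Y90
open Pool.Agent.R915
open Pool.Agent.W548.Odd hiding cv
open Pool.Agent.W437.HP (cK cK_mul cK_one cK_sum)
open Pool.Agent.H204R3.SP (bil2 bil2_apply)

noncomputable section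

variable {Z : Matrix (Fin 4) (Fin 4) ℂ} {X : Fin 2 × Bool → Matrix (Fin 4 ⊕ Fin 4) (Fin 2) ℂ}
  {τ : Fin 2 → (ℂ ≃+* ℂ) → M2} {ε : Fin 2 → (ℂ ≃+* ℂ) → ℤ}

theorem Gm.zero01 (k : Gm Z X τ ε) (σ : ℂ ≃+* ℂ) : τ 0 σ = 0 ∨ τ 1 σ = 0 := by
  rcases k.one σ with ⟨-, h1⟩ | ⟨h1, -⟩
  · exact Or.inr (k.tau h1).1
  · exact Or.inl (k.tau h1).1

theorem Gm.s1 (k : Gm Z X τ ε) : ∃ s, ε 0 s = 0 ∧ (ε 1 s = 1 ∨ ε 1 s = -1) := by
  obtain ⟨s, hs⟩ := k.exists_ne 1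
  refine ⟨s, ?_, (k.tau hs).2⟩
  rcases k.one s with ⟨h1, -⟩ | ⟨-, h1⟩
  · exact h1
  · exact absurd h1 hs

theorem Gm.s0 (k : Gm Z X τ ε) : ε 0 (RingEquiv.refl ℂ) = 1 ∧ ε 1 (RingEquiv.refl ℂ) = 0 := by
  refine ⟨k.e0, ?_⟩
  rcases k.one (RingEquiv.refl ℂ) with ⟨h1, -⟩ | ⟨-, h1⟩
  · rw [k.e0] at h1
    exact absurd h1 one_ne_zero
  · exact h1

theorem clc_l (x : Fin 2 × Bool) {PE : Type} :
    clc (PE := PE) (id : Fin 2 × Bool → Fin 2 × Bool) (Sum.inl x) = x.1.castSucc := rfl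

/-- The first case. -/
theorem Gm.mod1 (k : Gm Z X τ ε) {ZE : Matrix (Fin 1) (Fin 1) ℂ}
    {x : Matrix (Fin 1 ⊕ Fin 1) (Fin 2) ℂ} {x' : Matrix (Fin 2) (Fin 1 ⊕ Fin 1) ℂ}
    {τE : (ℂ ≃+* ℂ) → M2} (kE : EB ZE x x' τE)
    (hE : (∃ σ, τE σ 1 0 ≠ 0) ∧ ∃ σ, τE σ 0 1 ≠ 0) (𝒜 : Sys) (G : ℕ)
    (Z' : Matrix (Fin G) (Fin G) ℂ) (h' : PM Z')
    (hcov : Cov Z' (fun σ => Th (0 : (Fin 3 → M2) →ₗ[ℂ] Matrix Empty Empty ℂ)
      (clc (PE := Unit) (id : Fin 2 × Bool → Fin 2 × Bool)) (dG1 τ ε τE σ)))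
    (κ : Type) [Fintype κ] [DecidableEq κ]
    (F : MultilinearMap ℂ (fun _ : κ => Fin G ⊕ Fin G → ℂ) ℂ) (hF : ∀ X ∈ LZ Z', KillM X F) :
    F ∈ NA 𝒜 h'.cht ⟨_, h'.polar⟩ κ := by
  have hf2 : Full (dG1 τ ε τE) 2 := by
    refine ⟨⟨RingEquiv.refl ℂ, ?_⟩, ?_, ?_⟩
    · exact kE.one
    · exact hE.1
    · exact hE.2
  have hn2 : ∀ s, (dG1 τ ε τE s).1 2 ≠ 0 := by
    intro s h0
    have h1 : τE s = 0 := h0
    have h2 := kE.sq s
    rw [h1, Matrix.mul_zero] at h2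
    exact zero_ne_one h2
  refine model_final (O := Empty) (PE := Unit) (Λ := Empty) 𝒜 h'
    (0 : (Fin 3 → M2) →ₗ[ℂ] Matrix Empty Empty ℂ) (id : Fin 2 × Bool → Fin 2 × Bool)
    Function.injective_id (fun i => i.elim) (fun i => i.elim) ?_ (dG1 τ ε τE) ?_ k.zero01
    (k.full 0) (k.full 1) (Or.inr ⟨hf2, hn2⟩) (Or.inl hf2) (fun c => Or.inl fun T => rfl) 0 0
    (fun a => a.elim) (Subsingleton.elim _ _) (fun u => u.elim) (fun T _ => Subsingleton.elim _ _)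
    (S := ℂ ≃+* ℂ) id Function.surjective_id (fun c s => (![ε 0 s, ε 1 s, 1] : Fin 3 → ℤ) c)
    ?_ ?_ (fun s i => i.elim) ?_ ?_ ?_ (fun _ _ i => i.elim) hcov F hF
  · intro T T'
    exact Subsingleton.elim _ _
  · intro s c
    fin_cases c
    · exact (k.pc 0).tr s
    · exact (k.pc 1).tr s
    · exact kE.tr s
  · rintro s ⟨c, b⟩
    fin_cases c <;> rfl
  · intro s y
    rfl
  · exact ⟨RingEquiv.refl ℂ, Or.inl k.s0.1, k.s0.2, Or.inl rfl⟩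
  · obtain ⟨s, h1, h2⟩ := k.s1
    exact ⟨s, h1, h2, Or.inl rfl⟩
  · exact (clo_NB 𝒜 h' _).unit Empty _

/-- The second case. -/
theorem Gm.mod2 (k : Gm Z X τ ε) (h : PM Z) {dE : ℚ} (hdE : 0 < dE) (𝒜 : Sys) (G : ℕ)
    (Z' : Matrix (Fin G) (Fin G) ℂ) (h' : PM Z')
    (hcov : Cov Z' (fun σ => Th (0 : (Fin 3 → M2) →ₗ[ℂ] Matrix Empty Empty ℂ)
      (clc (PE := Empty) (id : Fin 2 × Bool → Fin 2 × Bool)) (dG2 τ ε dE σ)))
    (κ : Type) [Fintype κ] [DecidableEq κ]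
    (F : MultilinearMap ℂ (fun _ : κ => Fin G ⊕ Fin G → ℂ) ℂ) (hF : ∀ X ∈ LZ Z', KillM X F) :
    F ∈ NA 𝒜 h'.cht ⟨_, h'.polar⟩ κ := by
  refine model_final (O := Empty) (PE := Empty) (Λ := Bool) 𝒜 h'
    (0 : (Fin 3 → M2) →ₗ[ℂ] Matrix Empty Empty ℂ) (id : Fin 2 × Bool → Fin 2 × Bool)
    Function.injective_id id Function.injective_id ?_ (dG2 τ ε dE) ?_ k.zero01
    (k.full 0) (k.full 1) (Or.inl fun s => rfl) (Or.inr ?_) (fun c => Or.inl fun T => rfl) 0 0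
    (fun a => a.elim) (Subsingleton.elim _ _) (fun u => u.elim) (fun T _ => Subsingleton.elim _ _)
    (S := ℂ ≃+* ℂ) id Function.surjective_id (fun c s => (![ε 0 s, ε 1 s, rho dE s] : Fin 3 → ℤ) c)
    ?_ ?_ ?_ ?_ ?_ ?_ ?_ hcov F hF
  · intro T T'
    exact Subsingleton.elim _ _
  · intro s c
    fin_cases c
    · exact (k.pc 0).tr s
    · exact (k.pc 1).tr s
    · exact trace_zero _ _
  · rintro (⟨c, b⟩ | p)
    · rw [clc_l]
      exact (Fin.castSucc_lt_last c).ne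
    · exact p.elim
  · rintro s ⟨c, b⟩
    fin_cases c <;> rfl
  · intro s y
    exact y.elim
  · intro s i
    rfl
  · exact ⟨RingEquiv.refl ℂ, Or.inl k.s0.1, k.s0.2, rho_pm dE _⟩
  · obtain ⟨s, h1, h2⟩ := k.s1
    exact ⟨s, h1, h2, rho_pm dE _⟩
  · exact (clo_NB 𝒜 h' _).unit Empty _
  · intro x0 x1 i b0 b1 hx0 hx1 hrel j hj
    have hj' : j = i := hj
    subst hj'
    have hx0' : x0 = (0, b0) := hx0
    have hx1' : x1 = (1, b1) := hx1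
    subst hx0'
    subst hx1'
    intro q hq
    refine k.form_mem h ![b0, b1] hdE (s := sg j) (by cases j <;> simp [sg])
      (fun σ => hrel σ) 𝒜 h'
      (fun y => rwP (q (Sum.inl y)) (Sum.inl (lbp ![b0, b1] y))) (fun y σ => ?_)
      (fun y => q (Sum.inr y) (il j)) (fun y σ => ?_) _ (fun v => ?_)
    · rw [rwP_mul (hq _)]
      congr 1
      exact aop_eq σ _ _
    · exact row_mul (hq _) j σ
    · have e1 : ∀ (x : Fin 2 × Bool) (w : Fin 2 → BB Empty ((Fin 2 × Bool) ⊕ Empty) Bool → ℂ),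
          (fm (0 : Matrix Empty Empty ℂ) (clc (PE := Empty) (id : Fin 2 × Bool → Fin 2 × Bool))
            (Ty.p (Sum.inl x) (Sum.inl x) : Ty ((Fin 2 × Bool) ⊕ Empty) Bool)) w =
            w 0 (ip (Sum.inl x) 0) * w 1 (ip (Sum.inl x) 1) -
              w 0 (ip (Sum.inl x) 1) * w 1 (ip (Sum.inl x) 0) := by
        intro x w
        change (bil2 (Matrix.toBilin' (mP _ _ _))) w = _
        rw [bil2_apply, mP_bilin _ _ _ rfl]
      have e2 : ∀ (w : Unit → BB Empty ((Fin 2 × Bool) ⊕ Empty) Bool → ℂ),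
          (fm (0 : Matrix Empty Empty ℂ) (clc (PE := Empty) (id : Fin 2 × Bool → Fin 2 × Bool))
            (Ty.l j : Ty ((Fin 2 × Bool) ⊕ Empty) Bool)) w = w () (il j) := by
        intro w
        change ∏ u : Unit, w u (il j) = _
        rw [Finset.univ_unique, Finset.prod_singleton]
      have e3 := e2 (fun k => mulVecLin (q (Sum.inr (Sum.inl k))) (v (Sum.inr (Sum.inl k))))
      have e4 := e2 (fun k => mulVecLin (q (Sum.inr (Sum.inr k))) (v (Sum.inr (Sum.inr k))))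
      have e5 := e1 (0, b0) (fun k => mulVecLin (q (Sum.inl (Sum.inl k))) (v (Sum.inl (Sum.inl k))))
      have e6 := e1 (1, b1) (fun k => mulVecLin (q (Sum.inl (Sum.inr k))) (v (Sum.inl (Sum.inr k))))
      rw [Fintype.prod_sum_type, Finset.univ_unique, Finset.prod_singleton, Finset.prod_singleton]
      exact congrArg₂ (· * ·) (congrArg₂ (· * ·) e5 e6) (congrArg₂ (· * ·) e3 e4)

/-- Isogenous abelian varieties. -/
def Isg (X Y : AV) : Prop :=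
  ∃ e : X.H ≃ₗ[ℚ] Y.H, IsHom X Y e.toLinearMap ∧ IsHom Y X e.symm.toLinearMap

/-- **The result for the fourfolds and elliptic curves.** -/
theorem gamma_all (𝒜 : Sys) {Z : Matrix (Fin 4) (Fin 4) ℂ} (h : PM Z) (hs : IsSimpleAV Z)
    {U : Submodule ℂ (Fin 4 ⊕ Fin 4 → ℂ)} (hU : IrS (LZ Z) U) (hd : finrank ℂ U = 2)
    (hn : ¬SDu Z U) {ZE : Matrix (Fin 1) (Fin 1) ℂ} (hE : PM ZE) (hsE : IsSimpleAV ZE) (X : AV)
    (hX : ∀ Y, IsFactor Y X → Isg Y (AVZ h) ∨ Isg Y (AVZ hE)) : 𝒜.AllHodge X := by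
  obtain ⟨X', τ, ε, k⟩ := exists_gm h hs hU hd hn
  obtain ⟨x, x', τE, kE⟩ := exists_EB hE
  rcases kE.dich hE with h1 | h1
  · refine cov_all 𝒜 X (fun a Z' h' hf => ?_)
      (fun G Z' h' hc κ _ _ F hF => k.mod1 kE h1 𝒜 G Z' h' hc κ F hF)
    rcases hX _ hf with ⟨e, he, he'⟩ | ⟨e, he, he'⟩
    · exact Cov.isog h' h e he he' (k.cov1 τE)
    · exact Cov.isog h' hE e he he' (kE.cov1 τ ε)
  · obtain ⟨dE, hdE, hτ⟩ := kE.cm hE hsE h1
    refine cov_all 𝒜 X (fun a Z' h' hf => ?_)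
      (fun G Z' h' hc κ _ _ F hF => k.mod2 h hdE 𝒜 G Z' h' hc κ F hF)
    rcases hX _ hf with ⟨e, he, he'⟩ | ⟨e, he, he'⟩
    · exact Cov.isog h' h e he he' (k.cov2 dE)
    · exact Cov.isog h' hE e he he' (kE.cov2 hτ τ ε)

end

end Pool.Agent.N995
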