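import Mathlib
import Pool.Agent.N995.Gam6

/-!
# The simple factors of an abelian variety
-/

set_option linter.unusedSectionVars false

namespace Pool.Agent.N995

open Matrix Module Pool.Agent.W437.HC Pool.Agent.W437.HD Pool.Agent.TH504.CB Pool.Agent.Y90
open Pool.Agent.R915
open Pool.Agent.W548.Odd hiding cv
open Pool.Agent.W437.HP (cK cK_mul cK_one cK_sum)

noncomputable section

theorem Isg.symm {X Y : AV} (h : Isg X Y) : Isg Y X := by
  obtain ⟨e, h1, h2⟩ := h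
  exact ⟨e.symm, h2, h1⟩

theorem Isg.trans {X Y W : AV} (h : Isg X Y) (h' : Isg Y W) : Isg X W := by
  obtain ⟨e, h1, h2⟩ := h
  obtain ⟨e', h3, h4⟩ := h'
  exact ⟨e.trans e', IsHom.comp' h3 h1, IsHom.comp' h2 h4⟩

theorem Isg.finrank {X Y : AV} (h : Isg X Y) : finrank ℚ X.H = finrank ℚ Y.H := by
  obtain ⟨e, -, -⟩ := h
  exact e.finrank_eq

theorem Isg.hasCM {X Y : AV} (h : Isg X Y) (hY : HasCMult Y) : HasCMult X := by
  obtain ⟨e, h1, h2⟩ := h
  exact hY.iso e h1 h2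

theorem Isg.unb {X Y : AV} (h : Isg X Y) {d : ℚ} (hY : Unbalanced Y d) : Unbalanced X d := by
  obtain ⟨e, h1, h2⟩ := h
  exact hY.iso e h1

/-- **The simple factors of an abelian variety.** -/
theorem exists_factors (A : AV) : ∃ (ι : Type) (_ : Fintype ι) (_ : DecidableEq ι) (a : ι → ℕ)
    (Z' : ∀ i, Matrix (Fin (a i)) (Fin (a i)) ℂ) (h' : ∀ i, PM (Z' i)),
    (∀ i, 0 < a i) ∧ (∀ i, IsSimple (AVZ (h' i))) ∧ finrank ℚ A.H = 2 * ∑ i, a i ∧
      (∀ i, IsFactor (AVZ (h' i)) A) ∧ ∀ Y, IsFactor Y A → ∃ i, Isg Y (AVZ (h' i)) := by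
  obtain ⟨G, Z, h, A', hC'⟩ := exists_ppav (AV.isAV A)
  obtain ⟨ι, _, _, g, Z', E, F, h1, h2, h3, h4, h5, h6, h7, h8⟩ :=
    decomposes G G Z le_rfl h.symm h.pos
  have hfac : ∀ i, Fac Z (Z' i) (E i) (F i) := by
    intro i
    refine ⟨h4 i, de_of_JR (h7 i), fd_of_JR ?_⟩
    have h12 : JR Z = ∑ j, JR Z * cK ℝ (E j) * cK ℝ (F j) := by
      have h13 : JR Z = JR Z * cK ℝ (∑ i, E i * F i) := by rw [h6, cK_one, Matrix.mul_one]
      conv_lhs => rw [h13, cK_sum, Matrix.mul_sum]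
      refine Finset.sum_congr rfl fun j _ => ?_
      rw [cK_mul, Matrix.mul_assoc]
    rw [h12, Matrix.mul_sum, Finset.sum_eq_single i]
    · rw [h7 i, ← Matrix.mul_assoc, ← Matrix.mul_assoc, ← cK_mul, h4 i, cK_one, Matrix.one_mul]
    · intro j _ hj
      rw [h7 j, ← Matrix.mul_assoc, ← Matrix.mul_assoc, ← cK_mul, h5 i j hj.symm,
        Pool.Agent.W437.HP.cK_zero, Matrix.zero_mul, Matrix.zero_mul]
    · intro hi'
      exact absurd (Finset.mem_univ i) hi'
  have hPM : ∀ i, PM (Z' i) := fun i => ⟨h1 i, h2 i⟩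
  have hsim : ∀ i, IsSimple (AVZ (hPM i)) := fun i => simple_of (g i) (hPM i) (h3 i) (h8 i)
  have hrk : finrank ℚ A.H = 2 * ∑ i, g i := by
    have e1 : (∑ i, E i * F i).trace = ((2 * ∑ i, g i : ℕ) : ℚ) := by
      rw [trace_sum]
      push_cast
      rw [Finset.mul_sum]
      refine Finset.sum_congr rfl fun i _ => ?_
      rw [Matrix.trace_mul_comm, h4 i, trace_one, Fintype.card_sum, Fintype.card_fin]
      push_cast
      ring
    rw [h6, trace_one, Fintype.card_sum, Fintype.card_fin] at e1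
    have e2 : G + G = 2 * ∑ i, g i := by exact_mod_cast e1
    rw [A'.finrank_eq, finrank_fintype_fun_eq_card, Fintype.card_sum, Fintype.card_fin, e2]
  refine ⟨ι, inferInstance, inferInstance, g, Z', hPM, h8, hsim, hrk, fun i => ⟨hsim i, ?_⟩,
    fun Y hY => ?_⟩
  · obtain ⟨Ψ₁, h₁⟩ := (hPM i).cht.hom hC' (R := E i)
      (by rw [DJ_JR, DJ_JR]; exact (hfac i).de.symm)
    refine ⟨A'.symm.toLinearMap.comp (Matrix.mulVecLin (E i)), ⟨Ψ₁, fun v => h₁ v⟩, ?_⟩
    intro x y hxy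
    have e2 : E i *ᵥ x = E i *ᵥ y := A'.symm.injective hxy
    have e3 := congrArg (fun v => F i *ᵥ v) e2
    beta_reduce at e3
    rw [mulVec_mulVec, mulVec_mulVec, h4 i, one_mulVec, one_mulVec] at e3
    exact e3
  · obtain ⟨hYs, j, hj, hinj⟩ := hY
    obtain ⟨Ψ₂, h₂⟩ := hC'.hom h.cht (R := 1) (by rw [cK_one, Matrix.one_mul, Matrix.mul_one])
    have e₂ : ∀ v, Ψ₂ (A.per v) = perOne Z (A' v) := fun v => by
      have h3 := h₂ (A' v)
      have h4 : (A.per.comp A'.symm.toLinearMap.toAddMonoidHom) (A' v) = A.per v := by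
        change A.per (A'.symm (A' v)) = A.per v
        rw [LinearEquiv.symm_apply_apply]
      rwa [h4, one_mulVec] at h3
    have hA' : IsHom A (AVZ h) A'.toLinearMap := ⟨Ψ₂, e₂⟩
    have hF : ∀ i, IsHom (AVZ h) (AVZ (hPM i)) (Matrix.mulVecLin (F i)) := by
      intro i
      obtain ⟨Ψ₁, h₁⟩ := h.cht.hom (hPM i).cht (R := F i)
        (by rw [DJ_JR, DJ_JR]; exact (hfac i).fd)
      exact ⟨Ψ₁, fun v => h₁ v⟩
    obtain ⟨i, hi⟩ : ∃ i, (Matrix.mulVecLin (F i)).comp (A'.toLinearMap.comp j) ≠ 0 := by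
      by_contra hcon
      push Not at hcon
      obtain ⟨y, hy⟩ := hYs.1
      refine hy (hinj ?_)
      rw [map_zero]
      apply A'.injective
      rw [map_zero]
      have e1 : (∑ i, E i * F i) *ᵥ (A' (j y)) = 0 := by
        rw [sum_mulVec]
        refine Finset.sum_eq_zero fun i _ => ?_
        rw [← mulVec_mulVec]
        have e2 : F i *ᵥ (A' (j y)) = 0 := congrArg (fun φ => φ y) (hcon i)
        rw [e2, mulVec_zero]
      rwa [h6, one_mulVec] at e1
    obtain ⟨e, he⟩ := iso_of_simple hYs (hsim i) (IsHom.comp' (hF i) (IsHom.comp' hA' hj)) hi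
    exact ⟨i, e, he⟩

end

end Pool.Agent.N995
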