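import Mathlib
import Pool.Agent.N995.Cov
import Pool.Agent.N995.Piece
import Pool.Agent.N995.Gam6
import Pool.Agent.R915.C2
import Pool.Agent.R915.E8

/-!
# Powers of abelian varieties with an imaginary quadratic field
-/

set_option linter.unusedSectionVars false

namespace Pool.Agent.N995

open Matrix Module Pool.Agent.W437.HC Pool.Agent.W437.HD Pool.Agent.TH504.CB Pool.Agent.Y90
open Pool.Agent.R915
open Pool.Agent.W548.Odd hiding cv
open Pool.Agent.H204R3.SP (Kills bil2 bil2_apply IsTate)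
open Pool.Agent.W522.U (exists_reps exists_st Du)
open Pool.Agent.W437.HP (cK cK_mul cK_one cK_sum)

noncomputable section

/-- Killed forms are invariant. -/
theorem kill_inv {g : ℕ} {Z : Matrix (Fin g) (Fin g) ℂ} {κ : Type} [Fintype κ] [DecidableEq κ]
    {F : MultilinearMap ℂ (fun _ : κ => Fin g ⊕ Fin g → ℂ) ℂ} (hF : ∀ X ∈ LZ Z, KillM X F)
    (γ : Gam (GG (LZ Z))) (v : κ → Fin g ⊕ Fin g → ℂ) : F (fun k => RZ Z γ (v k)) = F v := by
  refine inv_gam _ (fun D hD _ => ?_) γ v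
  obtain ⟨X, hX, rfl⟩ := exists_GG hD
  exact fun v => hF X hX v

/-- Killed forms in an odd number of variables are zero. -/
theorem kill_odd {g : ℕ} {Z : Matrix (Fin g) (Fin g) ℂ} (h : PM Z) {κ : Type} [Fintype κ]
    [DecidableEq κ] {F : MultilinearMap ℂ (fun _ : κ => Fin g ⊕ Fin g → ℂ) ℂ}
    (hF : ∀ X ∈ LZ Z, KillM X F) (ho : Odd (Fintype.card κ)) : F = 0 := by
  refine MultilinearMap.ext fun v => ?_
  have h1 := kill_inv hF (gt (D := ph _ (DZ Z)) (by rw [← map_mul, DZ_sq h.det, map_one])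
    (mem_GG.2 DZ_mem) (-1)) v
  have h2 : (fun k => RZ Z (gt (D := ph _ (DZ Z)) (by rw [← map_mul, DZ_sq h.det, map_one])
    (mem_GG.2 DZ_mem) (-1)) (v k)) = fun k => (-1 : ℂ) • v k := by
    funext k
    change torE (ph _ (DZ Z)) (-1) (v k) = _
    rw [torE_apply]
    simp only [Units.val_neg, Units.val_one, inv_neg, inv_one]
    module
  rw [h2, MultilinearMap.map_smul_univ, Finset.prod_const, Finset.card_univ,
    Odd.neg_one_pow ho, neg_one_smul] at h1
  have h3 : F v = 0 := by linear_combination (-1 / 2 : ℂ) * h1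
  rw [h3]
  rfl

variable {g : ℕ} {Z₀ : Matrix (Fin g) (Fin g) ℂ} (h₀ : PM Z₀)
  {φ : Matrix (Fin g ⊕ Fin g) (Fin g ⊕ Fin g) ℚ} {d : ℚ} (k : QF Z₀ φ d)

theorem cjS_refl {g : ℕ} (U : Submodule ℂ (Fin g ⊕ Fin g → ℂ)) : cjS (RingEquiv.refl ℂ) U = U := by
  ext v
  rw [mem_cjS]
  rfl

include h₀ k in
/-- There are no balanced families. -/
theorem QF.no_bal (hg : 2 ≤ g) (htr : ∀ U, IrS (LZ Z₀) U → tr Z₀ U ≠ 0) {s : ℕ}
    (W : Fin s → Submodule ℂ (Fin g ⊕ Fin g → ℂ)) (hW : ∀ i, IrS (LZ Z₀) (W i))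
    (hWW : ∀ i j, W i = W j → i = j) (st : Fin s → Fin s) (hst : ∀ i, st (st i) = i)
    (hDu : ∀ i, Du (RZ Z₀) 1 (W i) (W (st i)))
    (hDu' : ∀ i j, Du (RZ Z₀) 1 (W i) (W j) → j = st i) (a : Fin s → ℤ)
    (ha : ∀ i, a (st i) = -a i)
    (hdet : ∀ (γ : Gam (GG (LZ Z₀))) (hγ : ∀ i, ∀ u ∈ W i, RZ Z₀ γ u ∈ W i), ∃ M : ℕ, M ≠ 0 ∧
      (∏ i, LinearMap.det ((RZ Z₀ γ).restrict (hγ i)) ^ a i) ^ M = 1) :
    IsEmpty (Σ i, Fin (a i).toNat) := by
  refine ⟨fun q0 => ?_⟩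
  obtain ⟨i, x⟩ := q0
  have h1 := bal_sum h₀ W hW st hst hDu a ha hdet (RingEquiv.refl ℂ)
  obtain ⟨α, hα, hm⟩ := k.exists_root h₀ (hW i)
  have h2 : ∀ j, 0 < (a j).toNat → j = i := by
    intro j hj
    obtain ⟨β, hβ, hm'⟩ := k.exists_root h₀ (hW j)
    have h3 : (β - α) * (β + α) = 0 := by linear_combination hβ - hα
    rcases mul_eq_zero.1 h3 with h4 | h4
    · have h5 : β = α := sub_eq_zero.1 h4
      subst h5
      apply hWW
      ext v
      rw [hm', hm]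
    · exfalso
      have h5 : β = -α := by linear_combination h4
      subst h5
      have h6 : W j = cjS cc (W i) := by
        ext v
        rw [hm', k.cj_mem hα hm]
        have h7 : cc α = -α := k.cc_root hα
        rw [h7]
      have h7 : Du (RZ Z₀) 1 (W i) (W j) := by
        rw [rz_du h₀ (hW i).2.1 (hW j).2.1]
        obtain ⟨u, hu, v, hv, huv⟩ := pair_cc h₀ (hW i).2.1 (hW i).1
        refine ⟨om g, ⟨u, hu, v, ?_, huv⟩, fun X hX u _ v _ => h₀.om_sp hX u v⟩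
        rw [h6]
        exact hv
      have h8 := hDu' i j h7
      have h9 := ha i
      rw [← h8] at h9
      have h10 := x.2
      omega
  have h3 : ∀ q : (Σ i, Fin (a i).toNat), tr Z₀ (cjS (RingEquiv.refl ℂ) (W q.1)) = tr Z₀ (W i) := by
    rintro ⟨j, y⟩
    have h4 : j = i := h2 j (by
      have := y.2
      omega)
    subst h4
    rw [cjS_refl]
  rw [Finset.sum_congr rfl fun q _ => h3 q, Finset.sum_const, nsmul_eq_mul] at h1
  rcases mul_eq_zero.1 h1 with h4 | h4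
  · have h5 : (Finset.univ : Finset (Σ i, Fin (a i).toNat)).card = 0 := by exact_mod_cast h4
    rw [Finset.card_eq_zero] at h5
    have h6 := Finset.mem_univ (⟨i, x⟩ : Σ i, Fin (a i).toNat)
    rw [h5] at h6
    exact absurd h6 (Finset.notMem_empty _)
  · exact htr _ (hW i) h4

include h₀ k in
/-- Killed forms belong to the system. -/
theorem QF.mem_NB (hg : 2 ≤ g) (hrk : ∀ U, IrS (LZ Z₀) U → Rk1 Z₀ U)
    (htr : ∀ U, IrS (LZ Z₀) U → tr Z₀ U ≠ 0) (𝒜 : Sys) {G : ℕ} {Z : Matrix (Fin G) (Fin G) ℂ}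
    (h : PM Z) {m : ℕ} (F : MultilinearMap ℂ (fun _ : Fin m × Fin 2 => Fin g ⊕ Fin g → ℂ) ℂ)
    (hF : ∀ X ∈ LZ Z₀, KillM X F) : F ∈ NB 𝒜 h (fun σ => DS Z₀ σ) (Fin m × Fin 2) := by
  have hSI : ∀ {U}, W522.U.SI (RZ Z₀) U ↔ IrS (LZ Z₀) U := fun {U} => si_iff h₀.genI
  obtain ⟨s, W, hW, hWW, hall⟩ := exists_reps (rz_proj h₀)
  obtain ⟨st, hst, hDu, hDu'⟩ := exists_st (χ := 1) (rz_proj h₀) (om g) om_nd (rz_om h₀) W hW hWW hall
  have hns : ∀ U, IrS (LZ Z₀) U → ∀ (σ : ℂ ≃+* ℂ) (c : ℂ), ∃ u ∈ U, DS Z₀ σ *ᵥ u ≠ c • u := by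
    intro U hU σ c
    obtain ⟨α, hα, hm⟩ := k.exists_root h₀ hU
    exact k.nonscalar h₀ hα hm hU (by rw [k.dim h₀ hα hm hU.1]; exact hg) σ c
  refine forms_mem' (χ := 1) (fun Δ hΔ => fi_top Δ hΔ) (om g) om_nd (rz_om h₀) ?_ ?_ ?_ (rz_proj h₀)
    W hW hWW hall st hst hDu hDu' (fun κ _ => NB 𝒜 h (fun σ => DS Z₀ σ) κ) (clo_NB 𝒜 h _) ?_
    ?_ F ?_
  · intro U hU hn
    exact rz_unip h₀ (hrk U (hSI.1 hU))
  · intro U hU hn
    exact rz_line h₀ (hSI.1 hU) hn
  · intro U U' hU hU' hn _ ψ hT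
    exact rz_twist h₀ (hSI.1 hU) (hSI.1 hU') (hns U (hSI.1 hU)) ψ hT
  · intro b hb
    have h1 := (rz_bil h₀ stab_top stab_top b).1 (fun γ u _ v _ => by
      rw [hb, MonoidHom.one_apply, one_mul])
    have h2 : b = Matrix.toBilin' (LinearMap.toMatrix₂' ℂ b) := by
      refine LinearMap.ext fun u => LinearMap.ext fun v => ?_
      rw [Matrix.toBilin'_apply']
      have h3 := Matrix.toLinearMap₂'_apply' (LinearMap.toMatrix₂' ℂ b) u v
      rw [← h3, Matrix.toLinearMap₂'_toMatrix']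
    rw [h2]
    refine pair_NB 𝒜 h (fun σ => DS Z₀ σ) _ fun σ => ?_
    ext i j
    have h3 := h1 (DS Z₀ σ) (DS_mem σ) (Pi.single i 1) trivial (Pi.single j 1) trivial
    have h4 : ∀ u v, b u v = u ⬝ᵥ (LinearMap.toMatrix₂' ℂ b *ᵥ v) := by
      intro u v
      rw [← Matrix.toLinearMap₂'_apply' (LinearMap.toMatrix₂' ℂ b) u v,
        Matrix.toLinearMap₂'_toMatrix']
    rw [h4, h4] at h3
    rw [Matrix.add_apply, Matrix.zero_apply, ← h3]
    congr 1
    · rw [Matrix.mul_apply, mulVec_single_one, mulVec_single_one]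
      simp only [dotProduct, col_apply, transpose_apply]
    · rw [mulVec_single_one, single_one_dotProduct]
      rfl
  · intro a ha hag ι _ _ f p hp ψ hψ
    have hemp := QF.no_bal h₀ k hg htr W (fun i => hSI.1 (hW i)) (fun i j hij => hWW i j (by
      refine ⟨⊤, inferInstance, LinearMap.id, fun u hu => ?_, ?_, fun γ _ u _ => ?_⟩
      · rw [← hij]
        exact hu
      · obtain ⟨u, hu, hu0⟩ := Submodule.exists_mem_ne_zero_of_ne_bot (hSI.1 (hW i)).1
        exact ⟨u, hu, hu0⟩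
      · rw [one_smul]
        rfl)) st hst hDu hDu' a ha hag
    have : IsEmpty (Σ q : (Σ i, Fin (a i).toNat), ι q) := ⟨fun x => hemp.elim x.1⟩
    exact (clo_NB 𝒜 h _).unit _ _
  · refine ⟨⊤, inferInstance, fun γ _ v => ?_⟩
    rw [MonoidHom.one_apply, one_pow, one_mul]
    exact kill_inv hF γ v

include h₀ k in
/-- **The result for powers of abelian varieties with an imaginary quadratic field.** -/
theorem alpha_all (hg : 2 ≤ g) (hrk : ∀ U, IrS (LZ Z₀) U → Rk1 Z₀ U)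
    (htr : ∀ U, IrS (LZ Z₀) U → tr Z₀ U ≠ 0) (𝒜 : Sys) (X : AV)
    (hX : ∀ Y, IsFactor Y X → Isg Y (AVZ h₀)) : 𝒜.AllHodge X := by
  refine cov_all (D0 := fun σ => DS Z₀ σ) 𝒜 X (fun a Z' h' hf => ?_) (fun G Z h hc κ _ _ F hF => ?_)
  · obtain ⟨e, he, he'⟩ := hX _ hf
    refine Cov.isog h' h₀ e he he' (Submodule.subset_span ⟨1, 1, fun σ => ?_, fun σ => ?_, ?_⟩)
    · rw [Matrix.mul_one, Matrix.one_mul]
    · rw [Matrix.mul_one, Matrix.one_mul]
    · rw [Matrix.mul_one]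
  · refine model_red 𝒜 h _ hc F fun ι hι => ?_
    obtain ⟨F', hF'⟩ : ∃ F', F' = F.compLinearMap (fun k => mulVecLin (ι k)) := ⟨_, rfl⟩
    rw [← hF']
    have h1 : ∀ X ∈ LZ Z₀, KillM X F' := by
      intro X hX
      have h2 : LZ Z₀ ≤ KL Z (fun σ => DS Z₀ σ) := LZ_le (fun σ => KL_D _ σ) fun A hA C hC =>
        KL_br _ hA hC
      rw [hF']
      exact kill_model _ hF (h2 hX) hι
    rcases Nat.even_or_odd (Fintype.card κ) with he | ho
    · obtain ⟨m, hm⟩ := he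
      have e : κ ≃ Fin m × Fin 2 := Fintype.equivOfCardEq (by
        rw [Fintype.card_prod, Fintype.card_fin, Fintype.card_fin, hm]
        ring)
      have h2 : ∀ X ∈ LZ Z₀, KillM X (F'.domDomCongr e) := by
        intro X hX v
        have h3 := h1 X hX (fun k => v (e k))
        rw [← h3, ← e.sum_comp]
        refine Finset.sum_congr rfl fun k _ => ?_
        rw [MultilinearMap.domDomCongr_apply]
        congr 1
        funext k'
        by_cases hk : k' = k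
        · subst hk
          rw [Function.update_self, Function.update_self]
        · rw [Function.update_of_ne hk, Function.update_of_ne (fun h => hk (e.injective h))]
      have h3 := QF.mem_NB h₀ k hg hrk htr 𝒜 h _ h2
      refine (clo_NB 𝒜 h _).reindex e.symm h3 F' fun v => ?_
      rw [MultilinearMap.domDomCongr_apply]
      congr 1
      funext k
      simp
    · rw [kill_odd h₀ h1 ho]
      exact Submodule.zero_mem _

end

end Pool.Agent.N995
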