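import Mathlib
import Pool.Agent.N995.Piece
import Pool.Agent.N995.Gen
import Pool.Agent.R915.D5

/-!
# Orthogonal submodules of dimension four
-/

set_option linter.unusedSectionVars false

namespace Pool.Agent.N995

open Matrix Module Pool.Agent.W437.HC Pool.Agent.W437.HD Pool.Agent.TH504.CB Pool.Agent.Y90
open Pool.Agent.R915
open Pool.Agent.W548.Odd hiding cv
open Pool.Agent.W437.HP (cK cK_mul cK_one cK_sum)
open scoped ComplexOrder

noncomputable section

variable {g : ℕ} {Z : Matrix (Fin g) (Fin g) ℂ}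

section dual

variable {W : Submodule ℂ (Fin g ⊕ Fin g → ℂ)} {ι : Type} [Fintype ι] [DecidableEq ι]

/-- The dual basis. -/
theorem exists_dual (h : PM Z) (hW : IrS (LZ Z) W) (b : Basis ι ℂ W) {K K' : Matrix ι ι ℂ}
    (h1 : K * K' = 1) (h2 : K' * K = 1) :
    ∃ b' : Basis ι ℂ (cjS cc W : Submodule ℂ (Fin g ⊕ Fin g → ℂ)),
      (xm b)ᵀ * Om g ℂ * xm b' = K := by
  have hd' : finrank ℂ (cjS cc W : Submodule ℂ (Fin g ⊕ Fin g → ℂ)) = Fintype.card ι := by
    rw [finrank_cjS, finrank_eq_card_basis b]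
  let L : (cjS cc W : Submodule ℂ (Fin g ⊕ Fin g → ℂ)) →ₗ[ℂ] (ι → ℂ) :=
    LinearMap.pi fun a => (om g (b a : Fin g ⊕ Fin g → ℂ)).comp (Submodule.subtype _)
  have hLa : ∀ v a, L v a = om g (b a : Fin g ⊕ Fin g → ℂ) (v : Fin g ⊕ Fin g → ℂ) := fun _ _ => rfl
  have hLi : Function.Injective L := by
    rw [injective_iff_map_eq_zero]
    intro v hv
    apply Subtype.ext
    refine nd_cc h hW v.2 fun u hu => ?_
    obtain ⟨c, rfl⟩ := xm_surj b hu
    rw [xm_mulVec, Submodule.coe_sum, map_sum, LinearMap.sum_apply]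
    refine Finset.sum_eq_zero fun a _ => ?_
    have h1 := congrFun hv a
    rw [hLa] at h1
    rw [Submodule.coe_smul, map_smul, LinearMap.smul_apply, h1]
    simp
  have hLs : Function.Surjective L :=
    (LinearMap.injective_iff_surjective_of_finrank_eq_finrank (by rw [hd']; simp)).1 hLi
  let eL := LinearEquiv.ofBijective L ⟨hLi, hLs⟩
  let eM : (ι → ℂ) ≃ₗ[ℂ] (ι → ℂ) := LinearEquiv.ofLinearMap (mulVecLin K) (mulVecLin K')
    (by
      rw [← mulVecLin_mul, h1, mulVecLin_one])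
    (by
      rw [← mulVecLin_mul, h2, mulVecLin_one])
  let bE : Basis ι ℂ (ι → ℂ) := (Pi.basisFun ℂ ι).map eM
  have hbE : ∀ a c, bE a c = K c a := by
    intro a c
    have h1 : bE a = K *ᵥ (Pi.single a 1) := by
      change eM ((Pi.basisFun ℂ ι) a) = _
      rw [Pi.basisFun_apply]
      rfl
    rw [h1]
    simp
  refine ⟨bE.map eL.symm, ?_⟩
  ext a c
  rw [om_mat]
  change om g (b a : Fin g ⊕ Fin g → ℂ) ((bE.map eL.symm) c : Fin g ⊕ Fin g → ℂ) = K a c
  rw [← hLa]
  have h1 : L ((bE.map eL.symm) c) = bE c := by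
    change eL (eL.symm (bE c)) = bE c
    rw [LinearEquiv.apply_symm_apply]
  rw [h1, hbE]

/-- The dual action. -/
theorem dual_act (h : PM Z) (hW : IrS (LZ Z) W) (b : Basis ι ℂ W)
    (b' : Basis ι ℂ (cjS cc W : Submodule ℂ (Fin g ⊕ Fin g → ℂ))) {K A A' : Matrix ι ι ℂ}
    (hK : (xm b)ᵀ * Om g ℂ * xm b' = K) {σ : ℂ ≃+* ℂ} (hA : DS Z σ * xm b = xm b * A)
    (hinv : Aᵀ * K + K * A' = 0) : DS Z σ * xm b' = xm b' * A' := by
  have hW' : IrS (LZ Z) (cjS cc W) := hW.cj gal_LZ cc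
  have e1 : (xm b)ᵀ * Om g ℂ * (DS Z σ * xm b' - xm b' * A') = 0 := by
    have e2 : (xm b)ᵀ * Om g ℂ * (DS Z σ * xm b') = -((DS Z σ * xm b)ᵀ * Om g ℂ * xm b') := by
      have e3 := Om_inv h σ
      have e4 : Om g ℂ * DS Z σ = -((DS Z σ)ᵀ * Om g ℂ) := by
        rw [eq_neg_iff_add_eq_zero, add_comm]
        exact e3
      rw [transpose_mul]
      calc (xm b)ᵀ * Om g ℂ * (DS Z σ * xm b') = (xm b)ᵀ * (Om g ℂ * DS Z σ) * xm b' := by
            simp only [Matrix.mul_assoc]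
      _ = _ := by
            rw [e4]
            simp only [Matrix.mul_neg, Matrix.neg_mul, Matrix.mul_assoc]
    have e5 : (DS Z σ * xm b)ᵀ * Om g ℂ * xm b' = Aᵀ * K := by
      rw [hA, transpose_mul, ← hK]
      simp only [Matrix.mul_assoc]
    have e6 : (xm b)ᵀ * Om g ℂ * (xm b' * A') = K * A' := by
      rw [← hK]
      simp only [Matrix.mul_assoc]
    rw [Matrix.mul_sub, e2, e5, e6, ← neg_add', hinv, neg_zero]
  rw [← sub_eq_zero]
  obtain ⟨D, hD⟩ : ∃ D, D = DS Z σ * xm b' - xm b' * A' := ⟨_, rfl⟩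
  rw [← hD] at e1 ⊢
  have hDm : ∀ c, (fun i => D i c) ∈ cjS cc W := by
    intro c
    have h4 : (fun i => D i c) = DS Z σ *ᵥ (fun i => xm b' i c) -
        xm b' *ᵥ (fun i => A' i c) := by
      rw [hD]
      rfl
    rw [h4]
    exact Submodule.sub_mem _ (hW'.2.1 _ (DS_mem σ) _ (b' c).2) (xm_mem b' _)
  ext i c
  have h5 : (fun i => D i c) = 0 := by
    refine nd_cc h hW (hDm c) fun u hu => ?_
    obtain ⟨r, rfl⟩ := xm_surj b hu
    rw [xm_mulVec, Submodule.coe_sum, map_sum, LinearMap.sum_apply]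
    refine Finset.sum_eq_zero fun a _ => ?_
    have h6 := congrFun (congrFun e1 a) c
    rw [om_mat] at h6
    rw [Submodule.coe_smul, map_smul, LinearMap.smul_apply]
    have h7 : om g (b a : Fin g ⊕ Fin g → ℂ) (fun i => D i c) = 0 := h6
    rw [h7, smul_zero]
  exact congrFun h5 i

/-- Stable subspaces of the coordinates. -/
theorem irr_coord (hW : IrS (LZ Z) W) (b : Basis ι ℂ W) {A : (ℂ ≃+* ℂ) → Matrix ι ι ℂ}
    (hA : ∀ σ, DS Z σ * xm b = xm b * A σ) (K : Submodule ℂ (ι → ℂ))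
    (hK : ∀ σ, ∀ c ∈ K, A σ *ᵥ c ∈ K) : K = ⊥ ∨ K = ⊤ := by
  have h1 : K.map (mulVecLin (xm b)) ≤ W := by
    rintro _ ⟨c, -, rfl⟩
    exact xm_mem b c
  have h2 : Stab (LZ Z) (K.map (mulVecLin (xm b))) := by
    refine stab_of_DS fun σ u hu => ?_
    obtain ⟨c, hc, rfl⟩ := hu
    refine ⟨A σ *ᵥ c, hK σ c hc, ?_⟩
    rw [mulVecLin_apply, mulVecLin_apply, mulVec_mulVec, mulVec_mulVec, hA]
  rcases hW.2.2 _ h1 h2 with h3 | h3
  · left
    rw [Submodule.eq_bot_iff]
    intro c hc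
    have h4 : xm b *ᵥ c ∈ K.map (mulVecLin (xm b)) := ⟨c, hc, rfl⟩
    rw [h3, Submodule.mem_bot] at h4
    exact xm_inj b h4
  · right
    rw [Submodule.eq_top_iff']
    intro c
    have h4 : xm b *ᵥ c ∈ K.map (mulVecLin (xm b)) := by
      rw [h3]
      exact xm_mem b c
    obtain ⟨c', hc', h5⟩ := h4
    have h6 : xm b *ᵥ (c - c') = 0 := by
      rw [mulVec_sub, sub_eq_zero]
      exact h5.symm
    have h7 := xm_inj b h6
    rw [sub_eq_zero] at h7
    rw [h7]
    exact hc'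

end dual

/-- Bases adapted to symmetric forms. -/
theorem exists_QB {V : Type} [AddCommGroup V] [Module ℂ V] [FiniteDimensional ℂ V]
    (hd : finrank ℂ V = 4) (B : V →ₗ[ℂ] V →ₗ[ℂ] ℂ) (hs : ∀ x y, B x y = B y x)
    (hn : ∀ x, (∀ y, B x y = 0) → x = 0) :
    ∃ e : Basis (Fin 2 × Fin 2) ℂ V, ∀ x y, B (e x) (e y) = QB x y := by
  obtain ⟨v0, hv0⟩ := LinearMap.BilinForm.exists_orthogonal_basis (B := B)
    (LinearMap.IsSymm.mk fun x y => hs x y)
  let v : Basis (Fin 4) ℂ V := v0.reindex (finCongr hd)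
  have hv : ∀ i j, i ≠ j → B (v i) (v j) = 0 := by
    intro i j hij
    have h1 : (finCongr hd).symm i ≠ (finCongr hd).symm j := fun h => hij ((finCongr hd).symm.injective h)
    have h2 := hv0 h1
    rw [Basis.reindex_apply, Basis.reindex_apply]
    exact h2
  have hv1 : ∀ i, B (v i) (v i) ≠ 0 := by
    intro i h0
    have h1 : v i = 0 := by
      refine hn _ fun w => ?_
      rw [← v.sum_repr w, map_sum]
      refine Finset.sum_eq_zero fun j _ => ?_
      rw [map_smul]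
      by_cases hij : i = j
      · subst hij
        rw [h0, smul_zero]
      · rw [hv i j hij, smul_zero]
    exact v.ne_zero i h1
  have hsq : ∀ i, ∃ s : ℂ, s * s = B (v i) (v i) := by
    intro i
    obtain ⟨s, hs⟩ := IsAlgClosed.exists_pow_nat_eq (B (v i) (v i)) (n := 2) (by norm_num)
    exact ⟨s, by rw [← sq]; exact hs⟩
  choose s hs2 using hsq
  have hs0 : ∀ i, s i ≠ 0 := by
    intro i h0
    apply hv1 i
    rw [← hs2, h0, mul_zero]
  have hw : ∀ i j, B ((s i)⁻¹ • v i) ((s j)⁻¹ • v j) = if i = j then 1 else 0 := by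
    intro i j
    rw [LinearMap.map_smul, map_smul, LinearMap.smul_apply, smul_eq_mul, smul_eq_mul]
    by_cases hij : i = j
    · subst hij
      rw [if_pos rfl, ← hs2]
      field_simp [hs0 i]
    · rw [if_neg hij, hv i j hij, mul_zero, mul_zero]
  generalize hwd : (fun i => (s i)⁻¹ • v i) = w at hw
  have hw' : ∀ i j, B (w i) (w j) = if i = j then 1 else 0 := by
    intro i j
    rw [← hwd]
    exact hw i j
  let e0 : Fin 2 × Fin 2 → V := fun x =>
    if x = (0, 0) then w 0 + Complex.I • w 1 else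
    if x = (1, 1) then (1 / 2 : ℂ) • (w 0 - Complex.I • w 1) else
    if x = (0, 1) then w 2 + Complex.I • w 3 else (-1 / 2 : ℂ) • (w 2 - Complex.I • w 3)
  have hG : ∀ x y, B (e0 x) (e0 y) = QB x y := by
    rintro ⟨a, b⟩ ⟨c, d⟩
    have hI : Complex.I * Complex.I = -1 := Complex.I_mul_I
    rw [QB_apply]
    fin_cases a <;> fin_cases b <;> fin_cases c <;> fin_cases d <;>
      simp [e0, eps, hw', hI] <;> norm_num
  have hli : LinearIndependent ℂ e0 := by
    rw [Fintype.linearIndependent_iff]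
    intro c hc x
    have h1 : ∀ y, ∑ x, c x * QB x y = 0 := by
      intro y
      have h2 := congrArg (fun u => B u (e0 y)) hc
      beta_reduce at h2
      rw [map_sum, LinearMap.sum_apply, map_zero, LinearMap.zero_apply] at h2
      rw [← h2]
      refine Finset.sum_congr rfl fun x _ => ?_
      rw [map_smul, LinearMap.smul_apply, hG, smul_eq_mul]
    have h2 : c ᵥ* QB = 0 := by
      funext y
      exact h1 y
    have h3 := congrArg (fun u => u ᵥ* QB) h2
    beta_reduce at h3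
    rw [vecMul_vecMul, QB_inv, vecMul_one, zero_vecMul] at h3
    exact congrFun h3 x
  have hcard : Fintype.card (Fin 2 × Fin 2) = finrank ℂ V := by
    rw [hd]
    rfl
  refine ⟨basisOfLinearIndependentOfCardEqFinrank hli hcard, fun x y => ?_⟩
  rw [coe_basisOfLinearIndependentOfCardEqFinrank]
  exact hG x y

end

end Pool.Agent.N995
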