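import Mathlib
import Pool.Agent.N995.Bet1

/-!
# The structure of the fourfolds with a definite quaternion algebra
-/

set_option linter.unusedSectionVars false

namespace Pool.Agent.N995

open Matrix Module Pool.Agent.W437.HC Pool.Agent.W437.HD Pool.Agent.TH504.CB Pool.Agent.Y90
open Pool.Agent.R915
open Pool.Agent.W548.Odd hiding cv
open Pool.Agent.W437.HP (cK cK_mul cK_one cK_sum)
open scoped ComplexOrder Kronecker

noncomputable section

abbrev M4 : Type := Matrix (Fin 2 × Fin 2) (Fin 2 × Fin 2) ℂ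

/-- The operators on the pieces. -/
def bop (T : Fin 2 → (ℂ ≃+* ℂ) → M2) (σ : ℂ ≃+* ℂ) : M4 := kOB ![T 0 σ, T 1 σ, 0]

theorem bop_eq (T : Fin 2 → (ℂ ≃+* ℂ) → M2) (σ : ℂ ≃+* ℂ) :
    bop T σ = T 0 σ ⊗ₖ 1 + 1 ⊗ₖ T 1 σ := rfl

/-- The pieces of the homology, with their actions. -/
structure Bt0 (Z : Matrix (Fin 4) (Fin 4) ℂ) (W : Fin 2 → Matrix (Fin 4 ⊕ Fin 4) (Fin 2 × Fin 2) ℂ)
    (T : Fin 2 → (ℂ ≃+* ℂ) → M2) : Prop where
  tr : ∀ c σ, (T c σ).trace = 0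
  ax : ∀ j σ, DS Z σ * W j = W j * bop T σ
  o01 : (W 0)ᵀ * Om 4 ℂ * W 1 = QB
  o00 : (W 0)ᵀ * Om 4 ℂ * W 0 = 0
  o11 : (W 1)ᵀ * Om 4 ℂ * W 1 = 0
  alt : ∀ σ, (T 0 σ = 0 ∧ T 1 σ * T 1 σ = 1) ∨ (T 1 σ = 0 ∧ T 0 σ * T 0 σ = 1)
  irr : ∀ K : Submodule ℂ (Fin 2 × Fin 2 → ℂ), (∀ σ, ∀ c ∈ K, bop T σ *ᵥ c ∈ K) → K = ⊥ ∨ K = ⊤

variable {Z : Matrix (Fin 4) (Fin 4) ℂ}

/-- The structure of the fourfolds. -/
theorem exists_bt0 (h : PM Z) {U : Submodule ℂ (Fin 4 ⊕ Fin 4 → ℂ)} (hU : IrS (LZ Z) U)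
    (hd : finrank ℂ U = 4) {b : (Fin 4 ⊕ Fin 4 → ℂ) →ₗ[ℂ] (Fin 4 ⊕ Fin 4 → ℂ) →ₗ[ℂ] ℂ}
    (h0 : ∃ u ∈ U, ∃ v ∈ U, b u v ≠ 0)
    (hb : ∀ X ∈ LZ Z, ∀ u ∈ U, ∀ v ∈ U, b (X *ᵥ u) v + b u (X *ᵥ v) = 0)
    (hsym : ∀ u ∈ U, ∀ v ∈ U, b u v = b v u) : ∃ W T, Bt0 Z W T := by
  obtain ⟨e, he⟩ := exists_QB hd (b.domRestrict₁₂ U U) (fun x y => hsym _ x.2 _ y.2)
    (fun x hx => Subtype.ext (nd_left hU hU.2.1 h0 hb x x.2 fun v hv => hx ⟨v, hv⟩))
  have heb : ∀ x y, b (e x : Fin 4 ⊕ Fin 4 → ℂ) (e y : Fin 4 ⊕ Fin 4 → ℂ) = QB x y := he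
  have hcol : ∀ σ x, DS Z σ *ᵥ (e x : Fin 4 ⊕ Fin 4 → ℂ) =
      ∑ z, ac hU.2.1 e σ z x • (e z : Fin 4 ⊕ Fin 4 → ℂ) := by
    intro σ x
    have h1 : DS Z σ *ᵥ (e x : Fin 4 ⊕ Fin 4 → ℂ) = xm e *ᵥ fun z => ac hU.2.1 e σ z x := by
      funext i
      exact congrFun (congrFun (ac_mul hU.2.1 e σ) i) x
    rw [h1, xm_mulVec, Submodule.coe_sum]
    rfl
  have hinv : ∀ σ, (ac hU.2.1 e σ)ᵀ * QB + QB * ac hU.2.1 e σ = 0 := by
    intro σ
    ext x y
    have h1 := hb _ (DS_mem σ) _ (e x).2 _ (e y).2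
    rw [hcol, hcol, map_sum, map_sum, LinearMap.sum_apply] at h1
    rw [Matrix.add_apply, Matrix.mul_apply, Matrix.mul_apply, Matrix.zero_apply, ← h1]
    congr 1
    · refine Finset.sum_congr rfl fun z _ => ?_
      rw [map_smul, LinearMap.smul_apply, heb, smul_eq_mul, transpose_apply]
    · refine Finset.sum_congr rfl fun z _ => ?_
      rw [map_smul, heb, smul_eq_mul, mul_comm]
  choose T' hT1 hT2 hT3 using fun σ => so_kOB _ (hinv σ)
  have hbop : ∀ σ, bop (fun c σ => T' σ c.castSucc) σ = ac hU.2.1 e σ := by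
    intro σ
    rw [hT3]
    rfl
  obtain ⟨e', he'⟩ := exists_dual h hU e QB_inv QB_inv
  -- the isotropy
  obtain ⟨c, hc⟩ := bil_unique (b' := om 4) hU h0 hb fun X hX u _ v _ => h.om_sp hX u v
  have hc0 : c = 0 := by
    have h1 := hc _ (e (0, 0)).2 _ (e (1, 1)).2
    have h2 := hc _ (e (1, 1)).2 _ (e (0, 0)).2
    rw [om_anti, h1, heb, heb, QB_symm] at h2
    have h3 : (QB (1, 1) (0, 0) : ℂ) = 1 := by
      rw [QB_apply]
      simp [eps]
    rw [h3] at h2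
    linear_combination (-1 / 2 : ℂ) * h2
  have hiso : ∀ u ∈ U, ∀ v ∈ U, om 4 u v = 0 := by
    intro u hu v hv
    rw [hc u hu v hv, hc0, zero_mul]
  have hiso' : ∀ u ∈ cjS cc U, ∀ v ∈ cjS cc U, om 4 u v = 0 := by
    intro u hu v hv
    have h1 := hiso _ hu _ hv
    have h2 := om_conj cc.symm u v
    rw [h1] at h2
    exact (map_eq_zero_iff _ cc.symm.injective).1 h2
  refine ⟨![xm e, xm e'], fun c σ => T' σ c.castSucc, ?_, ?_, he', ?_, ?_, ?_, ?_⟩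
  · intro c σ
    exact hT1 σ _
  · intro j σ
    rw [hbop]
    fin_cases j
    · exact ac_mul hU.2.1 e σ
    · exact dual_act h hU e e' he' (ac_mul hU.2.1 e σ) (hinv σ)
  · ext x y
    exact (om_mat (xm e) (xm e) x y).trans (hiso _ (e x).2 _ (e y).2)
  · ext x y
    exact (om_mat (xm e') (xm e') x y).trans (hiso' _ (e' x).2 _ (e' y).2)
  · intro σ
    have h1 := ac_sq hU.2.1 e h σ
    rw [hT3] at h1
    exact kOB_sq _ (hT1 σ) h1
  · intro K hK
    exact irr_coord hU e (A := fun σ => ac hU.2.1 e σ) (fun σ => ac_mul hU.2.1 e σ) K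
      fun σ c hc => by
        have h1 := hK σ c hc
        rwa [hbop] at h1

variable {W : Fin 2 → Matrix (Fin 4 ⊕ Fin 4) (Fin 2 × Fin 2) ℂ} {T : Fin 2 → (ℂ ≃+* ℂ) → M2}

theorem bop_mulVec (σ : ℂ ≃+* ℂ) (c : Fin 2 × Fin 2 → ℂ) (a b : Fin 2) :
    (bop T σ *ᵥ c) (a, b) = T 0 σ a 0 * c (0, b) + T 0 σ a 1 * c (1, b) +
      (T 1 σ b 0 * c (a, 0) + T 1 σ b 1 * c (a, 1)) := by
  rw [bop_eq, add_mulVec, Pi.add_apply]
  have e1 : (((T 0 σ ⊗ₖ (1 : M2)) : M4) *ᵥ c) (a, b) = T 0 σ a 0 * c (0, b) + T 0 σ a 1 * c (1, b) := by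
    change ∑ x, ((T 0 σ ⊗ₖ (1 : M2)) : M4) (a, b) x * c x = _
    rw [Fintype.sum_prod_type]
    simp only [Fin.sum_univ_two, kroneckerMap_apply, Matrix.one_apply]
    fin_cases b <;> simp
  have e2 : ((((1 : M2) ⊗ₖ T 1 σ) : M4) *ᵥ c) (a, b) = T 1 σ b 0 * c (a, 0) + T 1 σ b 1 * c (a, 1) := by
    change ∑ x, (((1 : M2) ⊗ₖ T 1 σ) : M4) (a, b) x * c x = _
    rw [Fintype.sum_prod_type]
    simp only [Fin.sum_univ_two, kroneckerMap_apply, Matrix.one_apply]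
    fin_cases a <;> simp
  rw [e1, e2]

/-- The subspaces of the first kind. -/
def K0 (i : Fin 2) : Submodule ℂ (Fin 2 × Fin 2 → ℂ) where
  carrier := {c | ∀ b, c (i, b) = 0}
  add_mem' := fun {c c'} h h' b => by rw [Pi.add_apply, h, h', add_zero]
  zero_mem' := fun _ => rfl
  smul_mem' := fun r c h b => by rw [Pi.smul_apply, h, smul_zero]

/-- The subspaces of the second kind. -/
def K1 (i : Fin 2) : Submodule ℂ (Fin 2 × Fin 2 → ℂ) where
  carrier := {c | ∀ a, c (a, i) = 0}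
  add_mem' := fun {c c'} h h' b => by rw [Pi.add_apply, h, h', add_zero]
  zero_mem' := fun _ => rfl
  smul_mem' := fun r c h b => by rw [Pi.smul_apply, h, smul_zero]

theorem Bt0.ne0 (k : Bt0 Z W T) (i : Fin 2) : ∃ σ, T 0 σ i (1 - i) ≠ 0 := by
  by_contra hne
  push Not at hne
  have h1 : ∀ σ, ∀ c ∈ K0 i, bop T σ *ᵥ c ∈ K0 i := by
    intro σ c hc b
    have hc' : ∀ b, c (i, b) = 0 := hc
    rw [bop_mulVec, hc', hc']
    have h2 := hne σ
    fin_cases i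
    · have h3 : T 0 σ 0 1 = 0 := h2
      have h4 := hc' b
      change c (0, b) = 0 at h4
      change T 0 σ 0 0 * c (0, b) + T 0 σ 0 1 * c (1, b) + (T 1 σ b 0 * 0 + T 1 σ b 1 * 0) = 0
      rw [h3, h4]
      ring
    · have h3 : T 0 σ 1 0 = 0 := h2
      have h4 := hc' b
      change c (1, b) = 0 at h4
      change T 0 σ 1 0 * c (0, b) + T 0 σ 1 1 * c (1, b) + (T 1 σ b 0 * 0 + T 1 σ b 1 * 0) = 0
      rw [h3, h4]
      ring
  rcases k.irr _ h1 with h2 | h2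
  · have h3 : (Pi.single (1 - i, 0) 1 : Fin 2 × Fin 2 → ℂ) ∈ K0 i := by
      intro b
      rw [Pi.single_apply, if_neg]
      intro h4
      have h5 := congrArg Prod.fst h4
      change i = 1 - i at h5
      revert h5
      fin_cases i <;> decide
    rw [h2, Submodule.mem_bot] at h3
    have h4 := congrFun h3 (1 - i, 0)
    rw [Pi.single_eq_same] at h4
    exact one_ne_zero h4
  · have h3 : (Pi.single (i, 0) 1 : Fin 2 × Fin 2 → ℂ) ∈ K0 i := by
      rw [h2]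
      trivial
    have h4 := h3 0
    rw [Pi.single_eq_same] at h4
    exact one_ne_zero h4

theorem Bt0.ne1 (k : Bt0 Z W T) (i : Fin 2) : ∃ σ, T 1 σ i (1 - i) ≠ 0 := by
  by_contra hne
  push Not at hne
  have h1 : ∀ σ, ∀ c ∈ K1 i, bop T σ *ᵥ c ∈ K1 i := by
    intro σ c hc a
    have hc' : ∀ a, c (a, i) = 0 := hc
    rw [bop_mulVec, hc', hc']
    have h2 := hne σ
    fin_cases i
    · have h3 : T 1 σ 0 1 = 0 := h2
      have h4 := hc' a
      change c (a, 0) = 0 at h4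
      change T 0 σ a 0 * 0 + T 0 σ a 1 * 0 + (T 1 σ 0 0 * c (a, 0) + T 1 σ 0 1 * c (a, 1)) = 0
      rw [h3, h4]
      ring
    · have h3 : T 1 σ 1 0 = 0 := h2
      have h4 := hc' a
      change c (a, 1) = 0 at h4
      change T 0 σ a 0 * 0 + T 0 σ a 1 * 0 + (T 1 σ 1 0 * c (a, 0) + T 1 σ 1 1 * c (a, 1)) = 0
      rw [h3, h4]
      ring
  rcases k.irr _ h1 with h2 | h2
  · have h3 : (Pi.single (0, 1 - i) 1 : Fin 2 × Fin 2 → ℂ) ∈ K1 i := by
      intro b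
      rw [Pi.single_apply, if_neg]
      intro h4
      have h5 := congrArg Prod.snd h4
      change i = 1 - i at h5
      revert h5
      fin_cases i <;> decide
    rw [h2, Submodule.mem_bot] at h3
    have h4 := congrFun h3 (0, 1 - i)
    rw [Pi.single_eq_same] at h4
    exact one_ne_zero h4
  · have h3 : (Pi.single (0, i) 1 : Fin 2 × Fin 2 → ℂ) ∈ K1 i := by
      rw [h2]
      trivial
    have h4 := h3 0
    rw [Pi.single_eq_same] at h4
    exact one_ne_zero h4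

theorem kron_tr (A B : M2) : (A ⊗ₖ B : M4)ᵀ = Aᵀ ⊗ₖ Bᵀ := by
  ext i j
  rfl

theorem ep_det (G : M2) (hG : G.det = 1) : Gᵀ * epM * G = epM := by
  rw [Matrix.det_fin_two] at hG
  apply m2_ext <;> simp only [mul2, Matrix.transpose_apply] <;> simp [epM, eps] <;>
    first | ring1 | linear_combination hG | linear_combination -hG

/-- Change of the bases. -/
theorem Bt0.chg (k : Bt0 Z W T) {G G' : Fin 2 → M2} (h1 : ∀ c, G c * G' c = 1)
    (h2 : ∀ c, G' c * G c = 1) (hdet : ∀ c, (G c).det = 1) :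
    Bt0 Z (fun j => W j * (G 0 ⊗ₖ G 1)) (fun c σ => G' c * T c σ * G c) := by
  obtain ⟨H, hH⟩ : ∃ H : M4, H = G 0 ⊗ₖ G 1 := ⟨_, rfl⟩
  obtain ⟨H', hH'⟩ : ∃ H' : M4, H' = G' 0 ⊗ₖ G' 1 := ⟨_, rfl⟩
  have e1 : H * H' = 1 := by
    rw [hH, hH', ← mul_kronecker_mul, h1, h1, one_kronecker_one]
  have e2 : H' * H = 1 := by
    rw [hH, hH', ← mul_kronecker_mul, h2, h2, one_kronecker_one]
  have e3 : Hᵀ * QB * H = QB := by
    rw [hH, kron_tr]
    unfold QB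
    rw [← mul_kronecker_mul, ← mul_kronecker_mul, ep_det _ (hdet 0), ep_det _ (hdet 1)]
  have e4 : ∀ σ, bop (fun c σ => G' c * T c σ * G c) σ = H' * bop T σ * H := by
    intro σ
    rw [bop_eq, bop_eq, Matrix.mul_add, Matrix.add_mul, hH, hH', ← mul_kronecker_mul,
      ← mul_kronecker_mul, ← mul_kronecker_mul, ← mul_kronecker_mul, Matrix.mul_one, Matrix.mul_one,
      h2, h2]
  have e5 : ∀ x y : Matrix (Fin 4 ⊕ Fin 4) (Fin 2 × Fin 2) ℂ,
      (x * H)ᵀ * Om 4 ℂ * (y * H) = Hᵀ * (xᵀ * Om 4 ℂ * y) * H := by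
    intro x y
    rw [transpose_mul]
    simp only [Matrix.mul_assoc]
  rw [← hH]
  refine ⟨?_, ?_, ?_, ?_, ?_, ?_, ?_⟩
  · intro c σ
    change (G' c * T c σ * G c).trace = 0
    rw [Matrix.trace_mul_comm, ← Matrix.mul_assoc, h1, Matrix.one_mul, k.tr]
  · intro j σ
    change DS Z σ * (W j * H) = W j * H * _
    rw [e4, ← Matrix.mul_assoc, k.ax]
    have e7 : W j = W j * (H * H') := by rw [e1, Matrix.mul_one]
    conv_lhs => rw [e7]
    simp only [Matrix.mul_assoc]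
  · rw [e5, k.o01, e3]
  · rw [e5, k.o00, Matrix.mul_zero, Matrix.zero_mul]
  · rw [e5, k.o11, Matrix.mul_zero, Matrix.zero_mul]
  · intro σ
    have e6 : ∀ c, T c σ * T c σ = 1 → (G' c * T c σ * G c) * (G' c * T c σ * G c) = 1 := by
      intro c hc
      calc G' c * T c σ * G c * (G' c * T c σ * G c) = G' c * T c σ * (G c * G' c) * T c σ * G c := by
            simp only [Matrix.mul_assoc]
      _ = G' c * (T c σ * T c σ) * G c := by
            rw [h1]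
            simp only [Matrix.mul_assoc, Matrix.mul_one]
      _ = 1 := by rw [hc, Matrix.mul_one, h2]
    rcases k.alt σ with ⟨e7, e8⟩ | ⟨e7, e8⟩
    · exact Or.inl ⟨by rw [e7, Matrix.mul_zero, Matrix.zero_mul], e6 1 e8⟩
    · exact Or.inr ⟨by rw [e7, Matrix.mul_zero, Matrix.zero_mul], e6 0 e8⟩
  · intro K hK
    have h3 : ∀ σ, ∀ c ∈ K.map (mulVecLin H), bop T σ *ᵥ c ∈ K.map (mulVecLin H) := by
      rintro σ _ ⟨c, hc, rfl⟩
      refine ⟨_, hK σ c hc, ?_⟩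
      rw [e4, mulVecLin_apply, mulVecLin_apply, mulVec_mulVec, mulVec_mulVec, ← Matrix.mul_assoc,
        ← Matrix.mul_assoc, e1, Matrix.one_mul]
    rcases k.irr _ h3 with h4 | h4
    · left
      rw [Submodule.eq_bot_iff]
      intro c hc
      have h5 : H *ᵥ c ∈ K.map (mulVecLin H) := ⟨c, hc, rfl⟩
      rw [h4, Submodule.mem_bot] at h5
      have h6 := congrArg (fun w => H' *ᵥ w) h5
      beta_reduce at h6
      rwa [mulVec_mulVec, e2, one_mulVec, mulVec_zero] at h6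
    · right
      rw [Submodule.eq_top_iff']
      intro c
      have h5 : H *ᵥ c ∈ K.map (mulVecLin H) := by
        rw [h4]
        trivial
      obtain ⟨c', hc', h6⟩ := h5
      have h7 := congrArg (fun w => H' *ᵥ w) h6
      beta_reduce at h7
      rw [mulVecLin_apply, mulVec_mulVec, mulVec_mulVec, e2, one_mulVec, one_mulVec] at h7
      rw [← h7]
      exact hc'

/-- The structure, with generators of the Lie algebras. -/
structure Bt (Z : Matrix (Fin 4) (Fin 4) ℂ) (W : Fin 2 → Matrix (Fin 4 ⊕ Fin 4) (Fin 2 × Fin 2) ℂ)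
    (T : Fin 2 → (ℂ ≃+* ℂ) → M2) : Prop extends Bt0 Z W T where
  full : ∀ c, ∃ σ, T c σ = hh

/-- The structure of the fourfolds. -/
theorem Bt0.exists_bt (k : Bt0 Z W T) : ∃ W T, Bt Z W T := by
  have h1 : ∀ c, ∃ σ, T c σ * T c σ = 1 := by
    intro c
    have h2 : ∃ σ, T c σ ≠ 0 := by
      fin_cases c
      · obtain ⟨σ, hσ⟩ := k.ne0 0
        exact ⟨σ, fun h0 => hσ (by
          have h3 : T 0 σ = 0 := h0
          rw [h3]
          rfl)⟩
      · obtain ⟨σ, hσ⟩ := k.ne1 0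
        exact ⟨σ, fun h0 => hσ (by
          have h3 : T 1 σ = 0 := h0
          rw [h3]
          rfl)⟩
    obtain ⟨σ, hσ⟩ := h2
    refine ⟨σ, ?_⟩
    fin_cases c
    · rcases k.alt σ with ⟨h3, -⟩ | ⟨-, h3⟩
      · exact absurd h3 hσ
      · exact h3
    · rcases k.alt σ with ⟨-, h3⟩ | ⟨h3, -⟩
      · exact h3
      · exact absurd h3 hσ
  choose s hs using h1
  choose G G' h2 h3 h4 h5 using fun c => exists_diag (T c (s c)) (k.tr c _) (hs c)
  exact ⟨_, _, k.chg h2 h3 h4, fun c => ⟨s c, h5 c⟩⟩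

end

end Pool.Agent.N995
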