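import Mathlib
import Pool.Agent.N995.Bet2
import Pool.Agent.R915.W1
import Pool.Agent.R915.K3
import Pool.Agent.R915.L1

/-!
# The commutant of the fourfolds
-/

set_option linter.unusedSectionVars false

namespace Pool.Agent.N995

open Matrix Module Pool.Agent.W437.HC Pool.Agent.W437.HD Pool.Agent.TH504.CB Pool.Agent.Y90
open Pool.Agent.R915
open Pool.Agent.W548.Odd hiding cv
open Pool.Agent.W437.HP (cK cK_mul cK_one cK_sum)
open scoped ComplexOrder Kronecker

noncomputable section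

variable {Z : Matrix (Fin 4) (Fin 4) ℂ} {W : Fin 2 → Matrix (Fin 4 ⊕ Fin 4) (Fin 2 × Fin 2) ℂ}
  {T : Fin 2 → (ℂ ≃+* ℂ) → M2}

/-- The coordinates. -/
def wp (W : Fin 2 → Matrix (Fin 4 ⊕ Fin 4) (Fin 2 × Fin 2) ℂ) :
    Fin 2 → Matrix (Fin 2 × Fin 2) (Fin 4 ⊕ Fin 4) ℂ :=
  ![-(QB * (W 1)ᵀ * Om 4 ℂ), QB * (W 0)ᵀ * Om 4 ℂ]

theorem QB_transpose : QBᵀ = QB := by
  ext x y
  exact QB_symm y x

theorem Bt0.o10 (k : Bt0 Z W T) : (W 1)ᵀ * Om 4 ℂ * W 0 = -QB := by
  have h1 := congrArg Matrix.transpose k.o01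
  rw [transpose_mul, transpose_mul, transpose_transpose, QB_transpose, Om_anti] at h1
  rw [← h1]
  simp only [Matrix.mul_neg, Matrix.neg_mul, neg_neg, Matrix.mul_assoc]

theorem Bt0.wp_w (k : Bt0 Z W T) (i j : Fin 2) : wp W i * W j = if i = j then 1 else 0 := by
  fin_cases i <;> fin_cases j
  · change -(QB * (W 1)ᵀ * Om 4 ℂ) * W 0 = _
    rw [Matrix.neg_mul, Matrix.mul_assoc QB, Matrix.mul_assoc QB, k.o10, Matrix.mul_neg, QB_inv,
      neg_neg]
    simp
  · change -(QB * (W 1)ᵀ * Om 4 ℂ) * W 1 = _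
    rw [Matrix.neg_mul, Matrix.mul_assoc QB, Matrix.mul_assoc QB, k.o11, Matrix.mul_zero, neg_zero]
    simp
  · change QB * (W 0)ᵀ * Om 4 ℂ * W 0 = _
    rw [Matrix.mul_assoc QB, Matrix.mul_assoc QB, k.o00, Matrix.mul_zero]
    simp
  · change QB * (W 0)ᵀ * Om 4 ℂ * W 1 = _
    rw [Matrix.mul_assoc QB, Matrix.mul_assoc QB, k.o01, QB_inv]
    simp

theorem Bt0.sum (k : Bt0 Z W T) : ∑ j, W j * wp W j = 1 := by
  let P : Matrix (Fin 4 ⊕ Fin 4) (Fin 2 × (Fin 2 × Fin 2)) ℂ := Matrix.of fun i p => W p.1 i p.2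
  let P' : Matrix (Fin 2 × (Fin 2 × Fin 2)) (Fin 4 ⊕ Fin 4) ℂ := Matrix.of fun p v => wp W p.1 p.2 v
  have h1 : P' * P = 1 := by
    ext ⟨i, x⟩ ⟨j, y⟩
    have h2 : (P' * P) (i, x) (j, y) = (wp W i * W j) x y := rfl
    rw [h2, k.wp_w]
    by_cases hij : i = j
    · subst hij
      rw [if_pos rfl, Matrix.one_apply, Matrix.one_apply]
      simp
    · rw [if_neg hij, Matrix.one_apply_ne (fun h => hij (congrArg Prod.fst h)), Matrix.zero_apply]
  have h2 : P * P' = 1 := (Matrix.mul_eq_one_comm_of_card_eq _ _ _ (by simp)).1 h1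
  rw [← h2]
  ext i j
  rw [Matrix.sum_apply, Matrix.mul_apply]
  exact (Fintype.sum_prod_type (fun y : Fin 2 × (Fin 2 × Fin 2) => P i y * P' y j)).symm

theorem Bt0.sum2 (k : Bt0 Z W T) : W 0 * wp W 0 + W 1 * wp W 1 = 1 := by
  rw [← Fin.sum_univ_two (fun j => W j * wp W j), k.sum]

theorem Bt0.wp_mul (k : Bt0 Z W T) (j : Fin 2) (σ : ℂ ≃+* ℂ) :
    wp W j * DS Z σ = bop T σ * wp W j := by
  have h1 : wp W j * DS Z σ = ∑ i, (wp W j * W i) * (bop T σ * wp W i) := by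
    conv_lhs => rw [← Matrix.mul_one (DS Z σ), ← k.sum]
    rw [Matrix.mul_sum, Matrix.mul_sum]
    refine Finset.sum_congr rfl fun i _ => ?_
    rw [← Matrix.mul_assoc (DS Z σ), k.ax]
    simp only [Matrix.mul_assoc]
  rw [h1, Finset.sum_eq_single j]
  · rw [k.wp_w, if_pos rfl, Matrix.one_mul]
  · intro i _ hi
    rw [k.wp_w, if_neg (Ne.symm hi), Matrix.zero_mul]
  · intro h
    exact absurd (Finset.mem_univ _) h

/-- The operators of the commutant. -/
def tn (W : Fin 2 → Matrix (Fin 4 ⊕ Fin 4) (Fin 2 × Fin 2) ℂ) (n : M2) :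
    Matrix (Fin 4 ⊕ Fin 4) (Fin 4 ⊕ Fin 4) ℂ := ∑ i, ∑ j, n i j • (W i * wp W j)

theorem Bt0.tn_w (k : Bt0 Z W T) (n : M2) (j : Fin 2) : tn W n * W j = ∑ i, n i j • W i := by
  unfold tn
  rw [Matrix.sum_mul]
  refine Finset.sum_congr rfl fun i _ => ?_
  rw [Matrix.sum_mul, Finset.sum_eq_single j]
  · rw [Matrix.smul_mul, Matrix.mul_assoc, k.wp_w, if_pos rfl, Matrix.mul_one]
  · intro l _ hl
    rw [Matrix.smul_mul, Matrix.mul_assoc, k.wp_w, if_neg hl, Matrix.mul_zero, smul_zero]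
  · intro h
    exact absurd (Finset.mem_univ _) h

/-- Operators are determined by their values on the pieces. -/
theorem Bt0.ext_w (k : Bt0 Z W T) {C : Type} {A A' : Matrix C (Fin 4 ⊕ Fin 4) ℂ}
    (h : ∀ j, A * W j = A' * W j) : A = A' := by
  rw [← Matrix.mul_one A, ← Matrix.mul_one A', ← k.sum, Matrix.mul_sum, Matrix.mul_sum]
  refine Finset.sum_congr rfl fun j _ => ?_
  rw [← Matrix.mul_assoc, ← Matrix.mul_assoc, h]

theorem Bt0.tn_mul (k : Bt0 Z W T) (n n' : M2) : tn W n * tn W n' = tn W (n * n') := by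
  refine k.ext_w fun j => ?_
  rw [Matrix.mul_assoc, k.tn_w, k.tn_w, Matrix.mul_sum]
  simp only [Matrix.mul_smul, k.tn_w, Fin.sum_univ_two, mul2, smul_add, smul_smul, add_smul]
  simp only [mul_comm (n' 0 j), mul_comm (n' 1 j)]
  abel

theorem Bt0.tn_one (k : Bt0 Z W T) : tn W 1 = 1 := by
  refine k.ext_w fun j => ?_
  rw [k.tn_w, Matrix.one_mul, Finset.sum_eq_single j]
  · rw [Matrix.one_apply_eq, one_smul]
  · intro i _ hi
    rw [Matrix.one_apply_ne hi, zero_smul]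
  · intro h
    exact absurd (Finset.mem_univ _) h

theorem tn_smul (c : ℂ) (n : M2) : tn W (c • n) = c • tn W n := by
  unfold tn
  simp only [Matrix.smul_apply, smul_eq_mul, Finset.smul_sum, smul_smul]

theorem tn_sub (n n' : M2) : tn W (n - n') = tn W n - tn W n' := by
  unfold tn
  simp only [Matrix.sub_apply, sub_smul, Finset.sum_sub_distrib]

theorem Bt0.tn_comm (k : Bt0 Z W T) (n : M2) (σ : ℂ ≃+* ℂ) :
    DS Z σ * tn W n = tn W n * DS Z σ := by
  refine k.ext_w fun j => ?_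
  have e1 : DS Z σ * tn W n * W j = DS Z σ * (tn W n * W j) := Matrix.mul_assoc _ _ _
  have e2 : tn W n * DS Z σ * W j = (tn W n * W j) * bop T σ := by
    rw [Matrix.mul_assoc, k.ax, ← Matrix.mul_assoc]
  rw [e1, e2, k.tn_w, Matrix.mul_sum, Matrix.sum_mul]
  refine Finset.sum_congr rfl fun i _ => ?_
  rw [Matrix.mul_smul, k.ax, Matrix.smul_mul]

theorem Bt0.tn_trace (k : Bt0 Z W T) (n : M2) : (tn W n).trace = 4 * n.trace := by
  unfold tn
  rw [trace_sum]
  have h1 : ∀ i, (∑ j, n i j • (W i * wp W j)).trace = 4 * n i i := by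
    intro i
    rw [trace_sum, Finset.sum_eq_single i]
    · rw [trace_smul, Matrix.trace_mul_comm, k.wp_w, if_pos rfl, trace_one, smul_eq_mul]
      simp
      ring
    · intro j _ hj
      rw [trace_smul, Matrix.trace_mul_comm, k.wp_w, if_neg hj, trace_zero, smul_zero]
    · intro h
      exact absurd (Finset.mem_univ _) h
  rw [Finset.sum_congr rfl fun i _ => h1 i, ← Finset.mul_sum]
  rfl

theorem Bt0.oij (k : Bt0 Z W T) (i j : Fin 2) : (W i)ᵀ * Om 4 ℂ * W j = epM i j • QB := by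
  fin_cases i <;> fin_cases j
  · rw [show (W ((fun i => i) ⟨0, by simp⟩))ᵀ * Om 4 ℂ * W ((fun i => i) ⟨0, by simp⟩) = 0 from k.o00]
    simp [epM, eps]
  · rw [show (W ((fun i => i) ⟨0, by simp⟩))ᵀ * Om 4 ℂ * W ((fun i => i) ⟨1, by simp⟩) = QB from k.o01]
    simp [epM, eps]
  · rw [show (W ((fun i => i) ⟨1, by simp⟩))ᵀ * Om 4 ℂ * W ((fun i => i) ⟨0, by simp⟩) = -QB from
      k.o10]
    simp [epM, eps]
  · rw [show (W ((fun i => i) ⟨1, by simp⟩))ᵀ * Om 4 ℂ * W ((fun i => i) ⟨1, by simp⟩) = 0 from k.o11]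
    simp [epM, eps]

/-- Skew operators. -/
theorem Bt0.skew (k : Bt0 Z W T) {n : M2} (hn : n.trace = 0) :
    (tn W n)ᵀ * Om 4 ℂ + Om 4 ℂ * tn W n = 0 := by
  have h0 := ep_inv n hn
  refine k.ext_w fun j => ?_
  have h1 : ∀ M : Matrix (Fin 4 ⊕ Fin 4) (Fin 2 × Fin 2) ℂ, (∀ i, (W i)ᵀ * M = 0) → M = 0 := by
    intro M hM
    have h2 : Mᵀ = 0 := by
      refine k.ext_w fun i => ?_
      have h3 := congrArg Matrix.transpose (hM i)
      rw [transpose_mul, transpose_transpose, transpose_zero] at h3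
      rw [h3, Matrix.zero_mul]
    rw [← transpose_transpose M, h2, transpose_zero]
  rw [Matrix.zero_mul]
  refine h1 _ fun i => ?_
  have e1 : (W i)ᵀ * (((tn W n)ᵀ * Om 4 ℂ + Om 4 ℂ * tn W n) * W j) =
      (tn W n * W i)ᵀ * Om 4 ℂ * W j + (W i)ᵀ * Om 4 ℂ * (tn W n * W j) := by
    rw [transpose_mul, Matrix.add_mul, Matrix.mul_add]
    simp only [Matrix.mul_assoc]
  have e2 := congrFun (congrFun h0 i) j
  rw [Matrix.add_apply, mul2, mul2, transpose_apply, transpose_apply, Matrix.zero_apply] at e2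
  rw [e1, k.tn_w, k.tn_w, Fin.sum_univ_two, Fin.sum_univ_two, transpose_add, transpose_smul,
    transpose_smul, Matrix.add_mul, Matrix.add_mul, Matrix.mul_add, Matrix.smul_mul,
    Matrix.smul_mul, Matrix.smul_mul, Matrix.smul_mul, Matrix.mul_smul, Matrix.mul_smul, k.oij,
    k.oij, k.oij, k.oij, smul_smul, smul_smul, smul_smul, smul_smul, ← add_smul, ← add_smul,
    ← add_smul]
  rw [show n 0 i * epM 0 j + n 1 i * epM 1 j + (n 0 j * epM i 0 + n 1 j * epM i 1) = 0 by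
    linear_combination e2, zero_smul]

/-- Schur's lemma. -/
theorem Bt0.comm (k : Bt0 Z W T) (N : M4) (hN : ∀ σ, bop T σ * N = N * bop T σ) :
    ∃ z : ℂ, N = z • (1 : M4) := by
  obtain ⟨z, hz⟩ := Module.End.exists_eigenvalue (mulVecLin N)
  refine ⟨z, ?_⟩
  have hst : ∀ σ, ∀ c ∈ Module.End.eigenspace (mulVecLin N) z,
      bop T σ *ᵥ c ∈ Module.End.eigenspace (mulVecLin N) z := by
    intro σ c hc
    rw [Module.End.mem_eigenspace_iff, mulVecLin_apply] at hc ⊢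
    rw [mulVec_mulVec, ← hN, ← mulVec_mulVec, hc, mulVec_smul]
  rcases k.irr _ hst with h1 | h1
  · exact absurd h1 hz
  · ext i j
    have h2 : (Pi.single j 1 : Fin 2 × Fin 2 → ℂ) ∈ Module.End.eigenspace (mulVecLin N) z := by
      rw [h1]
      trivial
    rw [Module.End.mem_eigenspace_iff, mulVecLin_apply] at h2
    have h3 := congrFun h2 i
    rw [mulVec_single_one, col_apply, Pi.smul_apply, smul_eq_mul] at h3
    rw [h3, Matrix.smul_apply, smul_eq_mul, Matrix.one_apply, Pi.single_apply]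

/-- The commutant. -/
theorem Bt0.comm_tn (k : Bt0 Z W T) (C : Matrix (Fin 4 ⊕ Fin 4) (Fin 4 ⊕ Fin 4) ℂ)
    (hC : ∀ σ, DS Z σ * C = C * DS Z σ) : ∃ n, C = tn W n := by
  have h1 : ∀ i j, ∃ z : ℂ, wp W i * C * W j = z • (1 : M4) := by
    intro i j
    refine k.comm _ fun σ => ?_
    calc bop T σ * (wp W i * C * W j) = (bop T σ * wp W i) * C * W j := by
          simp only [Matrix.mul_assoc]
    _ = wp W i * (DS Z σ * C) * W j := by
          rw [← k.wp_mul]
          simp only [Matrix.mul_assoc]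
    _ = wp W i * C * (DS Z σ * W j) := by
          rw [hC]
          simp only [Matrix.mul_assoc]
    _ = _ := by
          rw [k.ax]
          simp only [Matrix.mul_assoc]
  choose z hz using h1
  refine ⟨Matrix.of fun i j => z i j, k.ext_w fun j => ?_⟩
  rw [k.tn_w]
  calc C * W j = (∑ i, W i * wp W i) * (C * W j) := by rw [k.sum, Matrix.one_mul]
  _ = ∑ i, z i j • W i := by
    rw [Matrix.sum_mul]
    refine Finset.sum_congr rfl fun i _ => ?_
    rw [Matrix.mul_assoc, ← Matrix.mul_assoc (wp W i), hz, Matrix.mul_smul, Matrix.mul_one]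

end

end Pool.Agent.N995
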