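import Mathlib
import Pool.Agent.N995.Bet3

/-!
# The Weil classes of the fourfolds
-/

set_option linter.unusedSectionVars false

namespace Pool.Agent.N995

open Matrix Module Pool.Agent.W437.HC Pool.Agent.W437.HD Pool.Agent.TH504.CB Pool.Agent.Y90
open Pool.Agent.R915
open Pool.Agent.W548.Odd hiding cv
open Pool.Agent.W437.HP (cK cK_mul cK_one cK_sum)
open scoped ComplexOrder Kronecker

noncomputable section

variable {Z : Matrix (Fin 4) (Fin 4) ℂ} {W : Fin 2 → Matrix (Fin 4 ⊕ Fin 4) (Fin 2 × Fin 2) ℂ}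
  {T : Fin 2 → (ℂ ≃+* ℂ) → M2}

theorem comm_LZ {g : ℕ} {Z : Matrix (Fin g) (Fin g) ℂ} {C : Matrix (Fin g ⊕ Fin g) (Fin g ⊕ Fin g) ℂ}
    (hC : ∀ σ, DS Z σ * C = C * DS Z σ) : ∀ X ∈ LZ Z, C * X = X * C := by
  let L : Submodule ℂ (Matrix (Fin g ⊕ Fin g) (Fin g ⊕ Fin g) ℂ) :=
    { carrier := {X | C * X = X * C}
      add_mem' := fun {x y} hx hy => by
        have hx' : C * x = x * C := hx
        have hy' : C * y = y * C := hy
        change C * (x + y) = (x + y) * C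
        rw [Matrix.mul_add, Matrix.add_mul, hx', hy']
      zero_mem' := by
        change C * 0 = 0 * C
        rw [Matrix.mul_zero, Matrix.zero_mul]
      smul_mem' := fun c x hx => by
        have hx' : C * x = x * C := hx
        change C * (c • x) = (c • x) * C
        rw [Matrix.mul_smul, Matrix.smul_mul, hx'] }
  have h1 : LZ Z ≤ L := LZ_le (fun σ => (hC σ).symm) fun A hA B hB => by
    have hA' : C * A = A * C := hA
    have hB' : C * B = B * C := hB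
    change C * (A * B - B * A) = (A * B - B * A) * C
    rw [Matrix.mul_sub, Matrix.sub_mul, ← Matrix.mul_assoc, ← Matrix.mul_assoc, hA', hB',
      Matrix.mul_assoc A C B, Matrix.mul_assoc B C A, hA', hB']
    simp only [Matrix.mul_assoc]
  exact fun X hX => h1 hX

theorem qm_mul' {g : ℕ} (A B : Matrix (Fin g ⊕ Fin g) (Fin g ⊕ Fin g) ℚ) :
    qm (A * B) = qm A * qm B := cK_mul ℂ A B

theorem qm_inj' {g : ℕ} {A B : Matrix (Fin g ⊕ Fin g) (Fin g ⊕ Fin g) ℚ} (h : qm A = qm B) :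
    A = B := by
  ext i j
  have h1 : ((A i j : ℚ) : ℂ) = ((B i j : ℚ) : ℂ) := congrFun (congrFun h i) j
  exact_mod_cast h1

theorem qm_smul_one {g : ℕ} (r : ℚ) :
    qm (r • (1 : Matrix (Fin g ⊕ Fin g) (Fin g ⊕ Fin g) ℚ)) = (r : ℂ) • 1 := by
  ext i j
  change (((r • (1 : Matrix (Fin g ⊕ Fin g) (Fin g ⊕ Fin g) ℚ)) i j : ℚ) : ℂ) = _
  rw [Matrix.smul_apply, Matrix.smul_apply, Matrix.one_apply, Matrix.one_apply]
  by_cases hij : i = j
  · simp [hij]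
  · simp [hij]

/-- Rational operators of the commutant. -/
theorem Bt0.exists_rat (k : Bt0 Z W T) : ∃ (C : Matrix (Fin 4 ⊕ Fin 4) (Fin 4 ⊕ Fin 4) ℚ) (n : M2),
    qm C = tn W n ∧ n.trace = 0 ∧ n ≠ 0 := by
  obtain ⟨m, c, C, h1, -, h3⟩ := descent_gen (comm_LZ (k.tn_comm hh))
  have h4 : ∃ j, ∀ r : ℚ, C j ≠ r • (1 : Matrix (Fin 4 ⊕ Fin 4) (Fin 4 ⊕ Fin 4) ℚ) := by
    by_contra hne
    push Not at hne
    choose r hr using hne
    have h5 : tn W hh = tn W ((∑ j, c j * (r j : ℂ)) • (1 : M2)) := by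
      rw [tn_smul, k.tn_one, h3, Finset.sum_smul]
      refine Finset.sum_congr rfl fun j _ => ?_
      rw [hr j, qm_smul_one, smul_smul]
    have h6 : wp W 0 * tn W hh * W 0 = wp W 0 * tn W ((∑ j, c j * (r j : ℂ)) • (1 : M2)) * W 0 := by
      rw [h5]
    have h7 : wp W 1 * tn W hh * W 1 = wp W 1 * tn W ((∑ j, c j * (r j : ℂ)) • (1 : M2)) * W 1 := by
      rw [h5]
    have h8 : ∀ (i : Fin 2) (n : M2), wp W i * tn W n * W i = n i i • (1 : M4) := by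
      intro i n
      rw [Matrix.mul_assoc, k.tn_w, Matrix.mul_sum, Finset.sum_eq_single i]
      · rw [Matrix.mul_smul, k.wp_w, if_pos rfl]
      · intro j _ hj
        rw [Matrix.mul_smul, k.wp_w, if_neg (Ne.symm hj), smul_zero]
      · intro h
        exact absurd (Finset.mem_univ _) h
    rw [h8, h8] at h6 h7
    have h9 := congrFun (congrFun h6 (0, 0)) (0, 0)
    have h10 := congrFun (congrFun h7 (0, 0)) (0, 0)
    simp [hh] at h9 h10
    rw [← h9] at h10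
    norm_num at h10
  obtain ⟨j, hj⟩ := h4
  obtain ⟨n, hn⟩ := k.comm_tn (qm (C j)) fun σ => commL_of (h1 j) _ (DS_mem σ)
  obtain ⟨r, hr⟩ : ∃ r, r = (C j).trace / 8 := ⟨_, rfl⟩
  have e1 : qm (C j - r • 1) = tn W (n - (r : ℂ) • 1) := by
    rw [tn_sub, tn_smul, k.tn_one, ← hn, ← qm_smul_one]
    ext a b
    change (((C j - r • (1 : Matrix (Fin 4 ⊕ Fin 4) (Fin 4 ⊕ Fin 4) ℚ)) a b : ℚ) : ℂ) =
      ((C j a b : ℚ) : ℂ) - (((r • (1 : Matrix (Fin 4 ⊕ Fin 4) (Fin 4 ⊕ Fin 4) ℚ)) a b : ℚ) : ℂ)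
    rw [Matrix.sub_apply, Rat.cast_sub]
  refine ⟨C j - r • 1, n - (r : ℂ) • 1, e1, ?_, ?_⟩
  · have e2 := k.tn_trace (n - (r : ℂ) • 1)
    rw [← e1] at e2
    have e3 : (qm (C j - r • 1)).trace = (((C j - r • 1).trace : ℚ) : ℂ) := by
      unfold Matrix.trace
      rw [Rat.cast_sum]
      rfl
    have e4 : (C j - r • (1 : Matrix (Fin 4 ⊕ Fin 4) (Fin 4 ⊕ Fin 4) ℚ)).trace = 0 := by
      rw [trace_sub, trace_smul, trace_one, hr]
      simp
    rw [e3, e4, Rat.cast_zero] at e2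
    have e5 : (4 : ℂ) ≠ 0 := by norm_num
    exact (mul_eq_zero.1 e2.symm).resolve_left e5
  · intro h0
    rw [h0] at e1
    have e2 : qm (C j - r • 1) = qm 0 := by
      rw [e1]
      have e3 : tn W (0 : M2) = (0 : ℂ) • tn W (0 : M2) := by
        rw [← tn_smul, smul_zero]
      rw [e3, zero_smul]
      ext a b
      change (0 : ℂ) = (((0 : Matrix (Fin 4 ⊕ Fin 4) (Fin 4 ⊕ Fin 4) ℚ) a b : ℚ) : ℂ)
      simp
    have e3 := qm_inj' e2
    exact hj r (sub_eq_zero.1 e3)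

/-- A rational operator whose square is negative. -/
theorem Bt0.exists_phi (k : Bt0 Z W T) (h : PM Z) :
    ∃ (φ : Matrix (Fin 4 ⊕ Fin 4) (Fin 4 ⊕ Fin 4) ℚ) (n : M2) (d : ℚ), qm φ = tn W n ∧
      n.trace = 0 ∧ 0 < d ∧ n * n = -(d : ℂ) • (1 : M2) ∧ φ * φ = -(d • 1) := by
  obtain ⟨φ, n, h1, h2, h3⟩ := k.exists_rat
  obtain ⟨z, hz⟩ : ∃ z, z = n 0 0 * n 0 0 + n 0 1 * n 1 0 := ⟨_, rfl⟩
  have h4 : n * n = z • (1 : M2) := by rw [hz]; exact sq2 n h2
  have h5 : qm (φ * φ) = z • 1 := by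
    rw [qm_mul', h1, k.tn_mul, h4, tn_smul, k.tn_one]
  obtain ⟨d, hd⟩ : ∃ d : ℚ, d = -(φ * φ) (Sum.inl 0) (Sum.inl 0) := ⟨_, rfl⟩
  have h6 : z = -(d : ℂ) := by
    have h7 := congrFun (congrFun h5 (Sum.inl 0)) (Sum.inl 0)
    have h8 : (((φ * φ) (Sum.inl 0) (Sum.inl 0) : ℚ) : ℂ) = z := by
      refine Eq.trans h7 ?_
      simp
    rw [hd, ← h8]
    push_cast
    ring
  have h7 : φ * φ = -(d • 1) := by
    apply qm_inj'
    rw [h5, h6]
    have h8 : -(d • (1 : Matrix (Fin 4 ⊕ Fin 4) (Fin 4 ⊕ Fin 4) ℚ)) = (-d) • 1 := by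
      rw [neg_smul]
    rw [h8, qm_smul_one]
    push_cast
    rfl
  refine ⟨φ, n, d, h1, h2, ?_, by rw [h4, h6], h7⟩
  -- positivity
  have h8 : ∃ v, qm φ *ᵥ v ≠ 0 := by
    by_contra hne
    push Not at hne
    apply h3
    have h9 : ∀ i j, n i j = 0 := by
      intro i j
      have h10 : wp W i * (qm φ * W j) = n i j • (1 : M4) := by
        rw [h1, k.tn_w, Matrix.mul_sum, Finset.sum_eq_single i]
        · rw [Matrix.mul_smul, k.wp_w, if_pos rfl]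
        · intro l _ hl
          rw [Matrix.mul_smul, k.wp_w, if_neg (Ne.symm hl), smul_zero]
        · intro h
          exact absurd (Finset.mem_univ _) h
      have h11 : qm φ * W j = 0 := by
        ext a b
        exact congrFun (hne fun c => W j c b) a
      rw [h11, Matrix.mul_zero] at h10
      have h12 := congrFun (congrFun h10 (0, 0)) (0, 0)
      simpa using h12.symm
    ext i j
    exact h9 i j
  obtain ⟨v, hv⟩ := h8
  have hv0 : v ≠ 0 := by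
    intro h9
    rw [h9, mulVec_zero] at hv
    exact hv rfl
  have h9 := h.herm_pos hv
  have h10 := h.herm_pos hv0
  have h11 : om 4 (cnj (qm φ *ᵥ v)) (DZ Z *ᵥ (qm φ *ᵥ v)) = (d : ℂ) * om 4 (cnj v) (DZ Z *ᵥ v) := by
    have e1 : cnj (qm φ *ᵥ v) = qm φ *ᵥ cnj v := by
      rw [cnj_mulVec]
      congr 1
      exact cK_aut cc φ
    have e2 : DZ Z *ᵥ (qm φ *ᵥ v) = qm φ *ᵥ (DZ Z *ᵥ v) := by
      have e3 := k.tn_comm n (RingEquiv.refl ℂ)
      have e4 : DS Z (RingEquiv.refl ℂ) = DZ Z := by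
        ext i j
        rfl
      rw [e4, ← h1] at e3
      rw [mulVec_mulVec, mulVec_mulVec, e3]
    have e3 : ∀ x y, om 4 (qm φ *ᵥ x) y = -om 4 x (qm φ *ᵥ y) := by
      intro x y
      have e4 := k.skew h2
      rw [← h1] at e4
      rw [om_apply, om_apply, mulVec_mulVec, ← vecMul_transpose, ← dotProduct_mulVec, mulVec_mulVec,
        ← dotProduct_neg, ← neg_mulVec]
      congr 2
      exact eq_neg_of_add_eq_zero_left e4
    rw [e1, e2, e3, mulVec_mulVec, ← qm_mul', h7]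
    have e5 : qm (-(d • (1 : Matrix (Fin 4 ⊕ Fin 4) (Fin 4 ⊕ Fin 4) ℚ))) = (-(d : ℂ)) • 1 := by
      rw [← neg_smul, qm_smul_one, Rat.cast_neg]
    rw [e5, smul_mulVec, one_mulVec, map_smul, smul_eq_mul]
    ring
  rw [h11] at h9
  have h12 : Complex.I * ((d : ℂ) * om 4 (cnj v) (DZ Z *ᵥ v)) =
      (d : ℂ) * (Complex.I * om 4 (cnj v) (DZ Z *ᵥ v)) := by ring
  rw [h12] at h9
  have h13 : (0 : ℂ) < (d : ℂ) := pos_of_mul_pos_left h9 h10.le
  have h14 : ((d : ℂ)) = (((d : ℝ)) : ℂ) := by push_cast; rfl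
  rw [h14] at h13
  have h15 : (0 : ℝ) < (d : ℝ) := by exact_mod_cast h13
  exact_mod_cast h15

theorem Bt0.chg_tn (k : Bt0 Z W T) {g : M2} (hg : g.det = 1) :
    Bt0 Z (fun j => g 0 j • W 0 + g 1 j • W 1) T := by
  rw [Matrix.det_fin_two] at hg
  have e1 : ∀ i j, (g 0 i • W 0 + g 1 i • W 1)ᵀ * Om 4 ℂ * (g 0 j • W 0 + g 1 j • W 1) =
      (g 0 i * g 1 j - g 1 i * g 0 j) • QB := by
    intro i j
    simp only [transpose_add, transpose_smul, Matrix.add_mul, Matrix.mul_add, Matrix.smul_mul,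
      Matrix.mul_smul, k.o00, k.o01, k.o10, k.o11, smul_zero, add_zero, zero_add, smul_neg,
      smul_smul]
    rw [← neg_smul, ← add_smul]
    congr 1
    ring
  refine ⟨k.tr, ?_, ?_, ?_, ?_, k.alt, k.irr⟩
  · intro j σ
    rw [Matrix.mul_add, Matrix.add_mul, Matrix.mul_smul, Matrix.mul_smul, k.ax, k.ax,
      Matrix.smul_mul, Matrix.smul_mul]
  · rw [e1, show g 0 0 * g 1 1 - g 1 0 * g 0 1 = 1 by linear_combination hg, one_smul]
  · rw [e1, show g 0 0 * g 1 0 - g 1 0 * g 0 0 = 0 by ring, zero_smul]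
  · rw [e1, show g 0 1 * g 1 1 - g 1 1 * g 0 1 = 0 by ring, zero_smul]

/-- **The structure with a rational operator.** -/
theorem Bt.exists_final (k : Bt Z W T) (h : PM Z) :
    ∃ (W : Fin 2 → Matrix (Fin 4 ⊕ Fin 4) (Fin 2 × Fin 2) ℂ)
      (φ : Matrix (Fin 4 ⊕ Fin 4) (Fin 4 ⊕ Fin 4) ℚ) (d : ℚ), Bt Z W T ∧ 0 < d ∧
      φ * φ = -(d • 1) ∧ qm φ * W 0 = (Complex.I * rt d) • W 0 ∧
      qm φ * W 1 = -(Complex.I * rt d) • W 1 := by
  obtain ⟨φ, n, d, h1, h2, h3, h4, h5⟩ := k.exists_phi h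
  obtain ⟨γ, hγ⟩ : ∃ γ, γ = Complex.I * (rt d : ℂ) := ⟨_, rfl⟩
  have hγγ : γ * γ = -(d : ℂ) := by rw [hγ, Irt_sq h3]
  have hγ0 : γ ≠ 0 := by
    intro h0
    rw [h0, mul_zero, eq_comm, neg_eq_zero] at hγγ
    exact h3.ne' (by exact_mod_cast hγγ)
  have e1 : (γ⁻¹ • n).trace = 0 := by rw [trace_smul, h2, smul_zero]
  have e2 : (γ⁻¹ • n) * (γ⁻¹ • n) = 1 := by
    rw [Matrix.smul_mul, Matrix.mul_smul, h4, smul_smul, ← hγγ, smul_smul]
    rw [show γ⁻¹ * γ⁻¹ * (γ * γ) = 1 by field_simp, one_smul]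
  obtain ⟨g, g', g1, g2, g3, g4⟩ := exists_diag _ e1 e2
  have e3 : n * g = g * (γ • hh) := by
    rw [← g4]
    have e5 : γ • (g' * (γ⁻¹ • n) * g) = g' * n * g := by
      rw [Matrix.mul_smul, Matrix.smul_mul, smul_smul, mul_inv_cancel₀ hγ0, one_smul]
    rw [e5, ← Matrix.mul_assoc, ← Matrix.mul_assoc, g1, Matrix.one_mul]
  have e4 : ∀ j, qm φ * (g 0 j • W 0 + g 1 j • W 1) =
      (n * g) 0 j • W 0 + (n * g) 1 j • W 1 := by
    intro j
    rw [Matrix.mul_add, Matrix.mul_smul, Matrix.mul_smul, h1, k.tn_w, k.tn_w, Fin.sum_univ_two,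
      Fin.sum_univ_two, mul2, mul2, smul_add, smul_add, smul_smul, smul_smul, smul_smul, smul_smul,
      add_smul, add_smul, mul_comm (g 0 j), mul_comm (g 0 j), mul_comm (g 1 j), mul_comm (g 1 j)]
    abel
  refine ⟨_, φ, d, ⟨k.toBt0.chg_tn g3, k.full⟩, h3, h5, ?_, ?_⟩
  · rw [e4, e3, ← hγ, smul_add, smul_smul, smul_smul, mul2, mul2]
    simp [hh, mul_comm]
  · rw [e4, e3, ← hγ, smul_add, smul_smul, smul_smul, mul2, mul2]
    simp [hh, mul_comm]

end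

end Pool.Agent.N995
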