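import Mathlib
import Pool.Agent.N995.Bet4
import Pool.Agent.N995.Sel
import Pool.Agent.N995.Gam6

/-!
# Powers of the fourfolds with a definite quaternion algebra
-/

set_option linter.unusedSectionVars false

namespace Pool.Agent.N995

open Matrix Module Pool.Agent.W437.HC Pool.Agent.W437.HD Pool.Agent.TH504.CB Pool.Agent.Y90
open Pool.Agent.R915
open Pool.Agent.W548.Odd hiding cv
open Pool.Agent.W437.HP (cK cK_mul cK_one cK_sum)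
open scoped ComplexOrder Kronecker

noncomputable section

variable {Z : Matrix (Fin 4) (Fin 4) ℂ} {W : Fin 2 → Matrix (Fin 4 ⊕ Fin 4) (Fin 2 × Fin 2) ℂ}
  {T : Fin 2 → (ℂ ≃+* ℂ) → M2} {φ : Matrix (Fin 4 ⊕ Fin 4) (Fin 4 ⊕ Fin 4) ℚ} {γ : ℂ}

theorem Bt0.om00 (k : Bt0 Z W T) (x y : Fin 2 × Fin 2 → ℂ) : om 4 (W 0 *ᵥ x) (W 0 *ᵥ y) = 0 := by
  have e1 : om 4 (W 0 *ᵥ x) (W 0 *ᵥ y) = x ⬝ᵥ (((W 0)ᵀ * Om 4 ℂ * W 0) *ᵥ y) := by
    rw [om_apply, ← mulVec_mulVec, ← mulVec_mulVec, dotProduct_mulVec x (W 0)ᵀ, vecMul_transpose]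
  rw [e1, k.o00, zero_mulVec, dotProduct_zero]

section eqv

variable (k : Bt0 Z W T) (h0 : qm φ * W 0 = γ • W 0) (h1 : qm φ * W 1 = -γ • W 1) (hγ : γ ≠ 0)
include k h0 h1

theorem Bt0.phi_eq : qm φ = γ • (W 0 * wp W 0) - γ • (W 1 * wp W 1) := by
  refine k.ext_w fun j => ?_
  rw [Matrix.sub_mul, Matrix.smul_mul, Matrix.smul_mul, Matrix.mul_assoc, Matrix.mul_assoc,
    k.wp_w, k.wp_w]
  fin_cases j
  · refine Eq.trans h0 ?_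
    simp
  · refine Eq.trans h1 ?_
    simp

include hγ in
theorem Bt0.mem_VE (v : Fin 4 ⊕ Fin 4 → ℂ) : v ∈ VE φ γ ↔ wp W 1 *ᵥ v = 0 := by
  rw [Pool.Agent.R915.mem_VE, k.phi_eq h0 h1]
  have e1 : W 0 *ᵥ (wp W 0 *ᵥ v) + W 1 *ᵥ (wp W 1 *ᵥ v) = v := by
    rw [mulVec_mulVec, mulVec_mulVec, ← add_mulVec, k.sum2, one_mulVec]
  rw [sub_mulVec, smul_mulVec, smul_mulVec, ← mulVec_mulVec, ← mulVec_mulVec]
  constructor
  · intro e2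
    have e3 : γ • (W 0 *ᵥ (wp W 0 *ᵥ v)) - γ • (W 1 *ᵥ (wp W 1 *ᵥ v)) =
        γ • (W 0 *ᵥ (wp W 0 *ᵥ v) + W 1 *ᵥ (wp W 1 *ᵥ v)) := by rw [e1, e2]
    have e4 : W 1 *ᵥ (wp W 1 *ᵥ v) = 0 := by
      have e5 : (2 * γ) • (W 1 *ᵥ (wp W 1 *ᵥ v)) = 0 := by
        rw [smul_add] at e3
        rw [mul_smul, two_smul]
        have e6 := sub_eq_zero.2 e3.symm
        rw [← e6]
        abel
      exact (smul_eq_zero.1 e5).resolve_left (mul_ne_zero two_ne_zero hγ)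
    have e5 := congrArg (fun w => wp W 1 *ᵥ w) e4
    beta_reduce at e5
    rwa [mulVec_mulVec, k.wp_w, if_pos rfl, one_mulVec, mulVec_zero] at e5
  · intro e2
    rw [e2, mulVec_zero, add_zero] at e1
    rw [e2, mulVec_zero, smul_zero, sub_zero, e1]

/-- The coordinates of the eigenspace. -/
def Bt0.eqV (k : Bt0 Z W T) (h0 : qm φ * W 0 = γ • W 0) (h1 : qm φ * W 1 = -γ • W 1)
    (hγ : γ ≠ 0) : VE φ γ ≃ₗ[ℂ] (Fin 2 × Fin 2 → ℂ) where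
  toFun v := wp W 0 *ᵥ (v : Fin 4 ⊕ Fin 4 → ℂ)
  map_add' v w := by rw [Submodule.coe_add, mulVec_add]
  map_smul' c v := by
    rw [Submodule.coe_smul, mulVec_smul]
    rfl
  invFun x := ⟨W 0 *ᵥ x, by
    rw [k.mem_VE h0 h1 hγ, mulVec_mulVec, k.wp_w]
    simp⟩
  left_inv v := by
    apply Subtype.ext
    change W 0 *ᵥ (wp W 0 *ᵥ (v : Fin 4 ⊕ Fin 4 → ℂ)) = v
    have e1 : W 0 *ᵥ (wp W 0 *ᵥ (v : Fin 4 ⊕ Fin 4 → ℂ)) +
        W 1 *ᵥ (wp W 1 *ᵥ (v : Fin 4 ⊕ Fin 4 → ℂ)) = v := by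
      rw [mulVec_mulVec, mulVec_mulVec, ← add_mulVec, k.sum2, one_mulVec]
    rwa [(k.mem_VE h0 h1 hγ _).1 v.2, mulVec_zero, add_zero] at e1
  right_inv x := by
    change wp W 0 *ᵥ (W 0 *ᵥ x) = x
    rw [mulVec_mulVec, k.wp_w, if_pos rfl, one_mulVec]

/-- The basis of the eigenspace. -/
def Bt0.baV (k : Bt0 Z W T) (h0 : qm φ * W 0 = γ • W 0) (h1 : qm φ * W 1 = -γ • W 1)
    (hγ : γ ≠ 0) : Basis (Fin 2 × Fin 2) ℂ (VE φ γ) := Basis.ofEquivFun (k.eqV h0 h1 hγ)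

theorem Bt0.baV_repr (hγ : γ ≠ 0) (v : VE φ γ) (j : Fin 2 × Fin 2) :
    (k.baV h0 h1 hγ).repr v j = (wp W 0 *ᵥ (v : Fin 4 ⊕ Fin 4 → ℂ)) j := by
  unfold Bt0.baV
  rw [Basis.ofEquivFun_repr_apply]
  rfl

theorem Bt0.phi_comm (σ : ℂ ≃+* ℂ) : DS Z σ * qm φ = qm φ * DS Z σ := by
  refine k.ext_w fun j => ?_
  have e1 : ∀ j, ∃ c : ℂ, qm φ * W j = c • W j := by
    intro j
    fin_cases j
    · exact ⟨γ, h0⟩
    · exact ⟨-γ, h1⟩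
  obtain ⟨c, hc⟩ := e1 j
  rw [Matrix.mul_assoc, Matrix.mul_assoc (qm φ), hc, k.ax, ← Matrix.mul_assoc, hc, Matrix.mul_smul,
    k.ax, Matrix.smul_mul]

theorem Bt0.W0_mem (hγ : γ ≠ 0) (x : Fin 2 × Fin 2 → ℂ) : W 0 *ᵥ x ∈ VE φ γ := by
  rw [k.mem_VE h0 h1 hγ, mulVec_mulVec, k.wp_w]
  simp

/-- The imaginary quadratic field. -/
theorem Bt0.kw (hγ : γ ≠ 0) {d : ℚ} (hd : 0 < d) (hs : φ * φ = -(d • 1))
    (hγγ : γ * γ = -(d : ℂ)) : KW Z (VE φ γ) φ γ d where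
  dim := by
    rw [Module.finrank_eq_card_basis (k.baV h0 h1 hγ)]
    rfl
  comm := commL_of (by
    have e1 := k.phi_comm h0 h1 (RingEquiv.refl ℂ)
    rw [DS_refl] at e1
    exact e1.symm)
  pos := hd
  sq := hs
  al := hγγ
  mem v := Pool.Agent.R915.mem_VE
  isot u hu v hv := by
    have e1 : ∀ w ∈ VE φ γ, W 0 *ᵥ (wp W 0 *ᵥ w) = w := fun w hw =>
      congrArg Subtype.val ((k.eqV h0 h1 hγ).left_inv ⟨w, hw⟩)
    rw [← e1 u hu, ← e1 v hv, k.om00]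

theorem Bt0.tr_V (hγ : γ ≠ 0) (h : PM Z) : Y90.tr Z (VE φ γ) = 0 := by
  have hc := k.phi_comm h0 h1 (RingEquiv.refl ℂ)
  rw [DS_refl] at hc
  have e0 : DZ Z * (W 0 * wp W 0) = W 0 * bop T (RingEquiv.refl ℂ) * wp W 0 := by
    have e1 := k.ax 0 (RingEquiv.refl ℂ)
    rw [DS_refl] at e1
    rw [← Matrix.mul_assoc, e1]
  have e0' : (W 0 * wp W 0) * DZ Z = W 0 * bop T (RingEquiv.refl ℂ) * wp W 0 := by
    have e1 := k.wp_mul 0 (RingEquiv.refl ℂ)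
    rw [DS_refl] at e1
    rw [Matrix.mul_assoc, e1, Matrix.mul_assoc]
  have e1 := trace_DP h (VE_stab (θ := γ) hc.symm) (e := W 0 * wp W 0) (fun v => by
      rw [← mulVec_mulVec]
      exact k.W0_mem h0 h1 hγ _)
    (fun v hv => by
      rw [← mulVec_mulVec]
      exact congrArg Subtype.val ((k.eqV h0 h1 hγ).left_inv ⟨v, hv⟩))
    (by rw [e0, e0'])
  have e2 : (bop T (RingEquiv.refl ℂ)).trace = 0 := by
    rw [bop_eq, trace_add, trace_kronecker, trace_kronecker, k.tr, k.tr, zero_mul, mul_zero,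
      add_zero]
  rw [e0, Matrix.trace_mul_comm, ← Matrix.mul_assoc, k.wp_w, if_pos rfl, Matrix.one_mul, e2] at e1
  have e3 : ((Y90.tr Z (VE φ γ) : ℤ) : ℂ) = 0 := by
    unfold Y90.tr
    push_cast
    exact e1.symm
  exact_mod_cast e3

theorem Bt0.toMat (hγ : γ ≠ 0) (w : Fin 2 × Fin 2 → VE φ γ) (u : Fin 2 × Fin 2 → Fin 2 × Fin 2 → ℂ)
    (hw : ∀ y, (w y : Fin 4 ⊕ Fin 4 → ℂ) = W 0 *ᵥ u y) :
    (k.baV h0 h1 hγ).det w = (Matrix.of u).det := by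
  rw [Basis.det_apply, ← Matrix.det_transpose]
  have e1 : ((k.baV h0 h1 hγ).toMatrix w)ᵀ = Matrix.of u := by
    ext x y
    have e2 : ((k.baV h0 h1 hγ).toMatrix w)ᵀ x y = (k.baV h0 h1 hγ).repr (w x) y := rfl
    rw [e2, k.baV_repr h0 h1 hγ, hw, mulVec_mulVec, k.wp_w, if_pos rfl, one_mulVec]
    rfl
  rw [e1]

end eqv

/-- **The determinant forms belong to the system.** -/
theorem Bt0.form_mem (k : Bt0 Z W T) (h : PM Z) {d : ℚ} (hd : 0 < d) (hs : φ * φ = -(d • 1))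
    (h0 : qm φ * W 0 = (Complex.I * rt d) • W 0) (h1 : qm φ * W 1 = -(Complex.I * rt d) • W 1)
    (𝒜 : Sys) {G : ℕ} {Z' : Matrix (Fin G) (Fin G) ℂ} (h' : PM Z')
    (R : Fin 2 × Fin 2 → Matrix (Fin 2 × Fin 2) (Fin G ⊕ Fin G) ℂ)
    (hR : ∀ y σ, R y * DS Z' σ = bop T σ * R y)
    (ψ : MultilinearMap ℂ (fun _ : Fin 2 × Fin 2 => Fin G ⊕ Fin G → ℂ) ℂ)
    (hψ : ∀ v, ψ v = (Matrix.of fun y x => (R y *ᵥ v y) x).det) :
    ψ ∈ NA 𝒜 h'.cht ⟨_, h'.polar⟩ (Fin 2 × Fin 2) := by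
  obtain ⟨γ, hγ⟩ : ∃ γ, γ = Complex.I * (rt d : ℂ) := ⟨_, rfl⟩
  have hγγ : γ * γ = -(d : ℂ) := by rw [hγ, Irt_sq hd]
  have hγ0 : γ ≠ 0 := by
    intro h0
    rw [h0, mul_zero, eq_comm, neg_eq_zero] at hγγ
    exact hd.ne' (by exact_mod_cast hγγ)
  rw [← hγ] at h0 h1
  have kw1 : KW Z (VE φ γ) φ (((1 : ℚ) : ℂ) * γ) d := by
    rw [Rat.cast_one, one_mul]
    exact k.kw h0 h1 hγ0 hd hs hγγ
  let l : Fin 0 → ℚ := fun i => i.elim0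
  have hl : ∀ i, 0 < l i := fun i => i.elim0
  have h2 : PM (ZE (fun _ : Fin 0 => d) l) := pmE (fun _ => hd) hl
  have kw2 := kwE (M := 0) (l := l) hd hl hγγ (ε := 1) (by norm_num)
  have ht2 : Y90.tr Z (VE φ γ) + Y90.tr (ZE (fun _ : Fin 0 => d) l) (UE l γ) = 0 := by
    have e1 := trE (M := 0) (l := l) hd hl (s := 1) (Or.inl rfl)
    rw [Int.cast_one, one_mul, ← hγ] at e1
    rw [k.tr_V h0 h1 hγ0 h, e1]
    simp
  have hN : Clo (fun (κ : Type) [Finite κ] => NA 𝒜 h'.cht ⟨_, h'.polar⟩ κ) := clo_NA _ _ _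
  let e : (Fin 2 × Fin 2) ⊕ Fin 0 ≃ Fin 2 × Fin 2 := Equiv.sumEmpty _ _
  let ψ' : MultilinearMap ℂ (fun _ : (Fin 2 × Fin 2) ⊕ Fin 0 => Fin G ⊕ Fin G → ℂ) ℂ :=
    ψ.domDomCongr e.symm
  have hψ' : ψ' ∈ NA 𝒜 h'.cht ⟨_, h'.polar⟩ ((Fin 2 × Fin 2) ⊕ Fin 0) := by
    refine gen_det h'.cht ⟨_, h'.polar⟩ h h2 kw1 kw2 ht2 (k.baV h0 h1 hγ0) (basE l γ)
      (Or.inr (Or.inl rfl)) (fun h3 => absurd h3 (by norm_num)) 𝒜 (fun y => W 0 * R y)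
      (fun y => y.elim0) (fun y σ => ?_) (fun y => y.elim0) ψ' (fun v => ?_)
    · change W 0 * R y * DS Z' σ = DS Z σ * (W 0 * R y)
      rw [Matrix.mul_assoc, hR, ← Matrix.mul_assoc, ← k.ax, Matrix.mul_assoc]
    · have e1 : ψ' v = ψ (fun y => v (Sum.inl y)) := rfl
      have e2 : (kw2.alt (basE l γ)) (fun y => (fun y : Fin 0 => y.elim0 :
          Fin 0 → Matrix _ (Fin G ⊕ Fin G) ℂ) y *ᵥ v (Sum.inr y)) = 1 := by
        rw [KW.alt_apply, Basis.det_apply, Matrix.det_isEmpty]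
      rw [e1, hψ]
      refine Eq.trans ?_ (congrArg₂ (· * ·) rfl e2.symm)
      rw [mul_one, KW.alt_apply]
      refine (k.toMat h0 h1 hγ0 _ (fun y => R y *ᵥ v (Sum.inl y)) fun y => ?_).symm
      rw [← mulVec_mulVec, kw1.pU_of_mem (k.W0_mem h0 h1 hγ0 _)]
  refine hN.reindex e hψ' ψ fun v => ?_
  change _ = ψ fun k => v (e (e.symm k))
  simp only [Equiv.apply_symm_apply]

/-- The operators of the model. -/
def dB (T : Fin 2 → (ℂ ≃+* ℂ) → M2) (σ : ℂ ≃+* ℂ) :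
    (Fin 3 → M2) × ((Empty ⊕ Empty) ⊕ Empty → ℂ) := (![T 0 σ, T 1 σ, 0], 0)

theorem Bt0.cov (k : Bt0 Z W T) : Cov Z (fun σ => Th kOB
    (clc (PE := Empty) (fun i : Empty => i.elim)) (dB T σ)) :=
  Cov.sel (fun _ : Fin 2 => slO (Fin 2 × Fin 2) (Empty ⊕ Empty) Empty)
    (fun _ => slO' (Fin 2 × Fin 2) (Empty ⊕ Empty) Empty) (fun _ => slO_one)
    (fun _ σ => bop T σ) (fun _ σ => slO_Th kOB _ (dB T σ)) (fun _ σ => Th_slO kOB _ (dB T σ))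
    W (wp W) (fun j σ => k.ax j σ) (fun j σ => k.wp_mul j σ) k.sum

theorem Bt.mod (k : Bt Z W T) (h : PM Z) {d : ℚ} (hd : 0 < d) (hs : φ * φ = -(d • 1))
    (h0 : qm φ * W 0 = (Complex.I * rt d) • W 0) (h1 : qm φ * W 1 = -(Complex.I * rt d) • W 1)
    (𝒜 : Sys) (G : ℕ) (Z' : Matrix (Fin G) (Fin G) ℂ) (h' : PM Z')
    (hcov : Cov Z' (fun σ => Th kOB (clc (PE := Empty) (fun i : Empty => i.elim)) (dB T σ)))
    (κ : Type) [Fintype κ] [DecidableEq κ]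
    (F : MultilinearMap ℂ (fun _ : κ => Fin G ⊕ Fin G → ℂ) ℂ) (hF : ∀ X ∈ LZ Z', KillM X F) :
    F ∈ NA 𝒜 h'.cht ⟨_, h'.polar⟩ κ := by
  have hf : ∀ c : Fin 2, Full (dB T) c.castSucc := by
    intro c
    fin_cases c
    · refine ⟨k.full 0, ?_, ?_⟩
      · exact k.ne0 1
      · exact k.ne0 0
    · refine ⟨k.full 1, ?_, ?_⟩
      · exact k.ne1 1
      · exact k.ne1 0
  refine model_final (O := Fin 2 × Fin 2) (PY := Empty) (PE := Empty) (Λ := Empty) 𝒜 h' kOB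
    (fun i : Empty => i.elim) (fun i => i.elim) (fun i => i.elim) (fun i => i.elim) kOB_br (dB T)
    ?_ ?_ (hf 0) (hf 1) (Or.inl fun s => rfl) (Or.inr ?_) (fun c => Or.inr ?_) QB QB QB_symm QB_inv
    (fun u v => ?_) kOB_inv
    (S := (ℂ ≃+* ℂ) × Bool) Prod.fst (fun s => ⟨(s, true), rfl⟩)
    (fun c s => (![if s.2 then 1 else 0, if s.2 then 0 else 1, 1] : Fin 3 → ℤ) c)
    (fun s i => i.elim) (fun s i => i.elim) (fun s i => i.elim) ?_ ?_ ?_ (fun i => i.elim) hcov F hF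
  · intro s c
    fin_cases c
    · exact k.tr 0 s
    · exact k.tr 1 s
    · exact trace_zero _ _
  · intro s
    rcases k.alt s with ⟨e1, -⟩ | ⟨e1, -⟩
    · exact Or.inl e1
    · exact Or.inr e1
  · rintro (p | p) <;> exact p.elim
  · rintro (p | p) <;> exact p.elim
  · obtain ⟨T', e1, e2, e3⟩ := kOB_op u v
    exact ⟨T', e1, fun p => by rcases p with p | p <;> exact p.elim, e2, e3⟩
  · exact ⟨(RingEquiv.refl ℂ, true), Or.inl rfl, rfl, Or.inl rfl⟩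
  · exact ⟨(RingEquiv.refl ℂ, false), rfl, Or.inl rfl, Or.inl rfl⟩
  · intro q hq
    refine k.form_mem h hd hs h0 h1 𝒜 h' (fun y => slO (Fin 2 × Fin 2) (Empty ⊕ Empty) Empty * q y)
      (fun y σ => ?_) _ (fun v => ?_)
    · rw [Matrix.mul_assoc, hq y σ, ← Matrix.mul_assoc, slO_Th, Matrix.mul_assoc]
      rfl
    · change Matrix.det (fun y x => (q y *ᵥ v y) (Sum.inl x)) = _
      congr 1
      funext y x
      have e1 : ((slO (Fin 2 × Fin 2) (Empty ⊕ Empty) Empty * q y) *ᵥ v y) x =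
          (q y *ᵥ v y) (Sum.inl x) := by
        have e2 : slO (Fin 2 × Fin 2) (Empty ⊕ Empty) Empty * q y =
            Matrix.of fun a b => q y (Sum.inl a) b := by
          ext a b
          exact slO_mul _ a b
        rw [e2]
        rfl
      exact e1.symm

/-- **The result for the fourfolds with a definite quaternion algebra.** -/
theorem beta_all (𝒜 : Sys) {Z : Matrix (Fin 4) (Fin 4) ℂ} (h : PM Z)
    {U : Submodule ℂ (Fin 4 ⊕ Fin 4 → ℂ)} (hU : IrS (LZ Z) U) (hd : finrank ℂ U = 4)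
    {b : (Fin 4 ⊕ Fin 4 → ℂ) →ₗ[ℂ] (Fin 4 ⊕ Fin 4 → ℂ) →ₗ[ℂ] ℂ}
    (h0 : ∃ u ∈ U, ∃ v ∈ U, b u v ≠ 0)
    (hb : ∀ X ∈ LZ Z, ∀ u ∈ U, ∀ v ∈ U, b (X *ᵥ u) v + b u (X *ᵥ v) = 0)
    (hsym : ∀ u ∈ U, ∀ v ∈ U, b u v = b v u) (X : AV)
    (hX : ∀ Y, IsFactor Y X → Isg Y (AVZ h)) : 𝒜.AllHodge X := by
  obtain ⟨W, T, k⟩ := exists_bt0 h hU hd h0 hb hsym
  obtain ⟨W, T, k⟩ := k.exists_bt
  obtain ⟨W, φ, d, k, hd, hs, h1, h2⟩ := k.exists_final h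
  refine cov_all 𝒜 X (fun a Z' h' hf => ?_)
    (fun G Z' h' hc κ _ _ F hF => k.mod h hd hs h1 h2 𝒜 G Z' h' hc κ F hF)
  obtain ⟨e, he, he'⟩ := hX _ hf
  exact Cov.isog h' h e he he' k.cov

end

end Pool.Agent.N995
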