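import Mathlib
import Pool.Agent.N995.Bet5

/-!
# Powers of products of the fourfolds with a definite quaternion algebra and elliptic curves
-/

set_option linter.unusedSectionVars false

namespace Pool.Agent.N995

open Matrix Module Pool.Agent.W437.HC Pool.Agent.W437.HD Pool.Agent.TH504.CB Pool.Agent.Y90
open Pool.Agent.R915
open Pool.Agent.W548.Odd hiding cv
open Pool.Agent.W437.HP (cK cK_mul cK_one cK_sum)
open scoped ComplexOrder Kronecker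

noncomputable section

section ell

variable {ZE : Matrix (Fin 1) (Fin 1) ℂ} {x : Matrix (Fin 1 ⊕ Fin 1) (Fin 2) ℂ}
  {x' : Matrix (Fin 2) (Fin 1 ⊕ Fin 1) ℂ} {τE : (ℂ ≃+* ℂ) → M2}
  {O PY PE Λ : Type} [Fintype O] [DecidableEq O] [Fintype PY] [DecidableEq PY] [Fintype PE]
  [DecidableEq PE] [Fintype Λ] [DecidableEq Λ]

/-- Labels of the last class cover elliptic curves. -/
theorem EB.covP (k : EB ZE x x' τE) (kO : (Fin 3 → M2) →ₗ[ℂ] Matrix O O ℂ)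
    (cs : PY → Fin 2 × Bool) (d : (ℂ ≃+* ℂ) → (Fin 3 → M2) × ((PY ⊕ Unit) ⊕ Λ → ℂ))
    (h1 : ∀ σ, (d σ).1 2 = τE σ) (h2 : ∀ σ, (d σ).2 (Sum.inl (Sum.inr ())) = 0) :
    Cov ZE (fun σ => Th kO (clc (PE := Unit) cs) (d σ)) :=
  Cov.sel (fun p : Unit => slP O Λ (Sum.inr p))
    (fun p => slP' O Λ (Sum.inr p)) (fun p => slP_one _) (fun _ σ => τE σ)
    (fun p σ => by
      rw [slP_Th]
      congr 1
      have e1 : (d σ).1 (clc (PE := Unit) cs (Sum.inr p)) = τE σ := h1 σ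
      have e2 : (d σ).2 (Sum.inl (Sum.inr p)) = 0 := h2 σ
      rw [e1, e2, zero_smul, add_zero])
    (fun p σ => by
      rw [Th_slP]
      congr 1
      have e1 : (d σ).1 (clc (PE := Unit) cs (Sum.inr p)) = τE σ := h1 σ
      have e2 : (d σ).2 (Sum.inl (Sum.inr p)) = 0 := h2 σ
      rw [e1, e2, zero_smul, add_zero])
    (fun _ => x) (fun _ => x') (fun _ σ => k.ax σ) (fun _ σ => k.ax' σ) (by
      rw [Finset.univ_unique, Finset.sum_singleton]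
      exact k.xx)

/-- Lines cover elliptic curves. -/
theorem EB.covL (k : EB ZE x x' τE) {dE : ℚ} (hE : ∀ σ, τE σ = (rho dE σ : ℂ) • hh)
    (kO : (Fin 3 → M2) →ₗ[ℂ] Matrix O O ℂ) (cs : PY → Fin 2 × Bool)
    (d : (ℂ ≃+* ℂ) → (Fin 3 → M2) × ((PY ⊕ PE) ⊕ Bool → ℂ))
    (h1 : ∀ σ i, (d σ).2 (Sum.inr i) = ((sg i * rho dE σ : ℤ) : ℂ)) :
    Cov ZE (fun σ => Th kO (clc (PE := PE) cs) (d σ)) :=
  Cov.sel (fun i : Bool => slL O _ i)
    (fun i => slL' O _ i) (fun i => slL_one _)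
    (fun i σ => ((sg i * rho dE σ : ℤ) : ℂ) • (1 : Matrix Unit Unit ℂ))
    (fun i σ => by rw [slL_Th, h1])
    (fun i σ => by rw [Th_slL, h1])
    (fun i => Matrix.of fun v _ => x v (bi i)) (fun i => Matrix.of fun _ v => x' (bi i) v)
    (fun i σ => by
      ext v u
      have h1 := congrFun (congrFun (k.ax σ) v) (bi i)
      rw [Matrix.mul_smul, Matrix.mul_one, Matrix.smul_apply, smul_eq_mul, of_apply]
      have h2 : (DS ZE σ * Matrix.of fun v (_ : Unit) => x v (bi i)) v u = (DS ZE σ * x) v (bi i) :=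
        rfl
      rw [h2, h1, hE, Matrix.mul_smul, Matrix.smul_apply, smul_eq_mul, Matrix.mul_apply]
      simp only [hh_bi']
      push_cast
      simp only [mul_ite, mul_zero, Finset.sum_ite_eq', Finset.mem_univ, if_true]
      ring)
    (fun i σ => by
      ext u v
      have h1 := congrFun (congrFun (k.ax' σ) (bi i)) v
      rw [Matrix.smul_mul, Matrix.one_mul, Matrix.smul_apply, smul_eq_mul, of_apply]
      have h2 : ((Matrix.of fun (_ : Unit) v => x' (bi i) v) * DS ZE σ) u v =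
        (x' * DS ZE σ) (bi i) v := rfl
      rw [h2, h1, hE, Matrix.smul_mul, Matrix.smul_apply, smul_eq_mul, Matrix.mul_apply]
      simp only [hh_bi]
      push_cast
      simp only [ite_mul, zero_mul, Finset.sum_ite_eq', Finset.mem_univ, if_true]
      ring)
    (by
      rw [← k.xx]
      ext a b
      rw [Matrix.sum_apply, Matrix.mul_apply, Fintype.sum_bool, Fin.sum_univ_two, Matrix.mul_apply,
        Matrix.mul_apply]
      simp [bi])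

end ell

/-- The operators for the first case. -/
def dB1 (T : Fin 2 → (ℂ ≃+* ℂ) → M2) (τE : (ℂ ≃+* ℂ) → M2) (σ : ℂ ≃+* ℂ) :
    (Fin 3 → M2) × ((Empty ⊕ Unit) ⊕ Empty → ℂ) := (![T 0 σ, T 1 σ, τE σ], 0)

/-- The operators for the second case. -/
def dB2 (T : Fin 2 → (ℂ ≃+* ℂ) → M2) (dE : ℚ) (σ : ℂ ≃+* ℂ) :
    (Fin 3 → M2) × ((Empty ⊕ Empty) ⊕ Bool → ℂ) :=
  (![T 0 σ, T 1 σ, 0], Sum.elim 0 fun i => ((sg i * rho dE σ : ℤ) : ℂ))

variable {Z : Matrix (Fin 4) (Fin 4) ℂ} {W : Fin 2 → Matrix (Fin 4 ⊕ Fin 4) (Fin 2 × Fin 2) ℂ}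
  {T : Fin 2 → (ℂ ≃+* ℂ) → M2} {φ : Matrix (Fin 4 ⊕ Fin 4) (Fin 4 ⊕ Fin 4) ℚ} {γ : ℂ}

theorem Bt0.cov1 (k : Bt0 Z W T) (τE : (ℂ ≃+* ℂ) → M2) : Cov Z (fun σ => Th kOB
    (clc (PE := Unit) (fun i : Empty => i.elim)) (dB1 T τE σ)) :=
  Cov.sel (fun _ : Fin 2 => slO (Fin 2 × Fin 2) (Empty ⊕ Unit) Empty)
    (fun _ => slO' (Fin 2 × Fin 2) (Empty ⊕ Unit) Empty) (fun _ => slO_one)
    (fun _ σ => bop T σ) (fun _ σ => slO_Th kOB _ (dB1 T τE σ))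
    (fun _ σ => Th_slO kOB _ (dB1 T τE σ))
    W (wp W) (fun j σ => k.ax j σ) (fun j σ => k.wp_mul j σ) k.sum

theorem Bt0.cov2 (k : Bt0 Z W T) (dE : ℚ) : Cov Z (fun σ => Th kOB
    (clc (PE := Empty) (fun i : Empty => i.elim)) (dB2 T dE σ)) :=
  Cov.sel (fun _ : Fin 2 => slO (Fin 2 × Fin 2) (Empty ⊕ Empty) Bool)
    (fun _ => slO' (Fin 2 × Fin 2) (Empty ⊕ Empty) Bool) (fun _ => slO_one)
    (fun _ σ => bop T σ) (fun _ σ => slO_Th kOB _ (dB2 T dE σ))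
    (fun _ σ => Th_slO kOB _ (dB2 T dE σ))
    W (wp W) (fun j σ => k.ax j σ) (fun j σ => k.wp_mul j σ) k.sum

theorem Bt.fu (k : Bt Z W T) (c : Fin 2) : (∃ s, T c s = hh) ∧ (∃ s, T c s 1 0 ≠ 0) ∧
    ∃ s, T c s 0 1 ≠ 0 := by
  fin_cases c
  · exact ⟨k.full 0, k.ne0 1, k.ne0 0⟩
  · exact ⟨k.full 1, k.ne1 1, k.ne1 0⟩

/-- The determinant on the model. -/
theorem Bt.det_mem (k : Bt Z W T) (h : PM Z) {d : ℚ} (hd : 0 < d) (hs : φ * φ = -(d • 1))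
    (h0 : qm φ * W 0 = (Complex.I * rt d) • W 0) (h1 : qm φ * W 1 = -(Complex.I * rt d) • W 1)
    (𝒜 : Sys) {G : ℕ} {Z' : Matrix (Fin G) (Fin G) ℂ} (h' : PM Z') {PE Λ : Type} [Fintype PE]
    [DecidableEq PE] [Fintype Λ] [DecidableEq Λ]
    (dd : (ℂ ≃+* ℂ) → (Fin 3 → M2) × ((Empty ⊕ PE) ⊕ Λ → ℂ)) (hdd : ∀ σ, kOB (dd σ).1 = bop T σ) :
    fm QB (clc (PE := PE) (fun i : Empty => i.elim)) (Ty.d : Ty (Empty ⊕ PE) Λ) ∈
      NB 𝒜 h' (fun σ => Th kOB (clc (PE := PE) (fun i : Empty => i.elim)) (dd σ))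
        (Fin 2 × Fin 2) := by
  intro q hq
  refine k.form_mem h hd hs h0 h1 𝒜 h' (fun y => slO (Fin 2 × Fin 2) (Empty ⊕ PE) Λ * q y)
    (fun y σ => ?_) _ (fun v => ?_)
  · rw [Matrix.mul_assoc, hq y σ, ← Matrix.mul_assoc, slO_Th, Matrix.mul_assoc, hdd]
  · change Matrix.det (fun y x => (q y *ᵥ v y) (Sum.inl x)) = _
    congr 1
    funext y x
    have e1 : ((slO (Fin 2 × Fin 2) (Empty ⊕ PE) Λ * q y) *ᵥ v y) x =
        (q y *ᵥ v y) (Sum.inl x) := by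
      have e2 : slO (Fin 2 × Fin 2) (Empty ⊕ PE) Λ * q y =
          Matrix.of fun a b => q y (Sum.inl a) b := by
        ext a b
        exact slO_mul _ a b
      rw [e2]
      rfl
    exact e1.symm

theorem kOB_two (T : M2) : kOB (Pi.single 2 T) = 0 := by
  rw [kOB_apply]
  have e1 : (Pi.single 2 T : Fin 3 → M2) 0 = 0 := Pi.single_eq_of_ne (by decide) _
  have e2 : (Pi.single 2 T : Fin 3 → M2) 1 = 0 := Pi.single_eq_of_ne (by decide) _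
  rw [e1, e2]
  simp

/-- The first case. -/
theorem Bt.mod1 (k : Bt Z W T) (h : PM Z) {d : ℚ} (hd : 0 < d) (hs : φ * φ = -(d • 1))
    (h0 : qm φ * W 0 = (Complex.I * rt d) • W 0) (h1 : qm φ * W 1 = -(Complex.I * rt d) • W 1)
    {ZE : Matrix (Fin 1) (Fin 1) ℂ}
    {x : Matrix (Fin 1 ⊕ Fin 1) (Fin 2) ℂ} {x' : Matrix (Fin 2) (Fin 1 ⊕ Fin 1) ℂ}
    {τE : (ℂ ≃+* ℂ) → M2} (kE : EB ZE x x' τE)
    (hE : (∃ σ, τE σ 1 0 ≠ 0) ∧ ∃ σ, τE σ 0 1 ≠ 0)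
    (𝒜 : Sys) (G : ℕ) (Z' : Matrix (Fin G) (Fin G) ℂ) (h' : PM Z')
    (hcov : Cov Z' (fun σ => Th kOB (clc (PE := Unit) (fun i : Empty => i.elim)) (dB1 T τE σ)))
    (κ : Type) [Fintype κ] [DecidableEq κ]
    (F : MultilinearMap ℂ (fun _ : κ => Fin G ⊕ Fin G → ℂ) ℂ) (hF : ∀ X ∈ LZ Z', KillM X F) :
    F ∈ NA 𝒜 h'.cht ⟨_, h'.polar⟩ κ := by
  have hf0 : Full (dB1 T τE) 0 := k.fu 0
  have hf1 : Full (dB1 T τE) 1 := k.fu 1
  have hf2 : Full (dB1 T τE) 2 := by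
    refine ⟨⟨RingEquiv.refl ℂ, ?_⟩, ?_, ?_⟩
    · exact kE.one
    · exact hE.1
    · exact hE.2
  have hn2 : ∀ s, (dB1 T τE s).1 2 ≠ 0 := by
    intro s h0
    have h1 : τE s = 0 := h0
    have h2 := kE.sq s
    rw [h1, Matrix.mul_zero] at h2
    exact zero_ne_one h2
  have hcl : ∀ p, clc (PE := Unit) (fun i : Empty => i.elim) p = 2 := by
    rintro (p | p)
    · exact p.elim
    · rfl
  refine model_final (O := Fin 2 × Fin 2) (PY := Empty) (PE := Unit) (Λ := Empty) 𝒜 h' kOB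
    (fun i : Empty => i.elim) (fun i => i.elim) (fun i => i.elim) (fun i => i.elim) kOB_br
    (dB1 T τE) ?_ ?_ hf0 hf1 (Or.inr ⟨hf2, hn2⟩) (Or.inl hf2) (fun c => ?_) QB QB QB_symm QB_inv
    (fun u v => ?_) kOB_inv
    (S := (ℂ ≃+* ℂ) × Bool) Prod.fst (fun s => ⟨(s, true), rfl⟩)
    (fun c s => (![if s.2 then 1 else 0, if s.2 then 0 else 1, 1] : Fin 3 → ℤ) c)
    (fun s i => i.elim) (fun s i => rfl) (fun s i => i.elim) ?_ ?_ ?_ (fun i => i.elim) hcov F hF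
  · intro s c
    fin_cases c
    · exact k.tr 0 s
    · exact k.tr 1 s
    · exact kE.tr s
  · intro s
    rcases k.alt s with ⟨e1, -⟩ | ⟨e1, -⟩
    · exact Or.inl e1
    · exact Or.inr e1
  · by_cases hc : c = 2
    · subst hc
      exact Or.inl kOB_two
    · refine Or.inr fun p => ?_
      rw [hcl]
      exact Ne.symm hc
  · obtain ⟨T', e1, e2, e3⟩ := kOB_op u v
    exact ⟨T', e1, fun p => by rw [hcl, e2], e2, e3⟩
  · exact ⟨(RingEquiv.refl ℂ, true), Or.inl rfl, rfl, Or.inl rfl⟩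
  · exact ⟨(RingEquiv.refl ℂ, false), rfl, Or.inl rfl, Or.inl rfl⟩
  · exact k.det_mem h hd hs h0 h1 𝒜 h' (dB1 T τE) fun σ => rfl

/-- The second case. -/
theorem Bt.mod2 (k : Bt Z W T) (h : PM Z) {d : ℚ} (hd : 0 < d) (hs : φ * φ = -(d • 1))
    (h0 : qm φ * W 0 = (Complex.I * rt d) • W 0) (h1 : qm φ * W 1 = -(Complex.I * rt d) • W 1)
    (dE : ℚ) (𝒜 : Sys) (G : ℕ) (Z' : Matrix (Fin G) (Fin G) ℂ) (h' : PM Z')
    (hcov : Cov Z' (fun σ => Th kOB (clc (PE := Empty) (fun i : Empty => i.elim)) (dB2 T dE σ)))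
    (κ : Type) [Fintype κ] [DecidableEq κ]
    (F : MultilinearMap ℂ (fun _ : κ => Fin G ⊕ Fin G → ℂ) ℂ) (hF : ∀ X ∈ LZ Z', KillM X F) :
    F ∈ NA 𝒜 h'.cht ⟨_, h'.polar⟩ κ := by
  have hf0 : Full (dB2 T dE) 0 := k.fu 0
  have hf1 : Full (dB2 T dE) 1 := k.fu 1
  refine model_final (O := Fin 2 × Fin 2) (PY := Empty) (PE := Empty) (Λ := Bool) 𝒜 h' kOB
    (fun i : Empty => i.elim) (fun i => i.elim) id Function.injective_id kOB_br
    (dB2 T dE) ?_ ?_ hf0 hf1 (Or.inl fun s => rfl) (Or.inr ?_) (fun c => Or.inr ?_) QB QB QB_symm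
    QB_inv (fun u v => ?_) kOB_inv
    (S := (ℂ ≃+* ℂ) × Bool) Prod.fst (fun s => ⟨(s, true), rfl⟩)
    (fun c s => (![if s.2 then 1 else 0, if s.2 then 0 else 1, rho dE s.1] : Fin 3 → ℤ) c)
    (fun s i => i.elim) (fun s i => i.elim) (fun s i => rfl) ?_ ?_ ?_ (fun i => i.elim) hcov F hF
  · intro s c
    fin_cases c
    · exact k.tr 0 s
    · exact k.tr 1 s
    · exact trace_zero _ _
  · intro s
    rcases k.alt s with ⟨e1, -⟩ | ⟨e1, -⟩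
    · exact Or.inl e1
    · exact Or.inr e1
  · rintro (p | p) <;> exact p.elim
  · rintro (p | p) <;> exact p.elim
  · obtain ⟨T', e1, e2, e3⟩ := kOB_op u v
    exact ⟨T', e1, fun p => by rcases p with p | p <;> exact p.elim, e2, e3⟩
  · exact ⟨(RingEquiv.refl ℂ, true), Or.inl rfl, rfl, rho_pm dE _⟩
  · exact ⟨(RingEquiv.refl ℂ, false), rfl, Or.inl rfl, rho_pm dE _⟩
  · exact k.det_mem h hd hs h0 h1 𝒜 h' (dB2 T dE) fun σ => rfl

/-- **The result for the fourfolds with a definite quaternion algebra and elliptic curves.** -/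
theorem beta_all' (𝒜 : Sys) {Z : Matrix (Fin 4) (Fin 4) ℂ} (h : PM Z)
    {U : Submodule ℂ (Fin 4 ⊕ Fin 4 → ℂ)} (hU : IrS (LZ Z) U) (hd : finrank ℂ U = 4)
    {b : (Fin 4 ⊕ Fin 4 → ℂ) →ₗ[ℂ] (Fin 4 ⊕ Fin 4 → ℂ) →ₗ[ℂ] ℂ}
    (h0 : ∃ u ∈ U, ∃ v ∈ U, b u v ≠ 0)
    (hb : ∀ X ∈ LZ Z, ∀ u ∈ U, ∀ v ∈ U, b (X *ᵥ u) v + b u (X *ᵥ v) = 0)
    (hsym : ∀ u ∈ U, ∀ v ∈ U, b u v = b v u)
    {ZE : Matrix (Fin 1) (Fin 1) ℂ} (hE : PM ZE) (hsE : IsSimpleAV ZE) (X : AV)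
    (hX : ∀ Y, IsFactor Y X → Isg Y (AVZ h) ∨ Isg Y (AVZ hE)) : 𝒜.AllHodge X := by
  obtain ⟨W, T, k⟩ := exists_bt0 h hU hd h0 hb hsym
  obtain ⟨W, T, k⟩ := k.exists_bt
  obtain ⟨W, φ, d, k, hd, hs, h1, h2⟩ := k.exists_final h
  obtain ⟨x, x', τE, kE⟩ := exists_EB hE
  rcases kE.dich hE with h3 | h3
  · refine cov_all 𝒜 X (fun a Z' h' hf => ?_)
      (fun G Z' h' hc κ _ _ F hF => k.mod1 h hd hs h1 h2 kE h3 𝒜 G Z' h' hc κ F hF)
    rcases hX _ hf with ⟨e, he, he'⟩ | ⟨e, he, he'⟩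
    · exact Cov.isog h' h e he he' (k.cov1 τE)
    · exact Cov.isog h' hE e he he' (kE.covP kOB _ (dB1 T τE) (fun σ => rfl) (fun σ => rfl))
  · obtain ⟨dE, hdE, hτ⟩ := kE.cm hE hsE h3
    refine cov_all 𝒜 X (fun a Z' h' hf => ?_)
      (fun G Z' h' hc κ _ _ F hF => k.mod2 h hd hs h1 h2 dE 𝒜 G Z' h' hc κ F hF)
    rcases hX _ hf with ⟨e, he, he'⟩ | ⟨e, he, he'⟩
    · exact Cov.isog h' h e he he' (k.cov2 dE)
    · exact Cov.isog h' hE e he he' (kE.covL hτ kOB _ (dB2 T dE) (fun σ i => rfl))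

end

end Pool.Agent.N995
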