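import Mathlib
import Pool.Agent.R915.G6

/-!
# The field of a simple abelian variety with complex multiplication
-/

set_option linter.unusedSectionVars false

namespace Pool.Agent.N995

open Matrix Module Pool.Agent.Y90 Pool.Agent.R915 NumberField

noncomputable section

/-- The field of complex multiplications. -/
structure CMF (Y : AV) (K : Type) [Field K] [NumberField K] (ρ : K →+* Module.End ℚ Y.H)
    (e : Y.H ≃ₗ[ℚ] K) : Prop where
  hom : ∀ a, IsHom Y Y (ρ a)
  eqv : ∀ a v, e (ρ a v) = a * e v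
  max : ∀ f : Module.End ℚ Y.H, IsHom Y Y f → ∃ a, f = ρ a

theorem isHom_sub {X Y : AV} {f g : X.H →ₗ[ℚ] Y.H} (hf : IsHom X Y f) (hg : IsHom X Y g) :
    IsHom X Y (f - g) := by
  obtain ⟨Ψ, hΨ⟩ := hf
  obtain ⟨Φ, hΦ⟩ := hg
  refine ⟨Ψ - Φ, fun v => ?_⟩
  rw [LinearMap.sub_apply, LinearMap.sub_apply, map_sub, hΨ, hΦ]

theorem eq_of_simple {Y : AV} (hs : IsSimple Y) {f g : Y.H →ₗ[ℚ] Y.H} (hf : IsHom Y Y f)
    (hg : IsHom Y Y g) {v : Y.H} (hv : v ≠ 0) (h : f v = g v) : f = g := by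
  rcases hs.2 _ (isSub_ker (isHom_sub hf hg)) with h1 | h1
  · exfalso
    apply hv
    have h2 : v ∈ LinearMap.ker (f - g) := by
      rw [LinearMap.mem_ker, LinearMap.sub_apply, h, sub_self]
    rwa [h1, Submodule.mem_bot] at h2
  · exact sub_eq_zero.1 (LinearMap.ker_eq_top.1 h1)

theorem isHom_zero (X Y : AV) : IsHom X Y 0 := ⟨0, fun v => by
  rw [LinearMap.zero_apply, LinearMap.zero_apply, map_zero]⟩

theorem cmf_of {Y : AV} {K : Type} [Field K] [NumberField K] (ρ : K →+* Module.End ℚ Y.H)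
    (e : Y.H ≃+ K) (h1 : ∀ a, IsHom Y Y (ρ a)) (h2 : ∀ a v, e (ρ a v) = a * e v)
    (h3 : ∀ f : Module.End ℚ Y.H, IsHom Y Y f → ∃ a, f = ρ a) :
    ∃ e' : Y.H ≃ₗ[ℚ] K, CMF Y K ρ e' :=
  ⟨{ e with map_smul' := fun c x => map_rat_smul e c x }, h1, h2, h3⟩

/-- Finite commutative division algebras as fields. -/
theorem exists_fld {V : Type} [AddCommGroup V] [Module ℚ V] (A : Subalgebra ℚ (Module.End ℚ V))
    [FiniteDimensional ℚ A] (hA : ∀ a ∈ A, ∀ b ∈ A, a * b = b * a) (h1 : (1 : A) ≠ 0)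
    (h2 : ∀ a b : A, a * b = 0 → a = 0 ∨ b = 0) :
    ∃ (K : Type) (_ : Field K) (_ : NumberField K), Nonempty (K ≃+* A) := by
  let i1 : CommRing A := { (inferInstance : Ring A) with
    mul_comm := fun a b => Subtype.ext (hA a a.2 b b.2) }
  have i2 : Nontrivial A := ⟨⟨1, 0, h1⟩⟩
  have i3 : NoZeroDivisors A := ⟨fun {a b} hab => h2 a b hab⟩
  have i4 : IsDomain A := NoZeroDivisors.to_isDomain A
  have i5 : FiniteDimensional ℚ A := inferInstance
  have h3 : CharZero A := algebraRat.charZero A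
  let i6 : Field A := fieldOfFiniteDimensional ℚ A
  have i8 : NumberField A :=
    { to_charZero := h3
      to_finiteDimensional := by
        have h1 : (DivisionRing.toRatAlgebra : Algebra ℚ A) = A.algebra := Subsingleton.elim _ _
        rw [h1]
        exact i5 }
  exact ⟨A, i6, i8, ⟨RingEquiv.refl A⟩⟩

/-- The field of complex multiplications. -/
theorem exists_cmf (Y : AV) (hs : IsSimple Y) (hc : HasCMult Y) :
    ∃ (K : Type) (_ : Field K) (_ : NumberField K) (ρ : K →+* Module.End ℚ Y.H)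
      (e : Y.H ≃ₗ[ℚ] K), CMF Y K ρ e := by
  obtain ⟨A, hA, hdim, hhom⟩ := hc
  obtain ⟨⟨v₀, hv₀⟩, -⟩ := id hs
  have hinj : ∀ a b : A, (a : Module.End ℚ Y.H) v₀ = (b : Module.End ℚ Y.H) v₀ → a = b :=
    fun a b hab => Subtype.ext (eq_of_simple hs (hhom a a.2) (hhom b b.2) hv₀ hab)
  have hker : ∀ (a : A) (v : Y.H), v ≠ 0 → (a : Module.End ℚ Y.H) v = 0 → a = 0 :=
    fun a v hv hav => Subtype.ext (eq_of_simple hs (hhom a a.2) (isHom_zero Y Y) hv
      (hav.trans (LinearMap.zero_apply v).symm))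
  obtain ⟨K, i1, i2, ⟨φ⟩⟩ := exists_fld A hA (fun h => hv₀ (by
      have h1 := congrArg (fun a : A => (a : Module.End ℚ Y.H) v₀) h
      exact h1)) (fun a b hab => by
    by_cases hb : b = 0
    · exact Or.inr hb
    · refine Or.inl (hker a ((b : Module.End ℚ Y.H) v₀) (fun h => hb (hker b v₀ hv₀ h)) ?_)
      have h1 := congrArg (fun a : A => (a : Module.End ℚ Y.H) v₀) hab
      exact h1)
  obtain ⟨e', he0⟩ : ∃ e' : A ≃+ Y.H, ∀ a : A, e' a = (a : Module.End ℚ Y.H) v₀ := by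
    let ev : A →ₗ[ℚ] Y.H :=
      { toFun := fun a => (a : Module.End ℚ Y.H) v₀
        map_add' := fun a b => rfl
        map_smul' := fun c a => rfl }
    have hev : Function.Injective ev := fun a b hab => hinj a b hab
    exact ⟨(ev.linearEquivOfInjective hev hdim).toAddEquiv, fun a => rfl⟩
  have he' : ∀ (a : A) (v : Y.H), e'.symm ((a : Module.End ℚ Y.H) v) = a * e'.symm v := by
    intro a v
    rw [AddEquiv.symm_apply_eq]
    obtain ⟨b, rfl⟩ := e'.surjective v
    rw [AddEquiv.symm_apply_apply, he0, he0]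
    rfl
  have h1 : ∀ f : Module.End ℚ Y.H, IsHom Y Y f → ∃ a : A, f = a := by
    intro f hf
    refine ⟨e'.symm (f v₀), ?_⟩
    refine eq_of_simple hs hf (hhom _ (e'.symm (f v₀)).2) hv₀ ?_
    have h1 : e' (e'.symm (f v₀)) = f v₀ := e'.apply_symm_apply _
    rw [he0] at h1
    exact h1.symm
  obtain ⟨E, hE⟩ := cmf_of (Y := Y) (K := K) ((A.val : A →+* Module.End ℚ Y.H).comp φ.toRingHom)
    (e'.symm.trans φ.symm.toAddEquiv) (fun a => hhom _ (φ a).2) (fun a v => by
      change φ.symm (e'.symm ((φ a : Module.End ℚ Y.H) v)) = a * φ.symm (e'.symm v)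
      rw [he', map_mul, RingEquiv.symm_apply_apply]) (fun f hf => by
      obtain ⟨a, ha⟩ := h1 f hf
      refine ⟨φ.symm a, ?_⟩
      change f = ((φ (φ.symm a) : A) : Module.End ℚ Y.H)
      rw [RingEquiv.apply_symm_apply, ha])
  exact ⟨K, i1, i2, _, E, hE⟩

end

end Pool.Agent.N995
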