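import Mathlib
import Pool.Agent.N995.CM1

/-!
# The type of a simple abelian variety with complex multiplication
-/

set_option linter.unusedSectionVars false

namespace Pool.Agent.N995

open Matrix Module Pool.Agent.Y90 Pool.Agent.R915 NumberField
open Pool.Agent.H204R3.CM (IsCMType)

noncomputable section

variable {Y : AV} {K : Type} [Field K] [NumberField K] {ρ : K →+* Module.End ℚ Y.H}
  {e : Y.H ≃ₗ[ℚ] K}

/-- The period map in the coordinates of the embeddings. -/
def Qm (e : Y.H ≃ₗ[ℚ] K) : ((K →+* ℂ) → ℂ) →ₗ[ℂ] Y.T :=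
  (canonicalEmbedding.latticeBasis K).constr ℂ fun i => Y.per (e.symm (integralBasis K i))

theorem per_rsmul (Y : AV) (c : ℚ) (v : Y.H) : Y.per (c • v) = (c : ℂ) • Y.per v := by
  have h1 := map_ratCast_smul Y.per ℚ ℂ c v
  rwa [Rat.cast_id] at h1

theorem can_smul (c : ℚ) (a : K) :
    canonicalEmbedding K (c • a) = (c : ℂ) • canonicalEmbedding K a := by
  have h1 := map_ratCast_smul (canonicalEmbedding K) ℚ ℂ c a
  rwa [Rat.cast_id] at h1

theorem Qm_ev (a : K) : Qm e (canonicalEmbedding K a) = Y.per (e.symm a) := by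
  conv_lhs => rw [← (integralBasis K).sum_repr a]
  conv_rhs => rw [← (integralBasis K).sum_repr a]
  rw [map_sum, map_sum, map_sum, map_sum]
  refine Finset.sum_congr rfl fun i _ => ?_
  rw [can_smul, map_smul, map_smul, per_rsmul, ← canonicalEmbedding.latticeBasis_apply]
  unfold Qm
  rw [Basis.constr_basis]

theorem span_ev {S : Submodule ℂ ((K →+* ℂ) → ℂ)} (h : ∀ a, canonicalEmbedding K a ∈ S) :
    S = ⊤ := by
  rw [eq_top_iff, ← (canonicalEmbedding.latticeBasis K).span_eq, Submodule.span_le]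
  rintro _ ⟨i, rfl⟩
  rw [canonicalEmbedding.latticeBasis_apply]
  exact h _

theorem CMF.sy (k : CMF Y K ρ e) (a b : K) : e.symm (a * b) = ρ a (e.symm b) := by
  rw [LinearEquiv.symm_apply_eq, k.eqv, LinearEquiv.apply_symm_apply]

/-- The kernel is an ideal. -/
theorem CMF.ker_mul (k : CMF Y K ρ e) {x : (K →+* ℂ) → ℂ} (hx : Qm e x = 0)
    (y : (K →+* ℂ) → ℂ) : Qm e (y * x) = 0 := by
  have h1 : ∀ (a : K), Qm e (canonicalEmbedding K a * x) = 0 := by
    intro a
    obtain ⟨Ψ, hΨ⟩ := k.hom a
    have h2 : LinearMap.ker ((Qm e).comp (LinearMap.mulLeft ℂ (canonicalEmbedding K a)) -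
        Ψ.comp (Qm e)) = ⊤ := by
      refine span_ev fun b => ?_
      rw [LinearMap.mem_ker, LinearMap.sub_apply, LinearMap.comp_apply, LinearMap.comp_apply,
        LinearMap.mulLeft_apply, ← map_mul, Qm_ev, Qm_ev, hΨ, k.sy, sub_self]
    have h3 : x ∈ LinearMap.ker ((Qm e).comp (LinearMap.mulLeft ℂ (canonicalEmbedding K a)) -
        Ψ.comp (Qm e)) := by
      rw [h2]
      trivial
    rw [LinearMap.mem_ker, LinearMap.sub_apply, LinearMap.comp_apply, LinearMap.comp_apply,
        LinearMap.mulLeft_apply, hx, map_zero, sub_zero] at h3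
    exact h3
  have h2 : LinearMap.ker ((Qm e).comp (LinearMap.mulRight ℂ x)) = ⊤ := by
    refine span_ev fun a => ?_
    rw [LinearMap.mem_ker, LinearMap.comp_apply, LinearMap.mulRight_apply, h1]
  have h3 : y ∈ LinearMap.ker ((Qm e).comp (LinearMap.mulRight ℂ x)) := by
    rw [h2]
    trivial
  rwa [LinearMap.mem_ker, LinearMap.comp_apply, LinearMap.mulRight_apply] at h3

theorem Qm_surj : LinearMap.range (Qm e) = ⊤ := by
  have h1 : LinearMap.range ((Qm e).restrictScalars ℝ) = ⊤ := by
    rw [eq_top_iff, ← Y.span, Submodule.span_le]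
    rintro _ ⟨v, rfl⟩
    refine ⟨canonicalEmbedding K (e v), ?_⟩
    change Qm e (canonicalEmbedding K (e v)) = _
    rw [Qm_ev, LinearEquiv.symm_apply_apply]
  rw [LinearMap.range_eq_top] at h1 ⊢
  exact h1

/-- The real coordinates. -/
theorem real_indep (e : Y.H ≃ₗ[ℚ] K) (r : Free.ChooseBasisIndex ℤ (𝓞 K) → ℝ)
    (h : ∑ i, r i • Y.per (e.symm (integralBasis K i)) = 0) : ∀ i, r i = 0 := by
  have h1 : LinearIndependent ℝ fun i => Y.per (e.symm (integralBasis K i)) := by
    refine linearIndependent_of_top_le_span_of_card_eq_finrank ?_ ?_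
    · rw [← Y.span, Submodule.span_le]
      rintro _ ⟨v, rfl⟩
      obtain ⟨a, rfl⟩ := e.symm.surjective v
      rw [SetLike.mem_coe, ← (integralBasis K).sum_repr a, map_sum, map_sum]
      refine Submodule.sum_mem _ fun i _ => ?_
      rw [map_smul, Pool.Agent.Y90.per_smul]
      exact Submodule.smul_mem _ _ (Submodule.subset_span ⟨i, rfl⟩)
    · rw [← finrank_eq_card_basis (integralBasis K), ← e.finrank_eq, Y.rank,
        finrank_real_of_complex]
  exact Fintype.linearIndependent_iff.1 h1 r h

/-- One of two conjugate embeddings belongs to the type. -/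
theorem Qm_real (e : Y.H ≃ₗ[ℚ] K) {x : (K →+* ℂ) → ℂ}
    (hx : ∀ φ, x (ComplexEmbedding.conjugate φ) = (starRingEnd ℂ) (x φ)) (h : Qm e x = 0) :
    x = 0 := by
  let b := canonicalEmbedding.latticeBasis K
  have hb : ∀ i φ, b i (ComplexEmbedding.conjugate φ) = (starRingEnd ℂ) (b i φ) := by
    intro i φ
    change (canonicalEmbedding.latticeBasis K) i (ComplexEmbedding.conjugate φ) =
      (starRingEnd ℂ) ((canonicalEmbedding.latticeBasis K) i φ)
    rw [canonicalEmbedding.latticeBasis_apply]
    rfl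
  have h1 : ∀ i, (starRingEnd ℂ) (b.repr x i) = b.repr x i := by
    have h2 : ∑ i, ((starRingEnd ℂ) (b.repr x i)) • b i = x := by
      funext φ
      have h3 := congrFun (b.sum_repr x) (ComplexEmbedding.conjugate φ)
      rw [Finset.sum_apply, hx] at h3
      have h4 := congrArg (starRingEnd ℂ) h3
      rw [Complex.conj_conj, map_sum] at h4
      rw [Finset.sum_apply, ← h4]
      refine Finset.sum_congr rfl fun i _ => ?_
      rw [Pi.smul_apply, Pi.smul_apply, smul_eq_mul, smul_eq_mul, map_mul, hb, Complex.conj_conj]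
    intro i
    have h3 := b.repr_sum_self fun i => (starRingEnd ℂ) (b.repr x i)
    rw [h2] at h3
    exact (congrFun h3 i).symm
  have h2 : ∀ i, b.repr x i = (((b.repr x i).re : ℝ) : ℂ) := fun i =>
    (Complex.conj_eq_iff_re.1 (h1 i)).symm
  have h3 : ∑ i, (b.repr x i).re • Y.per (e.symm (integralBasis K i)) = 0 := by
    rw [← h]
    conv_rhs => rw [← b.sum_repr x, map_sum]
    refine Finset.sum_congr rfl fun i _ => ?_
    rw [map_smul, h2 i, Complex.coe_smul, Complex.ofReal_re]
    congr 1
    change _ = Qm e (canonicalEmbedding.latticeBasis K i)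
    rw [canonicalEmbedding.latticeBasis_apply, Qm_ev]
  have h4 := real_indep e _ h3
  rw [← b.sum_repr x]
  refine Finset.sum_eq_zero fun i _ => ?_
  rw [h2 i, h4 i, Complex.ofReal_zero, zero_smul]

open Classical in
/-- **The type of a simple abelian variety with complex multiplication.** -/
theorem CMF.exists_type (k : CMF Y K ρ e) : ∃ (Φ : Set (K →+* ℂ)) (_ : IsCMType Φ)
    (Ψ : Y.T ≃ₗ[ℂ] (Φ → ℂ)), ∀ v φ, Ψ (Y.per v) φ = φ.1 (e v) := by
  let δ : (K →+* ℂ) → (K →+* ℂ) → ℂ := fun φ => Pi.single φ 1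
  let Φ : Set (K →+* ℂ) := {φ | Qm e (δ φ) ≠ 0}
  have hsum : ∀ x : (K →+* ℂ) → ℂ, x = ∑ φ, x φ • δ φ := by
    intro x
    funext ψ
    rw [Finset.sum_apply, Finset.sum_eq_single ψ]
    · simp [δ]
    · intro φ _ hφ
      simp [δ, Pi.single_eq_of_ne hφ.symm]
    · intro h
      exact absurd (Finset.mem_univ _) h
  have hQ : ∀ x : (K →+* ℂ) → ℂ, Qm e x = ∑ φ : Φ, x φ • Qm e (δ φ) := by
    intro x
    conv_lhs => rw [hsum x, map_sum]
    have h1 : ∑ φ : Φ, x φ • Qm e (δ φ) = ∑ φ ∈ Finset.univ.filter (· ∈ Φ), x φ • Qm e (δ φ) :=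
      (Finset.sum_subtype (Finset.univ.filter (· ∈ Φ)) (fun φ => by simp)
        (fun φ => x φ • Qm e (δ φ))).symm
    rw [h1, Finset.sum_filter]
    refine Finset.sum_congr rfl fun φ _ => ?_
    by_cases hφ : φ ∈ Φ
    · rw [if_pos hφ, map_smul]
    · rw [if_neg hφ, map_smul]
      have h2 : Qm e (δ φ) = 0 := by
        by_contra h3
        exact hφ h3
      rw [h2, smul_zero]
  have hli : LinearIndependent ℂ fun φ : Φ => Qm e (δ φ) := by
    rw [Fintype.linearIndependent_iff]
    intro c hc φ₀
    let x : (K →+* ℂ) → ℂ := fun φ => if h : φ ∈ Φ then c ⟨φ, h⟩ else 0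
    have h1 : Qm e x = 0 := by
      rw [hQ]
      refine Eq.trans (Finset.sum_congr rfl fun φ _ => ?_) hc
      have h2 : x φ = c φ := by
        simp only [x]
        rw [dif_pos φ.2]
      rw [h2]
    have h2 := k.ker_mul h1 (δ φ₀)
    have h3 : δ φ₀ * x = c φ₀ • δ φ₀ := by
      funext ψ
      rw [Pi.mul_apply, Pi.smul_apply, smul_eq_mul]
      by_cases hψ : ψ = φ₀
      · subst hψ
        have h4 : x φ₀ = c φ₀ := by
          simp only [x]
          rw [dif_pos φ₀.2]
        rw [h4]
        simp [δ]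
      · simp [δ, Pi.single_eq_of_ne hψ]
    rw [h3, map_smul, smul_eq_zero] at h2
    exact h2.resolve_right φ₀.2
  have hsp : ⊤ ≤ Submodule.span ℂ (Set.range fun φ : Φ => Qm e (δ φ)) := by
    rw [← Qm_surj (e := e)]
    rintro _ ⟨x, rfl⟩
    rw [hQ]
    exact Submodule.sum_mem _ fun φ _ => Submodule.smul_mem _ _ (Submodule.subset_span ⟨φ, rfl⟩)
  let b : Basis Φ ℂ Y.T := Basis.mk hli hsp
  have hb : ∀ φ, b φ = Qm e (δ φ) := fun φ => Basis.mk_apply hli hsp φ
  have hcov : ∀ φ : K →+* ℂ, φ ∈ Φ ∨ ComplexEmbedding.conjugate φ ∈ Φ := by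
    intro φ
    by_contra hcon
    push Not at hcon
    have h1 : Qm e (δ φ) = 0 := by
      by_contra h3
      exact hcon.1 h3
    have h2 : Qm e (δ (ComplexEmbedding.conjugate φ)) = 0 := by
      by_contra h3
      exact hcon.2 h3
    have h3 := Qm_real e (x := δ φ + δ (ComplexEmbedding.conjugate φ)) (fun ψ => by
      rw [Pi.add_apply, Pi.add_apply, map_add]
      have h4 : ∀ α β : K →+* ℂ, δ α (ComplexEmbedding.conjugate β) =
          δ (ComplexEmbedding.conjugate α) β := by
        intro α β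
        simp only [δ]
        by_cases h5 : ComplexEmbedding.conjugate β = α
        · subst h5
          rw [Pi.single_eq_same]
          have h6 : ComplexEmbedding.conjugate (ComplexEmbedding.conjugate β) = β := star_star β
          rw [h6, Pi.single_eq_same]
        · have h6 : β ≠ ComplexEmbedding.conjugate α := by
            intro h7
            apply h5
            rw [h7]
            exact star_star α
          rw [Pi.single_eq_of_ne h5, Pi.single_eq_of_ne h6]
      have h5 : ∀ α β : K →+* ℂ, (starRingEnd ℂ) (δ α β) = δ α β := by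
        intro α β
        by_cases h5 : β = α
        · subst h5
          simp [δ]
        · simp [δ, Pi.single_eq_of_ne h5]
      have h6 : ComplexEmbedding.conjugate (ComplexEmbedding.conjugate φ) = φ := star_star φ
      rw [h4, h4, h5, h5, h6]
      ring) (by rw [map_add, h1, h2, add_zero])
    have h4 := congrFun h3 φ
    rw [Pi.add_apply, Pi.zero_apply] at h4
    by_cases h5 : φ = ComplexEmbedding.conjugate φ
    · rw [← h5] at h4
      simp [δ] at h4
    · have h6 : δ (ComplexEmbedding.conjugate φ) φ = 0 := Pi.single_eq_of_ne h5 _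
      have h7 : δ φ φ = 1 := Pi.single_eq_same _ _
      rw [h6, h7, add_zero] at h4
      exact one_ne_zero h4
  have hcard : Fintype.card (K →+* ℂ) = 2 * Fintype.card Φ := by
    rw [NumberField.Embeddings.card K ℂ, ← e.finrank_eq, Y.rank, finrank_eq_card_basis b]
  have hdis : ∀ φ ∈ Φ, ComplexEmbedding.conjugate φ ∉ Φ := by
    let F : Finset (K →+* ℂ) := Finset.univ.filter (· ∈ Φ)
    have hF : ∀ φ, φ ∈ F ↔ φ ∈ Φ := fun φ => by simp [F]
    have hF2 : F.card = Fintype.card Φ := by
      rw [← Fintype.card_subtype]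
    have hinj : Function.Injective (fun φ : K →+* ℂ => ComplexEmbedding.conjugate φ) := by
      intro α β hab
      have h1 := congrArg ComplexEmbedding.conjugate hab
      have h2 : ∀ φ : K →+* ℂ, ComplexEmbedding.conjugate (ComplexEmbedding.conjugate φ) = φ :=
        fun φ => star_star φ
      rwa [h2, h2] at h1
    have hU : F ∪ F.image (fun φ => ComplexEmbedding.conjugate φ) = Finset.univ := by
      rw [Finset.eq_univ_iff_forall]
      intro φ
      rw [Finset.mem_union, Finset.mem_image]
      rcases hcov φ with h1 | h1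
      · exact Or.inl ((hF _).2 h1)
      · exact Or.inr ⟨_, (hF _).2 h1, star_star φ⟩
    have h1 := Finset.card_union_add_card_inter F
      (F.image (fun φ => ComplexEmbedding.conjugate φ))
    rw [hU, Finset.card_univ, Finset.card_image_of_injective _ hinj, hcard, hF2] at h1
    have h2 : (F ∩ F.image (fun φ => ComplexEmbedding.conjugate φ)).card = 0 := by omega
    rw [Finset.card_eq_zero] at h2
    intro φ h3 h4
    have h5 : ComplexEmbedding.conjugate φ ∈
        F ∩ F.image (fun φ => ComplexEmbedding.conjugate φ) := by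
      rw [Finset.mem_inter, Finset.mem_image]
      exact ⟨(hF _).2 h4, φ, (hF _).2 h3, rfl⟩
    rw [h2] at h5
    exact absurd h5 (Finset.notMem_empty _)
  refine ⟨Φ, fun φ => ⟨hdis φ, fun h => ?_⟩, b.equivFun, fun v φ => ?_⟩
  · rcases hcov φ with h1 | h1
    · exact h1
    · exact absurd h1 h
  · have h1 : Y.per v = b.equivFun.symm fun φ : Φ => φ.1 (e v) := by
      rw [Basis.equivFun_symm_apply]
      have h2 := hQ (canonicalEmbedding K (e v))
      rw [Qm_ev, LinearEquiv.symm_apply_apply] at h2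
      rw [h2]
      refine Finset.sum_congr rfl fun ψ _ => ?_
      rw [hb]
      rfl
    rw [h1, LinearEquiv.apply_symm_apply]

end

end Pool.Agent.N995
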