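import Mathlib
import Pool.Agent.N995.CM2
import Pool.Agent.N995.Piece
import Pool.Agent.R915.H2

/-!
# The field of complex multiplications is a CM field
-/

set_option linter.unusedSectionVars false

namespace Pool.Agent.N995

open Matrix Module Pool.Agent.W437.HC Pool.Agent.W437.HD Pool.Agent.TH504.CB Pool.Agent.Y90
open Pool.Agent.R915 NumberField
open Pool.Agent.W548.Odd hiding cv
open Pool.Agent.W437.HP (cK cK_mul cK_one cK_sum)
open Pool.Agent.H204R3.CM (IsCMType)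
open Pool.Agent.W547.KB (CMPair CMAV)

noncomputable section

/-- A criterion for CM fields. -/
theorem cm_of_conj (K : Type) [Field K] [NumberField K]
    (hc : ∀ a : K, ∃ a' : K, ∀ φ : K →+* ℂ, φ a' = (starRingEnd ℂ) (φ a))
    (hΦ : ∀ φ : K →+* ℂ, ComplexEmbedding.conjugate φ ≠ φ) : IsCMField K := by
  classical
  choose s hs using hc
  obtain ⟨φ₀⟩ : Nonempty (K →+* ℂ) := inferInstance
  let σ : K →+* K :=
    { toFun := s
      map_one' := φ₀.injective (by rw [hs, map_one, map_one])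
      map_mul' := fun a b => φ₀.injective (by rw [hs, map_mul, map_mul, map_mul, hs, hs])
      map_zero' := φ₀.injective (by rw [hs, map_zero, map_zero])
      map_add' := fun a b => φ₀.injective (by rw [hs, map_add, map_add, map_add, hs, hs]) }
  have hσ : ∀ (φ : K →+* ℂ) a, φ (σ a) = (starRingEnd ℂ) (φ a) := fun φ a => hs a φ
  have hσσ : σ.comp σ = RingHom.id K := by
    ext a
    refine φ₀.injective ?_
    rw [RingHom.comp_apply, hσ, hσ, Complex.conj_conj]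
    rfl
  let τ : K ≃ₐ[ℚ] K := AlgEquiv.ofRingEquiv (f := RingEquiv.ofRingHom σ σ hσσ hσσ)
    fun r => map_ratCast _ r
  have hτ : ∀ (φ : K →+* ℂ) a, φ (τ a) = (starRingEnd ℂ) (φ a) := fun φ a => hs a φ
  have hττ : τ * τ = 1 := by
    ext a
    refine φ₀.injective ?_
    rw [AlgEquiv.mul_apply, hτ, hτ, Complex.conj_conj]
    rfl
  have hτ1 : τ ≠ 1 := by
    intro h1
    apply hΦ φ₀
    ext a
    have h2 := hτ φ₀ a
    rw [h1, AlgEquiv.one_apply] at h2
    exact h2.symm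
  have hord : orderOf τ = 2 := by
    refine orderOf_eq_prime ?_ hτ1
    rw [pow_two, hττ]
  let H : Subgroup (K ≃ₐ[ℚ] K) := Subgroup.zpowers τ
  let L : IntermediateField ℚ K := IntermediateField.fixedField H
  have hL : ∀ x : K, x ∈ L → τ x = x := by
    intro x hx
    have h1 := (IntermediateField.mem_fixedField_iff H x).1 hx τ (Subgroup.mem_zpowers τ)
    exact h1
  have i1 : IsTotallyComplex K := ⟨fun w => by
    rw [InfinitePlace.isComplex_iff, ComplexEmbedding.isReal_iff]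
    exact hΦ _⟩
  have i2 : IsTotallyReal L := ⟨fun w => by
    obtain ⟨W, rfl⟩ := w.comap_surjective (K := K)
    beta_reduce
    rw [← InfinitePlace.mk_embedding W, InfinitePlace.comap_mk, InfinitePlace.isReal_mk_iff,
      ComplexEmbedding.isReal_iff]
    ext x
    have h1 := hτ W.embedding (algebraMap L K x)
    have h2 : τ (algebraMap L K x) = algebraMap L K x := hL _ x.2
    rw [h2] at h1
    exact h1.symm⟩
  have i3 : Algebra.IsQuadraticExtension L K := ⟨by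
    have h1 : finrank L K = Nat.card H := IntermediateField.finrank_fixedField_eq_card H
    rw [h1, Nat.card_zpowers, hord]⟩
  exact IsCMField.ofCMExtension L K

variable {g : ℕ} {Z : Matrix (Fin g) (Fin g) ℂ}

theorem star_comm (h : PM Z) {N : Matrix (Fin g ⊕ Fin g) (Fin g ⊕ Fin g) ℂ}
    (hN : N * DZ Z = DZ Z * N) :
    -(Om g ℂ * Nᵀ * Om g ℂ) * DZ Z = DZ Z * -(Om g ℂ * Nᵀ * Om g ℂ) := by
  have hO : Om g ℂ * Om g ℂ = -1 := Om_sq ℂ
  have h1 : (DZ Z)ᵀ * Om g ℂ + Om g ℂ * DZ Z = 0 := by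
    have h2 := Om_inv h (RingEquiv.refl ℂ)
    have h3 : DS Z (RingEquiv.refl ℂ) = DZ Z := by
      ext i j
      rfl
    rwa [h3] at h2
  have h2 : Om g ℂ * DZ Z = -((DZ Z)ᵀ * Om g ℂ) := eq_neg_of_add_eq_zero_right h1
  have h3 : DZ Z * Om g ℂ = -(Om g ℂ * (DZ Z)ᵀ) := by
    have h4 : Om g ℂ * (Om g ℂ * DZ Z) * Om g ℂ = -(Om g ℂ * (DZ Z)ᵀ * (Om g ℂ * Om g ℂ)) := by
      rw [h2]
      noncomm_ring
    rw [← Matrix.mul_assoc (Om g ℂ) (Om g ℂ), hO] at h4
    simp only [Matrix.neg_mul, Matrix.one_mul, Matrix.mul_neg, Matrix.mul_one, neg_neg] at h4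
    rw [← h4, neg_neg]
  have h4 : Nᵀ * (DZ Z)ᵀ = (DZ Z)ᵀ * Nᵀ := by
    rw [← transpose_mul, ← transpose_mul, hN]
  calc -(Om g ℂ * Nᵀ * Om g ℂ) * DZ Z = -(Om g ℂ * Nᵀ * (Om g ℂ * DZ Z)) := by noncomm_ring
  _ = Om g ℂ * (Nᵀ * (DZ Z)ᵀ) * Om g ℂ := by
      rw [h2]
      noncomm_ring
  _ = -(-(Om g ℂ * (DZ Z)ᵀ) * Nᵀ * Om g ℂ) := by
      rw [h4]
      noncomm_ring
  _ = DZ Z * -(Om g ℂ * Nᵀ * Om g ℂ) := by
      rw [← h3]
      noncomm_ring

theorem qm_star (R : Matrix (Fin g ⊕ Fin g) (Fin g ⊕ Fin g) ℚ) :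
    qm (-(Om g ℚ * Rᵀ * Om g ℚ)) = -(Om g ℂ * (qm R)ᵀ * Om g ℂ) := by
  have h1 : qm (-(Om g ℚ * Rᵀ * Om g ℚ)) = -(cK ℂ (Om g ℚ * Rᵀ * Om g ℚ)) := by
    ext i j
    simp [qm, cK]
  rw [h1, cK_mul, cK_mul]
  have h2 : cK ℂ (Om g ℚ) = Om g ℂ := Om_map ℂ
  rw [h2]
  rfl

variable {K : Type} [Field K] [NumberField K] 

/-- The eigenvectors. -/
theorem CMF.exists_vec (h : PM Z) {ρ : K →+* Module.End ℚ (AVZ h).H} {e : (AVZ h).H ≃ₗ[ℚ] K}
    (k : CMF (AVZ h) K ρ e) (φ : K →+* ℂ) : ∃ v : Fin g ⊕ Fin g → ℂ, v ≠ 0 ∧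
      ∀ a, qm (LinearMap.toMatrix' (ρ a)) *ᵥ v = φ a • v := by
  classical
  let R : ((K →+* ℂ) → ℂ) →ₗ[ℂ] (Fin g ⊕ Fin g → ℂ) :=
    (canonicalEmbedding.latticeBasis K).constr ℂ fun i j =>
      (((e.symm (integralBasis K i) : Fin g ⊕ Fin g → ℚ) j : ℚ) : ℂ)
  have hR : ∀ a : K, R (canonicalEmbedding K a) =
      fun j => (((e.symm a : Fin g ⊕ Fin g → ℚ) j : ℚ) : ℂ) := by
    intro a
    conv_lhs => rw [← (integralBasis K).sum_repr a]
    conv_rhs => rw [← (integralBasis K).sum_repr a]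
    rw [map_sum, map_sum, map_sum]
    funext j
    have h1 : (∑ i, e.symm ((integralBasis K).repr a i • integralBasis K i) :
        Fin g ⊕ Fin g → ℚ) j = ∑ i, (integralBasis K).repr a i *
          (e.symm (integralBasis K i) : Fin g ⊕ Fin g → ℚ) j := by
      rw [Finset.sum_apply]
      refine Finset.sum_congr rfl fun i _ => ?_
      rw [map_smul]
      rfl
    refine Eq.trans ?_ (congrArg (fun x : ℚ => (x : ℂ)) h1.symm)
    rw [Finset.sum_apply]
    push_cast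
    refine Finset.sum_congr rfl fun i _ => ?_
    rw [can_smul, map_smul, ← canonicalEmbedding.latticeBasis_apply]
    simp only [R]
    rw [Basis.constr_basis]
    rfl
  have hmul : ∀ a (x : (K →+* ℂ) → ℂ), R (canonicalEmbedding K a * x) =
      qm (LinearMap.toMatrix' (ρ a)) *ᵥ R x := by
    intro a x
    have h2 : LinearMap.ker (R.comp (LinearMap.mulLeft ℂ (canonicalEmbedding K a)) -
        (mulVecLin (qm (LinearMap.toMatrix' (ρ a)))).comp R) = ⊤ := by
      refine span_ev fun b => ?_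
      rw [LinearMap.mem_ker, LinearMap.sub_apply, LinearMap.comp_apply, LinearMap.comp_apply,
        LinearMap.mulLeft_apply, ← map_mul, hR, hR, k.sy, mulVecLin_apply, qm_mulVec,
        LinearMap.toMatrix'_mulVec, sub_self]
    have h3 : x ∈ LinearMap.ker (R.comp (LinearMap.mulLeft ℂ (canonicalEmbedding K a)) -
        (mulVecLin (qm (LinearMap.toMatrix' (ρ a)))).comp R) := by
      rw [h2]
      trivial
    rw [LinearMap.mem_ker, LinearMap.sub_apply, LinearMap.comp_apply, LinearMap.comp_apply,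
        LinearMap.mulLeft_apply, sub_eq_zero] at h3
    exact h3
  have hsurj : Function.Surjective R := by
    rw [← LinearMap.range_eq_top, eq_top_iff]
    rintro v -
    rw [← Finset.univ_sum_single v]
    refine Submodule.sum_mem _ fun j _ => ?_
    have h1 : (Pi.single j (v j) : Fin g ⊕ Fin g → ℂ) = v j •
        R (canonicalEmbedding K (e (Pi.single j 1 : Fin g ⊕ Fin g → ℚ))) := by
      rw [hR, LinearEquiv.symm_apply_apply]
      funext l
      by_cases hl : l = j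
      · subst hl
        simp
      · simp [Pi.single_eq_of_ne hl]
    rw [h1]
    exact Submodule.smul_mem _ _ ⟨_, rfl⟩
  have hdim : finrank ℂ ((K →+* ℂ) → ℂ) = finrank ℂ (Fin g ⊕ Fin g → ℂ) := by
    rw [finrank_fintype_fun_eq_card, NumberField.Embeddings.card K ℂ, ← e.finrank_eq,
      finrank_AVZ, finrank_V]
  have hinj := (LinearMap.injective_iff_surjective_of_finrank_eq_finrank hdim).2 hsurj
  refine ⟨R (Pi.single φ 1), fun h0 => ?_, fun a => ?_⟩
  · have h1 : (Pi.single φ 1 : (K →+* ℂ) → ℂ) = 0 := hinj (by rw [h0, map_zero])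
    have h2 := congrFun h1 φ
    rw [Pi.single_eq_same] at h2
    exact one_ne_zero h2
  · rw [← hmul, ← map_smul]
    congr 1
    funext ψ
    rw [Pi.mul_apply, Pi.smul_apply, smul_eq_mul]
    by_cases hψ : ψ = φ
    · subst hψ
      rfl
    · rw [Pi.single_eq_of_ne hψ, mul_zero, mul_zero]

/-- The complex conjugation. -/
theorem CMF.exists_conj (h : PM Z) {ρ : K →+* Module.End ℚ (AVZ h).H} {e : (AVZ h).H ≃ₗ[ℚ] K}
    (k : CMF (AVZ h) K ρ e) (a : K) : ∃ a' : K, ∀ φ : K →+* ℂ, φ a' = (starRingEnd ℂ) (φ a) := by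
  have h1 := (hom_iff' h (ρ a)).1 (k.hom a)
  let M : Matrix (Fin g ⊕ Fin g) (Fin g ⊕ Fin g) ℚ := LinearMap.toMatrix' (ρ a)
  have h2 : qm (-(Om g ℚ * Mᵀ * Om g ℚ)) * DZ Z = DZ Z * qm (-(Om g ℚ * Mᵀ * Om g ℚ)) := by
    rw [qm_star]
    exact star_comm h h1
  obtain ⟨a', ha'⟩ := k.max (Matrix.toLin' (-(Om g ℚ * Mᵀ * Om g ℚ))) ((hom_iff h _).2 h2)
  refine ⟨a', fun φ => ?_⟩
  obtain ⟨v, hv, hev⟩ := k.exists_vec h φ
  have h3 := om_pos h hv
  have h4 : qm M *ᵥ cnj v = (starRingEnd ℂ) (φ a) • cnj v := by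
    have h5 := congrArg cnj (hev a)
    rw [cnj_mulVec, cnj_smul] at h5
    have h6 : (qm (LinearMap.toMatrix' (ρ a))).map cc = qm M := by
      ext i j
      change cc (((LinearMap.toMatrix' (ρ a) i j : ℚ)) : ℂ) = _
      rw [map_ratCast]
      rfl
    rw [h6] at h5
    exact h5
  have h5 : qm (LinearMap.toMatrix' (ρ a')) *ᵥ (DZ Z *ᵥ v) = φ a' • (DZ Z *ᵥ v) := by
    rw [mulVec_mulVec, (hom_iff' h (ρ a')).1 (k.hom a'), ← mulVec_mulVec, hev, mulVec_smul]
  have h6 : LinearMap.toMatrix' (ρ a') = -(Om g ℚ * Mᵀ * Om g ℚ) := by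
    rw [← ha', LinearMap.toMatrix'_toLin']
  have h7 := om_adj (qm M) (cnj v) (DZ Z *ᵥ v)
  rw [h4, ← qm_star, ← h6, h5, map_smul, map_smul, LinearMap.smul_apply, smul_eq_mul,
    smul_eq_mul] at h7
  exact (mul_right_cancel₀ h3 h7).symm

/-- **Simple abelian varieties with complex multiplication have a CM type.** -/
theorem exists_type (h : PM Z) (hs : IsSimple (AVZ h)) (hc : HasCMult (AVZ h)) :
    ∃ P : CMPair, IsOfType (AVZ h) P := by
  obtain ⟨K, i1, i2, ρ, e, k⟩ := exists_cmf (AVZ h) hs hc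
  obtain ⟨Φ, hΦ, Ψ, hΨ⟩ := k.exists_type
  have i3 : IsCMField K := cm_of_conj K (k.exists_conj h) fun φ h0 => by
    have h1 := hΦ φ
    rw [h0] at h1
    tauto
  exact ⟨⟨K, Φ, hΦ⟩, e, Ψ, hΨ⟩

end

end Pool.Agent.N995
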