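import Mathlib
import Pool.Agent.N995.Gen
import Pool.Agent.N995.Bet4
import Pool.Agent.R915.C2

/-!
# The irreducible submodules of simple abelian varieties
-/

set_option linter.unusedSectionVars false

namespace Pool.Agent.N995

open Matrix Module Pool.Agent.W437.HC Pool.Agent.W437.HD Pool.Agent.TH504.CB Pool.Agent.Y90
open Pool.Agent.R915
open Pool.Agent.W548.Odd hiding cv
open Pool.Agent.W437.HP (cK cK_mul cK_one cK_sum)
open scoped ComplexOrder

noncomputable section

variable {g : ℕ} {Z : Matrix (Fin g) (Fin g) ℂ}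

/-- The orthogonal complement. -/
def orC (P : Submodule ℂ (Fin g ⊕ Fin g → ℂ)) : Submodule ℂ (Fin g ⊕ Fin g → ℂ) where
  carrier := {v | ∀ u ∈ P, om g u v = 0}
  add_mem' := fun {v w} hv hw u hu => by rw [map_add, hv u hu, hw u hu, add_zero]
  zero_mem' := fun u _ => map_zero _
  smul_mem' := fun c v hv u hu => by rw [map_smul, hv u hu, smul_zero]

theorem finrank_orC (P : Submodule ℂ (Fin g ⊕ Fin g → ℂ)) :
    finrank ℂ (orC P) = 2 * g - finrank ℂ P := by
  have h1 : (om g : LinearMap.BilinForm ℂ (Fin g ⊕ Fin g → ℂ)).Nondegenerate := by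
    refine ⟨fun u hu => om_nd u hu, fun v hv => om_nd v fun u => ?_⟩
    rw [om_anti, hv, neg_zero]
  have h3 := LinearMap.BilinForm.finrank_orthogonal h1 P
  have h4 : finrank ℂ (orC P) = finrank ℂ (Fin g ⊕ Fin g → ℂ) - finrank ℂ P := h3
  rw [h4, Module.finrank_fintype_fun_eq_card, Fintype.card_sum, Fintype.card_fin]
  omega

theorem orC_stab (h : PM Z) {P : Submodule ℂ (Fin g ⊕ Fin g → ℂ)} (hP : Stab (LZ Z) P) :
    Stab (LZ Z) (orC P) := by
  intro X hX v hv u hu
  have h1 := h.om_sp hX u v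
  rw [hv _ (hP X hX u hu), zero_add] at h1
  exact h1

/-- If the irreducible submodules are not self-dual then their dimension divides the dimension. -/
theorem dvd_half (h : PM Z) (hs : IsSimpleAV Z) {U : Submodule ℂ (Fin g ⊕ Fin g → ℂ)}
    (hU : IrS (LZ Z) U) (hn : ¬SDu Z U) : finrank ℂ U ∣ g := by
  let S : Set (Submodule ℂ (Fin g ⊕ Fin g → ℂ)) :=
    {P | Stab (LZ Z) P ∧ ∀ u ∈ P, ∀ v ∈ P, om g u v = 0}
  have hne : S.Nonempty := ⟨⊥, fun X _ u hu => by
    rw [Submodule.mem_bot] at hu ⊢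
    rw [hu, mulVec_zero], fun u hu v _ => by
    rw [Submodule.mem_bot] at hu
    rw [hu, map_zero, LinearMap.zero_apply]⟩
  obtain ⟨P, ⟨hP1, hP2⟩, hmax⟩ := wellFounded_gt.has_min S hne
  have hle : P ≤ orC P := fun v hv u hu => hP2 u hu v hv
  have heq : orC P = P := by
    by_contra hne'
    obtain ⟨C, hC1, hC2, hC3, hC4⟩ := h.cred.compl hP1 (orC_stab h hP1) hle
    have hC0 : C ≠ ⊥ := by
      intro h0
      rw [h0, sup_bot_eq] at hC4
      exact hne' hC4.symm
    obtain ⟨U', hU'1, hU'2⟩ := exists_irS _ C rfl hC0 hC1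
    have hiso : ∀ u ∈ U', ∀ v ∈ U', om g u v = 0 := by
      by_contra hcon
      push Not at hcon
      obtain ⟨u, hu, v, hv, huv⟩ := hcon
      exact hn (sdu_any h hs hU'2 hU ⟨om g, ⟨u, hu, v, hv, huv⟩, fun X hX u _ v _ =>
        h.om_sp hX u v⟩)
    have hS : P ⊔ U' ∈ S := by
      refine ⟨hP1.sup hU'2.2.1, ?_⟩
      intro u hu v hv
      obtain ⟨p, hp, w, hw, rfl⟩ := Submodule.mem_sup.1 hu
      obtain ⟨p', hp', w', hw', rfl⟩ := Submodule.mem_sup.1 hv
      have e1 : om g w p' = 0 := by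
        rw [om_anti, hC2 (hU'1 hw) p' hp', neg_zero]
      rw [map_add, map_add, LinearMap.add_apply, LinearMap.add_apply, hP2 p hp p' hp', e1,
        hC2 (hU'1 hw') p hp, hiso w hw w' hw']
      simp
    refine hmax _ hS ?_
    refine lt_of_le_of_ne le_sup_left fun h0 => ?_
    apply hU'2.1
    rw [eq_bot_iff, ← hC3]
    refine le_inf ?_ hU'1
    rw [h0]
    exact le_sup_right
  have hdim : finrank ℂ P = g := by
    have h1 := finrank_orC P
    rw [heq] at h1
    have h2 : finrank ℂ P ≤ 2 * g := by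
      have h3 := Submodule.finrank_le P
      rw [Module.finrank_fintype_fun_eq_card, Fintype.card_sum, Fintype.card_fin] at h3
      omega
    omega
  exact h.cred.dvd (fun U' hU' => finrank_irS h hs hU' hU) g P hdim hP1

/-- If the irreducible submodules are self-dual then their dimension is even. -/
theorem even_of_sdu (h : PM Z) {U : Submodule ℂ (Fin g ⊕ Fin g → ℂ)} (hU : IrS (LZ Z) U)
    (hd : SDu Z U) : Even (finrank ℂ U) := by
  obtain ⟨b, h0, hb⟩ := hd
  have h1 := tr_dual h hU hU h0 hb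
  have h2 := pd_add_qd h hU.2.1
  unfold tr at h1
  refine ⟨pd Z U, ?_⟩
  omega

/-- Without stable subspaces all endomorphisms are rational numbers. -/
theorem comm_top (h : PM Z) (hU : IrS (LZ Z) (⊤ : Submodule ℂ (Fin g ⊕ Fin g → ℂ)))
    (f : Module.End ℚ (AVZ h).H) (hf : IsHom (AVZ h) (AVZ h) f) : ∃ c : ℚ, f = c • 1 := by
  have h1 := (hom_iff' h f).1 hf
  obtain ⟨z, hz⟩ := schur_scalar hU (commL_of h1) fun _ _ => trivial
  have h2 : qm (LinearMap.toMatrix' f) = z • 1 := by
    ext i j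
    have h3 := congrFun (hz (Pi.single j 1) trivial) i
    rw [mulVec_single_one, col_apply, Pi.smul_apply, smul_eq_mul] at h3
    rw [h3, Matrix.smul_apply, smul_eq_mul, Matrix.one_apply, Pi.single_apply]
  rcases Nat.eq_zero_or_pos g with hg | hg
  · subst hg
    refine ⟨0, ?_⟩
    ext v i
    exact (i.elim (fun i => i.elim0) fun i => i.elim0 : _)
  · let i : Fin g ⊕ Fin g := Sum.inl ⟨0, hg⟩
    refine ⟨LinearMap.toMatrix' f i i, ?_⟩
    have h3 : ((LinearMap.toMatrix' f i i : ℚ) : ℂ) = z := by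
      have h4 := congrFun (congrFun h2 i) i
      refine Eq.trans h4 ?_
      simp
    have h4 : LinearMap.toMatrix' f = (LinearMap.toMatrix' f i i) • 1 := by
      apply qm_inj'
      rw [qm_smul_one, h3, h2]
    have h5 : LinearMap.toMatrix' f = LinearMap.toMatrix'
        ((LinearMap.toMatrix' f i i) • (LinearMap.id : (Fin g ⊕ Fin g → ℚ) →ₗ[ℚ] _)) := by
      rw [map_smul, LinearMap.toMatrix'_id]
      exact h4
    exact LinearMap.toMatrix'.injective h5

end

end Pool.Agent.N995
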