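import Mathlib
import Pool.Agent.N995.Cls1

/-!
# Imaginary quadratic fields
-/

set_option linter.unusedSectionVars false

namespace Pool.Agent.N995

open Matrix Module Pool.Agent.W437.HC Pool.Agent.W437.HD Pool.Agent.TH504.CB Pool.Agent.Y90
open Pool.Agent.R915
open Pool.Agent.W548.Odd hiding cv
open Pool.Agent.W437.HP (cK cK_mul cK_one cK_sum)
open scoped ComplexOrder

noncomputable section

variable {g : ℕ} {Z : Matrix (Fin g) (Fin g) ℂ}

/-- The splitting of the homology into two dual pieces. -/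
structure Spl (Z : Matrix (Fin g) (Fin g) ℂ) (U : Submodule ℂ (Fin g ⊕ Fin g → ℂ)) : Prop where
  irr : IrS (LZ Z) U
  ns : ¬SDu Z U
  ns' : ¬SDu Z (cjS cc U)
  iso : ∀ u ∈ U, ∀ v ∈ U, om g u v = 0
  inf : U ⊓ cjS cc U = ⊥
  sup : U ⊔ cjS cc U = ⊤

theorem exists_spl (h : PM Z) (hs : IsSimpleAV Z) {U : Submodule ℂ (Fin g ⊕ Fin g → ℂ)}
    (hU : IrS (LZ Z) U) (hn : ¬SDu Z U) (hd : finrank ℂ U = g) : Spl Z U := by
  have hU' : IrS (LZ Z) (cjS cc U) := hU.cj gal_LZ cc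
  have hiso : ∀ u ∈ U, ∀ v ∈ U, om g u v = 0 := by
    intro u hu v hv
    by_contra hne
    exact hn ⟨om g, ⟨u, hu, v, hv, hne⟩, fun X hX u _ v _ => h.om_sp hX u v⟩
  have hinf : U ⊓ cjS cc U = ⊥ := by
    refine hU.disjoint hU'.2.1 fun hle => ?_
    rcases hU'.2.2 U hle hU.2.1 with h1 | h1
    · exact hU.1 h1
    · obtain ⟨u, hu, v, hv, huv⟩ := pair_cc h hU.2.1 hU.1
      rw [← h1] at hv
      exact huv (hiso u hu v hv)
  refine ⟨hU, hn, fun h1 => hn (sdu_any h hs hU' hU h1), hiso, hinf, ?_⟩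
  apply Submodule.eq_top_of_finrank_eq
  have h1 := Submodule.finrank_sup_add_finrank_inf_eq U (cjS cc U)
  rw [hinf, finrank_bot, finrank_cjS, hd] at h1
  rw [finrank_V]
  omega

variable {U : Submodule ℂ (Fin g ⊕ Fin g → ℂ)}

theorem Spl.dec (k : Spl Z U) (v : Fin g ⊕ Fin g → ℂ) : ∃ a ∈ U, ∃ b ∈ cjS cc U, v = a + b := by
  have h1 : v ∈ U ⊔ cjS cc U := by rw [k.sup]; trivial
  obtain ⟨a, ha, b, hb, hab⟩ := Submodule.mem_sup.1 h1
  exact ⟨a, ha, b, hb, hab.symm⟩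

theorem Spl.irr' (k : Spl Z U) : IrS (LZ Z) (cjS cc U) := k.irr.cj gal_LZ cc

/-- The commutant preserves the pieces. -/
theorem Spl.pres (k : Spl Z U) (h : PM Z) {S : Matrix (Fin g ⊕ Fin g) (Fin g ⊕ Fin g) ℂ}
    (hS : ∀ X ∈ LZ Z, X * S = S * X) : ∀ u ∈ U, S *ᵥ u ∈ U := by
  have hc : IsCompl U (cjS cc U) := ⟨disjoint_iff.2 k.inf, codisjoint_iff.2 k.sup⟩
  let P : End ℂ (Fin g ⊕ Fin g → ℂ) := (cjS cc U).projection U hc.symm
  have hP1 : ∀ u ∈ cjS cc U, P u = u := fun u hu =>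
    Submodule.projection_apply_of_mem_left hc.symm hu
  have hP2 : ∀ u ∈ U, P u = 0 := fun u hu => Submodule.projection_apply_of_mem_right hc.symm hu
  have hPmem : ∀ v, P v ∈ cjS cc U := fun v => by
    change (cjS cc U).projection U hc.symm v ∈ cjS cc U
    rw [Submodule.projection_apply]
    exact SetLike.coe_mem _
  have hPc : ∀ X ∈ LZ Z, ∀ v, P (X *ᵥ v) = X *ᵥ P v := by
    intro X hX v
    obtain ⟨a, ha, b, hb, rfl⟩ := k.dec v
    rw [mulVec_add, map_add, map_add, hP2 _ (k.irr.2.1 X hX a ha), hP1 _ (k.irr'.2.1 X hX b hb),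
      hP2 a ha, hP1 b hb, zero_add, zero_add]
  intro u hu
  have h0 : P (S *ᵥ u) = 0 := by
    by_contra hne
    apply k.ns
    let b : (Fin g ⊕ Fin g → ℂ) →ₗ[ℂ] (Fin g ⊕ Fin g → ℂ) →ₗ[ℂ] ℂ :=
      (om g).compl₂ (P ∘ₗ mulVecLin S)
    have hb : ∀ x y, b x y = om g x (P (S *ᵥ y)) := fun _ _ => rfl
    obtain ⟨w, hw, hw0⟩ : ∃ w ∈ U, om g w (P (S *ᵥ u)) ≠ 0 := by
      by_contra hcon
      push Not at hcon
      exact hne (nd_cc h k.irr (hPmem _) hcon)
    refine ⟨b, ⟨w, hw, u, hu, hw0⟩, fun X hX x _ y _ => ?_⟩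
    rw [hb, hb, mulVec_mulVec, ← hS X hX, ← mulVec_mulVec, hPc X hX]
    exact h.om_sp hX _ _
  obtain ⟨a, ha, b, hb, hab⟩ := k.dec (S *ᵥ u)
  rw [hab, map_add, hP2 a ha, hP1 b hb, zero_add] at h0
  rw [hab, h0, add_zero]
  exact ha

theorem Spl.symm (k : Spl Z U) : Spl Z (cjS cc U) := by
  have e1 : cjS cc (cjS cc U) = U := cjS_cc U
  refine ⟨k.irr', k.ns', by rw [e1]; exact k.ns, ?_, ?_, ?_⟩
  · intro u hu v hv
    have h1 := k.iso _ hu _ hv
    have h2 := om_conj cc.symm u v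
    rw [h1] at h2
    exact (map_eq_zero_iff _ cc.symm.injective).1 h2
  · rw [e1, inf_comm]
    exact k.inf
  · rw [e1, sup_comm]
    exact k.sup

/-- The scalars of the commutant. -/
theorem Spl.scal (k : Spl Z U) (h : PM Z) {S : Matrix (Fin g ⊕ Fin g) (Fin g ⊕ Fin g) ℂ}
    (hS : ∀ X ∈ LZ Z, X * S = S * X) :
    ∃ x y : ℂ, (∀ u ∈ U, S *ᵥ u = x • u) ∧ ∀ v ∈ cjS cc U, S *ᵥ v = y • v := by
  obtain ⟨x, hx⟩ := schur_scalar k.irr hS (k.pres h hS)
  obtain ⟨y, hy⟩ := schur_scalar k.irr' hS (k.symm.pres h hS)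
  exact ⟨x, y, hx, hy⟩

/-- The eigenvalues of rational matrices. -/
theorem Spl.gal (k : Spl Z U) {C : Matrix (Fin g ⊕ Fin g) (Fin g ⊕ Fin g) ℚ} {x y : ℂ}
    (hx : ∀ u ∈ U, qm C *ᵥ u = x • u) (hy : ∀ v ∈ cjS cc U, qm C *ᵥ v = y • v) (σ : ℂ ≃+* ℂ) :
    (σ x = x ∧ σ y = y) ∨ (σ x = y ∧ σ y = x) := by
  have key : ∀ (V : Submodule ℂ (Fin g ⊕ Fin g → ℂ)) (z : ℂ), V ≠ ⊥ →
      (∀ u ∈ V, qm C *ᵥ u = z • u) → σ z = x ∨ σ z = y := by
    intro V z hV hz
    obtain ⟨v, hv, hv0⟩ := Submodule.exists_mem_ne_zero_of_ne_bot hV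
    have h1 : qm C *ᵥ (fun i => σ (v i)) = σ z • fun i => σ (v i) := by
      have h2 := map_mulVec_aut σ (qm C) v
      have h3 : (qm C).map σ = qm C := cK_aut σ C
      rw [h3, hz v hv] at h2
      rw [← h2]
      funext i
      exact map_mul σ _ _
    obtain ⟨a, ha, b, hb, hab⟩ := k.dec (fun i => σ (v i))
    rw [hab, mulVec_add, hx a ha, hy b hb, smul_add] at h1
    have h4 : (x - σ z) • a = (σ z - y) • b := by
      rw [sub_smul, sub_smul]
      have h5 : x • a + y • b - (σ z • a + σ z • b) = 0 := sub_eq_zero.2 h1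
      rw [← sub_eq_zero, ← h5]
      abel
    have h5 : (x - σ z) • a ∈ U ⊓ cjS cc U := by
      refine ⟨U.smul_mem _ ha, ?_⟩
      rw [h4]
      exact (cjS cc U).smul_mem _ hb
    rw [k.inf, Submodule.mem_bot] at h5
    rcases smul_eq_zero.1 h5 with h6 | h6
    · left
      exact (sub_eq_zero.1 h6).symm
    · right
      rw [h6, smul_zero] at h4
      rcases smul_eq_zero.1 h4.symm with h7 | h7
      · exact sub_eq_zero.1 h7
      · exfalso
        rw [h6, h7, add_zero] at hab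
        apply hv0
        funext i
        have h8 := congrFun hab i
        exact (map_eq_zero_iff σ σ.injective).1 h8
  have h1 := key U x k.irr.1 hx
  have h2 := key _ y k.irr'.1 hy
  by_cases hxy : x = y
  · subst hxy
    left
    exact ⟨h1.elim id id, h1.elim id id⟩
  · have h3 : σ x ≠ σ y := fun h => hxy (σ.injective h)
    rcases h1 with h1 | h1 <;> rcases h2 with h2 | h2
    · exact absurd (h1.trans h2.symm) h3
    · exact Or.inl ⟨h1, h2⟩
    · exact Or.inr ⟨h1, h2⟩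
    · exact absurd (h1.trans h2.symm) h3

theorem Spl.ext (k : Spl Z U) {A A' : Matrix (Fin g ⊕ Fin g) (Fin g ⊕ Fin g) ℂ}
    (h1 : ∀ u ∈ U, A *ᵥ u = A' *ᵥ u) (h2 : ∀ u ∈ cjS cc U, A *ᵥ u = A' *ᵥ u) : A = A' := by
  have h3 : ∀ v, A *ᵥ v = A' *ᵥ v := by
    intro v
    obtain ⟨a, ha, b, hb, rfl⟩ := k.dec v
    rw [mulVec_add, mulVec_add, h1 a ha, h2 b hb]
  ext i j
  have h4 := congrFun (h3 (Pi.single j 1)) i
  rwa [mulVec_single_one, mulVec_single_one] at h4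

/-- **The imaginary quadratic field.** -/
theorem Spl.exists_QF (k : Spl Z U) (h : PM Z) : ∃ φ d, QF Z φ d := by
  have hc : IsCompl U (cjS cc U) := ⟨disjoint_iff.2 k.inf, codisjoint_iff.2 k.sup⟩
  let P : End ℂ (Fin g ⊕ Fin g → ℂ) := U.projection (cjS cc U) hc
  have hP1 : ∀ u ∈ U, P u = u := fun u hu =>
    Submodule.projection_apply_of_mem_left hc hu
  have hP2 : ∀ u ∈ cjS cc U, P u = 0 := fun u hu => Submodule.projection_apply_of_mem_right hc hu
  have hT : ∀ v, LinearMap.toMatrix' P *ᵥ v = P v := fun v => LinearMap.toMatrix'_mulVec P v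
  have hTc : ∀ X ∈ LZ Z, LinearMap.toMatrix' P * X = X * LinearMap.toMatrix' P := by
    intro X hX
    refine k.ext (fun u hu => ?_) fun u hu => ?_
    · rw [← mulVec_mulVec, ← mulVec_mulVec, hT, hT, hP1 u hu, hP1 _ (k.irr.2.1 X hX u hu)]
    · rw [← mulVec_mulVec, ← mulVec_mulVec, hT, hT, hP2 u hu, hP2 _ (k.irr'.2.1 X hX u hu),
        mulVec_zero]
  obtain ⟨m, c, C, h1, -, h3⟩ := descent_gen hTc
  choose x y hx hy using fun j => k.scal h (commL_of (h1 j))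
  have h4 : ∃ j, x j ≠ y j := by
    by_contra hne
    push Not at hne
    obtain ⟨u, hu, hu0⟩ := Submodule.exists_mem_ne_zero_of_ne_bot k.irr.1
    obtain ⟨v, hv, hv0⟩ := Submodule.exists_mem_ne_zero_of_ne_bot k.irr'.1
    have e1 : LinearMap.toMatrix' P *ᵥ u = (∑ j, c j * x j) • u := by
      rw [h3, sum_mulVec, Finset.sum_smul]
      refine Finset.sum_congr rfl fun j _ => ?_
      rw [smul_mulVec, hx j u hu, smul_smul]
    have e2 : LinearMap.toMatrix' P *ᵥ v = (∑ j, c j * x j) • v := by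
      rw [h3, sum_mulVec, Finset.sum_smul]
      refine Finset.sum_congr rfl fun j _ => ?_
      rw [smul_mulVec, hy j v hv, smul_smul, hne]
    rw [hT, hP2 v hv] at e2
    rw [hT, hP1 u hu] at e1
    have e3 : (∑ j, c j * x j) = 0 := (smul_eq_zero.1 e2.symm).resolve_right hv0
    rw [e3, zero_smul] at e1
    exact hu0 e1
  obtain ⟨j, hj⟩ := h4
  have hyx : y j = cc (x j) := by
    obtain ⟨v, hv, hv0⟩ := Submodule.exists_mem_ne_zero_of_ne_bot k.irr'.1
    have e1 : qm (C j) *ᵥ cnj v = x j • cnj v := hx j _ hv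
    have e2 := congrArg cnj e1
    rw [cnj_mulVec, cnj_cnj, cnj_smul, cnj_cnj] at e2
    have e3 : (qm (C j)).map cc = qm (C j) := cK_aut cc (C j)
    rw [e3, hy j v hv] at e2
    have e4 : (y j - cc (x j)) • v = 0 := by rw [sub_smul, e2, sub_self]
    exact sub_eq_zero.1 ((smul_eq_zero.1 e4).resolve_right hv0)
  -- the rational numbers
  obtain ⟨s, hs⟩ : ∃ s : ℚ, (x j + y j) / 2 = s := exists_rat fun σ => by
    rw [map_div₀, map_add, map_ofNat]
    rcases k.gal (hx j) (hy j) σ with ⟨e1, e2⟩ | ⟨e1, e2⟩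
    · rw [e1, e2]
    · rw [e1, e2, add_comm]
  obtain ⟨t, ht⟩ : ∃ t : ℚ, ((x j - y j) / 2) * ((x j - y j) / 2) = t := exists_rat fun σ => by
    rw [map_mul, map_div₀, map_sub, map_ofNat]
    rcases k.gal (hx j) (hy j) σ with ⟨e1, e2⟩ | ⟨e1, e2⟩
    · rw [e1, e2]
    · rw [e1, e2]
      ring
  have ht0 : t < 0 := by
    have e1 : (x j - y j) / 2 = Complex.I * ((x j).im : ℂ) := by
      rw [hyx, cc_apply]
      apply Complex.ext <;> simp
    have e2 : (x j).im ≠ 0 := by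
      intro e3
      rw [e3, Complex.ofReal_zero, mul_zero] at e1
      apply hj
      linear_combination 2 * e1
    have e3 : (t : ℂ) = ((-((x j).im * (x j).im) : ℝ) : ℂ) := by
      rw [← ht, e1]
      push_cast
      linear_combination ((x j).im : ℂ) * ((x j).im : ℂ) * Complex.I_mul_I
    have e4 : (t : ℝ) = -((x j).im * (x j).im) := by exact_mod_cast e3
    have e5 : (t : ℝ) < 0 := by
      rw [e4, neg_lt_zero]
      exact mul_self_pos.2 e2
    exact_mod_cast e5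
  obtain ⟨φ, hφ⟩ : ∃ φ, φ = C j - s • (1 : Matrix (Fin g ⊕ Fin g) (Fin g ⊕ Fin g) ℚ) := ⟨_, rfl⟩
  have hqφ : qm φ = qm (C j) - (s : ℂ) • 1 := by
    rw [← qm_smul_one, hφ]
    ext a b
    change (((C j - s • (1 : Matrix (Fin g ⊕ Fin g) (Fin g ⊕ Fin g) ℚ)) a b : ℚ) : ℂ) =
      ((C j a b : ℚ) : ℂ) - (((s • (1 : Matrix (Fin g ⊕ Fin g) (Fin g ⊕ Fin g) ℚ)) a b : ℚ) : ℂ)
    rw [Matrix.sub_apply, Rat.cast_sub]
  have f1 : ∀ u ∈ U, qm φ *ᵥ u = ((x j - y j) / 2) • u := by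
    intro u hu
    rw [hqφ, sub_mulVec, smul_mulVec, one_mulVec, hx j u hu, ← sub_smul]
    congr 1
    linear_combination hs
  have f2 : ∀ u ∈ cjS cc U, qm φ *ᵥ u = (-((x j - y j) / 2)) • u := by
    intro u hu
    rw [hqφ, sub_mulVec, smul_mulVec, one_mulVec, hy j u hu, ← sub_smul]
    congr 1
    linear_combination hs
  have f3 : (x j - y j) / 2 ≠ 0 := by
    intro e1
    apply hj
    linear_combination 2 * e1
  refine ⟨φ, -t, by linarith, ?_, ?_, ?_⟩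
  · apply qm_inj'
    have e1 : -(-t • (1 : Matrix (Fin g ⊕ Fin g) (Fin g ⊕ Fin g) ℚ)) = t • 1 := by
      rw [neg_smul, neg_neg]
    rw [e1, qm_smul_one, qm_mul']
    refine k.ext (fun u hu => ?_) fun u hu => ?_
    · rw [← mulVec_mulVec, f1 u hu, mulVec_smul, f1 u hu, smul_smul, ht, smul_mulVec, one_mulVec]
    · rw [← mulVec_mulVec, f2 u hu, mulVec_smul, f2 u hu, smul_smul, smul_mulVec, one_mulVec]
      congr 1
      linear_combination ht
  · rw [hqφ, Matrix.sub_mul, Matrix.mul_sub, h1 j, Matrix.smul_mul, Matrix.mul_smul, Matrix.one_mul,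
      Matrix.mul_one]
  · intro ψ hψ
    obtain ⟨x', y', hx', hy'⟩ := k.scal h (commL_of hψ)
    obtain ⟨a, ha⟩ : ∃ a : ℚ, (x' + y') / 2 = a := exists_rat fun σ => by
      rw [map_div₀, map_add, map_ofNat]
      rcases k.gal hx' hy' σ with ⟨e1, e2⟩ | ⟨e1, e2⟩
      · rw [e1, e2]
      · rw [e1, e2, add_comm]
    obtain ⟨b, hb⟩ : ∃ b : ℂ, b = (x' - y') / (x j - y j) := ⟨_, rfl⟩
    have hxy : x j - y j ≠ 0 := sub_ne_zero.2 hj
    have e1 : qm ψ = (a : ℂ) • 1 + b • qm φ := by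
      refine k.ext (fun u hu => ?_) fun u hu => ?_
      · rw [hx' u hu, add_mulVec, smul_mulVec, smul_mulVec, one_mulVec, f1 u hu, smul_smul,
          ← add_smul]
        congr 1
        rw [← ha, hb]
        field_simp
        ring
      · rw [hy' u hu, add_mulVec, smul_mulVec, smul_mulVec, one_mulVec, f2 u hu, smul_smul,
          ← add_smul]
        congr 1
        rw [← ha, hb]
        field_simp
        ring
    obtain ⟨p, q, hpq⟩ : ∃ p q, φ p q ≠ 0 := by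
      by_contra hne
      push Not at hne
      obtain ⟨u, hu, hu0⟩ := Submodule.exists_mem_ne_zero_of_ne_bot k.irr.1
      have e2 : qm φ = 0 := by
        ext p q
        change ((φ p q : ℚ) : ℂ) = 0
        rw [hne, Rat.cast_zero]
      have e3 := f1 u hu
      rw [e2, zero_mulVec] at e3
      exact (smul_ne_zero f3 hu0) e3.symm
    have hpq' : ((φ p q : ℚ) : ℂ) ≠ 0 := by exact_mod_cast hpq
    have e2 : ((ψ p q : ℚ) : ℂ) = (a : ℂ) * (1 : Matrix (Fin g ⊕ Fin g) (Fin g ⊕ Fin g) ℂ) p q +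
        b * ((φ p q : ℚ) : ℂ) := congrFun (congrFun e1 p) q
    obtain ⟨r, hr⟩ : ∃ r : ℚ, b = r := by
      refine ⟨(ψ p q - a * (1 : Matrix (Fin g ⊕ Fin g) (Fin g ⊕ Fin g) ℚ) p q) / φ p q, ?_⟩
      have e3 : (((1 : Matrix (Fin g ⊕ Fin g) (Fin g ⊕ Fin g) ℚ) p q : ℚ) : ℂ) =
          (1 : Matrix (Fin g ⊕ Fin g) (Fin g ⊕ Fin g) ℂ) p q := by
        rw [Matrix.one_apply, Matrix.one_apply]
        split_ifs <;> simp
      push_cast
      rw [e3, eq_div_iff hpq', e2]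
      ring
    refine ⟨a, r, ?_⟩
    apply qm_inj'
    rw [e1, hr]
    ext p q
    change (a : ℂ) * (1 : Matrix (Fin g ⊕ Fin g) (Fin g ⊕ Fin g) ℂ) p q + (r : ℂ) *
      ((φ p q : ℚ) : ℂ) = (((a • (1 : Matrix (Fin g ⊕ Fin g) (Fin g ⊕ Fin g) ℚ) + r • φ) p q : ℚ) : ℂ)
    rw [Matrix.add_apply, Matrix.smul_apply, Matrix.smul_apply, smul_eq_mul, smul_eq_mul,
      Rat.cast_add, Rat.cast_mul, Rat.cast_mul, Matrix.one_apply, Matrix.one_apply]
    split_ifs <;> simp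

end

end Pool.Agent.N995
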