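import Mathlib
import Pool.Agent.N995.Cls2
import Pool.Agent.N995.Gen
import Pool.Agent.R915.M2

/-!
# The classification of the simple abelian varieties of dimension at most five
-/

set_option linter.unusedSectionVars false

namespace Pool.Agent.N995

open Matrix Module Pool.Agent.W437.HC Pool.Agent.W437.HD Pool.Agent.TH504.CB Pool.Agent.Y90
open Pool.Agent.R915
open Pool.Agent.W548.Odd hiding cv
open Pool.Agent.W437.HP (cK cK_mul cK_one cK_sum)

noncomputable section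

theorem lc_of_sdu {g : ℕ} {Z : Matrix (Fin g) (Fin g) ℂ} (h : PM Z)
    {U : Submodule ℂ (Fin g ⊕ Fin g → ℂ)} (hr : Rk1 Z U) (hs : SDu Z U)
    (h2 : 2 ≤ finrank ℂ U) : LC h U :=
  ⟨fun _ => hr, fun _ => ns_of_sdu h hs, Or.inl ⟨hs, h2⟩⟩

theorem exists_irr {g : ℕ} {Z : Matrix (Fin g) (Fin g) ℂ} (hg : 0 < g) :
    ∃ U : Submodule ℂ (Fin g ⊕ Fin g → ℂ), IrS (LZ Z) U := by
  obtain ⟨U, -, hU⟩ := exists_irS (L := LZ Z) _ (⊤ : Submodule ℂ (Fin g ⊕ Fin g → ℂ)) rfl (by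
    intro h0
    have h1 := congrArg (fun W : Submodule ℂ (Fin g ⊕ Fin g → ℂ) => finrank ℂ W) h0
    beta_reduce at h1
    rw [finrank_top, finrank_V, finrank_bot] at h1
    omega) stab_top
  exact ⟨U, hU⟩

/-- Five-dimensional simple abelian varieties. -/
theorem alt_five {Z : Matrix (Fin 5) (Fin 5) ℂ} (h : PM Z) (hs : IsSimple (AVZ h))
    (hcm : ¬HasCM Z) : (∀ U, IrS (LZ Z) U → LC h U) ∨
      ∃ φ d, ∃ _ : QF Z φ d, (∀ U, IrS (LZ Z) U → Rk1 Z U) ∧ ∀ U, IrS (LZ Z) U → tr Z U ≠ 0 := by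
  have hs' := simple_AVZ h hs
  obtain ⟨U, hU⟩ := exists_irr (Z := Z) (by norm_num)
  have hdv := finrank_dvd h hs' hU
  have hne1 : finrank ℂ U ≠ 1 := fun h1 => hcm (cm_of_one h hs' (by norm_num) hU h1)
  have hn : finrank ℂ U = 2 ∨ finrank ℂ U = 5 ∨ finrank ℂ U = 10 := by
    have h1 : finrank ℂ U ∈ Nat.divisors 10 := Nat.mem_divisors.2 ⟨hdv, by norm_num⟩
    have h2 : Nat.divisors 10 = {1, 2, 5, 10} := by decide
    rw [h2] at h1
    simp only [Finset.mem_insert, Finset.mem_singleton] at h1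
    tauto
  rcases hn with hn | hn | hn
  · have hsd : SDu Z U := by
      by_contra hn'
      have h1 := dvd_half h hs' hU hn'
      rw [hn] at h1
      omega
    refine Or.inl fun W hW => ?_
    have hd : finrank ℂ W = 2 := by rw [finrank_irS h hs' hW hU, hn]
    have hsW := sdu_any h hs' hU hW hsd
    exact lc_of_sdu h (rk1_two h hW hsW (by omega)).1 hsW (by omega)
  · have hnd : ¬SDu Z U := fun h1 => by
      have h2 := even_of_sdu h hU h1
      rw [hn] at h2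
      exact absurd h2 (by decide)
    obtain ⟨φ, d, k⟩ := (exists_spl h hs' hU hnd hn).exists_QF h
    have key : ∀ W, IrS (LZ Z) W → 0 < pd Z W ∧ 0 < qd Z W ∧ pd Z W + qd Z W = 5 := by
      intro W hW
      obtain ⟨α, hα, hm⟩ := k.exists_root h hW
      have hdim := k.dim h hα hm hW.1
      have hns := k.nonscalar h hα hm hW (by omega)
      have hpq := pd_add_qd h hW.2.1
      exact ⟨pd_pos h hW.2.1 (hns (RingEquiv.refl ℂ)), qd_pos h hW.2.1 (hns (RingEquiv.refl ℂ)),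
        by omega⟩
    refine Or.inr ⟨φ, d, k, fun W hW => ?_, fun W hW => ?_⟩
    · obtain ⟨h1, h2, h3⟩ := key W hW
      refine coprime_rk1 h hW h1 h2 ?_
      have : (pd Z W = 1 ∧ qd Z W = 4) ∨ (pd Z W = 2 ∧ qd Z W = 3) ∨
        (pd Z W = 3 ∧ qd Z W = 2) ∨ (pd Z W = 4 ∧ qd Z W = 1) := by omega
      rcases this with ⟨h6, h7⟩ | ⟨h6, h7⟩ | ⟨h6, h7⟩ | ⟨h6, h7⟩ <;> rw [h6, h7] <;> decide
    · obtain ⟨h1, h2, h3⟩ := key W hW
      unfold tr
      omega
  · refine Or.inl fun W hW => ?_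
    have hUT : U = ⊤ := by
      refine Submodule.eq_top_of_finrank_eq ?_
      rw [hn, finrank_V]
    rw [hUT] at hU
    exact FiveDim.lc h hs (by norm_num) ⟨by rw [finrank_AVZ], comm_top h hU⟩ hW

/-- Four-dimensional simple abelian varieties. -/
theorem alt_four {Z : Matrix (Fin 4) (Fin 4) ℂ} (h : PM Z) (hs : IsSimple (AVZ h))
    (hcm : ¬HasCM Z)
    (hM : (∀ f : Module.End ℚ (AVZ h).H, IsHom (AVZ h) (AVZ h) f → ∃ c : ℚ, f = c • 1) →
      FullHodge (AVZ h)) : (∀ U, IrS (LZ Z) U → LC h U) ∨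
      (∃ U, IrS (LZ Z) U ∧ finrank ℂ U = 2 ∧ ¬SDu Z U) ∨
      ∃ (U : Submodule ℂ (Fin 4 ⊕ Fin 4 → ℂ))
        (b : (Fin 4 ⊕ Fin 4 → ℂ) →ₗ[ℂ] (Fin 4 ⊕ Fin 4 → ℂ) →ₗ[ℂ] ℂ), IrS (LZ Z) U ∧
        finrank ℂ U = 4 ∧ (∃ u ∈ U, ∃ v ∈ U, b u v ≠ 0) ∧
        (∀ X ∈ LZ Z, ∀ u ∈ U, ∀ v ∈ U, b (X *ᵥ u) v + b u (X *ᵥ v) = 0) ∧
        ∀ u ∈ U, ∀ v ∈ U, b u v = b v u := by
  have hs' := simple_AVZ h hs
  obtain ⟨U, hU⟩ := exists_irr (Z := Z) (by norm_num)
  have hdv := finrank_dvd h hs' hU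
  have hne1 : finrank ℂ U ≠ 1 := fun h1 => hcm (cm_of_one h hs' (by norm_num) hU h1)
  have hn : finrank ℂ U = 2 ∨ finrank ℂ U = 4 ∨ finrank ℂ U = 8 := by
    have h1 : finrank ℂ U ∈ Nat.divisors 8 := Nat.mem_divisors.2 ⟨hdv, by norm_num⟩
    have h2 : Nat.divisors 8 = {1, 2, 4, 8} := by decide
    rw [h2] at h1
    simp only [Finset.mem_insert, Finset.mem_singleton] at h1
    tauto
  rcases hn with hn | hn | hn
  · by_cases hsd : SDu Z U
    · refine Or.inl fun W hW => ?_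
      have hd : finrank ℂ W = 2 := by rw [finrank_irS h hs' hW hU, hn]
      have hsW := sdu_any h hs' hU hW hsd
      exact lc_of_sdu h (rk1_two h hW hsW (by omega)).1 hsW (by omega)
    · exact Or.inr (Or.inl ⟨U, hU, hn, hsd⟩)
  · by_cases hsd : SDu Z U
    · by_cases hβ : ∃ (U : Submodule ℂ (Fin 4 ⊕ Fin 4 → ℂ))
        (b : (Fin 4 ⊕ Fin 4 → ℂ) →ₗ[ℂ] (Fin 4 ⊕ Fin 4 → ℂ) →ₗ[ℂ] ℂ), IrS (LZ Z) U ∧
        finrank ℂ U = 4 ∧ (∃ u ∈ U, ∃ v ∈ U, b u v ≠ 0) ∧
        (∀ X ∈ LZ Z, ∀ u ∈ U, ∀ v ∈ U, b (X *ᵥ u) v + b u (X *ᵥ v) = 0) ∧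
        ∀ u ∈ U, ∀ v ∈ U, b u v = b v u
      · exact Or.inr (Or.inr hβ)
      · refine Or.inl fun W hW => ?_
        have hd : finrank ℂ W = 4 := by rw [finrank_irS h hs' hW hU, hn]
        have hsW := sdu_any h hs' hU hW hsd
        refine lc_of_sdu h ?_ hsW (by omega)
        obtain ⟨b, h0, hb⟩ := hsW
        obtain ⟨c, hc⟩ := bil_unique hW (b' := b.flip) h0 hb (fun X hX u hu v hv => by
          rw [LinearMap.flip_apply, LinearMap.flip_apply, add_comm]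
          exact hb X hX v hv u hu)
        obtain ⟨u, hu, v, hv, huv⟩ := h0
        have h1 : c * c = 1 := by
          have h2 := hc u hu v hv
          have h3 := hc v hv u hu
          rw [LinearMap.flip_apply] at h2 h3
          rw [h2, ← mul_assoc] at h3
          have h4 : (c * c - 1) * b u v = 0 := by linear_combination -h3
          exact sub_eq_zero.1 ((mul_eq_zero.1 h4).resolve_right huv)
        rcases mul_self_eq_one_iff.1 h1 with h2 | h2
        · exfalso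
          refine hβ ⟨W, b, hW, hd, ⟨u, hu, v, hv, huv⟩, hb, fun u hu v hv => ?_⟩
          have h3 := hc u hu v hv
          rw [LinearMap.flip_apply, h2, one_mul] at h3
          exact h3.symm
        · refine rk1_sp h hW hd b ⟨u, hu, v, hv, huv⟩ hb fun u hu v hv => ?_
          have h3 := hc u hu v hv
          rw [LinearMap.flip_apply, h2] at h3
          rw [h3]
          ring
    · obtain ⟨φ, d, k⟩ := (exists_spl h hs' hU hsd hn).exists_QF h
      exact Or.inl fun W hW => k.lc h (Or.inl rfl) (fun h5 => absurd h5 (by norm_num)) hW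
  · refine Or.inl fun W hW => ?_
    have hUT : U = ⊤ := by
      refine Submodule.eq_top_of_finrank_eq ?_
      rw [hn, finrank_V]
    rw [hUT] at hU
    exact FullHodge.lc h hs (by norm_num) (hM (comm_top h hU)) hW

end

end Pool.Agent.N995
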