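import Mathlib
import Pool.Agent.Y90.Stm

/-!
# The Tate module of an ordinary abelian variety over a finitely generated field of characteristic `p`

Let `S` be a regular irreducible scheme of finite type over the field with `q` elements with the function
field `k` and let `X` be a polarized abelian scheme over `S` with ordinary fibres. Let `X̃` be the
canonical lift of `X ⊗ k̄` (over the ring of Witt vectors `W` of `k̄`, Serre and Tate), made into a
complex abelian variety by an embedding of `W` into `ℂ`. As in `Pool.Agent.Y90.Stm` it is described by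
`H = H_1(X̃, ℚ)`, the tangent space `T` and the period map `per : H → T`, and the lift of the
polarization by its Riemann form `E`. The endomorphisms of `X̃` and of `X ⊗ k̄` are the same (up to
isogeny). Let `K = ℚ_ℓ`, `ℓ ≠ p`. The group `V = K ⊗ H` is the rational Tate module of `X`, on which
the Galois group `Γ` of `k` acts (through the fundamental group of `S`); this is the representation
`ρ`, and `χ : Γ → K` is the cyclotomic character. The field `ℂ` is considered as an algebraic closure
of `K`.

`P` is the set of closed points of `S`, the residue field at `y` has `q ^ deg y` elements, and `F y` is a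
Frobenius element at `y`. Finally `𝔙` is a valuation ring of `ℂ` that contains `W` and in which `p` is not
a unit.
-/

namespace Pool.Agent.N995.OD

open Pool.Agent.Y90.St TensorProduct Polynomial

variable {H T : Type} [AddCommGroup H] [Module ℚ H] [AddCommGroup T] [Module ℂ T]
  {K : Type} [Field K] [CharZero K] [Algebra K ℂ] {Γ : Type} [Group Γ]

/-- The Frobenius elements of degree `d`: the conjugates of the `F y` with `deg y = d`. -/
def IsFrobenius {P : Type} (deg : P → ℕ) (F : P → Γ) (x : Γ) (d : ℕ) : Prop :=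
  ∃ (y : P) (g : Γ), deg y = d ∧ x = g * F y * g⁻¹

/-- `h` is the projection of `V` to the part on which the eigenvalues of `G` are not units at `𝔙`, along
the part on which they are units. -/
def IsSlopeOne {V : Type} [AddCommGroup V] [Module ℂ V] (𝔙 : ValuationSubring ℂ)
    (G h : Module.End ℂ V) : Prop :=
  ∀ (μ : ℂ) (v : V), G v = μ • v →
    (𝔙.valuation μ < 1 → h v = v) ∧ (¬ 𝔙.valuation μ < 1 → h v = 0)

/-- The known properties of the Tate module `V = K ⊗ H` (`K = ℚ_ℓ`) of an ordinary abelian variety over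
a finitely generated field of characteristic `p`, in terms of the canonical lift. -/
structure IsOrdinary (per : H →+ T) (E : H → H → ℚ) (𝔙 : ValuationSubring ℂ) (q : ℕ)
    (ρ : Representation K Γ (K ⊗[ℚ] H)) (χ : Γ →* K) {P : Type} (deg : P → ℕ) (F : P → Γ) :
    Prop where
  /-- the Weil pairing -/
  weil : ∃ ω : (K ⊗[ℚ] H) →ₗ[K] (K ⊗[ℚ] H) →ₗ[K] K,
    (∀ u v : H, ω (1 ⊗ₜ u) (1 ⊗ₜ v) = ((E u v : ℚ) : K)) ∧
      ∀ g u v, ω (ρ g u) (ρ g v) = χ g * ω u v
  /-- the endomorphisms of `X` are defined over a finite extension -/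
  endo : ∀ a : H →ₗ[ℚ] H, IsHom per per a → ∃ Δ : Subgroup Γ, Δ.FiniteIndex ∧
    ∀ g ∈ Δ, ∀ v, ρ g (a.baseChange K v) = a.baseChange K (ρ g v)
  /-- Zarhin, Mori: the Tate module is semisimple, also over finite extensions -/
  semisimple : ∀ Δ : Subgroup Γ, Δ.FiniteIndex → ∀ U : Submodule K (K ⊗[ℚ] H),
    (∀ g ∈ Δ, ∀ u ∈ U, ρ g u ∈ U) →
      ∃ U' : Submodule K (K ⊗[ℚ] H), (∀ g ∈ Δ, ∀ u ∈ U', ρ g u ∈ U') ∧ IsCompl U U'
  /-- Zarhin, Mori: the endomorphisms of the Tate module over finite extensions are combinations of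
  endomorphisms of `X` -/
  zarhin : ∀ Δ : Subgroup Γ, Δ.FiniteIndex → ∀ f : Module.End K (K ⊗[ℚ] H),
    (∀ g ∈ Δ, ∀ v, ρ g (f v) = f (ρ g v)) →
      f ∈ Submodule.span K {f' | ∃ a : H →ₗ[ℚ] H, IsHom per per a ∧ f' = a.baseChange K}
  /-- Frobenius elements act on roots of unity as the power with exponent `q ^ d` -/
  cyclotomic : ∀ x d, IsFrobenius deg F x d → χ x = (q : K) ^ d
  /-- Weil: the eigenvalues of Frobenius elements are the zeros of a polynomial with rational
  coefficients -/
  eigenvalues : ∀ x d, IsFrobenius deg F x d → ∃ f : ℚ[X], ∀ μ : ℂ,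
    Module.End.HasEigenvalue ((ρ x).baseChange ℂ) μ ↔ aeval μ f = 0
  /-- Weil: Frobenius elements are semisimple -/
  diagonal : ∀ x d, IsFrobenius deg F x d → ⨆ μ, Module.End.eigenspace ((ρ x).baseChange ℂ) μ = ⊤
  /-- Weil: the eigenvalues are algebraic integers of absolute value `q ^ (d / 2)` -/
  weights : ∀ x d, IsFrobenius deg F x d → ∀ μ, Module.End.HasEigenvalue ((ρ x).baseChange ℂ) μ →
    IsIntegral ℤ μ ∧ ‖μ‖ ^ 2 = (q : ℝ) ^ d
  /-- ordinary reduction: the slopes are zero and one -/
  slopes : ∀ x d, IsFrobenius deg F x d → ∀ μ, Module.End.HasEigenvalue ((ρ x).baseChange ℂ) μ →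
    𝔙.valuation μ = 1 ∨ 𝔙.valuation μ = 𝔙.valuation ((q : ℂ) ^ d)
  /-- Weil: the products of endomorphisms (of the reduction) with powers of the Frobenius
  endomorphism have rational traces -/
  traces : ∀ x d, IsFrobenius deg F x d → ∀ a : H →ₗ[ℚ] H, IsHom per per a → ∀ n : ℕ, ∃ r : ℚ,
    LinearMap.trace ℂ (ℂ ⊗[K] (K ⊗[ℚ] H)) ((a.baseChange K).baseChange ℂ ∘ₗ
      ((ρ x).baseChange ℂ) ^ n) = r
  /-- Serre, Tate: the trace of an endomorphism on the tangent space of the canonical lift is its trace
  on the multiplicative part, the part of slope one -/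
  lift : ∀ x d, IsFrobenius deg F x d → ∀ (a : H →ₗ[ℚ] H) (Ψ : T →ₗ[ℂ] T),
    (∀ v, Ψ (per v) = per (a v)) → ∀ h : Module.End ℂ (ℂ ⊗[K] (K ⊗[ℚ] H)),
      IsSlopeOne 𝔙 ((ρ x).baseChange ℂ) h →
        LinearMap.trace ℂ (ℂ ⊗[K] (K ⊗[ℚ] H)) ((a.baseChange K).baseChange ℂ ∘ₗ h) =
          LinearMap.trace ℂ T Ψ
  /-- Chebotarev: the Frobenius elements are dense; so their `N`-th powers generate a subgroup that
  contains an open subgroup of the image of `Γ` (an `ℓ`-adic Lie group) up to closure, and an
  endomorphism which commutes with them commutes with a subgroup of finite index -/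
  chebotarev : ∀ (f : Module.End ℂ (ℂ ⊗[K] (K ⊗[ℚ] H))) (N : ℕ), 0 < N →
    (∀ x d, IsFrobenius deg F x d → ∀ v,
      f ((((ρ x).baseChange ℂ) ^ N) v) = (((ρ x).baseChange ℂ) ^ N) (f v)) →
      ∃ Δ : Subgroup Γ, Δ.FiniteIndex ∧
        ∀ g ∈ Δ, ∀ v, f ((ρ g).baseChange ℂ v) = (ρ g).baseChange ℂ (f v)

/-- The action of `Γ` on the cohomology group `H^κ(X ⊗ k̄, K)(m)`, the space of the alternating forms
on the Tate module in variables indexed by `κ`, with a Tate twist. -/
noncomputable def coh {V : Type} [AddCommGroup V] [Module K V] (ρ : Representation K Γ V)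
    (χ : Γ →* K) (κ : Type) (m : ℕ) : Representation K Γ (V [⋀^κ]→ₗ[K] K) where
  toFun g :=
    { toFun := fun w => χ g ^ m • w.compLinearMap (ρ g⁻¹)
      map_add' := fun w w' => by ext v; simp
      map_smul' := fun c w => by ext v; simp; ring }
  map_one' := by
    ext w v
    simp
  map_mul' g h := by
    ext w v
    simp [mul_pow]
    ring

variable {W W' : Type} [AddCommGroup W] [Module K W] [Module ℚ W] [AddCommGroup W'] [Module K W']
  [Module ℚ W']

/-- The classes in `Z` that are fixed by the Galois group. If `Z` is the rational space of the classes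
of cycles of codimension `m` over `k̄`, this is the rational space spanned by `A^m(X)`, the classes of
cycles over `k` (by transfer). -/
def fixedClasses (R : Representation K Γ W) (Z : Submodule ℚ W) : Submodule ℚ W where
  carrier := {w | w ∈ Z ∧ ∀ g, R g w = w}
  add_mem' := fun {a b} ha hb => ⟨Z.add_mem ha.1 hb.1, fun g => by rw [map_add, ha.2, hb.2]⟩
  zero_mem' := ⟨Z.zero_mem, fun g => map_zero _⟩
  smul_mem' := fun c {w} hw => ⟨Z.smul_mem c hw.1, fun g => by
    rw [map_rat_smul (R g) c w, hw.2]⟩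

/-- The rational spaces `Z` and `Z'` of the classes of algebraic cycles over `k̄` in two cohomology groups
of complementary degrees: `B` is the duality pairing (Poincaré), the classes of cycles are permuted by
the Galois group and each is fixed by a subgroup of finite index, intersection numbers are rational, and
the Galois group acts semisimply, also over finite extensions. -/
structure IsCyclePair (R : Representation K Γ W) (R' : Representation K Γ W') (Z : Submodule ℚ W)
    (Z' : Submodule ℚ W') (B : W →ₗ[K] W' →ₗ[K] K) : Prop where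
  left : ∀ w, (∀ w', B w w' = 0) → w = 0
  right : ∀ w', (∀ w, B w w' = 0) → w' = 0
  inv : ∀ g w w', B (R g w) (R' g w') = B w w'
  stable : ∀ g, ∀ w ∈ Z, R g w ∈ Z
  stable' : ∀ g, ∀ w ∈ Z', R' g w ∈ Z'
  finite : ∀ w ∈ Z, ∃ Δ : Subgroup Γ, Δ.FiniteIndex ∧ ∀ g ∈ Δ, R g w = w
  finite' : ∀ w ∈ Z', ∃ Δ : Subgroup Γ, Δ.FiniteIndex ∧ ∀ g ∈ Δ, R' g w = w
  rational : ∀ w ∈ Z, ∀ w' ∈ Z', ∃ r : ℚ, B w w' = r
  semisimple : ∀ Δ : Subgroup Γ, Δ.FiniteIndex → ∀ U : Submodule K W,
    (∀ g ∈ Δ, ∀ u ∈ U, R g u ∈ U) →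
      ∃ U' : Submodule K W, (∀ g ∈ Δ, ∀ u ∈ U', R g u ∈ U') ∧ IsCompl U U'
  semisimple' : ∀ Δ : Subgroup Γ, Δ.FiniteIndex → ∀ U : Submodule K W',
    (∀ g ∈ Δ, ∀ u ∈ U, R' g u ∈ U) →
      ∃ U' : Submodule K W', (∀ g ∈ Δ, ∀ u ∈ U', R' g u ∈ U') ∧ IsCompl U U'

/-- `traceSum deg G n` is the sum over the points of `Y` with values in the field with `q ^ n` elements
of the traces of the geometric Frobenius endomorphisms: over a closed point `y` of degree `d` dividing `n`
there are `d` such points, with Frobenius `G y ^ (n / d)`. -/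
noncomputable def traceSum {P : Type} (deg : P → ℕ) {H : Type} [AddCommGroup H] [Module ℂ H]
    (G : P → Module.End ℂ H) (n : ℕ) : ℂ :=
  ∑' y : {y // deg y ∣ n}, (deg y.1 : ℂ) * LinearMap.trace ℂ H (G y.1 ^ (n / deg y.1))

/-- `(s - d) ^ r Φ(s)` tends to a finite nonzero limit as `s → d` from the right. -/
def IsPole (Φ : ℝ → ℂ) (d : ℝ) (r : ℕ) : Prop :=
  ∃ c : ℂ, c ≠ 0 ∧ Filter.Tendsto (fun s : ℝ => ((s : ℂ) - d) ^ r * Φ s) (nhdsWithin d (Set.Ioi d))
    (nhds c)

/-- The Euler product of the factors `det (1 - N y ^ (-s) G y)⁻¹` converges for `s > D`, and its product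
with `(s - D) ^ r` tends to a finite nonzero limit as `s → D` from the right. -/
def HasPole {P : Type} {V : Type} [AddCommGroup V] [Module ℂ V] (N : P → ℕ)
    (G : P → Module.End ℂ V) (D r : ℕ) : Prop :=
  ∃ Φ : ℝ → ℂ, (∀ s : ℝ, (D : ℝ) < s →
    HasProd (fun y => (LinearMap.det (1 - (N y : ℂ) ^ (-(s : ℂ)) • G y))⁻¹) (Φ s)) ∧ IsPole Φ D r

/-- Let `Y` be a regular, geometrically irreducible scheme of finite type and of dimension `D` over the
field with `q` elements, with function field `k`, and `f` a smooth projective morphism to `Y` with the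
generic fibre `X`. Here `P` is the set of closed points of `Y`, the residue field at `y` has `q ^ deg y`
elements, `F y` is a Frobenius element at `y`, and `R` is the action of the Galois group on a cohomology
group `W` of weight zero. The group `geo` is the geometric fundamental group (its preimage in `Γ`), `W₀`
is the space of its invariants, `φ` is an element that acts as the Frobenius automorphism on the constants
and `Fr` the action of its inverse on `W₀`. The properties are: there are `O(q ^ (D n))` points of degree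
`n`; Deligne's theorem for the fibres and for `W₀`; `geo` and `φ` generate `Γ` topologically; the trace
formula of Grothendieck, in which the cohomology group with compact supports of degree `2 D` is
`W₀ (-D)` (by semisimplicity) and the other ones have weights at most `2 D - 1` (Deligne). -/
structure IsModel [Algebra K ℂ] (q D : ℕ) (R : Representation K Γ W) {P : Type} (deg : P → ℕ)
    (F : P → Γ) (geo : Subgroup Γ) (φ : Γ) (W₀ : Submodule K W) (Fr : Module.End K W₀) :
    Prop where
  deg_pos : ∀ y, 0 < deg y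
  finite : ∀ d, {y | deg y = d}.Finite
  count : ∃ C : ℝ, ∀ d : ℕ, (Nat.card {y // deg y = d} : ℝ) ≤ C * (q : ℝ) ^ (D * d)
  pure : ∀ y μ, Module.End.HasEigenvalue ((R (F y)⁻¹).baseChange ℂ) μ → ‖μ‖ = 1
  invariants : ∀ w, w ∈ W₀ ↔ ∀ g ∈ geo, R g w = w
  frobenius : ∀ w : W₀, (Fr w : W) = R φ⁻¹ w
  generate : ∀ w ∈ W₀, R φ w = w → ∀ g, R g w = w
  pure₀ : ∀ μ, Module.End.HasEigenvalue (Fr.baseChange ℂ) μ → ‖μ‖ = 1
  trace : ∃ B : ℝ, ∀ n : ℕ, 0 < n →
    ‖traceSum deg (fun y => (R (F y)⁻¹).baseChange ℂ) n -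
      ((q : ℂ) ^ D) ^ n * LinearMap.trace ℂ (ℂ ⊗[K] W₀) (Fr.baseChange ℂ ^ n)‖ ≤
        B * ((q : ℝ) ^ ((D : ℝ) - 1 / 2)) ^ n

end Pool.Agent.N995.OD
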