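import Mathlib
import Pool.Agent.N995.OdS
import Pool.Agent.N183.TS.Main

/-!
# Varieties generated by an ordinary abelian variety
-/

namespace Pool.Agent.N995.OD

open Module TensorProduct Pool.Agent.Y90 Pool.Agent.R915 Pool.Agent.N183.TS
open Pool.Agent.W547.KB (CMAV)
open Pool.Agent.W547.UB (IndependentBlocks)

/-- Each simple factor `Y` of the complex abelian variety `X` has dimension at most three, or complex
multiplication, or an imaginary quadratic field as its endomorphism algebra with multiplicities at most
three (with trivial discriminant if both are three), or is of Albert type I or II with odd relative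
dimension or relative dimension at most three (the dimension is unbounded). The CM part, together with the
CM elliptic curves for the fields that act on some `Y` with two different multiplicities, is divided into
independent blocks of known kinds (`GoodBlock`). -/
def SmallTypes (X : AV) : Prop :=
  (∀ Y, IsFactor Y X → finrank ℚ Y.H ≤ 6 ∨ HasCMult Y ∨ QuadMult Y ∨ RealOdd Y) ∧
    ∃ (C : CMAV) (J : Type) (b : C.I → J), IndependentBlocks C b ∧
      (∀ Y, IsFactor Y X → HasCMult Y → ∃ i, IsOfType Y (C.factor i)) ∧
      ∀ (Y E : AV) (d : ℚ), IsFactor Y X → ¬ HasCMult Y → Unbalanced Y d →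
        finrank ℚ E.H = 2 → Unbalanced E d → ∃ i, IsOfType E (C.factor i)

/-- All simple factors of `X` are factors of one abelian variety `A` of dimension at most five, without
simple factor of dimension four whose only endomorphisms are the rational numbers. -/
def FactorsOfSmall (X : AV) : Prop :=
  ∃ A : AV, finrank ℚ A.H ≤ 10 ∧
    (∀ Y, IsFactor Y A → finrank ℚ Y.H = 8 → ∃ f, Pool.Agent.Y90.IsHom Y Y f ∧
      ∀ c : ℚ, f ≠ c • 1) ∧
      ∀ Y, IsFactor Y X → IsFactor Y A

/-- The action of a group is completely reducible. -/
def IsSemisimpleAction {K : Type} [Field K] {G : Type} [Group G] {V : Type} [AddCommGroup V]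
    [Module K V] (R : Representation K G V) : Prop :=
  ∀ U : Submodule K V, (∀ g, ∀ u ∈ U, R g u ∈ U) →
    ∃ U' : Submodule K V, (∀ g, ∀ u ∈ U', R g u ∈ U') ∧ IsCompl U U'

/-- The cohomology group `H^a(X ⊗ k̄, K)`, the space of the alternating forms in `a` variables on the Tate
module `K ⊗ H`. -/
def Forms (K : Type) [Field K] [CharZero K] (X : AV) (a : ℕ) : Type :=
  (K ⊗[ℚ] X.H) [⋀^Fin a]→ₗ[K] K

noncomputable instance Forms.addCommGroup (K : Type) [Field K] [CharZero K] (X : AV) (a : ℕ) :
    AddCommGroup (Forms K X a) :=
  (inferInstance : AddCommGroup ((K ⊗[ℚ] X.H) [⋀^Fin a]→ₗ[K] K))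

noncomputable instance Forms.module (K : Type) [Field K] [CharZero K] (X : AV) (a : ℕ) :
    Module K (Forms K X a) :=
  (inferInstance : Module K ((K ⊗[ℚ] X.H) [⋀^Fin a]→ₗ[K] K))

variable {K : Type} [Field K] [CharZero K] {Γ : Type} [Group Γ]

/-- The form `w` on the Tate module is the extension of scalars of the rational form `b`, a class in the
cohomology group `H^a(X̃, ℚ)` of the canonical lift. -/
def IsExtension (X : AV) {a : ℕ} (w : Forms K X a) (b : X.H [⋀^Fin a]→ₗ[ℚ] ℚ) : Prop :=
  ∀ v : Fin a → X.H, DFunLike.coe (F := (K ⊗[ℚ] X.H) [⋀^Fin a]→ₗ[K] K) w (fun k => 1 ⊗ₜ v k) =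
    ((b v : ℚ) : K)

/-- The action of the subgroup `Δ` on `H^a(X ⊗ k̄, K)`, twisted with `ψ ^ a`. -/
noncomputable def twisted (X : AV) (ρ : Representation K Γ (K ⊗[ℚ] X.H)) {Δ : Subgroup Γ}
    (ψ : Δ →* K) (a : ℕ) : Representation K Δ (Forms K X a) :=
  coh (ρ.comp Δ.subtype) ψ (Fin a) a

variable {W : Type} [AddCommGroup W] [Module K W] [Module ℚ W]

/-- The properties of a map `f` from `H^a(X)` to the cohomology group `W = H^{2 i}(V)(i)` of a variety `V`
over `k` that is given by an algebraic correspondence between `X × S` and `V`, restricted to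
`H^a(X) ⊗ y`, where `S` is a supersingular abelian variety and `y` is in `H^b(S)`. After a finite extension
(the subgroup `Δ`) the Galois group acts on the Tate module of `S` through a character `ψ` with
`ψ ^ 2 = χ`, so that `f` is equivariant for the action on `H^a(X)` twisted with `ψ ^ a`. If `a` is even
(and `y` is the class of a cycle; all cohomology classes of `S` of even degree are combinations of those)
it maps the classes in `Alg` to the rational space `Z` of the classes of cycles over `k̄`, because the
classes in `Alg` are specialisations of algebraic classes on the canonical lift, by the theorems of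
Lefschetz and Markman. -/
structure IsCorrespondence (X : AV) (ρ : Representation K Γ (K ⊗[ℚ] X.H)) (R : Representation K Γ W)
    (Z : Submodule ℚ W) {Δ : Subgroup Γ} (ψ : Δ →* K) {a : ℕ} (f : Forms K X a →ₗ[K] W) :
    Prop where
  equivariant : ∀ (g : Δ) w, f (twisted X ρ ψ a g w) = R g (f w)
  cycles : Even a → ∀ w b, Alg X (Fin a) b → IsExtension X w b → f w ∈ Z

/-- The cohomology group `W` of a variety `V` over `k`, with the action `R` of the Galois group and the
rational space `Z` of the classes of cycles over `k̄`, is generated by the abelian variety `X` and a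
supersingular abelian variety `S` over `k`: it is the sum of the images of cohomology groups of the product
`X × S` under algebraic correspondences (`IsCorrespondence`). The Galois group acts semisimply on the
cohomology of `X` (this follows from the semisimplicity of the Tate module, by Chevalley). -/
def IsGeneratedBy (X : AV) (ρ : Representation K Γ (K ⊗[ℚ] X.H)) (χ : Γ →* K)
    (R : Representation K Γ W) (Z : Submodule ℚ W) : Prop :=
  ∃ (Δ : Subgroup Γ) (ψ : Δ →* K), Δ.FiniteIndex ∧ (∀ g : Δ, ψ g ^ 2 = χ g) ∧
    (∀ a : ℕ, IsSemisimpleAction (twisted X ρ ψ a)) ∧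
      ∀ U : Submodule K W, (∀ (a : ℕ) (f : Forms K X a →ₗ[K] W),
        IsCorrespondence X ρ R Z ψ f → LinearMap.range f ≤ U) → U = ⊤

end Pool.Agent.N995.OD
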