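import Mathlib
import Pool.Agent.N995.OdG

/-!
# The cohomology of the generic point

Let `k` be a finite field, `Y` a geometrically integral variety over `k` and `V` a smooth projective variety
over `k` with a dominant, generically finite rational map to `Y` (a resolution of the singularities of a
compactification, or an alteration, de Jong). Fix `j ≥ 1`. We use

* the cohomology group `WV = H^{2 j}(V ⊗ k̄, ℚ_ℓ(j))` (`K = ℚ_ℓ`) with the action `RV` of the Galois group `Γ`
  of `k` and the rational space `Z` of the classes of algebraic cycles of codimension `j` on `V ⊗ k̄`;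
* the cohomology group of the generic point `F = H^{2 j}(F_0 (Y ⊗ k̄), ℚ_ℓ(j))`, the limit of the groups
  `H^{2 j}(U ⊗ k̄, ℚ_ℓ(j))` over the nonempty open subvarieties `U` of `Y`, with the action `R`.
-/

namespace Pool.Agent.N995.FF

open Module TensorProduct Pool.Agent.N995.OD

variable {K : Type} [Field K] [CharZero K] {Γ : Type} [Group Γ]
  {WV F : Type} [AddCommGroup WV] [Module K WV] [Module ℚ WV] [AddCommGroup F] [Module K F]

/-- The Galois group permutes the classes of cycles on `V` over `k̄`, each is fixed by a subgroup of finite
index, and the Galois group acts semisimply on `WV`, also over finite extensions. The map `t` is the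
restriction to the generic point of `V`, followed by the direct image to the generic point of `Y`. It is
equivariant; its image is the part of weight zero of `F` by the theory of weights (Deligne), which contains
the invariants; and it maps the classes of cycles to zero, because a cycle of codimension `j ≥ 1` does not
meet a small open subvariety. -/
structure IsGenericPoint (RV : Representation K Γ WV) (Z : Submodule ℚ WV)
    (R : Representation K Γ F) (t : WV →ₗ[K] F) : Prop where
  stable : ∀ g, ∀ w ∈ Z, RV g w ∈ Z
  finite : ∀ w ∈ Z, ∃ Δ : Subgroup Γ, Δ.FiniteIndex ∧ ∀ g ∈ Δ, RV g w = w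
  semisimple : ∀ Δ : Subgroup Γ, Δ.FiniteIndex → ∀ U : Submodule K WV,
    (∀ g ∈ Δ, ∀ u ∈ U, RV g u ∈ U) →
      ∃ U' : Submodule K WV, (∀ g ∈ Δ, ∀ u ∈ U', RV g u ∈ U') ∧ IsCompl U U'
  equivariant : ∀ g w, t (RV g w) = R g (t w)
  weights : ∀ w, (∀ g, R g w = w) → w ∈ LinearMap.range t
  cycles : ∀ w ∈ Z, t w = 0

end Pool.Agent.N995.FF
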