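import Mathlib
import Pool.Agent.Y90.Pie4

/-!
# Kronecker's theorem for quotients of Weil numbers of the same slopes
-/

set_option autoImplicit false
set_option linter.unusedSectionVars false

open Polynomial

namespace Pool.Agent.N995.OD

/-- The orders of roots of unity of small degree. -/
theorem dvd_factorial {m B : ℕ} (hm : 0 < m) (h : Nat.totient m ≤ B) :
    m ∣ (2 * B).factorial := by
  rw [Nat.dvd_iff_prime_pow_dvd_dvd]
  intro p k hp hk
  rcases Nat.eq_zero_or_pos k with rfl | hk0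
  · simp
  refine Nat.dvd_factorial (Nat.pow_pos hp.pos) ?_
  have h1 : Nat.totient (p ^ k) ≤ B :=
    (Nat.le_of_dvd (Nat.totient_pos.2 hm) (Nat.totient_dvd_of_dvd hk)).trans h
  rw [Nat.totient_prime_pow hp hk0] at h1
  obtain ⟨j, rfl⟩ : ∃ j, k = j + 1 := ⟨k - 1, by omega⟩
  rw [Nat.add_sub_cancel] at h1
  have h2 := hp.two_le
  calc p ^ (j + 1) = p ^ j * p := pow_succ _ _
    _ ≤ p ^ j * (2 * (p - 1)) := Nat.mul_le_mul_left _ (by omega)
    _ = 2 * (p ^ j * (p - 1)) := by ring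
    _ ≤ 2 * B := Nat.mul_le_mul_left _ h1

theorem isIntegral_natCast_pow (Q j : ℕ) : IsIntegral ℤ ((Q : ℂ) ^ j) := by
  have h : IsIntegral ℤ ((Q : ℤ) : ℂ) := isIntegral_algebraMap (R := ℤ) (A := ℂ) (x := (Q : ℤ))
  have h1 := h.pow j
  rwa [Int.cast_natCast] at h1

/-- The numbers that are integral after multiplication by a power of `Q`. -/
def awayRing (Q : ℕ) : Subring ℂ where
  carrier := {x | ∃ k : ℕ, IsIntegral ℤ ((Q : ℂ) ^ k * x)}
  mul_mem' := by
    rintro a b ⟨k, hk⟩ ⟨l, hl⟩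
    refine ⟨k + l, ?_⟩
    have h := hk.mul hl
    rwa [show (Q : ℂ) ^ k * a * ((Q : ℂ) ^ l * b) = (Q : ℂ) ^ (k + l) * (a * b) by ring] at h
  one_mem' := ⟨0, by simpa using isIntegral_one⟩
  add_mem' := by
    rintro a b ⟨k, hk⟩ ⟨l, hl⟩
    refine ⟨k + l, ?_⟩
    have h := ((isIntegral_natCast_pow Q l).mul hk).add ((isIntegral_natCast_pow Q k).mul hl)
    rwa [show (Q : ℂ) ^ l * ((Q : ℂ) ^ k * a) + (Q : ℂ) ^ k * ((Q : ℂ) ^ l * b) =
      (Q : ℂ) ^ (k + l) * (a + b) by ring] at h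
  zero_mem' := ⟨0, by simpa using isIntegral_zero⟩
  neg_mem' := by
    rintro a ⟨k, hk⟩
    refine ⟨k, ?_⟩
    rw [mul_neg]
    exact hk.neg

/-- A rational number which is integral away from `p` and at a place above `p` is an integer. -/
theorem rat_int {p : ℕ} (hp : p.Prime) {n : ℕ} (𝔙 : ValuationSubring ℂ)
    (h𝔙 : 𝔙.valuation (p : ℂ) < 1) (r : ℚ) (h1 : (r : ℂ) ∈ awayRing (p ^ n))
    (h2 : (r : ℂ) ∈ 𝔙) : ∃ t : ℤ, (r : ℂ) = t := by
  obtain ⟨k, hk⟩ := h1
  have h3 : IsIntegral ℤ (((p ^ n : ℕ) : ℚ) ^ k * r) := by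
    have h4 : (((p ^ n : ℕ) : ℂ) ^ k * (r : ℂ)) = algebraMap ℚ ℂ (((p ^ n : ℕ) : ℚ) ^ k * r) := by
      simp
    rw [h4] at hk
    exact (isIntegral_algebraMap_iff (algebraMap ℚ ℂ).injective).1 hk
  obtain ⟨t, ht⟩ := IsIntegrallyClosed.isIntegral_iff.1 h3
  have ht' : (t : ℚ) = ((p ^ n : ℕ) : ℚ) ^ k * r := by simpa using ht
  by_contra hcon
  have hden : r.den ≠ 1 := by
    intro h
    apply hcon
    refine ⟨r.num, ?_⟩
    have h5 : r = (r.num : ℚ) := by
      conv_lhs => rw [← Rat.num_div_den r, h]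
      simp
    rw [h5]
    simp
  -- the denominator divides a power of `p`
  have hdvd : r.den ∣ (p ^ n) ^ k := by
    have h5 : (r.den : ℤ) ∣ ((p ^ n : ℕ) : ℤ) ^ k := by
      have h6 : ((p ^ n : ℕ) : ℤ) ^ k * r.num = t * r.den := by
        have h7 : ((r.den : ℕ) : ℚ) ≠ 0 := by exact_mod_cast r.den_ne_zero
        have h8 : (((p ^ n : ℕ) : ℚ) ^ k) * r.num = t * r.den := by
          rw [ht', mul_assoc]
          congr 1
          rw [mul_comm, Rat.den_mul_eq_num]
        exact_mod_cast h8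
      refine (IsCoprime.dvd_of_dvd_mul_right ?_ (Dvd.intro_left t h6.symm))
      have h9 : Nat.Coprime r.den r.num.natAbs := r.reduced.symm
      rw [Int.isCoprime_iff_gcd_eq_one]
      simpa [Int.gcd] using h9
    exact_mod_cast h5
  have hpd : p ∣ r.den := by
    obtain ⟨q, hq, hq'⟩ := Nat.exists_prime_and_dvd hden
    have h5 : q ∣ (p ^ n) ^ k := hq'.trans hdvd
    have h6 : q ∣ p := hq.dvd_of_dvd_pow (hq.dvd_of_dvd_pow h5)
    rwa [(Nat.prime_dvd_prime_iff_eq hq hp).1 h6] at hq'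
  have hpn : ¬ p ∣ r.num.natAbs := fun h => by
    exact Nat.not_coprime_of_dvd_of_dvd hp.one_lt h hpd r.reduced
  have hint : ∀ s : ℤ, 𝔙.valuation (s : ℂ) ≤ 1 := fun s => by
    rw [ValuationSubring.valuation_le_one_iff]
    exact intCast_mem 𝔙 s
  have hnum : 𝔙.valuation ((r.num : ℤ) : ℂ) = 1 := by
    refine le_antisymm (hint _) (not_lt.1 fun h => ?_)
    have hcop : IsCoprime (p : ℤ) r.num := by
      rw [Int.isCoprime_iff_gcd_eq_one]
      have := (Nat.Prime.coprime_iff_not_dvd hp).2 hpn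
      simpa [Int.gcd] using this
    obtain ⟨u, v, huv⟩ := hcop
    have h5 : 𝔙.valuation (1 : ℂ) < 1 := by
      have h6 : (1 : ℂ) = (u : ℂ) * (p : ℂ) + (v : ℂ) * (r.num : ℂ) := by
        have h7 : (((u * p + v * r.num : ℤ)) : ℂ) = 1 := by rw [huv]; simp
        rw [← h7]
        push_cast
        ring
      rw [h6]
      refine (𝔙.valuation.map_add _ _).trans_lt (max_lt ?_ ?_)
      · rw [map_mul]
        exact mul_lt_one_of_nonneg_of_lt_one_right (hint u) zero_le h𝔙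
      · rw [map_mul]
        exact mul_lt_one_of_nonneg_of_lt_one_right (hint v) zero_le h
    rw [map_one] at h5
    exact lt_irrefl _ h5
  have hdenv : 𝔙.valuation ((r.den : ℕ) : ℂ) < 1 := by
    obtain ⟨s, hs⟩ := hpd
    rw [hs]
    push_cast
    rw [map_mul]
    have h5 := hint (s : ℤ)
    push_cast at h5
    rw [mul_comm]
    exact mul_lt_one_of_nonneg_of_lt_one_right h5 zero_le h𝔙
  have h5 : (r : ℂ) * ((r.den : ℕ) : ℂ) = ((r.num : ℤ) : ℂ) := by
    have h6 : r * (r.den : ℚ) = (r.num : ℚ) := Rat.mul_den_eq_num r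
    exact_mod_cast congrArg (fun x : ℚ => (x : ℂ)) h6
  have h6 : 𝔙.valuation (r : ℂ) ≤ 1 := (ValuationSubring.valuation_le_one_iff _ _).2 h2
  have h7 := congrArg 𝔙.valuation h5
  rw [map_mul, hnum] at h7
  have h8 : 𝔙.valuation (r : ℂ) * 𝔙.valuation ((r.den : ℕ) : ℂ) < 1 :=
    mul_lt_one_of_nonneg_of_lt_one_right h6 zero_le hdenv
  rw [h7] at h8
  exact lt_irrefl _ h8

/-- **Kronecker.** Quotients of Weil numbers with the same slopes at all places are roots of unity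
of bounded order. -/
theorem pow_div_eq_one {p : ℕ} (hp : p.Prime) {n : ℕ} (𝔙 : ValuationSubring ℂ)
    (h𝔙 : 𝔙.valuation (p : ℂ) < 1) (S : Finset ℂ)
    (hS : ∀ σ : ℂ ≃+* ℂ, ∀ a ∈ S, σ a ∈ S) (hint : ∀ a ∈ S, IsIntegral ℤ a)
    (habs : ∀ a ∈ S, a * (starRingEnd ℂ) a = ((p ^ n : ℕ) : ℂ)) {a b : ℂ} (ha : a ∈ S) (hb : b ∈ S)
    (hab : ∀ σ : ℂ ≃+* ℂ, 𝔙.valuation (σ a) = 𝔙.valuation (σ b)) :
    a ^ (2 * S.card ^ 2).factorial = b ^ (2 * S.card ^ 2).factorial := by
  classical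
  have hQ0 : ((p ^ n : ℕ) : ℂ) ≠ 0 := by exact_mod_cast (pow_pos hp.pos n).ne'
  have hne : ∀ c ∈ S, c ≠ 0 := fun c hc h0 => by
    have := habs c hc
    rw [h0, zero_mul] at this
    exact hQ0 this.symm
  set z := a / b with hz
  let O : Finset ℂ := ((S ×ˢ S).image fun t => t.1 / t.2).filter fun w => ∃ σ : ℂ ≃+* ℂ, σ z = w
  have hO : ∀ w, w ∈ O ↔ ∃ σ : ℂ ≃+* ℂ, σ z = w := by
    intro w
    constructor
    · intro h
      exact (Finset.mem_filter.1 h).2
    · rintro ⟨σ, hσ⟩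
      refine Finset.mem_filter.2 ⟨Finset.mem_image.2 ⟨(σ a, σ b), Finset.mem_product.2
        ⟨hS σ a ha, hS σ b hb⟩, ?_⟩, σ, hσ⟩
      rw [← hσ, hz, map_div₀]
  have hOc : O.card ≤ S.card ^ 2 := by
    refine (Finset.card_filter_le _ _).trans (Finset.card_image_le.trans ?_)
    rw [Finset.card_product, sq]
  let R : ℂ[X] := ∏ w ∈ O, (X - C w)
  have hRm : R.Monic := monic_prod_of_monic _ _ fun w _ => monic_X_sub_C w
  have hRd : R.natDegree = O.card := by
    rw [natDegree_prod_of_monic _ _ fun w _ => monic_X_sub_C w]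
    simp
  have hRσ : ∀ σ : ℂ ≃+* ℂ, R.map (σ : ℂ →+* ℂ) = R := by
    intro σ
    change (∏ w ∈ O, (X - C w)).map (σ : ℂ →+* ℂ) = _
    rw [Polynomial.map_prod]
    simp only [Polynomial.map_sub, Polynomial.map_X, Polynomial.map_C]
    refine Finset.prod_bij (fun w _ => σ w) ?_ ?_ ?_ ?_
    · intro w hw
      obtain ⟨τ, hτ⟩ := (hO w).1 hw
      exact (hO _).2 ⟨τ.trans σ, by rw [← hτ]; rfl⟩
    · intro w _ w' _ h
      exact σ.injective h
    · intro w hw
      obtain ⟨τ, hτ⟩ := (hO w).1 hw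
      exact ⟨σ.symm w, (hO _).2 ⟨τ.trans σ.symm, by rw [← hτ]; rfl⟩, by simp⟩
    · intro w _
      rfl
  have hRrat : ∀ j, ∃ r : ℚ, R.coeff j = r := by
    intro j
    refine Pool.Agent.Y90.exists_rat fun σ => ?_
    have h := congrArg (fun f => f.coeff j) (hRσ σ)
    simpa [Polynomial.coeff_map] using h
  have hR1 : R ∈ Polynomial.lifts 𝔙.toSubring.subtype := by
    rw [Polynomial.lifts_iff_liftsRing]
    refine prod_mem fun w hw => ?_
    obtain ⟨σ, hσ⟩ := (hO w).1 hw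
    refine sub_mem ((Polynomial.lifts_iff_liftsRing _ _).1 (X_mem_lifts _)) ?_
    have hmem : w ∈ 𝔙 := by
      rw [← ValuationSubring.valuation_le_one_iff, ← hσ, hz, map_div₀, map_div₀, hab σ, div_self]
      rw [Ne, map_eq_zero]
      exact fun h => hne b hb ((map_eq_zero σ).1 h)
    exact (Polynomial.lifts_iff_liftsRing _ _).1 (C_mem_lifts (𝔙.toSubring.subtype) ⟨w, hmem⟩)
  have hR2 : R ∈ Polynomial.lifts (awayRing (p ^ n)).subtype := by
    rw [Polynomial.lifts_iff_liftsRing]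
    refine prod_mem fun w hw => ?_
    obtain ⟨σ, hσ⟩ := (hO w).1 hw
    refine sub_mem ((Polynomial.lifts_iff_liftsRing _ _).1 (X_mem_lifts _)) ?_
    have hmem : w ∈ awayRing (p ^ n) := by
      refine ⟨1, ?_⟩
      have hb' := hS σ b hb
      have h1 : ((p ^ n : ℕ) : ℂ) ^ 1 * w = σ a * (starRingEnd ℂ) (σ b) := by
        rw [pow_one, ← hσ, hz, map_div₀, ← habs _ hb']
        field_simp [hne _ hb']
      rw [h1]
      refine (hint _ (hS σ a ha)).mul ?_
      exact map_isIntegral_int (starRingEnd ℂ) (hint _ hb')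
    exact (Polynomial.lifts_iff_liftsRing _ _).1 (C_mem_lifts ((awayRing (p ^ n)).subtype) ⟨w, hmem⟩)
  have hRint : ∀ j, ∃ t : ℤ, R.coeff j = t := by
    intro j
    obtain ⟨r, hr⟩ := hRrat j
    obtain ⟨x, hx⟩ := (Polynomial.lifts_iff_coeff_lifts R).1 hR1 j
    obtain ⟨y, hy⟩ := (Polynomial.lifts_iff_coeff_lifts R).1 hR2 j
    obtain ⟨t, ht⟩ := rat_int hp 𝔙 h𝔙 r (n := n) (by rw [← hr, ← hy]; exact y.2)
      (by rw [← hr, ← hx]; exact x.2)
    exact ⟨t, by rw [hr, ht]⟩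
  have hRl : R ∈ Polynomial.lifts (algebraMap ℤ ℂ) := by
    rw [Polynomial.lifts_iff_coeff_lifts]
    intro j
    obtain ⟨t, ht⟩ := hRint j
    exact ⟨t, by rw [ht]; simp⟩
  obtain ⟨R0, hR0, hR0d, hR0m⟩ := Polynomial.lifts_and_natDegree_eq_and_monic hRl hRm
  have hroot : ∀ w, R.eval w = 0 ↔ w ∈ O := by
    intro w
    change (∏ w ∈ O, (X - C w)).eval w = 0 ↔ _
    rw [eval_prod, Finset.prod_eq_zero_iff]
    constructor
    · rintro ⟨w', hw', h⟩
      simp only [eval_sub, eval_X, eval_C] at h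
      rwa [sub_eq_zero.1 h]
    · intro hw
      exact ⟨w, hw, by simp⟩
  have hzO : z ∈ O := (hO z).2 ⟨RingEquiv.refl ℂ, rfl⟩
  have hR0z : aeval z R0 = 0 := by
    rw [aeval_def, ← eval_map, hR0]
    exact (hroot z).2 hzO
  have hzint : IsIntegral ℤ z := ⟨R0, hR0m, by rw [← aeval_def]; exact hR0z⟩
  have hzQ : IsIntegral ℚ z := hzint.tower_top
  -- all conjugates have absolute value one
  have hnorm1 : ∀ c ∈ S, ‖c‖ ^ 2 = ((p ^ n : ℕ) : ℝ) := by
    intro c hc
    have h := habs c hc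
    rw [Complex.mul_conj, Complex.normSq_eq_norm_sq] at h
    exact_mod_cast h
  have hO1 : ∀ w ∈ O, ‖w‖ = 1 := by
    intro w hw
    obtain ⟨σ, hσ⟩ := (hO w).1 hw
    rw [← hσ, hz, map_div₀, norm_div]
    have h1 := hnorm1 _ (hS σ a ha)
    have h2 := hnorm1 _ (hS σ b hb)
    have h3 : ‖σ a‖ = ‖σ b‖ := by
      have := h1.trans h2.symm
      exact (pow_left_inj₀ (norm_nonneg _) (norm_nonneg _) two_ne_zero).1 this
    rw [h3, div_self]
    rw [norm_ne_zero_iff]
    exact hne _ (hS σ b hb)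
  have : FiniteDimensional ℚ (IntermediateField.adjoin ℚ {z}) :=
    IntermediateField.adjoin.finiteDimensional hzQ
  have : NumberField (IntermediateField.adjoin ℚ {z}) := ⟨⟩
  have hgen : (IntermediateField.AdjoinSimple.gen ℚ z : ℂ) = z :=
    IntermediateField.AdjoinSimple.coe_gen ℚ z
  have hgint : IsIntegral ℤ (IntermediateField.AdjoinSimple.gen ℚ z) := by
    have h := hzint
    rw [← hgen] at h
    exact (isIntegral_algebraMap_iff (A := IntermediateField.adjoin ℚ {z}) (B := ℂ)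
      (algebraMap (IntermediateField.adjoin ℚ {z}) ℂ).injective).1 h
  obtain ⟨l, hl0, hl⟩ := NumberField.Embeddings.pow_eq_one_of_norm_eq_one
    (IntermediateField.adjoin ℚ {z}) ℂ hgint (fun φ => hO1 _ ((hroot _).1 (by
      have h1 : aeval (IntermediateField.AdjoinSimple.gen ℚ z) R0 = 0 := by
        have h2 := hR0z
        rw [← hgen] at h2
        have h3 : (algebraMap (IntermediateField.adjoin ℚ {z}) ℂ)
            (aeval (IntermediateField.AdjoinSimple.gen ℚ z) R0) = 0 := by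
          rw [← aeval_algebraMap_apply]
          exact h2
        exact (map_eq_zero _).1 h3
      have h4 := congrArg φ h1
      rw [map_zero] at h4
      rw [← hR0, eval_map, ← aeval_def]
      have h5 : φ (aeval (IntermediateField.AdjoinSimple.gen ℚ z) R0) =
          aeval (φ (IntermediateField.AdjoinSimple.gen ℚ z)) R0 := by
        rw [aeval_def, aeval_def, hom_eval₂]
        congr 1
        exact RingHom.ext_int _ _
      rw [← h5]
      exact h4)))
  have hzl : z ^ l = 1 := by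
    have h := congrArg (fun x : IntermediateField.adjoin ℚ {z} => (x : ℂ)) hl
    simpa [hgen] using h
  have hord : 0 < orderOf z := orderOf_pos_iff.2 (isOfFinOrder_iff_pow_eq_one.2 ⟨l, hl0, hzl⟩)
  have hprim : IsPrimitiveRoot z (orderOf z) := IsPrimitiveRoot.orderOf z
  have htot : Nat.totient (orderOf z) ≤ S.card ^ 2 := by
    refine (hprim.totient_le_degree_minpoly).trans ?_
    have h1 : (minpoly ℤ z).natDegree ≤ R0.natDegree :=
      natDegree_le_natDegree (minpoly.min ℤ z hR0m hR0z)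
    refine h1.trans ?_
    rw [hR0d, hRd]
    exact hOc
  have hdvd := dvd_factorial hord htot
  have hfin : z ^ (2 * S.card ^ 2).factorial = 1 := orderOf_dvd_iff_pow_eq_one.1 hdvd
  rw [hz, div_pow, div_eq_one_iff_eq (pow_ne_zero _ (hne b hb))] at hfin
  exact hfin

end Pool.Agent.N995.OD
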