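import Mathlib
import Pool.Agent.N995.Od1

/-!
# Slope operators of ordinary Frobenius elements
-/

set_option autoImplicit false
set_option linter.unusedSectionVars false

open Polynomial Module

namespace Pool.Agent.N995.OD

noncomputable section

variable {V : Type} [AddCommGroup V] [Module ℂ V] [FiniteDimensional ℂ V]

/-- the eigenvalues -/
def eset (G : End ℂ V) : Finset ℂ := G.charpoly.roots.toFinset

theorem mem_eset {G : End ℂ V} {μ : ℂ} : μ ∈ eset G ↔ G.HasEigenvalue μ := by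
  rw [eset, Multiset.mem_toFinset, mem_roots (LinearMap.charpoly_monic G).ne_zero,
    Module.End.hasEigenvalue_iff_isRoot_charpoly]

theorem card_eset_le (G : End ℂ V) : (eset G).card ≤ finrank ℂ V := by
  refine (Multiset.toFinset_card_le _).trans ?_
  refine (card_roots' _).trans ?_
  rw [LinearMap.charpoly_natDegree]

/-- The properties of a Frobenius element at a place of ordinary reduction. -/
structure FE (𝔙 : ValuationSubring ℂ) (Q : ℕ) (G : End ℂ V) : Prop where
  stable : ∀ (σ : ℂ ≃+* ℂ) (μ : ℂ), G.HasEigenvalue μ → G.HasEigenvalue (σ μ)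
  diag : ⨆ μ, G.eigenspace μ = ⊤
  int : ∀ μ, G.HasEigenvalue μ → IsIntegral ℤ μ
  norm : ∀ μ, G.HasEigenvalue μ → μ * (starRingEnd ℂ) μ = (Q : ℂ)
  slope : ∀ μ, G.HasEigenvalue μ → 𝔙.valuation μ = 1 ∨ 𝔙.valuation μ = 𝔙.valuation (Q : ℂ)

/-- the polynomial which is one at the eigenvalues of slope one -/
def slopePoly (𝔙 : ValuationSubring ℂ) (S : Finset ℂ) : ℂ[X] :=
  open Classical in
  Lagrange.interpolate S id (fun μ => if 𝔙.valuation μ < 1 then 1 else 0)

/-- the slope operators -/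
def hs (𝔙 : ValuationSubring ℂ) (G : End ℂ V) (σ : ℂ ≃+* ℂ) : End ℂ V :=
  aeval G ((slopePoly 𝔙 (eset G)).map (σ : ℂ →+* ℂ))

/-- the indicator of slope one -/
def ind (𝔙 : ValuationSubring ℂ) (μ : ℂ) : ℕ :=
  open Classical in if 𝔙.valuation μ < 1 then 1 else 0

theorem slopePoly_eval {𝔙 : ValuationSubring ℂ} {S : Finset ℂ} {μ : ℂ} (hμ : μ ∈ S) :
    (slopePoly 𝔙 S).eval μ = (ind 𝔙 μ : ℂ) := by
  classical
  have h := Lagrange.eval_interpolate_at_node (s := S) (v := id) (i := μ)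
    (fun μ : ℂ => if 𝔙.valuation μ < 1 then (1 : ℂ) else 0) (Set.injOn_id _) hμ
  rw [id] at h
  rw [slopePoly, h, ind]
  split_ifs <;> simp

theorem exists_eigenbasis {G : End ℂ V} (h : ⨆ μ, G.eigenspace μ = ⊤) :
    ∃ (ι : Type) (_ : Fintype ι) (b : Basis ι ℂ V) (μ : ι → ℂ), ∀ i, G.HasEigenvector (μ i) (b i) := by
  classical
  let s : Set V := {v | ∃ μ, G.HasEigenvector μ v}
  have hs : ⊤ ≤ Submodule.span ℂ s := by
    rw [← h]
    refine iSup_le fun μ v hv => ?_
    rcases eq_or_ne v 0 with rfl | h0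
    · exact Submodule.zero_mem _
    · exact Submodule.subset_span ⟨μ, hv, h0⟩
  let b := Basis.ofSpan hs
  have hb : ∀ i, ∃ μ, G.HasEigenvector μ (b i) := fun i =>
    Basis.ofSpan_subset hs (Set.mem_range_self i)
  choose μ hμ using hb
  exact ⟨_, FiniteDimensional.fintypeBasisIndex b, b, μ, hμ⟩

namespace FE

variable {𝔙 : ValuationSubring ℂ} {Q : ℕ} {G : End ℂ V} (h : FE 𝔙 Q G)
include h

theorem hs_apply (σ : ℂ ≃+* ℂ) {ν : ℂ} {v : V} (hv : G.HasEigenvector ν v) :
    hs 𝔙 G σ v = (ind 𝔙 (σ.symm ν) : ℂ) • v := by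
  have hν : G.HasEigenvalue ν := Module.End.hasEigenvalue_of_hasEigenvector hv
  rw [hs, Module.End.aeval_apply_of_hasEigenvector hv]
  congr 1
  have h1 : ν = (σ : ℂ →+* ℂ) (σ.symm ν) := by simp
  conv_lhs => rw [h1]
  rw [eval_map_apply, slopePoly_eval (mem_eset.2 (h.stable σ.symm ν hν))]
  simp

theorem hs_idem (σ : ℂ ≃+* ℂ) (v : V) : hs 𝔙 G σ (hs 𝔙 G σ v) = hs 𝔙 G σ v := by
  obtain ⟨ι, _, b, μ, hb⟩ := exists_eigenbasis h.diag
  have : (hs 𝔙 G σ) ∘ₗ (hs 𝔙 G σ) = hs 𝔙 G σ := by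
    refine b.ext fun i => ?_
    rw [LinearMap.comp_apply, h.hs_apply σ (hb i), map_smul, h.hs_apply σ (hb i), smul_smul]
    congr 1
    rw [ind]
    split_ifs <;> simp
  exact LinearMap.congr_fun this v

/-- An endomorphism which commutes with the slope operators commutes with a power of `G`. -/
theorem comm_pow {p : ℕ} (hp : p.Prime) {n : ℕ} (hn : 0 < n) (hQ : Q = p ^ n)
    (h𝔙 : 𝔙.valuation (p : ℂ) < 1) {f : End ℂ V}
    (hf : ∀ (σ : ℂ ≃+* ℂ) v, f (hs 𝔙 G σ v) = hs 𝔙 G σ (f v)) (v : V) :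
    f ((G ^ (2 * finrank ℂ V ^ 2).factorial) v) = (G ^ (2 * finrank ℂ V ^ 2).factorial) (f v) := by
  classical
  obtain ⟨ι, _, b, μ, hb⟩ := exists_eigenbasis h.diag
  set N := (2 * finrank ℂ V ^ 2).factorial with hN
  have hev : ∀ i, G.HasEigenvalue (μ i) := fun i => Module.End.hasEigenvalue_of_hasEigenvector (hb i)
  have hpow : ∀ i, (G ^ N) (b i) = (μ i ^ N) • b i := by
    intro i
    have := Module.End.aeval_apply_of_hasEigenvector (p := X ^ N) (hb i)
    simpa using this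
  -- same pattern
  have key : ∀ i j, (∀ σ : ℂ ≃+* ℂ, ind 𝔙 (σ.symm (μ i)) = ind 𝔙 (σ.symm (μ j))) →
      μ i ^ N = μ j ^ N := by
    intro i j hij
    have hQ1 : 𝔙.valuation (Q : ℂ) < 1 := by
      rw [hQ]
      push_cast
      rw [map_pow]
      exact pow_lt_one₀ zero_le h𝔙 hn.ne'
    have hval : ∀ σ : ℂ ≃+* ℂ, 𝔙.valuation (σ (μ i)) = 𝔙.valuation (σ (μ j)) := by
      intro σ
      have h1 := hij σ.symm
      rw [RingEquiv.symm_symm] at h1
      have h2 := h.slope _ (h.stable σ _ (hev i))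
      have h3 := h.slope _ (h.stable σ _ (hev j))
      unfold ind at h1
      rcases h2 with h2 | h2 <;> rcases h3 with h3 | h3
      · rw [h2, h3]
      · rw [h2, h3] at h1
        simp [hQ1] at h1
      · rw [h2, h3] at h1
        simp [hQ1] at h1
      · rw [h2, h3]
    have h4 := pow_div_eq_one hp (n := n) 𝔙 h𝔙 (eset G)
      (fun σ a ha => mem_eset.2 (h.stable σ a (mem_eset.1 ha)))
      (fun a ha => h.int a (mem_eset.1 ha))
      (fun a ha => by rw [h.norm a (mem_eset.1 ha), hQ]) (mem_eset.2 (hev i)) (mem_eset.2 (hev j))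
      hval
    obtain ⟨c, hc⟩ : (2 * (eset G).card ^ 2).factorial ∣ N := by
      rw [hN]
      refine Nat.factorial_dvd_factorial ?_
      have := card_eset_le G
      gcongr
    rw [hc, pow_mul, pow_mul, h4]
  have hmain : f ∘ₗ (G ^ N) = (G ^ N) ∘ₗ f := by
    refine b.ext fun i => ?_
    rw [LinearMap.comp_apply, LinearMap.comp_apply, hpow, map_smul]
    have hexp : f (b i) = ∑ j, b.repr (f (b i)) j • b j := (b.sum_repr _).symm
    have hc : ∀ j, b.repr (f (b i)) j ≠ 0 → μ i ^ N = μ j ^ N := by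
      intro j hj
      refine key i j fun σ => ?_
      have h1 := hf σ (b i)
      rw [h.hs_apply σ (hb i), map_smul] at h1
      have h2 : hs 𝔙 G σ (f (b i)) = ∑ k, (b.repr (f (b i)) k * (ind 𝔙 (σ.symm (μ k)) : ℂ)) • b k := by
        conv_lhs => rw [hexp]
        rw [map_sum]
        refine Finset.sum_congr rfl fun k _ => ?_
        rw [map_smul, h.hs_apply σ (hb k), smul_smul]
      rw [h2] at h1
      have h3 := congrArg (fun w => b.repr w j) h1
      simp only [map_smul, Finsupp.smul_apply, smul_eq_mul, map_sum, Finsupp.coe_finsetSum,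
        Finset.sum_apply, Basis.repr_self, Finsupp.single_apply, mul_ite, mul_one,
        mul_zero, Finset.sum_ite_eq', Finset.mem_univ, if_true] at h3
      rw [mul_comm] at h3
      have h4 := mul_left_cancel₀ hj h3
      exact_mod_cast h4
    conv_rhs => rw [hexp]
    conv_lhs => rw [hexp]
    rw [Finset.smul_sum, map_sum]
    refine Finset.sum_congr rfl fun j _ => ?_
    rw [map_smul, hpow, smul_smul, smul_smul]
    by_cases hj : b.repr (f (b i)) j = 0
    · rw [hj, mul_zero, zero_mul]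
    · rw [hc j hj, mul_comm]
  exact LinearMap.congr_fun hmain v

/-- The slope operators act as `m` on Tate tensors of weight `m`. -/
theorem hs_tate {p : ℕ} (hp : p.Prime) {n : ℕ} (hn : 0 < n) (hQ : Q = p ^ n)
    (h𝔙 : 𝔙.valuation (p : ℂ) < 1) (σ : ℂ ≃+* ℂ) {m M : ℕ} (hM : 0 < M)
    (φ : MultilinearMap ℂ (fun _ : Fin m × Fin 2 => V) ℂ)
    (hφ : ∀ v, φ (fun k => (G ^ M) (v k)) = ((Q : ℂ) ^ M) ^ m * φ v) (v : Fin m × Fin 2 → V) :
    ∑ k, φ (Function.update v k (hs 𝔙 G σ (v k))) = m * φ v := by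
  classical
  obtain ⟨ι, _, b, μ, hb⟩ := exists_eigenbasis h.diag
  have hev : ∀ i, G.HasEigenvalue (μ i) := fun i => Module.End.hasEigenvalue_of_hasEigenvector (hb i)
  have hpow : ∀ i, (G ^ M) (b i) = (μ i ^ M) • b i := by
    intro i
    have := Module.End.aeval_apply_of_hasEigenvector (p := X ^ M) (hb i)
    simpa using this
  have hQ1 : 𝔙.valuation (Q : ℂ) < 1 := by
    rw [hQ]
    push_cast
    rw [map_pow]
    exact pow_lt_one₀ zero_le h𝔙 hn.ne'
  have hQ0 : 𝔙.valuation (Q : ℂ) ≠ 0 := by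
    rw [Ne, map_eq_zero, hQ]
    exact_mod_cast (pow_pos hp.pos n).ne'
  let L : MultilinearMap ℂ (fun _ : Fin m × Fin 2 => V) ℂ :=
    ∑ k, φ.compLinearMap (fun i => if i = k then hs 𝔙 G σ else LinearMap.id)
  have hL : ∀ v, L v = ∑ k, φ (Function.update v k (hs 𝔙 G σ (v k))) := by
    intro v
    change (∑ k, φ.compLinearMap (fun i => if i = k then hs 𝔙 G σ else LinearMap.id)) v = _
    rw [_root_.sum_apply]
    refine Finset.sum_congr rfl fun k _ => ?_
    rw [MultilinearMap.compLinearMap_apply]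
    congr 1
    funext i
    by_cases hi : i = k
    · subst hi
      simp
    · simp [hi]
  have hLm : L = (m : ℂ) • φ := by
    refine Basis.ext_multilinear (fun _ => b) fun e => ?_
    rw [hL, _root_.smul_apply, smul_eq_mul]
    have h1 : ∀ k, φ (Function.update (fun i => b (e i)) k (hs 𝔙 G σ (b (e k)))) =
        (ind 𝔙 (σ.symm (μ (e k))) : ℂ) * φ (fun i => b (e i)) := by
      intro k
      rw [h.hs_apply σ (hb (e k)), MultilinearMap.map_update_smul, Function.update_eq_self,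
        smul_eq_mul]
    rw [Finset.sum_congr rfl fun k _ => h1 k, ← Finset.sum_mul]
    by_cases h0 : φ (fun i => b (e i)) = 0
    · rw [h0, mul_zero, mul_zero]
    congr 1
    have h2 := hφ (fun i => b (e i))
    rw [show (fun k => (G ^ M) (b (e k))) = fun k => (μ (e k) ^ M) • b (e k) from
      funext fun k => hpow _, MultilinearMap.map_smul_univ, smul_eq_mul] at h2
    have h3 := mul_right_cancel₀ h0 h2
    have h4 := congrArg (fun x => 𝔙.valuation (σ.symm x)) h3
    simp only [map_prod, map_pow, map_natCast] at h4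
    have h5 : ∀ k, 𝔙.valuation (σ.symm (μ (e k))) =
        𝔙.valuation (Q : ℂ) ^ ind 𝔙 (σ.symm (μ (e k))) := by
      intro k
      unfold ind
      rcases h.slope _ (h.stable σ.symm _ (hev (e k))) with h6 | h6
      · rw [h6]
        simp
      · rw [h6]
        simp [hQ1]
    rw [Finset.prod_congr rfl fun k _ => by rw [h5 k, ← pow_mul, mul_comm, pow_mul]] at h4
    rw [Finset.prod_pow_eq_pow_sum] at h4
    rw [← pow_mul] at h4
    have h6 : ∑ k, ind 𝔙 (σ.symm (μ (e k))) = m := by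
      have hlt : 𝔙.valuation (Q : ℂ) ^ M < 1 := pow_lt_one₀ zero_le hQ1 hM.ne'
      have hpos : 0 < 𝔙.valuation (Q : ℂ) ^ M := zero_lt_iff.2 (pow_ne_zero _ hQ0)
      rw [pow_mul] at h4
      exact (pow_right_injective₀ hpos hlt.ne) h4
    exact_mod_cast h6
  rw [← hL, hLm, _root_.smul_apply, smul_eq_mul]

/-- There are no Tate tensors of odd degree (up to square roots of the twists). -/
theorem odd_zero {p : ℕ} (hp : p.Prime) {n : ℕ} (hn : 0 < n) (hQ : Q = p ^ n)
    (h𝔙 : 𝔙.valuation (p : ℂ) < 1) {a M : ℕ} (ha : ¬ Even a) (hM : 0 < M)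
    (φ : MultilinearMap ℂ (fun _ : Fin a => V) ℂ) {c : ℂ} (hc : c ^ 2 = ((Q : ℂ) ^ M) ^ a)
    (hφ : ∀ v, φ (fun k => (G ^ M) (v k)) = c * φ v) : φ = 0 := by
  classical
  obtain ⟨ι, _, b, μ, hb⟩ := exists_eigenbasis h.diag
  have hev : ∀ i, G.HasEigenvalue (μ i) := fun i => Module.End.hasEigenvalue_of_hasEigenvector (hb i)
  have hpow : ∀ i, (G ^ M) (b i) = (μ i ^ M) • b i := by
    intro i
    have := Module.End.aeval_apply_of_hasEigenvector (p := X ^ M) (hb i)
    simpa using this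
  have hQ1 : 𝔙.valuation (Q : ℂ) < 1 := by
    rw [hQ]
    push_cast
    rw [map_pow]
    exact pow_lt_one₀ zero_le h𝔙 hn.ne'
  have hQ0 : 𝔙.valuation (Q : ℂ) ≠ 0 := by
    rw [Ne, map_eq_zero, hQ]
    exact_mod_cast (pow_pos hp.pos n).ne'
  refine Basis.ext_multilinear (fun _ => b) fun e => ?_
  change φ (fun i => b (e i)) = 0
  by_contra h0
  have h2 := hφ (fun i => b (e i))
  rw [show (fun k => (G ^ M) (b (e k))) = fun k => (μ (e k) ^ M) • b (e k) from
    funext fun k => hpow _, MultilinearMap.map_smul_univ, smul_eq_mul] at h2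
  have h3 := mul_right_cancel₀ h0 h2
  have h4 := congrArg (fun x => 𝔙.valuation (x ^ 2)) h3
  simp only [hc, map_prod, map_pow] at h4
  have h5 : ∀ k, 𝔙.valuation (μ (e k)) = 𝔙.valuation (Q : ℂ) ^ ind 𝔙 (μ (e k)) := by
    intro k
    unfold ind
    rcases h.slope _ (hev (e k)) with h6 | h6
    · rw [h6]
      simp
    · rw [h6]
      simp [hQ1]
  rw [Finset.prod_congr rfl fun k _ => by rw [h5 k, ← pow_mul, mul_comm, pow_mul]] at h4
  rw [Finset.prod_pow_eq_pow_sum, ← pow_mul, ← pow_mul, ← pow_mul] at h4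
  have h6 : M * ((∑ k, ind 𝔙 (μ (e k))) * 2) = M * a :=
    pow_right_injective₀ (zero_lt_iff.2 hQ0) hQ1.ne h4
  have h7 := Nat.eq_of_mul_eq_mul_left hM h6
  exact ha ⟨∑ k, ind 𝔙 (μ (e k)), by omega⟩

end FE

/-- Rational traces. -/
theorem trace_conj {a G : End ℂ V} (hr : ∀ n : ℕ, ∃ r : ℚ, LinearMap.trace ℂ V (a ∘ₗ G ^ n) = r)
    (σ : ℂ ≃+* ℂ) (f : ℂ[X]) :
    LinearMap.trace ℂ V (a ∘ₗ aeval G (f.map (σ : ℂ →+* ℂ))) =
      σ (LinearMap.trace ℂ V (a ∘ₗ aeval G f)) := by
  induction f using Polynomial.induction_on' with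
  | add f g hf hg =>
    rw [Polynomial.map_add, map_add, map_add, LinearMap.comp_add, LinearMap.comp_add, map_add,
      map_add, map_add, hf, hg]
  | monomial n c =>
    rw [Polynomial.map_monomial, aeval_monomial, aeval_monomial]
    obtain ⟨r, hr⟩ := hr n
    have h1 : ∀ c : ℂ, a ∘ₗ ((algebraMap ℂ (End ℂ V)) c * G ^ n) = c • (a ∘ₗ G ^ n) := by
      intro c
      ext v
      simp [Module.algebraMap_end_apply]
    rw [h1, h1, map_smul, map_smul, hr, smul_eq_mul, smul_eq_mul, map_mul]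
    congr 1
    simp

end

end Pool.Agent.N995.OD
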