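import Mathlib
import Pool.Agent.N995.Od2
import Pool.Agent.N995.OdS
import Pool.Agent.Y224.TS.Stm

/-!
# Slope operators are Hodge–Tate elements
-/

set_option autoImplicit false
set_option linter.unusedSectionVars false

open Polynomial Module TensorProduct

namespace Pool.Agent.N995.OD

noncomputable section

variable {H T : Type} [AddCommGroup H] [Module ℚ H] [AddCommGroup T] [Module ℂ T]
  {K : Type} [Field K] [CharZero K] [Algebra K ℂ] {Γ : Type} [Group Γ] [FiniteDimensional ℚ H]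
  {per : H →+ T} {E : H → H → ℚ} {𝔙 : ValuationSubring ℂ} {p n : ℕ}
  {ρ : Representation K Γ (K ⊗[ℚ] H)} {χ : Γ →* K} {P : Type} {deg : P → ℕ} {F : P → Γ}
  (hp : p.Prime) (hn : 0 < n) (h𝔙 : 𝔙.valuation (p : ℂ) < 1) (hdeg : ∀ y, 0 < deg y)
  (hO : IsOrdinary per E 𝔙 (p ^ n) ρ χ deg F)

include hp hn h𝔙 hdeg hO

theorem fe {x : Γ} {d : ℕ} (hx : IsFrobenius deg F x d) :
    FE 𝔙 (p ^ (n * d)) ((ρ x).baseChange ℂ) where
  stable := by
    intro σ μ hμ
    obtain ⟨f, hf⟩ := hO.eigenvalues x d hx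
    rw [hf] at hμ ⊢
    have h1 : σ (aeval μ f) = aeval (σ μ) f := by
      rw [aeval_def, aeval_def]
      have h2 := hom_eval₂ f (algebraMap ℚ ℂ) (σ : ℂ →+* ℂ) μ
      rw [show ((σ : ℂ →+* ℂ)).comp (algebraMap ℚ ℂ) = algebraMap ℚ ℂ from
        RingHom.ext_rat _ _] at h2
      exact h2
    rw [← h1, hμ, map_zero]
  diag := hO.diagonal x d hx
  int := fun μ hμ => (hO.weights x d hx μ hμ).1
  norm := by
    intro μ hμ
    have h1 := (hO.weights x d hx μ hμ).2
    rw [Complex.mul_conj, Complex.normSq_eq_norm_sq, h1]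
    push_cast
    rw [pow_mul]
  slope := by
    intro μ hμ
    rcases hO.slopes x d hx μ hμ with h1 | h1
    · exact Or.inl h1
    · refine Or.inr (h1.trans ?_)
      congr 1
      push_cast
      rw [pow_mul]

theorem isHodgeTate {x : Γ} {d : ℕ} (hx : IsFrobenius deg F x d) (σ : ℂ ≃+* ℂ) :
    Pool.Agent.Y224.TS.St.IsHodgeTate per ρ χ σ (hs 𝔙 ((ρ x).baseChange ℂ) σ) where
  idem := (fe hp hn h𝔙 hdeg hO hx).hs_idem σ
  tate := by
    rintro m φ ⟨Δ, hΔ, hφ⟩ v
    obtain ⟨y, g, hy, -⟩ := id hx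
    have hd : 0 < d := hy ▸ hdeg y
    obtain ⟨M, hM, -, hMΔ⟩ := Subgroup.exists_pow_mem_of_index_ne_zero (H := Δ)
      Subgroup.FiniteIndex.index_ne_zero x
    refine (fe hp hn h𝔙 hdeg hO hx).hs_tate hp (Nat.mul_pos hn hd) rfl h𝔙 σ hM φ ?_ v
    intro w
    have h1 := hφ _ hMΔ w
    rw [map_pow, map_pow, hO.cyclotomic x d hx] at h1
    have h2 : ((ρ x) ^ M).baseChange ℂ = ((ρ x).baseChange ℂ) ^ M := by
      rw [LinearMap.baseChange_pow]
    rw [h2] at h1
    rw [h1]
    congr 2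
    push_cast
    rw [pow_mul]
  trace := by
    intro a Ψ hΨ
    have h1 := hO.lift x d hx a Ψ hΨ (hs 𝔙 ((ρ x).baseChange ℂ) (RingEquiv.refl ℂ)) ?_
    · rw [← h1, hs, trace_conj (fun n => hO.traces x d hx a ⟨Ψ, hΨ⟩ n), hs]
      congr 3
      ext
      simp
    · intro μ v hv
      rcases eq_or_ne v 0 with rfl | h0
      · simp
      · have h2 : Module.End.HasEigenvector ((ρ x).baseChange ℂ) μ v :=
          ⟨Module.End.mem_eigenspace_iff.2 hv, h0⟩
        have h3 := (fe hp hn h𝔙 hdeg hO hx).hs_apply (RingEquiv.refl ℂ) h2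
        change _ = (ind 𝔙 μ : ℂ) • v at h3
        rw [ind] at h3
        constructor
        · intro h4
          rw [h3, if_pos h4]
          simp
        · intro h4
          rw [h3, if_neg h4]
          simp

/-- **The Tate module of an ordinary abelian variety has the properties of the Tate module of its
canonical lift.** -/
theorem isTateModule [Nonempty P] : Pool.Agent.Y224.TS.St.IsTateModule per E ρ χ where
  weil := hO.weil
  endo := hO.endo
  semisimple := hO.semisimple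
  faltings := hO.zarhin
  hodgeTate := fun σ => by
    obtain ⟨y⟩ := ‹Nonempty P›
    exact ⟨_, isHodgeTate hp hn h𝔙 hdeg hO (x := F y) (d := deg y) ⟨y, 1, rfl, by simp⟩ σ⟩
  serre := by
    intro f hf
    refine hO.chebotarev f _ (Nat.factorial_pos
      (2 * finrank ℂ (ℂ ⊗[K] (K ⊗[ℚ] H)) ^ 2)) fun x d hx v => ?_
    obtain ⟨y, g, hy, -⟩ := id hx
    have hd : 0 < d := hy ▸ hdeg y
    exact (fe hp hn h𝔙 hdeg hO hx).comm_pow hp (Nat.mul_pos hn hd) rfl h𝔙
      (fun σ w => hf σ _ (isHodgeTate hp hn h𝔙 hdeg hO hx σ) w) v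

end

end Pool.Agent.N995.OD
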