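import Mathlib
import Pool.Agent.N184.QP.Eig
import Pool.Agent.N995.OdS

/-!
# Euler products over the closed points of a variety over a finite field
-/

set_option autoImplicit false
set_option linter.unusedSectionVars false

open Filter Topology Module
open Pool.Agent.N184.QP

namespace Pool.Agent.N995.OD

noncomputable section

variable {q D : ℕ} (hq : 2 ≤ q) (hD : 0 < D) {P : Type} {deg : P → ℕ} (hdeg : ∀ y, 0 < deg y)
  {C : ℝ} (hfin : ∀ d, {y | deg y = d}.Finite)
  (hC : ∀ d : ℕ, (Nat.card {y // deg y = d} : ℝ) ≤ C * (q : ℝ) ^ (D * d))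
  {H : Type} [AddCommGroup H] [Module ℂ H] [FiniteDimensional ℂ H] {G : P → Module.End ℂ H}
  (hG : ∀ y, Bd (G y))

/-- the number `q^{-s}` -/
def us (q : ℕ) (s : ℝ) : ℝ := (q : ℝ) ^ (-s)

include hq in
theorem us_pos (s : ℝ) : 0 < us q s := by
  have : (0 : ℝ) < q := by exact_mod_cast (by omega : 0 < q)
  exact Real.rpow_pos_of_pos this _

include hq in
theorem us_mul {s : ℝ} : (q : ℝ) ^ D * us q s = (q : ℝ) ^ ((D : ℝ) - s) := by
  have : (0 : ℝ) < q := by exact_mod_cast (by omega : 0 < q)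
  rw [us, ← Real.rpow_natCast, ← Real.rpow_add this]
  congr 1

include hq in
theorem us_lt {s : ℝ} (hs : (D : ℝ) < s) : (q : ℝ) ^ D * us q s < 1 := by
  rw [us_mul hq]
  exact Real.rpow_lt_one_of_one_lt_of_neg (by exact_mod_cast (by omega : 1 < q)) (by linarith)

include hq hD in
theorem us_half {s : ℝ} (hs : (D : ℝ) ≤ s) : us q s ≤ 1 / 2 := by
  have h1 : (1 : ℝ) ≤ s := le_trans (by exact_mod_cast hD) hs
  have h2 : (2 : ℝ) ≤ q := by exact_mod_cast hq
  calc us q s ≤ (q : ℝ) ^ (-1 : ℝ) := Real.rpow_le_rpow_of_exponent_le (by linarith) (by linarith)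
    _ = (q : ℝ)⁻¹ := by rw [Real.rpow_neg_one]
    _ ≤ 1 / 2 := by
      rw [one_div]
      exact inv_anti₀ (by norm_num) h2

include hq hC in
theorem C_nonneg : 0 ≤ C := by
  have h := hC 0
  rw [mul_zero, pow_zero, mul_one] at h
  exact le_trans (by positivity) h

include hq hD hdeg hfin hC in
theorem summable_us {s : ℝ} (hs : (D : ℝ) < s) : Summable fun y => us q s ^ deg y := by
  classical
  have hu := us_pos hq s
  have hC0 := C_nonneg hq hC
  have hlt := us_lt hq hs
  have hv0 : 0 ≤ (q : ℝ) ^ D * us q s := by positivity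
  refine summable_of_sum_le (c := C * ∑' d : ℕ, ((q : ℝ) ^ D * us q s) ^ d)
    (fun y => by positivity) fun u => ?_
  have h1 : ∑ y ∈ u, us q s ^ deg y =
      ∑ d ∈ u.image deg, ∑ y ∈ u with deg y = d, us q s ^ deg y := by
    rw [Finset.sum_fiberwise_of_maps_to]
    intro y hy
    exact Finset.mem_image_of_mem _ hy
  have h2 : ∀ d ∈ u.image deg, ∑ y ∈ u with deg y = d, us q s ^ deg y ≤
      C * ((q : ℝ) ^ D * us q s) ^ d := by
    intro d _
    have h3 : ∀ y ∈ u.filter (fun y => deg y = d), us q s ^ deg y = us q s ^ d := by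
      intro y hy
      rw [(Finset.mem_filter.mp hy).2]
    rw [Finset.sum_congr rfl h3, Finset.sum_const, nsmul_eq_mul]
    have h4 : ((u.filter fun y => deg y = d).card : ℝ) ≤ Nat.card {y // deg y = d} := by
      have h5 : (u.filter fun y => deg y = d).card ≤ Nat.card {y // deg y = d} := by
        have h6 : ((u.filter fun y => deg y = d : Finset P) : Set P) ⊆ {y | deg y = d} := by
          intro y hy
          exact (Finset.mem_filter.mp (Finset.mem_coe.mp hy)).2
        rw [← Set.ncard_coe_finset]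
        exact Set.ncard_le_ncard h6 (hfin d)
      exact_mod_cast h5
    calc ((u.filter fun y => deg y = d).card : ℝ) * us q s ^ d
        ≤ (C * (q : ℝ) ^ (D * d)) * us q s ^ d :=
          mul_le_mul_of_nonneg_right (h4.trans (hC d)) (by positivity)
      _ = C * ((q : ℝ) ^ D * us q s) ^ d := by
          rw [mul_pow, ← pow_mul]
          ring
  rw [h1]
  refine (Finset.sum_le_sum h2).trans ?_
  rw [← Finset.mul_sum]
  refine mul_le_mul_of_nonneg_left ?_ hC0
  exact (summable_geometric_of_lt_one hv0 hlt).sum_le_tsum _ (fun d _ => by positivity)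

/-- the number `N(y)^{-s}` -/
def ty (q : ℕ) (deg : P → ℕ) (s : ℝ) (y : P) : ℂ := ((q ^ deg y : ℕ) : ℂ) ^ (-(s : ℂ))

include hq in
theorem ty_eq (s : ℝ) (y : P) : ty q deg s y = (us q s : ℂ) ^ deg y := by
  have hq0 : (0 : ℝ) ≤ q := by positivity
  unfold ty us
  have h1 : ((q ^ deg y : ℕ) : ℂ) = (((q : ℝ) ^ deg y : ℝ) : ℂ) := by push_cast; rfl
  rw [h1, ← Complex.ofReal_neg, ← Complex.ofReal_cpow (by positivity), ← Complex.ofReal_pow]
  congr 1
  rw [← Real.rpow_natCast, ← Real.rpow_natCast, ← Real.rpow_mul hq0, ← Real.rpow_mul hq0]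
  congr 1
  ring

include hq in
theorem norm_ty (s : ℝ) (y : P) : ‖ty q deg s y‖ = us q s ^ deg y := by
  rw [ty_eq hq, norm_pow, Complex.norm_real, Real.norm_eq_abs, abs_of_pos (us_pos hq s)]

include hq hD hdeg in
theorem norm_ty_half {s : ℝ} (hs : (D : ℝ) ≤ s) (y : P) : us q s ^ deg y ≤ 1 / 2 := by
  have h1 := us_half hq hD hs
  have h2 := us_pos hq s
  calc us q s ^ deg y ≤ us q s ^ 1 :=
        pow_le_pow_of_le_one h2.le (h1.trans (by norm_num)) (hdeg y)
    _ ≤ 1 / 2 := by rwa [pow_one]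

include hq hD hdeg hfin hC hG in
theorem hasProd_euler {s : ℝ} (hs : (D : ℝ) < s) :
    HasProd (fun y => (LinearMap.det (1 - ty q deg s y • G y))⁻¹)
      (Complex.exp (∑' y, logdet (G y) (ty q deg s y))) := by
  have hsum : Summable fun y => logdet (G y) (ty q deg s y) := by
    refine Summable.of_norm_bounded ((summable_us hq hD hdeg hfin hC hs).mul_left
      (2 * (finrank ℂ H : ℝ))) fun y => ?_
    have h := norm_logdet_le (hG y) (t := ty q deg s y) (by
      rw [norm_ty hq]; exact norm_ty_half hq hD hdeg hs.le y)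
    rwa [norm_ty hq] at h
  have h := hsum.hasSum.cexp
  have h2 : (fun y => (LinearMap.det (1 - ty q deg s y • G y))⁻¹) =
      Complex.exp ∘ fun y => logdet (G y) (ty q deg s y) := by
    funext y
    rw [Function.comp_apply, exp_logdet (hG y)]
    rw [norm_ty hq]
    exact (norm_ty_half hq hD hdeg hs.le y).trans_lt (by norm_num)
  rw [h2]
  exact h

theorem norm_trace_pow_le' {F : Module.End ℂ H} (hF : Bd F) (n : ℕ) :
    ‖LinearMap.trace ℂ H (F ^ n)‖ ≤ finrank ℂ H := by
  rw [trace_eig]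
  refine (norm_sum_le _ _).trans ?_
  calc ∑ j, ‖eig F j ^ n‖ ≤ ∑ _j : Fin (finrank ℂ H), (1 : ℝ) := by
        refine Finset.sum_le_sum fun j _ => ?_
        rw [norm_pow]
        exact pow_le_one₀ (norm_nonneg _) (hF _ (eig_mem F j))
    _ = finrank ℂ H := by simp

/-- points of degree dividing `m` and pairs (point, exponent) -/
def fibEquiv (hdeg : ∀ y, 0 < deg y) {m : ℕ} (_hm : 0 < m) : {y // deg y ∣ m} ≃
    ((fun z : P × ℕ => z.2 * deg z.1) ⁻¹' {m} : Set (P × ℕ)) where
  toFun y := ⟨(y.1, m / deg y.1), Nat.div_mul_cancel y.2⟩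
  invFun z := ⟨z.1.1, ⟨z.1.2, by
    have h : z.1.2 * deg z.1.1 = m := z.2
    rw [mul_comm, h]⟩⟩
  left_inv y := rfl
  right_inv z := by
    have h : z.1.2 * deg z.1.1 = m := z.2
    apply Subtype.ext
    refine Prod.ext rfl ?_
    simp only
    exact Nat.div_eq_of_eq_mul_left (hdeg _) h.symm

include hq hD hdeg hfin hC hG in
theorem hasSum_traces {s : ℝ} (hs : (D : ℝ) < s) :
    HasSum (fun m : ℕ => (us q s : ℂ) ^ m / m * traceSum deg G m)
      (∑' y, logdet (G y) (ty q deg s y)) := by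
  set g : P × ℕ → ℂ := fun z => (ty q deg s z.1) ^ z.2 / z.2 *
    LinearMap.trace ℂ H (G z.1 ^ z.2) with hg
  have hu0 := us_pos hq s
  have hsum : Summable g := by
    have h1 : Summable fun z : P × ℕ =>
        (2 * (finrank ℂ H : ℝ) * us q s ^ deg z.1) * ((1 / 2 : ℝ) ^ z.2) :=
      ((summable_us hq hD hdeg hfin hC hs).mul_left (2 * (finrank ℂ H : ℝ))).mul_of_nonneg
        summable_geometric_two (fun y => by positivity) (fun n => by positivity)
    refine Summable.of_norm_bounded h1 fun z => ?_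
    obtain ⟨y, n⟩ := z
    rcases Nat.eq_zero_or_pos n with hn | hn
    · subst hn
      simp only [hg, Nat.cast_zero, div_zero, zero_mul, norm_zero]
      positivity
    · obtain ⟨k, rfl⟩ : ∃ k, n = k + 1 := ⟨n - 1, by omega⟩
      simp only [hg, norm_mul, norm_div, norm_pow, norm_ty hq]
      have hu := norm_ty_half hq hD hdeg hs.le y
      have hu1 : (0 : ℝ) ≤ us q s ^ deg y := by positivity
      have htr := norm_trace_pow_le' (hG y) (k + 1)
      have hn1 : (1 : ℝ) ≤ ‖((k + 1 : ℕ) : ℂ)‖ := by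
        rw [Complex.norm_natCast]
        exact_mod_cast hn
      have hpow : (us q s ^ deg y) ^ (k + 1) ≤ 2 * us q s ^ deg y * (1 / 2 : ℝ) ^ (k + 1) := by
        rw [_root_.pow_succ, _root_.pow_succ]
        have := pow_le_pow_left₀ hu1 hu k
        nlinarith
      calc (us q s ^ deg y) ^ (k + 1) / ‖((k + 1 : ℕ) : ℂ)‖ *
            ‖LinearMap.trace ℂ H (G y ^ (k + 1))‖
          ≤ (us q s ^ deg y) ^ (k + 1) * (finrank ℂ H) := by
            refine mul_le_mul ?_ htr (norm_nonneg _) (by positivity)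
            exact div_le_self (by positivity) hn1
        _ ≤ (2 * us q s ^ deg y * (1 / 2 : ℝ) ^ (k + 1)) * (finrank ℂ H) :=
            mul_le_mul_of_nonneg_right hpow (by positivity)
        _ = _ := by ring
  have h2 : ∑' z, g z = ∑' y, logdet (G y) (ty q deg s y) := by
    rw [hsum.tsum_prod]
    refine tsum_congr fun y => ?_
    have h5 := hasSum_logdet (hG y) (t := ty q deg s y) (by
      rw [norm_ty hq]
      exact (norm_ty_half hq hD hdeg hs.le y).trans_lt (by norm_num))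
    exact h5.tsum_eq
  have h3 := (hsum.hasSum).tsum_fiberwise (fun z : P × ℕ => z.2 * deg z.1)
  rw [h2] at h3
  have h4 : (fun m : ℕ => (us q s : ℂ) ^ m / m * traceSum deg G m) =
      fun m : ℕ => ∑' b : ((fun z : P × ℕ => z.2 * deg z.1) ⁻¹' {m} : Set (P × ℕ)), g b := by
    funext m
    rcases Nat.eq_zero_or_pos m with hm | hm
    · subst hm
      have h5 : ∀ b : ((fun z : P × ℕ => z.2 * deg z.1) ⁻¹' {0} : Set (P × ℕ)), g b = 0 := by
        rintro ⟨⟨y, n⟩, hn⟩
        have h6 : n * deg y = 0 := hn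
        have h7 : n = 0 := by
          rcases Nat.mul_eq_zero.mp h6 with h | h
          · exact h
          · exact absurd h (hdeg _).ne'
        subst h7
        simp [hg]
      rw [tsum_congr h5, tsum_zero]
      simp
    · rw [← (fibEquiv hdeg hm).tsum_eq]
      unfold traceSum
      rw [← tsum_mul_left]
      refine tsum_congr fun y => ?_
      obtain ⟨y, d, hd⟩ := y
      have hdg := hdeg y
      have hdpos : 0 < d := by
        rcases Nat.eq_zero_or_pos d with h | h
        · rw [h, mul_zero] at hd; omega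
        · exact h
      have hdiv : m / deg y = d := by rw [hd]; exact Nat.mul_div_cancel_left d hdg
      change _ = (ty q deg s y) ^ (m / deg y) / ((m / deg y : ℕ) : ℂ) *
        LinearMap.trace ℂ H (G y ^ (m / deg y))
      simp only
      rw [hdiv, ty_eq hq, ← pow_mul, ← hd]
      have h8 : (m : ℂ) = (deg y : ℂ) * (d : ℂ) := by rw [hd]; push_cast; ring
      have h9 : (deg y : ℂ) ≠ 0 := by exact_mod_cast hdg.ne'
      have h10 : (d : ℂ) ≠ 0 := by exact_mod_cast hdpos.ne'
      rw [h8]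
      field_simp
  rw [h4]
  exact h3

variable {V : Type} [AddCommGroup V] [Module ℂ V] [FiniteDimensional ℂ V] {Fr : Module.End ℂ V}
  (hFr : Bd Fr) {B : ℝ}
  (hB : ∀ n : ℕ, 0 < n → ‖traceSum deg G n - ((q : ℂ) ^ D) ^ n * LinearMap.trace ℂ V (Fr ^ n)‖ ≤
    B * ((q : ℝ) ^ ((D : ℝ) - 1 / 2)) ^ n)

/-- the error term -/
def err (q D : ℕ) (deg : P → ℕ) (G : P → Module.End ℂ H) (Fr : Module.End ℂ V) (s : ℝ) : ℂ :=
  ∑' n : ℕ, (us q s : ℂ) ^ n / n *
    (traceSum deg G n - ((q : ℂ) ^ D) ^ n * LinearMap.trace ℂ V (Fr ^ n))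

include hq in
theorem root_lt : (q : ℝ) ^ (-(1 / 2) : ℝ) < 1 :=
  Real.rpow_lt_one_of_one_lt_of_neg (by exact_mod_cast (by omega : 1 < q)) (by norm_num)

include hq hB in
theorem term_le {s : ℝ} (hs : (D : ℝ) ≤ s) (n : ℕ) : ‖(us q s : ℂ) ^ n / n *
    (traceSum deg G n - ((q : ℂ) ^ D) ^ n * LinearMap.trace ℂ V (Fr ^ n))‖ ≤
      |B| * ((q : ℝ) ^ (-(1 / 2) : ℝ)) ^ n := by
  have hq0 : (0 : ℝ) < q := by exact_mod_cast (by omega : 0 < q)
  have hq1 : (1 : ℝ) ≤ q := by exact_mod_cast (by omega : 1 ≤ q)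
  rcases Nat.eq_zero_or_pos n with hn | hn
  · subst hn
    simp only [Nat.cast_zero, div_zero, zero_mul, norm_zero]
    positivity
  have hu := us_pos hq s
  rw [norm_mul, norm_div, norm_pow, Complex.norm_real, Real.norm_eq_abs, abs_of_pos hu,
    Complex.norm_natCast]
  have hn1 : (1 : ℝ) ≤ (n : ℝ) := by exact_mod_cast hn
  calc us q s ^ n / (n : ℝ) *
        ‖traceSum deg G n - ((q : ℂ) ^ D) ^ n * LinearMap.trace ℂ V (Fr ^ n)‖
      ≤ us q s ^ n * (B * ((q : ℝ) ^ ((D : ℝ) - 1 / 2)) ^ n) := by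
        refine mul_le_mul ?_ (hB n hn) (norm_nonneg _) (by positivity)
        exact div_le_self (by positivity) hn1
    _ = B * (us q s * (q : ℝ) ^ ((D : ℝ) - 1 / 2)) ^ n := by rw [mul_pow]; ring
    _ ≤ |B| * (us q s * (q : ℝ) ^ ((D : ℝ) - 1 / 2)) ^ n :=
        mul_le_mul_of_nonneg_right (le_abs_self B) (by positivity)
    _ ≤ |B| * ((q : ℝ) ^ (-(1 / 2) : ℝ)) ^ n := by
        refine mul_le_mul_of_nonneg_left (pow_le_pow_left₀ (by positivity) ?_ n) (abs_nonneg _)
        rw [us, ← Real.rpow_add hq0]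
        exact Real.rpow_le_rpow_of_exponent_le hq1 (by linarith)

include hq in
theorem summable_bound : Summable fun n : ℕ => |B| * ((q : ℝ) ^ (-(1 / 2) : ℝ)) ^ n :=
  (summable_geometric_of_lt_one (by positivity) (root_lt hq)).mul_left _

include hq hB in
theorem tendsto_err : Tendsto (err q D deg G Fr) (𝓝[>] (D : ℝ)) (𝓝 (err q D deg G Fr D)) := by
  refine tendsto_tsum_of_dominated_convergence (summable_bound hq (B := B)) (fun n => ?_) ?_
  · refine Tendsto.mul_const _ (Tendsto.div_const (Tendsto.pow ?_ n) _)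
    refine (Complex.continuous_ofReal.tendsto _).comp ?_
    have hc : Continuous fun s : ℝ => us q s := by
      unfold us
      have hq0 : (q : ℝ) ≠ 0 := by
        have : (0 : ℝ) < q := by exact_mod_cast (by omega : 0 < q)
        exact this.ne'
      exact Continuous.rpow continuous_const continuous_neg (fun x => Or.inl hq0)
    exact (hc.tendsto _).mono_left nhdsWithin_le_nhds
  · filter_upwards [self_mem_nhdsWithin] with s hs n
    exact term_le hq hB (Set.mem_Ioi.1 hs).le n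

include hq hD hdeg hfin hC hG hFr hB in
theorem sum_logdet {s : ℝ} (hs : (D : ℝ) < s) :
    ∑' y, logdet (G y) (ty q deg s y) =
      logdet Fr (((q : ℝ) ^ ((D : ℝ) - s) : ℝ) : ℂ) + err q D deg G Fr s := by
  have h1 := hasSum_traces hq hD hdeg hfin hC hG hs
  have hlt : ‖(((q : ℝ) ^ ((D : ℝ) - s) : ℝ) : ℂ)‖ < 1 := by
    rw [Complex.norm_real, Real.norm_eq_abs, ← us_mul hq, abs_of_pos]
    · exact us_lt hq hs
    · have := us_pos hq s
      have : (0 : ℝ) < q := by exact_mod_cast (by omega : 0 < q)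
      positivity
  have h2 := hasSum_logdet hFr hlt
  have h3 : Summable fun n : ℕ => (us q s : ℂ) ^ n / n *
      (traceSum deg G n - ((q : ℂ) ^ D) ^ n * LinearMap.trace ℂ V (Fr ^ n)) :=
    Summable.of_norm_bounded (summable_bound hq (B := B)) fun n => term_le hq hB hs.le n
  have h4 := h2.add h3.hasSum
  have h5 : (fun n : ℕ => (((q : ℝ) ^ ((D : ℝ) - s) : ℝ) : ℂ) ^ n / n *
      LinearMap.trace ℂ V (Fr ^ n) + (us q s : ℂ) ^ n / n *
      (traceSum deg G n - ((q : ℂ) ^ D) ^ n * LinearMap.trace ℂ V (Fr ^ n))) =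
      fun n : ℕ => (us q s : ℂ) ^ n / n * traceSum deg G n := by
    funext n
    rw [← us_mul hq]
    push_cast
    rw [mul_pow]
    ring
  rw [h5] at h4
  exact h1.unique h4

include hq in
theorem tendsto_quot : Tendsto (fun s : ℝ => ((s : ℂ) - D) /
    (1 - (((q : ℝ) ^ ((D : ℝ) - s) : ℝ) : ℂ))) (𝓝[>] (D : ℝ)) (𝓝 (((Real.log q : ℝ) : ℂ)⁻¹)) := by
  have hq0 : (0 : ℝ) < q := by exact_mod_cast (by omega : 0 < q)
  have hq1 : (1 : ℝ) < q := by exact_mod_cast (by omega : 1 < q)
  have hlog : Real.log q ≠ 0 := (Real.log_pos hq1).ne'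
  have h1 : HasDerivAt (fun s : ℝ => (q : ℝ) ^ ((D : ℝ) - s)) (-Real.log q) (D : ℝ) := by
    have h2 : HasDerivAt (fun s : ℝ => (D : ℝ) - s) (-1) (D : ℝ) := by
      simpa using (hasDerivAt_id (D : ℝ)).const_sub (D : ℝ)
    have h3 := h2.const_rpow hq0
    simpa using h3
  have h4 := (hasDerivAt_iff_tendsto_slope.1 h1).mono_left
    (nhdsWithin_mono _ (fun s hs => (ne_of_gt hs : s ≠ D)) :
      𝓝[>] (D : ℝ) ≤ 𝓝[≠] (D : ℝ))
  have h5 : Tendsto (fun s : ℝ => (-(slope (fun s : ℝ => (q : ℝ) ^ ((D : ℝ) - s)) (D : ℝ) s))⁻¹)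
      (𝓝[>] (D : ℝ)) (𝓝 ((Real.log q)⁻¹)) := by
    have h6 := (h4.neg).inv₀ (by simpa using hlog)
    simpa using h6
  have h6 := (Complex.continuous_ofReal.tendsto _).comp h5
  have h7 : ((((Real.log q)⁻¹ : ℝ)) : ℂ) = ((Real.log q : ℝ) : ℂ)⁻¹ := by push_cast; rfl
  rw [← h7]
  refine h6.congr' ?_
  filter_upwards [self_mem_nhdsWithin] with s hs
  rw [Function.comp_apply, slope_def_field]
  push_cast
  rw [sub_self, Real.rpow_zero, Complex.ofReal_one, ← neg_div, inv_div]
  congr 1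
  ring

include hq hD hdeg hfin hC hG hFr hB in
/-- **The order of the pole.** -/
theorem isPole {r : ℕ} {R : ℂ → ℂ} (hR : ContinuousAt R 1) (hR1 : R 1 ≠ 0)
    (hdet : ∀ v : ℂ, LinearMap.det (1 - v • Fr) = (1 - v) ^ r * R v) :
    IsPole (fun s => Complex.exp (∑' y, logdet (G y) (ty q deg s y))) D r := by
  have hq0 : (0 : ℝ) < q := by exact_mod_cast (by omega : 0 < q)
  have hlog : ((Real.log q : ℝ) : ℂ) ≠ 0 := by
    have hq1 : (1 : ℝ) < q := by exact_mod_cast (by omega : 1 < q)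
    exact_mod_cast (Real.log_pos hq1).ne'
  refine ⟨(((Real.log q : ℝ) : ℂ)⁻¹) ^ r * ((R 1)⁻¹ * Complex.exp (err q D deg G Fr D)),
    mul_ne_zero (pow_ne_zero _ (inv_ne_zero hlog)) (mul_ne_zero (inv_ne_zero hR1)
      (Complex.exp_ne_zero _)), ?_⟩
  have hv : Tendsto (fun s : ℝ => (((q : ℝ) ^ ((D : ℝ) - s) : ℝ) : ℂ)) (𝓝[>] (D : ℝ)) (𝓝 1) := by
    have hc : Continuous fun s : ℝ => (q : ℝ) ^ ((D : ℝ) - s) :=
      Continuous.rpow continuous_const (by fun_prop) (fun x => Or.inl hq0.ne')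
    have h1 := ((hc.tendsto (D : ℝ)).mono_left (nhdsWithin_le_nhds (s := Set.Ioi (D : ℝ))))
    have h2 := (Complex.continuous_ofReal.tendsto _).comp h1
    rw [sub_self, Real.rpow_zero, Complex.ofReal_one] at h2
    exact h2
  have h1 := ((tendsto_quot (D := D) hq).pow r).mul
    (((hR.tendsto.comp hv).inv₀ hR1).mul ((Complex.continuous_exp.tendsto _).comp
      (tendsto_err hq hB)))
  refine h1.congr' ?_
  filter_upwards [self_mem_nhdsWithin] with s hs
  have hs' : (D : ℝ) < s := hs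
  simp only [Function.comp_apply]
  rw [sum_logdet hq hD hdeg hfin hC hG hFr hB hs', Complex.exp_add, exp_logdet hFr, hdet]
  · rw [div_pow, mul_inv]
    push_cast
    ring
  · rw [Complex.norm_real, Real.norm_eq_abs, ← us_mul hq, abs_of_pos]
    · exact us_lt hq hs'
    · have := us_pos hq s
      positivity

end

end Pool.Agent.N995.OD
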