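import Mathlib
import Pool.Agent.N995.Od6

/-!
# Invariant classes, cycles and their ranks
-/

set_option autoImplicit false
set_option linter.unusedSectionVars false

open Filter Topology Module Polynomial TensorProduct
open Pool.Agent.N184.QP (det_one_sub)

namespace Pool.Agent.N995.OD

noncomputable section

variable {K : Type} [Field K] [CharZero K] {Γ : Type} [Group Γ]
  {W W' : Type} [AddCommGroup W] [Module K W] [Module ℚ W] [AddCommGroup W'] [Module K W']
  [Module ℚ W']

/-- **Averaging.** -/
theorem span_fixed {R : Representation K Γ W} {Z : Submodule ℚ W}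
    (hst : ∀ g, ∀ w ∈ Z, R g w ∈ Z)
    (hfin : ∀ w ∈ Z, ∃ Δ : Subgroup Γ, Δ.FiniteIndex ∧ ∀ g ∈ Δ, R g w = w) {φ : W}
    (hφ : ∀ g, R g φ = φ) (hs : φ ∈ Submodule.span K (Z : Set W)) :
    φ ∈ Submodule.span K (fixedClasses R Z : Set W) := by
  classical
  obtain ⟨n, c, z, hz⟩ := Submodule.mem_span_set'.1 hs
  choose Δ' hΔ' hfix using fun j => hfin (z j : W) (z j).2
  let Δ : Subgroup Γ := ⨅ j, Δ' j
  have : Δ.FiniteIndex := by
    exact Subgroup.finiteIndex_iInf hΔ'
  let _ : Fintype (Γ ⧸ Δ) := Subgroup.fintypeQuotientOfFiniteIndex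
  let av : W →ₗ[K] W := ∑ x : Γ ⧸ Δ, R x.out
  have hav : ∀ w, av w = ∑ x : Γ ⧸ Δ, R x.out w := fun w => by
    change (∑ x : Γ ⧸ Δ, R x.out) w = _
    rw [LinearMap.sum_apply]
  have hmem : ∀ j, av (z j) ∈ fixedClasses R Z := by
    intro j
    rw [hav]
    refine ⟨Submodule.sum_mem _ fun x _ => hst _ _ (z j).2, fun g => ?_⟩
    rw [map_sum]
    refine Fintype.sum_equiv (MulAction.toPerm g) _ _ fun x => ?_
    have h1 : ∃ δ ∈ Δ, g * x.out = (g • x).out * δ := by
      refine ⟨((g • x).out)⁻¹ * (g * x.out), ?_, by group⟩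
      rw [← QuotientGroup.eq]
      have h2 : ((g • x).out : Γ ⧸ Δ) = g • x := Quotient.out_eq' _
      have h3 : ((g * x.out : Γ) : Γ ⧸ Δ) = g • x := by
        have h4 : (x.out : Γ ⧸ Δ) = x := Quotient.out_eq' _
        conv_rhs => rw [← h4]
        rfl
      rw [h2, h3]
    obtain ⟨δ, hδ, h1⟩ := h1
    have h2 : R g (R x.out (z j)) = R (g * x.out) (z j) := by
      rw [map_mul]
      rfl
    rw [h2, h1, map_mul]
    change R (g • x).out (R δ (z j)) = _
    rw [hfix j δ ((Subgroup.mem_iInf.1 hδ) j)]
    rfl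
  have hφ' : av φ = (Fintype.card (Γ ⧸ Δ) : K) • φ := by
    rw [hav, Finset.sum_congr rfl fun x _ => hφ x.out, Finset.sum_const, Finset.card_univ,
      Nat.cast_smul_eq_nsmul]
  have hcard : (Fintype.card (Γ ⧸ Δ) : K) ≠ 0 := by
    exact_mod_cast Fintype.card_ne_zero
  have h1 : φ = (Fintype.card (Γ ⧸ Δ) : K)⁻¹ • av φ := by
    rw [hφ', smul_smul, inv_mul_cancel₀ hcard, one_smul]
  rw [h1]
  refine Submodule.smul_mem _ _ ?_
  rw [← hz, map_sum]
  refine Submodule.sum_mem _ fun j _ => ?_
  rw [map_smul]
  exact Submodule.smul_mem _ _ (Submodule.subset_span (hmem j))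

section rank

variable [FiniteDimensional K W] [FiniteDimensional K W'] {R : Representation K Γ W}
  {R' : Representation K Γ W'} {Z : Submodule ℚ W} {Z' : Submodule ℚ W'}
  {B : W →ₗ[K] W' →ₗ[K] K} (h : IsCyclePair R R' Z Z' B)
include h

/-- the pairing of the invariants is nondegenerate -/
theorem exists_pair {w : W} (hw : ∀ g, R g w = w) (h0 : w ≠ 0) :
    ∃ w' : W', (∀ g, R' g w' = w') ∧ B w w' ≠ 0 := by
  have hker : ∀ g, ∀ u ∈ LinearMap.ker (B w), R' g u ∈ LinearMap.ker (B w) := by
    intro g u hu
    rw [LinearMap.mem_ker] at hu ⊢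
    have h1 := h.inv g w u
    rw [hw g] at h1
    rw [h1, hu]
  obtain ⟨U', hU', hc⟩ := h.semisimple' ⊤ inferInstance _ (fun g _ => hker g)
  have hne : ∃ u ∈ U', u ≠ 0 := by
    by_contra hcon
    push Not at hcon
    apply h0
    refine h.left w fun w' => ?_
    have h1 : U' = ⊥ := (Submodule.eq_bot_iff _).2 hcon
    have h2 := hc.sup_eq_top
    rw [h1, sup_bot_eq] at h2
    have h3 : w' ∈ LinearMap.ker (B w) := by rw [h2]; trivial
    exact h3
  obtain ⟨u, hu, hu0⟩ := hne
  refine ⟨u, fun g => ?_, fun hz => ?_⟩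
  · have h1 : R' g u - u ∈ U' := U'.sub_mem (hU' g trivial u hu) hu
    have h2 : R' g u - u ∈ LinearMap.ker (B w) := by
      rw [LinearMap.mem_ker, map_sub]
      have h3 := h.inv g w u
      rw [hw g] at h3
      rw [h3, sub_self]
    have h3 := (Submodule.disjoint_def.1 hc.disjoint) _ h2 h1
    exact sub_eq_zero.1 h3
  · exact hu0 ((Submodule.disjoint_def.1 hc.disjoint) _ hz hu)

/-- Classes of cycles which are independent over `ℚ` are independent over `K`. -/
theorem indep (hspan' : ∀ w', (∀ g, R' g w' = w') →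
      w' ∈ Submodule.span K (fixedClasses R' Z' : Set W')) {ι : Type} (v : ι → W)
    (hv : ∀ i, v i ∈ fixedClasses R Z) (hi : LinearIndependent ℚ v) : LinearIndependent K v := by
  classical
  rw [linearIndependent_iff']
  intro s c hc
  -- the space of values
  let L : Submodule ℚ (s → ℚ) :=
    { carrier := {r | ∃ w' ∈ fixedClasses R' Z', ∀ i : s, B (v i) w' = ((r i : ℚ) : K)}
      add_mem' := by
        rintro a b ⟨x, hx, hx'⟩ ⟨y, hy, hy'⟩
        refine ⟨x + y, Submodule.add_mem _ hx hy, fun i => ?_⟩
        rw [map_add, hx', hy', Pi.add_apply]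
        push_cast
        rfl
      zero_mem' := ⟨0, Submodule.zero_mem _, fun i => by simp⟩
      smul_mem' := by
        rintro r a ⟨x, hx, hx'⟩
        refine ⟨r • x, Submodule.smul_mem _ _ hx, fun i => ?_⟩
        rw [map_rat_smul (B (v i)) r x, hx', Pi.smul_apply, smul_eq_mul]
        push_cast
        rw [Rat.smul_def] }
  have hL : L = ⊤ := by
    by_contra hne
    obtain ⟨f, hf0, hf⟩ := Submodule.exists_le_ker_of_lt_top L (lt_top_iff_ne_top.2 hne)
    have hfs : ∀ r, f r = ∑ i, r i * f (Pi.single i 1) := by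
      intro r
      have := LinearMap.pi_apply_eq_sum_univ f r
      rw [this]
      refine Finset.sum_congr rfl fun i _ => ?_
      rw [smul_eq_mul]
      congr 2
      funext j
      rw [Pi.single_apply]
      simp [eq_comm]
    set z : W := ∑ i : s, f (Pi.single i 1) • v i with hz
    have hzA : z ∈ fixedClasses R Z :=
      Submodule.sum_mem _ fun i _ => Submodule.smul_mem _ _ (hv i)
    have hz0 : z ≠ 0 := by
      intro h0
      apply hf0
      have h1 : LinearIndependent ℚ (fun i : s => v i) := hi.comp _ Subtype.val_injective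
      have h2 := Fintype.linearIndependent_iff.1 h1 _ h0
      refine LinearMap.ext fun r => ?_
      rw [hfs, LinearMap.zero_apply]
      exact Finset.sum_eq_zero fun i _ => by rw [h2 i, mul_zero]
    obtain ⟨w', hw', hne'⟩ := exists_pair h (w := z) hzA.2 hz0
    apply hne'
    have hkill : ∀ x ∈ fixedClasses R' Z', B z x = 0 := by
      intro x hx
      choose r hr using fun i : s => h.rational (v i) (hv i).1 x hx.1
      have h1 : r ∈ L := ⟨x, hx, fun i => hr i⟩
      have h2 := hf h1
      rw [LinearMap.mem_ker, hfs] at h2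
      rw [hz, map_sum, LinearMap.sum_apply]
      have h3 : ∀ i : s, (B (f (Pi.single i 1) • v i)) x = ((r i * f (Pi.single i 1) : ℚ) : K) := by
        intro i
        rw [map_rat_smul B (f (Pi.single i 1)) (v i)]
        rw [show (f (Pi.single i 1) • B (v i)) x = f (Pi.single i 1) • (B (v i) x) from rfl, hr i,
          Rat.smul_def]
        push_cast
        ring
      rw [Finset.sum_congr rfl fun i _ => h3 i]
      rw [← Rat.cast_sum, h2, Rat.cast_zero]
    have hall : Submodule.span K (fixedClasses R' Z' : Set W') ≤ LinearMap.ker (B z) :=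
      Submodule.span_le.2 fun x hx => hkill x hx
    exact hall (hspan' w' hw')
  intro i hi'
  have h1 : (Pi.single (⟨i, hi'⟩ : s) 1 : s → ℚ) ∈ L := by rw [hL]; trivial
  obtain ⟨w', -, hw'⟩ := h1
  have h2 := congrArg (fun x => B x w') hc
  simp only [map_sum, map_smul, LinearMap.sum_apply, LinearMap.smul_apply, map_zero,
    LinearMap.zero_apply, smul_eq_mul] at h2
  rw [← Finset.sum_coe_sort s (fun i => c i * (B (v i)) w')] at h2
  rw [Finset.sum_congr rfl fun j _ => by rw [hw' j]] at h2
  rw [Finset.sum_eq_single (⟨i, hi'⟩ : s)] at h2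
  · simpa using h2
  · intro b _ hb
    rw [Pi.single_apply, if_neg hb]
    simp
  · intro hcon
    exact absurd (Finset.mem_univ _) hcon

/-- **The rank of the group of cycles is the dimension of the space of invariants.** -/
theorem rank_eq
    (hspan : ∀ w, (∀ g, R g w = w) → w ∈ Submodule.span K (fixedClasses R Z : Set W))
    (hspan' : ∀ w', (∀ g, R' g w' = w') →
      w' ∈ Submodule.span K (fixedClasses R' Z' : Set W')) :
    Submodule.span K (fixedClasses R Z : Set W) = R.invariants ∧
      finrank ℚ (fixedClasses R Z) = finrank K R.invariants := by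
  have h1 : Submodule.span K (fixedClasses R Z : Set W) = R.invariants := by
    refine le_antisymm (Submodule.span_le.2 fun w hw => ?_) fun w hw => ?_
    · exact (Representation.mem_invariants R w).2 hw.2
    · exact hspan w ((Representation.mem_invariants R w).1 hw)
  refine ⟨h1, ?_⟩
  let b := Basis.ofVectorSpace ℚ (fixedClasses R Z)
  have hbi : LinearIndependent ℚ (fun i => (b i : W)) :=
    b.linearIndependent.map' (fixedClasses R Z).subtype (Submodule.ker_subtype _)
  have hbK := indep h hspan' (fun i => (b i : W)) (fun i => (b i).2) hbi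
  have hfin : Finite (Basis.ofVectorSpaceIndex ℚ (fixedClasses R Z)) := hbK.finite
  let _ : Fintype (Basis.ofVectorSpaceIndex ℚ (fixedClasses R Z)) := Fintype.ofFinite _
  have h2 : Submodule.span K (Set.range fun i => (b i : W)) =
      Submodule.span K (fixedClasses R Z : Set W) := by
    refine le_antisymm (Submodule.span_mono ?_) (Submodule.span_le.2 fun w hw => ?_)
    · rintro _ ⟨i, rfl⟩
      exact (b i).2
    · have h3 := b.sum_repr ⟨w, hw⟩
      have h4 : w = ∑ i, b.repr ⟨w, hw⟩ i • (b i : W) := by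
        have h5 := congrArg (fun x : fixedClasses R Z => (x : W)) h3
        simp only [Submodule.coe_sum, Submodule.coe_smul] at h5
        exact h5.symm
      rw [h4]
      refine Submodule.sum_mem _ fun i _ => ?_
      rw [show b.repr ⟨w, hw⟩ i • (b i : W) = ((b.repr ⟨w, hw⟩ i : ℚ) : K) • (b i : W) from
        (Rat.cast_smul_eq_qsmul K _ _).symm]
      exact Submodule.smul_mem _ _ (Submodule.subset_span ⟨i, rfl⟩)
  rw [← h1, ← h2, finrank_span_eq_card hbK, finrank_eq_card_basis b]

end rank

/-- `W₀` is the space of the invariants of the geometric fundamental group and `Fr` the action of the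
geometric Frobenius element on it (of the inverse of the element `φ` of the fundamental group): its
characteristic polynomial. -/
theorem det_fr [FiniteDimensional K W] [Algebra K ℂ] {R : Representation K Γ W}
    (hss : ∀ U : Submodule K W, (∀ g, ∀ u ∈ U, R g u ∈ U) →
      ∃ U' : Submodule K W, (∀ g, ∀ u ∈ U', R g u ∈ U') ∧ IsCompl U U')
    {W₀ : Submodule K W} {Fr : Module.End K W₀} {φ : Γ}
    (hinv : ∀ w : W, (∀ g, R g w = w) → w ∈ W₀)
    (hFr : ∀ w : W₀, (Fr w : W) = R φ⁻¹ w)
    (hfix : ∀ w ∈ W₀, R φ w = w → ∀ g, R g w = w) :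
    ∃ S : ℂ → ℂ, Continuous S ∧ S 1 ≠ 0 ∧ ∀ v : ℂ, LinearMap.det (1 - v • Fr.baseChange ℂ) =
      (1 - v) ^ finrank K R.invariants * S v := by
  classical
  obtain ⟨U, hU, hc⟩ := hss R.invariants (fun g u hu => by
    rw [Representation.mem_invariants] at hu
    rw [hu g]
    exact (Representation.mem_invariants R u).2 hu)
  let I₀ : Submodule K W₀ := R.invariants.comap W₀.subtype
  let U₀ : Submodule K W₀ := U.comap W₀.subtype
  have hc₀ : IsCompl I₀ U₀ := by
    constructor
    · rw [Submodule.disjoint_def]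
      intro x hx hx'
      exact Subtype.ext ((Submodule.disjoint_def.1 hc.disjoint) _ hx hx')
    · rw [codisjoint_iff, eq_top_iff]
      rintro x -
      have h1 : (x : W) ∈ R.invariants ⊔ U := by rw [hc.sup_eq_top]; trivial
      obtain ⟨a, ha, b, hb, hab⟩ := Submodule.mem_sup.1 h1
      have ha' : a ∈ W₀ := hinv a ((Representation.mem_invariants R a).1 ha)
      have hb' : b ∈ W₀ := by
        have h2 : b = (x : W) - a := by rw [← hab]; abel
        rw [h2]
        exact W₀.sub_mem x.2 ha'
      exact Submodule.mem_sup.2 ⟨⟨a, ha'⟩, ha, ⟨b, hb'⟩, hb, Subtype.ext hab⟩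
  have hFrI : ∀ x ∈ I₀, Fr x = x := by
    intro x hx
    apply Subtype.ext
    rw [hFr]
    exact (Representation.mem_invariants R (x : W)).1 hx _
  have hFrU : ∀ x ∈ U₀, Fr x ∈ U₀ := by
    intro x hx
    change ((Fr x : W₀) : W) ∈ U
    rw [hFr]
    exact hU _ _ hx
  let FU : Module.End K U₀ := Fr.restrict hFrU
  let e := Submodule.prodEquivOfIsCompl I₀ U₀ hc₀
  have hconj : e.conj (LinearMap.prodMap (1 : Module.End K I₀) FU) = Fr := by
    refine LinearMap.ext fun x => ?_
    obtain ⟨y, rfl⟩ := e.surjective x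
    rw [LinearEquiv.conj_apply_apply, e.symm_apply_apply]
    obtain ⟨a, b⟩ := y
    rw [LinearMap.prodMap_apply]
    change e (a, FU b) = _
    rw [Submodule.coe_prodEquivOfIsCompl', Submodule.coe_prodEquivOfIsCompl', map_add]
    rw [hFrI a a.2]
    rfl
  have hchar : Fr.charpoly = (X - C 1) ^ finrank K I₀ * FU.charpoly := by
    rw [← hconj, LinearEquiv.charpoly_conj, LinearMap.charpoly_prodMap]
    congr 1
    rw [LinearMap.charpoly_one, map_one]
  have hfr : finrank K I₀ = finrank K R.invariants := by
    have h1 : R.invariants ≤ W₀ := fun w hw =>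
      hinv w ((Representation.mem_invariants R w).1 hw)
    exact (Submodule.comapSubtypeEquivOfLe h1).finrank_eq
  have hQ1 : ¬ FU.charpoly.IsRoot 1 := by
    intro hr
    have h1 : FU.HasEigenvalue 1 := (Module.End.hasEigenvalue_iff_isRoot_charpoly _ _).2 hr
    obtain ⟨x, hx⟩ := h1.exists_hasEigenvector
    have h2 : FU x = x := by
      have := hx.apply_eq_smul
      rwa [one_smul] at this
    have h3 : R φ⁻¹ ((x : W₀) : W) = ((x : W₀) : W) := by
      have h4 := congrArg (fun y : U₀ => ((y : W₀) : W)) h2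
      have h5 : ((FU x : W₀) : W) = R φ⁻¹ ((x : W₀) : W) := hFr x
      rw [← h5]
      exact h4
    have h4 : R φ ((x : W₀) : W) = ((x : W₀) : W) := by
      conv_lhs => rw [← h3]
      rw [← Module.End.mul_apply, ← map_mul, mul_inv_cancel, map_one]
      rfl
    have h5 : ((x : W₀) : W) ∈ R.invariants :=
      (Representation.mem_invariants R _).2 (hfix _ (x : W₀).2 h4)
    have h6 := (Submodule.disjoint_def.1 hc.disjoint) _ h5 x.2
    exact hx.2 (Subtype.ext (Subtype.ext h6))
  let Q : ℂ[X] := FU.charpoly.map (algebraMap K ℂ)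
  have hQm : Q.Monic := (LinearMap.charpoly_monic FU).map _
  have hcharC : (Fr.baseChange ℂ).charpoly = (X - C 1) ^ finrank K R.invariants * Q := by
    rw [LinearMap.charpoly_baseChange, hchar, hfr, Polynomial.map_mul, Polynomial.map_pow,
      Polynomial.map_sub, Polynomial.map_X, Polynomial.map_C, map_one]
  have hroots : (Fr.baseChange ℂ).charpoly.roots =
      Multiset.replicate (finrank K R.invariants) 1 + Q.roots := by
    have hne : (X - C (1 : ℂ)) ^ finrank K R.invariants * Q ≠ 0 :=
      (((monic_X_sub_C _).pow _).mul hQm).ne_zero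
    rw [hcharC, roots_mul hne, roots_pow, roots_X_sub_C, Multiset.nsmul_singleton]
  refine ⟨fun v => (Q.roots.map fun z => 1 - v * z).prod, ?_, ?_, fun v => ?_⟩
  · have hcont : ∀ s : Multiset ℂ, Continuous fun v : ℂ => (s.map fun z => 1 - v * z).prod := by
      intro s
      induction s using Multiset.induction_on with
      | empty => simpa using continuous_const
      | cons a s ih =>
        simp only [Multiset.map_cons, Multiset.prod_cons]
        exact (by fun_prop : Continuous fun v : ℂ => 1 - v * a).mul ih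
    exact hcont _
  · refine Multiset.prod_ne_zero fun h0 => ?_
    obtain ⟨z, hz, hz1⟩ := Multiset.mem_map.1 h0
    have hz2 : z = 1 := by
      rw [one_mul] at hz1
      exact (sub_eq_zero.1 hz1).symm
    rw [hz2, mem_roots hQm.ne_zero, IsRoot, eval_map, ← map_one (algebraMap K ℂ), eval₂_hom,
      map_eq_zero] at hz
    exact hQ1 hz
  · rw [det_one_sub, hroots, Multiset.map_add, Multiset.prod_add, Multiset.map_replicate,
      Multiset.prod_replicate, mul_one]

end

end Pool.Agent.N995.OD
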