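import Mathlib
import Pool.Agent.N995.Od4

/-!
# Extension of scalars for alternating forms
-/

set_option autoImplicit false
set_option linter.unusedSectionVars false

open Module TensorProduct

namespace Pool.Agent.N995.OD

noncomputable section

variable {k : Type} [Field k] {K : Type} [Field K] [Algebra k K] [CharZero K] {H : Type}
  [AddCommGroup H] [Module k H] [FiniteDimensional k H] {κ : Type} [Finite κ]

/-- Forms which agree on `H` are equal. -/
theorem form_ext {w w' : (K ⊗[k] H) [⋀^κ]→ₗ[K] K}
    (h : ∀ v : κ → H, w (fun k => 1 ⊗ₜ v k) = w' (fun k => 1 ⊗ₜ v k)) : w = w' := by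
  let b := Algebra.TensorProduct.basis K (Module.finBasis k H)
  refine AlternatingMap.coe_multilinearMap_injective (Basis.ext_multilinear (fun _ => b) fun e => ?_)
  have h1 := h (fun i => Module.finBasis k H (e i))
  simpa [b] using h1

/-- **Extension of scalars.** -/
theorem exists_ext' (f : H [⋀^κ]→ₗ[k] k) :
    ∃ w : (K ⊗[k] H) [⋀^κ]→ₗ[K] K, ∀ v : κ → H, w (fun i => 1 ⊗ₜ v i) = algebraMap k K (f v) := by
  classical
  let _ : Fintype κ := Fintype.ofFinite κ
  let b := Module.finBasis k H
  let bK := Algebra.TensorProduct.basis K b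
  let T : (κ → Fin (finrank k H)) → MultilinearMap K (fun _ : κ => K ⊗[k] H) K := fun e =>
    (algebraMap k K (f (fun i => b (e i)))) •
      (MultilinearMap.mkPiAlgebra K κ K).compLinearMap (fun i => bK.coord (e i))
  have hT : ∀ e v, T e v = algebraMap k K (f (fun i => b (e i))) * ∏ i, bK.coord (e i) (v i) := by
    intro e v
    rfl
  let M : MultilinearMap K (fun _ : κ => K ⊗[k] H) K := ∑ e, T e
  have hM : ∀ v, M v = ∑ e, T e v := fun v => _root_.sum_apply _ _ _
  let w : (K ⊗[k] H) [⋀^κ]→ₗ[K] K :=
    { M with
      map_eq_zero_of_eq' := by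
        intro v i j hv hij
        change M v = 0
        have h1 : ∀ e, T (e ∘ Equiv.swap i j) v = - T e v := by
          intro e
          rw [hT, hT]
          have h2 : f (fun l => b ((e ∘ Equiv.swap i j) l)) = - f (fun l => b (e l)) := by
            have := f.map_swap (fun l => b (e l)) hij
            exact this
          have h3 : ∏ l, bK.coord ((e ∘ Equiv.swap i j) l) (v l) = ∏ l, bK.coord (e l) (v l) := by
            refine Fintype.prod_equiv (Equiv.swap i j) _ _ fun l => ?_
            have h4 : v l = v (Equiv.swap i j l) := by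
              by_cases hki : l = i
              · rw [hki, Equiv.swap_apply_left, hv]
              · by_cases hkj : l = j
                · rw [hkj, Equiv.swap_apply_right, hv]
                · rw [Equiv.swap_apply_of_ne_of_ne hki hkj]
            rw [← h4]
            rfl
          rw [h2, h3, map_neg]
          ring
        have h2 : ∑ e, T e v = - ∑ e, T e v := by
          rw [← Finset.sum_neg_distrib]
          refine (Fintype.sum_equiv (Equiv.arrowCongr (Equiv.swap i j) (Equiv.refl _)) _ _
            fun e => ?_).symm
          rw [← h1 e]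
          congr 2
        rw [hM]
        have h3 : (2 : K) * ∑ e, T e v = 0 := by
          rw [two_mul]
          nth_rewrite 2 [h2]
          exact add_neg_cancel _
        exact (mul_eq_zero.1 h3).resolve_left two_ne_zero }
  have hw : ∀ v, w v = M v := fun v => rfl
  refine ⟨w, fun v => ?_⟩
  let A : MultilinearMap k (fun _ : κ => H) K :=
    (M.restrictScalars k).compLinearMap (fun _ => TensorProduct.mk k K H 1)
  let A' : MultilinearMap k (fun _ : κ => H) K :=
    (Algebra.linearMap k K).compMultilinearMap f.toMultilinearMap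
  have hAA : A = A' := by
    refine Basis.ext_multilinear (fun _ => b) fun e => ?_
    change M (fun i => (1 : K) ⊗ₜ b (e i)) = algebraMap k K (f (fun i => b (e i)))
    rw [hM, Finset.sum_eq_single e]
    · rw [hT]
      have h1 : ∀ i, bK.coord (e i) ((1 : K) ⊗ₜ b (e i)) = 1 := by
        intro i
        have h2 : (1 : K) ⊗ₜ b (e i) = bK (e i) := by
          rw [Algebra.TensorProduct.basis_apply]
        rw [h2, Basis.coord_apply, Basis.repr_self, Finsupp.single_eq_same]
      rw [Finset.prod_congr rfl fun i _ => h1 i, Finset.prod_const_one, mul_one]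
    · intro e' _ he'
      rw [hT]
      have h1 : ∃ i, e' i ≠ e i := by
        by_contra hcon
        push Not at hcon
        exact he' (funext hcon)
      obtain ⟨i, hi⟩ := h1
      have h2 : bK.coord (e' i) ((1 : K) ⊗ₜ b (e i)) = 0 := by
        have h3 : (1 : K) ⊗ₜ b (e i) = bK (e i) := by
          rw [Algebra.TensorProduct.basis_apply]
        rw [h3, Basis.coord_apply, Basis.repr_self, Finsupp.single_eq_of_ne hi]
      rw [Finset.prod_eq_zero (Finset.mem_univ i) h2, mul_zero]
    · intro h
      exact absurd (Finset.mem_univ _) h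
  have h1 := congrArg (fun g : MultilinearMap k (fun _ : κ => H) K => g v) hAA
  exact h1

end

section

variable {K : Type} [Field K] [CharZero K] {Γ : Type} [Group Γ] {V : Type} [AddCommGroup V]
  [Module K V]

theorem coh_apply (ρ : Representation K Γ V) (χ : Γ →* K) (κ : Type) (m : ℕ) (g : Γ)
    (w : V [⋀^κ]→ₗ[K] K) (v : κ → V) :
    coh ρ χ κ m g w v = χ g ^ m * w (fun k => ρ g⁻¹ (v k)) := rfl

/-- Invariant forms are Tate classes. -/
theorem coh_fixed {ρ : Representation K Γ V} {χ : Γ →* K} {κ : Type} {m : ℕ}
    {w : V [⋀^κ]→ₗ[K] K} {g : Γ} (h : coh ρ χ κ m g w = w) (v : κ → V) :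
    w (fun k => ρ g (v k)) = χ g ^ m * w v := by
  have h1 := congrArg (fun w : V [⋀^κ]→ₗ[K] K => w (fun k => ρ g (v k))) h
  simp only [coh_apply] at h1
  rw [← h1]
  congr 2
  funext k
  rw [← Module.End.mul_apply, ← map_mul, inv_mul_cancel, map_one]
  rfl

end

end Pool.Agent.N995.OD
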