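import Mathlib
import Pool.Agent.N995.Od4

/-!
# Invariants of quotients of semisimple representations
-/

set_option autoImplicit false
set_option linter.unusedSectionVars false

open Module

namespace Pool.Agent.N995.OD

section

variable {K : Type} [Field K] {Γ : Type} [Group Γ]

/-- complete reducibility -/
def SS {W : Type} [AddCommGroup W] [Module K W] (R : Representation K Γ W) : Prop :=
  ∀ U : Submodule K W, (∀ g, ∀ u ∈ U, R g u ∈ U) →
    ∃ U' : Submodule K W, (∀ g, ∀ u ∈ U', R g u ∈ U') ∧ IsCompl U U'

/-- An equivariant map to a trivial representation is determined by the invariants. -/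
theorem map_trivial {A I : Type} [AddCommGroup A] [Module K A] [AddCommGroup I] [Module K I]
    {R : Representation K Γ A} (hR : SS R) (π : A →ₗ[K] I) (hπ : ∀ g a, π (R g a) = π a) (a : A) :
    ∃ b : A, (∀ g, R g b = b) ∧ π b = π a := by
  obtain ⟨C, hC, hc⟩ := hR (LinearMap.ker π) (fun g u hu => by
    rw [LinearMap.mem_ker] at hu ⊢
    rw [hπ, hu])
  have h1 : a ∈ LinearMap.ker π ⊔ C := by rw [hc.sup_eq_top]; trivial
  obtain ⟨x, hx, b, hb, hab⟩ := Submodule.mem_sup.1 h1
  refine ⟨b, fun g => ?_, ?_⟩
  · have h2 : R g b - b ∈ C := C.sub_mem (hC g b hb) hb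
    have h3 : R g b - b ∈ LinearMap.ker π := by
      rw [LinearMap.mem_ker, map_sub, hπ, sub_self]
    exact sub_eq_zero.1 ((Submodule.disjoint_def.1 hc.disjoint) _ h3 h2)
  · rw [← hab, map_add, LinearMap.mem_ker.1 hx, zero_add]

/-- The invariants of a sum of images of semisimple representations. -/
theorem invariants_sum {W : Type} [AddCommGroup W] [Module K W] {R : Representation K Γ W}
    (hR : SS R) {J : Type} {A : J → Type} [∀ j, AddCommGroup (A j)] [∀ j, Module K (A j)]
    {S : ∀ j, Representation K Γ (A j)} (hS : ∀ j, SS (S j)) (f : ∀ j, A j →ₗ[K] W)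
    (hsum : ⨆ j, LinearMap.range (f j) = ⊤) (heq : ∀ j g a, f j (S j g a) = R g (f j a))
    (w : W) (hw : ∀ g, R g w = w) :
    w ∈ Submodule.span K {x | ∃ j a, (∀ g, S j g a = a) ∧ f j a = x} := by
  obtain ⟨U, hU, hc⟩ := hR R.invariants (fun g u hu => by
    rw [Representation.mem_invariants] at hu
    rw [hu g]
    exact (Representation.mem_invariants R u).2 hu)
  let π : W →ₗ[K] R.invariants := R.invariants.projectionOnto U hc
  have hπI : ∀ x : R.invariants, π x = x := fun x =>
    Submodule.projectionOnto_apply_left hc x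
  have hπU : ∀ u ∈ U, π u = 0 := fun u hu =>
    (Submodule.projectionOnto_apply_eq_zero_iff hc).2 hu
  have hπR : ∀ g x, π (R g x) = π x := by
    intro g x
    have h1 : x ∈ R.invariants ⊔ U := by rw [hc.sup_eq_top]; trivial
    obtain ⟨i, hi, u, hu, hiu⟩ := Submodule.mem_sup.1 h1
    rw [← hiu, map_add, map_add, map_add, hπU u hu, hπU _ (hU g u hu),
      (Representation.mem_invariants R i).1 hi g]
  have key : ∀ x : W, ((π x : R.invariants) : W) ∈
      Submodule.span K {x | ∃ j a, (∀ g, S j g a = a) ∧ f j a = x} := by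
    intro x
    have h1 : x ∈ ⨆ j, LinearMap.range (f j) := by rw [hsum]; trivial
    refine Submodule.iSup_induction (fun j => LinearMap.range (f j))
      (motive := fun x => ((π x : R.invariants) : W) ∈
        Submodule.span K {x | ∃ j a, (∀ g, S j g a = a) ∧ f j a = x}) h1 ?_ ?_ ?_
    · rintro j _ ⟨a, rfl⟩
      obtain ⟨b, hb, hba⟩ := map_trivial (hS j) (π ∘ₗ f j) (fun g a => by
        rw [LinearMap.comp_apply, LinearMap.comp_apply, heq, hπR]) a
      rw [LinearMap.comp_apply, LinearMap.comp_apply] at hba
      rw [← hba]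
      have h2 : f j b ∈ R.invariants := (Representation.mem_invariants R _).2 fun g => by
        rw [← heq, hb]
      have h3 : ((π (f j b) : R.invariants) : W) = f j b :=
        congrArg Subtype.val (hπI ⟨f j b, h2⟩)
      rw [h3]
      exact Submodule.subset_span ⟨j, b, hb, rfl⟩
    · rw [map_zero]
      exact Submodule.zero_mem _
    · intro x y hx hy
      rw [map_add]
      exact Submodule.add_mem _ hx hy
  have h1 : w ∈ R.invariants := (Representation.mem_invariants R w).2 hw
  have h2 := key w
  rwa [show ((π w : R.invariants) : W) = w from congrArg Subtype.val (hπI ⟨w, h1⟩)] at h2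

end

end Pool.Agent.N995.OD
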