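import Mathlib
import Pool.Agent.N995.Facs
import Pool.Agent.N995.Cls3
import Pool.Agent.N995.CM3

/-!
# Multiplicities and elliptic curves
-/

set_option linter.unusedSectionVars false

namespace Pool.Agent.N995

open Matrix Module Pool.Agent.W437.HC Pool.Agent.W437.HD Pool.Agent.TH504.CB Pool.Agent.Y90
open Pool.Agent.R915
open Pool.Agent.W548.Odd hiding cv
open Pool.Agent.W437.HP (cK cK_mul cK_one cK_sum)
open Pool.Agent.W547.KB (CMPair CMAV)

noncomputable section

theorem cc_neg {s : ℂ} {d : ℚ} (hd : 0 < d) (hs : s * s = -(d : ℂ)) : cc s = -s := by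
  have h1 : cc s * cc s = s * s := by
    rw [← map_mul, hs, map_neg, map_ratCast]
  rcases mul_self_eq_mul_self_iff.1 h1 with h2 | h2
  · exfalso
    have h3 : (starRingEnd ℂ) s = s := h2
    obtain ⟨r, hr⟩ := Complex.conj_eq_iff_real.1 h3
    rw [hr] at hs
    have h4 : r * r = -(d : ℝ) := by exact_mod_cast hs
    have h5 : (0 : ℝ) < d := by exact_mod_cast hd
    nlinarith [mul_self_nonneg r]
  · exact h2

section pd

variable {g : ℕ} {Z : Matrix (Fin g) (Fin g) ℂ}

theorem pd_add {M C Y : Submodule ℂ (Fin g ⊕ Fin g → ℂ)} (hM : Stab (LZ Z) M)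
    (hC : Stab (LZ Z) C) (h1 : M ⊓ C = ⊥) (h2 : M ⊔ C = Y) : pd Z Y = pd Z M + pd Z C := by
  have h3 : Y ⊓ eig Z 1 = (M ⊓ eig Z 1) ⊔ (C ⊓ eig Z 1) := by
    apply le_antisymm
    · rintro y ⟨hy, hy1⟩
      rw [← h2] at hy
      obtain ⟨m, hm, c, hc, rfl⟩ := Submodule.mem_sup.1 hy
      have e1 : DZ Z *ᵥ (m + c) = (1 : ℂ) • (m + c) := mem_eig.1 hy1
      rw [one_smul, mulVec_add] at e1
      have e2 : DZ Z *ᵥ m - m = c - DZ Z *ᵥ c := by
        linear_combination (exp := 1) e1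
      have e3 : DZ Z *ᵥ m - m ∈ M ⊓ C := by
        refine ⟨M.sub_mem (hM _ DZ_mem m hm) hm, ?_⟩
        rw [e2]
        exact C.sub_mem hc (hC _ DZ_mem c hc)
      rw [h1, Submodule.mem_bot] at e3
      have e4 : m ∈ eig Z 1 := by
        rw [mem_eig, one_smul]
        exact sub_eq_zero.1 e3
      have e5 : c ∈ eig Z 1 := by
        rw [mem_eig, one_smul]
        rw [e3] at e2
        exact (sub_eq_zero.1 e2.symm).symm
      exact Submodule.add_mem_sup ⟨hm, e4⟩ ⟨hc, e5⟩
    · rw [← h2]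
      exact sup_le (inf_le_inf_right _ le_sup_left) (inf_le_inf_right _ le_sup_right)
  have h4 : (M ⊓ eig Z 1) ⊓ (C ⊓ eig Z 1) = ⊥ := by
    rw [eq_bot_iff, ← h1]
    rintro y ⟨⟨hy1, -⟩, hy2, -⟩
    exact ⟨hy1, hy2⟩
  have h5 := Submodule.finrank_sup_add_finrank_inf_eq (M ⊓ eig Z 1) (C ⊓ eig Z 1)
  rw [h4, finrank_bot, add_zero, ← h3] at h5
  exact h5

/-- Balanced submodules. -/
theorem two_pd (h : PM Z) (hb : ∀ U, IrS (LZ Z) U → tr Z U = 0) (m : ℕ) :
    ∀ Y : Submodule ℂ (Fin g ⊕ Fin g → ℂ), finrank ℂ Y = m → Stab (LZ Z) Y → 2 * pd Z Y = m := by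
  induction m using Nat.strong_induction_on with
  | _ m ih =>
    intro Y hY hs
    by_cases h0 : Y = ⊥
    · have h1 : pd Z Y = 0 := by
        unfold pd
        rw [h0, bot_inf_eq, finrank_bot]
      rw [h1, ← hY, h0, finrank_bot]
    obtain ⟨U, hU, hU'⟩ := exists_irS _ Y rfl h0 hs
    obtain ⟨C, hC1, hC2, hC3, hC4⟩ := h.cred.compl hU'.2.1 hs hU
    have h1 := pd_add hU'.2.1 hC1 hC3 hC4
    have h2 := Submodule.finrank_sup_add_finrank_inf_eq U C
    rw [hC3, hC4, finrank_bot, add_zero, hY] at h2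
    have h3 : 0 < finrank ℂ U := by
      rw [Nat.pos_iff_ne_zero, ne_eq, Submodule.finrank_eq_zero]
      exact hU'.1
    have h4 := ih (finrank ℂ C) (by omega) C rfl hC1
    have h5 := pd_add_qd h hU'.2.1
    have h6 := hb U hU'
    unfold tr at h6
    omega

/-- The multiplicities in terms of the complex structure. -/
theorem unb_pd (h : PM Z) {d : ℚ} (hu : Unbalanced (AVZ h) d) :
    ∃ (φ : Matrix (Fin g ⊕ Fin g) (Fin g ⊕ Fin g) ℚ) (s : ℂ), 0 < d ∧
      φ * φ = -(d • (1 : Matrix (Fin g ⊕ Fin g) (Fin g ⊕ Fin g) ℚ)) ∧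
      qm φ * DZ Z = DZ Z * qm φ ∧ s * s = -(d : ℂ) ∧ pd Z (VE φ s) ≠ pd Z (VE φ (-s)) := by
  obtain ⟨hd, f, Ψ, s, h1, h2, h3, h4⟩ := hu
  have hc : qm (LinearMap.toMatrix' f) * DZ Z = DZ Z * qm (LinearMap.toMatrix' f) :=
    (hom_iff' h f).1 ⟨Ψ, h1⟩
  have hΨ : ∀ v, Ψ (perOne Z v) = perOne Z (LinearMap.toMatrix' f *ᵥ v) := by
    intro v
    have h2 := h1 v
    have h3 : LinearMap.toMatrix' f *ᵥ v = f v := by
      rw [← Matrix.toLin'_apply, Matrix.toLin'_toMatrix']
    rw [h3]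
    exact h2
  refine ⟨LinearMap.toMatrix' f, s, hd, ?_, hc, h3, ?_⟩
  · have h5 : f.comp f = -(d • LinearMap.id) := LinearMap.ext h2
    have h6 := congrArg LinearMap.toMatrix' h5
    rw [LinearMap.toMatrix'_comp, map_neg, map_smul, LinearMap.toMatrix'_id] at h6
    exact h6
  · rw [pd_sig h hc hΨ s (fun v => mem_VE), pd_sig h hc hΨ (-s) (fun v => mem_VE)]
    have h5 : Ψ - (-s) • LinearMap.id = Ψ + s • LinearMap.id := by
      rw [neg_smul, sub_neg_eq_add]
    intro h6
    apply h4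
    rw [← h5]
    exact h6

/-- **The imaginary quadratic fields which act with different multiplicities.** -/
theorem lemN (h : PM Z) (hs : IsSimple (AVZ h)) (hg : 0 < g)
    (hLC : ∀ U, IrS (LZ Z) U → LC h U) : (∀ d, ¬Unbalanced (AVZ h) d) ∨
      ∃ d₁ : ℚ, 0 < d₁ ∧ ∀ d, Unbalanced (AVZ h) d → ∃ b : ℚ, d = b * b * d₁ := by
  have hs' := simple_AVZ h hs
  obtain ⟨U, hU⟩ := exists_irr (Z := Z) hg
  by_cases hsd : SDu Z U
  · left
    intro d hu
    obtain ⟨φ, s, hd, hφ, hc, hss, hpd⟩ := unb_pd h hu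
    apply hpd
    have hb : ∀ W, IrS (LZ Z) W → tr Z W = 0 := by
      intro W hW
      obtain ⟨b, h0, hb⟩ := sdu_any h hs' hU hW hsd
      have := tr_dual h hW hW h0 hb
      omega
    have h1 := two_pd h hb _ (VE φ s) rfl (VE_stab hc s)
    have h2 := two_pd h hb _ (VE φ (-s)) rfl (VE_stab hc (-s))
    have h3 : finrank ℂ (VE φ (-s)) = finrank ℂ (VE φ s) := by
      rw [← cc_neg hd hss, ← VE_cj, finrank_cjS]
    omega
  · right
    have hfr : finrank ℂ U = g := by
      rcases (hLC U hU).or with h1 | ⟨φ, α, d, k, -⟩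
      · exact absurd h1.1 hsd
      · exact k.dim
    obtain ⟨φ, d₁, k⟩ := (exists_spl h hs' hU hsd hfr).exists_QF h
    refine ⟨d₁, k.pos, fun d hu => ?_⟩
    obtain ⟨ψ, s, hd, hψ, hc, -, -⟩ := unb_pd h hu
    obtain ⟨a, b, hab⟩ := k.max ψ hc
    have h1 : ψ * ψ = (a * a - b * b * d₁) • (1 : Matrix (Fin g ⊕ Fin g) (Fin g ⊕ Fin g) ℚ) +
        (2 * a * b) • φ := by
      rw [hab, Matrix.add_mul, Matrix.mul_add, Matrix.mul_add, Matrix.smul_mul, Matrix.smul_mul,
        Matrix.smul_mul, Matrix.smul_mul, Matrix.mul_smul, Matrix.mul_smul, Matrix.mul_smul,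
        Matrix.mul_smul, Matrix.one_mul, Matrix.one_mul, Matrix.mul_one, k.sq]
      module
    rw [hψ] at h1
    have hne : (1 : Matrix (Fin g ⊕ Fin g) (Fin g ⊕ Fin g) ℚ) ≠ 0 := by
      intro h0
      have h2 := congrFun (congrFun h0 (Sum.inl ⟨0, hg⟩)) (Sum.inl ⟨0, hg⟩)
      rw [Matrix.one_apply_eq] at h2
      exact one_ne_zero h2
    by_cases hb : 2 * a * b = 0
    · rcases mul_eq_zero.1 hb with h2 | h2
      · have h3 : a = 0 := by linarith
        rw [hb, zero_smul, add_zero, h3] at h1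
        refine ⟨b, ?_⟩
        have h4 : (d - b * b * d₁) • (1 : Matrix (Fin g ⊕ Fin g) (Fin g ⊕ Fin g) ℚ) = 0 := by
          rw [sub_smul]
          have h5 : -(d • (1 : Matrix (Fin g ⊕ Fin g) (Fin g ⊕ Fin g) ℚ)) =
              -((b * b * d₁) • (1 : Matrix (Fin g ⊕ Fin g) (Fin g ⊕ Fin g) ℚ)) := by
            rw [h1, ← neg_smul]
            congr 1
            ring
          rw [neg_inj.1 h5, sub_self]
        exact sub_eq_zero.1 ((smul_eq_zero.1 h4).resolve_right hne)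
      · exfalso
        rw [hb, zero_smul, add_zero, h2] at h1
        have h4 : (d + a * a) • (1 : Matrix (Fin g ⊕ Fin g) (Fin g ⊕ Fin g) ℚ) = 0 := by
          have h5 : (a * a - 0 * 0 * d₁) • (1 : Matrix (Fin g ⊕ Fin g) (Fin g ⊕ Fin g) ℚ) =
              (a * a) • 1 := by
            congr 1
            ring
          rw [h5] at h1
          rw [add_smul, ← h1, add_neg_cancel]
        have h5 := (smul_eq_zero.1 h4).resolve_right hne
        nlinarith [mul_self_nonneg a]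
    · exfalso
      have h2 : φ = ((2 * a * b)⁻¹ * (-d - (a * a - b * b * d₁))) •
          (1 : Matrix (Fin g ⊕ Fin g) (Fin g ⊕ Fin g) ℚ) := by
        rw [mul_smul, sub_smul, neg_smul, h1, add_sub_cancel_left, smul_smul,
          inv_mul_cancel₀ hb, one_smul]
      obtain ⟨c, hc'⟩ : ∃ c : ℚ, φ = c • (1 : Matrix (Fin g ⊕ Fin g) (Fin g ⊕ Fin g) ℚ) := ⟨_, h2⟩
      have h3 := k.sq
      rw [hc', Matrix.smul_mul, Matrix.mul_smul, Matrix.one_mul, smul_smul] at h3
      have h4 : (c * c + d₁) • (1 : Matrix (Fin g ⊕ Fin g) (Fin g ⊕ Fin g) ℚ) = 0 := by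
        rw [add_smul, h3, neg_add_cancel]
      have h5 := (smul_eq_zero.1 h4).resolve_right hne
      have h6 := k.pos
      nlinarith [mul_self_nonneg c]

end pd

/-- The period map is injective. -/
theorem per_inj (Y : AV) {v : Y.H} (hv : Y.per v = 0) : v = 0 := by
  let b := Module.finBasis ℚ Y.H
  have h1 : LinearIndependent ℝ fun i => Y.per (b i) := by
    refine linearIndependent_of_top_le_span_of_card_eq_finrank ?_ ?_
    · rw [← Y.span, Submodule.span_le]
      rintro _ ⟨v, rfl⟩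
      rw [SetLike.mem_coe, ← b.sum_repr v, map_sum]
      refine Submodule.sum_mem _ fun i _ => ?_
      rw [Pool.Agent.Y90.per_smul]
      exact Submodule.smul_mem _ _ (Submodule.subset_span ⟨i, rfl⟩)
    · rw [Fintype.card_fin, Y.rank, finrank_real_of_complex]
  have h2 : ∑ i, ((b.repr v i : ℚ) : ℝ) • Y.per (b i) = 0 := by
    rw [← hv]
    conv_rhs => rw [← b.sum_repr v, map_sum]
    exact Finset.sum_congr rfl fun i _ => (Pool.Agent.Y90.per_smul Y.per _ _).symm
  have h3 := Fintype.linearIndependent_iff.1 h1 _ h2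
  rw [← b.sum_repr v]
  refine Finset.sum_eq_zero fun i _ => ?_
  have h4 : b.repr v i = 0 := by exact_mod_cast h3 i
  rw [h4, zero_smul]

/-- The normal form of an elliptic curve with complex multiplication. -/
def NF (E : AV) (t : ℂ) : Prop :=
  ∃ (B : (Fin 2 → ℚ) ≃ₗ[ℚ] E.H) (θ : ℂ ≃ₗ[ℂ] E.T), ∀ x, E.per (B x) = θ ((x 0 : ℂ) + x 1 * t)

theorem NF.isg {E F : AV} {t : ℂ} (hE : NF E t) (hF : NF F t) : Isg E F := by
  obtain ⟨B, θ, h1⟩ := hE
  obtain ⟨B', θ', h2⟩ := hF
  have key : ∀ {E F : AV} (B : (Fin 2 → ℚ) ≃ₗ[ℚ] E.H) (θ : ℂ ≃ₗ[ℂ] E.T)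
      (B' : (Fin 2 → ℚ) ≃ₗ[ℚ] F.H) (θ' : ℂ ≃ₗ[ℂ] F.T)
      (_ : ∀ x, E.per (B x) = θ ((x 0 : ℂ) + x 1 * t))
      (_ : ∀ x, F.per (B' x) = θ' ((x 0 : ℂ) + x 1 * t)),
      IsHom E F (B.symm.trans B').toLinearMap := by
    intro E F B θ B' θ' h1 h2
    refine ⟨(θ.symm.trans θ').toLinearMap, fun v => ?_⟩
    obtain ⟨x, rfl⟩ := B.surjective v
    rw [h1]
    change θ' (θ.symm (θ _)) = F.per (B' (B.symm (B x)))
    rw [LinearEquiv.symm_apply_apply, LinearEquiv.symm_apply_apply, h2]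
  exact ⟨B.symm.trans B', key B θ B' θ' h1 h2, key B' θ' B θ h2 h1⟩

theorem NF.scale {E : AV} {t : ℂ} (hE : NF E t) {c : ℚ} (hc : c ≠ 0) : NF E (c * t) := by
  obtain ⟨B, θ, h1⟩ := hE
  let S : (Fin 2 → ℚ) ≃ₗ[ℚ] (Fin 2 → ℚ) :=
    { toFun := fun x => ![x 0, c * x 1]
      invFun := fun x => ![x 0, c⁻¹ * x 1]
      left_inv := fun x => by
        funext i
        fin_cases i
        · rfl
        · change c⁻¹ * (c * x 1) = x 1
          rw [← mul_assoc, inv_mul_cancel₀ hc, one_mul]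
      right_inv := fun x => by
        funext i
        fin_cases i
        · rfl
        · change c * (c⁻¹ * x 1) = x 1
          rw [← mul_assoc, mul_inv_cancel₀ hc, one_mul]
      map_add' := fun x y => by
        funext i
        fin_cases i
        · rfl
        · change c * (x 1 + y 1) = c * x 1 + c * y 1
          ring
      map_smul' := fun r x => by
        funext i
        fin_cases i
        · rfl
        · change c * (r * x 1) = r * (c * x 1)
          ring }
  refine ⟨S.trans B, θ, fun x => ?_⟩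
  change E.per (B (S x)) = _
  rw [h1]
  congr 1
  change ((x 0 : ℚ) : ℂ) + ((c * x 1 : ℚ) : ℂ) * t = _
  push_cast
  ring

/-- The normal form of an elliptic curve with complex multiplication. -/
theorem nf_of_unb {E : AV} (h2 : finrank ℚ E.H = 2) {d : ℚ} (hu : Unbalanced E d) :
    ∃ t : ℂ, t * t = -(d : ℂ) ∧ NF E t := by
  obtain ⟨hd, f, Ψ, s, h3, h4, h5, -⟩ := hu
  have hT : finrank ℂ E.T = 1 := by
    have := E.rank
    omega
  have hH : Nontrivial E.H := Module.nontrivial_of_finrank_pos (R := ℚ) (by omega)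
  obtain ⟨v, hv⟩ := exists_ne (0 : E.H)
  have hpv : E.per v ≠ 0 := fun h => hv (per_inj E h)
  obtain ⟨t, ht⟩ : ∃ t : ℂ, t • E.per v = Ψ (E.per v) :=
    (finrank_eq_one_iff_of_nonzero' (E.per v) hpv).1 hT _
  have hf : E.per (f v) = t • E.per v := by rw [ht, h3]
  have htt : t * t = -(d : ℂ) := by
    have e1 : E.per (f (f v)) = (t * t) • E.per v := by
      rw [← h3, hf, map_smul, ← ht, smul_smul]
    rw [h4, map_neg, per_rsmul, ← neg_smul] at e1
    have e2 : (t * t - -(d : ℂ)) • E.per v = 0 := by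
      rw [sub_smul, ← e1, sub_self]
    exact sub_eq_zero.1 ((smul_eq_zero.1 e2).resolve_right hpv)
  let L : (Fin 2 → ℚ) →ₗ[ℚ] E.H :=
    { toFun := fun x => x 0 • v + x 1 • f v
      map_add' := fun x y => by
        rw [Pi.add_apply, Pi.add_apply]
        module
      map_smul' := fun c x => by
        rw [Pi.smul_apply, Pi.smul_apply, smul_eq_mul, smul_eq_mul, RingHom.id_apply]
        module }
  have hL : ∀ x, E.per (L x) = ((x 0 : ℂ) + x 1 * t) • E.per v := by
    intro x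
    change E.per (x 0 • v + x 1 • f v) = _
    rw [map_add, per_rsmul, per_rsmul, hf, smul_smul, add_smul]
  have hinj : Function.Injective L := by
    rw [injective_iff_map_eq_zero]
    intro x hx
    have e1 := hL x
    rw [hx, map_zero] at e1
    have e2 := (smul_eq_zero.1 e1.symm).resolve_right hpv
    have e3 : cc t = -t := cc_neg hd htt
    have e4 := congrArg cc e2
    rw [map_add, map_mul, map_ratCast, map_ratCast, map_zero, e3] at e4
    have e5 : (x 0 : ℂ) = 0 := by linear_combination (e2 + e4) / 2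
    have e6 : (x 1 : ℂ) * t = 0 := by linear_combination (e2 - e4) / 2
    have e7 : t ≠ 0 := by
      intro h0
      rw [h0, mul_zero, eq_comm, neg_eq_zero] at htt
      exact hd.ne' (by exact_mod_cast htt)
    have e8 := (mul_eq_zero.1 e6).resolve_right e7
    funext i
    fin_cases i
    · change x 0 = 0
      exact_mod_cast e5
    · change x 1 = 0
      exact_mod_cast e8
  have hdim : finrank ℚ (Fin 2 → ℚ) = finrank ℚ E.H := by
    rw [finrank_fintype_fun_eq_card, Fintype.card_fin, h2]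
  let θ : ℂ ≃ₗ[ℂ] E.T := (LinearMap.toSpanSingleton ℂ E.T (E.per v)).linearEquivOfInjective (by
    rw [injective_iff_map_eq_zero]
    intro z hz
    rw [LinearMap.toSpanSingleton_apply] at hz
    exact (smul_eq_zero.1 hz).resolve_right hpv) (by rw [hT, finrank_self])
  exact ⟨t, htt, L.linearEquivOfInjective hinj hdim, θ, fun x => hL x⟩

/-- Elliptic curves with complex multiplication by the same field are isogenous. -/
theorem ell_isg {E F : AV} (hE : finrank ℚ E.H = 2) (hF : finrank ℚ F.H = 2) {d d₁ b : ℚ}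
    (hd : Unbalanced E d) (hd₁ : Unbalanced F d₁) (hb : d = b * b * d₁) : Isg E F := by
  obtain ⟨t, ht, h1⟩ := nf_of_unb hE hd
  obtain ⟨t₁, ht₁, h2⟩ := nf_of_unb hF hd₁
  have hb0 : b ≠ 0 := by
    intro h0
    rw [h0, zero_mul, zero_mul] at hb
    exact hd.1.ne' hb
  have h3 : t * t = (b * t₁) * (b * t₁) := by
    rw [ht, hb]
    push_cast
    linear_combination (-(b : ℂ) * b) * ht₁
  rcases mul_self_eq_mul_self_iff.1 h3 with h4 | h4
  · rw [h4] at h1
    exact h1.isg (h2.scale hb0)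
  · have h5 := h2.scale (c := -b) (neg_ne_zero.2 hb0)
    have h6 : ((-b : ℚ) : ℂ) * t₁ = t := by
      rw [h4]
      push_cast
      ring
    rw [h6] at h5
    exact h1.isg h5

/-- Isogenies preserve the type. -/
theorem IsOfType.isg {X Y : AV} {P : CMPair} (h : IsOfType Y P) (hXY : Isg X Y) :
    IsOfType X P := by
  obtain ⟨e, Ψ, hΨ⟩ := h
  obtain ⟨f, ⟨Φ, hΦ⟩, hf⟩ := hXY
  have h5 : Function.Surjective Φ := tan_surj hΦ f.surjective
  have h6 : finrank ℂ X.T = finrank ℂ Y.T := by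
    have h3 := f.finrank_eq
    rw [X.rank, Y.rank] at h3
    omega
  have h7 : Function.Injective Φ :=
    (LinearMap.injective_iff_surjective_of_finrank_eq_finrank h6).2 h5
  let E : X.T ≃ₗ[ℂ] Y.T := LinearEquiv.ofBijective Φ ⟨h7, h5⟩
  refine ⟨f.trans e, E.trans Ψ, fun v φ => ?_⟩
  change Ψ (Φ (X.per v)) φ = φ.1 (e (f v))
  rw [hΦ, ← hΨ]
  rfl

end

end Pool.Agent.N995
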