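import Mathlib
import Pool.Agent.N995.Lem
import Pool.Agent.N995.Alp
import Pool.Agent.N995.Bet6

/-!
# Hodge classes on the abelian varieties with the factors of an abelian variety of dimension at most
five
-/

set_option linter.unusedSectionVars false

namespace Pool.Agent.N995

open Matrix Module Pool.Agent.W437.HC Pool.Agent.W437.HD Pool.Agent.TH504.CB Pool.Agent.Y90
open Pool.Agent.R915 NumberField
open Pool.Agent.W548.Odd hiding cv
open Pool.Agent.W437.HP (cK cK_mul cK_one cK_sum)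
open Pool.Agent.W547.KB (CMPair CMAV)
open Pool.Agent.H204R3.CM (IsHodge)

noncomputable section

theorem IsOfType.finrank {Y : AV} {P : CMPair} (h : IsOfType Y P) :
    finrank ℚ P.E = finrank ℚ Y.H := by
  obtain ⟨e, -, -⟩ := h
  exact e.finrank_eq.symm

/-- The type of the curve with complex multiplication by `√-d`. -/
theorem exists_typeE {d : ℚ} (hd : 0 < d) : ∃ (F : AV) (P : CMPair), finrank ℚ F.H = 2 ∧
    Unbalanced F d ∧ IsOfType F P := by
  let h := pmE (M := 1) (fun _ => hd) (l := fun _ => 1) (fun _ => one_pos)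
  obtain ⟨P, hP⟩ := exists_type h (simple_of 1 h (simpleE hd) one_pos) (cmE hd)
  exact ⟨AVZ h, P, by rw [finrank_AVZ], unbE hd, hP⟩

/-- The type attached to a simple factor. -/
theorem exists_pair {a : ℕ} {Z' : Matrix (Fin a) (Fin a) ℂ} (h' : PM Z')
    (hs : IsSimple (AVZ h')) (ha : 0 < a)
    (hLC : ¬HasCMult (AVZ h') → ∀ U, IrS (LZ Z') U → LC h' U) :
    ∃ P : CMPair, finrank ℚ P.E ≤ 2 * a ∧
      (∀ Y, HasCMult Y → Isg Y (AVZ h') → IsOfType Y P) ∧
      ∀ (E : AV) (d : ℚ), finrank ℚ E.H = 2 → Unbalanced E d → ¬HasCMult (AVZ h') →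
        Unbalanced (AVZ h') d → IsOfType E P := by
  by_cases hc : HasCMult (AVZ h')
  · obtain ⟨P, hP⟩ := exists_type h' hs hc
    refine ⟨P, ?_, fun Y _ hY => IsOfType.isg hP hY, fun _ _ _ _ h0 => absurd hc h0⟩
    rw [IsOfType.finrank hP, finrank_AVZ]
  · rcases lemN h' hs ha (hLC hc) with h1 | ⟨d₁, hd₁, h1⟩
    · obtain ⟨F, P, h2, -, h4⟩ := exists_typeE one_pos
      refine ⟨P, ?_, fun Y hY h0 => absurd (h0.symm.hasCM hY) hc, fun _ d _ _ _ h0 =>
        absurd h0 (h1 d)⟩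
      rw [IsOfType.finrank h4, h2]
      omega
    · obtain ⟨F, P, h2, h3, h4⟩ := exists_typeE hd₁
      refine ⟨P, ?_, fun Y hY h0 => absurd (h0.symm.hasCM hY) hc, fun E d hE hE' _ h0 => ?_⟩
      · rw [IsOfType.finrank h4, h2]
        omega
      · obtain ⟨b, hb⟩ := h1 d h0
        exact IsOfType.isg h4 (ell_isg hE h2 hE' h3 hb)

theorem sameType_refl (P : CMPair) : Pool.Agent.W547.LN.SameType P P :=
  ⟨RingEquiv.refl _, fun ψ => Iff.rfl⟩

/-- One block. -/
theorem one_block (C : CMAV) (hC : finrank ℚ C.H1 ≤ 10) :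
    Pool.Agent.W547.UB.IndependentBlocks C fun _ => () where
  good _ := .five C hC fun i _ => ⟨i, sameType_refl _⟩
  independent _ := ⟨cc, fun i φ => ⟨fun _ => rfl, fun h => absurd rfl h⟩⟩

/-- The case of local conditions. -/
theorem case_cm (𝒜 : Sys) (A : AV) (hdim : finrank ℚ A.H ≤ 10)
    (hA : ∀ (g : ℕ) (Z : Matrix (Fin g) (Fin g) ℂ) (h : PM Z), IsFactor (AVZ h) A →
      ¬HasCMult (AVZ h) → 0 < g → ∀ U, IrS (LZ Z) U → LC h U)
    (X : AV) (hX : ∀ Y, IsFactor Y X → IsFactor Y A) : 𝒜.AllHodge X := by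
  obtain ⟨ι, _, _, a, Z', h', ha, hsim, hsum, hfac, hall⟩ := exists_factors A
  have hP := fun i => exists_pair (h' i) (hsim i) (ha i) fun hc => hA _ _ (h' i) (hfac i) hc (ha i)
  choose P hP1 hP2 hP3 using hP
  let C : CMAV := ⟨ι, P⟩
  have hC : finrank ℚ C.H1 ≤ 10 := by
    have h1 : finrank ℚ C.H1 = ∑ i, finrank ℚ (P i).E := finrank_pi_fintype ℚ
    rw [h1]
    refine le_trans (Finset.sum_le_sum fun i _ => hP1 i) ?_
    rw [← Finset.mul_sum, ← hsum]
    exact hdim
  refine main_cm 𝒜 X (fun g Z h i hi hinj hs hg => ?_) fun Q _ _ a' Z'' h'' hc =>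
    prod_blocks 𝒜 (one_block C hC) h'' fun q => ?_
  · by_cases hcm : HasCMult (AVZ h)
    · exact Or.inr hcm
    · exact Or.inl ⟨hcm, hA g Z h (hX _ ⟨hs, i, hi, hinj⟩) hcm hg⟩
  · obtain ⟨h3, h4, h5 | ⟨h5, d, h6, Y', hY', hn, h7⟩⟩ := hc q
    · obtain ⟨i, hi⟩ := hall _ (hX _ h5)
      exact ⟨i, hP2 i _ h4 hi⟩
    · obtain ⟨i, hi⟩ := hall _ (hX _ hY')
      exact ⟨i, hP3 i _ d h5 h6 (fun h0 => hn (hi.hasCM h0)) (hi.symm.unb h7)⟩

/-- Elliptic curves in the standard form. -/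
theorem to_one {m : ℕ} (hm : m = 1) {Z : Matrix (Fin m) (Fin m) ℂ} (h : PM Z)
    (hs : IsSimple (AVZ h)) : ∃ (Z₁ : Matrix (Fin 1) (Fin 1) ℂ) (h₁ : PM Z₁),
      IsSimpleAV Z₁ ∧ Isg (AVZ h) (AVZ h₁) := by
  subst hm
  exact ⟨Z, h, simple_AVZ h hs, LinearEquiv.refl ℚ _, ⟨LinearMap.id, fun v => rfl⟩,
    ⟨LinearMap.id, fun v => rfl⟩⟩

/-- **Hodge classes on the abelian varieties with the factors of an abelian variety of dimension at
most five.** -/
theorem main_all (𝒜 : Sys) (A : AV) (hdim : finrank ℚ A.H ≤ 10)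
    (hM : ∀ Y, IsFactor Y A → finrank ℚ Y.H = 8 →
      (∀ f : Module.End ℚ Y.H, IsHom Y Y f → ∃ c : ℚ, f = c • 1) → FullHodge Y)
    (X : AV) (hX : ∀ Y, IsFactor Y X → IsFactor Y A) : 𝒜.AllHodge X := by
  by_cases hA : ∀ (g : ℕ) (Z : Matrix (Fin g) (Fin g) ℂ) (h : PM Z), IsFactor (AVZ h) A →
      ¬HasCMult (AVZ h) → 0 < g → ∀ U, IrS (LZ Z) U → LC h U
  · exact case_cm 𝒜 A hdim hA X hX
  push Not at hA
  obtain ⟨g, Z, h, hf, hcm, hg, U, hU, hLC⟩ := hA
  obtain ⟨ι, _, _, a, Z', h', ha, hsim, hsum, hfac, hall⟩ := exists_factors A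
  obtain ⟨i, hi⟩ := hall _ hf
  have hcm' : ¬HasCM Z := fun h0 => hcm (cm_AVZ h h0)
  have hai : g = a i := by
    have h1 := hi.finrank
    rw [finrank_AVZ, finrank_AVZ] at h1
    omega
  have hle : ∑ j, a j ≤ 5 := by omega
  have hsplit : ∑ j, a j = a i + ∑ j ∈ Finset.univ.erase i, a j :=
    (Finset.add_sum_erase Finset.univ a (Finset.mem_univ i)).symm
  have hsub : ∀ j, j ≠ i → a j ≤ ∑ j ∈ Finset.univ.erase i, a j := fun j hj =>
    Finset.single_le_sum (fun k _ => Nat.zero_le (a k)) (Finset.mem_erase.2 ⟨hj, Finset.mem_univ j⟩)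
  have hg5 : g ≤ 5 := by omega
  have hcases : g ≤ 3 ∨ g = 4 ∨ g = 5 := by omega
  rcases hcases with hg3 | hg4 | hg5
  · exact absurd (SmallDim.lc h hf.1 hg ⟨by rw [finrank_AVZ]; omega, fun h1 => absurd h1 hcm⟩ hU)
      hLC
  · subst hg4
    -- the elliptic curve
    obtain ⟨ZE', hE, hsE, hall'⟩ : ∃ (ZE' : Matrix (Fin 1) (Fin 1) ℂ) (hE : PM ZE'),
        IsSimpleAV ZE' ∧ ∀ Y, IsFactor Y A → Isg Y (AVZ h) ∨ Isg Y (AVZ hE) := by
      by_cases hj : ∃ j, j ≠ i
      · obtain ⟨j, hj⟩ := hj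
        have haj : a j = 1 := by
          have h1 := hsub j hj
          have h2 := ha j
          omega
        obtain ⟨Z₁, h₁, hs₁, hj₁⟩ := to_one haj (h' j) (hsim j)
        refine ⟨Z₁, h₁, hs₁, fun Y hY => ?_⟩
        obtain ⟨k, hk⟩ := hall Y hY
        by_cases hki : k = i
        · subst hki
          exact Or.inl (hk.trans hi.symm)
        · have hkj : k = j := by
            by_contra hkj
            have h3 : ∑ l ∈ ({k, j} : Finset ι), a l ≤ ∑ l ∈ Finset.univ.erase i, a l := by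
              refine Finset.sum_le_sum_of_subset fun l hl => ?_
              rw [Finset.mem_insert, Finset.mem_singleton] at hl
              rw [Finset.mem_erase]
              rcases hl with rfl | rfl
              · exact ⟨hki, Finset.mem_univ _⟩
              · exact ⟨hj, Finset.mem_univ _⟩
            rw [Finset.sum_pair hkj] at h3
            have h4 := ha k
            omega
          subst hkj
          exact Or.inr (hk.trans hj₁)
      · push Not at hj
        refine ⟨_, pmE (M := 1) (fun _ => one_pos) (l := fun _ => 1) (fun _ => one_pos),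
          simpleE one_pos, fun Y hY => ?_⟩
        obtain ⟨k, hk⟩ := hall Y hY
        rw [hj k] at hk
        exact Or.inl (hk.trans hi.symm)
    rcases alt_four h hf.1 hcm' (fun h1 => hM _ hf (by rw [finrank_AVZ]) h1) with
      h1 | ⟨V, hV, hd, hn⟩ | ⟨V, b, hV, hd, h0, hb, hsym⟩
    · exact absurd (h1 U hU) hLC
    · exact gamma_all 𝒜 h (simple_AVZ h hf.1) hV hd hn hE hsE X fun Y hY => hall' Y (hX Y hY)
    · exact beta_all' 𝒜 h hV hd h0 hb hsym hE hsE X fun Y hY => hall' Y (hX Y hY)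
  · subst hg5
    rcases alt_five h hf.1 hcm' with h1 | ⟨φ, d, k, hrk, htr⟩
    · exact absurd (h1 U hU) hLC
    · refine alpha_all h k (by norm_num) hrk htr 𝒜 X fun Y hY => ?_
      obtain ⟨j, hj⟩ := hall Y (hX Y hY)
      by_cases hji : j = i
      · subst hji
        exact hj.trans hi.symm
      · exfalso
        have h1 := hsub j hji
        have h2 := ha j
        omega

/-- **Hodge classes on the abelian varieties with the factors of an abelian variety of dimension at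
most five.** -/
theorem main (A : AV) (hdim : finrank ℚ A.H ≤ 10)
    (hM : ∀ Y, IsFactor Y A → finrank ℚ Y.H = 8 →
      (∀ f : Module.End ℚ Y.H, IsHom Y Y f → ∃ c : ℚ, f = c • 1) → FullHodge Y)
    (X : AV) (hX : ∀ Y, IsFactor Y X → IsFactor Y A) {κ : Type} [Finite κ]
    (f : X.H [⋀^κ]→ₗ[ℚ] ℚ) : IsHodge X.per f ↔ Alg X κ f :=
  ⟨fun hf => main_all algSys A hdim hM X hX κ f hf, fun hf => hf.isHodge inferInstance⟩

end

end Pool.Agent.N995
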