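import Mathlib
import Pool.Agent.N995.Alg2

/-!
# Lie algebras of families of two by two matrices, without a choice of bases
-/

set_option linter.unusedSectionVars false

namespace Pool.Agent.N995

open Matrix Module

noncomputable section

/-- There are no common eigenvectors. -/
def NoEig {S : Type*} (τ : S → M2) : Prop := ∀ v : Fin 2 → ℂ, v ≠ 0 → ∃ s, ∀ z : ℂ, τ s *ᵥ v ≠ z • v

theorem NoEig.ne_zero {S : Type*} {τ : S → M2} (h : NoEig τ) : ∃ s, τ s ≠ 0 := by
  obtain ⟨s, hs⟩ := h (Pi.single 0 1) (by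
    intro h0
    have h1 := congrFun h0 0
    simp at h1)
  refine ⟨s, fun h0 => hs 0 ?_⟩
  rw [h0, zero_mulVec, zero_smul]

theorem noEig_of_full {S : Type*} {τ : S → M2} (h0 : ∃ s, τ s = hh) (h1 : ∃ s, τ s 1 0 ≠ 0)
    (h2 : ∃ s, τ s 0 1 ≠ 0) : NoEig τ := by
  intro v hv
  by_contra hcon
  push Not at hcon
  obtain ⟨s0, e0⟩ := h0
  obtain ⟨s1, e1⟩ := h1
  obtain ⟨s2, e2⟩ := h2
  obtain ⟨z, hz⟩ := hcon s0
  rw [e0] at hz
  have a0 := congrFun hz 0
  have a1 := congrFun hz 1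
  simp only [mulVec, dotProduct, Fin.sum_univ_two, hh, Pi.smul_apply, smul_eq_mul] at a0 a1
  simp at a0 a1
  by_cases hv0 : v 0 = 0
  · have hv1 : v 1 ≠ 0 := by
      intro h
      apply hv
      funext i
      fin_cases i
      · exact hv0
      · exact h
    obtain ⟨w, hw⟩ := hcon s2
    have b0 := congrFun hw 0
    simp only [mulVec, dotProduct, Fin.sum_univ_two, Pi.smul_apply, smul_eq_mul, hv0, mul_zero,
      zero_add] at b0
    exact e2 ((mul_eq_zero.1 b0).resolve_right hv1)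
  · have hv1 : v 1 = 0 := by
      have hz1 : z = 1 := by
        have h3 : (z - 1) * v 0 = 0 := by linear_combination -a0
        exact sub_eq_zero.1 ((mul_eq_zero.1 h3).resolve_right hv0)
      rw [hz1, one_mul] at a1
      linear_combination (-1 / 2 : ℂ) * a1
    obtain ⟨w, hw⟩ := hcon s1
    have b1 := congrFun hw 1
    simp only [mulVec, dotProduct, Fin.sum_univ_two, Pi.smul_apply, smul_eq_mul, hv1, mul_zero,
      add_zero] at b1
    exact e1 ((mul_eq_zero.1 b1).resolve_right hv0)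

/-- A basis in which one matrix is diagonal. -/
theorem NoEig.exists_full {S : Type*} {τ : S → M2} (h : NoEig τ) (htr : ∀ s, (τ s).trace = 0)
    (hsq : ∀ s, τ s = 0 ∨ τ s * τ s = 1) : ∃ g g' : M2, g * g' = 1 ∧ g' * g = 1 ∧
      (∃ s, g' * τ s * g = hh) ∧ (∃ s, (g' * τ s * g) 1 0 ≠ 0) ∧ ∃ s, (g' * τ s * g) 0 1 ≠ 0 := by
  obtain ⟨s, hs⟩ := h.ne_zero
  obtain ⟨g, g', h1, h2, -, h3⟩ := exists_diag (τ s) (htr s) ((hsq s).resolve_left hs)
  have key : ∀ i : Fin 2, ∃ s, (g' * τ s * g) (1 - i) i ≠ 0 := by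
    intro i
    have hgi : g *ᵥ (Pi.single i 1 : Fin 2 → ℂ) ≠ 0 := by
      intro h4
      have h5 := congrArg (fun v => g' *ᵥ v) h4
      beta_reduce at h5
      rw [mulVec_mulVec, h2, one_mulVec, mulVec_zero] at h5
      have h6 := congrFun h5 i
      simp at h6
    obtain ⟨t, ht⟩ := h _ hgi
    refine ⟨t, fun h4 => ht ((g' * τ t * g) i i) ?_⟩
    have h5 : (g' * τ t * g) *ᵥ (Pi.single i 1 : Fin 2 → ℂ) =
        (g' * τ t * g) i i • (Pi.single i 1 : Fin 2 → ℂ) := by
      funext j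
      rw [mulVec_single_one, Pi.smul_apply, smul_eq_mul]
      change (g' * τ t * g) j i = _
      by_cases hj : j = i
      · subst hj
        simp
      · have hj' : j = 1 - i := by
          fin_cases i <;> fin_cases j <;> first | rfl | exact absurd rfl hj
        rw [hj', h4, Pi.single_eq_of_ne (hj' ▸ hj), mul_zero]
    have h6 : τ t *ᵥ (g *ᵥ (Pi.single i 1 : Fin 2 → ℂ)) =
        g *ᵥ ((g' * τ t * g) *ᵥ (Pi.single i 1 : Fin 2 → ℂ)) := by
      rw [mulVec_mulVec, mulVec_mulVec]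
      congr 1
      rw [← Matrix.mul_assoc, ← Matrix.mul_assoc, h1, Matrix.one_mul]
    rw [h6, h5, mulVec_smul]
  exact ⟨g, g', h1, h2, ⟨s, h3⟩, key 0, key 1⟩

/-- The Lie algebra contains all families of traceless matrices. -/
theorem all_mem' {I : Type*} (g : Submodule ℂ ((Fin 3 → M2) × (I → ℂ)))
    (hbr : ∀ x ∈ g, ∀ y ∈ g, ((fun c => x.1 c * y.1 c - y.1 c * x.1 c), (0 : I → ℂ)) ∈ g)
    {S : Type*} (d : S → (Fin 3 → M2) × (I → ℂ)) (hd : ∀ s, d s ∈ g)
    (htr : ∀ s c, ((d s).1 c).trace = 0)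
    (hsq : ∀ s c, (d s).1 c = 0 ∨ (d s).1 c * (d s).1 c = 1)
    (h01 : ∀ s, (d s).1 0 = 0 ∨ (d s).1 1 = 0) (f0 : NoEig fun s => (d s).1 0)
    (f1 : NoEig fun s => (d s).1 1)
    (f2 : (∀ s, (d s).1 2 = 0) ∨ (NoEig (fun s => (d s).1 2) ∧ ∀ s, (d s).1 2 ≠ 0))
    (T : Fin 3 → M2) (hT : ∀ c, (T c).trace = 0)
    (hT2 : NoEig (fun s => (d s).1 2) ∨ T 2 = 0) : (T, (0 : I → ℂ)) ∈ g := by
  have key : ∀ c : Fin 3, ∃ G G' : M2, G * G' = 1 ∧ G' * G = 1 ∧ (NoEig (fun s => (d s).1 c) →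
      (∃ s, G' * (d s).1 c * G = hh) ∧ (∃ s, (G' * (d s).1 c * G) 1 0 ≠ 0) ∧
        ∃ s, (G' * (d s).1 c * G) 0 1 ≠ 0) := by
    intro c
    by_cases hc : NoEig (fun s => (d s).1 c)
    · obtain ⟨G, G', h1, h2, h3⟩ := hc.exists_full (fun s => htr s c) (fun s => hsq s c)
      exact ⟨G, G', h1, h2, fun _ => h3⟩
    · exact ⟨1, 1, Matrix.one_mul _, Matrix.one_mul _, fun h => absurd h hc⟩
  choose G G' h1 h2 h3 using key
  have hconj : ∀ c (A B : M2), G c * A * G' c * (G c * B * G' c) = G c * (A * B) * G' c := by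
    intro c A B
    calc G c * A * G' c * (G c * B * G' c) = G c * A * (G' c * G c) * B * G' c := by
          simp only [Matrix.mul_assoc]
    _ = _ := by
          rw [h2]
          simp only [Matrix.mul_assoc, Matrix.one_mul]
  let g₁ : Submodule ℂ ((Fin 3 → M2) × (I → ℂ)) :=
    { carrier := {x | ((fun c => G c * x.1 c * G' c), x.2) ∈ g}
      add_mem' := fun {x y} hx hy => by
        have h4 := g.add_mem hx hy
        rw [Prod.mk_add_mk] at h4
        have h5 : ((fun c => G c * (x + y).1 c * G' c), (x + y).2) =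
            (((fun c => G c * x.1 c * G' c) + fun c => G c * y.1 c * G' c), x.2 + y.2) := by
          rw [Prod.mk.injEq]
          refine ⟨?_, rfl⟩
          funext c
          rw [Prod.fst_add, Pi.add_apply, Pi.add_apply, Matrix.mul_add, Matrix.add_mul]
        change ((fun c => G c * (x + y).1 c * G' c), (x + y).2) ∈ g
        rwa [h5]
      zero_mem' := by
        have h5 : ((fun c => G c * (0 : (Fin 3 → M2) × (I → ℂ)).1 c * G' c),
            (0 : (Fin 3 → M2) × (I → ℂ)).2) = 0 := by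
          rw [Prod.mk_eq_zero]
          refine ⟨?_, rfl⟩
          funext c
          rw [Prod.fst_zero, Pi.zero_apply, Matrix.mul_zero, Matrix.zero_mul]
        change ((fun c => G c * (0 : (Fin 3 → M2) × (I → ℂ)).1 c * G' c),
            (0 : (Fin 3 → M2) × (I → ℂ)).2) ∈ g
        rw [h5]
        exact g.zero_mem
      smul_mem' := fun r x hx => by
        have h4 := g.smul_mem r hx
        have h5 : ((fun c => G c * (r • x).1 c * G' c), (r • x).2) =
            r • ((fun c => G c * x.1 c * G' c), x.2) := by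
          refine Prod.ext ?_ rfl
          funext c
          change G c * (r • x.1 c) * G' c = r • (G c * x.1 c * G' c)
          rw [Matrix.mul_smul, Matrix.smul_mul]
        change ((fun c => G c * (r • x).1 c * G' c), (r • x).2) ∈ g
        rwa [h5] }
  have hg₁ : ∀ x, x ∈ g₁ ↔ ((fun c => G c * x.1 c * G' c), x.2) ∈ g := fun x => Iff.rfl
  have hbr₁ : ∀ x ∈ g₁, ∀ y ∈ g₁,
      ((fun c => x.1 c * y.1 c - y.1 c * x.1 c), (0 : I → ℂ)) ∈ g₁ := by
    intro x hx y hy
    have h4 := hbr _ ((hg₁ x).1 hx) _ ((hg₁ y).1 hy)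
    rw [hg₁]
    have h5 : (fun c => G c * (x.1 c * y.1 c - y.1 c * x.1 c) * G' c) = fun c =>
        G c * x.1 c * G' c * (G c * y.1 c * G' c) - G c * y.1 c * G' c * (G c * x.1 c * G' c) := by
      funext c
      rw [hconj, hconj, Matrix.mul_sub, Matrix.sub_mul]
    change ((fun c => G c * (x.1 c * y.1 c - y.1 c * x.1 c) * G' c), (0 : I → ℂ)) ∈ g
    rw [h5]
    exact h4
  have hback : ∀ c (A : M2), G c * (G' c * A * G c) * G' c = A := by
    intro c A
    calc G c * (G' c * A * G c) * G' c = (G c * G' c) * A * (G c * G' c) := by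
          simp only [Matrix.mul_assoc]
    _ = A := by rw [h1, Matrix.one_mul, Matrix.mul_one]
  let d₁ : S → (Fin 3 → M2) × (I → ℂ) := fun s => ((fun c => G' c * (d s).1 c * G c), (d s).2)
  have hd₁ : ∀ s, d₁ s ∈ g₁ := by
    intro s
    rw [hg₁]
    have h4 : (fun c => G c * (d₁ s).1 c * G' c) = (d s).1 := by
      funext c
      exact hback c _
    rw [h4]
    exact hd s
  have hfull : ∀ c, NoEig (fun s => (d s).1 c) → Full d₁ c := fun c hc => h3 c hc
  have htr₁ : ∀ s c, ((d₁ s).1 c).trace = 0 := by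
    intro s c
    change (G' c * (d s).1 c * G c).trace = 0
    rw [Matrix.trace_mul_comm, ← Matrix.mul_assoc, h1, Matrix.one_mul, htr]
  have hz : ∀ s c, (d s).1 c = 0 → (d₁ s).1 c = 0 := by
    intro s c h
    change G' c * (d s).1 c * G c = 0
    rw [h, Matrix.mul_zero, Matrix.zero_mul]
  have h4 := all_mem g₁ hbr₁ d₁ hd₁ htr₁
    (fun s => (h01 s).imp (hz s 0) (hz s 1)) (hfull 0 f0) (hfull 1 f1) (by
      rcases f2 with f2 | ⟨f2, f3⟩
      · exact Or.inl fun s => hz s 2 (f2 s)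
      · refine Or.inr ⟨hfull 2 f2, fun s h => f3 s ?_⟩
        rw [← hback 2 ((d s).1 2)]
        change G' 2 * (d s).1 2 * G 2 = 0 at h
        rw [h, Matrix.mul_zero, Matrix.zero_mul]) (fun c => G' c * T c * G c) (fun c => by
      rw [Matrix.trace_mul_comm, ← Matrix.mul_assoc, h1, Matrix.one_mul, hT])
    (hT2.imp (hfull 2) fun h => by
      rw [h, Matrix.mul_zero, Matrix.zero_mul])
  rw [hg₁] at h4
  have h5 : (fun c => G c * (G' c * T c * G c) * G' c) = T := by
    funext c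
    exact hback c _
  have h6 : ((fun c => G c * (G' c * T c * G c) * G' c), (0 : I → ℂ)) ∈ g := h4
  rwa [h5] at h6

end

end Pool.Agent.N995
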