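import Mathlib
import Pool.Agent.N995.Tt1
import Pool.Agent.N995.Main
import Pool.Agent.N183.TS.Main

/-!
# The second Lie algebra on the models
-/

set_option linter.unusedSectionVars false

namespace Pool.Agent.N995

open Matrix Module Pool.Agent.W437.HC Pool.Agent.W437.HD Pool.Agent.TH504.CB Pool.Agent.Y90
open Pool.Agent.R915
open Pool.Agent.W548.Odd hiding cv
open Pool.Agent.W437.HP (cK cK_mul cK_one cK_sum)
open Pool.Agent.H204R3.SP (Kills)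
open Pool.Agent.Y224.TS (TD LT_gen LT_br LT_le kills_LT)
open Pool.Agent.N183.TS (SF tdF commF trace_fac)

noncomputable section

variable {G : ℕ} {Z : Matrix (Fin G) (Fin G) ℂ} {S : Set (Matrix (Fin G ⊕ Fin G) (Fin G ⊕ Fin G) ℂ)}

/-- The traces agree on the commutant. -/
def Mt (Z : Matrix (Fin G) (Fin G) ℂ) (D : Matrix (Fin G ⊕ Fin G) (Fin G ⊕ Fin G) ℂ)
    (σ : ℂ ≃+* ℂ) : Prop :=
  ∀ P : Matrix (Fin G ⊕ Fin G) (Fin G ⊕ Fin G) ℂ, (∀ X ∈ LZ Z, P * X = X * P) →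
    (P * D).trace = (P * DS Z σ).trace

theorem Mt.fac {a : ℕ} {Z' : Matrix (Fin a) (Fin a) ℂ}
    {E : Matrix (Fin G ⊕ Fin G) (Fin a ⊕ Fin a) ℚ} {F : Matrix (Fin a ⊕ Fin a) (Fin G ⊕ Fin G) ℚ}
    (hf : Fac Z Z' E F) (h : TD Z S) {D : Matrix (Fin G ⊕ Fin G) (Fin G ⊕ Fin G) ℂ}
    {σ : ℂ ≃+* ℂ} (hm : Mt Z D σ) : Mt Z' (cK ℂ F * D * cK ℂ E) σ := by
  intro P hP
  have hDS : cK ℂ F * DS Z σ * cK ℂ E = DS Z' σ := by
    rw [hf.fds, Matrix.mul_assoc, hf.fe', Matrix.mul_one]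
  rw [trace_fac hf h, hm _ ((commF hf h P).2.1 hP), ← hDS, trace_fac hf h]

/-- Equivariant maps from a piece of a factor. -/
theorem lab {a : ℕ} {Z' : Matrix (Fin a) (Fin a) ℂ}
    {E : Matrix (Fin G ⊕ Fin G) (Fin a ⊕ Fin a) ℚ} {F : Matrix (Fin a ⊕ Fin a) (Fin G ⊕ Fin G) ℚ}
    (hf : Fac Z Z' E F) (h : TD Z S) {n : Type} [Fintype n] [DecidableEq n]
    {α : (ℂ ≃+* ℂ) → Matrix n n ℂ} {x : Matrix (Fin a ⊕ Fin a) n ℂ}
    {x' : Matrix n (Fin a ⊕ Fin a) ℂ} (hx : x' * x = 1)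
    (hx' : ∀ σ, x' * DS Z' σ = α σ * x')
    {D : Matrix (Fin G ⊕ Fin G) (Fin G ⊕ Fin G) ℂ} (hD : D ∈ S)
    {ι : Matrix (Fin G ⊕ Fin G) n ℂ} (hι : ∀ σ, DS Z σ * ι = ι * α σ) :
    D * ι = ι * (x' * (cK ℂ F * D * cK ℂ E) * x) := by
  have h1 : ∀ X ∈ LZ Z, (ι * x' * cK ℂ F) * X = X * (ι * x' * cK ℂ F) := by
    refine comm_LZ fun σ => ?_
    calc DS Z σ * (ι * x' * cK ℂ F) = (DS Z σ * ι) * x' * cK ℂ F := by
          simp only [Matrix.mul_assoc]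
    _ = ι * (x' * DS Z' σ) * cK ℂ F := by
          rw [hι, hx']
          simp only [Matrix.mul_assoc]
    _ = ι * x' * (DS Z' σ * cK ℂ F) := by simp only [Matrix.mul_assoc]
    _ = ι * x' * (cK ℂ F * DS Z σ) := by rw [hf.fds]
    _ = _ := by simp only [Matrix.mul_assoc]
  have h2 : (ι * x' * cK ℂ F) * D = D * (ι * x' * cK ℂ F) := (h.comm _).2 h1 D hD
  calc D * ι = D * ι * (x' * (cK ℂ F * cK ℂ E) * x) := by
        rw [hf.fe', Matrix.mul_one, hx, Matrix.mul_one]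
  _ = (D * (ι * x' * cK ℂ F)) * cK ℂ E * x := by simp only [Matrix.mul_assoc]
  _ = _ := by
        rw [← h2]
        simp only [Matrix.mul_assoc]

/-- Subspaces of pieces which are stable under the second Lie algebra. -/
theorem stab_piece (h : TD Z S) (hZ : PM Z) {n : Type} [Fintype n] [DecidableEq n]
    {α : (ℂ ≃+* ℂ) → Matrix n n ℂ} {x : Matrix (Fin G ⊕ Fin G) n ℂ}
    {x' : Matrix n (Fin G ⊕ Fin G) ℂ} (hx : x' * x = 1) (hα : ∀ σ, DS Z σ * x = x * α σ)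
    {A : Matrix (Fin G ⊕ Fin G) (Fin G ⊕ Fin G) ℂ → Matrix n n ℂ} (hA : ∀ D ∈ S, D * x = x * A D)
    (K : Submodule ℂ (n → ℂ)) (hK : ∀ D ∈ S, ∀ c ∈ K, A D *ᵥ c ∈ K) (σ : ℂ ≃+* ℂ) :
    ∀ c ∈ K, α σ *ᵥ c ∈ K := by
  have h1 : Stab (Y224.TS.LT S) (K.map (mulVecLin x)) := by
    intro X hX
    let L : Submodule ℂ (Matrix (Fin G ⊕ Fin G) (Fin G ⊕ Fin G) ℂ) :=
      { carrier := {X | ∀ u ∈ K.map (mulVecLin x), X *ᵥ u ∈ K.map (mulVecLin x)}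
        add_mem' := fun {X Y} hX hY u hu => by
          rw [add_mulVec]
          exact Submodule.add_mem _ (hX u hu) (hY u hu)
        zero_mem' := fun u _ => by
          rw [zero_mulVec]
          exact Submodule.zero_mem _
        smul_mem' := fun c X hX u hu => by
          rw [smul_mulVec]
          exact Submodule.smul_mem _ _ (hX u hu) }
    have hL : Y224.TS.LT S ≤ L := by
      refine LT_le ?_ ?_
      · rintro D hD _ ⟨c, hc, rfl⟩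
        refine ⟨A D *ᵥ c, hK D hD c hc, ?_⟩
        rw [mulVecLin_apply, mulVecLin_apply, mulVec_mulVec, mulVec_mulVec, hA D hD]
      · intro P hP Q hQ u hu
        rw [sub_mulVec, ← mulVec_mulVec, ← mulVec_mulVec]
        exact Submodule.sub_mem _ (hP _ (hQ u hu)) (hQ _ (hP u hu))
    exact hL hX
  intro c hc
  obtain ⟨c', hc', h2⟩ := (h.stab hZ).1 h1 _ (DS_mem σ) _ ⟨c, hc, rfl⟩
  rw [mulVecLin_apply, mulVecLin_apply, mulVec_mulVec, hα] at h2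
  have h3 := congrArg (fun v => x' *ᵥ v) h2
  beta_reduce at h3
  rw [mulVec_mulVec, mulVec_mulVec, ← Matrix.mul_assoc, hx, one_mulVec, Matrix.one_mul] at h3
  rw [← h3]
  exact hc'

/-- No common eigenvectors. -/
theorem noEig_T (h : TD Z S) (hZ : PM Z) {α : (ℂ ≃+* ℂ) → M2} {x : Matrix (Fin G ⊕ Fin G) (Fin 2) ℂ}
    {x' : Matrix (Fin 2) (Fin G ⊕ Fin G) ℂ} (hx : x' * x = 1) (hα : ∀ σ, DS Z σ * x = x * α σ)
    {A : Matrix (Fin G ⊕ Fin G) (Fin G ⊕ Fin G) ℂ → M2} (hA : ∀ D ∈ S, D * x = x * A D)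
    (hn : NoEig α) : NoEig fun D : S => A D := by
  intro v hv
  by_contra hcon
  push Not at hcon
  obtain ⟨σ, hσ⟩ := hn v hv
  have h1 := stab_piece h hZ hx hα hA (Submodule.span ℂ {v}) (fun D hD c hc => by
    obtain ⟨r, rfl⟩ := Submodule.mem_span_singleton.1 hc
    obtain ⟨z, hz⟩ := hcon ⟨D, hD⟩
    rw [mulVec_smul, hz]
    exact Submodule.smul_mem _ _ (Submodule.smul_mem _ _ (Submodule.mem_span_singleton_self v)))
    σ v (Submodule.mem_span_singleton_self v)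
  obtain ⟨z, hz⟩ := Submodule.mem_span_singleton.1 h1
  exact hσ z hz.symm

/-- Change of the index set for a factor. -/
theorem NoEig.ofSF {a : ℕ} {E : Matrix (Fin G ⊕ Fin G) (Fin a ⊕ Fin a) ℚ}
    {F : Matrix (Fin a ⊕ Fin a) (Fin G ⊕ Fin G) ℚ}
    {A : Matrix (Fin a ⊕ Fin a) (Fin a ⊕ Fin a) ℂ → M2} (hn : NoEig fun D : SF E F S => A D) :
    NoEig fun D : S => A (cK ℂ F * D.1 * cK ℂ E) := by
  intro v hv
  obtain ⟨⟨_, D, hD, rfl⟩, h1⟩ := hn v hv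
  exact ⟨⟨D, hD⟩, h1⟩

theorem NoEig.add {I : Type*} {τ : I → M2} (hn : NoEig τ) (c : I → ℂ) :
    NoEig fun s => τ s + c s • (1 : M2) := by
  intro v hv
  obtain ⟨s, hs⟩ := hn v hv
  refine ⟨s, fun z hz => hs (z - c s) ?_⟩
  rw [add_mulVec, smul_mulVec, one_mulVec] at hz
  rw [sub_smul, ← hz, add_sub_cancel_right]

section KT

variable {B : Type} [Fintype B] [DecidableEq B]

/-- The operators on the model which come from the second Lie algebra. -/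
def KT (Z : Matrix (Fin G) (Fin G) ℂ) (S : Set (Matrix (Fin G ⊕ Fin G) (Fin G ⊕ Fin G) ℂ))
    (D0 : (ℂ ≃+* ℂ) → Matrix B B ℂ) : Submodule ℂ (Matrix B B ℂ) where
  carrier := {A | ∃ X ∈ Y224.TS.LT S, ∀ ι, EqI Z D0 ι → X * ι = ι * A}
  add_mem' := by
    rintro A A' ⟨X, hX, h⟩ ⟨X', hX', h'⟩
    exact ⟨X + X', Submodule.add_mem _ hX hX', fun ι hι => by
      rw [Matrix.add_mul, Matrix.mul_add, h ι hι, h' ι hι]⟩
  zero_mem' := ⟨0, Submodule.zero_mem _, fun ι _ => by rw [Matrix.zero_mul, Matrix.mul_zero]⟩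
  smul_mem' := by
    rintro c A ⟨X, hX, h⟩
    exact ⟨c • X, Submodule.smul_mem _ _ hX, fun ι hι => by
      rw [Matrix.smul_mul, Matrix.mul_smul, h ι hι]⟩

variable {D0 : (ℂ ≃+* ℂ) → Matrix B B ℂ}

theorem KT_br {A C : Matrix B B ℂ} (hA : A ∈ KT Z S D0) (hC : C ∈ KT Z S D0) :
    A * C - C * A ∈ KT Z S D0 := by
  obtain ⟨X, hX, h1⟩ := hA
  obtain ⟨Y, hY, h2⟩ := hC
  refine ⟨X * Y - Y * X, LT_br hX hY, fun ι hι => ?_⟩
  rw [Matrix.sub_mul, Matrix.mul_sub, Matrix.mul_assoc, h2 ι hι, ← Matrix.mul_assoc, h1 ι hι,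
    Matrix.mul_assoc Y, h1 ι hι, ← Matrix.mul_assoc Y, h2 ι hι, Matrix.mul_assoc, Matrix.mul_assoc]

theorem DS_of_KT (hcov : Cov Z D0) {σ : ℂ ≃+* ℂ} (h : D0 σ ∈ KT Z S D0) : DS Z σ ∈ Y224.TS.LT S := by
  obtain ⟨X, hX, h1⟩ := h
  have h2 : X = DS Z σ := by
    have h3 : ∀ M ∈ Submodule.span ℂ {M | ∃ ι q, EqI Z D0 ι ∧ EqQ Z D0 q ∧ M = ι * q},
        X * M = DS Z σ * M := by
      intro M hM
      induction hM using Submodule.span_induction with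
      | mem M hM =>
        obtain ⟨ι, q, hι, -, rfl⟩ := hM
        rw [← Matrix.mul_assoc, ← Matrix.mul_assoc, h1 ι hι, hι σ]
      | zero => rw [Matrix.mul_zero, Matrix.mul_zero]
      | add M M' _ _ hM hM' => rw [Matrix.mul_add, Matrix.mul_add, hM, hM']
      | smul c M _ hM => rw [Matrix.mul_smul, Matrix.mul_smul, hM]
    have h4 := h3 1 hcov
    rwa [Matrix.mul_one, Matrix.mul_one] at h4
  rwa [← h2]

end KT

section model

variable {O P Λ : Type} [Fintype O] [DecidableEq O] [Fintype P] [DecidableEq P] [Fintype Λ]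
  [DecidableEq Λ] (kO : (Fin 3 → M2) →ₗ[ℂ] Matrix O O ℂ) (cl : P → Fin 3)

/-- The action on the blocks determines the action on the model. -/
theorem cols {D : Matrix (Fin G ⊕ Fin G) (Fin G ⊕ Fin G) ℂ} {x : (Fin 3 → M2) × (P ⊕ Λ → ℂ)}
    {ι : Matrix (Fin G ⊕ Fin G) (BB O P Λ) ℂ}
    (h1 : ∀ y : Matrix (Fin G ⊕ Fin G) O ℂ, y = ι * slO' O P Λ → D * y = y * kO x.1)
    (h2 : ∀ p (y : Matrix (Fin G ⊕ Fin G) (Fin 2) ℂ), y = ι * slP' O Λ p →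
      D * y = y * (x.1 (cl p) + x.2 (Sum.inl p) • (1 : M2)))
    (h3 : ∀ i (y : Matrix (Fin G ⊕ Fin G) Unit ℂ), y = ι * slL' O P i →
      D * y = y * (x.2 (Sum.inr i) • (1 : Matrix Unit Unit ℂ))) :
    D * ι = ι * Th kO cl x := by
  ext i b
  rcases b with b | ⟨p, b⟩ | b
  · have h4 := congrFun (congrFun (h1 _ rfl) i) b
    rw [← Matrix.mul_assoc, Matrix.mul_assoc ι, ← Th_slO kO cl x, ← Matrix.mul_assoc, mul_slO',
      mul_slO'] at h4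
    exact h4
  · have h4 := congrFun (congrFun (h2 p _ rfl) i) b
    rw [← Matrix.mul_assoc, Matrix.mul_assoc ι, ← Th_slP kO cl x, ← Matrix.mul_assoc, mul_slP',
      mul_slP'] at h4
    exact h4
  · have h4 := congrFun (congrFun (h3 b _ rfl) i) ()
    rw [← Matrix.mul_assoc, Matrix.mul_assoc ι, ← Th_slL kO cl x, ← Matrix.mul_assoc, mul_slL',
      mul_slL'] at h4
    exact h4

/-- **The conjugates of the complex structure belong to the second Lie algebra.** -/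
theorem model_T (h : TD Z S)
    (hkO : ∀ T T' : Fin 3 → M2, kO (fun c => T c * T' c - T' c * T c) = kO T * kO T' - kO T' * kO T)
    (d : (ℂ ≃+* ℂ) → (Fin 3 → M2) × (P ⊕ Λ → ℂ)) (htr : ∀ σ c, ((d σ).1 c).trace = 0)
    (hcov : Cov Z (fun σ => Th kO cl (d σ))) (T : S → Fin 3 → M2)
    (hT : ∀ (D : S) σ, Mt Z D σ → ∀ ι, EqI Z (fun σ => Th kO cl (d σ)) ι →
      D.1 * ι = ι * Th kO cl (T D, (d σ).2))
    (hTt : ∀ D c, (T D c).trace = 0) (hT01 : ∀ D, T D 0 = 0 ∨ T D 1 = 0)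
    (hTs : ∀ D c, T D c = 0 ∨ T D c * T D c = 1)
    (f0 : NoEig fun D => T D 0) (f1 : NoEig fun D => T D 1)
    (f2 : ((∀ D, T D 2 = 0) ∧ ∀ σ, (d σ).1 2 = 0) ∨ (NoEig (fun D => T D 2) ∧ ∀ D, T D 2 ≠ 0))
    (σ : ℂ ≃+* ℂ) : DS Z σ ∈ Y224.TS.LT S := by
  refine DS_of_KT hcov ?_
  let g : Submodule ℂ ((Fin 3 → M2) × (P ⊕ Λ → ℂ)) :=
    (KT Z S (fun σ => Th kO cl (d σ))).comap (Th kO cl)
  have hbr : ∀ x ∈ g, ∀ y ∈ g, ((fun c => x.1 c * y.1 c - y.1 c * x.1 c), (0 : P ⊕ Λ → ℂ)) ∈ g := by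
    intro x hx y hy
    change Th kO cl _ ∈ KT Z S _
    rw [Th_br kO cl hkO]
    exact KT_br hx hy
  let I : Type := {x : S × (ℂ ≃+* ℂ) // Mt Z x.1 x.2}
  let d' : I → (Fin 3 → M2) × (P ⊕ Λ → ℂ) := fun x => (T x.1.1, (d x.1.2).2)
  have hd' : ∀ x, d' x ∈ g := fun x => ⟨x.1.1, LT_gen x.1.1.2, hT _ _ x.2⟩
  have hne : ∀ c, NoEig (fun D => T D c) → NoEig fun x : I => (d' x).1 c := by
    intro c hc v hv
    obtain ⟨D, h1⟩ := hc v hv
    obtain ⟨ρ, hρ⟩ := h.tr D D.2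
    exact ⟨⟨(D, ρ), hρ⟩, h1⟩
  have key : ∀ T' : Fin 3 → M2, (∀ c, (T' c).trace = 0) → (NoEig (fun D => T D 2) ∨ T' 2 = 0) →
      (T', (0 : P ⊕ Λ → ℂ)) ∈ g := by
    intro T' h1 h2
    refine all_mem' g hbr d' hd' (fun x c => hTt _ c) (fun x c => hTs _ c)
      (fun x => hT01 _) (hne 0 f0) (hne 1 f1) ?_ T' h1 (h2.imp (hne 2) id)
    rcases f2 with f2 | f2
    · exact Or.inl fun x => f2.1 _
    · exact Or.inr ⟨hne 2 f2.1, fun x => f2.2 _⟩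
  obtain ⟨D, hD, hσ⟩ := h.ex σ
  have h1 := hd' ⟨(⟨D, hD⟩, σ), hσ⟩
  have h2 := key ((d σ).1 - T ⟨D, hD⟩) (fun c => by
    rw [Pi.sub_apply, trace_sub, htr, hTt, sub_zero]) (by
    rcases f2 with f2 | f2
    · right
      rw [Pi.sub_apply, f2.1, f2.2 σ, sub_zero]
    · exact Or.inl f2.1)
  have h3 := g.add_mem h1 h2
  have h4 : d' ⟨(⟨D, hD⟩, σ), hσ⟩ + ((d σ).1 - T ⟨D, hD⟩, (0 : P ⊕ Λ → ℂ)) = d σ := by
    refine Prod.ext ?_ ?_
    · change T ⟨D, hD⟩ + ((d σ).1 - T ⟨D, hD⟩) = (d σ).1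
      abel
    · change (d σ).2 + 0 = (d σ).2
      rw [add_zero]
  rw [h4] at h3
  exact h3

end model

/-- Killed forms. -/
theorem kill_of_mem (h : ∀ σ, DS Z σ ∈ Y224.TS.LT S) {κ : Type} [Fintype κ] [DecidableEq κ]
    (φ : MultilinearMap ℂ (fun _ : κ => Fin G ⊕ Fin G → ℂ) ℂ)
    (hφ : ∀ D ∈ S, Kills (ph (Fin G ⊕ Fin G) D) φ) :
    ∀ X ∈ LZ Z, Kills (ph (Fin G ⊕ Fin G) X) φ := by
  intro X hX
  have h1 : LZ Z ≤ Y224.TS.LT S := LZ_le h fun A hA C hC => LT_br hA hC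
  exact kills_LT hφ (h1 hX)

end

end Pool.Agent.N995
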