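import Mathlib
import Pool.Agent.N995.Tt2

/-!
# The second Lie algebra on the fourfolds with two-dimensional submodules
-/

set_option linter.unusedSectionVars false

namespace Pool.Agent.N995

open Matrix Module Pool.Agent.W437.HC Pool.Agent.W437.HD Pool.Agent.TH504.CB Pool.Agent.Y90
open Pool.Agent.R915
open Pool.Agent.W548.Odd hiding cv
open Pool.Agent.W437.HP (cK cK_mul cK_one cK_sum)
open Pool.Agent.Y224.TS (TD LT_gen LT_br LT_le kills_LT)
open Pool.Agent.N183.TS (SF tdF commF trace_fac)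

noncomputable section

/-- Operators which preserve a piece. -/
theorem piece_act {g : ℕ} {Z : Matrix (Fin g) (Fin g) ℂ}
    {S : Set (Matrix (Fin g ⊕ Fin g) (Fin g ⊕ Fin g) ℂ)} (h : TD Z S) {n : Type} [Fintype n]
    [DecidableEq n] {α : (ℂ ≃+* ℂ) → Matrix n n ℂ} {x y : Matrix (Fin g ⊕ Fin g) n ℂ}
    {x' : Matrix n (Fin g ⊕ Fin g) ℂ} (hx : x' * x = 1)
    (hαx' : ∀ σ, x' * DS Z σ = α σ * x') (hαy : ∀ σ, DS Z σ * y = y * α σ)
    {D : Matrix (Fin g ⊕ Fin g) (Fin g ⊕ Fin g) ℂ} (hD : D ∈ S) :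
    D * y = y * (x' * D * x) := by
  have h1 : (y * x') * D = D * (y * x') := by
    refine (h.comm _).2 (comm_LZ fun σ => ?_) D hD
    rw [← Matrix.mul_assoc, hαy, Matrix.mul_assoc, ← hαx', Matrix.mul_assoc]
  calc D * y = D * y * (x' * x) := by rw [hx, Matrix.mul_one]
  _ = (D * (y * x')) * x := by simp only [Matrix.mul_assoc]
  _ = _ := by
        rw [← h1]
        simp only [Matrix.mul_assoc]

theorem piece_sq {g : ℕ} {Z : Matrix (Fin g) (Fin g) ℂ}
    {S : Set (Matrix (Fin g ⊕ Fin g) (Fin g ⊕ Fin g) ℂ)} (h : TD Z S) {n : Type} [Fintype n]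
    [DecidableEq n] {x : Matrix (Fin g ⊕ Fin g) n ℂ} {x' : Matrix n (Fin g ⊕ Fin g) ℂ}
    (hx : x' * x = 1) {D : Matrix (Fin g ⊕ Fin g) (Fin g ⊕ Fin g) ℂ} (hD : D ∈ S)
    (h1 : D * x = x * (x' * D * x)) : (x' * D * x) * (x' * D * x) = 1 := by
  calc (x' * D * x) * (x' * D * x) = x' * D * (x * (x' * D * x)) := by
        simp only [Matrix.mul_assoc]
  _ = x' * (D * D) * x := by
        rw [← h1]
        simp only [Matrix.mul_assoc]
  _ = 1 := by rw [h.sq D hD, Matrix.mul_one, hx]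

theorem piece_tr {g : ℕ} {Z : Matrix (Fin g) (Fin g) ℂ} {n : Type} [Fintype n]
    [DecidableEq n] {α : (ℂ ≃+* ℂ) → Matrix n n ℂ} {x : Matrix (Fin g ⊕ Fin g) n ℂ}
    {x' : Matrix n (Fin g ⊕ Fin g) ℂ} (hx : x' * x = 1)
    (hαx : ∀ σ, DS Z σ * x = x * α σ) (hαx' : ∀ σ, x' * DS Z σ = α σ * x')
    {D : Matrix (Fin g ⊕ Fin g) (Fin g ⊕ Fin g) ℂ} {σ : ℂ ≃+* ℂ} (hm : Mt Z D σ) :
    (x' * D * x).trace = (α σ).trace := by
  have h1 : ∀ X ∈ LZ Z, (x * x') * X = X * (x * x') := by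
    refine comm_LZ fun ρ => ?_
    rw [← Matrix.mul_assoc, hαx, Matrix.mul_assoc, ← hαx', Matrix.mul_assoc]
  have h2 := hm _ h1
  have h3 : ∀ C : Matrix (Fin g ⊕ Fin g) (Fin g ⊕ Fin g) ℂ,
      (x * x' * C).trace = (x' * C * x).trace := by
    intro C
    rw [Matrix.mul_assoc, Matrix.trace_mul_comm]
  rw [h3, h3] at h2
  rw [h2, hαx', Matrix.mul_assoc, hx, Matrix.mul_one]

section gam

variable {Z : Matrix (Fin 4) (Fin 4) ℂ} {X : Fin 2 × Bool → Matrix (Fin 4 ⊕ Fin 4) (Fin 2) ℂ}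
  {τ : Fin 2 → (ℂ ≃+* ℂ) → M2} {ε : Fin 2 → (ℂ ≃+* ℂ) → ℤ}
  {S : Set (Matrix (Fin 4 ⊕ Fin 4) (Fin 4 ⊕ Fin 4) ℂ)}

theorem Gm0.pin_X (k : Gm0 Z X τ ε) (p : Fin 2 × Bool) : pin X p * X p = 1 := by
  ext a b
  have h1 : (pin X p * X p) a b = (pinv X * pmx X) (p, a) (p, b) := rfl
  rw [h1, k.inv', Matrix.one_apply, Matrix.one_apply]
  simp

/-- The traceless part of the action on a piece. -/
def TG (X : Fin 2 × Bool → Matrix (Fin 4 ⊕ Fin 4) (Fin 2) ℂ)
    (D : Matrix (Fin 4 ⊕ Fin 4) (Fin 4 ⊕ Fin 4) ℂ) (c : Fin 2) : M2 :=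
  pin X (c, true) * D * X (c, true) - ((pin X (c, true) * D * X (c, true)).trace / 2) • (1 : M2)

theorem TG_tr (D : Matrix (Fin 4 ⊕ Fin 4) (Fin 4 ⊕ Fin 4) ℂ) (c : Fin 2) :
    (TG X D c).trace = 0 := by
  unfold TG
  rw [trace_sub, trace_smul, trace_one, Fintype.card_fin, smul_eq_mul]
  push_cast
  ring

variable (k : Gm0 Z X τ ε) (h : TD Z S) {D : Matrix (Fin 4 ⊕ Fin 4) (Fin 4 ⊕ Fin 4) ℂ}
  (hD : D ∈ S)
include k h hD

theorem Gm0.actP (p : Fin 2 × Bool) : D * X p = X p * (pin X p * D * X p) :=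
  piece_act h (k.pin_X p) (fun σ => k.pin_mul p σ) (fun σ => k.ax σ p) hD

variable {σ : ℂ ≃+* ℂ} (hm : Mt Z D σ)
include hm

theorem Gm0.trT (p : Fin 2 × Bool) :
    (pin X p * D * X p).trace = 2 * ((sg p.2 * ε p.1 σ : ℤ) : ℂ) := by
  rw [piece_tr (k.pin_X p) (fun σ => k.ax σ p) (fun σ => k.pin_mul p σ) hm]
  unfold aop
  rw [trace_add, (k.pc p.1).tr, trace_smul, trace_one, Fintype.card_fin, smul_eq_mul]
  push_cast
  ring

/-- The action on the pieces. -/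
theorem Gm0.actD (p : Fin 2 × Bool) : pin X p * D * X p =
    TG X D p.1 + ((sg p.2 * ε p.1 σ : ℤ) : ℂ) • (1 : M2) := by
  obtain ⟨c, s⟩ := p
  have ht := k.trT h hD hm (c, true)
  have hf := k.trT h hD hm (c, false)
  have hTG : pin X (c, true) * D * X (c, true) =
      TG X D c + ((sg true * ε c σ : ℤ) : ℂ) • (1 : M2) := by
    unfold TG
    rw [ht, mul_div_cancel_left₀ _ (two_ne_zero), sub_add_cancel]
  cases s
  · -- duality
    obtain ⟨At, hAt⟩ : ∃ A, A = pin X (c, true) * D * X (c, true) := ⟨_, rfl⟩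
    obtain ⟨Af, hAf⟩ : ∃ A, A = pin X (c, false) * D * X (c, false) := ⟨_, rfl⟩
    have h1 : D * X (c, true) = X (c, true) * At := by rw [hAt]; exact k.actP h hD (c, true)
    have h2 : D * X (c, false) = X (c, false) * Af := by rw [hAf]; exact k.actP h hD (c, false)
    have h3 : Atᵀ * epM + epM * Af = 0 := by
      have e1 : Atᵀ * epM = (D * X (c, true))ᵀ * Om 4 ℂ * X (c, false) := by
        rw [h1, transpose_mul, ← (k.pc c).oxy]
        simp only [Matrix.mul_assoc]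
      have e2 : epM * Af = (X (c, true))ᵀ * Om 4 ℂ * (D * X (c, false)) := by
        rw [h2, ← (k.pc c).oxy]
        simp only [Matrix.mul_assoc]
      rw [e1, e2]
      ext a b
      rw [Matrix.add_apply, om_mat, om_mat, Matrix.zero_apply]
      exact h.sp D hD (fun i => X (c, true) i a) (fun i => X (c, false) i b)
    have h4 : Af = TG X D c + ((sg false * ε c σ : ℤ) : ℂ) • (1 : M2) := by
      have e3 := ep_inv (TG X D c) (TG_tr D c)
      rw [← hAt] at hTG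
      rw [hTG, transpose_add, transpose_smul, transpose_one, Matrix.add_mul, Matrix.smul_mul,
        Matrix.one_mul] at h3
      have e4 : epM * (Af - TG X D c - ((sg false * ε c σ : ℤ) : ℂ) • (1 : M2)) = 0 := by
        rw [Matrix.mul_sub, Matrix.mul_sub, Matrix.mul_smul, Matrix.mul_one]
        have e5 : ((sg false * ε c σ : ℤ) : ℂ) = -((sg true * ε c σ : ℤ) : ℂ) := by
          simp [sg]
        rw [e5, neg_smul]
        have e6 := congrArg₂ (· - ·) h3 e3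
        beta_reduce at e6
        rw [sub_zero] at e6
        rw [← e6]
        abel
      have e5 := congrArg (fun M => epM * M) e4
      beta_reduce at e5
      rw [← Matrix.mul_assoc, epM_sq, Matrix.mul_zero, Matrix.neg_mul, Matrix.one_mul,
        neg_eq_zero, sub_sub, sub_eq_zero] at e5
      exact e5
    rw [← hAf]
    exact h4
  · exact hTG

theorem Gm0.altD (c : Fin 2) : (ε c σ = 0 ∧ TG X D c * TG X D c = 1) ∨
    (TG X D c = 0 ∧ ε c σ ≠ 0) := by
  have h1 := piece_sq h (k.pin_X (c, true)) hD (k.actP h hD (c, true))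
  rw [k.actD h hD hm (c, true)] at h1
  have e : ((sg (c, true).2 * ε (c, true).1 σ : ℤ) : ℂ) = (ε c σ : ℂ) := by simp [sg]
  rw [e] at h1
  rcases sq_cases _ _ (TG_tr D c) h1 with ⟨h2, h3⟩ | ⟨h2, h3⟩
  · exact Or.inl ⟨by exact_mod_cast h2, h3⟩
  · refine Or.inr ⟨h2, fun h4 => ?_⟩
    rw [h4, Int.cast_zero] at h3
    rcases h3 with h3 | h3
    · exact zero_ne_one h3
    · exact absurd h3 (by norm_num)

end gam

theorem Gm.noEigT {Z : Matrix (Fin 4) (Fin 4) ℂ}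
    {X : Fin 2 × Bool → Matrix (Fin 4 ⊕ Fin 4) (Fin 2) ℂ} {τ : Fin 2 → (ℂ ≃+* ℂ) → M2}
    {ε : Fin 2 → (ℂ ≃+* ℂ) → ℤ} {S : Set (Matrix (Fin 4 ⊕ Fin 4) (Fin 4 ⊕ Fin 4) ℂ)}
    (k : Gm Z X τ ε) (h : TD Z S) (hZ : PM Z) (c : Fin 2) : NoEig fun D : S => TG X D c := by
  have h1 : NoEig (τ c) := noEig_of_full (k.full c).1 (k.full c).2.1 (k.full c).2.2
  have h2 : NoEig fun σ => aop τ ε σ (c, true) := h1.add fun σ => ((sg true * ε c σ : ℤ) : ℂ)
  have h3 := noEig_T h hZ (k.pin_X (c, true)) (fun σ => k.ax σ (c, true))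
    (A := fun D => pin X (c, true) * D * X (c, true)) (fun D hD => k.actP h hD (c, true)) h2
  have h4 := h3.add fun D => -((pin X (c, true) * D.1 * X (c, true)).trace / 2)
  have h5 : (fun D : S => TG X D c) = fun D : S => pin X (c, true) * D.1 * X (c, true) +
      (-((pin X (c, true) * D.1 * X (c, true)).trace / 2)) • (1 : M2) := by
    funext D
    unfold TG
    rw [neg_smul, sub_eq_add_neg]
  rw [h5]
  exact h4

end

end Pool.Agent.N995
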