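import Mathlib
import Pool.Agent.N995.Tt3

/-!
# The second Lie algebra on the fourfolds of type III and on elliptic curves
-/

set_option linter.unusedSectionVars false

namespace Pool.Agent.N995

open Matrix Module Pool.Agent.W437.HC Pool.Agent.W437.HD Pool.Agent.TH504.CB Pool.Agent.Y90
open Pool.Agent.R915
open Pool.Agent.W548.Odd hiding cv
open Pool.Agent.W437.HP (cK cK_mul cK_one cK_sum)
open Pool.Agent.Y224.TS (TD LT_gen LT_br LT_le kills_LT)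
open Pool.Agent.N183.TS (SF tdF commF trace_fac)

noncomputable section

section beta

variable {Z : Matrix (Fin 4) (Fin 4) ℂ} {W : Fin 2 → Matrix (Fin 4 ⊕ Fin 4) (Fin 2 × Fin 2) ℂ}
  {T : Fin 2 → (ℂ ≃+* ℂ) → M2} {S : Set (Matrix (Fin 4 ⊕ Fin 4) (Fin 4 ⊕ Fin 4) ℂ)}

theorem Bt0.wp_one (k : Bt0 Z W T) (j : Fin 2) : wp W j * W j = 1 := by
  rw [k.wp_w, if_pos rfl]

theorem Bt0.actW (k : Bt0 Z W T) (h : TD Z S) {D : Matrix (Fin 4 ⊕ Fin 4) (Fin 4 ⊕ Fin 4) ℂ}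
    (hD : D ∈ S) (j : Fin 2) : D * W j = W j * (wp W 0 * D * W 0) :=
  piece_act h (k.wp_one 0) (fun σ => k.wp_mul 0 σ) (fun σ => k.ax j σ) hD

theorem Bt0.exists_T (k : Bt0 Z W T) (h : TD Z S) {D : Matrix (Fin 4 ⊕ Fin 4) (Fin 4 ⊕ Fin 4) ℂ}
    (hD : D ∈ S) : ∃ T' : Fin 3 → M2, (∀ c, (T' c).trace = 0) ∧ T' 2 = 0 ∧
      wp W 0 * D * W 0 = kOB T' := by
  refine so_kOB _ ?_
  obtain ⟨A, hA⟩ : ∃ A, A = wp W 0 * D * W 0 := ⟨_, rfl⟩
  have h0 : D * W 0 = W 0 * A := by rw [hA]; exact k.actW h hD 0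
  have h1 : D * W 1 = W 1 * A := by rw [hA]; exact k.actW h hD 1
  rw [← hA]
  have e1 : Aᵀ * QB = (D * W 0)ᵀ * Om 4 ℂ * W 1 := by
    rw [h0, transpose_mul, ← k.o01]
    simp only [Matrix.mul_assoc]
  have e2 : QB * A = (W 0)ᵀ * Om 4 ℂ * (D * W 1) := by
    rw [h1, ← k.o01]
    simp only [Matrix.mul_assoc]
  rw [e1, e2]
  ext a b
  rw [Matrix.add_apply, om_mat, om_mat, Matrix.zero_apply]
  exact h.sp D hD (fun i => W 0 i a) (fun i => W 1 i b)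

theorem kOB_mulVec (T : Fin 3 → M2) (c : Fin 2 × Fin 2 → ℂ) (a b : Fin 2) :
    (kOB T *ᵥ c) (a, b) = T 0 a 0 * c (0, b) + T 0 a 1 * c (1, b) +
      (T 1 b 0 * c (a, 0) + T 1 b 1 * c (a, 1)) := by
  rw [kOB_apply, Matrix.mulVec, dotProduct, Fintype.sum_prod_type, Fin.sum_univ_two,
    Fin.sum_univ_two, Fin.sum_univ_two]
  simp only [Matrix.add_apply, kroneckerMap_apply, Matrix.one_apply]
  fin_cases a <;> fin_cases b <;> simp <;> ring

/-- Multiples of a vector. -/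
theorem prop_vec {v : Fin 2 → ℂ} (hv : v ≠ 0) {x y : ℂ} (h : v 1 * x = v 0 * y) :
    ∃ c, x = c * v 0 ∧ y = c * v 1 := by
  by_cases h0 : v 0 = 0
  · have h1 : v 1 ≠ 0 := by
      intro h1
      apply hv
      funext i
      fin_cases i
      · exact h0
      · exact h1
    refine ⟨y * (v 1)⁻¹, ?_, ?_⟩
    · rw [h0, zero_mul] at h
      rw [h0, mul_zero]
      exact (mul_eq_zero.1 h).resolve_left h1
    · rw [mul_assoc, inv_mul_cancel₀ h1, mul_one]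
  · refine ⟨x * (v 0)⁻¹, ?_, ?_⟩
    · rw [mul_assoc, inv_mul_cancel₀ h0, mul_one]
    · have h2 : x * (v 0)⁻¹ * v 1 = (v 0)⁻¹ * (v 1 * x) := by ring
      rw [h2, h, ← mul_assoc, inv_mul_cancel₀ h0, one_mul]

/-- The tensors with a factor proportional to a vector. -/
def KV (c : Fin 2) (v : Fin 2 → ℂ) : Submodule ℂ (Fin 2 × Fin 2 → ℂ) where
  carrier := {f | ∀ b, v 1 * f (if c = 0 then (0, b) else (b, 0)) =
    v 0 * f (if c = 0 then (1, b) else (b, 1))}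
  add_mem' := fun {f f'} h h' b => by
    rw [Pi.add_apply, Pi.add_apply, mul_add, mul_add, h b, h' b]
  zero_mem' := fun b => by
    rw [Pi.zero_apply, Pi.zero_apply, mul_zero, mul_zero]
  smul_mem' := fun r f h b => by
    have h1 := h b
    rw [Pi.smul_apply, Pi.smul_apply, smul_eq_mul, smul_eq_mul]
    linear_combination r * h1

theorem KV_ne (c : Fin 2) {v : Fin 2 → ℂ} (hv : v ≠ 0) : KV c v ≠ ⊥ ∧ KV c v ≠ ⊤ := by
  constructor
  · intro h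
    have h1 : (fun p : Fin 2 × Fin 2 => if c = 0 then v p.1 else v p.2) ∈ KV c v := by
      intro b
      by_cases hc : c = 0
      · simp only [hc, if_true]
        ring
      · simp only [hc, if_false]
        ring
    rw [h, Submodule.mem_bot] at h1
    apply hv
    funext i
    have h2 := congrFun h1 (i, i)
    simpa using h2
  · intro h
    have hm : ∀ f, f ∈ KV c v := by
      intro f
      rw [h]
      trivial
    have h0 := hm (Pi.single (if c = 0 then (1, 0) else (0, 1)) 1) 0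
    have h1 := hm (Pi.single (0, 0) 1) 0
    have h2 : v 0 = 0 := by
      fin_cases c
      · simpa using h0.symm
      · simpa using h0.symm
    have h3 : v 1 = 0 := by
      fin_cases c
      · simpa [h2] using h1
      · simpa [h2] using h1
    apply hv
    funext i
    fin_cases i
    · exact h2
    · exact h3

theorem KV_stab (c : Fin 2) {v : Fin 2 → ℂ} (hv : v ≠ 0) {T : Fin 3 → M2} {z : ℂ}
    (hz : T c.castSucc *ᵥ v = z • v) : ∀ f ∈ KV c v, kOB T *ᵥ f ∈ KV c v := by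
  intro f hf b
  have z0 := congrFun hz 0
  have z1 := congrFun hz 1
  simp only [mulVec, dotProduct, Fin.sum_univ_two, Pi.smul_apply, smul_eq_mul] at z0 z1
  have k0 := hf 0
  have k1 := hf 1
  obtain ⟨r, hr0, hr1⟩ := prop_vec hv (hf b)
  fin_cases c
  · simp only [Fin.zero_eta, if_true, kOB_mulVec] at *
    change T 0 0 0 * v 0 + T 0 0 1 * v 1 = z * v 0 at z0
    change T 0 1 0 * v 0 + T 0 1 1 * v 1 = z * v 1 at z1
    rw [hr0, hr1]
    linear_combination r * v 1 * z0 - r * v 0 * z1 + T 1 b 0 * k0 + T 1 b 1 * k1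
  · have hc : ¬(⟨1, by norm_num⟩ : Fin 2) = 0 := by decide
    simp only [hc, if_false, kOB_mulVec] at *
    change T 1 0 0 * v 0 + T 1 0 1 * v 1 = z * v 0 at z0
    change T 1 1 0 * v 0 + T 1 1 1 * v 1 = z * v 1 at z1
    rw [hr0, hr1]
    linear_combination r * v 1 * z0 - r * v 0 * z1 + T 0 b 0 * k0 + T 0 b 1 * k1

theorem Bt0.noEigT (k : Bt0 Z W T) (h : TD Z S) (hZ : PM Z) (T' : S → Fin 3 → M2)
    (hT : ∀ D : S, wp W 0 * D.1 * W 0 = kOB (T' D)) (c : Fin 2) :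
    NoEig fun D => T' D c.castSucc := by
  intro v hv
  by_contra hcon
  push Not at hcon
  have h1 := stab_piece h hZ (k.wp_one 0) (fun σ => k.ax 0 σ)
    (A := fun D => wp W 0 * D * W 0) (fun D hD => k.actW h hD 0) (KV c v) (fun D hD f hf => by
      obtain ⟨z, hz⟩ := hcon ⟨D, hD⟩
      have h2 := hT ⟨D, hD⟩
      rw [h2]
      exact KV_stab c hv hz f hf)
  rcases k.irr (KV c v) h1 with h2 | h2
  · exact (KV_ne c hv).1 h2
  · exact (KV_ne c hv).2 h2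

end beta

/-- The part of the model which belongs to the elliptic curves. -/
structure EP {G : ℕ} (Z : Matrix (Fin G) (Fin G) ℂ)
    (S : Set (Matrix (Fin G ⊕ Fin G) (Fin G ⊕ Fin G) ℂ)) (PE Λ : Type) (τ2 : (ℂ ≃+* ℂ) → M2)
    (wL : (ℂ ≃+* ℂ) → Λ → ℂ) (T2 : S → M2) : Prop where
  p : PE → ∀ (D : S) (ι : Matrix (Fin G ⊕ Fin G) (Fin 2) ℂ), (∀ ρ, DS Z ρ * ι = ι * τ2 ρ) →
    D.1 * ι = ι * T2 D
  l : ∀ (i : Λ) (D : S) (σ : ℂ ≃+* ℂ), Mt Z D σ → ∀ u : Matrix (Fin G ⊕ Fin G) Unit ℂ,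
    (∀ ρ, DS Z ρ * u = u * (wL ρ i • (1 : Matrix Unit Unit ℂ))) →
      D.1 * u = u * (wL σ i • (1 : Matrix Unit Unit ℂ))
  t2 : ∀ σ, (τ2 σ).trace = 0
  tt : ∀ D, (T2 D).trace = 0
  ts : ∀ D, T2 D = 0 ∨ T2 D * T2 D = 1
  f2 : ((∀ D, T2 D = 0) ∧ ∀ σ, τ2 σ = 0) ∨ (NoEig T2 ∧ ∀ D, T2 D ≠ 0)

section ep

variable {G : ℕ} {Z : Matrix (Fin G) (Fin G) ℂ} {S : Set (Matrix (Fin G ⊕ Fin G) (Fin G ⊕ Fin G) ℂ)}

theorem EP.none : EP Z S Empty Empty (fun _ => 0) (fun _ i => i.elim) (fun _ => 0) where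
  p i := i.elim
  l i := i.elim
  t2 _ := trace_zero _ _
  tt _ := trace_zero _ _
  ts _ := Or.inl rfl
  f2 := Or.inl ⟨fun _ => rfl, fun _ => rfl⟩

variable {ZE : Matrix (Fin 1) (Fin 1) ℂ} {E : Matrix (Fin G ⊕ Fin G) (Fin 1 ⊕ Fin 1) ℚ}
  {F : Matrix (Fin 1 ⊕ Fin 1) (Fin G ⊕ Fin G) ℚ} {x : Matrix (Fin 1 ⊕ Fin 1) (Fin 2) ℂ}
  {x' : Matrix (Fin 2) (Fin 1 ⊕ Fin 1) ℂ} {τE : (ℂ ≃+* ℂ) → M2}

theorem EP.ncm (h : TD Z S) (hZ : PM Z) (hE : PM ZE) (hf : Fac Z ZE E F) (k : EB ZE x x' τE)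
    (hn : (∃ σ, τE σ 1 0 ≠ 0) ∧ ∃ σ, τE σ 0 1 ≠ 0) :
    EP Z S Unit Empty τE (fun _ i => i.elim) (fun D => x' * (cK ℂ F * D.1 * cK ℂ E) * x) := by
  have hT := tdF hf h hZ hE
  have hsq : ∀ D : S, (x' * (cK ℂ F * D.1 * cK ℂ E) * x) * (x' * (cK ℂ F * D.1 * cK ℂ E) * x) =
      1 := by
    intro D
    have hD' : cK ℂ F * D.1 * cK ℂ E ∈ SF E F S := ⟨D.1, D.2, rfl⟩
    exact piece_sq hT k.xx' hD' (by rw [← Matrix.mul_assoc, ← Matrix.mul_assoc, k.xx, Matrix.one_mul])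
  refine ⟨fun _ D ι hι => lab hf h k.xx' k.ax' D.2 hι, fun i => i.elim, k.tr, fun D => ?_,
    fun D => Or.inr (hsq D), Or.inr ⟨?_, fun D h0 => ?_⟩⟩
  · obtain ⟨σ, hσ⟩ := h.tr D.1 D.2
    have hσ' : Mt ZE (cK ℂ F * D.1 * cK ℂ E) σ := Mt.fac hf h hσ
    rw [piece_tr k.xx' k.ax k.ax' hσ', k.tr]
  · have h1 := noEig_T hT hE k.xx' k.ax (A := fun D => x' * D * x) (fun D _ => by
      rw [← Matrix.mul_assoc, ← Matrix.mul_assoc, k.xx, Matrix.one_mul])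
      (noEig_of_full ⟨_, k.one⟩ hn.1 hn.2)
    exact NoEig.ofSF (A := fun D => x' * D * x) h1
  · have h1 := hsq D
    rw [h0, Matrix.mul_zero] at h1
    exact zero_ne_one h1

theorem EP.cm (h : TD Z S) (hZ : PM Z) (hE : PM ZE) (hf : Fac Z ZE E F) (k : EB ZE x x' τE)
    {dE : ℚ} (hτ : ∀ σ, τE σ = (rho dE σ : ℂ) • hh) :
    EP Z S Empty Bool (fun _ => 0) (fun σ i => ((sg i * rho dE σ : ℤ) : ℂ)) (fun _ => 0) := by
  have hT := tdF hf h hZ hE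
  refine ⟨fun i => i.elim, fun i D σ hσ u hu => ?_, fun _ => trace_zero _ _,
    fun _ => trace_zero _ _, fun _ => Or.inl rfl, Or.inl ⟨fun _ => rfl, fun _ => rfl⟩⟩
  obtain ⟨y, hy⟩ : ∃ y : Matrix (Fin 1 ⊕ Fin 1) Unit ℂ, y = Matrix.of fun v _ => x v (bi i) :=
    ⟨_, rfl⟩
  obtain ⟨y', hy'⟩ : ∃ y' : Matrix Unit (Fin 1 ⊕ Fin 1) ℂ, y' = Matrix.of fun _ v => x' (bi i) v :=
    ⟨_, rfl⟩
  have h1 : y' * y = 1 := by
    ext a b
    have h2 : (y' * y) a b = (x' * x) (bi i) (bi i) := by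
      rw [hy, hy']
      rfl
    rw [h2, k.xx', Matrix.one_apply_eq, Matrix.one_apply_eq]
  have h2 : ∀ ρ, DS ZE ρ * y = y * (((sg i * rho dE ρ : ℤ) : ℂ) • (1 : Matrix Unit Unit ℂ)) := by
    intro ρ
    ext v u
    have h1 := congrFun (congrFun (k.ax ρ) v) (bi i)
    rw [Matrix.mul_smul, Matrix.mul_one, Matrix.smul_apply, smul_eq_mul, hy, of_apply]
    have h2 : (DS ZE ρ * Matrix.of fun v (_ : Unit) => x v (bi i)) v u = (DS ZE ρ * x) v (bi i) :=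
      rfl
    rw [h2, h1, hτ, Matrix.mul_smul, Matrix.smul_apply, smul_eq_mul, Matrix.mul_apply]
    simp only [hh_bi']
    push_cast
    simp only [mul_ite, mul_zero, Finset.sum_ite_eq', Finset.mem_univ, if_true]
    ring
  have h3 : ∀ ρ, y' * DS ZE ρ = (((sg i * rho dE ρ : ℤ) : ℂ) • (1 : Matrix Unit Unit ℂ)) * y' := by
    intro ρ
    ext u v
    have h1 := congrFun (congrFun (k.ax' ρ) (bi i)) v
    rw [Matrix.smul_mul, Matrix.one_mul, Matrix.smul_apply, smul_eq_mul, hy', of_apply]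
    have h2 : ((Matrix.of fun (_ : Unit) v => x' (bi i) v) * DS ZE ρ) u v =
      (x' * DS ZE ρ) (bi i) v := rfl
    rw [h2, h1, hτ, Matrix.smul_mul, Matrix.smul_apply, smul_eq_mul, Matrix.mul_apply]
    simp only [hh_bi]
    push_cast
    simp only [ite_mul, zero_mul, Finset.sum_ite_eq', Finset.mem_univ, if_true]
    ring
  have h4 := lab hf h h1 h3 D.2 hu
  have hσ' : Mt ZE (cK ℂ F * D.1 * cK ℂ E) σ := Mt.fac hf h hσ
  have h5 := piece_tr h1 h2 h3 hσ'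
  have h6 : y' * (cK ℂ F * D.1 * cK ℂ E) * y =
      ((sg i * rho dE σ : ℤ) : ℂ) • (1 : Matrix Unit Unit ℂ) := by
    ext a b
    rw [Matrix.trace, Matrix.trace, Finset.univ_unique, Finset.sum_singleton,
      Finset.sum_singleton] at h5
    exact h5
  rw [h4, h6]

end ep

end

end Pool.Agent.N995
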