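import Mathlib
import Pool.Agent.N995.Tt4

/-!
# The second Lie algebra on powers of products with the fourfolds
-/

set_option linter.unusedSectionVars false

namespace Pool.Agent.N995

open Matrix Module Pool.Agent.W437.HC Pool.Agent.W437.HD Pool.Agent.TH504.CB Pool.Agent.Y90
open Pool.Agent.R915
open Pool.Agent.W548.Odd hiding cv
open Pool.Agent.W437.HP (cK cK_mul cK_one cK_sum)
open Pool.Agent.Y224.TS (TD LT_gen LT_br LT_le kills_LT)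
open Pool.Agent.N183.TS (SF tdF commF trace_fac)

noncomputable section

variable {G : ℕ} {Z' : Matrix (Fin G) (Fin G) ℂ}
  {S : Set (Matrix (Fin G ⊕ Fin G) (Fin G ⊕ Fin G) ℂ)}
  {PE Λ : Type} [Fintype PE] [DecidableEq PE] [Fintype Λ] [DecidableEq Λ]
  {τ2 : (ℂ ≃+* ℂ) → M2} {wL : (ℂ ≃+* ℂ) → Λ → ℂ} {T2 : S → M2}

section gam

variable {Z : Matrix (Fin 4) (Fin 4) ℂ} {X : Fin 2 × Bool → Matrix (Fin 4 ⊕ Fin 4) (Fin 2) ℂ}
  {τ : Fin 2 → (ℂ ≃+* ℂ) → M2} {ε : Fin 2 → (ℂ ≃+* ℂ) → ℤ}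

/-- The operators of the model. -/
def dGG (τ : Fin 2 → (ℂ ≃+* ℂ) → M2) (ε : Fin 2 → (ℂ ≃+* ℂ) → ℤ) (PE : Type)
    (τ2 : (ℂ ≃+* ℂ) → M2) (wL : (ℂ ≃+* ℂ) → Λ → ℂ) (σ : ℂ ≃+* ℂ) :
    (Fin 3 → M2) × (((Fin 2 × Bool) ⊕ PE) ⊕ Λ → ℂ) :=
  (![τ 0 σ, τ 1 σ, τ2 σ],
    Sum.elim (Sum.elim (fun x => ((sg x.2 * ε x.1 σ : ℤ) : ℂ)) fun _ => 0) (wL σ))

/-- The model covers the fourfold. -/
theorem Gm0.covG (k : Gm0 Z X τ ε) :
    Cov Z (fun σ => Th (0 : (Fin 3 → M2) →ₗ[ℂ] Matrix Empty Empty ℂ)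
      (clc (PE := PE) (id : Fin 2 × Bool → Fin 2 × Bool)) (dGG τ ε PE τ2 wL σ)) :=
  Cov.sel (fun p : Fin 2 × Bool => slP Empty Λ (Sum.inl p))
    (fun p => slP' Empty Λ (Sum.inl p)) (fun p => slP_one _) (fun p σ => aop τ ε σ p)
    (fun p σ => by
      rw [slP_Th]
      congr 1
      exact aop_eq σ _ p)
    (fun p σ => by
      rw [Th_slP]
      congr 1
      exact aop_eq σ _ p)
    X (pin X) (fun p σ => k.ax σ p) (fun p σ => k.pin_mul p σ) k.pin_sum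

variable {E : Matrix (Fin G ⊕ Fin G) (Fin 4 ⊕ Fin 4) ℚ}
  {F : Matrix (Fin 4 ⊕ Fin 4) (Fin G ⊕ Fin G) ℚ}

/-- **The first kind of fourfolds.** -/
theorem Gm.all_T (k : Gm Z X τ ε) (hZ : PM Z) (h : TD Z' S) (hZ' : PM Z') (hf : Fac Z' Z E F)
    (e : EP Z' S PE Λ τ2 wL T2)
    (hcov : Cov Z' (fun σ => Th (0 : (Fin 3 → M2) →ₗ[ℂ] Matrix Empty Empty ℂ)
      (clc (PE := PE) (id : Fin 2 × Bool → Fin 2 × Bool)) (dGG τ ε PE τ2 wL σ)))
    (σ : ℂ ≃+* ℂ) : DS Z' σ ∈ Y224.TS.LT S := by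
  have hT := tdF hf h hZ' hZ
  have hSF : ∀ D : S, cK ℂ F * D.1 * cK ℂ E ∈ SF E F S := fun D => ⟨D.1, D.2, rfl⟩
  have halt : ∀ (D : S) (σ : ℂ ≃+* ℂ), Mt Z' D.1 σ → ∀ c : Fin 2,
      (ε c σ = 0 ∧ TG X (cK ℂ F * D.1 * cK ℂ E) c * TG X (cK ℂ F * D.1 * cK ℂ E) c = 1) ∨
        (TG X (cK ℂ F * D.1 * cK ℂ E) c = 0 ∧ ε c σ ≠ 0) :=
    fun D σ hσ c => k.altD hT (hSF D) (Mt.fac hf h hσ) c
  refine model_T (0 : (Fin 3 → M2) →ₗ[ℂ] Matrix Empty Empty ℂ) (clc (PE := PE) id) h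
    (fun T T' => Subsingleton.elim _ _) (dGG τ ε PE τ2 wL) ?_ hcov
    (fun D => ![TG X (cK ℂ F * D.1 * cK ℂ E) 0, TG X (cK ℂ F * D.1 * cK ℂ E) 1, T2 D])
    (fun D σ hσ ι hι => ?_) ?_ (fun D => ?_) (fun D c => ?_) ?_ ?_ ?_ σ
  · intro s c
    fin_cases c
    · exact (k.pc 0).tr s
    · exact (k.pc 1).tr s
    · exact e.t2 s
  · refine cols _ _ (fun y _ => by ext i j; exact j.elim) (fun p y hy => ?_) (fun i y hy => ?_)
    · rcases p with p | p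
      · have h1 : ∀ ρ, DS Z' ρ * y = y * aop τ ε ρ p := by
          intro ρ
          rw [hy, ← Matrix.mul_assoc, hι ρ, Matrix.mul_assoc, Th_slP, ← Matrix.mul_assoc]
          congr 1
          exact aop_eq ρ _ p
        rw [lab hf h (k.pin_X p) (fun ρ => k.pin_mul p ρ) D.2 h1, k.actD hT (hSF D) (Mt.fac hf h hσ)]
        congr 1
        congr 1
        obtain ⟨c, s⟩ := p
        fin_cases c <;> rfl
      · have h1 : ∀ ρ, DS Z' ρ * y = y * τ2 ρ := by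
          intro ρ
          rw [hy, ← Matrix.mul_assoc, hι ρ, Matrix.mul_assoc, Th_slP, ← Matrix.mul_assoc]
          congr 1
          change τ2 ρ + (0 : ℂ) • (1 : M2) = τ2 ρ
          rw [zero_smul, add_zero]
        rw [e.p p D _ h1]
        congr 1
        change T2 D = T2 D + (0 : ℂ) • (1 : M2)
        rw [zero_smul, add_zero]
    · refine e.l i D σ hσ y fun ρ => ?_
      rw [hy, ← Matrix.mul_assoc, hι ρ, Matrix.mul_assoc, Th_slL, ← Matrix.mul_assoc]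
      rfl
  · intro D c
    fin_cases c
    · exact TG_tr _ _
    · exact TG_tr _ _
    · exact e.tt D
  · obtain ⟨ρ, hρ⟩ := h.tr D.1 D.2
    have h0 := halt D ρ hρ 0
    have h1 := halt D ρ hρ 1
    rcases k.one ρ with ⟨-, h2⟩ | ⟨h2, -⟩
    · right
      rcases h1 with ⟨h3, -⟩ | ⟨h3, -⟩
      · exact absurd h3 h2
      · exact h3
    · left
      rcases h0 with ⟨h3, -⟩ | ⟨h3, -⟩
      · exact absurd h3 h2
      · exact h3
  · obtain ⟨ρ, hρ⟩ := h.tr D.1 D.2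
    fin_cases c
    · exact (halt D ρ hρ 0).symm.imp And.left And.right
    · exact (halt D ρ hρ 1).symm.imp And.left And.right
    · exact e.ts D
  · exact NoEig.ofSF (A := fun D => TG X D 0) (k.noEigT hT hZ 0)
  · exact NoEig.ofSF (A := fun D => TG X D 1) (k.noEigT hT hZ 1)
  · exact e.f2

end gam

section bet

variable {Z : Matrix (Fin 4) (Fin 4) ℂ} {W : Fin 2 → Matrix (Fin 4 ⊕ Fin 4) (Fin 2 × Fin 2) ℂ}
  {T : Fin 2 → (ℂ ≃+* ℂ) → M2}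

/-- The operators of the model. -/
def dBB (T : Fin 2 → (ℂ ≃+* ℂ) → M2) (PE : Type) (τ2 : (ℂ ≃+* ℂ) → M2)
    (wL : (ℂ ≃+* ℂ) → Λ → ℂ) (σ : ℂ ≃+* ℂ) : (Fin 3 → M2) × ((Empty ⊕ PE) ⊕ Λ → ℂ) :=
  (![T 0 σ, T 1 σ, τ2 σ], Sum.elim (fun _ => 0) (wL σ))

theorem kOB_ext {T T' : Fin 3 → M2} (h0 : T 0 = T' 0) (h1 : T 1 = T' 1) : kOB T = kOB T' := by
  rw [kOB_apply, kOB_apply, h0, h1]

/-- The model covers the fourfold. -/
theorem Bt0.covB (k : Bt0 Z W T) : Cov Z (fun σ => Th kOB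
    (clc (PE := PE) (fun i : Empty => i.elim)) (dBB T PE τ2 wL σ)) :=
  Cov.sel (fun _ : Fin 2 => slO (Fin 2 × Fin 2) (Empty ⊕ PE) Λ)
    (fun _ => slO' (Fin 2 × Fin 2) (Empty ⊕ PE) Λ) (fun _ => slO_one) (fun _ σ => bop T σ)
    (fun _ _ => slO_Th _ _ _)
    (fun _ _ => Th_slO _ _ _)
    W (wp W) (fun j σ => k.ax j σ) (fun j σ => k.wp_mul j σ) k.sum

variable {E : Matrix (Fin G ⊕ Fin G) (Fin 4 ⊕ Fin 4) ℚ}
  {F : Matrix (Fin 4 ⊕ Fin 4) (Fin G ⊕ Fin G) ℚ}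

/-- **The second kind of fourfolds.** -/
theorem Bt0.all_T (k : Bt0 Z W T) (hZ : PM Z) (h : TD Z' S) (hZ' : PM Z') (hf : Fac Z' Z E F)
    (e : EP Z' S PE Λ τ2 wL T2)
    (hcov : Cov Z' (fun σ => Th kOB (clc (PE := PE) (fun i : Empty => i.elim))
      (dBB T PE τ2 wL σ)))
    (σ : ℂ ≃+* ℂ) : DS Z' σ ∈ Y224.TS.LT S := by
  have hT := tdF hf h hZ' hZ
  have hSF : ∀ D : S, cK ℂ F * D.1 * cK ℂ E ∈ SF E F S := fun D => ⟨D.1, D.2, rfl⟩
  have hex : ∀ D : S, ∃ T' : Fin 3 → M2, (∀ c, (T' c).trace = 0) ∧ T' 2 = 0 ∧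
      wp W 0 * (cK ℂ F * D.1 * cK ℂ E) * W 0 = kOB T' := fun D => k.exists_T hT (hSF D)
  choose T' ht1 ht2 ht3 using hex
  have hsq : ∀ D, (T' D 0 = 0 ∧ T' D 1 * T' D 1 = 1) ∨ (T' D 1 = 0 ∧ T' D 0 * T' D 0 = 1) := by
    intro D
    refine kOB_sq _ (ht1 D) ?_
    rw [← ht3]
    exact piece_sq hT (k.wp_one 0) (hSF D) (k.actW hT (hSF D) 0)
  have hne : ∀ c : Fin 2, NoEig fun D => T' D c.castSucc := by
    intro c v hv
    by_contra hcon
    push Not at hcon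
    have h1 := stab_piece hT hZ (k.wp_one 0) (fun σ => k.ax 0 σ)
      (A := fun D => wp W 0 * D * W 0) (fun D hD => k.actW hT hD 0) (KV c v) (by
        rintro _ ⟨D, hD, rfl⟩ f hf'
        obtain ⟨z, hz⟩ := hcon ⟨D, hD⟩
        have h2 := ht3 ⟨D, hD⟩
        have h3 := KV_stab c hv hz f hf'
        rw [← h2] at h3
        exact h3)
    rcases k.irr (KV c v) h1 with h2 | h2
    · exact (KV_ne c hv).1 h2
    · exact (KV_ne c hv).2 h2
  refine model_T kOB (clc (PE := PE) (fun i : Empty => i.elim)) h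
    kOB_br (dBB T PE τ2 wL) ?_ hcov
    (fun D => ![T' D 0, T' D 1, T2 D])
    (fun D σ hσ ι hι => ?_) ?_ (fun D => ?_) (fun D c => ?_) ?_ ?_ ?_ σ
  · intro s c
    fin_cases c
    · exact k.tr 0 s
    · exact k.tr 1 s
    · exact e.t2 s
  · refine cols _ _ (fun y hy => ?_) (fun p y hy => ?_) (fun i y hy => ?_)
    · have h1 : ∀ ρ, DS Z' ρ * y = y * bop T ρ := by
        intro ρ
        rw [hy, ← Matrix.mul_assoc, hι ρ, Matrix.mul_assoc, Th_slO, ← Matrix.mul_assoc]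
        rfl
      rw [lab hf h (k.wp_one 0) (fun ρ => k.wp_mul 0 ρ) D.2 h1, ht3]
      congr 1
    · rcases p with p | p
      · exact p.elim
      · have h1 : ∀ ρ, DS Z' ρ * y = y * τ2 ρ := by
          intro ρ
          rw [hy, ← Matrix.mul_assoc, hι ρ, Matrix.mul_assoc, Th_slP, ← Matrix.mul_assoc]
          congr 1
          change τ2 ρ + (0 : ℂ) • (1 : M2) = τ2 ρ
          rw [zero_smul, add_zero]
        rw [e.p p D _ h1]
        congr 1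
        change T2 D = T2 D + (0 : ℂ) • (1 : M2)
        rw [zero_smul, add_zero]
    · refine e.l i D σ hσ y fun ρ => ?_
      rw [hy, ← Matrix.mul_assoc, hι ρ, Matrix.mul_assoc, Th_slL, ← Matrix.mul_assoc]
      rfl
  · intro D c
    fin_cases c
    · exact ht1 D 0
    · exact ht1 D 1
    · exact e.tt D
  · exact (hsq D).imp And.left And.left
  · fin_cases c
    · rcases hsq D with h1 | h1
      · exact Or.inl h1.1
      · exact Or.inr h1.2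
    · rcases hsq D with h1 | h1
      · exact Or.inr h1.2
      · exact Or.inl h1.1
    · exact e.ts D
  · exact hne 0
  · exact hne 1
  · exact e.f2

end bet

end

end Pool.Agent.N995
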