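import Mathlib
import Pool.Agent.N995.Tt5

/-!
# The second Lie algebra on the abelian varieties with the factors of an abelian variety of dimension
at most five
-/

set_option linter.unusedSectionVars false

namespace Pool.Agent.N995

open Matrix Module Pool.Agent.W437.HC Pool.Agent.W437.HD Pool.Agent.TH504.CB Pool.Agent.Y90
open Pool.Agent.R915
open Pool.Agent.W548.Odd hiding cv
open Pool.Agent.W437.HP (cK cK_mul cK_one cK_sum)
open Pool.Agent.H204R3.SP (Kills)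
open Pool.Agent.Y224.TS (TD LT_gen LT_br LT_le kills_LT)
open Pool.Agent.N183.TS (SF tdF commF trace_fac Rk1T Rk1D LTF rk1_small rk1_sp cls_quad cls_all
  kill_LZ)

noncomputable section

section cls

variable {g : ℕ} {Z : Matrix (Fin g) (Fin g) ℂ} {S : Set (Matrix (Fin g ⊕ Fin g) (Fin g ⊕ Fin g) ℂ)}

/-- The local conditions. -/
def LocT (Z : Matrix (Fin g) (Fin g) ℂ) (S : Set (Matrix (Fin g ⊕ Fin g) (Fin g ⊕ Fin g) ℂ))
    (U : Submodule ℂ (Fin g ⊕ Fin g → ℂ)) : Prop :=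
  Rk1T S U ∧ ∀ (σ : ℂ ≃+* ℂ) (c : ℂ), ∃ u ∈ U, DS Z σ *ᵥ u ≠ c • u

theorem loc_two (h : PM Z) (hT : TD Z S) {U : Submodule ℂ (Fin g ⊕ Fin g → ℂ)}
    (hU : IrS (LZ Z) U) (hd : finrank ℂ U ≤ 3) (hs : SDu Z U) : LocT Z S U := by
  obtain ⟨D, hD, -⟩ := hT.ex (RingEquiv.refl ℂ)
  have hns := ns_of_sdu h hs
  exact ⟨(rk1_small hT h hD hU (hT.nonscalar h hD hU.2.1 hns) hd).rk1T hD, hns⟩

theorem loc_sp (h : PM Z) (hT : TD Z S) {U : Submodule ℂ (Fin g ⊕ Fin g → ℂ)}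
    (hU : IrS (LZ Z) U) (b : (Fin g ⊕ Fin g → ℂ) →ₗ[ℂ] (Fin g ⊕ Fin g → ℂ) →ₗ[ℂ] ℂ)
    (h0 : ∃ u ∈ U, ∃ v ∈ U, b u v ≠ 0)
    (hb : ∀ X ∈ LZ Z, ∀ u ∈ U, ∀ v ∈ U, b (X *ᵥ u) v + b u (X *ᵥ v) = 0)
    (hal : ∀ u ∈ U, ∀ v ∈ U, b u v = -b v u)
    (hd : finrank ℂ U ≤ 7 ∨ ¬4 ∣ finrank ℂ U) : LocT Z S U := by
  obtain ⟨D, hD, -⟩ := hT.ex (RingEquiv.refl ℂ)
  exact ⟨(rk1_sp hT h hD hU b h0 hb hal hd).rk1T hD, ns_of_sdu h ⟨b, h0, hb⟩⟩

theorem loc_quad (h : PM Z) (hT : TD Z S) {U : Submodule ℂ (Fin g ⊕ Fin g → ℂ)}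
    (hU : IrS (LZ Z) U) {φ : Matrix (Fin g ⊕ Fin g) (Fin g ⊕ Fin g) ℚ} {d : ℚ} (k : QF Z φ d)
    (h3 : ∀ U : Submodule ℂ (Fin g ⊕ Fin g → ℂ), IrS (LZ Z) U →
      (pd Z U ≤ 3 ∧ qd Z U ≤ 3) ∨ Nat.Coprime (pd Z U) (qd Z U)) (hn : 2 ≤ finrank ℂ U) :
    LocT Z S U := by
  obtain ⟨D, hD, -⟩ := hT.ex (RingEquiv.refl ℂ)
  obtain ⟨e1, e2⟩ := cls_quad hT h hD hU k h3 hn
  exact ⟨e1.rk1T hD, e2⟩

end cls

/-- Five-dimensional simple abelian varieties. -/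
theorem loc_five {Z : Matrix (Fin 5) (Fin 5) ℂ} {S : Set (Matrix (Fin 5 ⊕ Fin 5) (Fin 5 ⊕ Fin 5) ℂ)}
    (h : PM Z) (hT : TD Z S) (hs : IsSimple (AVZ h))
    {U : Submodule ℂ (Fin 5 ⊕ Fin 5 → ℂ)} (hU : IrS (LZ Z) U) (h2 : 2 ≤ finrank ℂ U) :
    LocT Z S U := by
  have hs' := simple_AVZ h hs
  have hdv := finrank_dvd h hs' hU
  have hn : finrank ℂ U = 2 ∨ finrank ℂ U = 5 ∨ finrank ℂ U = 10 := by
    have h1 : finrank ℂ U ∈ Nat.divisors 10 := Nat.mem_divisors.2 ⟨hdv, by norm_num⟩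
    have h3 : Nat.divisors 10 = {1, 2, 5, 10} := by decide
    rw [h3] at h1
    simp only [Finset.mem_insert, Finset.mem_singleton] at h1
    omega
  rcases hn with hn | hn | hn
  · have hsd : SDu Z U := by
      by_contra hn'
      have h1 := dvd_half h hs' hU hn'
      rw [hn] at h1
      omega
    exact loc_two h hT hU (by omega) hsd
  · have hnd : ¬SDu Z U := fun h1 => by
      have h2 := even_of_sdu h hU h1
      rw [hn] at h2
      exact absurd h2 (by decide)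
    obtain ⟨φ, d, k⟩ := (exists_spl h hs' hU hnd hn).exists_QF h
    have key : ∀ W, IrS (LZ Z) W → 0 < pd Z W ∧ 0 < qd Z W ∧ pd Z W + qd Z W = 5 := by
      intro W hW
      obtain ⟨α, hα, hm⟩ := k.exists_root h hW
      have hdim := k.dim h hα hm hW.1
      have hns := k.nonscalar h hα hm hW (by omega)
      have hpq := pd_add_qd h hW.2.1
      exact ⟨pd_pos h hW.2.1 (hns (RingEquiv.refl ℂ)), qd_pos h hW.2.1 (hns (RingEquiv.refl ℂ)),
        by omega⟩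
    refine loc_quad h hT hU k (fun W hW => Or.inr ?_) h2
    obtain ⟨h1, h2, h3⟩ := key W hW
    have : (pd Z W = 1 ∧ qd Z W = 4) ∨ (pd Z W = 2 ∧ qd Z W = 3) ∨
      (pd Z W = 3 ∧ qd Z W = 2) ∨ (pd Z W = 4 ∧ qd Z W = 1) := by omega
    rcases this with ⟨h6, h7⟩ | ⟨h6, h7⟩ | ⟨h6, h7⟩ | ⟨h6, h7⟩ <;> rw [h6, h7] <;> decide
  · have hUT : U = ⊤ := by
      refine Submodule.eq_top_of_finrank_eq ?_
      rw [hn, finrank_V]
    refine loc_sp h hT hU (om 5) ?_ (fun X hX u _ v _ => h.om_sp hX u v)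
      (fun u _ v _ => om_anti u v) (Or.inr (by rw [hn]; decide))
    rw [hUT]
    by_contra hcon
    push Not at hcon
    have h3 : (Pi.single (Sum.inl 0) 1 : Fin 5 ⊕ Fin 5 → ℂ) = 0 :=
      om_nd _ fun v => hcon _ trivial v trivial
    have h4 := congrFun h3 (Sum.inl 0)
    simp at h4

/-- Four-dimensional simple abelian varieties. -/
theorem loc_four {Z : Matrix (Fin 4) (Fin 4) ℂ} (h : PM Z) (hs : IsSimple (AVZ h))
    (hM : ∃ f, IsHom (AVZ h) (AVZ h) f ∧ ∀ c : ℚ, f ≠ c • 1) :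
    (∀ (S : Set (Matrix (Fin 4 ⊕ Fin 4) (Fin 4 ⊕ Fin 4) ℂ)), TD Z S →
      ∀ U, IrS (LZ Z) U → 2 ≤ finrank ℂ U → LocT Z S U) ∨
      (∃ X τ ε, Gm Z X τ ε) ∨ ∃ W T, Bt0 Z W T := by
  have hs' := simple_AVZ h hs
  obtain ⟨U, hU⟩ := exists_irr (Z := Z) (by norm_num)
  have hdv := finrank_dvd h hs' hU
  have hn : finrank ℂ U = 1 ∨ finrank ℂ U = 2 ∨ finrank ℂ U = 4 ∨ finrank ℂ U = 8 := by
    have h1 : finrank ℂ U ∈ Nat.divisors 8 := Nat.mem_divisors.2 ⟨hdv, by norm_num⟩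
    have h2 : Nat.divisors 8 = {1, 2, 4, 8} := by decide
    rw [h2] at h1
    simp only [Finset.mem_insert, Finset.mem_singleton] at h1
    exact h1
  rcases hn with hn | hn | hn | hn
  · refine Or.inl fun S hT W hW h2 => ?_
    rw [finrank_irS h hs' hW hU, hn] at h2
    omega
  · by_cases hsd : SDu Z U
    · refine Or.inl fun S hT W hW h2 => ?_
      have hd : finrank ℂ W = 2 := by rw [finrank_irS h hs' hW hU, hn]
      exact loc_two h hT hW (by omega) (sdu_any h hs' hU hW hsd)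
    · exact Or.inr (Or.inl (exists_gm h hs' hU hn hsd))
  · by_cases hsd : SDu Z U
    · by_cases hβ : ∃ (U : Submodule ℂ (Fin 4 ⊕ Fin 4 → ℂ))
        (b : (Fin 4 ⊕ Fin 4 → ℂ) →ₗ[ℂ] (Fin 4 ⊕ Fin 4 → ℂ) →ₗ[ℂ] ℂ), IrS (LZ Z) U ∧
        finrank ℂ U = 4 ∧ (∃ u ∈ U, ∃ v ∈ U, b u v ≠ 0) ∧
        (∀ X ∈ LZ Z, ∀ u ∈ U, ∀ v ∈ U, b (X *ᵥ u) v + b u (X *ᵥ v) = 0) ∧
        ∀ u ∈ U, ∀ v ∈ U, b u v = b v u
      · obtain ⟨V, b, hV, hd, h0, hb, hsym⟩ := hβ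
        exact Or.inr (Or.inr (exists_bt0 h hV hd h0 hb hsym))
      · refine Or.inl fun S hT W hW h2 => ?_
        have hd : finrank ℂ W = 4 := by rw [finrank_irS h hs' hW hU, hn]
        obtain ⟨b, h0, hb⟩ := sdu_any h hs' hU hW hsd
        obtain ⟨c, hc⟩ := bil_unique hW (b' := b.flip) h0 hb (fun X hX u hu v hv => by
          rw [LinearMap.flip_apply, LinearMap.flip_apply, add_comm]
          exact hb X hX v hv u hu)
        obtain ⟨u, hu, v, hv, huv⟩ := h0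
        have h1 : c * c = 1 := by
          have h2 := hc u hu v hv
          have h3 := hc v hv u hu
          rw [LinearMap.flip_apply] at h2 h3
          rw [h2, ← mul_assoc] at h3
          have h4 : (c * c - 1) * b u v = 0 := by linear_combination -h3
          exact sub_eq_zero.1 ((mul_eq_zero.1 h4).resolve_right huv)
        rcases mul_self_eq_one_iff.1 h1 with h2 | h2
        · exfalso
          refine hβ ⟨W, b, hW, hd, ⟨u, hu, v, hv, huv⟩, hb, fun u hu v hv => ?_⟩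
          have h3 := hc u hu v hv
          rw [LinearMap.flip_apply, h2, one_mul] at h3
          exact h3.symm
        · refine loc_sp h hT hW b ⟨u, hu, v, hv, huv⟩ hb (fun u hu v hv => ?_) (Or.inl (by omega))
          have h3 := hc u hu v hv
          rw [LinearMap.flip_apply, h2] at h3
          rw [h3]
          ring
    · obtain ⟨φ, d, k⟩ := (exists_spl h hs' hU hsd hn).exists_QF h
      refine Or.inl fun S hT W hW h2 => loc_quad h hT hW k (fun V hV => Or.inl ?_) h2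
      obtain ⟨α, hα, hm⟩ := k.exists_root h hV
      have hdim := k.dim h hα hm hV.1
      have hns := k.nonscalar h hα hm hV (by omega)
      have hpq := pd_add_qd h hV.2.1
      have h3 := pd_pos h hV.2.1 (hns (RingEquiv.refl ℂ))
      have h4 := qd_pos h hV.2.1 (hns (RingEquiv.refl ℂ))
      omega
  · exfalso
    have hUT : U = ⊤ := by
      refine Submodule.eq_top_of_finrank_eq ?_
      rw [hn, finrank_V]
    rw [hUT] at hU
    obtain ⟨f, hf, hf'⟩ := hM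
    obtain ⟨c, hc⟩ := comm_top h hU f hf
    exact hf' c hc

/-- At most one further factor. -/
theorem two_fac {A Y₁ Y₂ : AV} (hdim : finrank ℚ A.H ≤ 10) (h1 : IsFactor Y₁ A)
    (h2 : IsFactor Y₂ A) (hr : finrank ℚ Y₁.H = 8) (hn : ¬Isg Y₂ Y₁) :
    finrank ℚ Y₂.H = 2 ∧ ∀ Y, IsFactor Y A → Isg Y Y₁ ∨ Isg Y Y₂ := by
  obtain ⟨ι, _, _, a, Z', h', ha, hsim, hsum, hfac, hall⟩ := exists_factors A
  obtain ⟨i, hi⟩ := hall _ h1
  obtain ⟨j, hj⟩ := hall _ h2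
  have hai : a i = 4 := by
    have h3 := hi.finrank
    rw [finrank_AVZ] at h3
    omega
  have hij : j ≠ i := by
    rintro rfl
    exact hn (hj.trans hi.symm)
  have hsplit : ∑ j, a j = a i + ∑ j ∈ Finset.univ.erase i, a j :=
    (Finset.add_sum_erase Finset.univ a (Finset.mem_univ i)).symm
  have hsub : ∀ j, j ≠ i → a j ≤ ∑ j ∈ Finset.univ.erase i, a j := fun j hj =>
    Finset.single_le_sum (fun k _ => Nat.zero_le (a k)) (Finset.mem_erase.2 ⟨hj, Finset.mem_univ j⟩)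
  have haj : a j = 1 := by
    have h3 := hsub j hij
    have h4 := ha j
    omega
  refine ⟨by rw [hj.finrank, finrank_AVZ, haj], fun Y hY => ?_⟩
  obtain ⟨k, hk⟩ := hall Y hY
  by_cases hki : k = i
  · subst hki
    exact Or.inl (hk.trans hi.symm)
  · have hkj : k = j := by
      by_contra hkj
      have h3 : ∑ l ∈ ({k, j} : Finset ι), a l ≤ ∑ l ∈ Finset.univ.erase i, a l := by
        refine Finset.sum_le_sum_of_subset fun l hl => ?_
        rw [Finset.mem_insert, Finset.mem_singleton] at hl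
        rw [Finset.mem_erase]
        rcases hl with rfl | rfl
        · exact ⟨hki, Finset.mem_univ _⟩
        · exact ⟨hij, Finset.mem_univ _⟩
      rw [Finset.sum_pair hkj] at h3
      have h4 := ha k
      omega
    subst hkj
    exact Or.inr (hk.trans hj.symm)

/-- **Forms killed by the involutions are killed by the Lie algebra of the period matrix.** -/
theorem kill_all {A X : AV} (hdim : finrank ℚ A.H ≤ 10)
    (h4 : ∀ Y, IsFactor Y A → finrank ℚ Y.H = 8 → ∃ f, IsHom Y Y f ∧ ∀ c : ℚ, f ≠ c • 1)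
    (hX : ∀ Y, IsFactor Y X → IsFactor Y A) {G : ℕ} {Z : Matrix (Fin G) (Fin G) ℂ} (hZ : PM Z)
    {S : Set (Matrix (Fin G ⊕ Fin G) (Fin G ⊕ Fin G) ℂ)} (h : TD Z S)
    (hfac : ∀ (a : ℕ) (Z' : Matrix (Fin a) (Fin a) ℂ)
      (E : Matrix (Fin G ⊕ Fin G) (Fin a ⊕ Fin a) ℚ) (F : Matrix (Fin a ⊕ Fin a) (Fin G ⊕ Fin G) ℚ),
      Fac Z Z' E F → ∀ h' : PM Z', IsSimpleAV Z' → 0 < a → IsFactor (AVZ h') X)
    {κ : Type} [Fintype κ] [DecidableEq κ]
    (φ : MultilinearMap ℂ (fun _ : κ => Fin G ⊕ Fin G → ℂ) ℂ)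
    (hφ : ∀ D ∈ S, Kills (ph (Fin G ⊕ Fin G) D) φ) :
    ∀ X ∈ LZ Z, Kills (ph (Fin G ⊕ Fin G) X) φ := by
  by_cases hL : LTF Z S
  · exact kill_LZ h hZ hL φ hφ
  unfold LTF at hL
  push Not at hL
  obtain ⟨a, Z₁, E₁, F₁, hf₁, h₁, hs₁, ha₁, U, hU, hU2, hloc⟩ := hL
  have hloc' : ¬LocT Z₁ (SF E₁ F₁ S) U := by
    rintro ⟨e1, e2⟩
    obtain ⟨σ, c, e3⟩ := hloc e1
    obtain ⟨u, hu, e4⟩ := e2 σ c
    exact e4 (e3 u hu)
  have hfX := hfac a Z₁ E₁ F₁ hf₁ h₁ hs₁ ha₁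
  have hfA := hX _ hfX
  have hT₁ := tdF hf₁ h hZ h₁
  have ha5 : a ≤ 5 := by
    obtain ⟨ι, _, _, a', Z', h', ha, hsim, hsum, hfac', hall⟩ := exists_factors A
    obtain ⟨i, hi⟩ := hall _ hfA
    have h3 := hi.finrank
    rw [finrank_AVZ, finrank_AVZ] at h3
    have h5 : a' i ≤ ∑ j, a' j := Finset.single_le_sum (fun k _ => Nat.zero_le (a' k))
      (Finset.mem_univ i)
    omega
  have hcases : a ≤ 3 ∨ a = 4 ∨ a = 5 := by omega
  rcases hcases with ha3 | ha4 | ha5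
  · exact absurd (cls_all h₁ hT₁ hfX.1 ha₁ (Or.inl (by rw [finrank_AVZ]; omega)) hU hU2) hloc'
  · subst ha4
    have hcov : ∀ {B : Type} [Fintype B] [DecidableEq B] (D0 : (ℂ ≃+* ℂ) → Matrix B B ℂ),
        (∀ (a : ℕ) (Z' : Matrix (Fin a) (Fin a) ℂ) (h' : PM Z'), IsFactor (AVZ h') X →
          Cov Z' D0) → Cov Z D0 := fun D0 H => cov_of_fac hZ fun a Z' E F hf h' hs ha =>
      H a Z' h' (hfac a Z' E F hf h' hs ha)
    rcases loc_four h₁ hfX.1 (h4 _ hfA (by rw [finrank_AVZ])) with h5 | h5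
    · exact absurd (h5 _ hT₁ U hU hU2) hloc'
    -- the elliptic curve
    by_cases hE : ∃ (a : ℕ) (Z₂ : Matrix (Fin a) (Fin a) ℂ)
      (E₂ : Matrix (Fin G ⊕ Fin G) (Fin a ⊕ Fin a) ℚ)
      (F₂ : Matrix (Fin a ⊕ Fin a) (Fin G ⊕ Fin G) ℚ) (h₂ : PM Z₂), Fac Z Z₂ E₂ F₂ ∧
        IsSimpleAV Z₂ ∧ 0 < a ∧ ¬Isg (AVZ h₂) (AVZ h₁)
    · obtain ⟨m, Z₂, E₂, F₂, h₂, hf₂, hs₂, ha₂, hn₂⟩ := hE
      have hfX₂ := hfac m Z₂ E₂ F₂ hf₂ h₂ hs₂ ha₂
      obtain ⟨hr₂, hall⟩ := two_fac hdim hfA (hX _ hfX₂) (by rw [finrank_AVZ]) hn₂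
      have hm : m = 1 := by
        rw [finrank_AVZ] at hr₂
        omega
      subst hm
      obtain ⟨x, x', τE, kE⟩ := exists_EB h₂
      rcases kE.dich h₂ with h6 | h6
      · have e := EP.ncm h hZ h₂ hf₂ kE h6
        rcases h5 with ⟨X', τ, ε, k⟩ | ⟨W, T, k⟩
        · refine kill_of_mem (fun σ => k.all_T h₁ h hZ hf₁ e (hcov _ fun a Z' h' hf' => ?_) σ) φ hφ
          rcases hall _ (hX _ hf') with ⟨e', he, he'⟩ | ⟨e', he, he'⟩
          · exact Cov.isog h' h₁ e' he he' k.covG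
          · exact Cov.isog h' h₂ e' he he' (kE.covP _ _ _ (fun σ => rfl) fun σ => rfl)
        · refine kill_of_mem (fun σ => k.all_T h₁ h hZ hf₁ e (hcov _ fun a Z' h' hf' => ?_) σ) φ hφ
          rcases hall _ (hX _ hf') with ⟨e', he, he'⟩ | ⟨e', he, he'⟩
          · exact Cov.isog h' h₁ e' he he' k.covB
          · exact Cov.isog h' h₂ e' he he' (kE.covP _ _ _ (fun σ => rfl) fun σ => rfl)
      · obtain ⟨dE, hdE, hτ⟩ := kE.cm h₂ hs₂ h6
        have e := EP.cm h hZ h₂ hf₂ kE hτ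
        rcases h5 with ⟨X', τ, ε, k⟩ | ⟨W, T, k⟩
        · refine kill_of_mem (fun σ => k.all_T h₁ h hZ hf₁ e (hcov _ fun a Z' h' hf' => ?_) σ) φ hφ
          rcases hall _ (hX _ hf') with ⟨e', he, he'⟩ | ⟨e', he, he'⟩
          · exact Cov.isog h' h₁ e' he he' k.covG
          · exact Cov.isog h' h₂ e' he he' (kE.covL hτ _ _ _ fun σ i => rfl)
        · refine kill_of_mem (fun σ => k.all_T h₁ h hZ hf₁ e (hcov _ fun a Z' h' hf' => ?_) σ) φ hφ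
          rcases hall _ (hX _ hf') with ⟨e', he, he'⟩ | ⟨e', he, he'⟩
          · exact Cov.isog h' h₁ e' he he' k.covB
          · exact Cov.isog h' h₂ e' he he' (kE.covL hτ _ _ _ fun σ i => rfl)
    · push Not at hE
      have hcov' : ∀ {B : Type} [Fintype B] [DecidableEq B] (D0 : (ℂ ≃+* ℂ) → Matrix B B ℂ),
          Cov Z₁ D0 → Cov Z D0 := fun D0 H => cov_of_fac hZ fun a Z' E F hf h' hs ha => by
        obtain ⟨e', he, he'⟩ := hE a Z' E F h' hf hs ha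
        exact Cov.isog h' h₁ e' he he' H
      rcases h5 with ⟨X', τ, ε, k⟩ | ⟨W, T, k⟩
      · exact kill_of_mem (fun σ => k.all_T h₁ h hZ hf₁ EP.none (hcov' _ k.covG) σ) φ hφ
      · exact kill_of_mem (fun σ => k.all_T h₁ h hZ hf₁ EP.none (hcov' _ k.covB) σ) φ hφ
  · subst ha5
    exact absurd (loc_five h₁ hT₁ hfX.1 hU hU2) hloc'

end

end Pool.Agent.N995
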