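import Mathlib
import Pool.Agent.N995.Od3
import Pool.Agent.N995.Od5
import Pool.Agent.N995.Od8
import Pool.Agent.N995.OdG
import Pool.Agent.N995.Tt7

/-!
# The Tate conjecture for ordinary abelian varieties
-/

set_option autoImplicit false
set_option linter.unusedSectionVars false

open Module TensorProduct

namespace Pool.Agent.N995.OD

open Pool.Agent.Y90 Pool.Agent.R915

noncomputable section

variable {K : Type} [Field K] [CharZero K] [Algebra K ℂ] [Algebra.IsAlgebraic K ℂ]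
  {Γ : Type} [Group Γ]

/-- All Tate classes are combinations of classes in `Alg`. -/
theorem tate_classes {p n : ℕ} (hp : p.Prime) (hn : 0 < n) {𝔙 : ValuationSubring ℂ}
    (h𝔙 : 𝔙.valuation (p : ℂ) < 1) (X : AV) (hX : SmallTypes X ∨ FactorsOfSmall X)
    {E : X.H → X.H → ℚ} (hE : Pool.Agent.Y90.St.IsPolarization X.per E)
    {ρ : Representation K Γ (K ⊗[ℚ] X.H)} {χ : Γ →* K} {P : Type} [Nonempty P] {deg : P → ℕ}
    {F : P → Γ} (hdeg : ∀ y, 0 < deg y) (hO : IsOrdinary X.per E 𝔙 (p ^ n) ρ χ deg F)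
    {κ : Type} [Finite κ] {m : ℕ} (hκ : Nat.card κ = 2 * m)
    (w : (K ⊗[ℚ] X.H) [⋀^κ]→ₗ[K] K)
    (hw : ∃ Δ : Subgroup Γ, Δ.FiniteIndex ∧ ∀ g ∈ Δ, ∀ v : κ → K ⊗[ℚ] X.H,
      w (fun k => ρ g (v k)) = χ g ^ m * w v) :
    ∃ (n : ℕ) (c : Fin n → K) (f : Fin n → (X.H [⋀^κ]→ₗ[ℚ] ℚ)),
      (∀ j, Alg X κ (f j)) ∧
        ∀ v : κ → X.H, w (fun k => (1 : K) ⊗ₜ[ℚ] v k) = ∑ j, c j * ((f j v : ℚ) : K) := by
  have : FiniteDimensional ℚ X.H := (AV.isAV X).1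
  have hT := isTateModule hp hn h𝔙 hdeg hO
  rcases hX with ⟨hX, C, J, b, hC, h1, h2⟩ | ⟨A, hA, hA', hX⟩
  · exact Pool.Agent.N183.TS.tate_all algSys X hX C b hC h1 h2 hE hT hκ w hw
  · exact tate_alg5 algSys A hA hA' X hX hE hT hκ w hw

/-- There are no Tate classes of odd degree (with square roots of the twists). -/
theorem odd_classes {p n : ℕ} (hp : p.Prime) (hn : 0 < n) {𝔙 : ValuationSubring ℂ}
    (h𝔙 : 𝔙.valuation (p : ℂ) < 1) {H T : Type} [AddCommGroup H] [Module ℚ H] [AddCommGroup T]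
    [Module ℂ T] [FiniteDimensional ℚ H] {per : H →+ T} {E : H → H → ℚ}
    {ρ : Representation K Γ (K ⊗[ℚ] H)} {χ : Γ →* K} {P : Type} [Nonempty P] {deg : P → ℕ}
    {F : P → Γ} (hdeg : ∀ y, 0 < deg y) (hO : IsOrdinary per E 𝔙 (p ^ n) ρ χ deg F)
    {Δ : Subgroup Γ} (hΔ : Δ.FiniteIndex) {ψ : Δ →* K} (hψ : ∀ g : Δ, ψ g ^ 2 = χ g) {a : ℕ}
    (ha : ¬ Even a) (w : (K ⊗[ℚ] H) [⋀^Fin a]→ₗ[K] K)
    (hw : ∀ (g : Δ) (v : Fin a → K ⊗[ℚ] H), w (fun k => ρ g (v k)) = ψ g ^ a * w v) : w = 0 := by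
  obtain ⟨y⟩ := ‹Nonempty P›
  have hx : IsFrobenius deg F (F y) (deg y) := ⟨y, 1, rfl, by simp⟩
  obtain ⟨M, hM, -, hMΔ⟩ := Subgroup.exists_pow_mem_of_index_ne_zero (H := Δ) hΔ.index_ne_zero (F y)
  obtain ⟨u, hu⟩ := exists_ext' (k := K) (K := ℂ) w
  have hpow : ρ (F y ^ M) = ρ (F y) ^ M := map_pow _ _ _
  have h1 : u.compLinearMap ((ρ (F y)).baseChange ℂ ^ M) =
      (algebraMap K ℂ (ψ ⟨_, hMΔ⟩ ^ a)) • u := by
    refine form_ext (k := K) (K := ℂ) fun v => ?_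
    have h2 : (u.compLinearMap ((ρ (F y)).baseChange ℂ ^ M)) (fun k => 1 ⊗ₜ v k) =
        u (fun k => (1 : ℂ) ⊗ₜ ρ (F y ^ M) (v k)) := by
      rw [AlternatingMap.compLinearMap_apply]
      congr 1
      funext k
      rw [hpow, ← LinearMap.baseChange_pow, LinearMap.baseChange_tmul]
    rw [h2, hu, hw ⟨_, hMΔ⟩, AlternatingMap.smul_apply, hu, map_mul, smul_eq_mul]
  have h3 : u.toMultilinearMap = 0 := by
    refine (fe hp hn h𝔙 hdeg hO hx).odd_zero hp (Nat.mul_pos hn (hdeg y)) rfl h𝔙 ha hM _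
      (c := algebraMap K ℂ (ψ ⟨_, hMΔ⟩ ^ a)) ?_ fun v => ?_
    · rw [← map_pow, ← pow_mul, mul_comm, pow_mul, hψ]
      have h4 : χ (F y ^ M) = ((((p ^ n : ℕ) : K)) ^ deg y) ^ M := by
        rw [map_pow, hO.cyclotomic _ _ hx]
      change algebraMap K ℂ ((χ (F y ^ M)) ^ a) = _
      rw [h4]
      push_cast
      simp only [map_pow, map_natCast, pow_mul]
    · have h4 := congrArg (fun u : (ℂ ⊗[K] (K ⊗[ℚ] H)) [⋀^Fin a]→ₗ[ℂ] ℂ => u v) h1
      exact h4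
  have h5 : u = 0 := AlternatingMap.coe_multilinearMap_injective h3
  refine form_ext (k := ℚ) (K := K) fun v => ?_
  have h6 := hu (fun k => (1 : K) ⊗ₜ[ℚ] v k)
  rw [h5] at h6
  have h7 : algebraMap K ℂ (w (fun k => (1 : K) ⊗ₜ[ℚ] v k)) = 0 := h6.symm
  rw [(map_eq_zero _).1 h7]
  rfl

/-- The data for `IsGeneratedBy`. -/
structure Generated {K : Type} [Field K] [CharZero K] {Γ : Type} [Group Γ] (X : AV)
    (ρ : Representation K Γ (K ⊗[ℚ] X.H)) (χ : Γ →* K) {W : Type} [AddCommGroup W] [Module K W]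
    [Module ℚ W] (R : Representation K Γ W) (Z : Submodule ℚ W) {Δ : Subgroup Γ} (ψ : Δ →* K)
    {J : Type} (a : J → ℕ) (f : ∀ j, ((K ⊗[ℚ] X.H) [⋀^Fin (a j)]→ₗ[K] K) →ₗ[K] W) : Prop where
  finiteIndex : Δ.FiniteIndex
  square : ∀ g : Δ, ψ g ^ 2 = χ g
  sum : ⨆ j, LinearMap.range (f j) = ⊤
  equivariant : ∀ (j : J) (g : Δ) w,
    f j (coh (ρ.comp Δ.subtype) ψ (Fin (a j)) (a j) g w) = R g (f j w)
  cycles : ∀ (j : J) (w : (K ⊗[ℚ] X.H) [⋀^Fin (a j)]→ₗ[K] K) (b : X.H [⋀^Fin (a j)]→ₗ[ℚ] ℚ),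
    Even (a j) → Alg X (Fin (a j)) b → (∀ v, w (fun k => 1 ⊗ₜ v k) = ((b v : ℚ) : K)) → f j w ∈ Z
  semisimple : ∀ (j : J) (U : Submodule K ((K ⊗[ℚ] X.H) [⋀^Fin (a j)]→ₗ[K] K)),
    (∀ g : Δ, ∀ u ∈ U, coh (ρ.comp Δ.subtype) ψ (Fin (a j)) (a j) g u ∈ U) →
      ∃ U' : Submodule K ((K ⊗[ℚ] X.H) [⋀^Fin (a j)]→ₗ[K] K),
        (∀ g : Δ, ∀ u ∈ U', coh (ρ.comp Δ.subtype) ψ (Fin (a j)) (a j) g u ∈ U') ∧ IsCompl U U'

theorem IsGeneratedBy.exists {K : Type} [Field K] [CharZero K] {Γ : Type} [Group Γ] {X : AV}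
    {ρ : Representation K Γ (K ⊗[ℚ] X.H)} {χ : Γ →* K} {W : Type} [AddCommGroup W] [Module K W]
    [Module ℚ W] {R : Representation K Γ W} {Z : Submodule ℚ W} (h : IsGeneratedBy X ρ χ R Z) :
    ∃ (Δ : Subgroup Γ) (ψ : Δ →* K) (J : Type) (a : J → ℕ)
      (f : ∀ j, ((K ⊗[ℚ] X.H) [⋀^Fin (a j)]→ₗ[K] K) →ₗ[K] W), Generated X ρ χ R Z ψ a f := by
  obtain ⟨Δ, ψ, h1, h2, h3, h4⟩ := h
  refine ⟨Δ, ψ, Σ a : ℕ, {f : Forms K X a →ₗ[K] W // IsCorrespondence X ρ R Z ψ f}, fun j => j.1,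
    fun j => j.2.1, ?_⟩
  exact
    { finiteIndex := h1
      square := h2
      sum := h4 _ fun a f hf => le_iSup (fun j : Σ a : ℕ, {f : Forms K X a →ₗ[K] W //
        IsCorrespondence X ρ R Z ψ f} => LinearMap.range j.2.1) ⟨a, f, hf⟩
      equivariant := fun j g w => j.2.2.equivariant g w
      cycles := fun j w b hev hb hw => j.2.2.cycles hev w b hb hw
      semisimple := fun j U hU => h3 j.1 U hU }

/-- The invariant classes on a variety generated by `X` are combinations of invariant classes of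
cycles. -/
theorem tate_span {p n : ℕ} (hp : p.Prime) (hn : 0 < n) {𝔙 : ValuationSubring ℂ}
    (h𝔙 : 𝔙.valuation (p : ℂ) < 1) (X : AV) (hX : SmallTypes X ∨ FactorsOfSmall X)
    {E : X.H → X.H → ℚ} (hE : Pool.Agent.Y90.St.IsPolarization X.per E)
    {ρ : Representation K Γ (K ⊗[ℚ] X.H)} {χ : Γ →* K} {P : Type} [Nonempty P] {deg : P → ℕ}
    {F : P → Γ} (hdeg : ∀ y, 0 < deg y) (hO : IsOrdinary X.per E 𝔙 (p ^ n) ρ χ deg F)
    {W : Type} [AddCommGroup W] [Module K W] [Module ℚ W] {R : Representation K Γ W}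
    {Z : Submodule ℚ W} (hst : ∀ g, ∀ w ∈ Z, R g w ∈ Z)
    (hfin : ∀ w ∈ Z, ∃ Δ : Subgroup Γ, Δ.FiniteIndex ∧ ∀ g ∈ Δ, R g w = w)
    (hss : ∀ Δ : Subgroup Γ, Δ.FiniteIndex → ∀ U : Submodule K W, (∀ g ∈ Δ, ∀ u ∈ U, R g u ∈ U) →
      ∃ U' : Submodule K W, (∀ g ∈ Δ, ∀ u ∈ U', R g u ∈ U') ∧ IsCompl U U')
    {Δ : Subgroup Γ} {ψ : Δ →* K} {J : Type} {a : J → ℕ}
    {f : ∀ j, ((K ⊗[ℚ] X.H) [⋀^Fin (a j)]→ₗ[K] K) →ₗ[K] W}
    (hf : Generated X ρ χ R Z ψ a f) (w : W) (hw : ∀ g, R g w = w) :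
    w ∈ Submodule.span K (fixedClasses R Z : Set W) := by
  have : FiniteDimensional ℚ X.H := (AV.isAV X).1
  refine span_fixed hst hfin hw ?_
  have hSS : SS (R.comp Δ.subtype) := by
    intro U hU
    obtain ⟨U', h1, h2⟩ := hss Δ hf.finiteIndex U (fun g hg => hU ⟨g, hg⟩)
    exact ⟨U', fun g => h1 g g.2, h2⟩
  have h0 := invariants_sum (R := R.comp Δ.subtype) hSS
    (S := fun j => coh (ρ.comp Δ.subtype) ψ (Fin (a j)) (a j))
    (fun j => hf.semisimple j) f hf.sum (fun j g x => hf.equivariant j g x) w (fun g => hw g)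
  refine (Submodule.span_le.2 ?_) h0
  rintro _ ⟨j, x, hx, rfl⟩
  have hx' : ∀ (g : Δ) (v : Fin (a j) → K ⊗[ℚ] X.H),
      x (fun k => ρ g (v k)) = ψ g ^ a j * x v := fun g v =>
    coh_fixed (ρ := ρ.comp Δ.subtype) (hx g) v
  by_cases hev : Even (a j)
  · obtain ⟨m, hm⟩ := id hev
    have hψ : ∀ g : Δ, ψ g ^ a j = χ g ^ m := by
      intro g
      rw [hm, ← two_mul, pow_mul, hf.square]
    obtain ⟨N, c, b, hb, h⟩ := tate_classes hp hn h𝔙 X hX hE hdeg hO (κ := Fin (a j))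
      (m := m) (by rw [Nat.card_eq_fintype_card, Fintype.card_fin, hm, two_mul]) x
      ⟨Δ, hf.finiteIndex, fun g hg v => by rw [hx' ⟨g, hg⟩ v, hψ ⟨g, hg⟩]⟩
    choose u hu using fun i => exists_ext' (k := ℚ) (K := K) (b i)
    have hu' : ∀ i (v : Fin (a j) → X.H), u i (fun k => 1 ⊗ₜ v k) = ((b i v : ℚ) : K) :=
      fun i v => hu i v
    have h1 : x = ∑ i, c i • u i := by
      refine form_ext (k := ℚ) (K := K) fun v => ?_
      rw [h]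
      have h2 : (∑ i, c i • u i) (fun k => (1 : K) ⊗ₜ[ℚ] v k) =
          ∑ i, c i • u i (fun k => (1 : K) ⊗ₜ[ℚ] v k) := by
        let ev : ((K ⊗[ℚ] X.H) [⋀^Fin (a j)]→ₗ[K] K) →ₗ[K] K :=
          { toFun := fun w => w (fun k => (1 : K) ⊗ₜ[ℚ] v k)
            map_add' := fun _ _ => rfl
            map_smul' := fun _ _ => rfl }
        change ev (∑ i, c i • u i) = _
        rw [map_sum]
        rfl
      rw [h2]
      refine Finset.sum_congr rfl fun i _ => ?_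
      rw [hu', smul_eq_mul]
    rw [h1, map_sum]
    refine Submodule.sum_mem _ fun i _ => ?_
    rw [map_smul]
    exact Submodule.smul_mem _ _ (Submodule.subset_span (hf.cycles j _ _ hev (hb i) (hu' i)))
  · rw [odd_classes hp hn h𝔙 hdeg hO hf.finiteIndex hf.square hev x hx', map_zero]
    exact Submodule.zero_mem _

/-- **The Tate conjecture, in both forms.** -/
theorem main {p n : ℕ} (hp : p.Prime) (hn : 0 < n) {𝔙 : ValuationSubring ℂ}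
    (h𝔙 : 𝔙.valuation (p : ℂ) < 1) (X : AV) (hX : SmallTypes X ∨ FactorsOfSmall X)
    {E : X.H → X.H → ℚ} (hE : Pool.Agent.Y90.St.IsPolarization X.per E)
    {ρ : Representation K Γ (K ⊗[ℚ] X.H)} {χ : Γ →* K} {P₀ : Type} [Nonempty P₀] {deg₀ : P₀ → ℕ}
    {F₀ : P₀ → Γ} (hdeg : ∀ y, 0 < deg₀ y) (hO : IsOrdinary X.per E 𝔙 (p ^ n) ρ χ deg₀ F₀)
    {W W' : Type} [AddCommGroup W] [Module K W] [Module ℚ W] [FiniteDimensional K W]
    [AddCommGroup W'] [Module K W'] [Module ℚ W'] [FiniteDimensional K W']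
    {R : Representation K Γ W} {R' : Representation K Γ W'} {Z : Submodule ℚ W}
    {Z' : Submodule ℚ W'} {B : W →ₗ[K] W' →ₗ[K] K} (hB : IsCyclePair R R' Z Z' B)
    (hf : IsGeneratedBy X ρ χ R Z) (hf' : IsGeneratedBy X ρ χ R' Z') :
    (Submodule.span K (fixedClasses R Z : Set W) = R.invariants ∧
      finrank ℚ (fixedClasses R Z) = finrank K R.invariants) ∧
    ∀ (D : ℕ) (P : Type) (deg : P → ℕ) (F : P → Γ) (geo : Subgroup Γ) (φ : Γ)
      (W₀ : Submodule K W) (Fr : Module.End K W₀), 0 < D →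
      IsModel (p ^ n) D R deg F geo φ W₀ Fr →
        HasPole (fun y => (p ^ n) ^ deg y) (fun y => (R (F y)⁻¹).baseChange ℂ) D
          (finrank ℚ (fixedClasses R Z)) := by
  obtain ⟨Δ, ψ, J, a, f, hf⟩ := hf.exists
  obtain ⟨Δ', ψ', J', a', f', hf'⟩ := hf'.exists
  have hspan := tate_span hp hn h𝔙 X hX hE hdeg hO hB.stable hB.finite hB.semisimple hf
  have hspan' := tate_span hp hn h𝔙 X hX hE hdeg hO hB.stable' hB.finite' hB.semisimple' hf'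
  obtain ⟨h1, h2⟩ := rank_eq hB hspan hspan'
  refine ⟨⟨h1, h2⟩, ?_⟩
  intro D P deg F geo φ W₀ Fr hD hM
  obtain ⟨C, hC⟩ := hM.count
  obtain ⟨B', hB'⟩ := hM.trace
  have hq : 2 ≤ p ^ n := hp.two_le.trans (Nat.le_self_pow hn.ne' p)
  have hG : ∀ y, Pool.Agent.N184.QP.Bd ((R (F y)⁻¹).baseChange ℂ) :=
    fun y μ hμ => (hM.pure y μ hμ).le
  have hFr : Pool.Agent.N184.QP.Bd (Fr.baseChange ℂ) := fun μ hμ => (hM.pure₀ μ hμ).le
  obtain ⟨S, hS, hS1, hdet⟩ := det_fr (K := K) (R := R)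
    (fun U hU => (hB.semisimple ⊤ inferInstance U fun g _ => hU g).imp fun U' h =>
      ⟨fun g => h.1 g trivial, h.2⟩) (W₀ := W₀) (Fr := Fr) (φ := φ)
    (fun w hw => (hM.invariants w).2 fun g _ => hw g) hM.frobenius hM.generate
  refine ⟨_, fun s hs => hasProd_euler hq hD hM.deg_pos hM.finite hC hG hs, ?_⟩
  rw [h2]
  exact isPole hq hD hM.deg_pos hM.finite hC hG hFr hB' hS.continuousAt hS1 hdet

end

end Pool.Agent.N995.OD
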