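import Mathlib
import Pool.Agent.N995.Od6

/-!
# Euler products with an exact trace formula: meromorphic continuation and order
-/

set_option autoImplicit false
set_option linter.unusedSectionVars false

open Filter Topology Module
open Pool.Agent.N184.QP

namespace Pool.Agent.N995.OD

noncomputable section

variable {q D : ℕ} (hq : 2 ≤ q) {P : Type} {deg : P → ℕ} (hdeg : ∀ y, 0 < deg y)
  {C : ℝ} (hfin : ∀ d, {y | deg y = d}.Finite)
  (hC : ∀ d : ℕ, (Nat.card {y // deg y = d} : ℝ) ≤ C * (q : ℝ) ^ (D * d))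
  {H : Type} [AddCommGroup H] [Module ℂ H] [FiniteDimensional ℂ H] {G : P → Module.End ℂ H}
  (hG : ∀ y, Bd (G y))

/-- the number `q^{-s}` -/
def uc (q : ℕ) (s : ℂ) : ℂ := (q : ℂ) ^ (-s)

include hq in
theorem norm_uc (s : ℂ) : ‖uc q s‖ = us q s.re := by
  have h : (0 : ℝ) < q := by exact_mod_cast (by omega : 0 < q)
  unfold uc us
  have h1 : (q : ℂ) = ((q : ℝ) : ℂ) := by push_cast; rfl
  rw [h1, Complex.norm_cpow_eq_rpow_re_of_pos h, Complex.neg_re]

include hq in
theorem pow_uc (s : ℂ) (d : ℕ) : ((q ^ d : ℕ) : ℂ) ^ (-s) = uc q s ^ d := by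
  have h0 : (q : ℂ) ≠ 0 := by exact_mod_cast (by omega : q ≠ 0)
  have h1 : ((q ^ d : ℕ) : ℂ) ≠ 0 := by exact_mod_cast pow_ne_zero d (by omega : q ≠ 0)
  unfold uc
  rw [← Complex.cpow_nat_mul, Complex.cpow_def_of_ne_zero h0, Complex.cpow_def_of_ne_zero h1]
  congr 1
  rw [← Complex.natCast_log, ← Complex.natCast_log]
  push_cast
  rw [Real.log_pow]
  push_cast
  ring

theorem us_one {s : ℝ} (hq : 2 ≤ q) (hs : (D : ℝ) < s) : us q s < 1 := by
  have hs0 : 0 < s := lt_of_le_of_lt (Nat.cast_nonneg D) hs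
  exact Real.rpow_lt_one_of_one_lt_of_neg (by exact_mod_cast (by omega : 1 < q)) (by linarith)

include hq hdeg hfin hC in
theorem summable_us' {s : ℝ} (hs : (D : ℝ) < s) : Summable fun y => us q s ^ deg y := by
  classical
  have hu := us_pos hq s
  have hC0 := C_nonneg hq hC
  have hlt := us_lt hq hs
  have hv0 : 0 ≤ (q : ℝ) ^ D * us q s := by positivity
  refine summable_of_sum_le (c := C * ∑' d : ℕ, ((q : ℝ) ^ D * us q s) ^ d)
    (fun y => by positivity) fun u => ?_
  have h1 : ∑ y ∈ u, us q s ^ deg y =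
      ∑ d ∈ u.image deg, ∑ y ∈ u with deg y = d, us q s ^ deg y := by
    rw [Finset.sum_fiberwise_of_maps_to]
    intro y hy
    exact Finset.mem_image_of_mem _ hy
  have h2 : ∀ d ∈ u.image deg, ∑ y ∈ u with deg y = d, us q s ^ deg y ≤
      C * ((q : ℝ) ^ D * us q s) ^ d := by
    intro d _
    have h3 : ∀ y ∈ u.filter (fun y => deg y = d), us q s ^ deg y = us q s ^ d := by
      intro y hy
      rw [(Finset.mem_filter.mp hy).2]
    rw [Finset.sum_congr rfl h3, Finset.sum_const, nsmul_eq_mul]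
    have h4 : ((u.filter fun y => deg y = d).card : ℝ) ≤ Nat.card {y // deg y = d} := by
      have h5 : (u.filter fun y => deg y = d).card ≤ Nat.card {y // deg y = d} := by
        have h6 : ((u.filter fun y => deg y = d : Finset P) : Set P) ⊆ {y | deg y = d} := by
          intro y hy
          exact (Finset.mem_filter.mp (Finset.mem_coe.mp hy)).2
        rw [← Set.ncard_coe_finset]
        exact Set.ncard_le_ncard h6 (hfin d)
      exact_mod_cast h5
    calc ((u.filter fun y => deg y = d).card : ℝ) * us q s ^ d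
        ≤ (C * (q : ℝ) ^ (D * d)) * us q s ^ d :=
          mul_le_mul_of_nonneg_right (h4.trans (hC d)) (by positivity)
      _ = C * ((q : ℝ) ^ D * us q s) ^ d := by
          rw [mul_pow, ← pow_mul]
          ring
  rw [h1]
  refine (Finset.sum_le_sum h2).trans ?_
  rw [← Finset.mul_sum]
  refine mul_le_mul_of_nonneg_left ?_ hC0
  exact (summable_geometric_of_lt_one hv0 hlt).sum_le_tsum _ (fun d _ => by positivity)

include hq hdeg in
theorem us_deg {s : ℝ} (hs : (D : ℝ) < s) (y : P) : us q s ^ deg y ≤ us q s := by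
  have h2 := us_pos hq s
  calc us q s ^ deg y ≤ us q s ^ 1 :=
        pow_le_pow_of_le_one h2.le (us_one hq hs).le (hdeg y)
    _ = us q s := pow_one _

include hq hdeg hfin hC hG in
theorem summable_g {s : ℂ} (hs : (D : ℝ) < s.re) :
    Summable fun z : P × ℕ => (uc q s ^ deg z.1) ^ z.2 / z.2 *
      LinearMap.trace ℂ H (G z.1 ^ z.2) := by
  have hn : ∀ y, ‖uc q s ^ deg y‖ = us q s.re ^ deg y := fun y => by rw [norm_pow, norm_uc hq]
  have hu0 := us_pos hq s.re
  have hu1' := us_one hq hs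
  have hsum2 := summable_us' hq hdeg hfin hC hs
  have h1 : Summable fun z : P × ℕ =>
      ((us q s.re)⁻¹ * (finrank ℂ H : ℝ) * us q s.re ^ deg z.1) * (us q s.re ^ z.2) :=
    (hsum2.mul_left ((us q s.re)⁻¹ * (finrank ℂ H : ℝ))).mul_of_nonneg
      (summable_geometric_of_lt_one hu0.le hu1') (fun y => by positivity) (fun n => by positivity)
  refine Summable.of_norm_bounded h1 fun z => ?_
  obtain ⟨y, n⟩ := z
  rcases Nat.eq_zero_or_pos n with hn0 | hn0
  · subst hn0
    simp only [Nat.cast_zero, div_zero, zero_mul, norm_zero]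
    positivity
  · obtain ⟨k, rfl⟩ : ∃ k, n = k + 1 := ⟨n - 1, by omega⟩
    have e1 : ‖(uc q s ^ deg y) ^ (k + 1) / ((k + 1 : ℕ) : ℂ) *
        LinearMap.trace ℂ H (G y ^ (k + 1))‖ = (us q s.re ^ deg y) ^ (k + 1) /
          ‖((k + 1 : ℕ) : ℂ)‖ * ‖LinearMap.trace ℂ H (G y ^ (k + 1))‖ := by
      rw [norm_mul, norm_div, norm_pow, hn]
    change ‖(uc q s ^ deg y) ^ (k + 1) / ((k + 1 : ℕ) : ℂ) *
        LinearMap.trace ℂ H (G y ^ (k + 1))‖ ≤ _
    rw [e1]
    have hu := us_deg hq hdeg hs y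
    have hu1 : (0 : ℝ) ≤ us q s.re ^ deg y := by positivity
    have htr := norm_trace_pow_le' (hG y) (k + 1)
    have hn1 : (1 : ℝ) ≤ ‖((k + 1 : ℕ) : ℂ)‖ := by
      rw [Complex.norm_natCast]
      exact_mod_cast hn0
    have hpow : (us q s.re ^ deg y) ^ (k + 1) ≤
        (us q s.re)⁻¹ * us q s.re ^ deg y * us q s.re ^ (k + 1) := by
      have h3 := pow_le_pow_left₀ hu1 hu k
      have h4 : (us q s.re)⁻¹ * us q s.re ^ deg y * us q s.re ^ (k + 1) =
          us q s.re ^ deg y * us q s.re ^ k := by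
        rw [_root_.pow_succ]
        field_simp
      rw [h4, _root_.pow_succ, mul_comm]
      exact mul_le_mul_of_nonneg_left h3 hu1
    calc (us q s.re ^ deg y) ^ (k + 1) / ‖((k + 1 : ℕ) : ℂ)‖ *
          ‖LinearMap.trace ℂ H (G y ^ (k + 1))‖
        ≤ (us q s.re ^ deg y) ^ (k + 1) * (finrank ℂ H) := by
          refine mul_le_mul ?_ htr (norm_nonneg _) (by positivity)
          exact div_le_self (by positivity) hn1
      _ ≤ ((us q s.re)⁻¹ * us q s.re ^ deg y * us q s.re ^ (k + 1)) * (finrank ℂ H) :=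
          mul_le_mul_of_nonneg_right hpow (by positivity)
      _ = _ := by ring

include hq hdeg hfin hC hG in
theorem hasProd_euler' {s : ℂ} (hs : (D : ℝ) < s.re) :
    HasProd (fun y => (LinearMap.det (1 - uc q s ^ deg y • G y))⁻¹)
      (Complex.exp (∑' y, logdet (G y) (uc q s ^ deg y))) := by
  have hn : ∀ y, ‖uc q s ^ deg y‖ < 1 := fun y => by
    rw [norm_pow, norm_uc hq]
    exact (us_deg hq hdeg hs y).trans_lt (us_one hq hs)
  have hsum : Summable fun y => logdet (G y) (uc q s ^ deg y) := by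
    have h1 := (summable_g hq hdeg hfin hC hG hs).prod
    refine h1.congr fun y => ?_
    exact (hasSum_logdet (hG y) (hn y)).tsum_eq
  have h := hsum.hasSum.cexp
  have h2 : (fun y => (LinearMap.det (1 - uc q s ^ deg y • G y))⁻¹) =
      Complex.exp ∘ fun y => logdet (G y) (uc q s ^ deg y) := by
    funext y
    rw [Function.comp_apply, exp_logdet (hG y) (hn y)]
  rw [h2]
  exact h

include hq hdeg hfin hC hG in
theorem hasSum_traces' {s : ℂ} (hs : (D : ℝ) < s.re) :
    HasSum (fun m : ℕ => uc q s ^ m / m * traceSum deg G m)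
      (∑' y, logdet (G y) (uc q s ^ deg y)) := by
  have hn : ∀ y, ‖uc q s ^ deg y‖ < 1 := fun y => by
    rw [norm_pow, norm_uc hq]
    exact (us_deg hq hdeg hs y).trans_lt (us_one hq hs)
  set g : P × ℕ → ℂ := fun z => (uc q s ^ deg z.1) ^ z.2 / z.2 *
    LinearMap.trace ℂ H (G z.1 ^ z.2) with hg
  have hsum : Summable g := summable_g hq hdeg hfin hC hG hs
  have h2 : ∑' z, g z = ∑' y, logdet (G y) (uc q s ^ deg y) := by
    rw [hsum.tsum_prod]
    refine tsum_congr fun y => ?_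
    exact (hasSum_logdet (hG y) (hn y)).tsum_eq
  have h3 := (hsum.hasSum).tsum_fiberwise (fun z : P × ℕ => z.2 * deg z.1)
  rw [h2] at h3
  have h4 : (fun m : ℕ => uc q s ^ m / m * traceSum deg G m) =
      fun m : ℕ => ∑' b : ((fun z : P × ℕ => z.2 * deg z.1) ⁻¹' {m} : Set (P × ℕ)), g b := by
    funext m
    rcases Nat.eq_zero_or_pos m with hm | hm
    · subst hm
      have h5 : ∀ b : ((fun z : P × ℕ => z.2 * deg z.1) ⁻¹' {0} : Set (P × ℕ)), g b = 0 := by
        rintro ⟨⟨y, n⟩, hn'⟩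
        have h6 : n * deg y = 0 := hn'
        have h7 : n = 0 := by
          rcases Nat.mul_eq_zero.mp h6 with h | h
          · exact h
          · exact absurd h (hdeg _).ne'
        subst h7
        simp [hg]
      rw [tsum_congr h5, tsum_zero]
      simp
    · rw [← (fibEquiv hdeg hm).tsum_eq]
      unfold traceSum
      rw [← tsum_mul_left]
      refine tsum_congr fun y => ?_
      obtain ⟨y, d, hd⟩ := y
      have hdg := hdeg y
      have hdpos : 0 < d := by
        rcases Nat.eq_zero_or_pos d with h | h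
        · rw [h, mul_zero] at hd; omega
        · exact h
      have hdiv : m / deg y = d := by rw [hd]; exact Nat.mul_div_cancel_left d hdg
      change _ = (uc q s ^ deg y) ^ (m / deg y) / ((m / deg y : ℕ) : ℂ) *
        LinearMap.trace ℂ H (G y ^ (m / deg y))
      simp only
      rw [hdiv, ← pow_mul, ← hd]
      have h8 : (m : ℂ) = (deg y : ℂ) * (d : ℂ) := by rw [hd]; push_cast; ring
      have h9 : (deg y : ℂ) ≠ 0 := by exact_mod_cast hdg.ne'
      have h10 : (d : ℂ) ≠ 0 := by exact_mod_cast hdpos.ne'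
      rw [h8]
      field_simp
  rw [h4]
  exact h3

variable {V : Type} [AddCommGroup V] [Module ℂ V] [FiniteDimensional ℂ V] {Fr : Module.End ℂ V}
  (hFr : Bd Fr) {N : ℕ} {ε : Fin N → ℤ} {β : Fin N → ℂ}
  (hβ : ∀ k, ‖β k‖ ≤ (q : ℝ) ^ ((D : ℝ) - 1 / 2))
  (htr : ∀ n : ℕ, 0 < n → traceSum deg G n =
    ((q : ℂ) ^ D) ^ n * LinearMap.trace ℂ V (Fr ^ n) + ∑ k, (ε k : ℂ) * β k ^ n)

/-- the rational function of `q^{-s}` -/
def ratFun (q D : ℕ) (Fr : Module.End ℂ V) {N : ℕ} (ε : Fin N → ℤ) (β : Fin N → ℂ) (s : ℂ) : ℂ :=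
  (LinearMap.det (1 - ((q : ℂ) ^ D * uc q s) • Fr))⁻¹ * ∏ k, ((1 - β k * uc q s)⁻¹) ^ ε k

include hq in
theorem norm_qD {s : ℂ} (hs : (D : ℝ) < s.re) : ‖(q : ℂ) ^ D * uc q s‖ < 1 := by
  rw [norm_mul, norm_pow, Complex.norm_natCast, norm_uc hq]
  exact us_lt hq hs

include hq hβ in
theorem norm_β {s : ℂ} (hs : (D : ℝ) ≤ s.re) (k : Fin N) : ‖β k * uc q s‖ < 1 := by
  have hq0 : (0 : ℝ) < q := by exact_mod_cast (by omega : 0 < q)
  have hq1 : (1 : ℝ) ≤ q := by exact_mod_cast (by omega : 1 ≤ q)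
  rw [norm_mul, norm_uc hq]
  refine (mul_le_mul_of_nonneg_right (hβ k) (us_pos hq _).le).trans_lt ?_
  rw [us, ← Real.rpow_add hq0]
  refine (Real.rpow_le_rpow_of_exponent_le hq1 (by linarith : (D : ℝ) - 1 / 2 + -s.re ≤
    -(1 / 2))).trans_lt (root_lt hq)

include hq hdeg hfin hC hG hFr hβ htr in
theorem exp_eq {s : ℂ} (hs : (D : ℝ) < s.re) :
    Complex.exp (∑' y, logdet (G y) (uc q s ^ deg y)) = ratFun q D Fr ε β s := by
  have h1 := hasSum_traces' hq hdeg hfin hC hG hs
  have h2 := hasSum_logdet hFr (norm_qD hq hs)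
  have h3 : HasSum (fun n : ℕ => ∑ k, (ε k : ℂ) * ((β k * uc q s) ^ n / n))
      (∑ k, (ε k : ℂ) * ell (β k * uc q s)) :=
    hasSum_sum fun k _ => (hasSum_ell (norm_β hq hβ hs.le k)).mul_left _
  have h4 := h2.add h3
  have h5 : (fun n : ℕ => ((q : ℂ) ^ D * uc q s) ^ n / n * LinearMap.trace ℂ V (Fr ^ n) +
      ∑ k, (ε k : ℂ) * ((β k * uc q s) ^ n / n)) =
      fun n : ℕ => uc q s ^ n / n * traceSum deg G n := by
    funext n
    rcases Nat.eq_zero_or_pos n with hn | hn
    · subst hn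
      simp
    · rw [htr n hn, mul_add, Finset.mul_sum, mul_pow]
      congr 1
      · ring
      · refine Finset.sum_congr rfl fun k _ => ?_
        rw [mul_pow]
        ring
  rw [h5] at h4
  rw [h1.unique h4, Complex.exp_add, exp_logdet hFr (norm_qD hq hs), Complex.exp_sum, ratFun]
  congr 1
  refine Finset.prod_congr rfl fun k _ => ?_
  rw [Complex.exp_int_mul, exp_ell (norm_β hq hβ hs.le k)]

include hq in
theorem analytic_uc (s : ℂ) : AnalyticAt ℂ (uc q) s := by
  have h0 : (q : ℂ) ≠ 0 := by exact_mod_cast (by omega : q ≠ 0)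
  have h1 : uc q = fun s => Complex.exp (Complex.log q * (-s)) := by
    funext s
    exact Complex.cpow_def_of_ne_zero h0 _
  rw [h1]
  exact (analyticAt_const.mul analyticAt_id.neg).cexp'

end

end Pool.Agent.N995.OD
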