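import Mathlib
import Pool.Agent.N995.Os1
import Pool.Agent.N995.Od8

/-!
# The order of the pole
-/

set_option autoImplicit false
set_option linter.unusedSectionVars false

open Filter Topology Module Polynomial TensorProduct
open Pool.Agent.N184.QP

namespace Pool.Agent.N995.OD

noncomputable section

section order

variable {q D : ℕ} (hq : 2 ≤ q) {V : Type} [AddCommGroup V] [Module ℂ V] [FiniteDimensional ℂ V]
  {Fr : Module.End ℂ V} {N : ℕ} {ε : Fin N → ℤ} {β : Fin N → ℂ}

theorem analytic_det (Fr : Module.End ℂ V) {g : ℂ → ℂ} {s : ℂ} (hg : AnalyticAt ℂ g s) :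
    AnalyticAt ℂ (fun s => LinearMap.det (1 - g s • Fr)) s := by
  have h1 : (fun s => LinearMap.det (1 - g s • Fr)) = fun s => ∏ j, (1 - g s * eig Fr j) := by
    funext s
    exact det_eig Fr _
  rw [h1]
  exact Finset.analyticAt_fun_prod _ fun j _ => analyticAt_const.sub (hg.mul analyticAt_const)

include hq in
theorem meromorphic_ratFun : Meromorphic (ratFun q D Fr ε β) := by
  intro s
  have h1 : MeromorphicAt (fun s => (LinearMap.det (1 - ((q : ℂ) ^ D * uc q s) • Fr))⁻¹) s :=
    (analytic_det Fr (analyticAt_const.mul (analytic_uc hq s))).meromorphicAt.inv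
  have h2 : MeromorphicAt (fun s => ∏ k, ((1 - β k * uc q s)⁻¹) ^ ε k) s := by
    refine MeromorphicAt.fun_prod fun k _ => ?_
    have h3 : AnalyticAt ℂ (fun s => 1 - β k * uc q s) s :=
      analyticAt_const.sub (analyticAt_const.mul (analytic_uc hq s))
    exact h3.meromorphicAt.inv.zpow (ε k)
  exact h1.mul h2

include hq in
theorem uc_D : (q : ℂ) ^ D * uc q (D : ℂ) = 1 := by
  have h0 : (q : ℂ) ≠ 0 := by exact_mod_cast (by omega : q ≠ 0)
  unfold uc
  rw [Complex.cpow_neg, Complex.cpow_natCast, mul_inv_cancel₀ (pow_ne_zero _ h0)]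

include hq in
theorem order_ratFun (hβ : ∀ k, ‖β k‖ ≤ (q : ℝ) ^ ((D : ℝ) - 1 / 2)) {r : ℕ} {S : ℂ → ℂ}
    (hS : AnalyticAt ℂ S 1) (hS1 : S 1 ≠ 0)
    (hdet : ∀ v : ℂ, LinearMap.det (1 - v • Fr) = (1 - v) ^ r * S v) :
    meromorphicOrderAt (ratFun q D Fr ε β) (D : ℂ) = ((-(r : ℤ) : ℤ) : WithTop ℤ) := by
  have hq0 : (q : ℂ) ≠ 0 := by exact_mod_cast (by omega : q ≠ 0)
  let h : ℂ → ℂ := fun s => 1 - (q : ℂ) ^ D * uc q s
  have hD1 := uc_D (D := D) hq
  have hh : AnalyticAt ℂ h (D : ℂ) := analyticAt_const.sub (analyticAt_const.mul (analytic_uc hq _))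
  have hder : deriv h (D : ℂ) ≠ 0 := by
    have h1 : HasDerivAt (uc q) (uc q (D : ℂ) * (Complex.log q * -1)) (D : ℂ) := by
      have h2 : uc q = fun s => Complex.exp (Complex.log q * (-s)) := by
        funext s
        exact Complex.cpow_def_of_ne_zero hq0 _
      rw [h2]
      exact (((hasDerivAt_id (D : ℂ)).neg).const_mul (Complex.log q)).cexp
    have h2 : HasDerivAt h (-((q : ℂ) ^ D * (uc q (D : ℂ) * (Complex.log q * -1)))) (D : ℂ) :=
      (h1.const_mul _).const_sub _
    rw [h2.deriv]
    have h3 : -((q : ℂ) ^ D * (uc q (D : ℂ) * (Complex.log q * -1))) = Complex.log q := by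
      linear_combination Complex.log q * hD1
    rw [h3, ← Complex.natCast_log]
    have hq1 : (1 : ℝ) < q := by exact_mod_cast (by omega : 1 < q)
    exact_mod_cast (Real.log_pos hq1).ne'
  have hord : meromorphicOrderAt h (D : ℂ) = 1 := by
    have h1 := meromorphicOrderAt_comp_of_deriv_ne_zero (f := (id : ℂ → ℂ)) hh hder
    have h2 : h (D : ℂ) = 0 := by
      change 1 - (q : ℂ) ^ D * uc q (D : ℂ) = 0
      rw [hD1, sub_self]
    rw [h2, meromorphicOrderAt_id] at h1
    exact h1
  let g : ℂ → ℂ := fun s => (S ((q : ℂ) ^ D * uc q s))⁻¹ * ∏ k, ((1 - β k * uc q s)⁻¹) ^ ε k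
  have hgan : AnalyticAt ℂ g (D : ℂ) := by
    refine AnalyticAt.mul (AnalyticAt.inv ?_ ?_) (Finset.analyticAt_fun_prod _ fun k _ => ?_)
    · have h2 : AnalyticAt ℂ (fun s => (q : ℂ) ^ D * uc q s) (D : ℂ) :=
        analyticAt_const.mul (analytic_uc hq _)
      exact AnalyticAt.comp' (g := S) (by rw [hD1]; exact hS) h2
    · rw [hD1]
      exact hS1
    · have h3 : AnalyticAt ℂ (fun s => 1 - β k * uc q s) (D : ℂ) :=
        analyticAt_const.sub (analyticAt_const.mul (analytic_uc hq _))
      have h4 : 1 - β k * uc q (D : ℂ) ≠ 0 := by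
        intro h0
        have h5 := norm_β hq hβ (s := (D : ℂ)) (by simp) k
        rw [← sub_eq_zero.1 h0, norm_one] at h5
        exact lt_irrefl _ h5
      exact (h3.inv h4).zpow (inv_ne_zero h4)
  have hg0 : g (D : ℂ) ≠ 0 := by
    refine mul_ne_zero (inv_ne_zero (by rw [hD1]; exact hS1)) (Finset.prod_ne_zero_iff.2
      fun k _ => zpow_ne_zero _ (inv_ne_zero fun h0 => ?_))
    have h5 := norm_β hq hβ (s := (D : ℂ)) (by simp) k
    rw [← sub_eq_zero.1 h0, norm_one] at h5
    exact lt_irrefl _ h5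
  have heq : ratFun q D Fr ε β = g * (h ^ r)⁻¹ := by
    funext s
    simp only [ratFun, Pi.mul_apply, Pi.inv_apply, Pi.pow_apply, g, h, hdet, mul_inv]
    ring
  rw [heq, meromorphicOrderAt_mul_of_ne_zero hgan hg0, meromorphicOrderAt_inv,
    meromorphicOrderAt_pow hh.meromorphicAt, hord, mul_one]
  rfl

end order

section det

variable {K : Type} [Field K] [CharZero K] [Algebra K ℂ] {Γ : Type} [Group Γ] {W : Type}
  [AddCommGroup W] [Module K W] [FiniteDimensional K W]

/-- `U` is a space with the operator `Fr`, the sum of the invariants and of a stable subspace `C`: the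
characteristic polynomial of `Fr`. -/
theorem det_fr' {R : Representation K Γ W} {U : Submodule K W} {Fr : Module.End K U} {σ : Γ}
    (hinv : ∀ w : W, (∀ g, R g w = w) → w ∈ U) (hFr : ∀ w : U, (Fr w : W) = R σ w)
    (hfix : ∀ w ∈ U, R σ w = w → ∀ g, R g w = w) {C : Submodule K W}
    (hC : ∀ g, ∀ w ∈ C, R g w ∈ C) (hdis : ∀ w ∈ R.invariants, w ∈ C → w = 0)
    (hsum : ∀ w ∈ U, ∃ a ∈ R.invariants, ∃ c ∈ C, w = a + c) :
    ∃ S : ℂ → ℂ, (∀ v, AnalyticAt ℂ S v) ∧ S 1 ≠ 0 ∧
      ∀ v : ℂ, LinearMap.det (1 - v • Fr.baseChange ℂ) =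
        (1 - v) ^ finrank K R.invariants * S v := by
  classical
  let I₀ : Submodule K U := R.invariants.comap U.subtype
  let U₀ : Submodule K U := C.comap U.subtype
  have hc₀ : IsCompl I₀ U₀ := by
    constructor
    · rw [Submodule.disjoint_def]
      intro x hx hx'
      exact Subtype.ext (hdis _ hx hx')
    · rw [codisjoint_iff, eq_top_iff]
      rintro x -
      obtain ⟨a, ha, b, hb, hab⟩ := hsum x x.2
      have ha' : a ∈ U := hinv a ((Representation.mem_invariants R a).1 ha)
      have hb' : b ∈ U := by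
        have h2 : b = (x : W) - a := by rw [hab]; abel
        rw [h2]
        exact U.sub_mem x.2 ha'
      exact Submodule.mem_sup.2 ⟨⟨a, ha'⟩, ha, ⟨b, hb'⟩, hb, Subtype.ext hab.symm⟩
  have hFrI : ∀ x ∈ I₀, Fr x = x := by
    intro x hx
    apply Subtype.ext
    rw [hFr]
    exact (Representation.mem_invariants R (x : W)).1 hx _
  have hFrU : ∀ x ∈ U₀, Fr x ∈ U₀ := by
    intro x hx
    change ((Fr x : U) : W) ∈ C
    rw [hFr]
    exact hC _ _ hx
  let FU : Module.End K U₀ := Fr.restrict hFrU
  let e := Submodule.prodEquivOfIsCompl I₀ U₀ hc₀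
  have hconj : e.conj (LinearMap.prodMap (1 : Module.End K I₀) FU) = Fr := by
    refine LinearMap.ext fun x => ?_
    obtain ⟨y, rfl⟩ := e.surjective x
    rw [LinearEquiv.conj_apply_apply, e.symm_apply_apply]
    obtain ⟨a, b⟩ := y
    rw [LinearMap.prodMap_apply]
    change e (a, FU b) = _
    rw [Submodule.coe_prodEquivOfIsCompl', Submodule.coe_prodEquivOfIsCompl', map_add]
    rw [hFrI a a.2]
    rfl
  have hchar : Fr.charpoly = (X - Polynomial.C 1) ^ finrank K I₀ * FU.charpoly := by
    rw [← hconj, LinearEquiv.charpoly_conj, LinearMap.charpoly_prodMap]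
    congr 1
    rw [LinearMap.charpoly_one, map_one]
  have hfr : finrank K I₀ = finrank K R.invariants := by
    have h1 : R.invariants ≤ U := fun w hw =>
      hinv w ((Representation.mem_invariants R w).1 hw)
    exact (Submodule.comapSubtypeEquivOfLe h1).finrank_eq
  have hQ1 : ¬ FU.charpoly.IsRoot 1 := by
    intro hr
    have h1 : FU.HasEigenvalue 1 := (Module.End.hasEigenvalue_iff_isRoot_charpoly _ _).2 hr
    obtain ⟨x, hx⟩ := h1.exists_hasEigenvector
    have h2 : FU x = x := by
      have := hx.apply_eq_smul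
      rwa [one_smul] at this
    have h3 : R σ ((x : U) : W) = ((x : U) : W) := by
      have h4 := congrArg (fun y : U₀ => ((y : U) : W)) h2
      have h5 : ((FU x : U) : W) = R σ ((x : U) : W) := hFr x
      rw [← h5]
      exact h4
    have h5 : ((x : U) : W) ∈ R.invariants :=
      (Representation.mem_invariants R _).2 (hfix _ (x : U).2 h3)
    have h6 := hdis _ h5 x.2
    exact hx.2 (Subtype.ext (Subtype.ext h6))
  let Q : ℂ[X] := FU.charpoly.map (algebraMap K ℂ)
  have hQm : Q.Monic := (LinearMap.charpoly_monic FU).map _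
  have hcharC : (Fr.baseChange ℂ).charpoly =
      (X - Polynomial.C 1) ^ finrank K R.invariants * Q := by
    rw [LinearMap.charpoly_baseChange, hchar, hfr, Polynomial.map_mul, Polynomial.map_pow,
      Polynomial.map_sub, Polynomial.map_X, Polynomial.map_C, map_one]
  have hroots : (Fr.baseChange ℂ).charpoly.roots =
      Multiset.replicate (finrank K R.invariants) 1 + Q.roots := by
    have hne : (X - Polynomial.C (1 : ℂ)) ^ finrank K R.invariants * Q ≠ 0 :=
      (((monic_X_sub_C _).pow _).mul hQm).ne_zero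
    rw [hcharC, roots_mul hne, roots_pow, roots_X_sub_C, Multiset.nsmul_singleton]
  refine ⟨fun v => (Q.roots.map fun z => 1 - v * z).prod, ?_, ?_, fun v => ?_⟩
  · have hcont : ∀ (s : Multiset ℂ) (v : ℂ),
        AnalyticAt ℂ (fun v : ℂ => (s.map fun z => 1 - v * z).prod) v := by
      intro s v
      induction s using Multiset.induction_on with
      | empty => simpa using analyticAt_const
      | cons a s ih =>
        simp only [Multiset.map_cons, Multiset.prod_cons]
        exact (analyticAt_const.sub (analyticAt_id.mul analyticAt_const)).mul ih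
    exact hcont _
  · refine Multiset.prod_ne_zero fun h0 => ?_
    obtain ⟨z, hz, hz1⟩ := Multiset.mem_map.1 h0
    have hz2 : z = 1 := by
      rw [one_mul] at hz1
      exact (sub_eq_zero.1 hz1).symm
    rw [hz2, mem_roots hQm.ne_zero, IsRoot, eval_map, ← map_one (algebraMap K ℂ), eval₂_hom,
      map_eq_zero] at hz
    exact hQ1 hz
  · rw [det_one_sub, hroots, Multiset.map_add, Multiset.prod_add, Multiset.map_replicate,
      Multiset.prod_replicate, mul_one]

end det

end

end Pool.Agent.N995.OD
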