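import Mathlib
import Pool.Agent.N995.OdG

/-!
# Cycles on singular and open varieties over finitely generated fields of characteristic `p`

For a variety `X` over `k` and cycles of dimension `i` there are: the Borel-Moore homology group
`W = H_{2 i}(X ⊗ k̄, ℚ_ℓ(i))` (`K = ℚ_ℓ`), with the action `R` of the Galois group `Γ` of `k`, the rational
space `Z` of the classes of algebraic cycles on `X ⊗ k̄`, and the group `L` of the classes in `W` of
algebraic cycles on `X` (the group `B_i(X)` modulo torsion).
-/

namespace Pool.Agent.N995.OD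

open Module TensorProduct

variable {K : Type} [Field K] [CharZero K] {Γ : Type} [Group Γ]
  {W W' WY WV : Type} [AddCommGroup W] [Module K W] [Module ℚ W] [AddCommGroup W'] [Module K W']
  [Module ℚ W'] [AddCommGroup WY] [Module K WY] [AddCommGroup WV] [Module K WV]

/-- The variety is smooth and projective, and the Galois group acts semisimply on the homology group, also
over finite extensions: the Galois group permutes the classes of cycles over `k̄`, each is fixed by a
subgroup of finite index, and the invariant ones have multiples that are classes of cycles over `k`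
(transfer). -/
structure IsCycleGroup (R : Representation K Γ W) (Z : Submodule ℚ W) (L : AddSubgroup W) : Prop where
  stable : ∀ g, ∀ w ∈ Z, R g w ∈ Z
  finite : ∀ w ∈ Z, ∃ Δ : Subgroup Γ, Δ.FiniteIndex ∧ ∀ g ∈ Δ, R g w = w
  cycles : ∀ w ∈ L, w ∈ fixedClasses R Z
  transfer : ∀ w ∈ fixedClasses R Z, ∃ n : ℕ, 0 < n ∧ n • w ∈ L
  semisimple : ∀ Δ : Subgroup Γ, Δ.FiniteIndex → ∀ U : Submodule K W,
    (∀ g ∈ Δ, ∀ u ∈ U, R g u ∈ U) →
      ∃ U' : Submodule K W, (∀ g ∈ Δ, ∀ u ∈ U', R g u ∈ U') ∧ IsCompl U U'

/-- The groups of a smooth projective variety for cycles of dimension `i` and of codimension `i`, with the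
intersection pairing. -/
structure IsDual (R : Representation K Γ W) (R' : Representation K Γ W') (Z : Submodule ℚ W)
    (Z' : Submodule ℚ W') (L : AddSubgroup W) (L' : AddSubgroup W') (B : W →ₗ[K] W' →ₗ[K] K) :
    Prop where
  left : ∀ w, (∀ w', B w w' = 0) → w = 0
  right : ∀ w', (∀ w, B w w' = 0) → w' = 0
  inv : ∀ g w w', B (R g w) (R' g w') = B w w'
  rational : ∀ w ∈ Z, ∀ w' ∈ Z', ∃ r : ℚ, B w w' = r
  integral : ∀ w ∈ L, ∀ w' ∈ L', ∃ r : ℤ, B w w' = r

/-- `W` is the group of a variety `X`, which may be singular and need not be proper, `WV` the group of a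
smooth projective variety `X''` with a proper surjective map from an open subvariety `X'` of `X''` to `X`
(alteration of a compactification, de Jong), `WY` the group of a smooth projective variety which is mapped
onto `X'' \ X'`, disjoint union such a variety for the closure of the fibre product of `X'` with itself over
`X`. The map `u` is the restriction to `X'` followed by the direct image to `X`, its image is the part of
weight zero, and `v` is given by direct images; the sequence is exact by the theory of weights (Deligne). -/
structure IsPresentation (RY : Representation K Γ WY) (RV : Representation K Γ WV)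
    (R : Representation K Γ W) (LY : AddSubgroup WY) (LV : AddSubgroup WV) (L : AddSubgroup W)
    (v : WY →ₗ[K] WV) (u : WV →ₗ[K] W) : Prop where
  equivariant : ∀ g w, v (RY g w) = RV g (v w)
  equivariant' : ∀ g w, u (RV g w) = R g (u w)
  exact : LinearMap.range v = LinearMap.ker u
  weights : ∀ w, (∀ g, R g w = w) → w ∈ LinearMap.range u
  cycles : ∀ w ∈ LY, v w ∈ LV
  cycles' : ∀ w ∈ LV, u w ∈ L
  multiple : ∃ n : ℕ, 0 < n ∧ ∀ w ∈ L, ∃ z ∈ LV, u z = n • w

/-- `X` is extended to a morphism to a smooth variety `S` of dimension `D` over the field with `q` elements,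
with function field `k`, such that the direct image `H_c^{2 i}(i)` with compact supports is a mixed lisse
sheaf of weights at most zero; it is dual to the homology group `W`, whose part of weight zero is `T`. The
set of closed points of `S` is `P`, the residue field at `y` has `q ^ deg y` elements, `F y` is a Frobenius
element at `y`, `W₀` is the space of the invariants of the geometric fundamental group in `T`, and `φ` acts
as the Frobenius automorphism on the constants; its action on `W₀` is `Fr`. The properties are: there are
`O(q ^ (D n))` points of degree `n`; Deligne's theorem; the geometric fundamental group and `φ` generate the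
fundamental group topologically; the trace formula of Grothendieck for `H_c^{2 i}(i)`: the eigenvalues of
Frobenius on the cohomology groups with compact supports are those of `q ^ D Fr` (in degree `2 D`) and
numbers of absolute value at most `q ^ (D - 1 / 2)` (Deligne), counted with signs. -/
structure IsOpenModel [Algebra K ℂ] (q D : ℕ) (R : Representation K Γ W) (T : Submodule K W) {P : Type}
    (deg : P → ℕ) (F : P → Γ) (φ : Γ) (W₀ : Submodule K W) (Fr : Module.End K W₀) {N : ℕ}
    (ε : Fin N → ℤ) (β : Fin N → ℂ) : Prop where
  deg_pos : ∀ y, 0 < deg y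
  finite : ∀ d, {y | deg y = d}.Finite
  count : ∃ C : ℝ, ∀ d : ℕ, (Nat.card {y // deg y = d} : ℝ) ≤ C * (q : ℝ) ^ (D * d)
  bounded : ∀ y μ, Module.End.HasEigenvalue ((R (F y)).baseChange ℂ) μ → ‖μ‖ ≤ 1
  weight : W₀ ≤ T
  invariants : ∀ w, (∀ g, R g w = w) → w ∈ W₀
  frobenius : ∀ w : W₀, (Fr w : W) = R φ w
  generate : ∀ w ∈ W₀, R φ w = w → ∀ g, R g w = w
  pure : ∀ μ, Module.End.HasEigenvalue (Fr.baseChange ℂ) μ → ‖μ‖ = 1
  error : ∀ k, ‖β k‖ ≤ (q : ℝ) ^ ((D : ℝ) - 1 / 2)
  trace : ∀ n : ℕ, 0 < n → traceSum deg (fun y => (R (F y)).baseChange ℂ) n =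
    ((q : ℂ) ^ D) ^ n * LinearMap.trace ℂ (ℂ ⊗[K] W₀) (Fr.baseChange ℂ ^ n) +
      ∑ k, (ε k : ℂ) * β k ^ n

/-- The Euler product of the factors `det (1 - N y ^ (-s) G y)⁻¹` converges for `Re s > D` and has a
meromorphic continuation to the complex plane, of order `n` at `D`. -/
def HasOrder {P : Type} {V : Type} [AddCommGroup V] [Module ℂ V] (N : P → ℕ)
    (G : P → Module.End ℂ V) (D : ℕ) (n : ℤ) : Prop :=
  ∃ Φ : ℂ → ℂ, Meromorphic Φ ∧ (∀ s : ℂ, (D : ℝ) < s.re →
    HasProd (fun y => (LinearMap.det (1 - (N y : ℂ) ^ (-s) • G y))⁻¹) (Φ s)) ∧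
      meromorphicOrderAt Φ D = n

end Pool.Agent.N995.OD
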