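import Mathlib
import Pool.Agent.N995.OsS
import Pool.Agent.N995.Os2
import Pool.Agent.N995.Od7

/-!
# Cycles on singular and open varieties
-/

set_option autoImplicit false
set_option linter.unusedSectionVars false

open Module TensorProduct

namespace Pool.Agent.N995.OD

noncomputable section

variable {K : Type} [Field K] [CharZero K] {Γ : Type} [Group Γ]

/-- invariants of the image -/
theorem lift_fixed {W W' : Type} [AddCommGroup W] [Module K W] [AddCommGroup W'] [Module K W']
    {R : Representation K Γ W} {R' : Representation K Γ W'} (u : W →ₗ[K] W')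
    (hu : ∀ g w, u (R g w) = R' g (u w))
    (hss : ∀ U : Submodule K W, (∀ g, ∀ x ∈ U, R g x ∈ U) →
      ∃ U' : Submodule K W, (∀ g, ∀ x ∈ U', R g x ∈ U') ∧ IsCompl U U')
    {w : W'} (hw : ∀ g, R' g w = w) (hr : w ∈ LinearMap.range u) :
    ∃ x, (∀ g, R g x = x) ∧ u x = w := by
  obtain ⟨C, hC, hc⟩ := hss (LinearMap.ker u) fun g x hx => by
    rw [LinearMap.mem_ker] at hx ⊢
    rw [hu, hx, map_zero]
  obtain ⟨y, rfl⟩ := hr
  have h1 : y ∈ LinearMap.ker u ⊔ C := by rw [hc.sup_eq_top]; trivial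
  obtain ⟨a, ha, c, hc', rfl⟩ := Submodule.mem_sup.1 h1
  rw [LinearMap.mem_ker] at ha
  have h2 : u (a + c) = u c := by rw [map_add, ha, zero_add]
  rw [h2] at hw ⊢
  refine ⟨c, fun g => ?_, rfl⟩
  have h3 : R g c - c ∈ C := C.sub_mem (hC g c hc') hc'
  have h4 : R g c - c ∈ LinearMap.ker u := by
    rw [LinearMap.mem_ker, map_sub, hu, hw, sub_self]
  exact sub_eq_zero.1 ((Submodule.disjoint_def.1 hc.disjoint) _ h4 h3)

section cyc

variable {WV WV' : Type} [AddCommGroup WV] [Module K WV] [Module ℚ WV] [FiniteDimensional K WV]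
  [AddCommGroup WV'] [Module K WV'] [Module ℚ WV'] [FiniteDimensional K WV']
  {RV : Representation K Γ WV} {ZV : Submodule ℚ WV} {LV : AddSubgroup WV}
  {RV' : Representation K Γ WV'} {ZV' : Submodule ℚ WV'} {LV' : AddSubgroup WV'}
  {B : WV →ₗ[K] WV' →ₗ[K] K}

theorem IsCycleGroup.ss (h : IsCycleGroup RV ZV LV) (U : Submodule K WV)
    (hU : ∀ g, ∀ x ∈ U, RV g x ∈ U) :
    ∃ U' : Submodule K WV, (∀ g, ∀ x ∈ U', RV g x ∈ U') ∧ IsCompl U U' := by
  obtain ⟨U', h1, h2⟩ := h.semisimple ⊤ inferInstance U fun g _ => hU g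
  exact ⟨U', fun g => h1 g trivial, h2⟩

/-- the classes over `k` span -/
theorem IsCycleGroup.span_L (h : IsCycleGroup RV ZV LV) :
    Submodule.span K (fixedClasses RV ZV : Set WV) = Submodule.span K (LV : Set WV) := by
  refine le_antisymm (Submodule.span_le.2 fun w hw => ?_)
    (Submodule.span_mono fun w hw => h.cycles w hw)
  obtain ⟨n, hn, hw'⟩ := h.transfer w hw
  have hn' : (n : K) ≠ 0 := by exact_mod_cast hn.ne'
  have h1 : w = (n : K)⁻¹ • (n • w) := by
    rw [← Nat.cast_smul_eq_nsmul K, smul_smul, inv_mul_cancel₀ hn', one_smul]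
  rw [h1]
  exact Submodule.smul_mem _ _ (Submodule.subset_span hw')

theorem toPair (hV : IsCycleGroup RV ZV LV) (hV' : IsCycleGroup RV' ZV' LV')
    (hB : IsDual RV RV' ZV ZV' LV LV' B) : IsCyclePair RV RV' ZV ZV' B where
  left := hB.left
  right := hB.right
  inv := hB.inv
  stable := hV.stable
  stable' := hV'.stable
  finite := hV.finite
  finite' := hV'.finite
  rational := hB.rational
  semisimple := hV.semisimple
  semisimple' := hV'.semisimple

/-- The group of the classes of cycles on a smooth projective variety is finitely generated. -/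
theorem finite_L (hV : IsCycleGroup RV ZV LV) (hV' : IsCycleGroup RV' ZV' LV')
    (hB : IsDual RV RV' ZV ZV' LV LV' B)
    (hspan' : ∀ w', (∀ g, RV' g w' = w') →
      w' ∈ Submodule.span K (fixedClasses RV' ZV' : Set WV')) :
    Module.Finite ℤ LV := by
  classical
  obtain ⟨t, ht, hspan, hli⟩ := exists_linearIndependent K (LV' : Set WV')
  have hfin : Finite t := hli.finite
  choose f hf using fun (w : LV) (x : t) => hB.integral w w.2 x (ht x.2)
  let φ : LV →ₗ[ℤ] (t → ℤ) := AddMonoidHom.toIntLinearMap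
    { toFun := fun w => f w
      map_zero' := by
        funext x
        have h1 := hf 0 x
        rw [AddSubgroup.coe_zero, map_zero, LinearMap.zero_apply] at h1
        exact_mod_cast h1.symm
      map_add' := fun w w' => by
        funext x
        have h1 := hf (w + w') x
        rw [AddSubgroup.coe_add, map_add, LinearMap.add_apply, hf, hf] at h1
        exact_mod_cast h1.symm }
  have hinj : Function.Injective φ := by
    rw [injective_iff_map_eq_zero]
    intro w hw
    by_contra hne
    have hne' : (w : WV) ≠ 0 := fun h => hne (Subtype.ext h)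
    obtain ⟨w', hw', hBw⟩ := exists_pair (toPair hV hV' hB) (hV.cycles w w.2).2 hne'
    apply hBw
    have h1 : Submodule.span K t ≤ LinearMap.ker (B w) := Submodule.span_le.2 fun x hx => by
      have h2 := hf w ⟨x, hx⟩
      have h3 : f w ⟨x, hx⟩ = 0 := congrFun hw ⟨x, hx⟩
      rw [h3] at h2
      change B w x = 0
      rw [h2, Int.cast_zero]
    refine h1 ?_
    rw [hspan, ← hV'.span_L]
    exact hspan' w' hw'
  exact Module.Finite.of_injective φ hinj

end cyc

section pres

variable {WY WV WV' WU : Type} [AddCommGroup WY] [Module K WY] [Module ℚ WY]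
  [FiniteDimensional K WY] [AddCommGroup WV] [Module K WV] [Module ℚ WV] [FiniteDimensional K WV]
  [AddCommGroup WV'] [Module K WV'] [Module ℚ WV'] [FiniteDimensional K WV'] [AddCommGroup WU]
  [Module K WU] [Module ℚ WU] [FiniteDimensional K WU] {RY : Representation K Γ WY}
  {RV : Representation K Γ WV} {RV' : Representation K Γ WV'} {RU : Representation K Γ WU}
  {ZY : Submodule ℚ WY} {ZV : Submodule ℚ WV} {ZV' : Submodule ℚ WV'} {LY : AddSubgroup WY}
  {LV : AddSubgroup WV} {LV' : AddSubgroup WV'} {LU : AddSubgroup WU}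
  {B : WV →ₗ[K] WV' →ₗ[K] K} {v : WY →ₗ[K] WV} {u : WV →ₗ[K] WU}
  (hY : IsCycleGroup RY ZY LY) (hV : IsCycleGroup RV ZV LV) (hV' : IsCycleGroup RV' ZV' LV')
  (hB : IsDual RV RV' ZV ZV' LV LV' B) (hU : IsPresentation RY RV RU LY LV LU v u)

include hU in
theorem finite_U (hL : Module.Finite ℤ LV) : Module.Finite ℤ LU := by
  obtain ⟨n, hn, h⟩ := hU.multiple
  let M : Submodule ℤ WU := LV.toIntSubmodule.map (u.restrictScalars ℤ)
  have hM : Module.Finite ℤ M := by
    have : Module.Finite ℤ LV.toIntSubmodule := hL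
    infer_instance
  let φ : LU →ₗ[ℤ] M := LinearMap.codRestrict M
    ((n : ℤ) • (LU.toIntSubmodule.subtype : LU.toIntSubmodule →ₗ[ℤ] WU)) (fun w => by
      obtain ⟨z, hz, hz'⟩ := h w w.2
      refine ⟨z, hz, ?_⟩
      change u z = (n : ℤ) • (w : WU)
      rw [hz', natCast_zsmul])
  have hinj : Function.Injective φ := by
    intro w w' hww
    have h1 : (n : ℤ) • (w : WU) = (n : ℤ) • (w' : WU) := congrArg Subtype.val hww
    apply Subtype.ext
    have h2 : (n : K) ≠ 0 := by exact_mod_cast hn.ne'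
    rw [natCast_zsmul, natCast_zsmul, ← Nat.cast_smul_eq_nsmul K, ← Nat.cast_smul_eq_nsmul K]
      at h1
    exact smul_right_injective WU h2 h1
  exact Module.Finite.of_injective φ hinj

include hV hU in
theorem fixed_U {w : WU} (hw : w ∈ LU) (g : Γ) : RU g w = w := by
  obtain ⟨n, hn, h⟩ := hU.multiple
  obtain ⟨z, hz, hz'⟩ := h w hw
  have h1 : n • RU g w = n • w := by
    rw [← map_nsmul, ← hz', ← hU.equivariant', (hV.cycles z hz).2]
  have h2 : (n : K) ≠ 0 := by exact_mod_cast hn.ne'
  rw [← Nat.cast_smul_eq_nsmul K, ← Nat.cast_smul_eq_nsmul K] at h1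
  exact smul_right_injective WU h2 h1

include hV hU in
/-- **(a)** -/
theorem span_U (hspan : ∀ w, (∀ g, RV g w = w) →
      w ∈ Submodule.span K (fixedClasses RV ZV : Set WV)) :
    Submodule.span K (LU : Set WU) = RU.invariants := by
  refine le_antisymm (Submodule.span_le.2 fun w hw =>
    (Representation.mem_invariants RU w).2 (fixed_U hV hU hw)) fun w hw => ?_
  have hw' := (Representation.mem_invariants RU w).1 hw
  obtain ⟨x, hx, rfl⟩ := lift_fixed u hU.equivariant' hV.ss hw' (hU.weights w hw')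
  have h1 := hspan x hx
  rw [hV.span_L] at h1
  have h2 : Submodule.span K (LV : Set WV) ≤ (Submodule.span K (LU : Set WU)).comap u :=
    Submodule.span_le.2 fun z hz => Submodule.subset_span (hU.cycles' z hz)
  exact h2 h1

/-- rational spans are contained in spans -/
theorem span_rat {W : Type} [AddCommGroup W] [Module K W] [Module ℚ W] {S : Set W} {w : W}
    (hw : w ∈ Submodule.span ℚ S) : w ∈ Submodule.span K S := by
  induction hw using Submodule.span_induction with
  | mem x hx => exact Submodule.subset_span hx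
  | zero => exact Submodule.zero_mem _
  | add x y _ _ hx hy => exact Submodule.add_mem _ hx hy
  | smul r x _ hx =>
    rw [show r • x = ((r : ℚ) : K) • x from (Rat.cast_smul_eq_qsmul K _ _).symm]
    exact Submodule.smul_mem _ _ hx

include hY hV hV' hB hU in
/-- **(b)** -/
theorem indep_U (hspanY : ∀ w, (∀ g, RY g w = w) →
      w ∈ Submodule.span K (fixedClasses RY ZY : Set WY))
    (hspan' : ∀ w', (∀ g, RV' g w' = w') →
      w' ∈ Submodule.span K (fixedClasses RV' ZV' : Set WV')) {r : ℕ} (b : Basis (Fin r) ℤ LU) :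
    LinearIndependent K fun i => (b i : WU) := by
  classical
  obtain ⟨n, hn, h⟩ := hU.multiple
  have hnK : (n : K) ≠ 0 := by exact_mod_cast hn.ne'
  choose z hz hz' using fun i => h (b i) (b i).2
  -- the kernel of `u` in the rational space
  let M : Submodule ℚ WV :=
    { carrier := {x | x ∈ fixedClasses RV ZV ∧ u x = 0}
      add_mem' := fun {x y} hx hy => ⟨Submodule.add_mem _ hx.1 hy.1, by
        rw [map_add, hx.2, hy.2, add_zero]⟩
      zero_mem' := ⟨Submodule.zero_mem _, map_zero u⟩
      smul_mem' := fun c {x} hx => ⟨Submodule.smul_mem _ _ hx.1, by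
        rw [map_rat_smul u c x, hx.2, smul_zero]⟩ }
  let m := Basis.ofVectorSpace ℚ M
  have hm : LinearIndependent ℚ fun j => (m j : WV) :=
    m.linearIndependent.map' M.subtype (Submodule.ker_subtype _)
  have hmspan : Submodule.span ℚ (Set.range fun j => (m j : WV)) = M := by
    have h1 : (Set.range fun j => (m j : WV)) = M.subtype '' Set.range m := by
      rw [← Set.range_comp]
      rfl
    rw [h1, Submodule.span_image, m.span_eq, Submodule.map_top, Submodule.range_subtype]
  -- independence of the `u z`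
  have hbQ : LinearIndependent ℚ fun i => (b i : WU) := by
    have h1 : LinearIndependent ℤ fun i => (b i : WU) :=
      b.linearIndependent.map' (LU.toIntSubmodule.subtype) (Submodule.ker_subtype _)
    exact (LinearIndependent.iff_fractionRing (R := ℤ) (K := ℚ)).1 h1
  have hzM : ∀ c : Fin r → ℚ, ∑ i, c i • z i ∈ M → c = 0 := by
    intro c hc
    have h1 : u (∑ i, c i • z i) = 0 := hc.2
    have h2 : ∑ i, c i • (b i : WU) = 0 := by
      have h3 : u (∑ i, c i • z i) = (n : K) • ∑ i, c i • (b i : WU) := by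
        rw [map_sum, Finset.smul_sum]
        refine Finset.sum_congr rfl fun i _ => ?_
        rw [map_rat_smul u, hz', ← Nat.cast_smul_eq_nsmul K]
        rw [show c i • ((n : K) • (b i : WU)) = ((c i : ℚ) : K) • ((n : K) • (b i : WU)) from
          (Rat.cast_smul_eq_qsmul K _ _).symm,
          show c i • (b i : WU) = ((c i : ℚ) : K) • (b i : WU) from
          (Rat.cast_smul_eq_qsmul K _ _).symm, smul_smul, smul_smul, mul_comm]
      rw [h1] at h3
      exact (smul_eq_zero.1 h3.symm).resolve_left hnK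
    funext i
    exact Fintype.linearIndependent_iff.1 hbQ c h2 i
  have hzQ : LinearIndependent ℚ z := Fintype.linearIndependent_iff.2 fun c hc i => by
    rw [hzM c (by rw [hc]; exact Submodule.zero_mem _)]
    rfl
  have hQ : LinearIndependent ℚ (Sum.elim z fun j => (m j : WV)) := by
    rw [linearIndependent_sum]
    refine ⟨hzQ, hm, ?_⟩
    change Disjoint (Submodule.span ℚ (Set.range z))
      (Submodule.span ℚ (Set.range fun j => (m j : WV)))
    rw [hmspan, Submodule.disjoint_def]
    intro x hx hxM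
    obtain ⟨c, rfl⟩ := (Submodule.mem_span_range_iff_exists_fun ℚ).1 hx
    have h1 := hzM c hxM
    rw [h1]
    simp
  have hK := indep (toPair hV hV' hB) hspan' (Sum.elim z fun j => (m j : WV)) (by
    rintro (i | j)
    · exact hV.cycles _ (hz i)
    · exact (m j).2.1) hQ
  rw [linearIndependent_sum] at hK
  obtain ⟨hzK, -, hdis⟩ := hK
  rw [Fintype.linearIndependent_iff]
  intro c hc
  -- the combination of the `z i` is in the kernel
  set x : WV := ∑ i, c i • z i with hx
  have hux : u x = 0 := by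
    have h1 : u x = (n : K) • ∑ i, c i • (b i : WU) := by
      rw [hx, map_sum, Finset.smul_sum]
      refine Finset.sum_congr rfl fun i _ => ?_
      rw [map_smul, hz', ← Nat.cast_smul_eq_nsmul K, smul_smul, smul_smul, mul_comm]
    rw [h1, hc, smul_zero]
  have hxfix : ∀ g, RV g x = x := by
    intro g
    rw [hx, map_sum]
    refine Finset.sum_congr rfl fun i _ => ?_
    rw [map_smul, (hV.cycles _ (hz i)).2]
  have hxr : x ∈ LinearMap.range v := by
    rw [hU.exact]
    exact hux
  obtain ⟨y, hy, hyx⟩ := lift_fixed v hU.equivariant hY.ss hxfix hxr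
  have hxM : x ∈ Submodule.span K (Set.range fun j => (m j : WV)) := by
    have h1 := hspanY y hy
    have h2 : Submodule.span K (fixedClasses RY ZY : Set WY) ≤
        (Submodule.span K (Set.range fun j => (m j : WV))).comap v := by
      refine Submodule.span_le.2 fun f hf => ?_
      obtain ⟨k, hk, hkf⟩ := hY.transfer f hf
      have hk' : (k : K) ≠ 0 := by exact_mod_cast hk.ne'
      change v f ∈ Submodule.span K (Set.range fun j => (m j : WV))
      have h3 : v (k • f) ∈ M := by
        refine ⟨hV.cycles _ (hU.cycles _ hkf), ?_⟩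
        have h4 : v (k • f) ∈ LinearMap.ker u := by
          rw [← hU.exact]
          exact ⟨_, rfl⟩
        exact h4
      rw [← hmspan] at h3
      have h4 := span_rat (K := K) h3
      have h5 : v f = (k : K)⁻¹ • v (k • f) := by
        rw [map_nsmul, ← Nat.cast_smul_eq_nsmul K, smul_smul, inv_mul_cancel₀ hk', one_smul]
      rw [h5]
      exact Submodule.smul_mem _ _ h4
    rw [← hyx]
    exact h2 h1
  have hxz : x ∈ Submodule.span K (Set.range z) := by
    rw [hx]
    exact Submodule.sum_mem _ fun i _ => Submodule.smul_mem _ _ (Submodule.subset_span ⟨i, rfl⟩)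
  have hx0 : x = 0 := (Submodule.disjoint_def.1 hdis) _ hxz hxM
  exact Fintype.linearIndependent_iff.1 hzK c (hx.symm.trans hx0)

include hV hU in
/-- the complement of the invariants in the part of weight zero -/
theorem exists_compl : ∃ C : Submodule K WU, (∀ g, ∀ w ∈ C, RU g w ∈ C) ∧
    (∀ w ∈ RU.invariants, w ∈ C → w = 0) ∧
      ∀ w ∈ LinearMap.range u, ∃ a ∈ RU.invariants, ∃ c ∈ C, w = a + c := by
  obtain ⟨C, hC, hc⟩ := hV.ss (RU.invariants.comap u) fun g x hx => by
    have h1 := (Representation.mem_invariants RU (u x)).1 hx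
    change u (RV g x) ∈ RU.invariants
    rw [hU.equivariant', h1]
    exact hx
  refine ⟨C.map u, ?_, ?_, ?_⟩
  · rintro g _ ⟨x, hx, rfl⟩
    exact ⟨RV g x, hC g x hx, hU.equivariant' g x⟩
  · rintro _ hw ⟨x, hx, rfl⟩
    have h1 : x = 0 := (Submodule.disjoint_def.1 hc.disjoint) x hw hx
    rw [h1, map_zero]
  · rintro _ ⟨x, rfl⟩
    have h1 : x ∈ RU.invariants.comap u ⊔ C := by rw [hc.sup_eq_top]; trivial
    obtain ⟨a, ha, c, hc', rfl⟩ := Submodule.mem_sup.1 h1
    exact ⟨u a, ha, u c, ⟨c, hc', rfl⟩, map_add u a c⟩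

end pres

/-- **The L-function.** -/
theorem order_U [Algebra K ℂ] {WV WU : Type} [AddCommGroup WV] [Module K WV] [AddCommGroup WU]
    [Module K WU] [FiniteDimensional K WU] {RU : Representation K Γ WU}
    {u : WV →ₗ[K] WU} {q D : ℕ} (hq : 2 ≤ q)
    {C : Submodule K WU} (hC : ∀ g, ∀ w ∈ C, RU g w ∈ C)
    (hdis : ∀ w ∈ RU.invariants, w ∈ C → w = 0)
    (hsum : ∀ w ∈ LinearMap.range u, ∃ a ∈ RU.invariants, ∃ c ∈ C, w = a + c)
    {P : Type} {deg : P → ℕ} {F : P → Γ} {φ : Γ} {W₀ : Submodule K WU} {Fr : Module.End K W₀}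
    {N : ℕ} {ε : Fin N → ℤ} {β : Fin N → ℂ}
    (hM : IsOpenModel q D RU (LinearMap.range u) deg F φ W₀ Fr ε β) :
    HasOrder (fun y => q ^ deg y) (fun y => (RU (F y)).baseChange ℂ) D
      (-(finrank K RU.invariants : ℤ)) := by
  obtain ⟨C', hC'⟩ := hM.count
  have hG : ∀ y, Pool.Agent.N184.QP.Bd ((RU (F y)).baseChange ℂ) := hM.bounded
  have hFr : Pool.Agent.N184.QP.Bd (Fr.baseChange ℂ) := fun μ hμ => (hM.pure μ hμ).le
  obtain ⟨S, hS, hS1, hdet⟩ := det_fr' (R := RU) (U := W₀) (Fr := Fr) (σ := φ) hM.invariants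
    hM.frobenius hM.generate hC hdis (fun w hw => hsum w (hM.weight hw))
  refine ⟨ratFun q D (Fr.baseChange ℂ) ε β, meromorphic_ratFun hq, fun s hs => ?_,
    order_ratFun hq hM.error (hS 1) hS1 hdet⟩
  rw [← exp_eq hq hM.deg_pos hM.finite hC' hG hFr hM.error hM.trace hs]
  have h1 := hasProd_euler' hq hM.deg_pos hM.finite hC' hG hs
  refine h1.congr_fun ?_
  intro y
  rw [pow_uc hq]

open Pool.Agent.Y90 Pool.Agent.R915 in
/-- **Singular and open varieties.** -/
theorem main_open [Algebra K ℂ] [Algebra.IsAlgebraic K ℂ] {p n : ℕ} (hp : p.Prime) (hn : 0 < n)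
    {𝔙 : ValuationSubring ℂ} (h𝔙 : 𝔙.valuation (p : ℂ) < 1) (X : AV)
    (hX : SmallTypes X ∨ FactorsOfSmall X) {E : X.H → X.H → ℚ}
    (hE : Pool.Agent.Y90.St.IsPolarization X.per E) {ρ : Representation K Γ (K ⊗[ℚ] X.H)}
    {χ : Γ →* K} {P₀ : Type} [Nonempty P₀] {deg₀ : P₀ → ℕ} {F₀ : P₀ → Γ}
    (hdeg : ∀ y, 0 < deg₀ y) (hO : IsOrdinary X.per E 𝔙 (p ^ n) ρ χ deg₀ F₀)
    {WY WV WV' WU : Type} [AddCommGroup WY] [Module K WY] [Module ℚ WY]
    [FiniteDimensional K WY] [AddCommGroup WV] [Module K WV] [Module ℚ WV]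
    [FiniteDimensional K WV] [AddCommGroup WV'] [Module K WV'] [Module ℚ WV']
    [FiniteDimensional K WV'] [AddCommGroup WU] [Module K WU] [Module ℚ WU]
    [FiniteDimensional K WU] {RY : Representation K Γ WY}
    {RV : Representation K Γ WV} {RV' : Representation K Γ WV'} {RU : Representation K Γ WU}
    {ZY : Submodule ℚ WY} {ZV : Submodule ℚ WV} {ZV' : Submodule ℚ WV'} {LY : AddSubgroup WY}
    {LV : AddSubgroup WV} {LV' : AddSubgroup WV'} {LU : AddSubgroup WU}
    {B : WV →ₗ[K] WV' →ₗ[K] K} {v : WY →ₗ[K] WV} {u : WV →ₗ[K] WU}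
    (hY : IsCycleGroup RY ZY LY) (hV : IsCycleGroup RV ZV LV) (hV' : IsCycleGroup RV' ZV' LV')
    (hB : IsDual RV RV' ZV ZV' LV LV' B) (hU : IsPresentation RY RV RU LY LV LU v u)
    (gY : IsGeneratedBy X ρ χ RY ZY) (gV : IsGeneratedBy X ρ χ RV ZV)
    (gV' : IsGeneratedBy X ρ χ RV' ZV') :
    Submodule.span K (LU : Set WU) = RU.invariants ∧
    ∃ (r : ℕ) (b : Basis (Fin r) ℤ LU), (LinearIndependent K fun i => (b i : WU)) ∧
      ∀ (D : ℕ) (P : Type) (deg : P → ℕ) (F : P → Γ) (φ : Γ) (W₀ : Submodule K WU)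
        (Fr : Module.End K W₀) (N : ℕ) (ε : Fin N → ℤ) (β : Fin N → ℂ),
        IsOpenModel (p ^ n) D RU (LinearMap.range u) deg F φ W₀ Fr ε β →
          HasOrder (fun y => (p ^ n) ^ deg y) (fun y => (RU (F y)).baseChange ℂ) D (-r) := by
  have hspan : ∀ {W₁ : Type} [AddCommGroup W₁] [Module K W₁] [Module ℚ W₁]
      [FiniteDimensional K W₁] {R₁ : Representation K Γ W₁} {Z₁ : Submodule ℚ W₁}
      {L₁ : AddSubgroup W₁}, IsCycleGroup R₁ Z₁ L₁ → IsGeneratedBy X ρ χ R₁ Z₁ →
      ∀ w, (∀ g, R₁ g w = w) → w ∈ Submodule.span K (fixedClasses R₁ Z₁ : Set W₁) := by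
    intro W₁ _ _ _ _ R₁ Z₁ L₁ hV gV
    obtain ⟨Δ, ψ, J, a, f, hf⟩ := gV.exists
    exact tate_span hp hn h𝔙 X hX hE hdeg hO hV.stable hV.finite hV.semisimple hf
  have ha := span_U hV hU (hspan hV gV)
  have hfin := finite_U hU (finite_L hV hV' hB (hspan hV' gV'))
  have htf : IsAddTorsionFree WU := .of_module_rat _
  have hfree : Module.IsTorsionFree ℤ LU := by
    have : Module.IsTorsionFree ℤ LU.toIntSubmodule := inferInstance
    exact this
  have hfree' : Module.Free ℤ LU := inferInstance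
  let b := Module.finBasis ℤ LU
  have hb := indep_U hY hV hV' hB hU (hspan hY gY) (hspan hV' gV') b
  refine ⟨ha, finrank ℤ LU, b, hb, ?_⟩
  intro D P deg F φ W₀ Fr N ε β hM
  obtain ⟨C, h1, h2, h3⟩ := exists_compl hV hU
  have h4 := order_U (u := u) (hp.two_le.trans (Nat.le_self_pow hn.ne' p)) h1 h2 h3 hM
  have h5 : finrank K RU.invariants = finrank ℤ LU := by
    have h6 : Submodule.span K (Set.range fun i => (b i : WU)) =
        Submodule.span K (LU : Set WU) := by
      refine le_antisymm (Submodule.span_mono ?_) (Submodule.span_le.2 fun w hw => ?_)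
      · rintro _ ⟨i, rfl⟩
        exact (b i).2
      · have h7 := b.sum_repr ⟨w, hw⟩
        have h8 : w = ∑ i, b.repr ⟨w, hw⟩ i • (b i : WU) := by
          have h9 := congrArg (LU.subtype) h7
          rw [map_sum] at h9
          refine h9.symm.trans (Finset.sum_congr rfl fun i _ => ?_)
          exact map_zsmul LU.subtype _ _
        rw [h8]
        refine Submodule.sum_mem _ fun i _ => ?_
        rw [← Int.cast_smul_eq_zsmul K]
        exact Submodule.smul_mem _ _ (Submodule.subset_span ⟨i, rfl⟩)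
    rw [← ha, ← h6, finrank_span_eq_card hb, Fintype.card_fin]
  rw [h5] at h4
  exact h4

end

end Pool.Agent.N995.OD
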