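import Mathlib
import Pool.Agent.N995.FfS
import Pool.Agent.N995.Os3

/-!
# Invariants in the cohomology of the generic point
-/

set_option linter.unusedSectionVars false

namespace Pool.Agent.N995.FF

open Module TensorProduct Pool.Agent.Y90 Pool.Agent.R915 Pool.Agent.N995.OD

noncomputable section

variable {K : Type} [Field K] [CharZero K] [Algebra K ℂ] [Algebra.IsAlgebraic K ℂ]
  {Γ : Type} [Group Γ]

theorem invariants_eq_zero {p n : ℕ} (hp : p.Prime) (hn : 0 < n) {𝔙 : ValuationSubring ℂ}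
    (h𝔙 : 𝔙.valuation (p : ℂ) < 1) (X : AV) (hX : SmallTypes X ∨ FactorsOfSmall X)
    {E : X.H → X.H → ℚ} (hE : Pool.Agent.Y90.St.IsPolarization X.per E)
    {ρ : Representation K Γ (K ⊗[ℚ] X.H)} {χ : Γ →* K} {P : Type} [Nonempty P] {deg : P → ℕ}
    {F₀ : P → Γ} (hdeg : ∀ y, 0 < deg y) (hO : IsOrdinary X.per E 𝔙 (p ^ n) ρ χ deg F₀)
    {WV F : Type} [AddCommGroup WV] [Module K WV] [Module ℚ WV] [AddCommGroup F] [Module K F]
    {RV : Representation K Γ WV} {Z : Submodule ℚ WV} {R : Representation K Γ F}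
    {t : WV →ₗ[K] F} (hV : IsGenericPoint RV Z R t) (gV : IsGeneratedBy X ρ χ RV Z)
    (w : F) (hw : ∀ g, R g w = w) : w = 0 := by
  obtain ⟨Δ, ψ, J, a, f, hf⟩ := gV.exists
  obtain ⟨x, hx, rfl⟩ := lift_fixed t hV.equivariant (fun U hU => by
    obtain ⟨U', h1, h2⟩ := hV.semisimple ⊤ inferInstance U fun g _ => hU g
    exact ⟨U', fun g => h1 g trivial, h2⟩) hw (hV.weights w hw)
  have h1 := tate_span hp hn h𝔙 X hX hE hdeg hO hV.stable hV.finite hV.semisimple hf x hx
  have h2 : Submodule.span K (fixedClasses RV Z : Set WV) ≤ LinearMap.ker t := by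
    refine Submodule.span_le.2 fun z hz => ?_
    rw [SetLike.mem_coe, LinearMap.mem_ker]
    exact hV.cycles z hz.1
  exact LinearMap.mem_ker.1 (h2 h1)

end

end Pool.Agent.N995.FF
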