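import Mathlib
import Pool.Agent.W547.HR.Torus
import Pool.Agent.R915.S2

/-!
# The Hodge-Riemann relations for rational Hodge classes on complex abelian varieties
-/

set_option autoImplicit false
set_option linter.unusedSectionVars false

namespace Pool.Agent.N995.HS

open Module Equiv Pool.Agent.W547.HR Pool.Agent.Y90
open Pool.Agent.H204R3.CM (IsHodge)

noncomputable section

theorem finrank_tan (X : AV) : finrank ℝ X.T = finrank ℚ X.H := by
  rw [X.rank, finrank_real_of_complex]

theorem finT (X : AV) : FiniteDimensional ℝ X.T := FiniteDimensional.complexToReal X.T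

theorem altSum_eq_alternatization {P T : Type} [Fintype P] [DecidableEq P] [AddCommGroup T]
    [Module ℝ T] (g : MultilinearMap ℝ (fun _ : P => T) ℝ) (u : P → T) :
    altSum g u = MultilinearMap.alternatization g u := by
  rw [MultilinearMap.alternatization_apply]
  refine Finset.sum_congr rfl fun σ _ => ?_
  rw [Units.smul_def, zsmul_eq_mul]
  rfl

/-- An alternating sum which vanishes on the rational homology vanishes. -/
theorem altSum_zero (X : AV) {P : Type} [Fintype P] [DecidableEq P]
    (g : MultilinearMap ℝ (fun _ : P => X.T) ℝ)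
    (h : ∀ v : P → X.H, altSum g (fun p => X.per (v p)) = 0) (u : P → X.T) :
    altSum g u = 0 := by
  rw [altSum_eq_alternatization]
  obtain ⟨β, hβ⟩ := Pool.Agent.R915.exists_realBasis X (Module.finBasis ℚ X.H)
  have h1 : (MultilinearMap.alternatization g).toMultilinearMap = 0 := by
    refine Basis.ext_multilinear (fun _ => β) fun v => ?_
    have h2 := h (fun p => Module.finBasis ℚ X.H (v p))
    rw [altSum_eq_alternatization] at h2
    simp only [hβ]
    exact h2
  exact congrFun (congrArg DFunLike.coe h1) u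

theorem altSum_cast {P : Type} {R S : Type} [CommRing R] [CommRing S] (f : R →+* S) [Fintype P]
    [DecidableEq P] {H : Type} (g : (P → H) → R) (v : P → H) :
    f (altSum g v) = altSum (fun w => f (g w)) v := by
  unfold altSum
  rw [map_sum]
  refine Finset.sum_congr rfl fun σ _ => ?_
  rw [map_mul, map_intCast]

theorem powE_cast {H : Type} {R S : Type} [CommRing R] [CommRing S] (f : R →+* S) (E : H → H → R)
    (m : ℕ) (v : Fin m × Fin 2 → H) : f (powE E m v) = powE (fun a b => f (E a b)) m v :=
  map_prod f _ _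

variable {X : AV}

/-- A polarization gives a positive definite Hermitian form. -/
theorem exists_herm {E : X.H → X.H → ℚ} (hE : Pool.Agent.Y90.St.IsPolarization X.per E) :
    ∃ H : X.T → X.T → ℂ, IsHerm H ∧ ∀ v w, (H (X.per v) (X.per w)).im = E v w := by
  obtain ⟨H, h1, h2, h3, h4⟩ := hE
  exact ⟨H, ⟨h1, h2, h3⟩, h4⟩

/-- An alternating real form extending a Hodge class. -/
theorem exists_alt {κ : Type} [Fintype κ] [DecidableEq κ] {f : X.H [⋀^κ]→ₗ[ℚ] ℚ}
    (hf : IsHodge X.per f) :
    ∃ ψ : X.T [⋀^κ]→ₗ[ℝ] ℝ, (∀ v : κ → X.H, ψ (fun l => X.per (v l)) = f v) ∧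
      ∀ z : ℂ, ‖z‖ = 1 → ∀ u : κ → X.T, ψ (fun l => z • u l) = ψ u := by
  obtain ⟨ψ, h1, h2⟩ := hf
  refine ⟨((Fintype.card (Perm κ) : ℝ))⁻¹ • MultilinearMap.alternatization ψ, fun v => ?_,
    fun z hz u => ?_⟩
  · rw [AlternatingMap.smul_apply, MultilinearMap.alternatization_apply]
    have h3 : ∀ σ : Perm κ, Perm.sign σ • (ψ.domDomCongr σ) (fun l => X.per (v l)) = (f v : ℝ) := by
      intro σ
      have h4 : (ψ.domDomCongr σ) (fun l => X.per (v l)) = f (fun l => v (σ l)) :=
        h1 (fun l => v (σ l))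
      have h5 : f (fun l => v (σ l)) = Perm.sign σ • f v := f.map_perm v σ
      rw [h4, h5, Units.smul_def, Units.smul_def, zsmul_eq_mul, zsmul_eq_mul, Rat.cast_mul,
        Rat.cast_intCast, ← mul_assoc, ← Int.cast_mul, ← Units.val_mul, Int.units_mul_self,
        Units.val_one, Int.cast_one, one_mul]
    rw [Finset.sum_congr rfl (fun σ _ => h3 σ), Finset.sum_const, Finset.card_univ, nsmul_eq_mul,
      smul_eq_mul, ← mul_assoc, inv_mul_cancel₀ (Nat.cast_ne_zero.2 Fintype.card_ne_zero), one_mul]
  · rw [AlternatingMap.smul_apply, AlternatingMap.smul_apply, MultilinearMap.alternatization_apply,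
      MultilinearMap.alternatization_apply]
    congr 1
    refine Finset.sum_congr rfl fun σ _ => ?_
    congr 1
    exact h2 z hz (fun l => u (σ l))

/-- The multilinear form `∏ Im H`. -/
def powM {H : X.T → X.T → ℂ} (hH : IsHerm H) (m : ℕ) :
    MultilinearMap ℝ (fun _ : Fin m × Fin 2 => X.T) ℝ := pw (bil (imB hH)) m

theorem powM_apply {H : X.T → X.T → ℂ} (hH : IsHerm H) (m : ℕ) :
    (powM hH m : (Fin m × Fin 2 → X.T) → ℝ) = powE (fun a b => (H a b).im) m := by
  funext v
  exact pw_apply _ _ _

theorem powM_per {E : X.H → X.H → ℚ} {H : X.T → X.T → ℂ} (hH : IsHerm H)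
    (hHE : ∀ v w, (H (X.per v) (X.per w)).im = E v w) (m : ℕ) (v : Fin m × Fin 2 → X.H) :
    powM hH m (fun p => X.per (v p)) = ((powE E m v : ℚ) : ℝ) := by
  have h1 : powM hH m (fun p => X.per (v p)) =
      powE (fun a b => (H a b).im) m (fun p => X.per (v p)) := congrFun (powM_apply hH m) _
  rw [h1]
  have h2 := powE_cast (Rat.castHom ℝ) E m v
  rw [Rat.coe_castHom] at h2
  rw [h2]
  unfold powE
  exact Finset.prod_congr rfl fun k _ => hHE _ _

/-- The volume form does not vanish on the rational homology. -/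
theorem exists_vol_rat {E : X.H → X.H → ℚ} (hE : Pool.Agent.Y90.St.IsPolarization X.per E)
    (r m : ℕ) (hrm : 2 * (2 * r + m) = finrank ℚ X.H) :
    ∃ v, altSum (times (powE E r) (times (powE E r) (powE E m))) v ≠ 0 := by
  classical
  obtain ⟨H, hH, hHE⟩ := exists_herm hE
  have : FiniteDimensional ℝ X.T := finT X
  by_contra h
  push Not at h
  obtain ⟨u, hu⟩ := torus_vol hH r m (by rw [finrank_tan, ← hrm]; omega)
  refine hu ?_
  have h1 := altSum_zero X (mulM (powM hH r) (mulM (powM hH r) (powM hH m))) (fun v => ?_) u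
  · rw [← h1]
    congr 1
    funext w
    rw [mulM_apply, mulM_apply, powM_apply, powM_apply]
    rfl
  · have h2 := congrArg (Rat.castHom ℝ) (h v)
    rw [altSum_cast, map_zero] at h2
    rw [← h2, altSum_comp]
    congr 1
    funext w
    rw [mulM_apply, mulM_apply, powM_per hH hHE, powM_per hH hHE, powM_per hH hHE]
    simp only [times, map_mul, Rat.coe_castHom]

/-- The Hodge-Riemann relations for rational Hodge classes. -/
theorem hodgeRiemann_rat {E : X.H → X.H → ℚ} (hE : Pool.Agent.Y90.St.IsPolarization X.per E)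
    (r m : ℕ) (hrm : 2 * (2 * r + m) = finrank ℚ X.H) (x : X.H [⋀^Fin r × Fin 2]→ₗ[ℚ] ℚ)
    (hx : IsHodge X.per x) (hx0 : x ≠ 0)
    (hprim : ∀ v, altSum (times x (powE E (m + 1))) v = 0) :
    ∃ c : ℚ, 0 < c ∧ ∀ v, (-1) ^ r * altSum (times x (times x (powE E m))) v =
      c * altSum (times (powE E r) (times (powE E r) (powE E m))) v := by
  classical
  obtain ⟨H, hH, hHE⟩ := exists_herm hE
  have : FiniteDimensional ℝ X.T := finT X
  obtain ⟨ψ, hψ1, hψ2⟩ := exists_alt hx
  have hψ0 : ψ ≠ 0 := by
    intro h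
    refine hx0 (AlternatingMap.ext fun v => ?_)
    have h1 := hψ1 v
    rw [h] at h1
    have h2 : ((x v : ℚ) : ℝ) = 0 := h1.symm
    exact Rat.cast_eq_zero.1 h2
  have hcast : ∀ (k : ℕ) (v : (Fin r × Fin 2) ⊕ (Fin k × Fin 2) → X.H),
      times ψ (powE (fun a b => (H a b).im) k) (fun p => X.per (v p)) =
        ((times x (powE E k) v : ℚ) : ℝ) := by
    intro k v
    have h1 := powM_per hH hHE k (fun q => v (Sum.inr q))
    rw [powM_apply] at h1
    unfold times
    rw [Rat.cast_mul, ← h1, ← hψ1]
  have hprim' : ∀ u, altSum (times ψ (powE (fun a b => (H a b).im) (m + 1))) u = 0 := by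
    intro u
    have h1 := altSum_zero X (mulM ψ.toMultilinearMap (powM hH (m + 1))) (fun v => ?_) u
    · rw [← h1]
      congr 1
      funext w
      rw [mulM_apply, powM_apply]
      rfl
    · have h2 := congrArg (Rat.castHom ℝ) (hprim v)
      rw [altSum_cast, map_zero] at h2
      rw [← h2, altSum_comp]
      congr 1
      funext w
      rw [Rat.coe_castHom, ← hcast, mulM_apply, powM_apply]
      rfl
  obtain ⟨c, hc, hceq⟩ := torus_hodgeRiemann hH r m ψ (fun u => hψ2 Complex.I Complex.norm_I u)
    hψ0 hprim'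
  have hN : ∀ v, altSum (times ψ (times ψ (powE (fun a b => (H a b).im) m)))
      (fun p => X.per (v p)) = ((altSum (times x (times x (powE E m))) v : ℚ) : ℝ) := by
    intro v
    have h2 := altSum_cast (Rat.castHom ℝ) (times x (times x (powE E m))) v
    rw [Rat.coe_castHom] at h2
    rw [h2, altSum_comp]
    congr 1
    funext w
    change ψ _ * times ψ _ _ = _
    have h3 := hcast m (fun q => w (Sum.inr q))
    rw [h3, hψ1, ← Rat.cast_mul]
    rfl
  have hV : ∀ v, altSum (times (powE (fun a b => (H a b).im) r)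
      (times (powE (fun a b => (H a b).im) r) (powE (fun a b => (H a b).im) m)))
      (fun p => X.per (v p)) =
        ((altSum (times (powE E r) (times (powE E r) (powE E m))) v : ℚ) : ℝ) := by
    intro v
    have h2 := altSum_cast (Rat.castHom ℝ)
      (times (powE E r) (times (powE E r) (powE E m))) v
    rw [Rat.coe_castHom] at h2
    rw [h2, altSum_comp]
    congr 1
    funext w
    rw [← powM_apply hH, ← powM_apply hH]
    unfold times
    rw [powM_per hH hHE, powM_per hH hHE, powM_per hH hHE, ← Rat.cast_mul, ← Rat.cast_mul]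
  have hkey : ∀ v, ((-1) ^ r * altSum (times x (times x (powE E m))) v : ℚ) =
      c * (altSum (times (powE E r) (times (powE E r) (powE E m))) v : ℚ) := by
    intro v
    have h2 := hceq (fun p => X.per (v p))
    rw [hN, hV] at h2
    exact_mod_cast h2
  obtain ⟨v0, hv0⟩ := exists_vol_rat hE r m hrm
  have hc' : c = (((-1) ^ r * altSum (times x (times x (powE E m))) v0 /
      altSum (times (powE E r) (times (powE E r) (powE E m))) v0 : ℚ) : ℝ) := by
    rw [Rat.cast_div, hkey, mul_div_assoc, div_self (Rat.cast_ne_zero.2 hv0), mul_one]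
  refine ⟨(-1) ^ r * altSum (times x (times x (powE E m))) v0 /
      altSum (times (powE E r) (times (powE E r) (powE E m))) v0, ?_, fun v => ?_⟩
  · rw [hc'] at hc
    exact_mod_cast hc
  · have h2 := hkey v
    rw [hc'] at h2
    exact_mod_cast h2

end

end Pool.Agent.N995.HS
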