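import Mathlib
import Pool.Agent.W547.HR.Defs
import Pool.Agent.R915.Stm

/-!
# Primitive classes and the Hodge-Riemann relations on the reduction of an abelian variety

`X` is the canonical lift of an ordinary abelian variety `A` over a field `k` of characteristic `p`, and
`K ⊗ X.H`, with `X.H = H_1(X, ℚ)` and `K = ℚ_ℓ`, the rational Tate module of `A`. The classes in
`H^{2 r}(A ⊗ k̄, K)` are the alternating forms in `2 r` variables (indexed by `Fin r × Fin 2`) on the Tate
module. The cup product of two forms is the alternating sum `altSum` of the product `times`, up to a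
positive factor, and the class of `E` is the class of a polarization; the endomorphisms and the
polarizations of `A ⊗ k̄` and of `X` are the same. The top cohomology group is compared with that of `X`.
-/

namespace Pool.Agent.N995.HS

open Module TensorProduct Pool.Agent.Y90 Pool.Agent.W547.HR
open Pool.Agent.R915 (Alg)

variable {X : AV} {K : Type} [Field K] [CharZero K]

/-- The restriction to `X.H` of the form `z` on the Tate module `K ⊗ X.H` (it determines `z`). -/
def onH {κ : Type} (z : (K ⊗[ℚ] X.H) [⋀^κ]→ₗ[K] K) (v : κ → X.H) : K :=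
  z (fun k => (1 : K) ⊗ₜ[ℚ] v k)

/-- `z ∈ H^{2 r}` is primitive for the polarization `E`, `dim X = 2 r + m`: the cup product of `z` with the
power `m + 1` of the class of `E` is zero. -/
def IsPrimitive (E : X.H → X.H → ℚ) {κ : Type} [Fintype κ] [DecidableEq κ] (m : ℕ)
    (z : (K ⊗[ℚ] X.H) [⋀^κ]→ₗ[K] K) : Prop :=
  ∀ v : κ ⊕ (Fin (m + 1) × Fin 2) → X.H,
    altSum (times (onH z) (powE (castE K E) (m + 1))) v = 0

/-- The intersection numbers of `z` with the classes of complementary degree in `Alg` (divisor classes, Weil
classes on fourfolds and on split sixfolds, and what they generate; by the theorems of Lefschetz and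
Markman the classes in `Alg` are classes of algebraic cycles on `X`, and so are their specialisations) are
rational. The classes of algebraic cycles have this property. -/
def HasRationalNumbers {κ : Type} [Fintype κ] [DecidableEq κ] (z : (K ⊗[ℚ] X.H) [⋀^κ]→ₗ[K] K) :
    Prop :=
  ∀ (κ' : Type) [Fintype κ'] [DecidableEq κ'] (h : X.H [⋀^κ']→ₗ[ℚ] ℚ),
    Fintype.card κ + Fintype.card κ' = finrank ℚ X.H → Alg X κ' h →
      ∀ v : κ ⊕ κ' → X.H, ∃ a : ℚ, altSum (times (onH z) (fun u => ((h u : ℚ) : K))) v = a

/-- The positivity of the standard conjecture of Hodge type for `z ∈ H^{2 r}`, `dim X = 2 r + m`: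
`(-1)^r z ∪ z ∪ E^m` is a positive rational multiple of the top power `E^{2 r + m}` of the class of the
polarization (both up to the positive factors mentioned above). -/
def IsPositive (E : X.H → X.H → ℚ) {r : ℕ} (m : ℕ)
    (z : (K ⊗[ℚ] X.H) [⋀^Fin r × Fin 2]→ₗ[K] K) : Prop :=
  ∃ c : ℚ, 0 < c ∧ ∀ v : (Fin r × Fin 2) ⊕ ((Fin r × Fin 2) ⊕ (Fin m × Fin 2)) → X.H,
    (-1) ^ r * altSum (times (onH z) (times (onH z) (powE (castE K E) m))) v =
      (c : K) * altSum (times (powE (castE K E) r) (times (powE (castE K E) r)
        (powE (castE K E) m))) v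

end Pool.Agent.N995.HS
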