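import Mathlib
import Pool.Agent.N995.Hs1
import Pool.Agent.N995.HsS
import Pool.Agent.N995.Od7

/-!
# The standard conjecture of Hodge type for ordinary abelian varieties
-/

set_option autoImplicit false
set_option linter.unusedSectionVars false

namespace Pool.Agent.N995.HS

open Module Equiv TensorProduct Pool.Agent.W547.HR Pool.Agent.Y90
open Pool.Agent.R915 (Alg)
open Pool.Agent.H204R3.CM (IsHodge)
open Pool.Agent.N995.OD

noncomputable section

section sums

variable {P Q H R : Type} [Fintype P] [DecidableEq P] [Fintype Q] [DecidableEq Q] [CommRing R]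

theorem altSum_const_mul (a : R) (g : (P → H) → R) (v : P → H) :
    altSum (fun w => a * g w) v = a * altSum g v := by
  unfold altSum
  rw [Finset.mul_sum]
  refine Finset.sum_congr rfl fun σ _ => ?_
  ring

/-- An alternating sum inside an alternating sum. -/
theorem altSum_absorb (g : (P → H) → R) (h : (Q → H) → R) (v : P ⊕ Q → H) :
    altSum (times g (altSum h)) v = (Fintype.card (Perm Q) : R) * altSum (times g h) v := by
  have h1 : ∀ τ : Perm Q, ∑ σ : Perm (P ⊕ Q), ((Perm.sign σ : ℤ) : R) *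
      (g (fun p => v (σ (Sum.inl p))) * (((Perm.sign τ : ℤ) : R) *
        h (fun q => v (σ (Sum.inr (τ q)))))) = altSum (times g h) v := by
    intro τ
    unfold altSum
    refine Fintype.sum_equiv (Equiv.mulRight (Perm.sumCongr 1 τ)) _ _ fun σ => ?_
    have h2 : (Equiv.mulRight (Perm.sumCongr 1 τ)) σ = σ * Perm.sumCongr 1 τ := rfl
    have h3 : Perm.sign (Perm.sumCongr (1 : Perm P) τ) = Perm.sign τ := by
      rw [Perm.sign_sumCongr, map_one, one_mul]
    rw [h2, map_mul, h3, Units.val_mul, Int.cast_mul]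
    unfold times
    simp only [Perm.mul_apply, Perm.sumCongr_apply, Sum.map_inl, Sum.map_inr, Perm.coe_one, id_eq]
    ring
  have h2 : altSum (times g (altSum h)) v = ∑ τ : Perm Q, ∑ σ : Perm (P ⊕ Q),
      ((Perm.sign σ : ℤ) : R) * (g (fun p => v (σ (Sum.inl p))) * (((Perm.sign τ : ℤ) : R) *
        h (fun q => v (σ (Sum.inr (τ q)))))) := by
    rw [Finset.sum_comm]
    refine Finset.sum_congr rfl fun σ _ => ?_
    unfold times altSum
    rw [Finset.mul_sum, Finset.mul_sum]
  rw [h2, Finset.sum_congr rfl fun τ _ => h1 τ, Finset.sum_const, Finset.card_univ, nsmul_eq_mul]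

/-- Reindexing. -/
theorem altSum_reindex (e : P ≃ Q) (g : (P → H) → R) (v : Q → H) :
    altSum (fun w => g (fun p => w (e p))) v = altSum g (fun p => v (e p)) := by
  unfold altSum
  refine Fintype.sum_equiv (Equiv.permCongr e.symm) _ _ fun σ => ?_
  rw [Perm.sign_permCongr]
  congr 1
  change g _ = g _
  congr 1
  funext p
  simp [Equiv.permCongr_apply]

end sums

variable {X : AV}

/-- The cup product of two forms. -/
def cupF {κ κ' : Type} [Fintype κ] [DecidableEq κ] [Fintype κ'] [DecidableEq κ']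
    (f : X.H [⋀^κ]→ₗ[ℚ] ℚ) (g : X.H [⋀^κ']→ₗ[ℚ] ℚ) : X.H [⋀^κ ⊕ κ']→ₗ[ℚ] ℚ :=
  MultilinearMap.alternatization ((LinearMap.mul' ℚ ℚ).compMultilinearMap
    (f.toMultilinearMap.domCoprod g.toMultilinearMap))

theorem cupF_apply {κ κ' : Type} [Fintype κ] [DecidableEq κ] [Fintype κ'] [DecidableEq κ']
    (f : X.H [⋀^κ]→ₗ[ℚ] ℚ) (g : X.H [⋀^κ']→ₗ[ℚ] ℚ) (v : κ ⊕ κ' → X.H) :
    cupF f g v = ∑ σ : Perm (κ ⊕ κ'), ((Perm.sign σ : ℤ) : ℚ) *
        (f (fun k => v (σ (Sum.inl k))) * g (fun k => v (σ (Sum.inr k)))) := by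
  unfold cupF
  rw [MultilinearMap.alternatization_apply]
  refine Finset.sum_congr rfl fun σ _ => ?_
  rw [Units.smul_def, zsmul_eq_mul]
  rfl

/-- The polarization as a class in the system. -/
theorem exists_divisor {E : X.H → X.H → ℚ} (hE : Pool.Agent.Y90.St.IsPolarization X.per E) :
    ∃ f : X.H [⋀^Fin 2]→ₗ[ℚ] ℚ, Alg X (Fin 2) f ∧ ∀ v, f v = E (v 0) (v 1) := by
  classical
  obtain ⟨H, hH, hHE⟩ := exists_herm hE
  have hadd : ∀ a b c, E (a + b) c = E a c + E b c := by
    intro a b c
    have h1 : ((E (a + b) c : ℚ) : ℝ) = ((E a c + E b c : ℚ) : ℝ) := by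
      rw [Rat.cast_add, ← hHE, ← hHE, ← hHE, map_add, hH.add_left, Complex.add_im]
    exact_mod_cast h1
  have hanti : ∀ a b, E a b = -E b a := by
    intro a b
    have h1 : ((E a b : ℚ) : ℝ) = ((-E b a : ℚ) : ℝ) := by
      rw [Rat.cast_neg, ← hHE, ← hHE, hH.symm (X.per b) (X.per a), Complex.conj_im]
    exact_mod_cast h1
  have hsmul : ∀ (q : ℚ) a c, E (q • a) c = q * E a c := by
    intro q a c
    have h1 : ((E (q • a) c : ℚ) : ℝ) = ((q * E a c : ℚ) : ℝ) := by
      rw [Rat.cast_mul, ← hHE, ← hHE, per_smul, hH.rsmul_left, Complex.im_ofReal_mul]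
    exact_mod_cast h1
  have hadd' : ∀ a b c, E c (a + b) = E c a + E c b := by
    intro a b c
    rw [hanti, hadd, hanti a, hanti b]
    ring
  have hsmul' : ∀ (q : ℚ) a c, E c (q • a) = q * E c a := by
    intro q a c
    rw [hanti, hsmul, hanti a]
    ring
  let f : X.H [⋀^Fin 2]→ₗ[ℚ] ℚ :=
    { toFun := fun v => E (v 0) (v 1)
      map_update_add' := by
        intro _ v i x y
        fin_cases i
        · simp [Function.update, hadd]
        · simp [Function.update, hadd']
      map_update_smul' := by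
        intro _ v i a x
        fin_cases i
        · simp [Function.update, hsmul]
        · simp [Function.update, hsmul']
      map_eq_zero_of_eq' := by
        intro v i j hij hne
        have h0 : ∀ a, E a a = 0 := by
          intro a
          have h1 := hanti a a
          linarith
        have h1 : v 0 = v 1 := by
          fin_cases i <;> fin_cases j <;> first | exact hij | exact hij.symm | exact absurd rfl hne
        change E (v 0) (v 1) = 0
        rw [h1]
        exact h0 _ }
  refine ⟨f, Alg.divisor (by simp) f ⟨bil (imB hH), fun v => ?_, fun z hz u => ?_⟩, fun v => rfl⟩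
  · exact hHE _ _
  · change (H (z • u 0) (z • u 1)).im = (H (u 0) (u 1)).im
    have h1 : H (z • u 0) (z • u 1) = H (u 0) (u 1) := by
      rw [hH.smul_left, hH.symm (z • u 1) (u 0), hH.smul_left, map_mul, ← hH.symm, ← mul_assoc,
        Complex.mul_conj, Complex.normSq_eq_norm_sq, hz]
      norm_num
    rw [h1]

/-- The powers of the polarization as classes in the system. -/
theorem exists_power {E : X.H → X.H → ℚ} (hE : Pool.Agent.Y90.St.IsPolarization X.per E) (m : ℕ) :
    ∃ (f : X.H [⋀^Fin m × Fin 2]→ₗ[ℚ] ℚ) (a : ℚ), a ≠ 0 ∧ Alg X (Fin m × Fin 2) f ∧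
      ∀ v, f v = a * altSum (powE E m) v := by
  classical
  obtain ⟨e, he, hev⟩ := exists_divisor hE
  induction m with
  | zero =>
    refine ⟨AlternatingMap.constOfIsEmpty ℚ _ _ 1, 1, one_ne_zero, Alg.unit _, fun v => ?_⟩
    unfold altSum powE
    simp
  | succ m ih =>
    obtain ⟨f, a, ha, hf, hfv⟩ := ih
    refine ⟨(cupF e f).domDomCongr (gE m), Fintype.card (Perm (Fin m × Fin 2)) * a,
      mul_ne_zero (Nat.cast_ne_zero.2 Fintype.card_ne_zero) ha,
      Alg.reindex _ _ (Alg.cup e f he hf _ fun v => cupF_apply e f v), fun v => ?_⟩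
    have h1 : ((cupF e f).domDomCongr (gE m)) v = cupF e f (fun p => v (gE m p)) := rfl
    have h2 : ∀ w : Fin 2 ⊕ (Fin m × Fin 2) → X.H, cupF e f w =
        altSum (times (fun u : Fin 2 → X.H => E (u 0) (u 1))
          (fun u => a * altSum (powE E m) u)) w := by
      intro w
      rw [cupF_apply]
      unfold altSum times
      refine Finset.sum_congr rfl fun σ _ => ?_
      rw [hev, hfv]
      rfl
    have h3 : altSum (times (fun u : Fin 2 → X.H => E (u 0) (u 1))
        (fun u => a * altSum (powE E m) u)) (fun p => v (gE m p)) =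
        a * altSum (times (fun u : Fin 2 → X.H => E (u 0) (u 1)) (altSum (powE E m)))
          (fun p => v (gE m p)) := by
      rw [← altSum_const_mul]
      congr 1
      funext w
      unfold times
      ring
    have h4 : altSum (powE E (m + 1)) v = altSum (times (fun u : Fin 2 → X.H => E (u 0) (u 1))
        (powE E m)) (fun p => v (gE m p)) := by
      rw [← altSum_reindex (gE m)]
      congr 1
      funext w
      unfold powE times
      rw [Fin.prod_univ_succ]
      rfl
    rw [h1, h2, h3, altSum_absorb, h4]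
    ring

/-- A vector on which all functionals vanishing at `1` vanish is rational. -/
theorem rational_of_functionals {K : Type} [Field K] [CharZero K] (y : K)
    (h : ∀ l : K →+ ℚ, l 1 = 0 → l y = 0) : ∃ a : ℚ, y = a := by
  let _ : Algebra ℚ K := DivisionRing.toRatAlgebra
  by_contra hne
  have h1 : y ∉ Submodule.span ℚ {(1 : K)} := by
    intro hy
    obtain ⟨a, ha⟩ := Submodule.mem_span_singleton.1 hy
    refine hne ⟨a, ?_⟩
    rw [← ha, Algebra.smul_def, mul_one, eq_ratCast]
  obtain ⟨l, hl1, hl2⟩ := Submodule.exists_dual_map_eq_bot_of_notMem h1 inferInstance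
  refine hl1 (h l.toAddMonoidHom ?_)
  have h2 : l 1 ∈ Submodule.map l (Submodule.span ℚ {(1 : K)}) :=
    Submodule.mem_map_of_mem (Submodule.mem_span_singleton_self 1)
  rw [hl2] at h2
  exact (Submodule.mem_bot ℚ).1 h2

/-- Combinations of classes of the system. -/
def IsGenerated {K : Type} [Field K] [CharZero K] {κ : Type} (z : (K ⊗[ℚ] X.H) [⋀^κ]→ₗ[K] K) :
    Prop :=
  ∃ (n : ℕ) (c : Fin n → K) (f : Fin n → (X.H [⋀^κ]→ₗ[ℚ] ℚ)),
      (∀ j, Alg X κ (f j)) ∧ ∀ v : κ → X.H, onH z v = ∑ j, c j * ((f j v : ℚ) : K)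

/-- The form obtained by applying an additive map to the coefficients. -/
theorem exists_functional_form {K : Type} [Field K] [CharZero K] {κ : Type}
    (z : (K ⊗[ℚ] X.H) [⋀^κ]→ₗ[K] K) (hz : IsGenerated z)
    (l : K →+ ℚ) : ∃ p : X.H [⋀^κ]→ₗ[ℚ] ℚ, Alg X κ p ∧ ∀ v, p v = l (onH z v) := by
  obtain ⟨n, c, g, hg, hz⟩ := hz
  refine ⟨∑ i, l (c i) • g i, ?_, fun v => ?_⟩
  · have h1 : ∀ s : Finset (Fin n), Alg X κ (∑ i ∈ s, l (c i) • g i) := by
      intro s
      classical
      induction s using Finset.induction_on with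
      | empty => exact Alg.zero X κ
      | insert i s hi ih =>
        rw [Finset.sum_insert hi]
        exact Alg.add _ _ (Alg.smul _ _ (hg i)) ih
    exact h1 Finset.univ
  · have h1 : onH z v = ∑ i, c i * (g i v : K) := hz v
    let ev : (X.H [⋀^κ]→ₗ[ℚ] ℚ) →+ ℚ :=
      { toFun := fun f => f v, map_zero' := rfl, map_add' := fun _ _ => rfl }
    have h0 : (∑ i, l (c i) • g i) v = ∑ i, (l (c i) • g i) v := map_sum ev _ _
    rw [h1, map_sum, h0]
    refine Finset.sum_congr rfl fun i _ => ?_
    have h2 : c i * (g i v : K) = (g i v) • c i := by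
      rw [Rat.smul_def, mul_comm]
    rw [h2, map_rat_smul, AlternatingMap.smul_apply, smul_eq_mul, smul_eq_mul, mul_comm]

/-- Additive maps and alternating sums. -/
theorem functional_altSum {P Q H K : Type} [Fintype P] [DecidableEq P] [Fintype Q] [DecidableEq Q]
    [Field K] [CharZero K] (l : K →+ ℚ) (g : (P → H) → K) (h : (Q → H) → ℚ) (v : P ⊕ Q → H) :
    l (altSum (times g (fun u => ((h u : ℚ) : K))) v) = altSum (times (fun u => l (g u)) h) v := by
  unfold altSum times
  rw [map_sum]
  refine Finset.sum_congr rfl fun σ _ => ?_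
  have h1 : ∀ (a b : ℚ) (y : K), l ((a : K) * (y * (b : K))) = a * (l y * b) := by
    intro a b y
    have h2 : (a : K) * (y * (b : K)) = (a * b) • y := by
      rw [Rat.smul_def, Rat.cast_mul]
      ring
    rw [h2, map_rat_smul, smul_eq_mul]
    ring
  have h3 := h1 ((Perm.sign σ : ℤ) : ℚ) (h (fun q => v (σ (Sum.inr q)))) (g (fun p => v (σ (Sum.inl p))))
  rw [Rat.cast_intCast] at h3
  exact h3

/-- A form which vanishes on the rational vectors is zero. -/
theorem eq_zero_of_onH {K : Type} [Field K] [CharZero K] {κ : Type} [Finite κ]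
    (z : (K ⊗[ℚ] X.H) [⋀^κ]→ₗ[K] K) (h : ∀ v, onH z v = 0) : z = 0 :=
  Pool.Agent.N995.OD.form_ext (k := ℚ) (K := K) fun v => (h v).trans rfl

/-- The standard conjecture of Hodge type for combinations of classes of the system. -/
theorem positive_of_generated {K : Type} [Field K] [CharZero K] {E : X.H → X.H → ℚ}
    (hE : Pool.Agent.Y90.St.IsPolarization X.per E) (r m : ℕ)
    (hrm : 2 * (2 * r + m) = finrank ℚ X.H) (z : (K ⊗[ℚ] X.H) [⋀^Fin r × Fin 2]→ₗ[K] K)
    (hgen : IsGenerated z) (hrat : HasRationalNumbers z) (hprim : IsPrimitive E m z)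
    (hz : z ≠ 0) : IsPositive E m z := by
  classical
  obtain ⟨v0, hv0⟩ := exists_vol_rat hE r m hrm
  obtain ⟨em, a, ha, hem, hemv⟩ := exists_power hE m
  -- primitivity of the rational forms
  have hprim' : ∀ l : K →+ ℚ, ∀ p : X.H [⋀^Fin r × Fin 2]→ₗ[ℚ] ℚ, (∀ v, p v = l (onH z v)) →
      ∀ v, altSum (times p (powE E (m + 1))) v = 0 := by
    intro l p hp v
    have h1 := congrArg l (hprim v)
    have h2 : (powE (castE K E) (m + 1) : (Fin (m + 1) × Fin 2 → X.H) → K) =
        fun u => ((powE E (m + 1) u : ℚ) : K) := by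
      funext u
      exact (powE_cast (Rat.castHom K) E (m + 1) u).symm
    rw [h2, functional_altSum, map_zero] at h1
    rw [← h1]
    congr 1
    funext w
    unfold times
    rw [hp]
  -- functionals vanishing at one
  have hvan : ∀ l : K →+ ℚ, l 1 = 0 → ∀ v, l (onH z v) = 0 := by
    intro l hl v
    obtain ⟨p, hp, hpv⟩ := exists_functional_form z hgen l
    by_contra hne
    have hp0 : p ≠ 0 := by
      intro h
      apply hne
      rw [← hpv, h]
      rfl
    obtain ⟨c, hc, hceq⟩ := hodgeRiemann_rat hE r m hrm p (hp.isHodge inferInstance) hp0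
      (hprim' l p hpv)
    -- the complementary class
    have hcomp : Alg X _ (cupF p em) := Alg.cup p em hp hem _ fun w => cupF_apply p em w
    have hcompv : ∀ w, cupF p em w = a * (Fintype.card (Perm (Fin m × Fin 2)) *
        altSum (times p (powE E m)) w) := by
      intro w
      have h1 : cupF p em w = altSum (times p (fun u => a * altSum (powE E m) u)) w := by
        rw [cupF_apply]
        unfold altSum times
        refine Finset.sum_congr rfl fun σ _ => ?_
        rw [hemv]
        rfl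
      rw [h1, ← altSum_absorb, ← altSum_const_mul]
      congr 1
      funext w
      unfold times
      ring
    obtain ⟨b, hb⟩ := hrat _ (cupF p em) (by
      rw [← hrm]
      simp only [Fintype.card_prod, Fintype.card_fin, Fintype.card_sum]
      ring) hcomp v0
    have h3 : l (altSum (times (onH z) (fun u => ((cupF p em u : ℚ) : K))) v0) = 0 := by
      rw [hb]
      have h4 : ((b : ℚ) : K) = b • (1 : K) := by rw [Rat.smul_def, mul_one]
      rw [h4, map_rat_smul, hl, smul_zero]
    rw [functional_altSum] at h3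
    have h4 : altSum (times (fun u => l (onH z u)) (cupF p em)) v0 =
        a * (Fintype.card (Perm (Fin m × Fin 2)) *
          (Fintype.card (Perm ((Fin r × Fin 2) ⊕ (Fin m × Fin 2))) *
            altSum (times p (times p (powE E m))) v0)) := by
      rw [← altSum_absorb, ← altSum_const_mul, ← altSum_const_mul]
      congr 1
      funext w
      change l (onH z (fun p => w (Sum.inl p))) * cupF p em (fun q => w (Sum.inr q)) = _
      rw [← hpv, hcompv]
      unfold times
      ring
    rw [h4] at h3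
    have h5 : altSum (times p (times p (powE E m))) v0 = 0 := by
      have h6 : (Fintype.card (Perm (Fin m × Fin 2)) : ℚ) ≠ 0 :=
        Nat.cast_ne_zero.2 Fintype.card_ne_zero
      have h7 : (Fintype.card (Perm ((Fin r × Fin 2) ⊕ (Fin m × Fin 2))) : ℚ) ≠ 0 :=
        Nat.cast_ne_zero.2 Fintype.card_ne_zero
      have h8 := (mul_eq_zero.1 h3).resolve_left ha
      have h9 := (mul_eq_zero.1 h8).resolve_left h6
      exact (mul_eq_zero.1 h9).resolve_left h7
    have h6 := hceq v0
    rw [h5, mul_zero] at h6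
    exact (mul_ne_zero hc.ne' hv0) h6.symm
  -- a retraction
  obtain ⟨l, hl⟩ : ∃ l : K →+ ℚ, l 1 = 1 := by
    let _ : Algebra ℚ K := DivisionRing.toRatAlgebra
    have h1 : (1 : K) ∉ (⊥ : Submodule ℚ K) := fun h => one_ne_zero ((Submodule.mem_bot ℚ).1 h)
    obtain ⟨l, hl, _⟩ := Submodule.exists_dual_map_eq_bot_of_notMem h1 inferInstance
    refine ⟨((l 1)⁻¹ • l).toAddMonoidHom, ?_⟩
    change (l 1)⁻¹ * l 1 = 1
    exact inv_mul_cancel₀ hl
  obtain ⟨p, hp, hpv⟩ := exists_functional_form z hgen l
  have hzp : ∀ v, onH z v = (p v : K) := by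
    intro v
    obtain ⟨b, hb⟩ := rational_of_functionals (onH z v) fun l' hl' => hvan l' hl' v
    have h1 : (b : K) = b • (1 : K) := by rw [Rat.smul_def, mul_one]
    rw [hpv, hb, h1, map_rat_smul, hl, smul_eq_mul, mul_one, Rat.smul_def, mul_one]
  have hp0 : p ≠ 0 := by
    intro h
    refine hz (eq_zero_of_onH z fun v => ?_)
    rw [hzp v, h]
    exact Rat.cast_zero
  obtain ⟨c, hc, hceq⟩ := hodgeRiemann_rat hE r m hrm p (hp.isHodge inferInstance) hp0
    (hprim' l p hpv)
  refine ⟨c, hc, fun v => ?_⟩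
  have h1 := congrArg (Rat.castHom K) (hceq v)
  rw [map_mul, map_mul, map_pow, map_neg, map_one, altSum_cast,
    altSum_cast, Rat.coe_castHom] at h1
  have hpow : ∀ k : ℕ, (powE (castE K E) k : (Fin k × Fin 2 → X.H) → K) =
      fun u => ((powE E k u : ℚ) : K) := by
    intro k
    funext u
    exact (powE_cast (Rat.castHom K) E k u).symm
  have h2 : altSum (times (onH z) (times (onH z) (powE (castE K E) m))) v =
      altSum (fun w => ((times p (times p (powE E m)) w : ℚ) : K)) v := by
    congr 1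
    funext w
    unfold times
    rw [hpow, hzp, hzp, Rat.cast_mul, Rat.cast_mul]
  have h3 : altSum (times (powE (castE K E) r) (times (powE (castE K E) r)
      (powE (castE K E) m))) v =
      altSum (fun w => ((times (powE E r) (times (powE E r) (powE E m)) w : ℚ) : K)) v := by
    congr 1
    funext w
    unfold times
    rw [hpow, hpow, Rat.cast_mul, Rat.cast_mul]
  rw [h2, h3]
  exact h1

open Pool.Agent.N995.OD in
/-- The standard conjecture of Hodge type for ordinary abelian varieties. -/
theorem hodgeStandard {K : Type} [Field K] [CharZero K] [Algebra K ℂ] [Algebra.IsAlgebraic K ℂ]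
    {Γ : Type} [Group Γ] {p n : ℕ} (hp : p.Prime) (hn : 0 < n) {𝔙 : ValuationSubring ℂ}
    (h𝔙 : 𝔙.valuation (p : ℂ) < 1) (X : AV) (hX : SmallTypes X ∨ FactorsOfSmall X)
    {E : X.H → X.H → ℚ} (hE : Pool.Agent.Y90.St.IsPolarization X.per E)
    {ρ : Representation K Γ (K ⊗[ℚ] X.H)} {χ : Γ →* K} {P : Type} [Nonempty P] {deg : P → ℕ}
    {F : P → Γ} (hdeg : ∀ y, 0 < deg y) (hO : IsOrdinary X.per E 𝔙 (p ^ n) ρ χ deg F)
    {L : X.H → X.H → ℚ} (hL : Pool.Agent.Y90.St.IsPolarization X.per L) (r m : ℕ)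
    (hrm : 2 * (2 * r + m) = finrank ℚ X.H) (z : (K ⊗[ℚ] X.H) [⋀^Fin r × Fin 2]→ₗ[K] K)
    (htate : ∃ Δ : Subgroup Γ, Δ.FiniteIndex ∧ ∀ g ∈ Δ, ∀ v : Fin r × Fin 2 → K ⊗[ℚ] X.H,
      z (fun k => ρ g (v k)) = χ g ^ r * z v)
    (hrat : HasRationalNumbers z) (hprim : IsPrimitive L m z) (hz : z ≠ 0) :
    IsPositive L m z := by
  refine positive_of_generated hL r m hrm z ?_ hrat hprim hz
  exact tate_classes hp hn h𝔙 X hX hE hdeg hO (by
    rw [Nat.card_eq_fintype_card, Fintype.card_prod, Fintype.card_fin, Fintype.card_fin, mul_comm])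
    z htate

end

end Pool.Agent.N995.HS
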