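import Mathlib
import Pool.Agent.N995.NcS
import Pool.Agent.N995.Main

/-!
# Hodge classes of categories generated by abelian varieties
-/

namespace Pool.Agent.N995.NC

open Module Pool.Agent.Y90 Pool.Agent.R915 Pool.Agent.N183.TS
open Pool.Agent.N995.OD
open Pool.Agent.H204R3.CM (IsHodge)

/-- All Hodge classes on the abelian varieties of small types. -/
theorem alg_of_small (X : AV) (hX : SmallTypes X ∨ FactorsOfSmall X) {κ : Type} [Finite κ]
    (w : X.H [⋀^κ]→ₗ[ℚ] ℚ) (hw : IsHodge X.per w) : Alg X κ w := by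
  rcases hX with ⟨h1, C, J, b, hC, h2, h3⟩ | ⟨A, hdim, hM, hX⟩
  · exact hodge_all algSys X h1 C b hC h2 h3 κ w hw
  · refine main_all algSys A hdim (fun Y hY h8 h1 => ?_) X hX κ w hw
    obtain ⟨f, hf, hc⟩ := hM Y hY h8
    obtain ⟨c, hcf⟩ := h1 f hf
    exact absurd hcf (hc c)

variable {W : Type} [AddCommGroup W] [Module ℚ W]

theorem hodge_le {J : Type} [Fintype J] {X : J → AV} {b : J → ℕ} {Hdg Z : Submodule ℚ W}
    {f : ∀ j, Coh (X j) (b j) →ₗ[ℚ] W} {g : ∀ j, W →ₗ[ℚ] Coh (X j) (b j)}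
    (hX : ∀ j, SmallTypes (X j) ∨ FactorsOfSmall (X j)) (h : IsDirectFactor X b Hdg Z f g) :
    Hdg ≤ Z := by
  intro w hw
  rw [← h.identity w]
  exact Submodule.sum_mem _ fun j _ => h.objects j _ (alg_of_small (X j) (hX j) _ (h.hodge j w hw))

end Pool.Agent.N995.NC
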