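import Mathlib
import Pool.Agent.N995.NcS

/-!
# Families of categories

Let `f : X → S` be a smooth proper morphism of complex varieties and `C` an `S`-linear admissible subcategory
of `D^perf(X)`. We use the space `G` of the global sections of the local system with the fibres
`W s = K_0^top(C_s) ⊗ ℚ`, `s ∈ S(ℂ)`, the evaluation maps `ev s : G → W s`, the spaces `Hdg s` of the Hodge
classes and the images `Z s` of the groups `K_0(C_s) ⊗ ℚ`.
-/

namespace Pool.Agent.N995.NC

variable {S : Type} {G : Type} [AddCommGroup G] [Module ℚ G] {W : S → Type}
  [∀ s, AddCommGroup (W s)] [∀ s, Module ℚ (W s)]

/-- The point `η` of `S` is very general, outside of the countably many proper closed subvarieties over which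
some class of an object of the fibre does not spread out. The known properties are: if a section is the class
of an object at one point then it is a Hodge class at all points (Deligne, Perry); and if it is at `η` a
combination of classes of objects then it is one at all points, because the objects of the fibre at a very
general point extend to objects over a generically finite covering of `S`, which can be extended to (a
resolution of) its closure and restricted to the other fibres. -/
structure IsFamily (ev : ∀ s, G →ₗ[ℚ] W s) (Hdg Z : ∀ s, Submodule ℚ (W s)) (η : S) : Prop where
  hodge : ∀ φ s, ev s φ ∈ Z s → ev η φ ∈ Hdg η
  spread : ∀ φ, ev η φ ∈ Z η → ∀ s, ev s φ ∈ Z s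

end Pool.Agent.N995.NC
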