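import Mathlib
import Pool.Agent.N995.OdG
import Pool.Agent.Y224.TS.Stm

/-!
# Cycles on singular and open varieties over finitely generated fields of characteristic zero

For a variety `U` over `k` and cycles of dimension `j` there are: the Borel-Moore homology group
`W = H_{2 j}(U ⊗ k̄, ℚ_ℓ(j))` (`K = ℚ_ℓ`), with the action `R` of the Galois group `Γ` of `k`, and the group `L` of
the classes in `W` of algebraic cycles on `U`. If `U` is smooth and projective there is moreover the rational
space `Z` of the classes of algebraic cycles on `U ⊗ k̄`.
-/

namespace Pool.Agent.N995.OT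

open Module TensorProduct Pool.Agent.Y90 Pool.Agent.R915 Pool.Agent.N995.OD

variable {K : Type} [Field K] [CharZero K] {Γ : Type} [Group Γ]
  {W WV : Type} [AddCommGroup W] [Module K W] [AddCommGroup WV] [Module K WV] [Module ℚ WV]

/-- The action of the subgroup `Δ` on `H^{2 b}(X ⊗ k̄, K)(b)`. -/
noncomputable def evenAction (X : AV) (ρ : Representation K Γ (K ⊗[ℚ] X.H)) (χ : Γ →* K)
    (Δ : Subgroup Γ) (b : ℕ) : Representation K Δ (Forms K X (2 * b)) :=
  coh (ρ.comp Δ.subtype) (χ.comp Δ.subtype) (Fin (2 * b)) b

/-- The properties of a map `f` from `H^{2 b}(X)(b)` to the homology group `WV = H_{2 j}(V)(j)` of a smooth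
projective variety `V` over `k` that is given by an algebraic correspondence between `X` and `V` (over the
field that belongs to `Δ`): it is equivariant, and it maps the classes in `Alg` to the rational space `Z` of
the classes of cycles over `k̄`, because the classes in `Alg` are algebraic by the theorems of Lefschetz and
Markman. -/
structure IsEvenCorrespondence (X : AV) (ρ : Representation K Γ (K ⊗[ℚ] X.H)) (χ : Γ →* K)
    (R : Representation K Γ WV) (Z : Submodule ℚ WV) (Δ : Subgroup Γ) {b : ℕ}
    (f : Forms K X (2 * b) →ₗ[K] WV) : Prop where
  equivariant : ∀ (g : Δ) w, f (evenAction X ρ χ Δ b g w) = R g (f w)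
  cycles : ∀ w c, Alg X (Fin (2 * b)) c → IsExtension X w c → f w ∈ Z

/-- The homology group `WV` of a smooth projective variety `V` over `k`, with the action `R` of the Galois
group and the rational space `Z` of the classes of cycles over `k̄`, is generated by the abelian variety
`X`: it is the sum of the images of the cohomology groups of `X` of even degree under algebraic
correspondences. The Galois group acts semisimply on the cohomology of `X` (Faltings). -/
def IsSumOfImages (X : AV) (ρ : Representation K Γ (K ⊗[ℚ] X.H)) (χ : Γ →* K)
    (R : Representation K Γ WV) (Z : Submodule ℚ WV) : Prop :=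
  ∃ Δ : Subgroup Γ, Δ.FiniteIndex ∧ (∀ b : ℕ, IsSemisimpleAction (evenAction X ρ χ Δ b)) ∧
    ∀ U : Submodule K WV, (∀ (b : ℕ) (f : Forms K X (2 * b) →ₗ[K] WV),
      IsEvenCorrespondence X ρ χ R Z Δ f → LinearMap.range f ≤ U) → U = ⊤

/-- The properties of the homology group `WV` of a smooth projective variety `V`, with the rational space `Z`
of the classes of cycles over `k̄` and the group `L` of the classes of cycles over `k`: the Galois group
permutes the classes of cycles over `k̄`, each is fixed by a subgroup of finite index, the invariant ones
have multiples that are classes of cycles over `k` (transfer), and the Galois group acts semisimply, also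
over finite extensions. -/
structure IsSmoothProjective (R : Representation K Γ WV) (Z : Submodule ℚ WV) (L : AddSubgroup WV) :
    Prop where
  stable : ∀ g, ∀ w ∈ Z, R g w ∈ Z
  finite : ∀ w ∈ Z, ∃ Δ : Subgroup Γ, Δ.FiniteIndex ∧ ∀ g ∈ Δ, R g w = w
  transfer : ∀ w ∈ fixedClasses R Z, ∃ n : ℕ, 0 < n ∧ n • w ∈ L
  semisimple : ∀ Δ : Subgroup Γ, Δ.FiniteIndex → ∀ U : Submodule K WV,
    (∀ g ∈ Δ, ∀ u ∈ U, R g u ∈ U) →
      ∃ U' : Submodule K WV, (∀ g ∈ Δ, ∀ u ∈ U', R g u ∈ U') ∧ IsCompl U U'

/-- `V` is a good proper cover of `U` in the sense of Jannsen: there are an open subvariety `V'` of the smooth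
projective variety `V` and a proper surjective map from `V'` to `U` (resolution of the singularities of a
compactification, or an alteration), and `u` is the restriction to `V'` followed by the direct image. Its
image is the part of weight zero of the homology group `W` of `U`, which contains the invariants. -/
structure IsGoodCover (RV : Representation K Γ WV) (LV : AddSubgroup WV)
    (R : Representation K Γ W) (L : AddSubgroup W) (u : WV →ₗ[K] W) : Prop where
  equivariant : ∀ g w, u (RV g w) = R g (u w)
  weights : ∀ w, (∀ g, R g w = w) → w ∈ LinearMap.range u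
  cycles : ∀ w ∈ LV, u w ∈ L
  fixed : ∀ w ∈ L, ∀ g, R g w = w

end Pool.Agent.N995.OT
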