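import Mathlib
import Pool.Agent.N995.OtS
import Pool.Agent.N995.Os3

/-!
# Cycles on singular and open varieties over finitely generated fields of characteristic zero
-/

set_option autoImplicit false
set_option linter.unusedSectionVars false

open Module TensorProduct

namespace Pool.Agent.N995.OT

open Pool.Agent.Y90 Pool.Agent.R915 Pool.Agent.N995.OD
open Pool.Agent.Y224.TS.St (IsTateModule)

noncomputable section

variable {K : Type} [Field K] [CharZero K] [Algebra K ℂ] [Algebra.IsAlgebraic K ℂ]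
  {Γ : Type} [Group Γ]

/-- All Tate classes are combinations of classes in `Alg`. -/
theorem tate_classes₀ (X : AV) (hX : SmallTypes X ∨ FactorsOfSmall X)
    {E : X.H → X.H → ℚ} (hE : Pool.Agent.Y90.St.IsPolarization X.per E)
    {ρ : Representation K Γ (K ⊗[ℚ] X.H)} {χ : Γ →* K} (hT : IsTateModule X.per E ρ χ)
    {κ : Type} [Finite κ] {m : ℕ} (hκ : Nat.card κ = 2 * m)
    (w : (K ⊗[ℚ] X.H) [⋀^κ]→ₗ[K] K)
    (hw : ∃ Δ : Subgroup Γ, Δ.FiniteIndex ∧ ∀ g ∈ Δ, ∀ v : κ → K ⊗[ℚ] X.H,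
      w (fun k => ρ g (v k)) = χ g ^ m * w v) :
    ∃ (n : ℕ) (c : Fin n → K) (f : Fin n → (X.H [⋀^κ]→ₗ[ℚ] ℚ)),
      (∀ j, Alg X κ (f j)) ∧
        ∀ v : κ → X.H, w (fun k => (1 : K) ⊗ₜ[ℚ] v k) = ∑ j, c j * ((f j v : ℚ) : K) := by
  rcases hX with ⟨hX, C, J, b, hC, h1, h2⟩ | ⟨A, hA, hA', hX⟩
  · exact Pool.Agent.N183.TS.tate_all algSys X hX C b hC h1 h2 hE hT hκ w hw
  · exact tate_alg5 algSys A hA hA' X hX hE hT hκ w hw

/-- The invariants on a smooth projective variety. -/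
theorem span₀ (X : AV) (hX : SmallTypes X ∨ FactorsOfSmall X)
    {E : X.H → X.H → ℚ} (hE : Pool.Agent.Y90.St.IsPolarization X.per E)
    {ρ : Representation K Γ (K ⊗[ℚ] X.H)} {χ : Γ →* K} (hT : IsTateModule X.per E ρ χ)
    {W : Type} [AddCommGroup W] [Module K W] [Module ℚ W] {R : Representation K Γ W}
    {Z : Submodule ℚ W} {L : AddSubgroup W} (hV : IsSmoothProjective R Z L)
    (hf : IsSumOfImages X ρ χ R Z) (w : W) (hw : ∀ g, R g w = w) :
    w ∈ Submodule.span K (fixedClasses R Z : Set W) := by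
  obtain ⟨Δ, hΔ, hss, hsum⟩ := hf
  refine span_fixed hV.stable hV.finite hw ?_
  have hSS : SS (R.comp Δ.subtype) := by
    intro U hU
    obtain ⟨U', h1, h2⟩ := hV.semisimple Δ hΔ U (fun g hg => hU ⟨g, hg⟩)
    exact ⟨U', fun g => h1 g g.2, h2⟩
  let J : Type := Σ b : ℕ, {f : Forms K X (2 * b) →ₗ[K] W // IsEvenCorrespondence X ρ χ R Z Δ f}
  have h0 := invariants_sum (R := R.comp Δ.subtype) hSS
    (A := fun j : J => Forms K X (2 * j.1))
    (S := fun j : J => evenAction X ρ χ Δ j.1)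
    (fun j => hss j.1) (fun j => j.2.1)
    (hsum _ fun b f hf => le_iSup (fun j : J => LinearMap.range j.2.1) ⟨b, f, hf⟩)
    (fun j g x => j.2.2.equivariant g x) w (fun g => hw g)
  refine (Submodule.span_le.2 ?_) h0
  rintro _ ⟨⟨m, f, hf⟩, x, hx, rfl⟩
  change f x ∈ Submodule.span K (Z : Set W)
  let x' : (K ⊗[ℚ] X.H) [⋀^Fin (2 * m)]→ₗ[K] K := x
  have hx' : ∀ (g : Δ) (v : Fin (2 * m) → K ⊗[ℚ] X.H),
      x' (fun k => ρ g (v k)) = χ g ^ m * x' v := fun g v =>
    coh_fixed (ρ := ρ.comp Δ.subtype) (χ := χ.comp Δ.subtype) (w := x') (hx g) v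
  obtain ⟨N, c, b, hb, h⟩ := tate_classes₀ X hX hE hT (κ := Fin (2 * m))
    (m := m) (by rw [Nat.card_eq_fintype_card, Fintype.card_fin]) x'
    ⟨Δ, hΔ, fun g hg v => hx' ⟨g, hg⟩ v⟩
  choose u hu using fun i => exists_ext' (k := ℚ) (K := K) (b i)
  have hu' : ∀ i (v : Fin (2 * m) → X.H), u i (fun k => 1 ⊗ₜ v k) = ((b i v : ℚ) : K) :=
    fun i v => hu i v
  have h1 : x' = ∑ i, c i • u i := by
    refine form_ext (k := ℚ) (K := K) fun v => ?_
    rw [h]
    have h2 : (∑ i, c i • u i) (fun k => (1 : K) ⊗ₜ[ℚ] v k) =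
        ∑ i, c i • u i (fun k => (1 : K) ⊗ₜ[ℚ] v k) := by
      let ev : ((K ⊗[ℚ] X.H) [⋀^Fin (2 * m)]→ₗ[K] K) →ₗ[K] K :=
        { toFun := fun w => w (fun k => (1 : K) ⊗ₜ[ℚ] v k)
          map_add' := fun _ _ => rfl
          map_smul' := fun _ _ => rfl }
      change ev (∑ i, c i • u i) = _
      rw [map_sum]
      rfl
    rw [h2]
    refine Finset.sum_congr rfl fun i _ => ?_
    rw [hu', smul_eq_mul]
  let F : ((K ⊗[ℚ] X.H) [⋀^Fin (2 * m)]→ₗ[K] K) →ₗ[K] W := f
  change F x' ∈ Submodule.span K (Z : Set W)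
  rw [h1, map_sum]
  refine Submodule.sum_mem _ fun i _ => ?_
  rw [map_smul]
  exact Submodule.smul_mem _ _ (Submodule.subset_span (hf.cycles _ _ (hb i) (hu' i)))

/-- **Jannsen's conjecture (a).** -/
theorem main₀ (X : AV) (hX : SmallTypes X ∨ FactorsOfSmall X)
    {E : X.H → X.H → ℚ} (hE : Pool.Agent.Y90.St.IsPolarization X.per E)
    {ρ : Representation K Γ (K ⊗[ℚ] X.H)} {χ : Γ →* K} (hT : IsTateModule X.per E ρ χ)
    {W WV : Type} [AddCommGroup W] [Module K W] [AddCommGroup WV] [Module K WV] [Module ℚ WV]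
    {RV : Representation K Γ WV} {Z : Submodule ℚ WV} {LV : AddSubgroup WV}
    {R : Representation K Γ W} {L : AddSubgroup W} {u : WV →ₗ[K] W}
    (hV : IsSmoothProjective RV Z LV) (hf : IsSumOfImages X ρ χ RV Z)
    (hU : IsGoodCover RV LV R L u) :
    Submodule.span K (L : Set W) = R.invariants := by
  refine le_antisymm (Submodule.span_le.2 fun w hw =>
    (Representation.mem_invariants R w).2 (hU.fixed w hw)) fun w hw => ?_
  have hw' := (Representation.mem_invariants R w).1 hw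
  obtain ⟨x, hx, rfl⟩ := lift_fixed u hU.equivariant (fun U hU => by
    obtain ⟨U', h1, h2⟩ := hV.semisimple ⊤ inferInstance U fun g _ => hU g
    exact ⟨U', fun g => h1 g trivial, h2⟩) hw' (hU.weights w hw')
  have h1 := span₀ X hX hE hT hV hf x hx
  have h2 : Submodule.span K (fixedClasses RV Z : Set WV) ≤
      (Submodule.span K (L : Set W)).comap u := by
    refine Submodule.span_le.2 fun z hz => ?_
    obtain ⟨n, hn, hz'⟩ := hV.transfer z hz
    have hn' : (n : K) ≠ 0 := by exact_mod_cast hn.ne'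
    have h3 : z = (n : K)⁻¹ • (n • z) := by
      rw [← Nat.cast_smul_eq_nsmul K, smul_smul, inv_mul_cancel₀ hn', one_smul]
    rw [h3]
    exact Submodule.smul_mem _ _ (Submodule.subset_span (hU.cycles _ hz'))
  exact h2 h1

end

end Pool.Agent.N995.OT
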